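import Pool.Agent.H25.AmpDefs

set_option autoImplicit false

namespace Pool.Agent.H25.Amp

open Finset

section perms
variable {D V : Type} (π : D → V) (fl : D → D) (h1 : ∀ d, π (fl d) = π d) (h2 : ∀ d, fl (fl d) = d)

/-- Swap the two darts at every vertex where `b` is true. -/
def toPerm (b : V → Bool) : Equiv.Perm D :=
  Function.Involutive.toPerm (fun d => if b (π d) then fl d else d) (by
    intro d
    by_cases h : b (π d) = true
    · simp [h, h1, h2]
    · simp [h])

lemma toPerm_apply (b : V → Bool) (d : D) :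
    toPerm π fl h1 h2 b d = if b (π d) then fl d else d := rfl

lemma sum_perms [Fintype D] [DecidableEq D] [DecidableEq V] {m : ℕ}
    (bit : (Fin m → Bool) → V → Bool) (rep : Fin m → D)
    (h3 : ∀ d d', π d' = π d → d' = d ∨ d' = fl d) (h4 : ∀ b i, bit b (π (rep i)) = b i)
    (h5 : ∀ i, fl (rep i) ≠ rep i) (h6 : ∀ d, fl d = d ∨ ∃ i, π d = π (rep i))
    (F : Equiv.Perm D → ℂ) :
    ∑ σ ∈ univ.filter (fun σ : Equiv.Perm D => ∀ d, π (σ d) = π d), F σ =
      ∑ b : Fin m → Bool, F (toPerm π fl h1 h2 (bit b)) := by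
  symm
  refine sum_bij (fun b _ => toPerm π fl h1 h2 (bit b)) (fun b _ => ?_) (fun b _ b' _ h => ?_)
    (fun σ hσ => ?_) (fun _ _ => rfl)
  · refine mem_filter.2 ⟨mem_univ _, fun d => ?_⟩
    rw [toPerm_apply]
    split_ifs
    · exact h1 d
    · rfl
  · funext i
    have := congrArg (fun σ : Equiv.Perm D => σ (rep i)) h
    simp only [toPerm_apply, h4] at this
    have h5' := h5 i
    cases hb : b i <;> cases hb' : b' i <;> rw [hb, hb'] at this
    · exact absurd this.symm h5'
    · exact absurd this h5'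
  · have hσ' := (mem_filter.1 hσ).2
    refine ⟨fun i => decide (σ (rep i) ≠ rep i), mem_univ _, ?_⟩
    ext d
    rw [toPerm_apply]
    rcases h6 d with h | ⟨i, hi⟩
    · rw [h, ite_self]
      rcases h3 d _ (hσ' d) with e | e
      · exact e.symm
      · rw [e, h]
    · rw [hi, h4]
      by_cases hs : σ (rep i) = rep i
      · simp only [hs, ne_eq, not_true_eq_false, decide_false, Bool.false_eq_true, if_false]
        rcases h3 _ _ hi with e | e
        · rw [e, hs]
        · rcases h3 d _ (hσ' d) with e' | e'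
          · exact e'.symm
          · exfalso
            rw [e, h2] at e'
            exact h5 i (σ.injective (e'.trans hs.symm))
      · simp only [hs, ne_eq, not_false_eq_true, decide_true, if_true]
        have hs' : σ (rep i) = fl (rep i) := (h3 _ _ (hσ' _)).resolve_left hs
        rcases h3 _ _ hi with e | e
        · rw [e, hs']
        · rcases h3 d _ (hσ' d) with e' | e'
          · exfalso
            rw [e] at e'
            exact h5 i (σ.injective (e'.trans hs'.symm))
          · exact e'.symm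

end perms

/-- Product along a chain of bits. -/
def pr (W : ℕ → Bool → Bool → GaussianInt) : ℕ → Bool → List Bool → Bool → GaussianInt
  | k, p, [], l => W k p l
  | k, p, c :: r, l => W k p c * pr W (k + 1) c r l

/-- Transfer recursion. -/
def trv (W : ℕ → Bool → Bool → GaussianInt) (l : Bool) : ℕ → ℕ → GaussianInt × GaussianInt
  | 0, k => (W k false l, W k true l)
  | n + 1, k =>
    match trv W l n (k + 1) with
    | (a, b) => (W k false false * a + W k false true * b, W k true false * a + W k true true * b)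

lemma sum_cons {M : Type} [AddCommMonoid M] (n : ℕ) (f : (Fin (n + 1) → Bool) → M) :
    ∑ b, f b = ∑ b : Fin n → Bool, f (Fin.cons false b) + ∑ b : Fin n → Bool, f (Fin.cons true b) := by
  rw [← (Fin.consEquiv (fun _ => Bool)).sum_comp, Fintype.sum_prod_type, Fintype.sum_bool, add_comm]
  rfl

lemma sum_pr (W : ℕ → Bool → Bool → GaussianInt) (l : Bool) : ∀ (n k : ℕ),
    ∑ b : Fin n → Bool, pr W k false (List.ofFn b) l = (trv W l n k).1 ∧
    ∑ b : Fin n → Bool, pr W k true (List.ofFn b) l = (trv W l n k).2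
  | 0, k => by simp [pr, trv]
  | n + 1, k => by
    obtain ⟨a, b⟩ := sum_pr W l n (k + 1)
    simp only [sum_cons, List.ofFn_succ, Fin.cons_zero, Fin.cons_succ, pr, trv, ← mul_sum, a, b,
      and_self]

lemma prod_pr (W : ℕ → Bool → Bool → GaussianInt) : ∀ (n k : ℕ) (β : Fin (n + 2) → Bool),
    ∏ j : Fin (n + 1), W (k + j) (β j.castSucc) (β j.succ) =
      pr W k (β 0) (List.ofFn (fun i : Fin n => β i.succ.castSucc)) (β (Fin.last _))
  | 0, k, β => by simp [pr]
  | n + 1, k, β => by
    rw [Fin.prod_univ_succ, List.ofFn_succ, pr]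
    have := prod_pr W n (k + 1) (fun i => β i.succ)
    congr 1
    rw [show β (Fin.last (n + 1 + 1)) = β (Fin.last (n + 1)).succ from rfl]
    refine Eq.trans (prod_congr rfl (fun j _ => ?_)) this
    rw [Fin.val_succ, show k + (j.val + 1) = k + 1 + j.val by omega]
    rfl

/-- The symplectic form on Gaussian integer vectors. -/
def omz (a b : GaussianInt × GaussianInt) : GaussianInt := a.1 * b.2 - a.2 * b.1

/-- The spinor g / N. -/
noncomputable def sp (N : ℕ) (g : GaussianInt × GaussianInt) : Fin 2 → ℂ :=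
  ![(g.1 : ℂ) / N, (g.2 : ℂ) / N]

lemma om_sp (N : ℕ) (a b : GaussianInt × GaussianInt) :
    om (sp N a) (sp N b) = ((omz a b : GaussianInt) : ℂ) / (N : ℂ) ^ 2 := by
  simp only [om, sp, omz, Matrix.cons_val_zero, Matrix.cons_val_one, map_sub, map_mul]
  ring

/-- The point with integer coordinates. -/
noncomputable def pt (a : ℤ × ℤ × ℤ) : EuclideanSpace ℝ (Fin 3) := !₂[a.1, a.2.1, a.2.2]

lemma spin (N : ℕ) (hN : 0 < N) (a b : ℤ × ℤ × ℤ) (l : ℤ) (g : GaussianInt × GaussianInt)
    (hl : 0 < l)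
    (h1 : (b.1 - a.1) ^ 2 + (b.2.1 - a.2.1) ^ 2 + (b.2.2 - a.2.2) ^ 2 = l ^ 2)
    (h2 : g.1.norm + g.2.norm = N ^ 2)
    (h3 : (⟨b.2.2 - a.2.2, 0⟩ : GaussianInt) * g.1 + ⟨b.1 - a.1, a.2.1 - b.2.1⟩ * g.2 =
      ⟨l, 0⟩ * g.1)
    (h4 : (⟨b.1 - a.1, b.2.1 - a.2.1⟩ : GaussianInt) * g.1 - ⟨b.2.2 - a.2.2, 0⟩ * g.2 =
      ⟨l, 0⟩ * g.2) :
    pt a ≠ pt b ∧ ‖sp N g 0‖ ^ 2 + ‖sp N g 1‖ ^ 2 = 1 ∧
      (pauli (‖pt b - pt a‖⁻¹ • (pt b - pt a))).mulVec (sp N g) = sp N g := by
  have hl' : (0 : ℝ) < l := by exact_mod_cast hl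
  have hn : ‖pt b - pt a‖ = l := by
    rw [EuclideanSpace.norm_eq, Fin.sum_univ_three, ← Real.sqrt_sq hl'.le]
    congr 1
    have : (((b.1 - a.1) ^ 2 + (b.2.1 - a.2.1) ^ 2 + (b.2.2 - a.2.2) ^ 2 : ℤ) : ℝ) =
        ((l ^ 2 : ℤ) : ℝ) := by rw [h1]
    push_cast at this
    simpa [pt] using this
  refine ⟨fun h => ?_, ?_, ?_⟩
  · rw [h, sub_self, norm_zero] at hn
    linarith
  · have hN' : (0 : ℝ) < N := by exact_mod_cast hN
    have e : ((g.1.norm + g.2.norm : ℤ) : ℝ) = (((N : ℤ) ^ 2 : ℤ) : ℝ) := by rw [h2]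
    push_cast at e
    rw [GaussianInt.intCast_real_norm, GaussianInt.intCast_real_norm] at e
    simp only [sp, Matrix.cons_val_zero, Matrix.cons_val_one, norm_div, div_pow,
      Complex.sq_norm, Complex.norm_natCast]
    field_simp
    exact e
  · rw [hn]
    have hlc : (l : ℂ) ≠ 0 := by exact_mod_cast hl.ne'
    have hNc : (N : ℂ) ≠ 0 := by exact_mod_cast hN.ne'
    have e3 := congrArg GaussianInt.toComplex h3
    have e4 := congrArg GaussianInt.toComplex h4
    simp only [map_add, map_sub, map_mul, GaussianInt.toComplex_def'] at e3 e4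
    push_cast at e3 e4
    ext i
    fin_cases i
    · simp [pauli, pt, sp, Matrix.mulVec, dotProduct, Fin.sum_univ_two]
      field_simp
      linear_combination e3
    · simp [pauli, pt, sp, Matrix.mulVec, dotProduct, Fin.sum_univ_two]
      field_simp
      linear_combination e4

end Pool.Agent.H25.Amp
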