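import Pool.Agent.H25.Amp

set_option autoImplicit false

namespace Pool.Agent.H25.Amp.Cyc

open Finset

/-- The cycle on 17 vertices. -/
def G : SimpleGraph (Fin 17) where
  Adj a b := a + 1 = b ∨ b + 1 = a
  symm := ⟨fun _ _ h => h.symm⟩
  loopless := ⟨by decide⟩

instance : DecidableRel G.Adj := by unfold G; infer_instance

/-- Vertices of a nearly regular convex polygon in the plane y = 0. -/
def X : Fin 17 → ℤ × ℤ × ℤ :=
  ![(0, 0, 0), (0, 0, 110556), (50400, 0, 203381), (125400, 0, 277756), (217800, 0, 328931), (321024, 0, 351324), (422424, 0, 321749), (497424, 0, 247374), (554208, 0, 158311), (577464, 0, 55278), (554208, 0, -47755), (497424, 0, -136818), (422424, 0, -211193), (321024, 0, -240768), (217800, 0, -218375), (125400, 0, -167200), (50400, 0, -92825)]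

/-- Half-angle vectors of length 325. -/
def A : Fin 17 → ℤ × ℤ :=
  ![(325, 0), (315, 80), (300, 125), (280, 165), (253, 204), (195, 260), (125, 300), (91, 312), (36, 323), (-36, 323), (-91, 312), (-125, 300), (-195, 260), (-253, 204), (-280, 165), (-300, 125), (-315, 80)]

/-- 325 times the spinor of a dart. -/
def gz (d : G.Dart) : GaussianInt × GaussianInt :=
  if d.fst + 1 = d.snd then (⟨(A d.fst).1, 0⟩, ⟨(A d.fst).2, 0⟩)
  else (⟨-(A d.snd).2, 0⟩, ⟨(A d.snd).1, 0⟩)

/-- Edge lengths. -/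
def len (d : G.Dart) : ℤ := if d.fst.val + d.snd.val = 1 then 110556 else 105625

/-- The other dart at the same vertex. -/
def fl (d : G.Dart) : G.Dart :=
  if h : G.Adj d.fst (d.fst + d.fst - d.snd) then ⟨(d.fst, d.fst + d.fst - d.snd), h⟩ else d

/-- The forward dart of edge k. -/
def fwd (k : Fin 17) : G.Dart := ⟨(k, k + 1), Or.inl rfl⟩

lemma h1 : ∀ d, (fl d).fst = d.fst := by decide +kernel
lemma h2 : ∀ d, fl (fl d) = d := by decide +kernel
lemma h3 : ∀ d d' : G.Dart, d'.fst = d.fst → d' = d ∨ d' = fl d := by decide +kernel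
lemma h5 : ∀ i : Fin 17, fl (fwd i) ≠ fwd i := by decide +kernel
lemma fwd_inj : Function.Injective fwd := by decide +kernel

/-- The chosen orientation. -/
def Δ : Finset G.Dart := univ.map ⟨fwd, fwd_inj⟩

lemma orient : Orientation G Δ := by unfold Orientation; decide +kernel

set_option synthInstance.maxSize 2000 in
lemma data : ∀ d : G.Dart, 0 < len d ∧
    ((X d.snd).1 - (X d.fst).1) ^ 2 + ((X d.snd).2.1 - (X d.fst).2.1) ^ 2 +
      ((X d.snd).2.2 - (X d.fst).2.2) ^ 2 = len d ^ 2 ∧
    (gz d).1.norm + (gz d).2.norm = (325 : ℕ) ^ 2 ∧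
    (⟨(X d.snd).2.2 - (X d.fst).2.2, 0⟩ : GaussianInt) * (gz d).1 +
      ⟨(X d.snd).1 - (X d.fst).1, (X d.fst).2.1 - (X d.snd).2.1⟩ * (gz d).2 =
        ⟨len d, 0⟩ * (gz d).1 ∧
    (⟨(X d.snd).1 - (X d.fst).1, (X d.snd).2.1 - (X d.fst).2.1⟩ : GaussianInt) * (gz d).1 -
      ⟨(X d.snd).2.2 - (X d.fst).2.2, 0⟩ * (gz d).2 = ⟨len d, 0⟩ * (gz d).2 := by decide +kernel

lemma spinors : Spinors G (fun v => pt (X v)) (fun d => sp 325 (gz d)) := fun d =>
  spin 325 (by norm_num) _ _ _ _ (data d).1 (data d).2.1 (data d).2.2.1 (data d).2.2.2.1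
    (data d).2.2.2.2

/-- Edge weights of the transfer recursion. -/
def W (k : ℕ) (c c' : Bool) : GaussianInt :=
  if h : k < 17 then omz (gz (if c then fl (fwd ⟨k, h⟩) else fwd ⟨k, h⟩))
    (gz (if c' then fl (fwd ⟨k, h⟩).symm else (fwd ⟨k, h⟩).symm)) else 0

lemma num : (trv W false 16 0).1 + (trv W true 16 0).2 =
    ⟨25105618739792504256531314676966286616736411495415438794114626944065093994140625000000, 0⟩ := by decide +kernel
lemma den : ∏ k : Fin 17, omz (gz (fwd k)) (gz (fwd k).symm) =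
    ⟨25353287035127097130689645724597279272824142982989403805049732909537851810455322265625, 0⟩ := by decide +kernel

theorem value : ‖amp G (fun d => sp 325 (gz d)) Δ‖ < 1 := by
  rw [amp, sum_perms (fun d : G.Dart => d.fst) fl h1 h2 (fun b => b) fwd h3 (fun _ _ => rfl) h5
    (fun d => Or.inr ⟨d.fst, rfl⟩)]
  have e : ∀ (c : Bool) (b : Fin 16 → Bool), ∏ k : Fin 17,
      omz (gz (toPerm (fun d : G.Dart => d.fst) fl h1 h2 (Fin.cons c b) (fwd k)))
        (gz (toPerm (fun d : G.Dart => d.fst) fl h1 h2 (Fin.cons c b) (fwd k).symm)) =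
      pr W 0 c (List.ofFn b) c := by
    intro c b
    have := prod_pr W 16 0 (Fin.snoc (α := fun _ => Bool) (Fin.cons c b : Fin 17 → Bool) c)
    simp only [Fin.snoc_castSucc, Fin.cons_succ, zero_add, Fin.snoc_last] at this
    refine Eq.trans (prod_congr rfl (fun k _ => ?_)) this
    rw [W, dif_pos k.2]
    have : Fin.snoc (α := fun _ => Bool) (Fin.cons c b : Fin 17 → Bool) c k.succ =
        (Fin.cons c b : Fin 17 → Bool) (k + 1) := by
      fin_cases k <;> rfl
    rw [this]
    rfl
  simp only [Δ, prod_map, Function.Embedding.coeFn_mk, om_sp, prod_div_distrib, ← map_prod,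
    ← sum_div, ← map_sum]
  rw [sum_cons]
  simp only [e, (sum_pr W false 16 0).1, (sum_pr W true 16 0).2, num, den]
  rw [div_div_div_cancel_right₀ (by simp)]
  simp only [GaussianInt.toComplex_def', Int.cast_zero, zero_mul, add_zero, norm_div,
    Complex.norm_intCast]
  norm_num

end Pool.Agent.H25.Amp.Cyc
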