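import Mathlib

set_option autoImplicit false

namespace Pool.Agent.H25.Amp

open Finset

/-- The matrix u . sigma = u_1 sigma_1 + u_2 sigma_2 + u_3 sigma_3 built from the Pauli
matrices. -/
def pauli (u : EuclideanSpace ℝ (Fin 3)) : Matrix (Fin 2) (Fin 2) ℂ :=
  (u 0 : ℂ) • !![0, 1; 1, 0] + (u 1 : ℂ) • !![0, -Complex.I; Complex.I, 0] +
    (u 2 : ℂ) • !![1, 0; 0, -1]

/-- The standard symplectic form on C^2. -/
def om (a b : Fin 2 → ℂ) : ℂ := a 0 * b 1 - a 1 * b 0

variable {V : Type} (G : SimpleGraph V)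

/-- x is an admissible configuration and psi assigns to every ordered edge (i,j) a unit vector
fixed by u_ij . sigma, where u_ij is the unit vector from x i towards x j. -/
def Spinors (x : V → EuclideanSpace ℝ (Fin 3)) (ψ : G.Dart → Fin 2 → ℂ) : Prop :=
  ∀ d : G.Dart, x d.fst ≠ x d.snd ∧ ‖ψ d 0‖ ^ 2 + ‖ψ d 1‖ ^ 2 = 1 ∧
    (pauli (‖x d.snd - x d.fst‖⁻¹ • (x d.snd - x d.fst))).mulVec (ψ d) = ψ d

/-- Delta contains exactly one of the two orders of every edge. -/
def Orientation (Δ : Finset G.Dart) : Prop := ∀ d : G.Dart, d ∈ Δ ↔ d.symm ∉ Δ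

/-- The amplitude: the sum over all permutations of the ordered edges preserving the first
vertex, divided by the term of the identity. -/
noncomputable def amp [Fintype V] [DecidableEq V] [DecidableRel G.Adj]
    (ψ : G.Dart → Fin 2 → ℂ) (Δ : Finset G.Dart) : ℂ :=
  (∑ σ ∈ univ.filter (fun σ : Equiv.Perm G.Dart => ∀ d, (σ d).fst = d.fst),
    ∏ d ∈ Δ, om (ψ (σ d)) (ψ (σ d.symm))) / ∏ d ∈ Δ, om (ψ d) (ψ d.symm)

end Pool.Agent.H25.Amp
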