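import Pool.Agent.H25.Amp

set_option autoImplicit false

namespace Pool.Agent.H25.Amp.Path

open Finset

/-- The path on 18 vertices. -/
def G : SimpleGraph (Fin 18) where
  Adj a b := a.val + 1 = b.val ∨ b.val + 1 = a.val
  symm := ⟨fun _ _ h => h.symm⟩
  loopless := ⟨fun _ h => by omega⟩

instance : DecidableRel G.Adj := by unfold G; infer_instance

/-- Positions: unit steps in directions x, y, z cyclically. -/
def X (v : Fin 18) : ℤ × ℤ × ℤ := ((v.val + 2) / 3, (v.val + 1) / 3, v.val / 3)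

/-- Twice the spinor of a dart. -/
def gz (d : G.Dart) : GaussianInt × GaussianInt :=
  if d.fst.val < d.snd.val then
    (if d.fst.val % 3 = 0 then (⟨1, 1⟩, ⟨1, 1⟩) else if d.fst.val % 3 = 1 then (⟨1, 1⟩, ⟨-1, 1⟩)
      else (⟨2, 0⟩, ⟨0, 0⟩))
  else
    (if d.snd.val % 3 = 0 then (⟨1, 1⟩, ⟨-1, -1⟩) else if d.snd.val % 3 = 1 then (⟨1, 1⟩, ⟨1, -1⟩)
      else (⟨0, 0⟩, ⟨2, 0⟩))

/-- The other dart at the same vertex. -/
def fl (d : G.Dart) : G.Dart :=
  if h : G.Adj d.fst (d.fst + d.fst - d.snd) then ⟨(d.fst, d.fst + d.fst - d.snd), h⟩ else d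

/-- The forward dart of edge k. -/
def fwd (k : Fin 17) : G.Dart := ⟨(k.castSucc, k.succ), Or.inl rfl⟩

lemma h1 : ∀ d, (fl d).fst = d.fst := by decide +kernel
lemma h2 : ∀ d, fl (fl d) = d := by decide +kernel
lemma h3 : ∀ d d' : G.Dart, d'.fst = d.fst → d' = d ∨ d' = fl d := by decide +kernel
lemma h5 : ∀ i : Fin 16, fl (fwd i.succ) ≠ fwd i.succ := by decide +kernel
lemma h6 : ∀ d, fl d = d ∨ ∃ i : Fin 16, d.fst = (fwd i.succ).fst := by decide +kernel
lemma fwd_inj : Function.Injective fwd := by decide +kernel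

/-- The chosen orientation. -/
def Δ : Finset G.Dart := univ.map ⟨fwd, fwd_inj⟩

lemma orient : Orientation G Δ := by unfold Orientation; decide +kernel

lemma data : ∀ d : G.Dart,
    ((X d.snd).1 - (X d.fst).1) ^ 2 + ((X d.snd).2.1 - (X d.fst).2.1) ^ 2 +
      ((X d.snd).2.2 - (X d.fst).2.2) ^ 2 = 1 ^ 2 ∧
    (gz d).1.norm + (gz d).2.norm = (2 : ℕ) ^ 2 ∧
    (⟨(X d.snd).2.2 - (X d.fst).2.2, 0⟩ : GaussianInt) * (gz d).1 +
      ⟨(X d.snd).1 - (X d.fst).1, (X d.fst).2.1 - (X d.snd).2.1⟩ * (gz d).2 = ⟨1, 0⟩ * (gz d).1 ∧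
    (⟨(X d.snd).1 - (X d.fst).1, (X d.snd).2.1 - (X d.fst).2.1⟩ : GaussianInt) * (gz d).1 -
      ⟨(X d.snd).2.2 - (X d.fst).2.2, 0⟩ * (gz d).2 = ⟨1, 0⟩ * (gz d).2 := by decide +kernel

lemma spinors : Spinors G (fun v => pt (X v)) (fun d => sp 2 (gz d)) := fun d =>
  spin 2 (by norm_num) _ _ 1 _ one_pos (data d).1 (data d).2.1 (data d).2.2.1 (data d).2.2.2

/-- Edge weights of the transfer recursion. -/
def W (k : ℕ) (c c' : Bool) : GaussianInt :=
  if h : k < 17 then omz (gz (if c then fl (fwd ⟨k, h⟩) else fwd ⟨k, h⟩))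
    (gz (if c' then fl (fwd ⟨k, h⟩).symm else (fwd ⟨k, h⟩).symm)) else 0

/-- Bits at the vertices. -/
def bit (b : Fin 16 → Bool) : Fin 18 → Bool := Fin.cons false (Fin.snoc b false)

lemma num : (trv W false 16 0).1 = ⟨805205704704, -8641843298304⟩ := by decide +kernel
lemma den : ∏ k : Fin 17, omz (gz (fwd k)) (gz (fwd k).symm) = ⟨-17179869184, 0⟩ := by
  decide +kernel

lemma tree : G.IsTree := by
  rw [SimpleGraph.isTree_iff_connected_and_card]
  have key : ∀ (k : ℕ) (hk : k < 18), G.Reachable 0 ⟨k, hk⟩ := by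
    intro k
    induction k with
    | zero => intro _; exact SimpleGraph.Reachable.refl _
    | succ k ih =>
      intro hk
      exact (ih (by omega)).trans (SimpleGraph.Adj.reachable (Or.inl rfl))
  refine ⟨⟨fun u v => (key u.1 u.2).symm.trans (key v.1 v.2)⟩, ?_⟩
  rw [Nat.card_eq_fintype_card, ← SimpleGraph.edgeFinset_card, Nat.card_eq_fintype_card]
  decide +kernel

theorem value : (amp G (fun d => sp 2 (gz d)) Δ).re < 1 := by
  have hb : ∀ (b : Fin 16 → Bool) (i : Fin 16), bit b i.succ.castSucc = b i := by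
    intro b i
    rw [← Fin.succ_castSucc, bit, Fin.cons_succ, Fin.snoc_castSucc]
  rw [amp, sum_perms (fun d : G.Dart => d.fst) fl h1 h2 bit (fun i => fwd i.succ) h3 hb h5 h6]
  have e : ∀ b : Fin 16 → Bool, ∏ k : Fin 17,
      omz (gz (toPerm (fun d : G.Dart => d.fst) fl h1 h2 (bit b) (fwd k)))
        (gz (toPerm (fun d : G.Dart => d.fst) fl h1 h2 (bit b) (fwd k).symm)) =
      pr W 0 false (List.ofFn b) false := by
    intro b
    have := prod_pr W 16 0 (bit b)
    simp only [hb, zero_add] at this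
    refine Eq.trans (prod_congr rfl (fun k _ => ?_)) this
    rw [W, dif_pos k.2]
    rfl
  simp only [Δ, prod_map, Function.Embedding.coeFn_mk, om_sp, prod_div_distrib, ← map_prod, e,
    ← sum_div, ← map_sum, (sum_pr W false 16 0).1, num, den]
  rw [div_div_div_cancel_right₀ (by simp)]
  simp only [GaussianInt.toComplex_def', Complex.div_re]
  norm_num

end Pool.Agent.H25.Amp.Path
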