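import Mathlib

namespace Pool.Agent.H25.BRC

open Matrix Finset

variable {ι : Type} [Fintype ι] [DecidableEq ι]

lemma signs_aux (M : Matrix ι ι ℚ) (s : Finset ι) :
    ∃ ε : ι → ℚ, (∀ i, ε i = 1 ∨ ε i = -1) ∧
      (Matrix.of fun i j => if i ∈ s then M i j + (if i = j then ε i else 0)
        else (if i = j then 1 else 0)).det ≠ 0 := by
  induction s using Finset.induction_on with
  | empty =>
    refine ⟨fun _ => 1, fun _ => Or.inl rfl, ?_⟩
    have : (Matrix.of fun i j => if i ∈ (∅ : Finset ι) then M i j + (if i = j then (1 : ℚ) else 0)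
        else (if i = j then 1 else 0)) = 1 := by
      ext i j; simp [Matrix.one_apply]
    rw [this]; simp
  | insert a s ha ih =>
    obtain ⟨ε, hε, hd⟩ := ih
    set N : Matrix ι ι ℚ := Matrix.of fun i j => if i ∈ s then M i j + (if i = j then ε i else 0)
        else (if i = j then 1 else 0) with hN
    have key : ∀ c : ℚ, (Matrix.of fun i j => if i ∈ insert a s then
        M i j + (if i = j then Function.update ε a c i else 0) else (if i = j then 1 else 0)).det
        = (N.updateRow a (M a)).det + c * N.det := by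
      intro c
      have e1 : (Matrix.of fun i j => if i ∈ insert a s then
          M i j + (if i = j then Function.update ε a c i else 0) else (if i = j then 1 else 0))
          = N.updateRow a (M a + c • N a) := by
        ext i j
        by_cases h : i = a
        · subst h; simp [hN, ha]
        · simp [hN, h]
      rw [e1, det_updateRow_add, det_updateRow_smul, updateRow_eq_self]
    by_cases h1 : (N.updateRow a (M a)).det + 1 * N.det = 0
    · refine ⟨Function.update ε a (-1), ?_, ?_⟩
      · intro i; by_cases h : i = a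
        · subst h; simp
        · simp [h, hε i]
      · rw [key]; intro h2; apply hd; linarith
    · refine ⟨Function.update ε a 1, ?_, ?_⟩
      · intro i; by_cases h : i = a
        · subst h; simp
        · simp [h, hε i]
      · rw [key]; exact h1

/-- some choice of signs makes `M + diag ε` invertible -/
lemma signs (M : Matrix ι ι ℚ) :
    ∃ ε : ι → ℚ, (∀ i, ε i = 1 ∨ ε i = -1) ∧ (M + diagonal ε).det ≠ 0 := by
  obtain ⟨ε, h1, h2⟩ := signs_aux M univ
  refine ⟨ε, h1, ?_⟩
  convert h2 using 2
  ext i j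
  simp [diagonal_apply]

lemma not_six (x y w : ℚ) (hy : y ≠ 0) : 6 * x ^ 2 ≠ y ^ 2 + w ^ 2 := by
  intro h
  have h3 : Fact (Nat.Prime 3) := ⟨by norm_num⟩
  have hx : x ≠ 0 := by
    rintro rfl
    have : y ^ 2 ≤ 0 := by nlinarith [sq_nonneg w]
    exact hy (by nlinarith [sq_nonneg y])
  -- clear denominators
  have key : ∀ n : ℕ, ∀ a b c : ℤ, a.natAbs ≤ n → 6 * a ^ 2 = b ^ 2 + c ^ 2 → a = 0 := by
    intro n
    induction n with
    | zero => intro a b c h _; omega
    | succ n ih =>
      intro a b c hn h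
      have hb : b % 3 = 0 ∧ c % 3 = 0 := by
        have h1 : (b ^ 2 + c ^ 2) % 3 = 0 := by omega
        rcases (by omega : b % 3 = 0 ∨ b % 3 = 1 ∨ b % 3 = 2) with hb | hb | hb <;>
        rcases (by omega : c % 3 = 0 ∨ c % 3 = 1 ∨ c % 3 = 2) with hc | hc | hc <;>
        simp [pow_two, Int.add_emod, Int.mul_emod, hb, hc] at h1 ⊢
      obtain ⟨b', rfl⟩ := Int.dvd_of_emod_eq_zero hb.1
      obtain ⟨c', rfl⟩ := Int.dvd_of_emod_eq_zero hb.2
      have ha : a % 3 = 0 := by
        have h1 : (2 * a ^ 2) % 3 = 0 := by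
          have : 2 * a ^ 2 = 3 * (b' ^ 2 + c' ^ 2) := by linarith
          omega
        rcases (by omega : a % 3 = 0 ∨ a % 3 = 1 ∨ a % 3 = 2) with ha | ha | ha <;>
        simp [pow_two, Int.mul_emod, ha] at h1 ⊢
      obtain ⟨a', rfl⟩ := Int.dvd_of_emod_eq_zero ha
      by_cases h0 : a' = 0
      · simp [h0]
      · have := ih a' b' c' (by omega) (by linarith)
        exact absurd this h0
  have := key _ (x.num * y.den * w.den) (y.num * x.den * w.den) (w.num * x.den * y.den) le_rfl (by
    have hx := Rat.mul_den_eq_num x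
    have hy := Rat.mul_den_eq_num y
    have hw := Rat.mul_den_eq_num w
    have : (6 : ℚ) * ((x.num : ℚ) * y.den * w.den) ^ 2 =
        ((y.num : ℚ) * x.den * w.den) ^ 2 + ((w.num : ℚ) * x.den * y.den) ^ 2 := by
      rw [← hx, ← hy, ← hw]
      have : (6 : ℚ) * (x * x.den * y.den * w.den) ^ 2 =
        (6 * x ^ 2) * (x.den * y.den * w.den) ^ 2 := by ring
      rw [this, h]; ring
    exact_mod_cast this)
  simp [hx, y.den_nz, w.den_nz] at this

def B4 : Matrix (Fin 4) (Fin 4) ℚ := !![2, 1, 1, 0; -1, 2, 0, 1; -1, 0, 2, -1; 0, -1, 1, 2]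

lemma B4_sq (y : Fin 4 → ℚ) : ∑ a, (∑ b, B4 a b * y b) ^ 2 = 6 * ∑ b, y b ^ 2 := by
  simp [B4, Fin.sum_univ_four]; ring

/-- Bruck-Ryser for order 6, matrix form -/
theorem no_six {P : Type} [Fintype P] [DecidableEq P] (hP : Fintype.card P = 43)
    (A : P → P → ℚ) (hA : ∀ p q, ∑ l, A p l * A q l = if p = q then 7 else 1) : False := by
  have e : Option P ≃ Fin 11 × Fin 4 := Fintype.equivOfCardEq (by simp [hP])
  let H : Option P → Option P → ℚ := fun r s =>
    if (e r).1 = (e s).1 then B4 (e r).2 (e s).2 / 6 else 0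
  have hH : ∀ y : Option P → ℚ, 6 * ∑ r, (∑ s, H r s * y s) ^ 2 = ∑ s, y s ^ 2 := by
    intro y
    have h1 : ∀ r, ∑ s, H r s * y s = (∑ b, B4 (e r).2 b * y (e.symm ((e r).1, b))) / 6 := by
      intro r
      rw [← e.symm.sum_comp, Fintype.sum_prod_type, Finset.sum_eq_single (e r).1, Finset.sum_div]
      · apply Finset.sum_congr rfl; intro b _; simp [H]; ring
      · intro i _ hi; simp [H, Ne.symm hi]
      · simp
    simp_rw [h1]
    rw [← e.symm.sum_comp, ← e.symm.sum_comp (fun s => y s ^ 2), Fintype.sum_prod_type,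
      Fintype.sum_prod_type, Finset.mul_sum]
    apply Finset.sum_congr rfl
    intro i _
    simp only [Equiv.apply_symm_apply, div_pow]
    rw [← Finset.sum_div, B4_sq (fun b => y (e.symm (i, b)))]
    ring
  have hQ : ∀ x : P → ℚ, ∑ l, (∑ p, A p l * x p) ^ 2 = 6 * ∑ p, x p ^ 2 + (∑ p, x p) ^ 2 := by
    intro x
    have : ∀ l, (∑ p, A p l * x p) ^ 2 = ∑ p, ∑ q, x p * x q * (A p l * A q l) := by
      intro l; rw [pow_two, Finset.sum_mul_sum]
      exact Finset.sum_congr rfl fun p _ => Finset.sum_congr rfl fun q _ => by ring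
    simp_rw [this]
    rw [Finset.sum_comm, pow_two (∑ p, x p), Finset.sum_mul_sum, Finset.mul_sum,
      ← Finset.sum_add_distrib]
    apply Finset.sum_congr rfl
    intro p _
    rw [Finset.sum_comm]
    simp_rw [← Finset.mul_sum, hA]
    have : ∀ q, x p * x q * (if p = q then (7 : ℚ) else 1) =
        (if p = q then 6 * x p ^ 2 else 0) + x p * x q := by
      intro q; split_ifs with h
      · subst h; ring
      · ring
    simp_rw [this]
    rw [Finset.sum_add_distrib, Finset.sum_ite_eq, if_pos (mem_univ _), Finset.mul_sum]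
  let M : Matrix P P ℚ := Matrix.of fun l q => ∑ r, A r l * H (some r) (some q)
  let b : P → ℚ := fun l => ∑ r, A r l * H (some r) none
  obtain ⟨ε, hε, hd⟩ := signs M
  obtain ⟨z, hz⟩ : ∃ z, (M + diagonal ε).mulVec z = -b :=
    ⟨(M + diagonal ε)⁻¹.mulVec (-b), by
      rw [mulVec_mulVec, mul_nonsing_inv _ (Ne.isUnit hd), one_mulVec]⟩
  let y : Option P → ℚ := fun s => s.elim 1 z
  let x : Option P → ℚ := fun r => ∑ s, H r s * y s
  have hL : ∀ l, (∑ p, A p l * x (some p)) ^ 2 = z l ^ 2 := by
    intro l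
    have h1 := congrFun hz l
    rw [add_mulVec, Pi.add_apply, mulVec_diagonal, Pi.neg_apply] at h1
    have h2 : ∑ p, A p l * x (some p) = M.mulVec z l + b l := by
      simp only [x, y, M, b, Fintype.sum_option, Option.elim, mulVec, dotProduct, Matrix.of_apply,
        mul_add, Finset.sum_add_distrib, Finset.mul_sum, Finset.sum_mul, mul_one]
      rw [add_comm, Finset.sum_comm]
      congr 1
      exact Finset.sum_congr rfl fun q _ => Finset.sum_congr rfl fun r _ => by ring
    have h3 : ∑ p, A p l * x (some p) = - (ε l * z l) := by linarith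
    rw [h3]
    rcases hε l with h | h <;> rw [h] <;> ring
  have h1 := hQ (fun p => x (some p))
  have h2 := hH y
  simp only [hL] at h1
  rw [Fintype.sum_option, Fintype.sum_option (fun s => y s ^ 2)] at h2
  apply not_six (x none) 1 (∑ p, x (some p)) one_ne_zero
  have h3 : ∑ s, y (some s) ^ 2 = ∑ s, z s ^ 2 := rfl
  have h4 : y none = 1 := rfl
  rw [h3, h4] at h2
  change 6 * (x none ^ 2 + ∑ r, x (some r) ^ 2) = _ at h2
  linarith

end Pool.Agent.H25.BRC
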