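import Mathlib

namespace Pool.Agent.H25.BalDig

open Finset Matrix

variable {n : ℕ}

/-- quadratic form of the Laplacian of the arc set `E` -/
noncomputable def qf (E : Finset (Fin n × Fin n)) (x : Fin n → ℝ) : ℝ :=
  ∑ i, ∑ j, (if (i, j) ∈ E then (1 : ℝ) else 0) * (x i ^ 2 - x i * x j)

noncomputable def al (E : Finset (Fin n × Fin n)) : ℝ :=
  sInf {t | ∃ x : Fin n → ℝ, ∑ i, x i = 0 ∧ ∑ i, x i ^ 2 = 1 ∧ t = qf E x}

lemma card_eq (E : Finset (Fin n × Fin n)) (i : Fin n) :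
    ((univ.filter (fun j => (i, j) ∈ E)).card : ℝ) = ∑ j, if (i, j) ∈ E then (1 : ℝ) else 0 := by
  simp [Finset.sum_ite]

lemma quad (E : Finset (Fin n × Fin n)) (x : Fin n → ℝ) :
    x ⬝ᵥ ((diagonal (fun i => ((univ.filter (fun j => (i, j) ∈ E)).card : ℝ)) -
      of (fun i j => if (i, j) ∈ E then (1 : ℝ) else 0)) *ᵥ x) = qf E x := by
  rw [sub_mulVec, dotProduct_sub]
  simp only [dotProduct, mulVec_diagonal, card_eq, qf]
  simp only [mulVec, dotProduct, of_apply, ← Finset.sum_sub_distrib, Finset.mul_sum,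
    Finset.sum_mul]
  refine Finset.sum_congr rfl fun i _ => Finset.sum_congr rfl fun j _ => by ring

lemma low (E : Finset (Fin n × Fin n))
    (hb : ∀ i, (univ.filter (fun j => (i, j) ∈ E)).card = (univ.filter (fun j => (j, i) ∈ E)).card)
    (v : Fin n) (hv : ∀ j, j ≠ v → (v, j) ∈ E ∨ (j, v) ∈ E) (x : Fin n → ℝ)
    (h0 : ∑ i, x i = 0) (h1 : ∑ i, x i ^ 2 = 1) : 1 / 4 ≤ qf E x := by
  set a : Fin n → Fin n → ℝ := fun i j => if (i, j) ∈ E then (1 : ℝ) else 0 with ha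
  have ha0 : ∀ i j, 0 ≤ a i j := fun i j => by simp only [ha]; split_ifs <;> norm_num
  have hb' : ∀ i, ∑ j, a i j = ∑ j, a j i := fun i => by
    have := hb i
    have e1 := card_eq E i
    have e2 : ((univ.filter (fun j => (j, i) ∈ E)).card : ℝ) = ∑ j, a j i := by
      simp [ha, Finset.sum_ite]
    rw [← e2, ← this, e1]
  have e1 : ∑ i, ∑ j, a i j * x j ^ 2 = ∑ i, ∑ j, a i j * x i ^ 2 := by
    rw [Finset.sum_comm]
    refine Finset.sum_congr rfl fun i _ => ?_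
    rw [← Finset.sum_mul, ← Finset.sum_mul, hb']
  have e2 : 2 * qf E x = ∑ i, ∑ j, a i j * (x i - x j) ^ 2 := by
    have : ∑ i, ∑ j, a i j * (x i - x j) ^ 2 = ∑ i, ∑ j, a i j * x j ^ 2 -
        ∑ i, ∑ j, a i j * x i ^ 2 + 2 * qf E x := by
      simp only [qf, Finset.mul_sum, ← Finset.sum_sub_distrib, ← Finset.sum_add_distrib]
      refine Finset.sum_congr rfl fun i _ => Finset.sum_congr rfl fun j _ => by ring
    rw [this, e1]; ring
  have e3 : 4 * qf E x = ∑ i, ∑ j, (a i j + a j i) * (x i - x j) ^ 2 := by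
    have : ∑ i, ∑ j, a j i * (x i - x j) ^ 2 = ∑ i, ∑ j, a i j * (x i - x j) ^ 2 := by
      rw [Finset.sum_comm]
      refine Finset.sum_congr rfl fun i _ => Finset.sum_congr rfl fun j _ => by ring
    simp only [add_mul, Finset.sum_add_distrib]
    rw [this, ← e2]; ring
  have e4 : ∑ j, (a v j + a j v) * (x v - x j) ^ 2 ≤
      ∑ i, ∑ j, (a i j + a j i) * (x i - x j) ^ 2 :=
    Finset.single_le_sum (f := fun i => ∑ j, (a i j + a j i) * (x i - x j) ^ 2)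
      (fun i _ => Finset.sum_nonneg fun j _ =>
        mul_nonneg (add_nonneg (ha0 _ _) (ha0 _ _)) (sq_nonneg _)) (mem_univ v)
  have e5 : ∑ j, (x v - x j) ^ 2 ≤ ∑ j, (a v j + a j v) * (x v - x j) ^ 2 := by
    refine Finset.sum_le_sum fun j _ => ?_
    by_cases hj : j = v
    · subst hj; simp
    · have : 1 ≤ a v j + a j v := by
        rcases hv j hj with h | h
        · have := ha0 j v; simp only [ha, h, if_true] at this ⊢; linarith
        · have := ha0 v j; simp only [ha, h, if_true] at this ⊢; linarith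
      nlinarith [sq_nonneg (x v - x j)]
  have e6 : ∑ j, (x v - x j) ^ 2 = ∑ _j : Fin n, x v ^ 2 - 2 * x v * ∑ j, x j + ∑ j, x j ^ 2 := by
    simp only [Finset.mul_sum, ← Finset.sum_sub_distrib, ← Finset.sum_add_distrib]
    exact Finset.sum_congr rfl fun j _ => by ring
  have e7 : 0 ≤ ∑ _j : Fin n, x v ^ 2 := Finset.sum_nonneg fun _ _ => sq_nonneg _
  rw [h0, h1] at e6
  linarith

lemma bounds (E : Finset (Fin n × Fin n))
    (hb : ∀ i, (univ.filter (fun j => (i, j) ∈ E)).card = (univ.filter (fun j => (j, i) ∈ E)).card)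
    (v : Fin n) (hv : ∀ j, j ≠ v → (v, j) ∈ E ∨ (j, v) ∈ E) (z : Fin n → ℤ) (N Q : ℤ)
    (hz : ∑ i, z i = 0) (hN : ∑ i, z i ^ 2 = N) (hN0 : 0 < N)
    (hQ : ∑ i, ∑ j, (if (i, j) ∈ E then (1 : ℤ) else 0) * (z i ^ 2 - z i * z j) = Q) :
    1 / 4 ≤ al E ∧ al E ≤ Q / N := by
  have hN1 : (0 : ℝ) < N := by exact_mod_cast hN0
  have hs : (√(N : ℝ)) ^ 2 = N := Real.sq_sqrt hN1.le
  have hs0 : 0 < √(N : ℝ) := Real.sqrt_pos.2 hN1
  have hmem : (Q / N : ℝ) ∈
      {t | ∃ x : Fin n → ℝ, ∑ i, x i = 0 ∧ ∑ i, x i ^ 2 = 1 ∧ t = qf E x} := by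
    refine ⟨fun i => z i / √(N : ℝ), ?_, ?_, ?_⟩
    · rw [← Finset.sum_div]
      have : (∑ i, (z i : ℝ)) = 0 := by exact_mod_cast hz
      rw [this]; simp
    · simp only [div_pow, hs]
      rw [← Finset.sum_div]
      have : (∑ i, (z i : ℝ) ^ 2) = N := by exact_mod_cast hN
      rw [this]; field_simp
    · have : (Q : ℝ) = ∑ i, ∑ j, (if (i, j) ∈ E then (1 : ℝ) else 0) *
          ((z i : ℝ) ^ 2 - z i * z j) := by
        rw [← hQ]; push_cast; rfl
      rw [this, qf]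
      simp only [Finset.sum_div]
      refine Finset.sum_congr rfl fun i _ => Finset.sum_congr rfl fun j _ => ?_
      rw [div_pow, div_mul_div_comm, ← sq, hs]
      ring
  have hlow : ∀ t ∈ {t | ∃ x : Fin n → ℝ, ∑ i, x i = 0 ∧ ∑ i, x i ^ 2 = 1 ∧ t = qf E x},
      1 / 4 ≤ t := by
    rintro t ⟨x, h0, h1, rfl⟩
    exact low E hb v hv x h0 h1
  exact ⟨le_csInf ⟨_, hmem⟩ hlow, csInf_le ⟨_, hlow⟩ hmem⟩

def E0 : Finset (Fin 10 × Fin 10) :=
  {(0, 1), (1, 2), (1, 3), (1, 4), (1, 5), (1, 6), (1, 7), (1, 8), (1, 9), (2, 0), (2, 1), (3, 2),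
   (3, 4), (3, 5), (3, 6), (3, 7), (3, 8), (3, 9), (4, 1), (4, 3), (5, 1), (5, 3), (6, 1), (6, 3),
   (7, 1), (7, 3), (8, 1), (8, 3), (9, 1), (9, 3)}

lemma E0_loop : ∀ e ∈ E0, e.1 ≠ e.2 := by decide +kernel

lemma E0_bal : ∀ i, (univ.filter (fun j => (i, j) ∈ E0)).card =
    (univ.filter (fun j => (j, i) ∈ E0)).card := by decide +kernel

lemma b1 : 1 / 4 ≤ al E0 ∧ al E0 ≤ 516 / 596 := by
  have := bounds E0 E0_bal 1 (by decide +kernel) ![21, -1, 7, -3, -4, -4, -4, -4, -4, -4] 596 516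
    (by decide +kernel) (by decide +kernel) (by norm_num) (by decide +kernel)
  simpa using this

lemma b2 : 1 / 4 ≤ al (univ.filter (fun e : Fin 10 × Fin 10 => e.1 ≠ e.2 ∧ e ∉ E0)) ∧
    al (univ.filter (fun e : Fin 10 × Fin 10 => e.1 ≠ e.2 ∧ e ∉ E0)) ≤ 516 / 596 := by
  have := bounds (univ.filter (fun e : Fin 10 × Fin 10 => e.1 ≠ e.2 ∧ e ∉ E0))
    (by decide +kernel) 0 (by decide +kernel) ![-1, 21, -3, 7, -4, -4, -4, -4, -4, -4] 596 516
    (by decide +kernel) (by decide +kernel) (by norm_num) (by decide +kernel)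
  simpa using this

lemma fin (x y : ℝ) (hx : x ≤ 516 / 596) (hy : y ≤ 516 / 596) :
    x * y * (2 - x * y) < 10 * (1 - x) * (1 - y) * (10 - 2 - x - y) := by
  have h1 : x * y * (2 - x * y) ≤ 1 := by nlinarith [sq_nonneg (1 - x * y)]
  have h2 : (80 / 596 : ℝ) * (80 / 596) ≤ (1 - x) * (1 - y) :=
    mul_le_mul (by linarith) (by linarith) (by norm_num) (by linarith)
  have h3 : (80 / 596 : ℝ) * (80 / 596) * (8 - 2 * (516 / 596)) ≤
      (1 - x) * (1 - y) * (10 - 2 - x - y) :=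
    mul_le_mul h2 (by linarith) (by norm_num) (by linarith [show (0 : ℝ) ≤ 80 / 596 * (80 / 596) by norm_num])
  nlinarith

end Pool.Agent.H25.BalDig
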