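import Mathlib

set_option autoImplicit false

namespace Pool.Agent.H25.Bic

/-- Thue-Morse word -/
def tm (n : ℕ) : ℕ := (Nat.digits 2 n).sum % 2

theorem tm_lt (n : ℕ) : tm n < 2 := Nat.mod_lt _ (by norm_num)

theorem tm_even (n : ℕ) : tm (2 * n) = tm n := by
  rcases Nat.eq_zero_or_pos n with rfl | h
  · rfl
  · unfold tm
    rw [show 2 * n = 0 + 2 * n by ring, Nat.digits_add 2 (by norm_num) 0 n (by norm_num)
      (Or.inr h.ne')]
    simp

theorem tm_odd (n : ℕ) : tm (2 * n + 1) + tm n = 1 := by
  unfold tm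
  rw [show 2 * n + 1 = 1 + 2 * n by ring, Nat.digits_add 2 (by norm_num) 1 n (by norm_num)
    (Or.inl one_ne_zero)]
  simp only [List.sum_cons]
  omega

theorem overlap (p : ℕ) : ∀ i, 1 ≤ p → ¬ ∀ j, j ≤ p → tm (i + j) = tm (i + p + j) := by
  induction p using Nat.strong_induction_on with
  | _ p ih =>
    intro i hp h
    obtain ⟨r, rfl | rfl⟩ := Nat.even_or_odd' p
    · refine ih r (by omega) (i / 2) (by omega) fun j hj => ?_
      have h1 := h (2 * j) (by omega)
      obtain ⟨s, rfl | rfl⟩ := Nat.even_or_odd' i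
      · rw [show 2 * s + 2 * j = 2 * (s + j) by ring, show 2 * s + 2 * r + 2 * j = 2 * (s + r + j)
          by ring, tm_even, tm_even] at h1
        rwa [show 2 * s / 2 = s by omega]
      · have h2 := tm_odd (s + j)
        have h3 := tm_odd (s + r + j)
        rw [show 2 * s + 1 + 2 * j = 2 * (s + j) + 1 by ring,
          show 2 * s + 1 + 2 * r + 2 * j = 2 * (s + r + j) + 1 by ring] at h1
        rw [show (2 * s + 1) / 2 = s by omega]
        omega
    · have alt : ∀ m, tm (2 * m) + tm (2 * m + 1) = 1 := fun m => by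
        have := tm_odd m
        rw [tm_even]; omega
      have h1 : ∀ j, j < 2 * r + 1 → tm (i + j) + tm (i + j + 1) = 1 := by
        intro j hj
        obtain ⟨s, hs | hs⟩ := Nat.even_or_odd' (i + j)
        · rw [hs]; exact alt s
        · have h2 := h j (by omega)
          have h3 := h (j + 1) (by omega)
          have h4 := alt (s + r + 1)
          rw [show i + (2 * r + 1) + j = 2 * (s + r + 1) by omega] at h2
          rw [show i + (2 * r + 1) + (j + 1) = 2 * (s + r + 1) + 1 by omega,
            show i + (j + 1) = i + j + 1 by omega] at h3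
          omega
      have h2 : ∀ j, j ≤ 2 * r + 1 → (tm (i + j) + j) % 2 = tm i := by
        intro j hj
        induction j with
        | zero => have := tm_lt i; simp only [Nat.add_zero]; omega
        | succ j ihj =>
          have := ihj (by omega)
          have := h1 j (by omega)
          rw [show i + (j + 1) = i + j + 1 by omega]
          omega
      have h3 := h2 (2 * r + 1) le_rfl
      have h4 := h 0 (by omega)
      have := tm_lt i
      simp only [Nat.add_zero] at h4
      omega

/-- powers in a sequence of numbers of length `n` -/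
def Pow (k n : ℕ) (f : ℕ → ℕ) : Prop :=
  ∃ s l, 2 ≤ l ∧ s + k * l ≤ n ∧ ∀ r < k, ∀ r' < k, ∀ a < l, ∀ b < l,
    (f (s + r * l + a) < f (s + r * l + b) ↔ f (s + r' * l + a) < f (s + r' * l + b))

theorem pow_of (k n s l : ℕ) (g rho : ℕ → ℕ) (hl : 2 ≤ l) (hs : s + k * l ≤ n)
    (hinj : ∀ a < l, ∀ b < l, rho a = rho b → a = b)
    (h : ∀ r < k, ∀ a < l, ∀ b < l, rho a < rho b → g (s + r * l + a) < g (s + r * l + b)) :
    Pow k n g := by
  have key : ∀ r < k, ∀ a < l, ∀ b < l,
      (g (s + r * l + a) < g (s + r * l + b) ↔ rho a < rho b) := by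
    intro r hr a ha b hb
    refine ⟨fun h1 => ?_, h r hr a ha b hb⟩
    rcases lt_trichotomy (rho a) (rho b) with h2 | h2 | h2
    · exact h2
    · rw [hinj a ha b hb h2] at h1; exact absurd h1 (lt_irrefl _)
    · have := h r hr b hb a ha h2; omega
  exact ⟨s, l, hl, hs, fun r hr r' hr' a ha b hb => by rw [key r hr a ha b hb, key r' hr' a ha b hb]⟩

/-- the coding word -/
def w (k m j : ℕ) : ℕ :=
  if j < k - 2 then 1 else if j ≤ k + 4 * m - 1 then tm (j + 3 - k) else 0

def cl (k m j i : ℕ) : ℕ :=
  if i = 0 then (if w k m j = 1 then 2 * k + 1 else 1)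
  else if i = 1 then (if w k m j = 1 then 2 else 0)
  else if i = 2 * k - 1 then (if w k m (j + 1) = 1 then 2 * k + 2 else 2 * k)
  else i + 1

def NN (k m : ℕ) : ℕ := 2 * k + 4 * m - 3

def len (k m : ℕ) : ℕ := 2 * k * NN k m + 1

def f (k m p : ℕ) : ℕ := cl k m (p / (2 * k)) (p % (2 * k)) * len k m + p

theorem f_inj (k m p q : ℕ) (hp : p < len k m) (hq : q < len k m) (h : f k m p = f k m q) :
    p = q := by
  have := congrArg (· % len k m) h
  simp only [f, Nat.mul_add_mod_self_right, Nat.mod_eq_of_lt hp, Nat.mod_eq_of_lt hq] at this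
  exact this

theorem f_lt (k m p q j i j' i' : ℕ) (hp : p < len k m) (hi : i < 2 * k) (hi' : i' < 2 * k)
    (e : p = 2 * k * j + i) (e' : q = 2 * k * j' + i') (h : cl k m j i < cl k m j' i') :
    f k m p < f k m q := by
  have hk : 0 < 2 * k := by omega
  have h1 : p / (2 * k) = j := by rw [e, Nat.mul_add_div hk, Nat.div_eq_of_lt hi]; rfl
  have h2 : p % (2 * k) = i := by rw [e, Nat.mul_add_mod, Nat.mod_eq_of_lt hi]
  have h3 : q / (2 * k) = j' := by rw [e', Nat.mul_add_div hk, Nat.div_eq_of_lt hi']; rfl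
  have h4 : q % (2 * k) = i' := by rw [e', Nat.mul_add_mod, Nat.mod_eq_of_lt hi']
  unfold f
  rw [h1, h2, h3, h4]
  have := Nat.mul_le_mul_right (len k m) (Nat.succ_le_of_lt h)
  rw [Nat.succ_mul] at this
  omega

theorem w_lo (k m j : ℕ) (hk : 3 ≤ k) (hm : 1 ≤ m) (hj : j < k) : w k m j = 1 := by
  unfold w
  split_ifs with h1 h2
  · rfl
  · have : j + 3 - k = 1 ∨ j + 3 - k = 2 := by omega
    rcases this with h | h <;> rw [h] <;> simp [tm]
  · omega

theorem w_k (k m : ℕ) (hk : 3 ≤ k) (hm : 1 ≤ m) : w k m k = 0 := by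
  unfold w
  rw [if_neg (by omega), if_pos (by omega), show k + 3 - k = 3 by omega]
  simp [tm]

theorem w_a (k m : ℕ) (hk : 3 ≤ k) (hm : 1 ≤ m) (ht : tm m = 1) : w k m (k + 4 * m - 3) = 1 := by
  unfold w
  rw [if_neg (by omega), if_pos (by omega), show k + 4 * m - 3 + 3 - k = 2 * (2 * m) by omega,
    tm_even, tm_even, ht]

theorem w_hi (k m j : ℕ) (hk : 3 ≤ k) (hm : 1 ≤ m) (ht : tm m = 1) (hj : k + 4 * m - 2 ≤ j) :
    w k m j = 0 := by
  unfold w
  rw [if_neg (by omega)]
  split_ifs with h2
  · have h3 := tm_odd (2 * m)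
    have h4 := tm_odd m
    have h5 := tm_even (2 * m + 1)
    rw [tm_even] at h3
    have : j + 3 - k = 2 * (2 * m) + 1 ∨ j + 3 - k = 2 * (2 * m + 1) := by omega
    rcases this with h | h <;> rw [h] <;> omega
  · rfl

theorem w_mid (k m j : ℕ) (h1 : k - 2 ≤ j) (h2 : j ≤ k + 4 * m - 1) : w k m j = tm (j + 3 - k) := by
  unfold w
  rw [if_neg (by omega), if_pos h2]

theorem step (k m p : ℕ) (hk : 3 ≤ k) (hp : p + 1 < len k m) :
    f k m (p + 1) < f k m p ↔ (p + 1) % (2 * k) ≤ 1 := by
  have hi := Nat.mod_lt p (show 0 < 2 * k by omega)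
  have e := (Nat.div_add_mod p (2 * k)).symm
  generalize p / (2 * k) = j at e
  generalize p % (2 * k) = i at e hi
  by_cases h : i = 2 * k - 1
  · have e' : p + 1 = 2 * k * (j + 1) + 0 := by rw [mul_add]; omega
    have := f_lt k m (p + 1) p (j + 1) 0 j i hp (by omega) hi e' e (by
      unfold cl
      rw [if_pos rfl, if_neg (show ¬ i = 0 by omega), if_neg (show ¬ i = 1 by omega), if_pos h]
      split_ifs <;> omega)
    simp only [this, true_iff]
    rw [e', Nat.mul_add_mod]; simp
  · have e' : p + 1 = 2 * k * j + (i + 1) := by omega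
    have h2 : (p + 1) % (2 * k) = i + 1 := by
      rw [e', Nat.mul_add_mod, Nat.mod_eq_of_lt (by omega)]
    rw [h2]
    by_cases h0 : i = 0
    · have := f_lt k m (p + 1) p j (i + 1) j i hp (by omega) hi e' e (by
        unfold cl; rw [if_neg (by omega), if_pos (by omega), if_pos h0]
        split_ifs <;> omega)
      simp only [this, true_iff]; omega
    · have := f_lt k m p (p + 1) j i j (i + 1) (by omega) hi (by omega) e e' (by
        unfold cl; rw [if_neg h0, if_neg (show ¬ i + 1 = 0 by omega),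
          if_neg (show ¬ i + 1 = 1 by omega), if_neg h]
        split_ifs <;> omega)
      omega

theorem mod3 (P u l : ℕ) (hP : 4 ≤ P) (h0 : u % P ≤ 1) (h1 : (u + l) % P ≤ 1)
    (h2 : (u + l + l) % P ≤ 1) : l % P = 0 := by
  have hl := Nat.mod_lt l (show 0 < P by omega)
  rw [Nat.add_mod] at h1 h2
  rw [Nat.add_mod u l] at h2
  generalize u % P = a at *
  generalize l % P = b at *
  by_contra hb
  by_cases h3 : a + b < P
  · rw [Nat.mod_eq_of_lt h3] at h1 h2
    rw [Nat.mod_eq_of_lt (by omega)] at h2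
    omega
  · rw [show a + b = P by omega, Nat.mod_self, Nat.zero_add, Nat.mod_eq_of_lt hl] at h2
    omega

theorem ex_off (P s c : ℕ) (hP : 0 < P) (hc : c < P) : ∃ e j, e < P ∧ s + e = P * j + c := by
  have hi := Nat.mod_lt s hP
  have e := (Nat.div_add_mod s P).symm
  generalize s / P = j at e
  generalize s % P = i at e hi
  by_cases h : i ≤ c
  · exact ⟨c - i, j, by omega, by omega⟩
  · exact ⟨P + c - i, j + 1, by omega, by rw [mul_add]; omega⟩

theorem per (k m s l : ℕ) (hk : 3 ≤ k) (hl : 2 ≤ l) (hs : s + k * l ≤ len k m)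
    (h : ∀ r < k, ∀ r' < k, ∀ a < l, ∀ b < l, (f k m (s + r * l + a) < f k m (s + r * l + b) ↔
      f k m (s + r' * l + a) < f k m (s + r' * l + b))) : l % (2 * k) = 0 := by
  have hkl : k * 2 ≤ k * l := Nat.mul_le_mul_left k hl
  have blk : ∀ r < k, ∀ a, a + 1 < l → s + r * l + a + 1 < len k m := by
    intro r hr a ha
    have := Nat.mul_le_mul_right l (Nat.succ_le_of_lt hr)
    rw [Nat.succ_mul] at this
    omega
  have : ∃ r < k, ∃ a, a + 1 < l ∧ (s + r * l + a + 1) % (2 * k) ≤ 1 := by
    obtain ⟨e, j, he, hj⟩ := ex_off (2 * k) (s + 1) 0 (by omega) (by omega)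
    by_cases h1 : e = 2 * k - 1
    · refine ⟨0, by omega, 0, by omega, ?_⟩
      have : s + 0 * l + 0 + 1 + 2 * k = 2 * k * j + 1 := by omega
      rw [← Nat.add_mod_right, this, Nat.mul_add_mod, Nat.mod_eq_of_lt (by omega)]
    · have hi := Nat.mod_lt e (show 0 < l by omega)
      have e1 := (Nat.div_add_mod' e l).symm
      generalize e / l = r at e1
      generalize e % l = a at e1 hi
      by_cases h2 : a + 1 < l
      · refine ⟨r, ?_, a, h2, ?_⟩
        · exact Nat.lt_of_mul_lt_mul_right (a := l) (by omega)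
        · rw [show s + r * l + a + 1 = 2 * k * j + 0 by omega, Nat.mul_add_mod]; simp
      · refine ⟨r + 1, ?_, 0, by omega, ?_⟩
        · exact Nat.lt_of_mul_lt_mul_right (a := l) (by rw [Nat.succ_mul]; omega)
        · rw [show s + (r + 1) * l + 0 + 1 = 2 * k * j + 1 by rw [Nat.succ_mul]; omega,
            Nat.mul_add_mod, Nat.mod_eq_of_lt (by omega)]
  obtain ⟨r, hr, a, ha, hd⟩ := this
  have all : ∀ r' < k, (s + r' * l + a + 1) % (2 * k) ≤ 1 := by
    intro r' hr'
    rw [← step k m _ hk (blk r' hr' a ha)]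
    rw [← step k m _ hk (blk r hr a ha)] at hd
    exact (h r hr r' hr' (a + 1) (by omega) a (by omega)).1 hd
  refine mod3 (2 * k) (s + a + 1) l (by omega) ?_ ?_ ?_
  · have := all 0 (by omega); rwa [show s + 0 * l + a + 1 = s + a + 1 by omega] at this
  · have := all 1 (by omega); rwa [show s + 1 * l + a + 1 = s + a + 1 + l by omega] at this
  · have := all 2 (by omega); rwa [show s + 2 * l + a + 1 = s + a + 1 + l + l by omega] at this

theorem w_le (k m j : ℕ) : w k m j ≤ 1 := by
  unfold w
  have := tm_lt (j + 3 - k)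
  split_ifs <;> omega

theorem cmp (k m p q j j' : ℕ) (hk : 3 ≤ k) (hp : p < len k m) (hq : q < len k m)
    (e : p = 2 * k * j + 0) (e' : q = 2 * k * j' + 2) : f k m p < f k m q ↔ w k m j = 0 := by
  have := w_le k m j
  by_cases h : w k m j = 1
  · have := f_lt k m q p j' 2 j 0 hq (by omega) (by omega) e' e (by
      unfold cl
      rw [if_neg (by omega), if_neg (by omega), if_neg (by omega), if_pos rfl, if_pos h]; omega)
    omega
  · have := f_lt k m p q j 0 j' 2 hp (by omega) (by omega) e e' (by
      unfold cl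
      rw [if_pos rfl, if_neg h, if_neg (by omega), if_neg (by omega), if_neg (by omega)]; omega)
    omega

theorem nopow (k m : ℕ) (hk : 3 ≤ k) (hm : 2 ≤ m) (ht : tm m = 1) :
    ¬ Pow k (len k m) (f k m) := by
  rintro ⟨s, l, hl, hs, h⟩
  obtain ⟨t, rfl⟩ := Nat.dvd_of_mod_eq_zero (per k m s l hk hl hs h)
  have ht1 : 1 ≤ t := by
    rcases Nat.eq_zero_or_pos t with rfl | h
    · simp at hl
    · exact h
  obtain ⟨e, j0, he, hj0⟩ := ex_off (2 * k) s 0 (by omega) (by omega)
  obtain ⟨c, j1, hc, hj1⟩ := ex_off (2 * k) s 2 (by omega) (by omega)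
  have blk : ∀ r < k, ∀ a, a < 2 * k * t → s + r * (2 * k * t) + a < len k m := by
    intro r hr a ha
    have := Nat.mul_le_mul_right (2 * k * t) (Nat.succ_le_of_lt hr)
    rw [Nat.succ_mul] at this
    omega
  have hP : 2 * k * 1 ≤ 2 * k * t := Nat.mul_le_mul_left _ ht1
  have off : ∀ u < t, e + 2 * k * u < 2 * k * t := by
    intro u hu
    have := Nat.mul_le_mul_left (2 * k) (Nat.succ_le_of_lt hu)
    rw [Nat.mul_succ] at this
    omega
  have key : ∀ r < k, ∀ u < t, (f k m (s + r * (2 * k * t) + (e + 2 * k * u)) <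
      f k m (s + r * (2 * k * t) + c) ↔ w k m (j0 + r * t + u) = 0) := by
    intro r hr u hu
    refine cmp k m _ _ _ (j1 + r * t) hk (blk r hr _ (off u hu)) (blk r hr _ (by omega)) ?_ ?_
    · linear_combination hj0
    · linear_combination hj1
  have hper : ∀ v, v + t < k * t → w k m (j0 + v) = w k m (j0 + t + v) := by
    intro v hv
    have hi := Nat.mod_lt v (show 0 < t by omega)
    have e1 := (Nat.div_add_mod' v t).symm
    generalize v / t = r at e1
    generalize v % t = u at e1 hi
    have hr : r + 1 < k := Nat.lt_of_mul_lt_mul_right (a := t) (by rw [Nat.succ_mul]; omega)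
    have h1 := h r (by omega) (r + 1) hr _ (off u hi) c (by omega)
    rw [key r (by omega) u hi, key (r + 1) hr u hi, Nat.succ_mul,
      show j0 + r * t + u = j0 + v by omega, show j0 + (r * t + t) + u = j0 + t + v by omega] at h1
    have := w_le k m (j0 + v)
    have := w_le k m (j0 + t + v)
    omega
  have hrange : j0 + k * t ≤ NN k m + 1 := by
    have h1 : 2 * k * (j0 + k * t) < 2 * k * (NN k m + 2) := by
      have : 2 * k * (j0 + k * t) = s + e + k * (2 * k * t) := by linear_combination -hj0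
      rw [this, mul_add]
      unfold len at hs
      omega
    have := Nat.lt_of_mul_lt_mul_left h1
    omega
  have hN : NN k m = 2 * k + 4 * m - 3 := rfl
  have ov : ∀ i0, j0 ≤ i0 → k - 2 ≤ i0 → i0 + 2 * t < j0 + k * t → i0 + 2 * t ≤ k + 4 * m - 1 →
      False := by
    intro i0 h1 h2 h3 h4
    refine overlap t (i0 + 3 - k) ht1 (fun j hj => ?_)
    have := hper (i0 - j0 + j) (by omega)
    rw [w_mid k m _ (by omega) (by omega), w_mid k m _ (by omega) (by omega)] at this
    rw [show i0 + 3 - k + j = j0 + (i0 - j0 + j) + 3 - k by omega, this]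
    congr 1; omega
  by_cases h2 : 2 ≤ t
  · have a1 : k + 2 * t ≤ k * t + 1 := by nlinarith
    have a2 : 3 * t + 2 * k ≤ k * t + 6 := by nlinarith
    by_cases h3 : k - 2 ≤ j0
    · exact ov j0 le_rfl h3 (by omega) (by omega)
    · exact ov (k - 2) (by omega) le_rfl (by omega) (by omega)
  obtain rfl : t = 1 := by omega
  simp only [mul_one] at *
  by_cases h3 : j0 = 0
  · subst h3
    have hs0 : s = 0 := by omega
    subst hs0
    have h1 := (h 0 (by omega) (k - 1) (by omega) 0 (by omega) (2 * k - 1) (by omega)).1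
      (f_lt k m _ _ 0 0 0 (2 * k - 1) (blk 0 (by omega) 0 (by omega)) (by omega) (by omega)
        (by omega) (by omega) (by
          unfold cl
          rw [if_pos rfl, if_neg (show ¬ 2 * k - 1 = 0 by omega), if_neg (show ¬ 2 * k - 1 = 1 by omega),
            if_pos rfl, w_lo k m 0 hk (by omega) (by omega), w_lo k m (0 + 1) hk (by omega) (by omega)]
          simp))
    have h4 := f_lt k m (0 + (k - 1) * (2 * k) + (2 * k - 1)) (0 + (k - 1) * (2 * k) + 0)
      (k - 1) (2 * k - 1) (k - 1) 0 (blk _ (by omega) _ (by omega)) (by omega) (by omega)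
      (by rw [mul_comm (k - 1)]; omega) (by rw [mul_comm (k - 1)]; omega) (by
        unfold cl
        rw [if_neg (show ¬ 2 * k - 1 = 0 by omega), if_neg (show ¬ 2 * k - 1 = 1 by omega),
          if_pos rfl, if_pos rfl, show k - 1 + 1 = k by omega, w_k k m hk (by omega),
          w_lo k m (k - 1) hk (by omega) (by omega)]
        simp)
    omega
  by_cases h4 : j0 + k = NN k m + 1
  · obtain ⟨j, rfl⟩ : ∃ j, j0 = j + 1 := ⟨j0 - 1, by omega⟩
    have hs0 : s = 2 * k * j + 1 := by
      have : 2 * k * NN k m = 2 * k * j + k * (2 * k) := by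
        rw [show NN k m = j + k by omega]; ring
      unfold len at hs
      rw [mul_add] at hj0
      omega
    have hj : j = k + 4 * m - 3 := by omega
    have h1 := (h 1 (by omega) 0 (by omega) 0 (by omega) (2 * k - 1) (by omega)).1
      (f_lt k m _ _ (j + 1) 1 (j + 2) 0 (blk 1 (by omega) 0 (by omega)) (by omega) (by omega)
        (by rw [mul_add]; omega) (by rw [mul_add]; omega) (by
          unfold cl
          rw [if_neg (by omega), if_pos rfl, if_pos rfl, w_hi k m (j + 1) hk (by omega) ht (by omega),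
            w_hi k m (j + 2) hk (by omega) ht (by omega)]
          simp))
    have h5 := f_lt k m (s + 0 * (2 * k) + (2 * k - 1)) (s + 0 * (2 * k) + 0)
      (j + 1) 0 j 1 (blk _ (by omega) _ (by omega)) (by omega) (by omega)
      (by rw [mul_add]; omega) (by omega) (by
        unfold cl
        rw [if_pos rfl, if_neg (show ¬ 1 = 0 by omega), if_pos rfl,
          w_hi k m (j + 1) hk (by omega) ht (by omega), hj, w_a k m hk (by omega) ht]
        simp)
    omega
  by_cases h5 : k - 2 ≤ j0
  · exact ov j0 le_rfl h5 (by omega) (by omega)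
  · exact ov (k - 2) (by omega) le_rfl (by omega) (by omega)

theorem right (k m : ℕ) (hk : 3 ≤ k) (hm : 2 ≤ m) (ht : tm m = 1) (g : ℕ → ℕ)
    (hg : ∀ p < len k m, ∀ q < len k m, f k m p < f k m q → g p < g q)
    (hne : g (len k m) ≠ g (len k m - 1)) : Pow k (len k m + 1) g := by
  obtain ⟨j, hj⟩ : ∃ j, NN k m = j + k := ⟨k + 4 * m - 3, by unfold NN; omega⟩
  have hj' : j = k + 4 * m - 3 := by unfold NN at hj; omega
  have hlen : len k m = 2 * k * j + k * (2 * k) + 1 := by unfold len; rw [hj]; ring
  rcases lt_or_gt_of_ne hne with h | h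
  · obtain ⟨k', hk'⟩ : ∃ k', k = k' + 1 := ⟨k - 1, by omega⟩
    have hk2 : k * (2 * k) = k' * (2 * k) + 2 * k := by rw [hk']; ring
    have cls : ∀ r < k, ∀ a < 2 * k, ∃ j' i, i < 2 * k ∧
        2 * k * j + 2 + r * (2 * k) + a = 2 * k * j' + i ∧ cl k m j' i =
          (if a = 2 * k - 2 then 1 else if a = 2 * k - 1 then 0 else a + 3) := by
      intro r hr a ha
      have hw := w_hi k m (j + r + 1) hk (by omega) ht (by omega)
      by_cases h1 : a = 2 * k - 2
      · refine ⟨j + r + 1, 0, by omega, ?_, ?_⟩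
        · rw [mul_add, mul_add, mul_comm r]; omega
        · simp [cl, hw, h1]
      by_cases h2 : a = 2 * k - 1
      · refine ⟨j + r + 1, 1, by omega, ?_, ?_⟩
        · rw [mul_add, mul_add, mul_comm r]; omega
        · rw [if_neg h1, if_pos h2]; simp [cl, hw]
      · refine ⟨j + r, a + 2, by omega, ?_, ?_⟩
        · rw [mul_add, mul_comm r]; omega
        · rw [if_neg h1, if_neg h2]
          unfold cl
          rw [if_neg (show ¬ a + 2 = 0 by omega), if_neg (show ¬ a + 2 = 1 by omega), hw,
            if_neg (show ¬ 0 = 1 by omega)]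
          split_ifs <;> omega
    have aux : ∀ r < k, ∀ a < 2 * k, ∀ b < 2 * k,
        2 * k * j + 2 + r * (2 * k) + a < len k m → 2 * k * j + 2 + r * (2 * k) + b < len k m →
        (if a = 2 * k - 2 then 1 else if a = 2 * k - 1 then 0 else a + 3) <
        (if b = 2 * k - 2 then 1 else if b = 2 * k - 1 then 0 else b + 3) →
        g (2 * k * j + 2 + r * (2 * k) + a) < g (2 * k * j + 2 + r * (2 * k) + b) := by
      intro r hr a ha b hb h1 h2 h3
      obtain ⟨ja, ia, a1, a2, a3⟩ := cls r hr a ha
      obtain ⟨jb, ib, b1, b2, b3⟩ := cls r hr b hb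
      exact hg _ h1 _ h2 (f_lt k m _ _ ja ia jb ib h1 a1 b1 a2 b2 (by rw [a3, b3]; exact h3))
    refine pow_of k _ (2 * k * j + 2) (2 * k) g
      (fun a => if a = 2 * k - 2 then 1 else if a = 2 * k - 1 then 0 else a + 3) (by omega)
      (by omega) (fun a ha b hb e => ?_) (fun r hr a ha b hb hab => ?_)
    · split_ifs at e <;> omega
    · have hr2 : r * (2 * k) ≤ k' * (2 * k) := Nat.mul_le_mul_right _ (by omega)
      have hb1 : b ≠ 2 * k - 1 := by
        rintro rfl
        rw [if_neg (show ¬ 2 * k - 1 = 2 * k - 2 by omega), if_pos rfl] at hab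
        omega
      by_cases h1 : 2 * k * j + 2 + r * (2 * k) + a < len k m
      · exact aux r hr a ha b hb h1 (by omega) hab
      · have e1 : 2 * k * j + 2 + r * (2 * k) + a = len k m := by omega
        have e2 : 2 * k * j + 2 + r * (2 * k) + (2 * k - 2) = len k m - 1 := by omega
        rw [e1]
        by_cases hb2 : b = 2 * k - 2
        · rw [hb2, e2]; exact h
        · have := aux r hr (2 * k - 2) (by omega) b hb (by omega) (by omega)
            (by rw [if_pos rfl, if_neg hb2, if_neg hb1]; omega)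
          rw [e2] at this
          omega
  · obtain ⟨k', hk'⟩ : ∃ k', k = k' + 1 := ⟨k - 1, by omega⟩
    have hk2 : k * (2 * k) = k' * (2 * k) + 2 * k := by rw [hk']; ring
    refine pow_of k _ (len k m + 1 - 2 * k) 2 g id le_rfl (by omega)
      (fun a ha b hb e => e) (fun r hr a ha b hb hab => ?_)
    obtain rfl : a = 0 := by simp only [id] at hab; omega
    obtain rfl : b = 1 := by simp only [id] at hab; omega
    by_cases h1 : r = k'
    · rw [show len k m + 1 - 2 * k + r * 2 + 0 = len k m - 1 by omega,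
        show len k m + 1 - 2 * k + r * 2 + 1 = len k m by omega]
      exact h
    · refine hg _ (by omega) _ (by omega) (f_lt k m _ _ (j + k') (2 * r + 2) (j + k') (2 * r + 3)
        (by omega) (by omega) (by omega) ?_ ?_ ?_)
      · rw [mul_add _ j, mul_comm _ k']; omega
      · rw [mul_add _ j, mul_comm _ k']; omega
      · unfold cl
        rw [if_neg (by omega), if_neg (by omega), if_neg (by omega),
          if_neg (show ¬ 2 * r + 3 = 0 by omega), if_neg (show ¬ 2 * r + 3 = 1 by omega)]
        split_ifs <;> omega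

theorem left (k m : ℕ) (hk : 3 ≤ k) (hm : 2 ≤ m) (g : ℕ → ℕ)
    (hg : ∀ p < len k m, ∀ q < len k m, f k m p < f k m q → g (p + 1) < g (q + 1))
    (hne : g 0 ≠ g 1) : Pow k (len k m + 1) g := by
  obtain ⟨j, hj⟩ : ∃ j, NN k m = j + k := ⟨k + 4 * m - 3, by unfold NN; omega⟩
  have hlen : len k m = 2 * k * j + k * (2 * k) + 1 := by unfold len; rw [hj]; ring
  have hkk : 3 * (2 * k) ≤ k * (2 * k) := Nat.mul_le_mul_right _ hk
  rcases lt_or_gt_of_ne hne with h | h
  · refine pow_of k _ 0 2 g id le_rfl (by omega)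
      (fun a ha b hb e => e) (fun r hr a ha b hb hab => ?_)
    obtain rfl : a = 0 := by simp only [id] at hab; omega
    obtain rfl : b = 1 := by simp only [id] at hab; omega
    by_cases h1 : r = 0
    · subst h1; exact h
    · have := hg (2 * r - 1) (by omega) (2 * r) (by omega) (f_lt k m _ _ 0 (2 * r - 1) 0 (2 * r)
        (by omega) (by omega) (by omega) (by omega) (by omega) (by
          unfold cl
          rw [if_neg (show ¬ 2 * r - 1 = 0 by omega), if_neg (show ¬ 2 * r - 1 = 2 * k - 1 by omega),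
            if_neg (show ¬ 2 * r = 0 by omega), if_neg (show ¬ 2 * r = 1 by omega),
            if_neg (show ¬ 2 * r = 2 * k - 1 by omega)]
          split_ifs <;> omega))
      rw [show 0 + r * 2 + 0 = 2 * r - 1 + 1 by omega, show 0 + r * 2 + 1 = 2 * r + 1 by omega]
      exact this
  · have cls : ∀ r < k, ∀ a < 2 * k, 1 ≤ r * (2 * k) + a → ∃ j' i, i < 2 * k ∧
        r * (2 * k) + a - 1 = 2 * k * j' + i ∧ cl k m j' i =
          (if a = 0 then 2 * k + 2 else if a = 1 then 2 * k + 1 else a) := by
      intro r hr a ha h0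
      have hw := w_lo k m r hk (by omega) hr
      by_cases h1 : a = 0
      · obtain ⟨r', rfl⟩ : ∃ r', r = r' + 1 := ⟨r - 1, by
          rcases Nat.eq_zero_or_pos r with rfl | h2 <;> omega⟩
        refine ⟨r', 2 * k - 1, by omega, ?_, ?_⟩
        · rw [Nat.succ_mul, mul_comm r']; omega
        · rw [if_pos h1]
          unfold cl
          rw [if_neg (by omega), if_neg (by omega), if_pos rfl, if_pos hw]
      · refine ⟨r, a - 1, by omega, ?_, ?_⟩
        · rw [mul_comm r]; omega
        · rw [if_neg h1]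
          unfold cl
          rw [hw, if_neg (show ¬ a - 1 = 2 * k - 1 by omega)]
          split_ifs <;> omega
    have aux : ∀ r < k, ∀ a < 2 * k, ∀ b < 2 * k, 1 ≤ r * (2 * k) + a → 1 ≤ r * (2 * k) + b →
        (if a = 0 then 2 * k + 2 else if a = 1 then 2 * k + 1 else a) <
        (if b = 0 then 2 * k + 2 else if b = 1 then 2 * k + 1 else b) →
        g (0 + r * (2 * k) + a) < g (0 + r * (2 * k) + b) := by
      intro r hr a ha b hb h1 h2 h3
      have hr2 := Nat.mul_le_mul_right (2 * k) (Nat.succ_le_of_lt hr)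
      rw [Nat.succ_mul] at hr2
      obtain ⟨ja, ia, a1, a2, a3⟩ := cls r hr a ha h1
      obtain ⟨jb, ib, b1, b2, b3⟩ := cls r hr b hb h2
      have := hg _ (by omega) _ (by omega) (f_lt k m _ _ ja ia jb ib (by omega) a1 b1 a2 b2
        (by rw [a3, b3]; exact h3))
      rwa [show r * (2 * k) + a - 1 + 1 = 0 + r * (2 * k) + a by omega,
        show r * (2 * k) + b - 1 + 1 = 0 + r * (2 * k) + b by omega] at this
    refine pow_of k _ 0 (2 * k) g
      (fun a => if a = 0 then 2 * k + 2 else if a = 1 then 2 * k + 1 else a) (by omega)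
      (by omega) (fun a ha b hb e => ?_) (fun r hr a ha b hb hab => ?_)
    · split_ifs at e <;> omega
    · have ha1 : a ≠ 0 := by
        rintro rfl
        rw [if_pos rfl] at hab
        split_ifs at hab <;> omega
      by_cases h1 : 1 ≤ r * (2 * k) + b
      · exact aux r hr a ha b hb (by omega) h1 hab
      · rw [show 0 + r * (2 * k) + b = 0 by omega]
        by_cases ha2 : a = 1
        · rw [show 0 + r * (2 * k) + a = 1 by omega]; exact h
        · have := aux r hr a ha 1 (by omega) (by omega) (by omega)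
            (by rw [if_neg ha1, if_neg ha2]; simp; omega)
          rw [show 0 + r * (2 * k) + 1 = 1 by omega] at this
          omega

theorem tm_pow (e : ℕ) : tm (2 ^ e) = 1 := by
  induction e with
  | zero => simp [tm]
  | succ e ih => rw [pow_succ, mul_comm, tm_even, ih]

end Pool.Agent.H25.Bic
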