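import Mathlib

namespace Pool.Agent.H25.Coins

open Finset

structure Good (n c : ℕ) (S : Finset (ℕ × ℕ)) : Prop where
  sub : ∀ x ∈ S, x.1 < n ∧ x.2 < n
  row : ∀ a < n, (S.filter fun x => x.1 = a).card = c
  col : ∀ a, (S.filter fun x => x.2 = a).card ≤ c
  sum : ∀ k, (S.filter fun x => x.1 + x.2 = k).card ≤ c
  dif : ∀ k, (S.filter fun x => x.1 + n = x.2 + k).card ≤ c

def cells (n c : ℕ) (π : ℕ → ℕ → ℕ) : Finset (ℕ × ℕ) := (range c ×ˢ range n).image fun p => (p.2, π p.1 p.2)

theorem mem_cells {n c π x} : x ∈ cells n c π ↔ ∃ t < c, ∃ i < n, (i, π t i) = x := by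
  simp only [cells, mem_image, mem_product, mem_range, Prod.exists]
  exact ⟨fun ⟨t, i, ⟨a, b⟩, h⟩ => ⟨t, a, i, b, h⟩, fun ⟨t, a, i, b, h⟩ => ⟨t, i, ⟨a, b⟩, h⟩⟩

theorem line_le {n c : ℕ} {π : ℕ → ℕ → ℕ} (φ : ℕ → ℕ → ℕ) (P : ℕ × ℕ → Prop) [DecidablePred P]
    (h1 : ∀ t < c, ∀ i < n, φ t i < c)
    (h2 : ∀ t < c, ∀ i < n, ∀ t' < c, ∀ i' < n, P (i, π t i) → P (i', π t' i') → φ t i = φ t' i' → t = t' ∧ i = i') :
    ((cells n c π).filter P).card ≤ c := by
  rw [cells, filter_image]
  refine card_image_le.trans ?_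
  conv_rhs => rw [← card_range c]
  refine card_le_card_of_injOn (fun p => φ p.1 p.2) (fun p hp => ?_) (fun p hp q hq e => ?_)
  · simp only [coe_filter, mem_product, mem_range, Set.mem_ofPred_eq] at hp
    simpa using h1 _ hp.1.1 _ hp.1.2
  · simp only [coe_filter, mem_product, mem_range, Set.mem_ofPred_eq] at hp hq
    have := h2 _ hp.1.1 _ hp.1.2 _ hq.1.1 _ hq.1.2 hp.2 hq.2 e
    exact Prod.ext this.1 this.2

theorem mk {n c : ℕ} (π φ : ℕ → ℕ → ℕ) (hlt : ∀ t < c, ∀ i < n, π t i < n ∧ φ t i < c)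
    (hrow : ∀ t < c, ∀ t' < c, ∀ i < n, π t i = π t' i → t = t')
    (hcol : ∀ t < c, ∀ i < n, ∀ i' < n, π t i = π t i' → i = i')
    (hd : ∀ t < c, ∀ i < n, ∀ i' < n, i + π t i' = i' + π t i → i = i')
    (hs : ∀ t < c, ∀ i < n, ∀ t' < c, ∀ i' < n, i + π t i = i' + π t' i' → φ t i = φ t' i' → t = t' ∧ i = i') :
    Good n c (cells n c π) where
  sub x hx := by
    obtain ⟨t, ht, i, hi, rfl⟩ := mem_cells.1 hx
    exact ⟨hi, (hlt t ht i hi).1⟩
  row a ha := by
    have : (cells n c π).filter (fun x => x.1 = a) = (range c).image fun t => (a, π t a) := by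
      ext x
      simp only [mem_filter, mem_cells, mem_image, mem_range]
      exact ⟨fun ⟨⟨t, ht, i, _, h⟩, e⟩ => ⟨t, ht, by subst h; simp at e; rw [e]⟩,
        fun ⟨t, ht, h⟩ => ⟨⟨t, ht, a, ha, h⟩, by rw [← h]⟩⟩
    rw [this, card_image_of_injOn, card_range]
    intro t ht t' ht' e
    exact hrow t (by simpa using ht) t' (by simpa using ht') a ha (congrArg Prod.snd e)
  col a := line_le (fun t _ => t) _ (fun _ h _ _ => h) fun t ht i hi t' _ i' hi' h1 h2 e => by
    subst e; exact ⟨rfl, hcol t ht i hi i' hi' (h1.trans h2.symm)⟩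
  sum k := line_le φ _ (fun t ht i hi => (hlt t ht i hi).2) fun t ht i hi t' ht' i' hi' h1 h2 e =>
    hs t ht i hi t' ht' i' hi' (h1.trans h2.symm) e
  dif k := line_le (fun t _ => t) _ (fun _ h _ _ => h) fun t ht i hi t' _ i' hi' h1 h2 e => by
    subst e; exact ⟨rfl, hd t ht i hi i' hi' (by simp only at h1 h2; omega)⟩

theorem queens {n : ℕ} (q : ℕ → ℕ) (hlt : ∀ i < n, q i < n) (hcol : ∀ i < n, ∀ i' < n, q i = q i' → i = i')
    (hd : ∀ i < n, ∀ i' < n, i + q i' = i' + q i → i = i')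
    (hs : ∀ i < n, ∀ i' < n, i + q i = i' + q i' → i = i') : Good n 1 (cells n 1 fun _ => q) :=
  mk _ (fun _ _ => 0) (fun _ _ i hi => ⟨hlt i hi, one_pos⟩) (fun _ _ _ _ _ _ _ => by omega)
    (fun _ _ => hcol) (fun _ _ => hd) (fun _ _ i hi _ _ i' hi' h _ => ⟨by omega, hs i hi i' hi' h⟩)

theorem Good.union {n c c' S S'} (h : Good n c S) (h' : Good n c' S') (hd : Disjoint S S') :
    Good n (c + c') (S ∪ S') where
  sub x hx := (mem_union.1 hx).elim (h.sub x) (h'.sub x)
  row a ha := by rw [filter_union, card_union_of_disjoint (disjoint_filter_filter hd), h.row a ha, h'.row a ha]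
  col a := by rw [filter_union]; exact (card_union_le _ _).trans (add_le_add (h.col a) (h'.col a))
  sum a := by rw [filter_union]; exact (card_union_le _ _).trans (add_le_add (h.sum a) (h'.sum a))
  dif a := by rw [filter_union]; exact (card_union_le _ _).trans (add_le_add (h.dif a) (h'.dif a))

theorem disj {n c c' : ℕ} {π π' : ℕ → ℕ → ℕ} (h : ∀ t < c, ∀ t' < c', ∀ i < n, π t i ≠ π' t' i) :
    Disjoint (cells n c π) (cells n c' π') := by
  rw [disjoint_left]
  intro x hx hx'
  obtain ⟨t, ht, i, hi, rfl⟩ := mem_cells.1 hx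
  obtain ⟨t', ht', i', -, e⟩ := mem_cells.1 hx'
  obtain ⟨rfl, e⟩ := Prod.mk.inj e
  exact h t ht t' ht' _ hi e.symm

theorem good0 (n : ℕ) : Good n 0 ∅ := ⟨by simp, by simp, by simp, by simp, by simp⟩

def tabS (n M : ℕ) : Finset (ℕ × ℕ) := (range n ×ˢ range n).filter fun x => M.testBit (n * x.1 + x.2)

def Chk (n c M : ℕ) : Prop := (∀ a < n, ((tabS n M).filter fun x => x.1 = a).card = c) ∧
  ∀ a < 2 * n, ((tabS n M).filter fun x => x.2 = a).card ≤ c ∧ ((tabS n M).filter fun x => x.1 + x.2 = a).card ≤ c ∧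
    ((tabS n M).filter fun x => x.1 + n = x.2 + a).card ≤ c

instance (n c M : ℕ) : Decidable (Chk n c M) := by unfold Chk; infer_instance

theorem Chk.good {n c M : ℕ} (h : Chk n c M) : Good n c (tabS n M) := by
  have hs : ∀ x ∈ tabS n M, x.1 < n ∧ x.2 < n := fun x hx => by simpa using (mem_filter.1 hx).1
  have z : ∀ (P : ℕ × ℕ → Prop) [DecidablePred P], (∀ x : ℕ × ℕ, x.1 < n → x.2 < n → ¬ P x) →
      ((tabS n M).filter P).card ≤ c := fun P _ hP => by
    rw [filter_eq_empty_iff.2 fun x hx => hP x (hs x hx).1 (hs x hx).2]; simp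
  refine ⟨hs, h.1, fun a => ?_, fun a => ?_, fun a => ?_⟩ <;> by_cases ha : a < 2 * n
  exacts [(h.2 a ha).1, z _ fun x _ _ => by omega, (h.2 a ha).2.1, z _ fun x _ _ => by omega, (h.2 a ha).2.2,
    z _ fun x _ _ => by omega]

def rho (N u i : ℕ) : ℕ := if i < u then i else i - N
def cyc (N u i j : ℕ) : ℕ := if rho N u i ≤ rho N u j then rho N u j - rho N u i else rho N u j + 2 * u - rho N u i
def inB (N u i : ℕ) : Prop := u ≤ i ∧ i < u + N
instance (N u i : ℕ) : Decidable (inB N u i) := by unfold inB; infer_instance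
def Y (N u m : ℕ) : Finset (ℕ × ℕ) := (range (N + 2 * u) ×ˢ range (N + 2 * u)).filter fun x =>
  ¬ (inB N u x.1 ∧ inB N u x.2) ∧ (inB N u x.1 ∨ inB N u x.2 ∨ m ≤ cyc N u x.1 x.2)

theorem mem_Y {N u m : ℕ} {x : ℕ × ℕ} : x ∈ Y N u m ↔ (x.1 < N + 2 * u ∧ x.2 < N + 2 * u) ∧
    ¬ (inB N u x.1 ∧ inB N u x.2) ∧ (inB N u x.1 ∨ inB N u x.2 ∨ m ≤ cyc N u x.1 x.2) := by
  simp only [Y, mem_filter, mem_product, mem_range]

theorem le_of_inj {T : Finset (ℕ × ℕ)} {K : ℕ} (f : ℕ × ℕ → ℕ) (h1 : ∀ x ∈ T, f x < K)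
    (h2 : ∀ x ∈ T, ∀ y ∈ T, f x = f y → x.1 = y.1 ∧ x.2 = y.2) : T.card ≤ K := by
  conv_rhs => rw [← card_range K]
  exact card_le_card_of_injOn f (fun x hx => by simpa using h1 x hx)
    fun x hx y hy e => Prod.ext (h2 x hx y hy e).1 (h2 x hx y hy e).2

theorem Y_row (N u m : ℕ) (hm : m ≤ 2 * u) (a : ℕ) (ha : a < N + 2 * u) :
    ((Y N u m).filter fun x => x.1 = a).card = if inB N u a then 2 * u else N + 2 * u - m := by
  split_ifs with h
  · rw [← card_range (2 * u)]
    refine card_bij (fun x _ => rho N u x.2) ?_ ?_ ?_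
    · intro x hx; simp only [mem_filter, mem_Y, mem_range, inB, rho] at *; split_ifs <;> omega
    · intro x hx y hy e
      simp only [mem_filter, mem_Y, inB, rho] at *
      refine Prod.ext ?_ ?_ <;> split_ifs at e <;> omega
    · intro b hb
      have hb := mem_range.1 hb
      refine ⟨(a, if b < u then b else b + N), mem_filter.2 ⟨mem_Y.2 ⟨⟨ha, ?_⟩, ?_, Or.inl h⟩, rfl⟩, ?_⟩ <;>
        simp only [inB, rho] at * <;> split_ifs <;> omega
  · rw [← card_range (N + 2 * u - m)]
    refine card_bij (fun x _ => if inB N u x.2 then x.2 - u else N + cyc N u a x.2 - m) ?_ ?_ ?_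
    · rintro ⟨i, j⟩ hx
      obtain ⟨hx, rfl⟩ := mem_filter.1 hx
      simp only [mem_Y, mem_range, inB, cyc, rho] at *; split_ifs at * <;> omega
    · rintro ⟨i, j⟩ hx ⟨i', j'⟩ hy e
      obtain ⟨hx, rfl⟩ := mem_filter.1 hx
      obtain ⟨hy, rfl⟩ := mem_filter.1 hy
      simp only [mem_Y, inB, cyc, rho, Prod.mk.injEq, true_and] at *
      split_ifs at * <;> omega
    · intro b hb
      have hb := mem_range.1 hb
      obtain ⟨r, hr, e⟩ : ∃ r < 2 * u, N ≤ b → (if rho N u a ≤ r then r - rho N u a else r + 2 * u - rho N u a) =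
          b - N + m := by
        have : rho N u a < 2 * u := by simp only [rho, inB] at *; split_ifs <;> omega
        by_cases hN : N ≤ b
        · refine ⟨if rho N u a + (b - N + m) < 2 * u then rho N u a + (b - N + m) else
            rho N u a + (b - N + m) - 2 * u, ?_, fun _ => ?_⟩ <;> split_ifs <;> omega
        · exact ⟨0, by omega, fun t => absurd t hN⟩
      by_cases hN : N ≤ b
      · have e := e hN
        have e1 : rho N u (if r < u then r else r + N) = r := by simp only [rho]; split_ifs <;> omega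
        have e2 : ¬ inB N u (if r < u then r else r + N) := by simp only [inB]; split_ifs <;> omega
        have e3 : cyc N u a (if r < u then r else r + N) = b - N + m := by rw [cyc, e1, e]
        refine ⟨(a, if r < u then r else r + N), mem_filter.2 ⟨mem_Y.2 ⟨⟨ha, ?_⟩, fun t => h t.1, ?_⟩, rfl⟩, ?_⟩
        · simp only; split_ifs <;> omega
        · right; right; simp only; omega
        · simp only; rw [if_neg e2, e3]; omega
      · have e2 : inB N u (b + u) := by simp only [inB]; omega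
        refine ⟨(a, b + u), mem_filter.2 ⟨mem_Y.2 ⟨⟨ha, by simp only; omega⟩, fun t => h t.1, Or.inr (Or.inl e2)⟩, rfl⟩, ?_⟩
        simp only; rw [if_pos e2]; omega

theorem Good.grow {N c S} (h : Good N c S) (hc : c ≤ N) (u : ℕ) (hu : N - c ≤ 2 * u) :
    ∃ S', Good (N + 2 * u) (c + 2 * u) S' := by
  let sh : ℕ × ℕ → ℕ × ℕ := fun x => (x.1 + u, x.2 + u)
  have hsh : Function.Injective sh := fun x y e => by
    simp only [sh, Prod.mk.injEq] at e; exact Prod.ext (by omega) (by omega)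
  have key : ∀ (P Q : ℕ × ℕ → Prop) [DecidablePred P] [DecidablePred Q], (∀ x ∈ S, P (sh x) ↔ Q x) →
      ((S.image sh).filter P).card = (S.filter Q).card := fun P Q _ _ e => by
    rw [filter_image, card_image_of_injective _ hsh, filter_congr e]
  have hd : Disjoint (S.image sh) (Y N u (N - c)) := by
    rw [disjoint_left]
    intro x hx hy
    obtain ⟨y, hy', rfl⟩ := mem_image.1 hx
    have := h.sub y hy'
    simp only [mem_Y, inB, sh] at hy; omega
  refine ⟨S.image sh ∪ Y N u (N - c), fun x hx => ?_, fun a ha => ?_, fun a => ?_, fun a => ?_, fun a => ?_⟩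
  · rcases mem_union.1 hx with hx | hx
    · obtain ⟨y, hy', rfl⟩ := mem_image.1 hx
      have := h.sub y hy'
      simp only [sh]; omega
    · exact (mem_Y.1 hx).1
  · rw [filter_union, card_union_of_disjoint (disjoint_filter_filter hd), Y_row N u _ hu a ha]
    split_ifs with t
    · rw [key _ (fun x => x.1 = a - u) (fun x _ => by simp only [sh, inB] at *; omega),
        h.row _ (by simp only [inB] at t; omega)]
    · rw [key _ (fun _ => False) (fun x hx => by have := h.sub x hx; simp only [sh, inB, iff_false] at *; omega)]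
      simp; omega
  · rw [filter_union]
    refine (card_union_le _ _).trans ?_
    by_cases t : inB N u a
    · refine add_le_add ?_ (le_of_inj (fun x => rho N u x.1) ?_ ?_)
      · rw [key _ (fun x => x.2 = a - u) (fun x _ => by simp only [sh, inB] at *; omega)]; exact h.col _
      · intro x hx; simp only [mem_filter, mem_Y, inB, rho] at *; split_ifs <;> omega
      · intro x hx y hy e; simp only [mem_filter, mem_Y, inB, rho] at *; split_ifs at e <;> omega
    · rw [key _ (fun _ => False) (fun x hx => by have := h.sub x hx; simp only [sh, inB, iff_false] at *; omega)]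
      simp only [filter_false, card_empty, zero_add]
      refine le_of_inj (fun x => if inB N u x.1 then x.1 - u else N + cyc N u x.1 a - (N - c)) ?_ ?_
      · rintro ⟨i, j⟩ hx
        obtain ⟨hx, rfl⟩ := mem_filter.1 hx
        simp only [mem_Y, inB, cyc, rho] at *; split_ifs at * <;> omega
      · rintro ⟨i, j⟩ hx ⟨i', j'⟩ hy e
        obtain ⟨hx, rfl⟩ := mem_filter.1 hx
        obtain ⟨hy, rfl⟩ := mem_filter.1 hy
        simp only [mem_Y, inB, cyc, rho, and_true] at *
        split_ifs at * <;> omega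
  · rw [filter_union]
    refine (card_union_le _ _).trans (add_le_add ?_ (le_of_inj
      (fun x => if min x.1 (N + 2 * u - 1 - x.2) < u then min x.1 (N + 2 * u - 1 - x.2)
        else max x.1 (N + 2 * u - 1 - x.2) - N) ?_ ?_))
    · rw [key _ (fun x => x.1 + x.2 + 2 * u = a) (fun x _ => by simp only [sh]; omega)]
      exact (card_le_card fun x hx => mem_filter.2 ⟨(mem_filter.1 hx).1, by
        have := (mem_filter.1 hx).2; omega⟩).trans (h.sum (a - 2 * u))
    · intro x hx
      obtain ⟨hx, e⟩ := mem_filter.1 hx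
      obtain ⟨h1, h2, -⟩ := mem_Y.1 hx
      simp only [inB] at *; split_ifs <;> omega
    · intro x hx y hy e
      obtain ⟨hx, e1⟩ := mem_filter.1 hx
      obtain ⟨h1, h2, -⟩ := mem_Y.1 hx
      obtain ⟨hy, e2⟩ := mem_filter.1 hy
      obtain ⟨h3, h4, -⟩ := mem_Y.1 hy
      simp only [inB] at *; split_ifs at e <;> omega
  · rw [filter_union]
    refine (card_union_le _ _).trans (add_le_add ?_ (le_of_inj
      (fun x => if min x.1 x.2 < u then min x.1 x.2 else max x.1 x.2 - N) ?_ ?_))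
    · rw [key _ (fun x => x.1 + N + 2 * u = x.2 + a) (fun x _ => by simp only [sh]; omega)]
      exact (card_le_card fun x hx => mem_filter.2 ⟨(mem_filter.1 hx).1, by
        have := (mem_filter.1 hx).2; have := h.sub x (mem_filter.1 hx).1; omega⟩).trans (h.dif (a - 2 * u))
    · intro x hx
      obtain ⟨hx, e⟩ := mem_filter.1 hx
      obtain ⟨h1, h2, -⟩ := mem_Y.1 hx
      simp only [inB] at *; split_ifs <;> omega
    · intro x hx y hy e
      obtain ⟨hx, e1⟩ := mem_filter.1 hx
      obtain ⟨h1, h2, -⟩ := mem_Y.1 hx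
      obtain ⟨hy, e2⟩ := mem_filter.1 hy
      obtain ⟨h3, h4, -⟩ := mem_Y.1 hy
      simp only [inB] at *; split_ifs at e <;> omega

end Pool.Agent.H25.Coins
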