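import Pool.Agent.H25.Coins

namespace Pool.Agent.H25.Coins

open Finset

def wrap (n x : ℕ) : ℕ := if x < n then x else if x < 2 * n then x - n else x - 2 * n

theorem wrap_spec (n x : ℕ) (h : x < 3 * n) : wrap n x < n ∧ (wrap n x = x ∨ wrap n x + n = x ∨ wrap n x + 2 * n = x) := by
  unfold wrap; split_ifs <;> omega

theorem famA (n c : ℕ) (hn : n % 6 = 1 ∨ n % 6 = 5) (hc : c ≤ n) : ∃ S, Good n c S := by
  have w : ∀ t < c, ∀ i < n, _ := fun t (ht : t < c) i (hi : i < n) => wrap_spec n (2 * i + t) (by omega)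
  refine ⟨_, mk (fun t i => wrap n (2 * i + t)) (fun t _ => t) (fun t ht i hi => ⟨(w t ht i hi).1, ht⟩) ?_ ?_ ?_ ?_⟩
  · intro t ht t' ht' i hi e
    have := w t ht i hi; have := w t' ht' i hi; omega
  · intro t ht i hi i' hi' e
    have := w t ht i hi; have := w t ht i' hi'; omega
  · intro t ht i hi i' hi' e
    have := w t ht i hi; have := w t ht i' hi'; omega
  · intro t ht i hi t' ht' i' hi' e e'
    subst e'
    have := w t ht i hi; have := w t ht i' hi'; omega

def sB (h i : ℕ) : ℕ := if i < h then 2 * i + 3 else 2 * (i - h) + 6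

theorem famB (h c : ℕ) (hn : h % 3 ≠ 0) (h7 : 7 ≤ h) (hc : c ≤ h) : ∃ S, Good (2 * h) c S := by
  have s : ∀ i, (i < h ∧ sB h i = 2 * i + 3) ∨ (h ≤ i ∧ sB h i + 2 * h = 2 * i + 6) := fun i => by
    unfold sB; split_ifs <;> omega
  have w : ∀ t < c, ∀ i < 2 * h, _ := fun t (ht : t < c) i (hi : i < 2 * h) =>
    wrap_spec (2 * h) (sB h i + t) (by have := s i; omega)
  refine ⟨_, mk (fun t i => wrap (2 * h) (sB h i + t)) (fun t _ => t) (fun t ht i hi => ⟨(w t ht i hi).1, ht⟩)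
    ?_ ?_ ?_ ?_⟩
  · intro t ht t' ht' i hi e
    have := w t ht i hi; have := w t' ht' i hi; omega
  · intro t ht i hi i' hi' e
    have := w t ht i hi; have := w t ht i' hi'; have := s i; have := s i'; omega
  · intro t ht i hi i' hi' e
    have := w t ht i hi; have := w t ht i' hi'; have := s i; have := s i'; omega
  · intro t ht i hi t' ht' i' hi' e e'
    subst e'
    have := w t ht i hi; have := w t ht i' hi'; have := s i; have := s i'; omega

def th (m x : ℕ) : ℕ := if x < m then 0 else if x < 2 * m then 1 else if x < 3 * m then 2 else 0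

theorem th_spec (m x : ℕ) (h : x ≤ 3 * m) : (x < m ∧ th m x = 0) ∨ (m ≤ x ∧ x < 2 * m ∧ th m x = 1) ∨
    (2 * m ≤ x ∧ x < 3 * m ∧ th m x = 2) ∨ (x = 3 * m ∧ th m x = 0) := by
  unfold th; split_ifs <;> omega

def sC (h i : ℕ) : ℕ := if i < h then 2 * i + 7 else 2 * (i - h) + 8
def bC (m t i : ℕ) : ℕ := wrap (6 * m) (sC (3 * m) i + t)

theorem bC_spec (m t i : ℕ) (ht : t + 7 < 6 * m) (hi : i < 6 * m) : bC m t i < 6 * m ∧
    ((i < 3 * m ∧ (bC m t i = 2 * i + 7 + t ∨ bC m t i + 6 * m = 2 * i + 7 + t)) ∨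
     (3 * m ≤ i ∧ (bC m t i + 6 * m = 2 * i + 8 + t ∨ bC m t i + 12 * m = 2 * i + 8 + t))) := by
  unfold bC wrap sC; split_ifs <;> omega

theorem bandC (m k : ℕ) (hk : 3 * k + 7 ≤ 6 * m) : Good (6 * m) (3 * k) (cells (6 * m) (3 * k) (bC m)) := by
  have w : ∀ t < 3 * k, ∀ i < 6 * m, _ := fun t (ht : t < 3 * k) i (hi : i < 6 * m) => bC_spec m t i (by omega) hi
  refine mk _ (fun t i => 3 * (t / 3) + th (2 * m) (if 3 * m ≤ i ∧ t % 3 = 2 then i + 1 else i))
    (fun t ht i hi => ⟨(w t ht i hi).1, ?_⟩) ?_ ?_ ?_ ?_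
  · have := th_spec (2 * m) (if 3 * m ≤ i ∧ t % 3 = 2 then i + 1 else i) (by split_ifs <;> omega)
    omega
  · intro t ht t' ht' i hi e
    have := w t ht i hi; have := w t' ht' i hi; omega
  · intro t ht i hi i' hi' e
    have := w t ht i hi; have := w t ht i' hi'; omega
  · intro t ht i hi i' hi' e
    have := w t ht i hi; have := w t ht i' hi'; omega
  · intro t ht i hi t' ht' i' hi' e e'
    have := w t ht i hi; have := w t' ht' i' hi'
    have := th_spec (2 * m) (if 3 * m ≤ i ∧ t % 3 = 2 then i + 1 else i) (by split_ifs <;> omega)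
    have := th_spec (2 * m) (if 3 * m ≤ i' ∧ t' % 3 = 2 then i' + 1 else i') (by split_ifs <;> omega)
    split_ifs at * <;> omega

def qCA (m i : ℕ) : ℕ := if i = 0 then 6 * m - 6 else if i ≤ 3 * m then 2 * i - 1 else
  if i + 3 ≤ 6 * m then 2 * (i - 3 * m - 1) else 2 * (i - 3 * m)
def qCB (m i : ℕ) : ℕ := if i < 2 then 2 * i + 1 else if i + 2 ≤ 3 * m then 2 * i + 3 else
  if i + 2 ≤ 6 * m then 2 * (i + 1 - 3 * m) else 5

theorem gCA (m : ℕ) (hm : 2 ≤ m) : Good (6 * m) 1 (cells (6 * m) 1 fun _ => qCA m) :=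
  queens _ (fun i hi => by unfold qCA; split_ifs <;> omega) (fun i hi j hj => by unfold qCA; split_ifs <;> omega)
    (fun i hi j hj => by unfold qCA; split_ifs <;> omega) (fun i hi j hj => by unfold qCA; split_ifs <;> omega)

theorem gCB (m : ℕ) (hm : 2 ≤ m) : Good (6 * m) 1 (cells (6 * m) 1 fun _ => qCB m) :=
  queens _ (fun i hi => by unfold qCB; split_ifs <;> omega) (fun i hi j hj => by unfold qCB; split_ifs <;> omega)
    (fun i hi j hj => by unfold qCB; split_ifs <;> omega) (fun i hi j hj => by unfold qCB; split_ifs <;> omega)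

theorem famC1 (m k : ℕ) (hm : 2 ≤ m) (hk : 3 * k + 7 ≤ 6 * m) : ∃ S, Good (6 * m) (3 * k + 1) S :=
  ⟨_, (bandC m k hk).union (gCB m hm) (disj fun t ht _ _ i hi => by
    have := bC_spec m t i (by omega) hi
    unfold qCB; split_ifs <;> omega)⟩

theorem famC2 (m k : ℕ) (hk : 3 * k + 13 ≤ 6 * m) : ∃ S, Good (6 * m) (3 * k + 1 + 1) S :=
  ⟨_, ((bandC m k (by omega)).union (gCB m (by omega)) (disj fun t ht _ _ i hi => by
    have := bC_spec m t i (by omega) hi
    unfold qCB; split_ifs <;> omega)).union (gCA m (by omega)) (disjoint_union_left.2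
      ⟨disj fun t ht _ _ i hi => by
        have := bC_spec m t i (by omega) hi
        unfold qCA; split_ifs <;> omega,
       disj fun _ _ _ _ i hi => by unfold qCA qCB; split_ifs <;> omega⟩)⟩

def bD (m t i : ℕ) : ℕ := wrap (6 * m + 3) (2 * i + 6 + t)

theorem bandD (m k : ℕ) (hk : 3 * k + 4 ≤ 6 * m + 3) :
    Good (6 * m + 3) (3 * k) (cells (6 * m + 3) (3 * k) (bD m)) := by
  have w : ∀ t < 3 * k, ∀ i < 6 * m + 3, _ := fun t (ht : t < 3 * k) i (hi : i < 6 * m + 3) =>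
    wrap_spec (6 * m + 3) (2 * i + 6 + t) (by omega)
  refine mk _ (fun t i => 3 * (t / 3) + th (2 * m + 1) i) (fun t ht i hi => ⟨(w t ht i hi).1, ?_⟩) ?_ ?_ ?_ ?_
  · have := th_spec (2 * m + 1) i (by omega)
    omega
  · intro t ht t' ht' i hi e
    have := w t ht i hi; have := w t' ht' i hi; unfold bD at e; omega
  · intro t ht i hi i' hi' e
    have := w t ht i hi; have := w t ht i' hi'; unfold bD at e; omega
  · intro t ht i hi i' hi' e
    have := w t ht i hi; have := w t ht i' hi'; unfold bD at e; omega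
  · intro t ht i hi t' ht' i' hi' e e'
    have := w t ht i hi; have := w t' ht' i' hi'
    have := th_spec (2 * m + 1) i (by omega)
    have := th_spec (2 * m + 1) i' (by omega)
    unfold bD at e; omega

def qDA (m i : ℕ) : ℕ := if i < 2 then 6 * m + 2 * i else if i < 3 * m + 2 then 2 * i - 4 else
  if i = 3 * m + 2 then 6 * m + 1 else 2 * (i - (3 * m + 2)) - 1
def qDB (m i : ℕ) : ℕ := if i < 3 * m then 2 * i + 3 else if i = 3 * m then 1 else
  if i < 6 * m + 1 then 2 * (i - 3 * m) + 2 else 2 * (i - (6 * m + 1))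

theorem gDA (m : ℕ) (hm : 1 ≤ m) : Good (6 * m + 3) 1 (cells (6 * m + 3) 1 fun _ => qDA m) :=
  queens _ (fun i hi => by unfold qDA; split_ifs <;> omega) (fun i hi j hj => by unfold qDA; split_ifs <;> omega)
    (fun i hi j hj => by unfold qDA; split_ifs <;> omega) (fun i hi j hj => by unfold qDA; split_ifs <;> omega)

theorem gDB (m : ℕ) (hm : 1 ≤ m) : Good (6 * m + 3) 1 (cells (6 * m + 3) 1 fun _ => qDB m) :=
  queens _ (fun i hi => by unfold qDB; split_ifs <;> omega) (fun i hi j hj => by unfold qDB; split_ifs <;> omega)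
    (fun i hi j hj => by unfold qDB; split_ifs <;> omega) (fun i hi j hj => by unfold qDB; split_ifs <;> omega)

theorem famD1 (m k : ℕ) (hm : 1 ≤ m) (hk : 3 * k + 4 ≤ 6 * m + 3) : ∃ S, Good (6 * m + 3) (3 * k + 1) S :=
  ⟨_, (bandD m k hk).union (gDB m hm) (disj fun t ht _ _ i hi => by
    have := wrap_spec (6 * m + 3) (2 * i + 6 + t) (by omega)
    unfold qDB bD; split_ifs <;> omega)⟩

theorem famD2 (m k : ℕ) (hk : 3 * k + 10 ≤ 6 * m + 3) : ∃ S, Good (6 * m + 3) (3 * k + 1 + 1) S :=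
  ⟨_, ((bandD m k (by omega)).union (gDB m (by omega)) (disj fun t ht _ _ i hi => by
    have := wrap_spec (6 * m + 3) (2 * i + 6 + t) (by omega)
    unfold qDB bD; split_ifs <;> omega)).union (gDA m (by omega)) (disjoint_union_left.2
      ⟨disj fun t ht _ _ i hi => by
        have := wrap_spec (6 * m + 3) (2 * i + 6 + t) (by omega)
        unfold qDA bD; split_ifs <;> omega,
       disj fun _ _ _ _ i hi => by unfold qDA qDB; split_ifs <;> omega⟩)⟩

theorem t1_1 : ∃ S, Good 1 1 S := ⟨_, Chk.good (M := 1) (by decide +kernel)⟩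
theorem t4_1 : ∃ S, Good 4 1 S := ⟨_, Chk.good (M := 10260) (by decide +kernel)⟩
theorem t4_2 : ∃ S, Good 4 2 S := ⟨_, Chk.good (M := 38550) (by decide +kernel)⟩
theorem t4_3 : ∃ S, Good 4 3 S := ⟨_, Chk.good (M := 32235) (by decide +kernel)⟩
theorem t6_1 : ∃ S, Good 6 1 S := ⟨_, Chk.good (M := 4832428104) (by decide +kernel)⟩
theorem t6_2 : ∃ S, Good 6 2 S := ⟨_, Chk.good (M := 4031789580) (by decide +kernel)⟩
theorem t6_3 : ∃ S, Good 6 3 S := ⟨_, Chk.good (M := 27207547542) (by decide +kernel)⟩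
theorem t8_1 : ∃ S, Good 8 1 S := ⟨_, Chk.good (M := 297240049576149000) (by decide +kernel)⟩
theorem t8_2 : ∃ S, Good 8 2 S := ⟨_, Chk.good (M := 10378838225902125330) (by decide +kernel)⟩
theorem t8_3 : ∃ S, Good 8 3 S := ⟨_, Chk.good (M := 9685105911340932180) (by decide +kernel)⟩
theorem t8_4 : ∃ S, Good 8 4 S := ⟨_, Chk.good (M := 2174510497732551195) (by decide +kernel)⟩
theorem t9_2 : ∃ S, Good 9 2 S := ⟨_, Chk.good (M := 453440605740873636188177) (by decide +kernel)⟩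
theorem t10_1 : ∃ S, Good 10 1 S := ⟨_, Chk.good (M := 19961784318716374009839099906) (by decide +kernel)⟩
theorem t10_2 : ∃ S, Good 10 2 S := ⟨_, Chk.good (M := 237705053634158079341479665921) (by decide +kernel)⟩
theorem t10_3 : ∃ S, Good 10 3 S := ⟨_, Chk.good (M := 128776366607505982600736419974) (by decide +kernel)⟩
theorem t10_4 : ∃ S, Good 10 4 S := ⟨_, Chk.good (M := 111038049142808820549906763176) (by decide +kernel)⟩
theorem t10_5 : ∃ S, Good 10 5 S := ⟨_, Chk.good (M := 1228408356395932935416028016797) (by decide +kernel)⟩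
theorem t12_2 : ∃ S, Good 12 2 S := ⟨_, Chk.good (M := 5597145395515700061016304165744737368940680) (by decide +kernel)⟩
theorem t12_5 : ∃ S, Good 12 5 S := ⟨_, Chk.good (M := 18185141138765275688564025377420618076864615) (by decide +kernel)⟩
theorem t12_6 : ∃ S, Good 12 6 S := ⟨_, Chk.good (M := 8682948215211742587703024806650324966550810) (by decide +kernel)⟩
theorem t18_8 : ∃ S, Good 18 8 S := ⟨_, Chk.good (M := 5652060726986836355082022146264213600519723861915440519090735733355431874741564434626954840321226) (by decide +kernel)⟩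

theorem half (n c : ℕ) (hn : 4 ≤ n) (hc : 2 * c ≤ n) : ∃ S, Good n c S := by
  by_cases h0 : c = 0
  · exact ⟨_, h0 ▸ good0 n⟩
  by_cases hA : n % 6 = 1 ∨ n % 6 = 5
  · exact famA n c hA (by omega)
  by_cases hB : n % 6 = 2 ∨ n % 6 = 4
  · by_cases h14 : 14 ≤ n
    · obtain ⟨h, rfl⟩ : ∃ h, n = 2 * h := ⟨n / 2, by omega⟩
      exact famB h c (by omega) (by omega) (by omega)
    · have : (n = 4 ∧ (c = 1 ∨ c = 2)) ∨ (n = 8 ∧ (c = 1 ∨ c = 2 ∨ c = 3 ∨ c = 4)) ∨
        (n = 10 ∧ (c = 1 ∨ c = 2 ∨ c = 3 ∨ c = 4 ∨ c = 5)) := by omega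
      rcases this with ⟨rfl, rfl | rfl⟩ | ⟨rfl, rfl | rfl | rfl | rfl⟩ | ⟨rfl, rfl | rfl | rfl | rfl | rfl⟩
      exacts [t4_1, t4_2, t8_1, t8_2, t8_3, t8_4, t10_1, t10_2, t10_3, t10_4, t10_5]
  obtain ⟨k, hk⟩ : ∃ k, c = 3 * k ∨ c = 3 * k + 1 ∨ c = 3 * k + 1 + 1 := ⟨c / 3, by omega⟩
  by_cases hC : n % 6 = 0
  · obtain ⟨m, rfl⟩ : ∃ m, n = 6 * m := ⟨n / 6, by omega⟩
    by_cases hs : (m = 1 ∧ (c = 1 ∨ c = 2 ∨ c = 3)) ∨ (m = 2 ∧ (c = 2 ∨ c = 5 ∨ c = 6)) ∨ (m = 3 ∧ c = 8)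
    · rcases hs with ⟨rfl, rfl | rfl | rfl⟩ | ⟨rfl, rfl | rfl | rfl⟩ | ⟨rfl, rfl⟩
      exacts [t6_1, t6_2, t6_3, t12_2, t12_5, t12_6, t18_8]
    rcases hk with rfl | rfl | rfl
    · exact ⟨_, bandC m k (by omega)⟩
    · exact famC1 m k (by omega) (by omega)
    · exact famC2 m k (by omega)
  · obtain ⟨m, rfl⟩ : ∃ m, n = 6 * m + 3 := ⟨n / 6, by omega⟩
    by_cases hs : m = 1 ∧ c = 2
    · obtain ⟨rfl, rfl⟩ := hs
      exact t9_2
    rcases hk with rfl | rfl | rfl
    · exact ⟨_, bandD m k (by omega)⟩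
    · exact famD1 m k (by omega) (by omega)
    · exact famD2 m k (by omega)

theorem all (n c : ℕ) (hn : 4 ≤ n) (hc : c ≤ n) : ∃ S, Good n c S := by
  by_cases h : 2 * c ≤ n
  · exact half n c hn h
  have g : ∀ N c' u, (∃ S, Good N c' S) → c' ≤ N → N - c' ≤ 2 * u → n = N + 2 * u → c = c' + 2 * u →
      ∃ S, Good n c S := by
    rintro N c' u ⟨S, hS⟩ h1 h2 rfl rfl
    exact hS.grow h1 u h2
  by_cases he : c % 2 = 0
  · exact g (n - c) 0 (c / 2) ⟨_, good0 _⟩ (by omega) (by omega) (by omega) (by omega)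
  by_cases h0 : n = c
  · exact g 1 1 (c / 2) t1_1 (by omega) (by omega) (by omega) (by omega)
  by_cases h3 : c + 3 ≤ n
  · exact g (n - c + 1) 1 (c / 2) (half _ 1 (by omega) (by omega)) (by omega) (by omega) (by omega) (by omega)
  by_cases h4 : n = 4
  · obtain rfl : c = 3 := by omega
    exact h4 ▸ t4_3
  by_cases h5 : n = 5
  · exact famA n c (by omega) hc
  by_cases h1 : n = c + 1
  · exact g 4 3 (c / 2 - 1) t4_3 (by omega) (by omega) (by omega) (by omega)
  · exact g 5 3 (c / 2 - 1) (famA 5 3 (by omega) (by omega)) (by omega) (by omega) (by omega) (by omega)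

end Pool.Agent.H25.Coins
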