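import Mathlib

namespace Pool.Agent.H25.Crit3

open Finset

lemma even_of_unique {V : Type*} [DecidableEq V] (c : V → V → Prop) (hr : ∀ a, c a a)
    (hs : ∀ a b, c a b → c b a) (S : Finset V)
    (h : ∀ s ∈ S, ∃ t ∈ S, ¬ c s t ∧ ∀ u ∈ S, ¬ c s u → u = t) : Even S.card := by
  choose g hg1 hg2 hg3 using h
  have : ∑ _s ∈ S, (1 : ZMod 2) = 0 := by
    refine Finset.sum_involution g (fun _ _ => by decide) (fun a ha _ e => ?_) hg1 (fun a ha => ?_)
    · exact hg2 a ha (by rw [e]; exact hr a)
    · exact (hg3 _ (hg1 a ha) a ha (fun e => hg2 a ha (hs _ _ e))).symm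
  simp only [sum_const, nsmul_eq_mul, mul_one] at this
  exact (ZMod.natCast_eq_zero_iff_even).1 this

section
variable {V : Type*} [Fintype V] [DecidableEq V] (c : V → V → Prop) (hr : ∀ a, c a a)
  (hs : ∀ a b, c a b → c b a)
  (H2 : ∀ a b, ∃ w, ¬ c a w ∧ ¬ c b w)
  (HC : ∀ u v, ¬ c u v →
    ∃ x, (∀ w, w ≠ v → c u w ∨ c x w) ∨ (∀ w, w ≠ u → c v w ∨ c x w))
  (r : ℕ) (S : Finset V) (hS : S.card = r + 1)
  (hdeg : ∀ s ∈ S, ∀ T : Finset V, (∀ w ∈ T, c s w) → T.card ≤ r + 1)

include hr H2 in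
lemma notc {u v x : V} (huv : ¬ c u v) (h : ∀ w, w ≠ v → c u w ∨ c x w) : ¬ c x v := by
  intro hx
  obtain ⟨w, h1, h2⟩ := H2 u x
  by_cases e : w = v
  · exact h2 (e ▸ hx)
  · rcases h w e with h | h <;> contradiction

include hr hs H2 HC hS hdeg in
/-- A far vertex `t` that is of the second type for all `s`, and a second far vertex. -/
lemma far (hn : 2 * (r + 1) ^ 2 < Fintype.card V) :
    ∃ t, (∀ s ∈ S, ¬ c s t) ∧ (∀ s ∈ S, (∃ s' ∈ S, ¬ c s s') →
      ∃ x, ¬ c x s ∧ ∀ w, w ≠ s → c t w ∨ c x w) := by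
  classical
  let N : V → Finset V := fun s => univ.filter (c s)
  let A : V → Finset V := fun s => univ.filter (fun t => (∀ s ∈ S, ¬ c s t) ∧
    (∃ s' ∈ S, ¬ c s s') ∧ ∃ x, ∀ w, w ≠ t → c s w ∨ c x w)
  have hN : ∀ s ∈ S, (N s).card ≤ r + 1 := fun s h => hdeg s h _ (by simp [N])
  have hA : ∀ s ∈ S, (A s).card ≤ r + 1 := by
    intro s h
    by_cases h' : ∃ s' ∈ S, ¬ c s s'
    · obtain ⟨s', hs', hc⟩ := h'
      have : ∀ t ∈ A s, ∃ x, ∀ w, w ≠ t → c s w ∨ c x w := fun t ht => (mem_filter.1 ht).2.2.2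
      choose! x hx using this
      refine le_trans (card_le_card_of_injOn x (t := N s') (fun t ht => ?_) ?_) (hN s' hs')
      · have ht' : t ∈ A s := ht
        have h1 := (mem_filter.1 ht').2.1
        have : s' ≠ t := fun e => h1 s' hs' (e ▸ hr _)
        have := (hx t ht' s' this).resolve_left hc
        simpa [N] using hs _ _ this
      · intro t ht t' ht' e
        by_contra hne
        have h1 := (mem_filter.1 (show t ∈ A s from ht)).2.1
        have h2 := notc c hr H2 (h1 s h) (hx t ht)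
        rcases hx t' ht' t hne with h3 | h3
        · exact h1 s h h3
        · exact h2 (e ▸ h3)
    · have : A s = ∅ := by
        apply filter_eq_empty_iff.2
        intro t _ ht
        exact h' ht.2.1
      simp [this]
  have hb : (S.biUnion N ∪ S.biUnion A).card < Fintype.card V := by
    have h1 := card_biUnion_le_card_mul S N (r + 1) hN
    have h2 := card_biUnion_le_card_mul S A (r + 1) hA
    have h3 := card_union_le (S.biUnion N) (S.biUnion A)
    rw [hS] at h1 h2
    nlinarith
  obtain ⟨t, -, ht⟩ := exists_mem_notMem_of_card_lt_card (s := S.biUnion N ∪ S.biUnion A)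
    (t := univ) (by simpa using hb)
  simp only [mem_union, mem_biUnion, not_or, not_exists, not_and] at ht
  have h1 : ∀ s ∈ S, ¬ c s t := fun s h e => ht.1 s h (by simpa [N] using e)
  refine ⟨t, h1, fun s h h' => ?_⟩
  obtain ⟨x, hx | hx⟩ := HC s t (h1 s h)
  · exact absurd (mem_filter.2 ⟨mem_univ _, h1, h', x, hx⟩) (ht.2 s h)
  · exact ⟨x, notc c hr H2 (fun e => h1 s h (hs _ _ e)) hx, hx⟩

include hr hs H2 HC hS hdeg in
lemma caseIa (hr4 : 4 ≤ r) (x : V → V) (hx1 : ∀ s ∈ S, ¬ c (x s) s)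
    (hx2 : ∀ s ∈ S, ∀ s' ∈ S, s' ≠ s → c (x s) s') (hout : ∀ s ∈ S, x s ∉ S) : False := by
  have inj : ∀ s ∈ S, ∀ s' ∈ S, x s = x s' → s = s' := by
    intro s h s' h' e
    by_contra hne
    exact hx1 s h (e ▸ hx2 s' h' s h hne)
  have nb : ∀ s ∈ S, ∀ w, c s w → w = s ∨ ∃ p ∈ S, p ≠ s ∧ w = x p := by
    intro s h w hw
    by_contra hcon
    push Not at hcon
    have := hdeg s h (insert w (insert s ((S.erase s).image x))) (by
      intro u hu
      simp only [mem_insert, mem_image, mem_erase] at hu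
      rcases hu with rfl | rfl | ⟨p, ⟨hp1, hp2⟩, rfl⟩
      · exact hw
      · exact hr _
      · exact hs _ _ (hx2 p hp2 s h hp1.symm))
    rw [card_insert_of_notMem, card_insert_of_notMem, card_image_of_injOn, card_erase_of_mem h,
      hS] at this
    · omega
    · intro a ha b hb e
      exact inj a (mem_of_mem_erase ha) b (mem_of_mem_erase hb) e
    · simp only [mem_image, mem_erase, not_exists, not_and]
      intro p hp e
      exact hout p hp.2 (e ▸ h)
    · simp only [mem_insert, mem_image, mem_erase, not_or, not_exists, not_and]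
      exact ⟨hcon.1, fun p hp e => hcon.2 p hp.2 hp.1 e.symm⟩
  have ind : ∀ s ∈ S, ∀ s' ∈ S, s ≠ s' → ¬ c s s' := by
    intro s h s' h' hne e
    rcases nb s h s' e with e | ⟨p, hp, -, e⟩
    · exact hne e.symm
    · exact hout p hp (e ▸ h')
  have good : ∀ a ∈ S, ∀ b ∈ S, a ≠ b → ∀ y, (∀ w, w ≠ b → c a w ∨ c y w) → y = x b := by
    intro a ha b hb hab y hy
    have hyb := notc c hr H2 (ind a ha b hb hab) hy
    have hc : 1 < ((S.erase a).erase b).card := by
      rw [card_erase_of_mem (mem_erase.2 ⟨hab.symm, hb⟩), card_erase_of_mem ha, hS]; omega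
    obtain ⟨p, hp, q, hq, hpq⟩ := one_lt_card.1 hc
    simp only [mem_erase] at hp hq
    have h1 := (hy p hp.1).resolve_left (ind a ha p hp.2.2 hp.2.1.symm)
    have h2 := (hy q hq.1).resolve_left (ind a ha q hq.2.2 hq.2.1.symm)
    rcases nb p hp.2.2 y (hs _ _ h1) with e | ⟨z, hz, -, e⟩
    · exact absurd (e ▸ h2) (ind p hp.2.2 q hq.2.2 hpq)
    · by_cases e' : z = b
      · rw [e, e']
      · exact absurd (e ▸ hx2 z hz b hb (Ne.symm e')) hyb
  have pair : ∀ a ∈ S, ∀ b ∈ S, a ≠ b → (∀ w, w ≠ b → c a w ∨ c (x b) w) ∨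
      (∀ w, w ≠ a → c b w ∨ c (x a) w) := by
    intro a ha b hb hab
    obtain ⟨y, hy | hy⟩ := HC a b (ind a ha b hb hab)
    · exact Or.inl (good a ha b hb hab y hy ▸ hy)
    · exact Or.inr (good b hb a ha hab.symm y hy ▸ hy)
  have clq : ∀ a ∈ S, ∀ b ∈ S, c (x a) (x b) := by
    intro a ha b hb
    by_cases hab : a = b
    · rw [hab]; exact hr _
    rcases pair a ha b hb hab with h | h
    · exact hs _ _ ((h (x a) (fun e => hout a ha (e ▸ hb))).resolve_left
        (fun e => hx1 a ha (hs _ _ e)))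
    · exact (h (x b) (fun e => hout b hb (e ▸ ha))).resolve_left (fun e => hx1 b hb (hs _ _ e))
  have fin : ∀ a ∈ S, ∀ b ∈ S, a ≠ b → ¬ (∀ w, w ≠ b → c a w ∨ c (x b) w) := by
    intro a ha b hb hab h
    obtain ⟨w, h1, h2⟩ := H2 b (x b)
    have hw : w ≠ b := fun e => h1 (e ▸ hr _)
    rcases nb a ha w ((h w hw).resolve_right h2) with e | ⟨p, hp, -, e⟩
    · exact h2 (e ▸ hx2 b hb a ha hab)
    · exact h2 (e ▸ clq b hb p hp)
  obtain ⟨a, ha, b, hb, hab⟩ := one_lt_card.1 (show 1 < S.card by omega)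
  rcases pair a ha b hb hab with h | h
  · exact fin a ha b hb hab h
  · exact fin b hb a ha hab.symm h

include hr hs hS hdeg in
lemma caseIb (hr4 : 4 ≤ r) (he : Even r) (x : V → V) (hx1 : ∀ s ∈ S, ¬ c (x s) s)
    (hx2 : ∀ s ∈ S, ∀ s' ∈ S, s' ≠ s → c (x s) s') (h1 : ∀ s ∈ S, ∃ s' ∈ S, ¬ c s s')
    (hin : ∃ s ∈ S, x s ∈ S) : False := by
  have inj : ∀ s ∈ S, ∀ s' ∈ S, x s = x s' → s = s' := by
    intro s h s' h' e
    by_contra hne
    exact hx1 s h (e ▸ hx2 s' h' s h hne)
  let A := S.filter (fun q => x q ∉ S)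
  let B := S.filter (fun q => x q ∈ S)
  have hAB : B.card + A.card = r + 1 := by
    rw [← hS]; exact card_filter_add_card_filter_not _
  have key : ∀ p ∈ B, (A.erase (x p)).card ≤ 1 := by
    intro p hp
    obtain ⟨hp1, hp2⟩ := mem_filter.1 hp
    have := hdeg (x p) hp2 ((S.erase p) ∪ (A.erase (x p)).image x) (by
      intro u hu
      simp only [mem_union, mem_image, mem_erase] at hu
      rcases hu with ⟨h3, h4⟩ | ⟨q, ⟨h3, h4⟩, rfl⟩
      · exact hx2 p hp1 u h4 h3
      · exact hs _ _ (hx2 q (mem_filter.1 h4).1 _ hp2 h3.symm))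
    rw [card_union_of_disjoint, card_image_of_injOn, card_erase_of_mem hp1, hS] at this
    · omega
    · intro a ha b hb e
      exact inj a (mem_filter.1 (mem_of_mem_erase ha)).1 b (mem_filter.1 (mem_of_mem_erase hb)).1 e
    · rw [disjoint_right]
      intro u hu hu'
      obtain ⟨q, hq, rfl⟩ := mem_image.1 hu
      exact (mem_filter.1 (mem_of_mem_erase hq)).2 (mem_of_mem_erase hu')
  have hA : A.card ≤ 1 := by
    by_contra hA
    obtain ⟨p, hp1, hp2⟩ := hin
    have k1 := key p (mem_filter.2 ⟨hp1, hp2⟩)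
    have k2 := pred_card_le_card_erase (s := A) (a := x p)
    have : B.card ≤ A.card := by
      refine card_le_card_of_injOn x (fun q hq => ?_) ?_
      · by_contra hq'
        have k3 := key q hq
        rw [erase_eq_of_notMem hq'] at k3
        exact hA k3
      · intro a ha b hb e
        exact inj a (mem_filter.1 ha).1 b (mem_filter.1 hb).1 e
    omega
  have hBi : (B.image x).card = B.card := card_image_of_injOn (fun a ha b hb e =>
    inj a (mem_filter.1 ha).1 b (mem_filter.1 hb).1 e)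
  have hsub : B.image x ⊆ S := by
    intro u hu
    obtain ⟨q, hq, rfl⟩ := mem_image.1 hu
    exact (mem_filter.1 hq).2
  have hd : (S \ B.image x).card ≤ 1 := by
    rw [card_sdiff_of_subset hsub]; omega
  have : Even S.card := by
    refine even_of_unique c hr hs S (fun s h => ?_)
    obtain ⟨t, ht, hst⟩ := h1 s h
    refine ⟨t, ht, hst, fun u hu hsu => ?_⟩
    by_cases hm : s ∈ B.image x
    · obtain ⟨q, hq, rfl⟩ := mem_image.1 hm
      have hq1 := (mem_filter.1 hq).1
      have e1 : u = q := by by_contra e; exact hsu (hx2 q hq1 u hu e)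
      have e2 : t = q := by by_contra e; exact hst (hx2 q hq1 t ht e)
      rw [e1, e2]
    · have aux : ∀ u ∈ S, ¬ c s u → u = x s := by
        intro u hu hsu
        have : u ∈ B.image x := by
          by_contra hu'
          have := card_le_one.1 hd u (mem_sdiff.2 ⟨hu, hu'⟩) s (mem_sdiff.2 ⟨h, hm⟩)
          exact hsu (this ▸ hr _)
        obtain ⟨q, hq, rfl⟩ := mem_image.1 this
        have : s = q := by
          by_contra e
          exact hsu (hs _ _ (hx2 q (mem_filter.1 hq).1 s h e))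
        rw [this]
      rw [aux u hu hsu, aux t ht hst]
  rw [hS] at this
  exact (Nat.even_add_one.1 this) he

include hr hs H2 HC hS hdeg in
theorem core (hr4 : 4 ≤ r) (he : Even r)
    (conn : ∀ P : Set V, P.Nonempty → (∀ a ∈ P, ∀ b, c a b → b ∈ P) → ∀ b, b ∈ P)
    (hn : 2 * (r + 1) ^ 2 < Fintype.card V) : False := by
  obtain ⟨t, ht, hx⟩ := far c hr hs H2 HC r S hS hdeg hn
  choose! x hx1 hx2 using hx
  have hx3 : ∀ s ∈ S, (∃ s' ∈ S, ¬ c s s') → ∀ s' ∈ S, s' ≠ s → c (x s) s' :=
    fun s h h' s' hs' hne => (hx2 s h h' s' hne).resolve_left (fun e => ht s' hs' (hs _ _ e))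
  by_cases h1 : ∀ s ∈ S, ∃ s' ∈ S, ¬ c s s'
  · by_cases hin : ∃ s ∈ S, x s ∈ S
    · exact caseIb c hr hs r S hS hdeg hr4 he x (fun s h => hx1 s h (h1 s h))
        (fun s h => hx3 s h (h1 s h)) h1 hin
    · push Not at hin
      exact caseIa c hr hs H2 HC r S hS hdeg hr4 x (fun s h => hx1 s h (h1 s h))
        (fun s h => hx3 s h (h1 s h)) hin
  push Not at h1
  obtain ⟨s1, hs1, hall⟩ := h1
  have full : ∀ s ∈ S, (∀ s' ∈ S, c s s') → ∀ w, c s w → w ∈ S := by
    intro s h h' w hw
    by_contra hcon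
    have := hdeg s h (insert w S) (by
      intro u hu
      rcases mem_insert.1 hu with rfl | hu
      · exact hw
      · exact h' u hu)
    rw [card_insert_of_notMem hcon] at this
    omega
  have htS : t ∉ S := fun e => ht t e (hr _)
  have xin : ∀ s ∈ S, (∃ s' ∈ S, ¬ c s s') → x s ∈ S := by
    intro s h h'
    have : s1 ≠ s := by
      rintro rfl
      obtain ⟨s', h2, h3⟩ := h'
      exact h3 (hall s' h2)
    exact full s1 hs1 hall _ (hs _ _ (hx3 s h h' s1 hs1 this))
  have xin2 : ∀ s ∈ S, (∃ s' ∈ S, ¬ c s s') → ∃ s' ∈ S, ¬ c (x s) s' :=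
    fun s h h' => ⟨s, h, hx1 s h h'⟩
  have invol : ∀ s ∈ S, (∃ s' ∈ S, ¬ c s s') → x (x s) = s := by
    intro s h h'
    by_contra e
    exact hx1 _ (xin s h h') (xin2 s h h')
      (hs _ _ (hx3 s h h' _ (xin _ (xin s h h') (xin2 s h h')) e))
  -- at most one outer neighbour
  have one : ∀ s ∈ S, (∃ s' ∈ S, ¬ c s s') → ∀ y z, y ∉ S → z ∉ S → c (x s) y → c (x s) z →
      y = z := by
    intro s h h' y z hy hz h2 h3
    by_contra hne
    have := hdeg _ (xin s h h') (insert y (insert z (S.erase s))) (by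
      intro u hu
      simp only [mem_insert, mem_erase] at hu
      rcases hu with rfl | rfl | hu
      · exact h2
      · exact h3
      · exact hx3 s h h' u hu.2 hu.1)
    rw [card_insert_of_notMem, card_insert_of_notMem, card_erase_of_mem h] at this
    · omega
    · exact fun e => hz (mem_of_mem_erase e)
    · simp only [mem_insert, mem_erase, not_or]
      exact ⟨hne, fun e => hy e.2⟩
  obtain ⟨y, hy1, hy2⟩ := H2 s1 t
  have hyS : y ∉ S := fun e => hy1 (hall y e)
  have hxy : ∀ s ∈ S, (∃ s' ∈ S, ¬ c s s') → c (x s) y :=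
    fun s h h' => (hx2 s h h' y (fun e => hyS (e ▸ h))).resolve_left hy2
  have clo : ∀ s ∈ S, ∀ w, c s w → w ∈ S ∨ w = y := by
    intro s h w hw
    by_cases h' : ∃ s' ∈ S, ¬ c s s'
    · by_cases hwS : w ∈ S
      · exact Or.inl hwS
      · right
        have e := invol s h h'
        refine one _ (xin s h h') (xin2 s h h') w y hwS hyS (by rw [e]; exact hw) ?_
        exact hxy _ (xin s h h') (xin2 s h h')
    · push Not at h'
      exact Or.inl (full s h h' w hw)
  have big : ∀ u : V, ∃ w, w ∉ S ∧ w ≠ y ∧ w ≠ u := by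
    intro u
    have : (insert y (insert u S)).card < (univ : Finset V).card := by
      have h2 := card_insert_le y (insert u S)
      have h3 := card_insert_le u S
      rw [card_univ]
      nlinarith
    obtain ⟨w, -, hw⟩ := exists_mem_notMem_of_card_lt_card this
    simp only [mem_insert, not_or] at hw
    exact ⟨w, hw.2.2, hw.1, hw.2.1⟩
  by_cases h2 : ∃ s ∈ S, ∃ s' ∈ S, ¬ c s s'
  · obtain ⟨s, h, h'⟩ := h2
    have := conn {w | w ∈ S ∨ w = y} ⟨y, Or.inr rfl⟩ (by
      rintro a (ha | rfl) b hab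
      · exact clo a ha b hab
      · by_contra hb
        simp only [Set.mem_ofPred_eq, not_or] at hb
        have hsb : ¬ c s b := fun e => by
          rcases clo s h b e with e | e
          · exact hb.1 e
          · exact hb.2 e
        have hsx : ¬ c s (x s) := fun e => hx1 s h h' (hs _ _ e)
        obtain ⟨z, hz | hz⟩ := HC s b hsb
        · have h3 := notc c hr H2 hsb hz
          have h4 := (hz (x s) (fun e => hb.1 (e ▸ xin s h h'))).resolve_left hsx
          rcases clo _ (xin s h h') z (hs _ _ h4) with h5 | h5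
          · obtain ⟨w, w1, w2, w3⟩ := big b
            rcases hz w w3 with h6 | h6
            · rcases clo s h w h6 with e | e <;> contradiction
            · rcases clo z h5 w h6 with e | e <;> contradiction
          · exact h3 (h5 ▸ hab)
        · have hne : s1 ≠ s := by
            rintro rfl
            exact hsx (hall _ (xin _ h h'))
          have h4 : c z s1 := (hz s1 hne).resolve_left
            (fun e => hb.1 (full s1 hs1 hall b (hs _ _ e)))
          have h5 : z ∈ S := full s1 hs1 hall z (hs _ _ h4)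
          obtain ⟨w, w1, w2⟩ := H2 s1 b
          have w3 : w ∉ S := fun e => w1 (hall w e)
          have := (hz w (fun e => w3 (e ▸ h))).resolve_left w2
          rcases clo z h5 w this with e | e
          · exact w3 e
          · exact w2 (e ▸ hs _ _ hab)) t
    rcases this with e | e
    · exact htS e
    · exact hy2 (e ▸ hr _)
  · push Not at h2
    exact htS (conn (S : Set V) ⟨s1, hs1⟩ (fun a ha b hab => full a ha (h2 a ha) b hab) t)

end

end Pool.Agent.H25.Crit3
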