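import Pool.Agent.H25.HadDefs

set_option autoImplicit false

namespace Pool.Agent.H25.Had

open Finset

/-- A sign. -/
def Sg (x : ℤ) : Prop := x = 1 ∨ x = -1

lemma Sg.sq {x : ℤ} (h : Sg x) : x * x = 1 := by rcases h with rfl | rfl <;> rfl
lemma Sg.mul {x y : ℤ} (h : Sg x) (h' : Sg y) : Sg (x * y) := by
  rcases h with rfl | rfl <;> rcases h' with rfl | rfl <;> simp [Sg]
lemma Sg.neg {x : ℤ} (h : Sg x) : Sg (-x) := by rcases h with rfl | rfl <;> simp [Sg]
lemma sg_one : Sg 1 := Or.inl rfl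

variable {ι : Type}

lemma eqv_equiv : Equivalence (Eqv (ι := ι)) := by
  refine ⟨fun A => ⟨1, 1, fun _ => 1, fun _ => 1, fun _ => sg_one, fun _ => sg_one, by simp⟩, ?_, ?_⟩
  · rintro A B ⟨p, q, s, t, hs, ht, h⟩
    refine ⟨p.symm, q.symm, fun i => s (p.symm i), fun j => t (q.symm j), fun _ => hs _,
      fun _ => ht _, fun i j => ?_⟩
    rw [h]
    simp only [Equiv.apply_symm_apply]
    have h1 := Sg.sq (hs (p.symm i))
    have h2 := Sg.sq (ht (q.symm j))
    linear_combination (-(A i j) * (t (q.symm j) * t (q.symm j))) * h1 - A i j * h2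
  · rintro A B C ⟨p, q, s, t, hs, ht, h⟩ ⟨p', q', s', t', hs', ht', h'⟩
    refine ⟨p'.trans p, q'.trans q, fun i => s' i * s (p' i), fun j => t (q' j) * t' j,
      fun _ => Sg.mul (hs' _) (hs _), fun _ => Sg.mul (ht _) (ht' _), fun i j => ?_⟩
    rw [h', h]
    simp only [Equiv.trans_apply]
    ring

variable [Fintype ι] [DecidableEq ι]

lemma isHad_iff (H : Matrix ι ι ℤ) : IsHad H ↔ (∀ i j, Sg (H i j)) ∧
    ∀ i j, i ≠ j → ∑ c, H i c * H j c = 0 := by
  constructor
  · rintro ⟨h1, h2⟩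
    refine ⟨h1, fun i j hij => ?_⟩
    have := congrFun (congrFun h2 i) j
    simpa [Matrix.mul_apply, Matrix.one_apply_ne hij] using this
  · rintro ⟨h1, h2⟩
    refine ⟨h1, ?_⟩
    ext i j
    by_cases hij : i = j
    · subst hij
      simp [Matrix.mul_apply, (h1 i _).sq]
    · simp [Matrix.mul_apply, Matrix.one_apply_ne hij, h2 i j hij]

lemma row_eq {A : Matrix ι ι ℤ} (hA : IsHad A) {i j : ι} {e : ℤ} (he : Sg e)
    (h : ∀ c, A i c = e * A j c) : i = j := by
  obtain ⟨h1, h2⟩ := (isHad_iff A).1 hA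
  by_contra hij
  have h3 := h2 i j hij
  have h4 : ∑ c, A i c * A j c = ∑ _c : ι, e := by
    refine sum_congr rfl (fun c _ => ?_)
    rw [h c, mul_assoc, (h1 j c).sq, mul_one]
  rw [h4, sum_const, card_univ, nsmul_eq_mul] at h3
  have : 0 < Fintype.card ι := Fintype.card_pos_iff.2 ⟨i⟩
  rcases he with rfl | rfl <;> omega

/-- The underlying index. -/
def idx : ι ⊕ ι → ι := Sum.elim id id
/-- The sign vector of the two halves. -/
def w0 : ι ⊕ ι → ℤ := Sum.elim (fun _ => 1) (fun _ => -1)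

/-- The twisted doubling construction. -/
def K (σ : Equiv.Perm ι) (A : Matrix ι ι ℤ) : Matrix (ι ⊕ ι) (ι ⊕ ι) ℤ :=
  fun x => Sum.elim (fun c => A (idx x) c) (fun c => w0 x * A (σ (idx x)) c)

omit [Fintype ι] [DecidableEq ι] in
lemma sg_w0 (x : ι ⊕ ι) : Sg (w0 x) := by rcases x with x | x <;> simp [w0, Sg]

lemma K_had (σ : Equiv.Perm ι) {A : Matrix ι ι ℤ} (hA : IsHad A) : IsHad (K σ A) := by
  obtain ⟨h1, h2⟩ := (isHad_iff A).1 hA
  refine (isHad_iff _).2 ⟨?_, ?_⟩
  · rintro x (c | c)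
    · exact h1 _ _
    · exact (sg_w0 x).mul (h1 _ _)
  · intro x y hxy
    rw [Fintype.sum_sum_type]
    simp only [K, Sum.elim_inl, Sum.elim_inr]
    have e : ∑ c, w0 x * A (σ (idx x)) c * (w0 y * A (σ (idx y)) c) =
        w0 x * w0 y * ∑ c, A (σ (idx x)) c * A (σ (idx y)) c := by
      rw [mul_sum]; exact sum_congr rfl (fun c _ => by ring)
    rw [e]
    by_cases hi : idx x = idx y
    · have e2 : w0 x * w0 y = -1 := by
        rcases x with x | x <;> rcases y with y | y <;> simp_all [w0, idx]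
      rw [e2, hi]
      simp [(h1 _ _).sq]
    · rw [h2 _ _ hi, h2 _ _ (σ.injective.ne hi)]
      simp

lemma W_const {A : Matrix ι ι ℤ} (hA : IsHad A) (σ : Equiv.Perm ι) {a b c : ι}
    (hab : a ≠ b) (hac : a ≠ c) (h1 : σ a = b) (h2 : σ b = c) (h3 : σ c = a)
    (h4 : ∀ x, x ≠ a → x ≠ b → x ≠ c → σ x = x) (hcard : 7 ≤ Fintype.card ι)
    (u v : ι → ℤ) (hu : ∀ z, Sg (u z)) (π : ι → ι)
    (hπ : ∀ i, ∃ e, Sg e ∧ ∀ z, A i z * u z = e * A (π i) z)
    (hπ' : ∀ i, ∃ e, Sg e ∧ ∀ z, A (σ i) z * v z = e * A (σ (π i)) z) :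
    (∃ e, ∀ z, u z = e) ∧ (∃ e, ∀ z, v z = e) := by
  have hs := ((isHad_iff A).1 hA).1
  by_cases hfix : ∃ i, π i = i
  · obtain ⟨i, hi⟩ := hfix
    obtain ⟨e, -, he⟩ := hπ i
    obtain ⟨e', -, he'⟩ := hπ' i
    rw [hi] at he he'
    refine ⟨⟨e, fun z => ?_⟩, ⟨e', fun z => ?_⟩⟩
    · linear_combination A i z * he z + (e - u z) * (hs i z).sq
    · linear_combination A (σ i) z * he' z + (e' - v z) * (hs (σ i) z).sq
  exfalso
  push Not at hfix
  have hinv : ∀ i, π (π i) = i := by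
    intro i
    obtain ⟨e, hes, he⟩ := hπ i
    obtain ⟨e', hes', he'⟩ := hπ (π i)
    refine (row_eq hA (hes.mul hes') (fun z => ?_)).symm
    linear_combination u z * he z + e * he' z - A i z * (hu z).sq
  have hinj : Function.Injective π := Function.Involutive.injective hinv
  obtain ⟨i, hi⟩ : ∃ i, i ∉ ({a, b, c, π a, π b, π c} : Finset ι) := by
    by_contra hcon
    push Not at hcon
    have := card_le_card (show (univ : Finset ι) ⊆ {a, b, c, π a, π b, π c} from fun i _ => hcon i)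
    have h6 : ({a, b, c, π a, π b, π c} : Finset ι).card ≤ 6 := card_le_six
    rw [card_univ] at this
    omega
  simp only [mem_insert, mem_singleton, not_or] at hi
  obtain ⟨i1, i2, i3, i4, i5, i6⟩ := hi
  have s1 : σ i = i := h4 i i1 i2 i3
  have s2 : σ (π i) = π i := h4 _ (fun h => i4 (by rw [← h, hinv])) (fun h => i5 (by rw [← h, hinv]))
    (fun h => i6 (by rw [← h, hinv]))
  obtain ⟨e, hes, he⟩ := hπ i
  obtain ⟨e', hes', he'⟩ := hπ' i
  rw [s1, s2] at he'
  have huv : ∀ z, v z = e * e' * u z := by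
    intro z
    linear_combination A i z * he' z - e * e' * A i z * he z + (e * e' * u z - v z) * (hs i z).sq
      - e' * A i z * A (π i) z * hes.sq
  have hcomm : ∀ j, π (σ j) = σ (π j) := by
    intro j
    obtain ⟨f, hfs, hf⟩ := hπ (σ j)
    obtain ⟨f', hfs', hf'⟩ := hπ' j
    refine row_eq hA (((hes.mul hes').mul hfs).mul hfs') (fun z => ?_)
    have t1 := hf z
    have t2 := hf' z
    rw [huv z] at t2
    have q1 := (hes.mul hes').sq
    linear_combination (-f) * t1 + e * e' * f * t2 - A (π (σ j)) z * hfs.sq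
      - f * A (σ j) z * u z * q1
  have hb : π b = σ (π a) := by rw [← hcomm, h1]
  have hc : π c = σ (π b) := by rw [← hcomm, h2]
  by_cases p1 : π a = b
  · rw [p1, h2] at hb
    exact hac (by rw [← hinv a, p1, hb])
  by_cases p2 : π a = c
  · rw [p2, h3] at hb
    rw [hb, h1] at hc
    exact hab (by rw [← hinv a, p2, hc])
  · rw [h4 _ (hfix a) p1 p2] at hb
    exact hab (hinj hb).symm

lemma eqv_of {A B : Matrix ι ι ℤ} (hB : IsHad B) (p q : ι → ι) (hq : Function.Injective q)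
    (s t : ι → ℤ) (hs : ∀ i, Sg (s i)) (ht : ∀ j, Sg (t j))
    (h : ∀ i j, B i j = s i * A (p i) (q j) * t j) : Eqv A B := by
  have hp : Function.Injective p := by
    intro i j hij
    refine row_eq hB ((hs i).mul (hs j)) (fun c => ?_)
    rw [h, h, hij]
    linear_combination (-(s i * A (p j) (q c) * t c)) * (hs j).sq
  exact ⟨Equiv.ofBijective p (Finite.injective_iff_bijective.1 hp),
    Equiv.ofBijective q (Finite.injective_iff_bijective.1 hq), s, t, hs, ht, h⟩

theorem K_inj {A B : Matrix ι ι ℤ} (hA : IsHad A) (hB : IsHad B) (σ : Equiv.Perm ι) {a b c : ι}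
    (hab : a ≠ b) (hac : a ≠ c) (h1 : σ a = b) (h2 : σ b = c) (h3 : σ c = a)
    (h4 : ∀ x, x ≠ a → x ≠ b → x ≠ c → σ x = x) (hcard : 7 ≤ Fintype.card ι)
    (h : Eqv (K σ A) (K σ B)) : Eqv A B := by
  obtain ⟨p, q, s, t, hs, ht, h⟩ := h
  have hsw : ∀ x z, K σ B x.swap z = K σ B x z * w0 z := by
    rintro (x | x) (z | z) <;> simp [K, idx, w0]
  set w : ι ⊕ ι → ℤ := fun z => w0 (q.symm z) with hw
  have key : ∀ x z, K σ A x z * w z =
      s (p.symm x) * s (p.symm x).swap * K σ A (p (p.symm x).swap) z := by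
    intro x z
    have t1 := h (p.symm x) (q.symm z)
    have t2 := h (p.symm x).swap (q.symm z)
    rw [hsw, t1] at t2
    simp only [Equiv.apply_symm_apply] at t2
    have q1 := Sg.sq (hs (p.symm x))
    have q2 := Sg.sq (ht (q.symm z))
    simp only [hw]
    linear_combination s (p.symm x) * t (q.symm z) * t2
      - K σ A x z * w0 (q.symm z) * (t (q.symm z) * t (q.symm z)) * q1
      - (K σ A x z * w0 (q.symm z) -
        s (p.symm x) * s (p.symm x).swap * K σ A (p (p.symm x).swap) z) * q2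
  obtain ⟨⟨α, hα⟩, ⟨β, hβ⟩⟩ := W_const hA σ hab hac h1 h2 h3 h4 hcard (fun z => w (Sum.inl z))
    (fun z => w (Sum.inr z)) (fun z => sg_w0 _) (fun i => idx (p (p.symm (Sum.inl i)).swap))
    (fun i => ⟨_, Sg.mul (hs _) (hs _), fun z => key (Sum.inl i) (Sum.inl z)⟩)
    (fun i => ⟨_, Sg.mul (Sg.mul (hs (p.symm (Sum.inl i))) (hs (p.symm (Sum.inl i)).swap))
      (sg_w0 (p (p.symm (Sum.inl i)).swap)), fun z => by
        have := key (Sum.inl i) (Sum.inr z)
        simp only [K, Sum.elim_inr] at this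
        have e1 : w0 (Sum.inl i : ι ⊕ ι) = 1 := rfl
        have e2 : idx (Sum.inl i : ι ⊕ ι) = i := rfl
        rw [e1, e2] at this
        linear_combination this⟩)
  have wl : ∀ j, w (q (Sum.inl j)) = 1 := fun j => by simp [hw, w0]
  have wr : w (q (Sum.inr a)) = -1 := by simp [hw, w0]
  have hB' : ∀ i j, B i j = s (Sum.inl i) * K σ A (p (Sum.inl i)) (q (Sum.inl j)) * t (Sum.inl j) :=
    fun i j => h (Sum.inl i) (Sum.inl j)
  rcases hz : q (Sum.inr a) with z | z
  · have hα' : α = -1 := by rw [← hα z, ← wr, hz]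
    have hq : ∀ j, q (Sum.inl j) = Sum.inr (idx (q (Sum.inl j))) := by
      intro j
      rcases hy : q (Sum.inl j) with y | y
      · have := wl j
        rw [hy, hα y, hα'] at this
        omega
      · rfl
    refine eqv_of hB (fun i => σ (idx (p (Sum.inl i)))) (fun j => idx (q (Sum.inl j))) ?_
      (fun i => s (Sum.inl i) * w0 (p (Sum.inl i))) (fun j => t (Sum.inl j))
      (fun i => Sg.mul (hs _) (sg_w0 _)) (fun j => ht _) (fun i j => ?_)
    · intro j j' hj
      have : q (Sum.inl j) = q (Sum.inl j') := by rw [hq j, hq j']; exact congrArg _ hj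
      exact Sum.inl_injective (q.injective this)
    · rw [hB', hq j]
      simp only [K, Sum.elim_inr, idx, id]
      ring
  · have hβ' : β = -1 := by rw [← hβ z, ← wr, hz]
    have hq : ∀ j, q (Sum.inl j) = Sum.inl (idx (q (Sum.inl j))) := by
      intro j
      rcases hy : q (Sum.inl j) with y | y
      · rfl
      · have := wl j
        rw [hy, hβ y, hβ'] at this
        omega
    refine eqv_of hB (fun i => idx (p (Sum.inl i))) (fun j => idx (q (Sum.inl j))) ?_
      (fun i => s (Sum.inl i)) (fun j => t (Sum.inl j))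
      (fun i => hs _) (fun j => ht _) (fun i j => ?_)
    · intro j j' hj
      have : q (Sum.inl j) = q (Sum.inl j') := by rw [hq j, hq j']; exact congrArg _ hj
      exact Sum.inl_injective (q.injective this)
    · rw [hB', hq j]
      simp only [K, Sum.elim_inl, idx, id]

lemma four_dvd {A : Matrix ι ι ℤ} (hA : IsHad A) {a b c : ι} (hab : a ≠ b) (hac : a ≠ c)
    (hbc : b ≠ c) : 4 ∣ Fintype.card ι := by
  obtain ⟨h1, h2⟩ := (isHad_iff A).1 hA
  have e : ∑ z, (A a z + A b z) * (A a z + A c z) = Fintype.card ι := by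
    have : ∀ z, (A a z + A b z) * (A a z + A c z) =
        1 + A a z * A c z + A a z * A b z + A b z * A c z := by
      intro z; linear_combination (h1 a z).sq
    simp only [this, sum_add_distrib, h2 _ _ hab, h2 _ _ hac, h2 _ _ hbc]
    simp
  have d : (4 : ℤ) ∣ ∑ z, (A a z + A b z) * (A a z + A c z) := by
    refine dvd_sum (fun z _ => ?_)
    rcases h1 a z with p | p <;> rcases h1 b z with q | q <;> rcases h1 c z with r | r <;>
      rw [p, q, r] <;> decide
  rw [e] at d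
  exact_mod_cast d

/-- Normalisation: first row and first column all ones. -/
lemma normal {n : ℕ} {A : Matrix (Fin (n + 1)) (Fin (n + 1)) ℤ} (hA : IsHad A) :
    ∃ N, IsHad N ∧ Eqv A N ∧ (∀ i, N i 0 = 1) ∧ ∀ j, N 0 j = 1 := by
  obtain ⟨h1, h2⟩ := (isHad_iff A).1 hA
  refine ⟨fun i j => (A i 0 * A 0 0) * A i j * A 0 j, (isHad_iff _).2 ⟨fun i j =>
    (((h1 _ _).mul (h1 _ _)).mul (h1 _ _)).mul (h1 _ _), fun i j hij => ?_⟩,
    ⟨1, 1, fun i => A i 0 * A 0 0, fun j => A 0 j, fun _ => (h1 _ _).mul (h1 _ _), fun _ => h1 _ _,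
      fun _ _ => rfl⟩, fun i => ?_, fun j => ?_⟩
  · have : ∀ c, A i 0 * A 0 0 * A i c * A 0 c * (A j 0 * A 0 0 * A j c * A 0 c) =
        (A i 0 * A 0 0 * (A j 0 * A 0 0)) * (A i c * A j c) := by
      intro c
      linear_combination (A i 0 * A 0 0 * (A j 0 * A 0 0)) * (A i c * A j c) * (h1 0 c).sq
    simp only [this, ← mul_sum, h2 i j hij, mul_zero]
  · linear_combination (A 0 0 * A 0 0) * (h1 i 0).sq + (h1 0 0).sq
  · linear_combination (A 0 j * A 0 j) * (h1 0 0).sq + (h1 0 j).sq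

lemma uniq1 {A : Matrix (Fin 1) (Fin 1) ℤ} (hA : IsHad A) : Eqv A !![1] := by
  obtain ⟨N, -, he, h1, -⟩ := normal hA
  have : N = !![1] := by
    ext i j; fin_cases i; fin_cases j; exact h1 0
  exact this ▸ he

lemma uniq2 {A : Matrix (Fin 2) (Fin 2) ℤ} (hA : IsHad A) : Eqv A !![1, 1; 1, -1] := by
  obtain ⟨N, hN, he, h1, h2⟩ := normal hA
  have h3 := ((isHad_iff N).1 hN).2 0 1 (by decide)
  rw [Fin.sum_univ_two, h2, h2, h1] at h3
  have : N = !![1, 1; 1, -1] := by
    ext i j; fin_cases i <;> fin_cases j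
    · exact h1 0
    · exact h2 1
    · exact h1 1
    · change N 1 1 = -1
      omega
  exact this ▸ he

lemma uniq4 {A : Matrix (Fin 4) (Fin 4) ℤ} (hA : IsHad A) :
    Eqv A !![1, 1, 1, 1; 1, 1, -1, -1; 1, -1, 1, -1; 1, -1, -1, 1] := by
  obtain ⟨N, hN, he, h1, h2⟩ := normal hA
  refine eqv_equiv.trans he (eqv_equiv.symm ?_)
  obtain ⟨s1, s2⟩ := (isHad_iff N).1 hN
  have row : ∀ i, ∃ k : Fin 4, ∀ j, N i j =
      (!![1, 1, 1, 1; 1, 1, -1, -1; 1, -1, 1, -1; 1, -1, -1, 1] : Matrix (Fin 4) (Fin 4) ℤ) k j := by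
    intro i
    by_cases hi : i = 0
    · refine ⟨0, fun j => ?_⟩
      rw [hi, h2]; fin_cases j <;> rfl
    · have h3 := s2 0 i (Ne.symm hi)
      rw [Fin.sum_univ_four, h2, h2, h2, h2, h1] at h3
      have h0 := h1 i
      rcases s1 i 1 with p | p <;> rcases s1 i 2 with q | q <;> rcases s1 i 3 with r | r <;>
        first
          | (exfalso; omega)
          | (refine ⟨1, fun j => ?_⟩; fin_cases j <;> assumption)
          | (refine ⟨2, fun j => ?_⟩; fin_cases j <;> assumption)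
          | (refine ⟨3, fun j => ?_⟩; fin_cases j <;> assumption)
  choose k hk using row
  exact eqv_of hN k id Function.injective_id (fun _ => 1) (fun _ => 1) (fun _ => sg_one)
    (fun _ => sg_one) (fun i j => by simp [hk])

instance : Finite {H : Matrix ι ι ℤ // IsHad H} := by
  refine Finite.of_injective (fun H => fun i j => decide (H.1 i j = 1)) (fun A B h => ?_)
  apply Subtype.ext
  ext i j
  have := congrFun (congrFun h i) j
  rcases A.2.1 i j with p | p <;> rcases B.2.1 i j with q | q <;> simp_all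

lemma had_reindex {κ : Type} [Fintype κ] [DecidableEq κ] (e : κ ≃ ι) {A : Matrix ι ι ℤ}
    (hA : IsHad A) : IsHad (A.submatrix e e) := by
  obtain ⟨h1, h2⟩ := (isHad_iff A).1 hA
  refine (isHad_iff _).2 ⟨fun i j => h1 _ _, fun i j hij => ?_⟩
  rw [← h2 _ _ (e.injective.ne hij)]
  exact e.sum_comp (fun c => A (e i) c * A (e j) c)

omit [Fintype ι] [DecidableEq ι] in
lemma eqv_reindex {κ : Type} (e : κ ≃ ι) {A B : Matrix ι ι ℤ}
    (h : Eqv (A.submatrix e e) (B.submatrix e e)) : Eqv A B := by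
  obtain ⟨p, q, s, t, hs, ht, h⟩ := h
  refine ⟨(e.symm.trans p).trans e, (e.symm.trans q).trans e, fun i => s (e.symm i),
    fun j => t (e.symm j), fun _ => hs _, fun _ => ht _, fun i j => ?_⟩
  simpa using h (e.symm i) (e.symm j)

lemma le_of_inj (n : ℕ) (σ : Equiv.Perm (Fin n)) (hσ : ∀ A B : Matrix (Fin n) (Fin n) ℤ,
    IsHad A → IsHad B → Eqv (K σ A) (K σ B) → Eqv A B) : h n ≤ h (2 * n) := by
  let e : Fin (2 * n) ≃ Fin n ⊕ Fin n := (finCongr (two_mul n)).trans finSumFinEquiv.symm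
  refine Nat.card_le_card_of_injective
    (fun x => Quot.mk _ ⟨(K σ x.out.1).submatrix e e, had_reindex e (K_had σ x.out.2)⟩) ?_
  intro x y hxy
  have h1 := Quot.eq.1 hxy
  rw [Equivalence.eqvGen_iff (eqv_equiv.comap Subtype.val)] at h1
  have h2 := hσ _ _ x.out.2 y.out.2 (eqv_reindex e h1)
  rw [← Quot.out_eq x, ← Quot.out_eq y]
  exact Quot.sound h2

theorem main (n : ℕ) (hn : 1 ≤ n) : h n ≤ h (2 * n) := by
  by_cases h7 : 7 ≤ n
  · obtain ⟨m, rfl⟩ : ∃ m, n = m + 3 := ⟨n - 3, by omega⟩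
    have e01 : (0 : Fin (m + 3)) ≠ 1 := by simp
    have e02 : (0 : Fin (m + 3)) ≠ 2 := by
      simp [Fin.ext_iff, Nat.mod_eq_of_lt (show 2 < m + 3 by omega)]
    have e12 : (1 : Fin (m + 3)) ≠ 2 := by
      simp [Fin.ext_iff, Nat.mod_eq_of_lt (show 2 < m + 3 by omega)]
    refine le_of_inj _ (Equiv.swap 0 1 * Equiv.swap 1 2) (fun A B hA hB => K_inj hA hB _ e01 e02
      ?_ ?_ ?_ ?_ (by simpa using h7))
    · rw [Equiv.Perm.mul_apply, Equiv.swap_apply_of_ne_of_ne e01 e02, Equiv.swap_apply_left]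
    · rw [Equiv.Perm.mul_apply, Equiv.swap_apply_left,
        Equiv.swap_apply_of_ne_of_ne e02.symm e12.symm]
    · rw [Equiv.Perm.mul_apply, Equiv.swap_apply_right, Equiv.swap_apply_right]
    · intro x a b c
      rw [Equiv.Perm.mul_apply, Equiv.swap_apply_of_ne_of_ne b c,
        Equiv.swap_apply_of_ne_of_ne a b]
  · refine le_of_inj n 1 (fun A B hA hB _ => ?_)
    have h6 : n ≤ 6 := by omega
    interval_cases n
    · exact eqv_equiv.trans (uniq1 hA) (eqv_equiv.symm (uniq1 hB))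
    · exact eqv_equiv.trans (uniq2 hA) (eqv_equiv.symm (uniq2 hB))
    · exact absurd (four_dvd hA (a := 0) (b := 1) (c := 2) (by decide) (by decide) (by decide))
        (by decide)
    · exact eqv_equiv.trans (uniq4 hA) (eqv_equiv.symm (uniq4 hB))
    · exact absurd (four_dvd hA (a := 0) (b := 1) (c := 2) (by decide) (by decide) (by decide))
        (by decide)
    · exact absurd (four_dvd hA (a := 0) (b := 1) (c := 2) (by decide) (by decide) (by decide))
        (by decide)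

end Pool.Agent.H25.Had
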