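import Pool.Agent.H25.DiamDefs
import Pool.Agent.H25.Had

set_option autoImplicit false

namespace Pool.Agent.H25.Diam

open Finset Pool.Agent.H25.Had

lemma col_had {n : ℕ} (hn : 0 < n) {H : Matrix (Fin n) (Fin n) ℤ} (h : IsHad H) :
    IsHadamard H := by
  have h2 := h.2
  rw [Fintype.card_fin] at h2
  refine ⟨h.1, h2, ?_⟩
  let Q : Matrix (Fin n) (Fin n) ℚ := H.map (Int.castRingHom ℚ)
  have hn' : (n : ℚ) ≠ 0 := by positivity
  have e1 : Q * ((n : ℚ)⁻¹ • Q.transpose) = 1 := by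
    have : Q * Q.transpose = (n : ℚ) • (1 : Matrix _ _ ℚ) := by
      ext i j
      have := congrArg (Int.cast : ℤ → ℚ) (congrFun (congrFun h2 i) j)
      simpa [Q, Matrix.mul_apply, Matrix.one_apply] using this
    rw [Matrix.mul_smul, this, smul_smul, inv_mul_cancel₀ hn', one_smul]
  have e2 := mul_eq_one_comm.mp e1
  ext i j
  have := congrFun (congrFun e2 i) j
  rw [Matrix.smul_mul, Matrix.smul_apply, smul_eq_mul, inv_mul_eq_iff_eq_mul₀ hn'] at this
  apply Int.cast_injective (α := ℚ)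
  simpa [Q, Matrix.mul_apply, Matrix.one_apply] using this

lemma dist_ip {m : ℕ} {x y : Fin m → ℤ} (hx : ∀ i, Sg (x i)) (hy : ∀ i, Sg (y i)) :
    2 * (hammingDist x y : ℤ) + ∑ i, x i * y i = m := by
  rw [hammingDist, card_filter]
  push_cast
  rw [mul_sum, ← sum_add_distrib, sum_congr rfl (g := fun _ => (1 : ℤ))]
  · simp
  · intro i _
    rcases hx i with p | p <;> rcases hy i with q | q <;> simp [p, q]

theorem not_max {m : ℕ} (hm : 13 ≤ m) {N : Matrix (Fin (4 + m)) (Fin (4 + m)) ℤ}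
    (hN : IsHadamard N) (h0 : ∀ j, N (Fin.castAdd m 0) j = 1) (c : Fin 4 → Fin (4 + m))
    (hc : Function.Injective c) (hp : ∀ i, ∏ k, N (Fin.natAdd 4 i) (c k) = -1) :
    ¬ DiamMax (cols 4 m N) := by
  have sg : ∀ i j, Sg (N i j) := hN.1
  have orth : ∀ j k, ∑ i, N i j * N i k = if j = k then ((4 + m : ℕ) : ℤ) else 0 := by
    intro j k
    have := congrFun (congrFun hN.2.2 j) k
    simpa [Matrix.mul_apply, Matrix.one_apply] using this
  let S : Fin (4 + m) → ℤ := fun i => ∑ k, N i (c k)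
  have hx : ∀ i, ∃ x, Sg x ∧ S (Fin.natAdd 4 i) = 2 * x := by
    intro i
    have := hp i
    simp only [S, Fin.prod_univ_four, Fin.sum_univ_four] at this ⊢
    rcases sg (Fin.natAdd 4 i) (c 0) with p | p <;> rcases sg (Fin.natAdd 4 i) (c 1) with q | q <;>
      rcases sg (Fin.natAdd 4 i) (c 2) with r | r <;>
      rcases sg (Fin.natAdd 4 i) (c 3) with s | s <;> rw [p, q, r, s] at this ⊢ <;>
      first
        | exact absurd this (by decide)
        | exact ⟨1, Or.inl rfl, by decide⟩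
        | exact ⟨-1, Or.inr rfl, by decide⟩
  choose x x1 x2 using hx
  have SN : ∀ j, ∑ i, S i * N i j = ∑ k, if c k = j then ((4 + m : ℕ) : ℤ) else 0 := by
    intro j
    simp only [S, sum_mul]
    rw [sum_comm]
    exact sum_congr rfl fun k _ => orth _ _
  have SS : ∑ i, S i * S i = 4 * ((4 + m : ℕ) : ℤ) := by
    have : ∑ i, S i * S i = ∑ k, ∑ i, S i * N i (c k) := by
      rw [sum_comm]; exact sum_congr rfl fun i _ => by rw [← mul_sum]
    rw [this]
    simp only [SN, hc.eq_iff]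
    simp
  have S0 : S (Fin.castAdd m 0) = 4 := by simp [S, h0]
  have Sz : S (Fin.castAdd m 1) = 0 ∧ S (Fin.castAdd m 2) = 0 ∧ S (Fin.castAdd m 3) = 0 := by
    rw [Fin.sum_univ_add, Fin.sum_univ_four, S0,
      sum_congr rfl (g := fun _ => (4 : ℤ))
        (fun i _ => by rw [x2]; linear_combination 4 * (x1 i).sq)] at SS
    simp only [sum_const, card_univ, Fintype.card_fin, nsmul_eq_mul] at SS
    push_cast at SS
    refine ⟨?_, ?_, ?_⟩ <;> nlinarith [mul_self_nonneg (S (Fin.castAdd m 1)),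
      mul_self_nonneg (S (Fin.castAdd m 2)), mul_self_nonneg (S (Fin.castAdd m 3))]
  have key : ∀ j, -2 ≤ ∑ i, x i * N (Fin.natAdd 4 i) j ∧
      2 * ∑ i, x i * N (Fin.natAdd 4 i) j ≤ m := by
    intro j
    have h1 := SN j
    rw [Fin.sum_univ_add, Fin.sum_univ_four, S0, Sz.1, Sz.2.1, Sz.2.2, h0] at h1
    simp only [x2, mul_assoc, ← mul_sum] at h1
    have h2 : 0 ≤ ∑ k, if c k = j then ((4 + m : ℕ) : ℤ) else 0 :=
      sum_nonneg fun k _ => by split_ifs <;> positivity
    have h3 : ∑ k, (if c k = j then ((4 + m : ℕ) : ℤ) else 0) ≤ ((4 + m : ℕ) : ℤ) := by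
      by_cases h : ∃ k, c k = j
      · obtain ⟨k, rfl⟩ := h
        simp [hc.eq_iff]
      · push Not at h
        simp only [h, if_false, sum_const_zero]; positivity
    push_cast at h1 h2 h3
    constructor <;> omega
  obtain ⟨j, k, hjk, e⟩ := Fintype.exists_ne_map_eq_of_card_lt
    (fun (j : Fin (4 + m)) (a : Fin 4) => decide (N (Fin.castAdd m a) j = 1)) (by simp; omega)
  have top : ∀ a, N (Fin.castAdd m a) j * N (Fin.castAdd m a) k = 1 := by
    intro a
    have := congrFun e a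
    rcases sg (Fin.castAdd m a) j with p | p <;> rcases sg (Fin.castAdd m a) k with q | q <;>
      simp_all
  have D : 2 * hammingDist (fun i => N (Fin.natAdd 4 i) j) (fun i => N (Fin.natAdd 4 i) k) =
      m + 4 := by
    have h1 := dist_ip (fun i => sg (Fin.natAdd 4 i) j) (fun i => sg (Fin.natAdd 4 i) k)
    have h2 := orth j k
    rw [if_neg hjk, Fin.sum_univ_add] at h2
    simp only [top, sum_const, card_univ, Fintype.card_fin, nsmul_eq_mul] at h2
    omega
  have bdd : ∀ A : Set (Fin m → ℤ), BddAbove {d | ∃ x ∈ A, ∃ y ∈ A, d = hammingDist x y} := by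
    intro A
    refine ⟨m, ?_⟩
    rintro d ⟨x, _, y, _, rfl⟩
    simpa using hammingDist_le_card_fintype (x := x) (y := y)
  have D2 := le_csSup (bdd (cols 4 m N)) ⟨_, ⟨j, rfl⟩, _, ⟨k, rfl⟩, rfl⟩
  have close : ∀ y ∈ cols 4 m N, hammingDist x y ≤ diam (cols 4 m N) := by
    rintro y ⟨l, rfl⟩
    have h1 := dist_ip x1 (fun i => sg (Fin.natAdd 4 i) l)
    have h2 := (key l).1
    unfold diam
    simp only at D2 ⊢
    omega
  intro hmax
  refine absurd (hmax x x1 ?_) (not_lt.mpr (csSup_le' ?_))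
  · rintro ⟨l, hl⟩
    have h2 := (key l).2
    rw [← hl] at h2
    simp only [(sg _ _).sq, sum_const, card_univ, Fintype.card_fin, nsmul_eq_mul] at h2
    omega
  · rintro d ⟨u, rfl | hu, v, rfl | hv, rfl⟩
    · simp
    · exact close v hv
    · rw [hammingDist_comm]; exact close u hu
    · exact le_csSup (bdd _) ⟨u, hu, v, hv, rfl⟩

lemma exists_had (t : ℕ) : ∃ B : Matrix (Fin (2 ^ t)) (Fin (2 ^ t)) ℤ, IsHad B := by
  induction t with
  | zero => exact ⟨fun _ _ => 1, (isHad_iff _).2 ⟨fun _ _ => sg_one, fun i j h =>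
      absurd (Fin.ext (by have := i.2; have := j.2; omega)) h⟩⟩
  | succ t ih =>
    obtain ⟨B, hB⟩ := ih
    exact ⟨_, had_reindex (Fintype.equivOfCardEq (by simp; ring)) (K_had 1 hB)⟩

theorem main (n0 : ℕ) : ∃ m, n0 ≤ 4 + m ∧ ∃ H : Matrix (Fin (4 + m)) (Fin (4 + m)) ℤ,
    IsHadamard H ∧ Normalized H ∧ ¬ DiamMax (cols 4 m H) := by
  obtain ⟨B, hB⟩ := exists_had (n0 + 5)
  have big : n0 + 5 < 2 ^ (n0 + 5) := Nat.lt_two_pow_self
  obtain ⟨m, hm⟩ : ∃ m, 4 * 2 ^ (n0 + 5) = 4 + m := ⟨4 * 2 ^ (n0 + 5) - 4, by omega⟩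
  let z : Fin (2 ^ (n0 + 5)) := ⟨0, by omega⟩
  let p : Fin (2 ^ (n0 + 5)) ⊕ Fin (2 ^ (n0 + 5)) := Sum.inl z
  let q : Fin (2 ^ (n0 + 5)) ⊕ Fin (2 ^ (n0 + 5)) := Sum.inr z
  have hA := K_had 1 hB
  have hH := K_had (Equiv.swap p q) hA
  set H := K (Equiv.swap p q) (K 1 B) with hHd
  let r : Fin 4 → _ := ![Sum.inl p, Sum.inl q, Sum.inr p, Sum.inr q]
  have hr : Function.Injective r := by
    intro a b
    fin_cases a <;> fin_cases b <;> simp [r, p, q]
  have sA := ((isHad_iff _).1 hA).1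
  have sB := ((isHad_iff _).1 hB).1
  have P0 : ∀ x, ∏ k, H x (r k) = (K 1 B (idx x) p * K 1 B (idx x) q) *
      (K 1 B (Equiv.swap p q (idx x)) p * K 1 B (Equiv.swap p q (idx x)) q) := by
    intro x
    have := (sg_w0 x).sq
    rw [Fin.prod_univ_four]
    show K 1 B (idx x) p * K 1 B (idx x) q * (w0 x * K 1 B (Equiv.swap p q (idx x)) p) *
      (w0 x * K 1 B (Equiv.swap p q (idx x)) q) = _
    linear_combination (K 1 B (idx x) p * K 1 B (idx x) q) *
      (K 1 B (Equiv.swap p q (idx x)) p * K 1 B (Equiv.swap p q (idx x)) q) * this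
  have P1 : ∏ k, H (r 0) (r k) = -1 := by
    rw [P0]
    show (K 1 B p p * K 1 B p q) * (K 1 B (Equiv.swap p q p) p * K 1 B (Equiv.swap p q p) q) = _
    rw [Equiv.swap_apply_left]
    show B z z * (1 * B z z) * (B z z * (-1 * B z z)) = _
    rcases sB z z with h | h <;> rw [h] <;> norm_num
  have P2 : ∀ x, (∀ k, x ≠ r k) → ∏ k, H x (r k) = 1 := by
    intro x hx
    have a0 := hx 0
    have a1 := hx 1
    have a2 := hx 2
    have a3 := hx 3
    have : idx x ≠ p ∧ idx x ≠ q := by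
      rcases x with x | x <;> simp_all [r, idx]
    rw [P0, Equiv.swap_apply_of_ne_of_ne this.1 this.2]
    exact ((sA _ _).mul (sA _ _)).sq
  let e0 : Fin (4 + m) ≃ _ := Fintype.equivOfCardEq
    (β := (Fin (2 ^ (n0 + 5)) ⊕ Fin (2 ^ (n0 + 5))) ⊕ (Fin (2 ^ (n0 + 5)) ⊕ Fin (2 ^ (n0 + 5))))
    (by simp; omega)
  obtain ⟨σ, hσ⟩ := Equiv.Perm.exists_extending_pair _ _
    (e0.injective.comp (Fin.castAdd_injective 4 m)) hr
  let e := e0.trans σ
  have he : ∀ k, e (Fin.castAdd m k) = r k := hσ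
  have hM := had_reindex e hH
  set M := H.submatrix e e with hMd
  obtain ⟨s1, s2⟩ := (isHad_iff M).1 hM
  let o : Fin (4 + m) := Fin.castAdd m 0
  have ho : ∀ i : Fin (4 + m), i.1 = 0 → i = o := fun i hi => Fin.ext hi
  refine ⟨m, by omega, fun i j => (M i o * M o o) * M i j * M o j, ?_, ?_, ?_⟩
  · refine col_had (by omega) ((isHad_iff _).2 ⟨fun i j =>
      (((s1 _ _).mul (s1 _ _)).mul (s1 _ _)).mul (s1 _ _), fun i j hij => ?_⟩)
    have : ∀ c, M i o * M o o * M i c * M o c * (M j o * M o o * M j c * M o c) =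
        (M i o * M o o * (M j o * M o o)) * (M i c * M j c) := by
      intro c
      linear_combination (M i o * M o o * (M j o * M o o)) * (M i c * M j c) * (s1 o c).sq
    simp only [this, ← mul_sum, s2 i j hij, mul_zero]
  · rintro i j (h | h)
    · rw [ho i h]
      linear_combination (M o j * M o j) * (s1 o o).sq + (s1 o j).sq
    · rw [ho j h]
      linear_combination (M o o * M o o) * (s1 i o).sq + (s1 o o).sq
  · refine not_max (by omega) (col_had (by omega) ((isHad_iff _).2 ⟨fun i j =>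
      (((s1 _ _).mul (s1 _ _)).mul (s1 _ _)).mul (s1 _ _), fun i j hij => ?_⟩)) (fun j => ?_)
      (Fin.castAdd m) (Fin.castAdd_injective 4 m) (fun i => ?_)
    · have : ∀ c, M i o * M o o * M i c * M o c * (M j o * M o o * M j c * M o c) =
          (M i o * M o o * (M j o * M o o)) * (M i c * M j c) := by
        intro c
        linear_combination (M i o * M o o * (M j o * M o o)) * (M i c * M j c) * (s1 o c).sq
      simp only [this, ← mul_sum, s2 i j hij, mul_zero]
    · linear_combination (M o j * M o j) * (s1 o o).sq + (s1 o j).sq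
    · rw [prod_mul_distrib, prod_mul_distrib]
      have b1 : ∏ k : Fin 4, M o (Fin.castAdd m k) = -1 := by
        simp only [hMd, Matrix.submatrix_apply, o, he]; exact P1
      have b2 : ∏ k : Fin 4, M (Fin.natAdd 4 i) (Fin.castAdd m k) = 1 := by
        simp only [hMd, Matrix.submatrix_apply, he]
        refine P2 _ fun k hk => ?_
        have := congrArg Fin.val (e.injective (hk.trans (he k).symm))
        have := k.2
        simp at *
        omega
      rw [b1, b2]
      rcases (s1 (Fin.natAdd 4 i) o).mul (s1 o o) with h | h <;> simp [h]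

end Pool.Agent.H25.Diam
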