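import Mathlib

set_option autoImplicit false

namespace Pool.Agent.H25.Diam

/-- Hadamard matrix of order `n`. -/
def IsHadamard {n : ℕ} (H : Matrix (Fin n) (Fin n) ℤ) : Prop :=
  (∀ i j, H i j = 1 ∨ H i j = -1) ∧ H * H.transpose = (n : ℤ) • (1 : Matrix _ _ ℤ) ∧
    H.transpose * H = (n : ℤ) • (1 : Matrix _ _ ℤ)

/-- First row and first column are all ones. -/
def Normalized {n : ℕ} (H : Matrix (Fin n) (Fin n) ℤ) : Prop :=
  ∀ i j : Fin n, i.1 = 0 ∨ j.1 = 0 → H i j = 1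

/-- The cube `Q_m`. -/
def cube (m : ℕ) : Set (Fin m → ℤ) := {x | ∀ i, x i = 1 ∨ x i = -1}

/-- Hamming diameter. -/
noncomputable def diam {m : ℕ} (A : Set (Fin m → ℤ)) : ℕ :=
  sSup {d | ∃ x ∈ A, ∃ y ∈ A, d = hammingDist x y}

/-- Diametrically maximal in `Q_m`. -/
def DiamMax {m : ℕ} (A : Set (Fin m → ℤ)) : Prop :=
  ∀ x ∈ cube m, x ∉ A → diam A < diam (insert x A)

/-- The set of columns of `H` after deleting its first `r` rows. -/
def cols (r m : ℕ) (H : Matrix (Fin (r + m)) (Fin (r + m)) ℤ) : Set (Fin m → ℤ) :=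
  Set.range fun j i => H (Fin.natAdd r i) j

end Pool.Agent.H25.Diam
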