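import Mathlib

namespace Pool.Agent.H25.Disk

abbrev Z2 := ℤ × ℤ

def ins (d : ℤ) (A p : Z2) : Bool :=
  decide (1156 * ((d * p.1 - A.1) ^ 2 + (d * p.2 - A.2) ^ 2) ≤ 120250 * d ^ 2)

def all3 (d : ℤ) (A B C p : Z2) : Bool := ins d A p && ins d B p && ins d C p

def auto : ℕ → ℤ → Z2 → Z2 → Z2 → ℕ → List Z2 → Bool
  | 0, _, _, _, _, _, _ => false
  | f + 1, d, A, B, C, k, L =>
    decide (k ≤ L.countP (all3 d A B C)) ||
      (auto f (2 * d) (2 * C.1, 2 * C.2) (2 * A.1, 2 * A.2) (A.1 + B.1, A.2 + B.2)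
          (k - L.countP (all3 d A B C)) (L.filter (fun p => !all3 d A B C p)) &&
        auto f (2 * d) (2 * B.1, 2 * B.2) (2 * C.1, 2 * C.2) (A.1 + B.1, A.2 + B.2)
          (k - L.countP (all3 d A B C)) (L.filter (fun p => !all3 d A B C p)))

def Near (x y : ℝ) (p : Z2) : Prop := 1156 * ((p.1 - x) ^ 2 + (p.2 - y) ^ 2) ≤ 120250

def Tri (d : ℤ) (A B C : Z2) (x y : ℝ) : Prop :=
  ∃ a b c : ℝ, 0 ≤ a ∧ 0 ≤ b ∧ 0 ≤ c ∧ a + b + c = 1 ∧
    d * x = a * A.1 + b * B.1 + c * C.1 ∧ d * y = a * A.2 + b * B.2 + c * C.2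

lemma near_of {d : ℤ} (hd : 0 < d) {A B C p : Z2} {x y : ℝ} (h : Tri d A B C x y)
    (hp : all3 d A B C p = true) : Near x y p := by
  obtain ⟨a, b, c, ha, hb, hc, h1, h2, h3⟩ := h
  simp only [all3, ins, Bool.and_eq_true, decide_eq_true_eq] at hp
  obtain ⟨⟨e1, e2⟩, e3⟩ := hp
  have f1 : (1156 : ℝ) * ((d * p.1 - A.1) ^ 2 + (d * p.2 - A.2) ^ 2) ≤ 120250 * d ^ 2 := by
    exact_mod_cast e1
  have f2 : (1156 : ℝ) * ((d * p.1 - B.1) ^ 2 + (d * p.2 - B.2) ^ 2) ≤ 120250 * d ^ 2 := by
    exact_mod_cast e2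
  have f3 : (1156 : ℝ) * ((d * p.1 - C.1) ^ 2 + (d * p.2 - C.2) ^ 2) ≤ 120250 * d ^ 2 := by
    exact_mod_cast e3
  have hd' : (0 : ℝ) < d := by exact_mod_cast hd
  have key : ∀ u s t w : ℝ, (u - (a * s + b * t + c * w)) ^ 2 ≤
      a * (u - s) ^ 2 + b * (u - t) ^ 2 + c * (u - w) ^ 2 := fun u s t w => by
    have : a * (u - s) ^ 2 + b * (u - t) ^ 2 + c * (u - w) ^ 2 - (u - (a * s + b * t + c * w)) ^ 2 =
        a * b * (s - t) ^ 2 + a * c * (s - w) ^ 2 + b * c * (t - w) ^ 2 := by
      have : c = 1 - a - b := by linarith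
      subst this; ring
    have : 0 ≤ a * b * (s - t) ^ 2 + a * c * (s - w) ^ 2 + b * c * (t - w) ^ 2 := by positivity
    linarith
  have k1 := key (d * p.1) A.1 B.1 C.1
  have k2 := key (d * p.2) A.2 B.2 C.2
  rw [← h2] at k1
  rw [← h3] at k2
  have g1 := mul_le_mul_of_nonneg_left f1 ha
  have g2 := mul_le_mul_of_nonneg_left f2 hb
  have g3 := mul_le_mul_of_nonneg_left f3 hc
  have : (1156 * ((p.1 - x) ^ 2 + (p.2 - y) ^ 2)) * (d : ℝ) ^ 2 ≤ 120250 * d ^ 2 := by
    have e : (120250 : ℝ) * d ^ 2 = (a + b + c) * (120250 * d ^ 2) := by rw [h1]; ring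
    nlinarith
  exact le_of_mul_le_mul_right this (by positivity)

open Classical in
lemma auto_ok (x y : ℝ) : ∀ (f : ℕ) (d : ℤ) (A B C : Z2) (k : ℕ) (L : List Z2), 0 < d →
    auto f d A B C k L = true → Tri d A B C x y → k ≤ L.countP (fun p => decide (Near x y p)) := by
  intro f
  induction f with
  | zero => intro d A B C k L _ h; simp [auto] at h
  | succ f ih =>
    intro d A B C k L hd h hT
    have h0 : L.countP (all3 d A B C) + (L.filter (fun p => !all3 d A B C p)).countP
        (fun p => decide (Near x y p)) ≤ L.countP (fun p => decide (Near x y p)) := by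
      clear h
      induction L with
      | nil => simp
      | cons p L ih2 =>
        by_cases hp : all3 d A B C p = true
        · have := near_of hd hT hp
          simp only [List.countP_cons, List.filter_cons, hp, this]
          simp only [Bool.not_true, Bool.false_eq_true, if_false, decide_true, if_true]
          omega
        · simp only [List.countP_cons, List.filter_cons, hp]
          simp only [Bool.not_false, if_true, List.countP_cons, Bool.false_eq_true, if_false]
          omega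
    simp only [auto, Bool.or_eq_true, decide_eq_true_eq, Bool.and_eq_true] at h
    rcases h with h | ⟨h1, h2⟩
    · omega
    · obtain ⟨a, b, c, ha, hb, hc, e1, e2, e3⟩ := hT
      rcases le_total b a with hab | hab
      · have := ih _ _ _ _ _ _ (by omega) h1 ⟨c, a - b, 2 * b, hc, by linarith, by linarith,
          by linarith, by push_cast; linarith, by push_cast; linarith⟩
        omega
      · have := ih _ _ _ _ _ _ (by omega) h2 ⟨b - a, c, 2 * a, by linarith, hc, by linarith,
          by linarith, by push_cast; linarith, by push_cast; linarith⟩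
        omega

def L0 : List Z2 :=
  (List.range 22).flatMap (fun i => (List.range 22).map (fun j => ((i : ℤ) - 10, (j : ℤ) - 10)))

def Q (x y : ℝ) : Prop := ∃ S : Finset Z2, 323 ≤ S.card ∧ ∀ p ∈ S, Near x y p

lemma Q_of {x y : ℝ} {A B C : Z2} (h : auto 12 34 A B C 323 L0 = true) (hT : Tri 34 A B C x y) :
    Q x y := by
  classical
  have h1 := auto_ok x y _ _ _ _ _ _ _ (by norm_num) h hT
  have h2 : L0.Nodup := by decide +kernel
  refine ⟨(L0.filter (fun p => decide (Near x y p))).toFinset, ?_, fun p hp => ?_⟩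
  · rw [List.toFinset_card_of_nodup (h2.filter _), ← List.countP_eq_length_filter]
    exact h1
  · simpa using (List.mem_filter.1 (List.mem_toFinset.1 hp)).2

lemma Q0 {x y : ℝ} (h0 : 0 ≤ x) (h1 : x ≤ y) (h2 : y ≤ 1 / 2) : Q x y := by
  rcases le_total (17 * x) (3 * y) with h3 | h3
  · refine Q_of (A := (0, 0)) (B := (0, 17)) (C := (3, 17)) (by decide +kernel)
      ⟨1 - 2 * y, 2 * y - 34 / 3 * x, 34 / 3 * x, by linarith, by linarith, by linarith, by ring,
        by push_cast; ring, by push_cast; ring⟩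
  · rcases le_total (136 * x + 102 * y) 63 with h4 | h4
    · refine Q_of (A := (0, 0)) (B := (9, 9)) (C := (3, 17)) (by decide +kernel)
        ⟨1 - (136 * x + 102 * y) / 63, (17 * x - 3 * y) * 17 / 63, (y - x) * 17 / 7, by linarith,
          by linarith, by linarith, by ring, by push_cast; ring, by push_cast; ring⟩
    · refine Q_of (A := (3, 17)) (B := (17, 17)) (C := (9, 9)) (by decide +kernel)
        ⟨(y - x) * 17 / 7, (136 * x + 102 * y - 63) / 56, (1 - 2 * y) * 17 / 8, by linarith,
          by linarith, by linarith, by ring, by push_cast; ring, by push_cast; ring⟩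

lemma Q_map {x y x' y' : ℝ} (g : Z2 → Z2) (hg : Function.Injective g)
    (h : ∀ p, Near x y p → Near x' y' (g p)) (hq : Q x y) : Q x' y' := by
  obtain ⟨S, h1, h2⟩ := hq
  refine ⟨S.image g, by rwa [Finset.card_image_of_injective _ hg], fun p hp => ?_⟩
  obtain ⟨q, hq, rfl⟩ := Finset.mem_image.1 hp
  exact h q (h2 q hq)

lemma Q_swap {x y : ℝ} (h : Q x y) : Q y x :=
  Q_map Prod.swap Prod.swap_injective (fun p hp => by
    simp only [Near, Prod.fst_swap, Prod.snd_swap] at hp ⊢; linarith) h

lemma Q_red {x y : ℝ} (h : Q |x - round x| y) : Q x y := by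
  rcases abs_cases (x - round x) with h1 | h1 <;> rw [h1.1] at h
  · refine Q_map (fun p => (p.1 + round x, p.2)) (fun p q e => ?_) (fun p hp => ?_) h
    · simp only [Prod.mk.injEq] at e
      exact Prod.ext (by omega) e.2
    · simp only [Near] at hp ⊢
      push_cast
      convert hp using 3
      ring
  · refine Q_map (fun p => (round x - p.1, p.2)) (fun p q e => ?_) (fun p hp => ?_) h
    · simp only [Prod.mk.injEq] at e
      exact Prod.ext (by omega) e.2
    · simp only [Near] at hp ⊢
      push_cast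
      convert hp using 3
      ring

theorem Q_all (x y : ℝ) : Q x y := by
  refine Q_red (Q_swap (Q_red ?_))
  rcases le_total |y - round y| |x - round x| with h | h
  · exact Q0 (abs_nonneg _) h (abs_sub_round x)
  · exact Q_swap (Q0 (abs_nonneg _) h (abs_sub_round y))

end Pool.Agent.H25.Disk
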