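import Mathlib

set_option autoImplicit false

/-! A 31-vertex gadget whose open packing number is 6. -/

namespace Pool.Agent.H25.Dtd

def n1 : Fin 31 → Option (Fin 31) := ![some 22, some 16, some 6, some 6, some 12, some 12, some 2, some 17, some 10, some 13, some 8, some 21, some 4, some 4, some 16, some 4, some 1, some 3, some 1, some 10, some 2, some 1, some 0, some 5, some 0, some 15, some 9, some 18, some 5, some 11, some 10]
def n2 : Fin 31 → Option (Fin 31) := ![some 24, some 18, some 16, some 17, some 13, some 23, some 3, some 20, some 13, some 22, some 19, some 24, some 5, some 8, some 17, some 25, some 2, some 7, some 3, some 12, some 7, some 7, some 6, some 24, some 11, some 26, some 19, some 20, some 8, some 14, some 15]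
def n3 : Fin 31 → Option (Fin 31) := ![none, some 21, some 20, some 18, some 15, some 28, some 22, some 21, some 28, some 26, some 30, some 29, some 19, some 9, some 29, some 30, some 14, some 14, some 27, some 26, some 27, some 11, some 9, some 30, some 23, some 28, some 25, some 29, some 25, some 27, some 23]
def par : Fin 31 → Fin 31 := ![0, 21, 6, 6, 13, 23, 22, 21, 13, 22, 30, 24, 5, 9, 29, 30, 2, 3, 3, 26, 2, 11, 0, 24, 0, 26, 9, 29, 5, 11, 23]
def dep : Fin 31 → ℕ := ![0, 4, 3, 3, 4, 3, 2, 4, 4, 2, 4, 2, 4, 3, 4, 4, 4, 4, 4, 4, 4, 3, 1, 2, 1, 4, 3, 4, 4, 3, 3]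
def big : ℕ := 0x3080130013700000480b4000000488e1040b400400803306060002010009c010500200c211700002027004042000330203300402035004020360040148034000800088e144094001480a400088040831480b00002080151420802300800480e001702014308011042080320084040860840408a0800488c00800a40

def D (a : ℕ) : ℕ := Nat.land (Nat.shiftRight big (Nat.mul 32 a)) 4294967295

noncomputable def go (f : ℕ) : ℕ → ℕ → ℕ → Bool :=
  Nat.rec (motive := fun _ => ℕ → ℕ → ℕ → Bool) (fun _ _ r => Nat.blt 0 r)
    (fun g ih v bl r => Bool.rec
      (Bool.rec (Bool.rec false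
        (Bool.rec (ih (Nat.succ v) (Nat.lor bl (D v)) (Nat.pred r)) true
          (Nat.beq (Nat.land (Nat.shiftRight bl v) 1) 1)) (ih (Nat.succ v) bl r))
        true (Nat.blt (Nat.succ g) r))
      false (Nat.beq r 0)) f

theorem go_ok : go 31 0 0 7 = true := by decide +kernel

def cnt (t : ℕ → Bool) : ℕ → ℕ → ℕ
  | 0, _ => 0
  | f + 1, v => (t v).toNat + cnt t f (v + 1)

lemma cnt_le (t : ℕ → Bool) (f : ℕ) : ∀ v, cnt t f v ≤ f := by
  induction f with
  | zero => intro v; simp [cnt]
  | succ f ih =>
    intro v
    have := ih (v + 1)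
    have := Bool.toNat_le (t v)
    simp only [cnt]; omega

lemma go_sound (t : ℕ → Bool) (ht : ∀ a b, t a = true → t b = true → (D a).testBit b = false)
    (f : ℕ) : ∀ v bl r, go f v bl r = true → (∀ j, t j = true → bl.testBit j = false) →
      cnt t f v < r := by
  induction f with
  | zero => intro v bl r h _; simpa [go, cnt] using h
  | succ f ih =>
    intro v bl r h hb
    have h' : Bool.rec (Bool.rec (Bool.rec false
        (Bool.rec (go f (v + 1) (bl ||| D v) (r - 1)) true
          (Nat.beq ((bl >>> v) &&& 1) 1)) (go f (v + 1) bl r))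
        true (Nat.blt (f + 1) r)) false (Nat.beq r 0) = true := h
    cases h0 : Nat.beq r 0 <;> rw [h0] at h'
    swap
    · exact absurd h' (by simp)
    have r0 : r ≠ 0 := Nat.ne_of_beq_eq_false h0
    cases h1 : Nat.blt (f + 1) r <;> rw [h1] at h'
    swap
    · have : f + 1 < r := by rw [← Nat.blt_eq]; exact h1
      exact lt_of_le_of_lt (cnt_le t _ v) this
    cases h2 : go f (v + 1) bl r <;> rw [h2] at h'
    · exact absurd h' (by simp)
    cases htv : t v
    · have := ih _ _ _ h2 hb
      simp only [cnt, htv]; simpa using this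
    · have hz : Nat.beq ((bl >>> v) &&& 1) 1 = false := by
        have := hb v htv
        rw [Nat.and_one_is_mod, Nat.shiftRight_eq_div_pow, ← Nat.toNat_testBit, this]; rfl
      rw [hz] at h'
      have := ih _ _ _ h' fun j hj => by rw [Nat.testBit_or, hb j hj, ht v j htv hj]; rfl
      simp only [cnt, htv, Bool.toNat_true]; omega

lemma cnt_eq (t : ℕ → Bool) (f : ℕ) : ∀ v, cnt t f v = ∑ j ∈ Finset.range f, (t (v + j)).toNat := by
  induction f with
  | zero => intro v; simp [cnt]
  | succ f ih =>
    intro v
    rw [Finset.sum_range_succ', cnt, ih, add_comm]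
    congr 1
    exact Finset.sum_congr rfl fun j _ => by rw [show v + 1 + j = v + (j + 1) by omega]

def B (a : Fin 31) (o : Option (Fin 31)) : Prop := n1 a = o ∨ n2 a = o ∨ n3 a = o

instance (a : Fin 31) (o : Option (Fin 31)) : Decidable (B a o) := by unfold B; infer_instance

lemma B_symm : ∀ a b : Fin 31, B a (some b) → B b (some a) := by decide +kernel
lemma B_irr : ∀ a : Fin 31, ¬ B a (some a) := by decide +kernel
lemma n_ne : ∀ a : Fin 31, n1 a ≠ n2 a ∧ n1 a ≠ n3 a ∧ n2 a ≠ n3 a := by decide +kernel
lemma B_par : ∀ a : Fin 31, B a none ∨ (B a (some (par a)) ∧ dep (par a) < dep a) := by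
  decide +kernel
lemma B_zero : B 0 none := by decide +kernel
lemma D_spec : ∀ a b : Fin 31, (D a).testBit b = true →
    a ≠ b ∧ ∃ x, B x (some a) ∧ B x (some b) := by decide +kernel
lemma D_big : ∀ a : Fin 31, D a < 2 ^ 31 := by decide +kernel

lemma pack (T : Fin 31 → Prop) [DecidablePred T]
    (h : ∀ x a b, a ≠ b → B x (some a) → B x (some b) → T a → T b → False) :
    (Finset.univ.filter T).card ≤ 6 := by
  let t : ℕ → Bool := fun j => if hj : j < 31 then decide (T ⟨j, hj⟩) else false
  have := go_sound t ?_ 31 0 0 7 go_ok (by simp)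
  · rw [cnt_eq, Finset.sum_range] at this
    rw [Finset.card_filter]
    have e : ∀ i : Fin 31, (t (0 + i)).toNat = if T i then 1 else 0 := fun i => by
      simp only [t, zero_add, dif_pos i.2]
      by_cases hT : T i <;> simp [hT]
    simp only [e] at this
    omega
  · intro a b ha hb
    simp only [t] at ha hb
    split_ifs at ha hb with h1 h2
    by_contra hc
    obtain ⟨ne, x, hx, hy⟩ := D_spec ⟨a, h1⟩ ⟨b, h2⟩ (by simpa using hc)
    exact h x _ _ ne hx hy (of_decide_eq_true ha) (of_decide_eq_true hb)

abbrev V (m : ℕ) := Option (Fin m × Fin 31)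

def lift {m : ℕ} (i : Fin m) (o : Option (Fin 31)) : V m := o.map fun a => (i, a)

lemma lift_inj {m : ℕ} (i : Fin m) : Function.Injective (lift i) :=
  Option.map_injective fun _ _ h => (Prod.ext_iff.1 h).2

def R {m : ℕ} : V m → V m → Prop
  | some p, some q => p.1 = q.1 ∧ B p.2 (some q.2)
  | some p, none => B p.2 none
  | none, some q => B q.2 none
  | none, none => False

instance {m : ℕ} : DecidableRel (R (m := m)) := fun x y => by
  cases x <;> cases y <;> unfold R <;> infer_instance

def G (m : ℕ) : SimpleGraph (V m) where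
  Adj := R
  symm := ⟨fun x y h => by
    cases x <;> cases y
    · exact h
    · exact h
    · exact h
    · exact ⟨h.1.symm, B_symm _ _ h.2⟩⟩
  loopless := ⟨fun x h => by
    cases x
    · exact h
    · exact B_irr _ h.2⟩

instance (m : ℕ) : DecidableRel (G m).Adj := inferInstanceAs (DecidableRel R)

lemma adj_lift {m : ℕ} (i : Fin m) (x : Fin 31) (o : Option (Fin 31)) (h : B x o) :
    (G m).Adj (some (i, x)) (lift i o) := by
  cases o
  · exact h
  · exact ⟨rfl, h⟩

lemma adj_iff {m : ℕ} (i : Fin m) (x : Fin 31) (y : V m) (h : (G m).Adj (some (i, x)) y) :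
    ∃ o, B x o ∧ y = lift i o := by
  cases y with
  | none => exact ⟨none, h, rfl⟩
  | some q =>
    obtain ⟨j, b⟩ := q
    obtain ⟨rfl, h2⟩ : i = j ∧ B x (some b) := h
    exact ⟨some b, h2, rfl⟩

lemma conn (m : ℕ) : (G m).Connected := by
  have key : ∀ (i : Fin m) (k : ℕ) (a : Fin 31), dep a < k → (G m).Reachable (some (i, a)) none := by
    intro i k
    induction k with
    | zero => intro a h; omega
    | succ k ih =>
      intro a h
      rcases B_par a with h1 | ⟨h1, h2⟩
      · exact (adj_lift i a none h1).reachable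
      · exact (adj_lift i a _ h1).reachable.trans (ih _ (by omega))
  have all : ∀ x : V m, (G m).Reachable x none := fun x => by
    cases x with
    | none => rfl
    | some p => exact key p.1 _ p.2 (Nat.lt_succ_self _)
  exact ⟨fun x y => (all x).trans (all y).symm⟩

lemma deg (m : ℕ) (v : V (m + 3)) : 3 ≤ (G (m + 3)).degree v := by
  show 2 < ((G (m + 3)).neighborFinset v).card
  rw [Finset.two_lt_card_iff]
  cases v with
  | none =>
    refine ⟨some (⟨0, by omega⟩, 0), some (⟨1, by omega⟩, 0), some (⟨2, by omega⟩, 0), ?_, ?_, ?_,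
      by simp, by simp, by simp⟩ <;>
    · rw [SimpleGraph.mem_neighborFinset]; exact B_zero
  | some p =>
    obtain ⟨i, x⟩ := p
    obtain ⟨h1, h2, h3⟩ := n_ne x
    refine ⟨lift i (n1 x), lift i (n2 x), lift i (n3 x), ?_, ?_, ?_, (lift_inj i).ne h1,
      (lift_inj i).ne h2, (lift_inj i).ne h3⟩ <;> rw [SimpleGraph.mem_neighborFinset]
    · exact adj_lift _ _ _ (Or.inl rfl)
    · exact adj_lift _ _ _ (Or.inr (Or.inl rfl))
    · exact adj_lift _ _ _ (Or.inr (Or.inr rfl))

theorem big_set (m : ℕ) (S : Finset (V m))
    (hS : ∀ v, 2 ≤ (S.filter fun u => (G m).Adj v u).card) : 25 * m ≤ S.card := by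
  have h1 : ∀ i : Fin m, 25 ≤ (Finset.univ.filter fun a : Fin 31 => some (i, a) ∈ S).card := by
    intro i
    have := pack (fun a => ¬ (some (i, a) ∈ S)) ?_
    · have e := Finset.card_filter_add_card_filter_not (s := Finset.univ)
        (fun a : Fin 31 => some (i, a) ∈ S)
      simp only [Finset.card_univ, Fintype.card_fin] at e
      omega
    · intro x a b ne ha hb sa sb
      obtain ⟨u, hu, w, hw, uw⟩ := Finset.one_lt_card.1 (hS (some (i, x)))
      rw [Finset.mem_filter] at hu hw
      obtain ⟨o, ho, rfl⟩ := adj_iff i x u hu.2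
      obtain ⟨p, hp, rfl⟩ := adj_iff i x w hw.2
      have op : o ≠ p := fun e => uw (by rw [e])
      have oa : o ≠ some a := fun e => sa (by rw [e] at hu; exact hu.1)
      have ob : o ≠ some b := fun e => sb (by rw [e] at hu; exact hu.1)
      have pa : p ≠ some a := fun e => sa (by rw [e] at hw; exact hw.1)
      have pb : p ≠ some b := fun e => sb (by rw [e] at hw; exact hw.1)
      have ab : some a ≠ some b := fun e => ne (Option.some.inj e)
      unfold B at ha hb ho hp
      generalize some a = a' at *
      generalize some b = b' at *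
      rcases ha with ha | ha | ha <;> rcases hb with hb | hb | hb <;>
        rcases ho with ho | ho | ho <;> rcases hp with hp | hp | hp <;> simp_all
  have h2 : (Finset.univ.filter fun p : Fin m × Fin 31 => some p ∈ S).card ≤ S.card :=
    Finset.card_le_card_of_injOn some (fun p hp => by simpa using hp)
      fun _ _ _ _ h => Option.some.inj h
  refine le_trans ?_ h2
  rw [Finset.card_filter, Fintype.sum_prod_type]
  calc 25 * m = ∑ _i : Fin m, 25 := by simp [mul_comm]
    _ ≤ _ := Finset.sum_le_sum fun i _ => by
      have := h1 i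
      rwa [Finset.card_filter] at this

end Pool.Agent.H25.Dtd
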