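import Mathlib

namespace Pool.Agent.H25.EH

open Finset Polynomial

variable {F : Type*} [Field F] [DecidableEq F]

/-- the divided difference of `x ^ k` over `A` -/
noncomputable def lam (A : Finset F) (k : ℕ) : F := ∑ a ∈ A, a ^ k / ∏ b ∈ A.erase a, (a - b)

lemma lam_eq (A : Finset F) (k : ℕ) (hk : k < A.card) :
    lam A k = if k = A.card - 1 then 1 else 0 := by
  have := Lagrange.coeff_eq_sum (s := A) (v := id) (fun _ _ _ _ h => h) (P := (X : F[X]) ^ k)
    (by rw [degree_X_pow]; exact_mod_cast hk)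
  simp only [coeff_X_pow, eval_pow, eval_X, id] at this
  rw [lam, ← this]
  simp [eq_comm]

lemma prod_lam (A B : Finset F) (i l : ℕ) (hA : 1 ≤ A.card) (hB : 1 ≤ B.card)
    (h : i + l + 2 ≤ A.card + B.card) :
    lam A i * lam B l = if i = A.card - 1 ∧ l = B.card - 1 then 1 else 0 := by
  by_cases h1 : i < A.card
  · by_cases h2 : l < B.card
    · rw [lam_eq A i h1, lam_eq B l h2]
      split_ifs <;> simp_all
    · rw [lam_eq A i h1, if_neg (by omega), if_neg (by omega), zero_mul]
  · rw [lam_eq B l (by omega), if_neg (by omega), if_neg (by omega), mul_zero]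

lemma dbl (A B : Finset F) (j : ℕ) :
    ∑ a ∈ A, ∑ b ∈ B, (a - b) * (a + b) ^ j / ((∏ c ∈ A.erase a, (a - c)) *
      ∏ c ∈ B.erase b, (b - c)) = ∑ i ∈ range (j + 1), (j.choose i : F) *
        (lam A (i + 1) * lam B (j - i) - lam A i * lam B (j - i + 1)) := by
  simp only [lam, sum_mul_sum]
  simp only [← sum_sub_distrib, mul_sum]
  rw [sum_comm (s := range (j + 1))]
  refine sum_congr rfl fun a _ => ?_
  rw [sum_comm (s := range (j + 1))]
  refine sum_congr rfl fun b _ => ?_
  rw [add_pow, mul_sum, sum_div]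
  refine sum_congr rfl fun i _ => ?_
  ring

/-- The Erdos-Heilbronn bound. -/
theorem eh (p : ℕ) [Fact p.Prime] (B C : Finset (ZMod p)) (h2 : 2 ≤ B.card)
    (hp : 2 * B.card ≤ p + 3) (h : ∀ a ∈ B, ∀ b ∈ B, a ≠ b → a + b ∈ C) :
    2 * B.card ≤ C.card + 3 := by
  by_contra hcon
  obtain ⟨m, hm⟩ : ∃ m, B.card = m + 2 := ⟨B.card - 2, by omega⟩
  obtain ⟨B', hB', hc⟩ := exists_subset_card_eq (s := B) (n := m + 1) (by omega)
  set q : (ZMod p)[X] := X ^ (2 * m - C.card) * ∏ c ∈ C, (X - Polynomial.C c) with hq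
  have hmon : q.Monic := (monic_X_pow _).mul (monic_prod_of_monic _ _ fun c _ => monic_X_sub_C c)
  have hdeg : q.natDegree = 2 * m := by
    rw [hq, (monic_X_pow _).natDegree_mul (monic_prod_of_monic _ _ fun c _ => monic_X_sub_C c),
      natDegree_X_pow, natDegree_prod_of_monic _ _ fun c _ => monic_X_sub_C c]
    simp; omega
  have z : ∑ a ∈ B, ∑ b ∈ B', (a - b) * q.eval (a + b) / ((∏ c ∈ B.erase a, (a - c)) *
      ∏ c ∈ B'.erase b, (b - c)) = 0 := by
    refine sum_eq_zero fun a ha => sum_eq_zero fun b hb => ?_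
    by_cases e : a = b
    · simp [e]
    · have : q.eval (a + b) = 0 := by
        rw [hq, eval_mul, eval_prod, prod_eq_zero (h a ha b (hB' hb) e) (by simp), mul_zero]
      simp [this]
  have z2 : ∑ a ∈ B, ∑ b ∈ B', (a - b) * q.eval (a + b) / ((∏ c ∈ B.erase a, (a - c)) *
      ∏ c ∈ B'.erase b, (b - c)) = ∑ j ∈ range (2 * m + 1), q.coeff j *
      ∑ a ∈ B, ∑ b ∈ B', (a - b) * (a + b) ^ j / ((∏ c ∈ B.erase a, (a - c)) *
      ∏ c ∈ B'.erase b, (b - c)) := by
    simp only [mul_sum, eval_eq_sum_range, hdeg, sum_div]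
    rw [sum_comm (s := range (2 * m + 1))]
    refine sum_congr rfl fun a _ => ?_
    rw [sum_comm (s := range (2 * m + 1))]
    refine sum_congr rfl fun b _ => sum_congr rfl fun j _ => ?_
    ring
  rw [z2, sum_range_succ, sum_eq_zero, zero_add, ← hdeg, hmon.coeff_natDegree, one_mul, hdeg,
    dbl] at z
  · have z3 : ∑ i ∈ range (2 * m + 1), ((2 * m).choose i : ZMod p) *
        (lam B (i + 1) * lam B' (2 * m - i) - lam B i * lam B' (2 * m - i + 1)) =
        ∑ i ∈ range (2 * m + 1), ((if i = m then ((2 * m).choose i : ZMod p) else 0) -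
          (if i = m + 1 then ((2 * m).choose i : ZMod p) else 0)) := by
      refine sum_congr rfl fun i hi => ?_
      have hi' := mem_range.1 hi
      rw [prod_lam B B' _ _ (by omega) (by omega) (by omega),
        prod_lam B B' _ _ (by omega) (by omega) (by omega), hm, hc]
      split_ifs <;> first | omega | simp
    rw [z3, sum_sub_distrib, sum_ite_eq', sum_ite_eq', if_pos (by simp; omega)] at z
    have z4 : ((2 * m).choose m : ZMod p) = ((2 * m).choose (m + 1) : ZMod p) := by
      split_ifs at z with h1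
      · exact sub_eq_zero.1 z
      · rw [Nat.choose_eq_zero_of_lt (show 2 * m < m + 1 by simpa using h1)]
        simpa using z
    have z5 := congrArg (Nat.cast : ℕ → ZMod p) (Nat.choose_succ_right_eq (2 * m) m)
    rw [show 2 * m - m = m by omega] at z5
    push_cast at z5
    have z6 : ((2 * m).choose m : ZMod p) = 0 := by
      rw [← z4] at z5
      linear_combination z5
    have z7 := Nat.choose_mul_factorial_mul_factorial (show m ≤ 2 * m by omega)
    have z8 : p ∣ (2 * m).factorial := by
      rw [← z7, mul_assoc]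
      exact Dvd.dvd.mul_right ((ZMod.natCast_eq_zero_iff _ _).1 z6) _
    have := (Fact.out : p.Prime).dvd_factorial.1 z8
    omega
  · intro j hj
    have hj' := mem_range.1 hj
    rw [dbl, sum_eq_zero, mul_zero]
    intro i hi
    have hi' := mem_range.1 hi
    rw [prod_lam B B' _ _ (by omega) (by omega) (by omega),
      prod_lam B B' _ _ (by omega) (by omega) (by omega), if_neg (by omega), if_neg (by omega)]
    simp

end Pool.Agent.H25.EH
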