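import Pool.Agent.H25.EquiDefs

set_option autoImplicit false

namespace Pool.Agent.H25.Equi

open Finset

lemma maxStable_iff {V : Type} [DecidableEq V] (G : SimpleGraph V) (S : Finset V) :
    MaxStable G S ↔ (∀ a ∈ S, ∀ b ∈ S, ¬ G.Adj a b) ∧ ∀ w, w ∉ S → ∃ s ∈ S, G.Adj s w := by
  constructor
  · rintro ⟨h1, h2⟩
    have h1' : ∀ a ∈ S, ∀ b ∈ S, ¬ G.Adj a b := fun a ha b hb h => h1 ha hb h.ne h
    refine ⟨h1', fun w hw => ?_⟩
    by_contra hcon
    push Not at hcon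
    refine hw (h2 (y := insert w S) ?_ (subset_insert _ _) (mem_insert_self _ _))
    intro a ha b hb _
    rcases mem_insert.1 ha with rfl | ha' <;> rcases mem_insert.1 hb with rfl | hb'
    · exact G.irrefl
    · exact fun h => hcon b hb' h.symm
    · exact hcon a ha'
    · exact h1' a ha' b hb'
  · rintro ⟨h1, h2⟩
    refine ⟨fun a ha b hb _ => h1 a ha b hb, fun T hT hST w hw => ?_⟩
    by_contra hwS
    obtain ⟨s, hs, h⟩ := h2 w hwS
    exact hT (hST hs) hw h.ne h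

lemma K2 : StronglyEquistable (⊤ : SimpleGraph (Fin 2)) := by
  intro T h1 h2 γ hγ
  have e : ∀ S : Finset (Fin 2), ((∀ a ∈ S, ∀ b ∈ S, ¬ (⊤ : SimpleGraph (Fin 2)).Adj a b) ∧
      ∀ w, w ∉ S → ∃ s ∈ S, (⊤ : SimpleGraph (Fin 2)).Adj s w) ↔ S.card = 1 := by decide
  refine ⟨fun _ => 1, fun _ => one_pos, fun S hS => ?_, ?_⟩
  · rw [maxStable_iff, e] at hS
    simp [hS]
  · rw [maxStable_iff, e] at h2
    have := h1.card_pos
    have h3 : (2 : ℝ) ≤ T.card := by exact_mod_cast (by omega : 2 ≤ T.card)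
    simp only [sum_const, nsmul_eq_mul, mul_one]
    linarith

/-- Larger end of each edge of the triangle-free graph. -/
def p : Fin 26 → ℕ := ![13, 1, 2, 3, 4, 4, 5, 5, 6, 6, 7, 7, 8, 9, 10, 10, 11, 12, 13, 14, 14, 15,
  15, 16, 16, 16]
/-- Smaller end of each edge. -/
def q : Fin 26 → ℕ := ![12, 0, 0, 1, 2, 3, 0, 4, 1, 5, 2, 6, 3, 7, 8, 9, 8, 11, 10, 9, 13, 11, 14,
  9, 12, 15]

/-- The complement of the line graph. -/
def G : SimpleGraph (Fin 26) where
  Adj e f := p e ≠ p f ∧ p e ≠ q f ∧ q e ≠ p f ∧ q e ≠ q f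
  symm := ⟨fun _ _ h => ⟨h.1.symm, h.2.2.1.symm, h.2.1.symm, h.2.2.2.symm⟩⟩
  loopless := ⟨fun _ h => h.1 rfl⟩

instance : DecidableRel G.Adj := by unfold G; infer_instance

/-- The star at u. -/
def star (u : ℕ) : Finset (Fin 26) := univ.filter (fun e => p e = u ∨ q e = u)

lemma star_max : ∀ u : Fin 17, (∀ a ∈ star u, ∀ b ∈ star u, ¬ G.Adj a b) ∧
    ∀ w, w ∉ star u → ∃ s ∈ star u, G.Adj s w := by decide +kernel

set_option synthInstance.maxSize 2000 in
lemma tri : ∀ e f g : Fin 26, ¬ G.Adj e f → ¬ G.Adj e g → ¬ G.Adj f g →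
    (p e = p f ∨ p e = q f) ∨ (q e = p g ∨ q e = q g) := by decide +kernel

lemma pq : ∀ e, p e < 17 ∧ q e < p e := by decide +kernel

lemma max_star {S : Finset (Fin 26)} (h : MaxStable G S) : ∃ u, u < 17 ∧ S = star u := by
  obtain ⟨h1, h2⟩ := (maxStable_iff _ _).1 h
  have key : ∀ u, u < 17 → S ⊆ star u → ∃ u, u < 17 ∧ S = star u := fun u hu hs =>
    ⟨u, hu, Subset.antisymm hs (h.2 ((maxStable_iff _ _).2 (star_max ⟨u, hu⟩)).1 hs)⟩
  obtain ⟨e, he⟩ : S.Nonempty := by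
    by_contra hne
    rw [not_nonempty_iff_eq_empty] at hne
    obtain ⟨s, hs, -⟩ := h2 0 (by simp [hne])
    simp [hne] at hs
  by_cases hp : S ⊆ star (p e)
  · exact key _ (pq e).1 hp
  · obtain ⟨f, hf, hf'⟩ := not_subset.1 hp
    refine key (q e) (by have := pq e; omega) (fun g hg => ?_)
    simp only [star, mem_filter, mem_univ, true_and] at hf' ⊢
    have := tri e f g (h1 e he f hf) (h1 e he g hg) (h1 f hf g hg)
    omega

/-- Doubled vertex potentials as linear forms in the edges. -/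
def M (u : ℕ) (f : Fin 26) : ℤ :=
  (([[0, 1, 1, -1, -1, 1], [0, 1, -1, 1, 1, -1], [0, -1, 1, 1, 1, -1], [0, -1, 1, 1, -1, 1],
    [0, 1, -1, -1, 1, 1], [0, -1, -1, 1, 1, -1, 2], [0, -1, 1, -1, -1, 1, 0, 0, 2],
    [0, 1, -1, -1, -1, 1, 0, 0, 0, 0, 2], [0, 1, -1, -1, 1, -1, 0, 0, 0, 0, 0, 0, 2],
    [0, -1, 1, 1, 1, -1, 0, 0, 0, 0, -2, 0, 0, 2], [0, -1, 1, 1, -1, 1, 0, 0, 0, 0, 0, 0, -2, 0, 2],
    [0, -1, 1, 1, -1, 1, 0, 0, 0, 0, 0, 0, -2, 0, 0, 0, 2],
    [0, 1, -1, -1, 1, -1, 0, 0, 0, 0, 0, 0, 2, 0, 0, 0, -2, 2],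
    [2, -1, 1, 1, -1, 1, 0, 0, 0, 0, 0, 0, -2, 0, 0, 0, 2, -2],
    [0, 1, -1, -1, -1, 1, 0, 0, 0, 0, 2, 0, 0, -2, 0, 0, 0, 0, 0, 2],
    [0, 1, -1, -1, 1, -1, 0, 0, 0, 0, 0, 0, 2, 0, 0, 0, -2, 0, 0, 0, 0, 2],
    [0, 1, -1, -1, -1, 1, 0, 0, 0, 0, 2, 0, 0, -2, 0, 0, 0, 0, 0, 0, 0, 0, 0, 2]] :
      List (List ℤ)).getD u []).getD f.val 0

/-- Kernel directions. -/
def d (e f : Fin 26) : ℤ := M (p e) f + M (q e) f - if f = e then 2 else 0

/-- A positive weighting with all star sums 16. -/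
def w : Fin 26 → ℤ := ![1, 1, 2, 2, 7, 7, 13, 2, 13, 1, 7, 2, 7, 7, 1, 1, 8, 2, 14, 6, 1, 6, 9, 2,
  13, 1]

lemma d_star : ∀ e, ∀ u : Fin 17, ∑ f ∈ star u, d e f = 0 := by decide +kernel
lemma w_star : ∀ u : Fin 17, ∑ f ∈ star u, w f = 16 := by decide +kernel
lemma w_d : ∀ e f, 0 < 10 * w f + d e f := by decide +kernel
lemma w_pos : ∀ f, 0 < w f := by decide +kernel

/-- Final test on a list of doubled potentials. -/
def fin (f : ℕ → ℤ) : Bool :=
  decide (2 < ∑ u ∈ range 17, f u) || (List.range 17).all (fun u => f u == 0) ||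
    (List.range 17).any (fun v => (List.range 17).all (fun u => f u == if u = v then 2 else 0))

/-- Backtracking over potentials. -/
def go : List (ℕ × List ℕ) → ℕ → (ℕ → ℤ) → Bool
  | [], _, f => fin f
  | (a, nb) :: rest, i, f =>
    [-f a, 2 - f a].all (fun x => !(nb.all (fun k => x + f k == 0 || x + f k == 2)) ||
      go rest (i + 1) (fun u => if u = i then x else f u))

/-- The constraints used by the backtracking hold for c. -/
def Valid (c : ℕ → ℤ) : List (ℕ × List ℕ) → ℕ → Prop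
  | [], i => i = 17
  | (a, nb) :: rest, i => (∀ k ∈ a :: nb, k < i ∧ (c i + c k = 0 ∨ c i + c k = 2)) ∧
      Valid c rest (i + 1)

lemma sound (c : ℕ → ℤ) : ∀ (l : List (ℕ × List ℕ)) (i : ℕ) (f : ℕ → ℤ), (∀ u, u < i → f u = c u) →
    Valid c l i → go l i f = true → fin c = true
  | [], i, f, hf, hv, h => by
    have hi : i = 17 := hv
    subst hi
    simp only [go, fin, Bool.or_eq_true, decide_eq_true_eq, List.all_eq_true, List.any_eq_true,
      List.mem_range, beq_iff_eq] at h ⊢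
    rcases h with (h | h) | ⟨v, hv, h⟩
    · refine Or.inl (Or.inl ?_)
      rwa [← sum_congr rfl (fun u hu => hf u (mem_range.1 hu))]
    · exact Or.inl (Or.inr (fun u hu => by rw [← hf u hu]; exact h u hu))
    · exact Or.inr ⟨v, hv, fun u hu => by rw [← hf u hu]; exact h u hu⟩
  | (a, nb) :: rest, i, f, hf, hv, h => by
    obtain ⟨h1, h2⟩ := hv
    simp only [go, List.all_eq_true, Bool.or_eq_true, Bool.not_eq_true'] at h
    have ha := h1 a List.mem_cons_self
    have hm : c i ∈ [-f a, 2 - f a] := by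
      rw [hf a ha.1]
      simp only [List.mem_cons, List.not_mem_nil, or_false]
      omega
    rcases h (c i) hm with h3 | h3
    · exfalso
      have : nb.all (fun k => c i + f k == 0 || c i + f k == 2) = true := by
        simp only [List.all_eq_true, Bool.or_eq_true, beq_iff_eq]
        intro k hk
        have := h1 k (List.mem_cons_of_mem _ hk)
        rw [hf k this.1]
        exact this.2
      rw [this] at h3
      exact absurd h3 (by decide)
    · refine sound c rest (i + 1) _ (fun u hu => ?_) h2 h3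
      by_cases e : u = i
      · simp [e]
      · simp only [e, if_false]; exact hf u (by omega)

/-- The backtracking order. -/
def steps : List (ℕ × List ℕ) := [(0, []), (0, []), (1, []), (2, [3]), (0, [4]), (1, [5]), (2, [6]),
  (3, []), (7, []), (8, [9]), (8, []), (11, []), (12, [10]), (9, [13]), (11, [14]), (9, [12, 15])]

lemma run : ∀ r ∈ ([-2, -1, 0, 1, 2, 3] : List ℤ), go steps 1 (fun _ => r) = true := by
  decide +kernel

lemma arith (c : ℕ → ℤ) (h : ∀ e, c (p e) + c (q e) = 0 ∨ c (p e) + c (q e) = 2) :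
    fin c = true := by
  have hv : Valid c steps 1 := by
    simp only [Valid, steps, List.mem_cons, List.not_mem_nil, or_false, forall_eq_or_imp,
      forall_eq]
    exact ⟨⟨by omega, h 1⟩, ⟨by omega, h 2⟩, ⟨by omega, h 3⟩, ⟨⟨by omega, h 4⟩, by omega, h 5⟩,
      ⟨⟨by omega, h 6⟩, by omega, h 7⟩, ⟨⟨by omega, h 8⟩, by omega, h 9⟩,
      ⟨⟨by omega, h 10⟩, by omega, h 11⟩, ⟨by omega, h 12⟩, ⟨by omega, h 13⟩,
      ⟨⟨by omega, h 14⟩, by omega, h 15⟩, ⟨by omega, h 16⟩, ⟨by omega, h 17⟩,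
      ⟨⟨by omega, h 0⟩, by omega, h 18⟩, ⟨⟨by omega, h 19⟩, by omega, h 20⟩,
      ⟨⟨by omega, h 21⟩, by omega, h 22⟩, ⟨⟨by omega, h 23⟩, ⟨by omega, h 24⟩, by omega, h 25⟩,
      trivial⟩
  refine sound c steps 1 (fun _ => c 0) (fun u hu => by rw [show u = 0 by omega]) hv (run _ ?_)
  have a1 : c 1 + c 0 = 0 ∨ c 1 + c 0 = 2 := h 1
  have a2 : c 2 + c 0 = 0 ∨ c 2 + c 0 = 2 := h 2
  have a3 : c 3 + c 1 = 0 ∨ c 3 + c 1 = 2 := h 3
  have a4 : c 4 + c 2 = 0 ∨ c 4 + c 2 = 2 := h 4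
  have a5 : c 4 + c 3 = 0 ∨ c 4 + c 3 = 2 := h 5
  simp only [List.mem_cons, List.not_mem_nil, or_false]
  omega

lemma double (c : ℕ → ℤ) : ∑ e, w e * (c (p e) + c (q e)) = 16 * ∑ u ∈ range 17, c u := by
  have e1 : ∀ e, c (p e) + c (q e) = ∑ u ∈ range 17, if p e = u ∨ q e = u then c u else 0 := by
    intro e
    have := pq e
    rw [← sum_filter, show (range 17).filter (fun u => p e = u ∨ q e = u) = {p e, q e} by
      ext u; simp only [mem_filter, mem_range, mem_insert, mem_singleton]; omega,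
      sum_pair (by omega)]
  simp only [e1, mul_sum]
  rw [sum_comm]
  refine sum_congr rfl (fun u hu => ?_)
  rw [← w_star ⟨u, mem_range.1 hu⟩, sum_mul, star, sum_filter]
  exact sum_congr rfl (fun e _ => by split_ifs <;> simp)

theorem G_se : StronglyEquistable G := by
  intro T hT hns γ hγ
  have base : ∀ S, MaxStable G S → ∑ v ∈ S, (w v : ℝ) / 16 = 1 := by
    intro S hS
    obtain ⟨u, hu, rfl⟩ := max_star hS
    have : ((∑ f ∈ star u, w f : ℤ) : ℝ) = 16 := by rw [w_star ⟨u, hu⟩]; norm_num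
    rw [← sum_div, ← Int.cast_sum, this]; norm_num
  have bpos : ∀ v, 0 < (w v : ℝ) / 16 := fun v => by
    have : (0 : ℝ) < w v := by exact_mod_cast w_pos v
    positivity
  by_cases h0 : ∑ v ∈ T, (w v : ℝ) / 16 ≠ γ
  · exact ⟨_, bpos, base, h0⟩
  push Not at h0
  by_cases hd : ∃ e, ∑ f ∈ T, d e f ≠ 0
  · obtain ⟨e, he⟩ := hd
    refine ⟨fun v => (w v : ℝ) / 16 + (d e v : ℝ) / 160, fun v => ?_, fun S hS => ?_, ?_⟩
    · have : (0 : ℝ) < 10 * w v + d e v := by exact_mod_cast w_d e v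
      linarith
    · rw [sum_add_distrib, base S hS]
      obtain ⟨u, hu, rfl⟩ := max_star hS
      rw [← sum_div, ← Int.cast_sum, d_star e ⟨u, hu⟩]; simp
    · rw [sum_add_distrib, h0, ← sum_div, ← Int.cast_sum]
      have : ((∑ f ∈ T, d e f : ℤ) : ℝ) ≠ 0 := by exact_mod_cast he
      intro h
      apply this
      linarith
  exfalso
  push Not at hd
  set c : ℕ → ℤ := fun u => ∑ f ∈ T, M u f with hc
  have key : ∀ e, c (p e) + c (q e) = if e ∈ T then 2 else 0 := by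
    intro e
    have := hd e
    simp only [d, sum_sub_distrib, sum_add_distrib, sum_ite_eq'] at this
    simp only [hc]
    linarith
  have h := arith c (fun e => by rw [key]; split_ifs <;> simp)
  simp only [fin, Bool.or_eq_true, decide_eq_true_eq, List.all_eq_true, List.any_eq_true,
    List.mem_range, beq_iff_eq] at h
  rcases h with (h | h) | ⟨v, hv, h⟩
  · have h2 := double c
    simp only [key, mul_ite, mul_zero, ← sum_filter, filter_mem_eq_inter, univ_inter,
      ← sum_mul] at h2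
    have h3 : (16 : ℤ) < ∑ e ∈ T, w e := by omega
    have h4 : (16 : ℝ) < ∑ e ∈ T, (w e : ℝ) := by exact_mod_cast h3
    rw [← sum_div] at h0
    linarith
  · obtain ⟨e, he⟩ := hT
    have := key e
    have a := pq e
    rw [h _ a.1, h _ (by omega), if_pos he] at this
    omega
  · apply hns
    have : T = star v := by
      ext e
      have := key e
      have a := pq e
      rw [h _ a.1, h _ (by omega)] at this
      simp only [star, mem_filter, mem_univ, true_and]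
      split_ifs at this <;> simp_all
    rw [this]
    exact (maxStable_iff _ _).2 (star_max ⟨v, hv⟩)

instance : DecidableRel (subst G 0 (⊤ : SimpleGraph (Fin 2))).Adj := by
  rintro (a | a) (b | b) <;> unfold subst <;> infer_instance

/-- Stars in the substituted graph. -/
def st (u : ℕ) : Finset ({u : Fin 26 // u ≠ 0} ⊕ Fin 2) :=
  univ.filter (fun x => Sum.elim (fun a => p a.1 == u || q a.1 == u) (fun b => u == 12 + b.val) x
    = true)

/-- The set of constant weight one. -/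
def bad : Finset ({u : Fin 26 // u ≠ 0} ⊕ Fin 2) :=
  {Sum.inr 0, Sum.inr 1, Sum.inl ⟨12, by decide⟩, Sum.inl ⟨13, by decide⟩}

set_option synthInstance.maxSize 2000 in
lemma st_max : ∀ u : Fin 17, (∀ a ∈ st u, ∀ b ∈ st u, ¬ (subst G 0 ⊤).Adj a b) ∧
    ∀ w, w ∉ st u → ∃ s ∈ st u, (subst G 0 ⊤).Adj s w := by decide +kernel

/-- Coefficients of the stars. -/
def lab : Fin 17 → ℤ := ![0, 0, 0, 0, 0, 0, 0, 0, 1, 1, -1, -1, 1, 1, -1, 1, -1]

lemma comb : ∀ x, (if x ∈ bad then 1 else 0 : ℤ) =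
    ∑ u : Fin 17, if x ∈ st u then lab u else 0 := by decide +kernel

theorem not_se : ¬ StronglyEquistable (subst G 0 (⊤ : SimpleGraph (Fin 2))) := by
  intro h
  obtain ⟨φ, -, h2, h3⟩ := h bad ⟨Sum.inr 0, by simp [bad]⟩ (fun hm =>
    ((maxStable_iff _ _).1 hm).1 (Sum.inr 0) (by simp [bad]) (Sum.inr 1) (by simp [bad])
      (by decide)) 1 le_rfl
  apply h3
  have e1 : ∑ v ∈ bad, φ v = ∑ v, ((if v ∈ bad then 1 else 0 : ℤ) : ℝ) * φ v := by
    simp [sum_ite_mem]
  have e2 : ∀ u : Fin 17, ∑ v, ((if v ∈ st u then lab u else 0 : ℤ) : ℝ) * φ v = lab u := by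
    intro u
    have := h2 _ ((maxStable_iff _ _).2 (st_max u))
    simp [sum_ite_mem, ← mul_sum, this]
  rw [e1]
  simp only [comb, Int.cast_sum, sum_mul]
  rw [sum_comm]
  simp only [e2]
  rw [← Int.cast_sum, show ∑ u, lab u = 1 by decide +kernel]
  simp

end Pool.Agent.H25.Equi
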