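import Mathlib

set_option autoImplicit false

namespace Pool.Agent.H25.Equi

/-- S is a maximal stable set of G. -/
def MaxStable {V : Type} (G : SimpleGraph V) (S : Finset V) : Prop :=
  Maximal (fun T : Finset V => G.IsIndepSet (T : Set V)) S

/-- G is strongly equistable. -/
def StronglyEquistable {V : Type} (G : SimpleGraph V) : Prop :=
  ∀ T : Finset V, T.Nonempty → ¬ MaxStable G T → ∀ γ : ℝ, γ ≤ 1 →
    ∃ φ : V → ℝ, (∀ v, 0 < φ v) ∧ (∀ S, MaxStable G S → ∑ v ∈ S, φ v = 1) ∧ ∑ v ∈ T, φ v ≠ γ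

/-- Substitution of H for the vertex v of G. -/
def subst {V W : Type} (G : SimpleGraph V) (v : V) (H : SimpleGraph W) :
    SimpleGraph ({u : V // u ≠ v} ⊕ W) where
  Adj
    | Sum.inl a, Sum.inl b => G.Adj a.1 b.1
    | Sum.inl a, Sum.inr _ => G.Adj a.1 v
    | Sum.inr _, Sum.inl b => G.Adj v b.1
    | Sum.inr a, Sum.inr b => H.Adj a b
  symm := ⟨by rintro (a | a) (b | b) h <;> exact h.symm⟩
  loopless := ⟨by rintro (a | a) h <;> exact h.ne rfl⟩

end Pool.Agent.H25.Equi
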