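import Mathlib

namespace Pool.Agent.H25.Evc

def force {α : Type} (x : ℕ) (f : ℕ → α) : α :=
  match x with
  | 0 => f 0
  | n + 1 => f (n + 1)

lemma force_eq {α : Type} (x : ℕ) (f : ℕ → α) : force x f = f x := by
  cases x <;> rfl

/-- run `f (b + i)` on every set bit `i` of `x` -/
def allB (f : ℕ → Bool) : ℕ → ℕ → ℕ → Bool
  | 0, b, x => x == 0 || (x == 1 && f b)
  | d + 1, b, x => x == 0 ||
      (force (x % 2 ^ (2 ^ d)) (allB f d b) &&
        force (b + 2 ^ d) (fun b' => force (x >>> (2 ^ d)) (allB f d b')))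

lemma allB_sound (f : ℕ → Bool) : ∀ d b x, allB f d b x = true → ∀ i, x.testBit i = true →
    f (b + i) = true
  | 0, b, x, h, i, hi => by
    simp only [allB, Bool.or_eq_true, beq_iff_eq, Bool.and_eq_true] at h
    rcases h with h | ⟨h, h2⟩
    · subst h; simp at hi
    · subst h
      rw [Nat.testBit_one_eq_true_iff_self_eq_zero] at hi
      subst hi; exact h2
  | d + 1, b, x, h, i, hi => by
    simp only [allB, force_eq, Bool.or_eq_true, beq_iff_eq, Bool.and_eq_true] at h
    rcases h with h | ⟨h1, h2⟩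
    · subst h; simp at hi
    · by_cases e : i < 2 ^ d
      · apply allB_sound f d b _ h1 i
        rw [Nat.testBit_mod_two_pow, hi]; simp [e]
      · have := allB_sound f d _ _ h2 (i - 2 ^ d) (by
          rw [Nat.testBit_shiftRight]
          rwa [show 2 ^ d + (i - 2 ^ d) = i by omega])
        rwa [show b + 2 ^ d + (i - 2 ^ d) = b + i by omega] at this

def p6 : ℕ → ℕ
  | 0 => 1
  | 1 => 6
  | 2 => 36
  | 3 => 216
  | _ => 1296

def dg (s v : ℕ) : ℕ := s / p6 v % 6
def upd (s v x : ℕ) : ℕ := s + x * p6 v - dg s v * p6 v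
def nm (m v : ℕ) : ℕ := if (m ||| 2 ^ v) == 31 then 0 else m ||| 2 ^ v
def inT (T : List ℕ) (s m : ℕ) : Bool := (T.getD m 0).testBit s

lemma dg_upd (s : ℕ) (v w : Fin 5) (x : ℕ) (hx : x ≤ 5) :
    dg (upd s v x) w = if w = v then x else dg s w := by
  fin_cases v <;> fin_cases w <;> simp [dg, upd, p6] <;> omega

def level (T : List ℕ) (f : ℕ → ℕ → Bool) : Bool :=
  (List.range 32).all (fun m => force (T.getD m 0) (allB (fun s => f s m) 13 0))

lemma level_sound (T : List ℕ) (f : ℕ → ℕ → Bool) (h : level T f = true) (s m : ℕ) (hm : m < 32)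
    (hs : inT T s m = true) : f s m = true := by
  unfold level at h
  rw [List.all_eq_true] at h
  have := h m (List.mem_range.mpr hm)
  rw [force_eq] at this
  simpa using allB_sound _ _ _ _ this s hs

end Pool.Agent.H25.Evc
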