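import Mathlib

set_option autoImplicit false

/-! Graphs that become linear forests after deleting at most two vertices. -/

namespace Pool.Agent.H25.Fans

/-- `τ` labels the vertices injectively; labels 0 and 1 are hubs, and an edge between two
non-hubs never jumps over a label in use. -/
def Good {V : Type} (G : SimpleGraph V) (τ : V → ℕ) : Prop :=
  Function.Injective τ ∧ ∀ u v w, G.Adj u v → ¬ (2 ≤ τ u ∧ τ u < τ w ∧ τ w < τ v)

/-- An induced minor model. -/
def Model {V W : Type} (G : SimpleGraph V) (H : SimpleGraph W) (B : W → Set V) : Prop :=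
  (∀ i, (G.induce (B i)).Connected) ∧ (∀ i j, i ≠ j → Disjoint (B i) (B j)) ∧
    (∀ i j, i ≠ j → (H.Adj i j ↔ ∃ u ∈ B i, ∃ v ∈ B j, G.Adj u v))

lemma cross {V : Type} {G : SimpleGraph V} {B : Set V} (hB : (G.induce B).Connected) (A : Set V)
    {a b : V} (ha : a ∈ B) (hb : b ∈ B) (haA : a ∈ A) (hbA : b ∉ A) :
    ∃ x ∈ B, ∃ y ∈ B, x ∈ A ∧ y ∉ A ∧ G.Adj x y := by
  obtain ⟨p⟩ := hB.preconnected ⟨a, ha⟩ ⟨b, hb⟩
  obtain ⟨d, -, h1, h2⟩ := p.exists_boundary_dart {x | x.1 ∈ A} haA hbA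
  exact ⟨d.fst.1, d.fst.2, d.snd.1, d.snd.2, h1, h2, d.adj⟩

lemma closure {V W : Type} {G : SimpleGraph V} {H : SimpleGraph W} {B : W → Set V} {τ : V → ℕ}
    (hG : Good G τ) (hM : Model G H B) :
    ∃ τ' : W → ℕ, Good H τ' ∧ ∀ i, ∃ u ∈ B i, τ' i = τ u := by
  obtain ⟨h1, h2, h3⟩ := hM
  have hmin : ∀ i, ∃ u ∈ B i, ∀ v ∈ B i, τ u ≤ τ v := by
    intro i
    obtain ⟨⟨x, hx⟩⟩ := (h1 i).nonempty
    exact ⟨Function.argminOn τ (B i) ⟨x, hx⟩, Function.argminOn_mem _ _ _,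
      fun v hv => Function.argminOn_le τ (B i) hv⟩
  choose m hm hle using hmin
  have hne : ∀ i j, i ≠ j → ∀ u ∈ B i, ∀ v ∈ B j, τ u ≠ τ v := by
    intro i j hij u hu v hv h
    exact Set.disjoint_left.1 (h2 i j hij) hu (hG.1 h ▸ hv)
  refine ⟨fun i => τ (m i), ⟨fun i j h => ?_, fun i j l hij ⟨a1, a2, a3⟩ => ?_⟩,
    fun i => ⟨m i, hm i, rfl⟩⟩
  · by_contra hij
    exact hne i j hij _ (hm i) _ (hm j) h
  · obtain ⟨u, hu, v, hv, huv⟩ := (h3 i j hij.ne).1 hij
    have hil : i ≠ l := fun h => by rw [h] at a2; exact lt_irrefl _ a2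
    have b1 : τ u < τ (m l) := by
      by_contra hlt
      obtain ⟨x, hx, y, hy, c1, c2, hxy⟩ := cross (h1 i) {x | τ x < τ (m l)} (hm i) hu a2 hlt
      have c3 := hne i l hil y hy _ (hm l)
      have c4 := hle i x hx
      simp only [Set.mem_ofPred_eq] at c1 c2 a1
      exact hG.2 x y (m l) hxy ⟨by omega, c1, by omega⟩
    have b2 := hle j v hv
    have b3 := hle i u hu
    simp only at a1 a3
    exact hG.2 u v (m l) huv ⟨by omega, b1, by omega⟩

lemma hub {V : Type} {G : SimpleGraph V} {τ : V → ℕ} (hG : Good G τ) (u : V) (nb : Fin 5 → V)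
    (hinj : Function.Injective nb) (hadj : ∀ k, G.Adj u (nb k)) : τ u ≤ 1 := by
  by_contra hu
  let c : Fin 5 → Fin 4 := fun k =>
    if τ (nb k) = 0 then 0 else if τ (nb k) = 1 then 1 else if τ (nb k) < τ u then 2 else 3
  obtain ⟨k, l, hkl, h⟩ := Fintype.exists_ne_map_eq_of_card_lt c (by simp)
  have a1 : τ (nb k) ≠ τ (nb l) := fun h => hkl (hinj (hG.1 h))
  have a2 : τ (nb k) ≠ τ u := fun h => (hadj k).ne' (hG.1 h)
  have a3 : τ (nb l) ≠ τ u := fun h => (hadj l).ne' (hG.1 h)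
  have b1 := hG.2 u (nb k) (nb l) (hadj k)
  have b2 := hG.2 u (nb l) (nb k) (hadj l)
  have b3 := hG.2 (nb k) u (nb l) (hadj k).symm
  have b4 := hG.2 (nb l) u (nb k) (hadj l).symm
  simp only [c] at h
  split_ifs at h <;> omega

/-- First coordinate of the point with label n. -/
noncomputable def X (n : ℕ) : ℝ := if n ≤ 1 then 0 else n
/-- Second coordinate of the point with label n. -/
noncomputable def Y (n : ℕ) : ℝ := if n = 0 then 1 else if n = 1 then -1 else 0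

/-- Shape of the open segment between two labelled points. -/
def Sh (a b : ℕ) (x y : ℝ) : Prop :=
  (a = 0 ∧ b = 1 ∧ x = 0 ∧ -1 < y ∧ y < 1) ∨
  (a = 0 ∧ 2 ≤ b ∧ 0 < y ∧ y < 1 ∧ x = (1 - y) * b) ∨
  (a = 1 ∧ 2 ≤ b ∧ -1 < y ∧ y < 0 ∧ x = (1 + y) * b) ∨
  (2 ≤ a ∧ a < b ∧ y = 0 ∧ (a : ℝ) < x ∧ x < b)

lemma sh_lt {a b : ℕ} (h : a < b) {s : ℝ} (h0 : 0 < s) (h1 : s < 1) :
    Sh a b ((1 - s) * X a + s * X b) ((1 - s) * Y a + s * Y b) := by
  by_cases ha : 2 ≤ a
  · have e1 : X a = a := if_neg (by omega)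
    have e2 : X b = b := if_neg (by omega)
    have e3 : Y a = 0 := by simp only [Y]; rw [if_neg (by omega), if_neg (by omega)]
    have e4 : Y b = 0 := by simp only [Y]; rw [if_neg (by omega), if_neg (by omega)]
    have : (a : ℝ) < b := by exact_mod_cast h
    rw [e1, e2, e3, e4]
    exact Or.inr (Or.inr (Or.inr ⟨ha, h, by ring, by nlinarith, by nlinarith⟩))
  by_cases hb : 2 ≤ b
  · have e2 : X b = b := if_neg (by omega)
    have e4 : Y b = 0 := by simp only [Y]; rw [if_neg (by omega), if_neg (by omega)]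
    have e1 : X a = 0 := if_pos (by omega)
    rw [e1, e2, e4]
    by_cases h0' : a = 0
    · have e3 : Y a = 1 := if_pos h0'
      rw [e3]
      exact Or.inr (Or.inl ⟨h0', hb, by linarith, by linarith, by ring⟩)
    · have e3 : Y a = -1 := by simp only [Y]; rw [if_neg h0', if_pos (by omega)]
      rw [e3]
      exact Or.inr (Or.inr (Or.inl ⟨by omega, hb, by linarith, by linarith, by ring⟩))
  · obtain rfl : a = 0 := by omega
    obtain rfl : b = 1 := by omega
    refine Or.inl ⟨rfl, rfl, by simp [X], ?_, ?_⟩ <;> simp [Y] <;> linarith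

lemma sh_ne {a b : ℕ} (h : a ≠ b) {s : ℝ} (h0 : 0 < s) (h1 : s < 1) :
    Sh a b ((1 - s) * X a + s * X b) ((1 - s) * Y a + s * Y b) ∨
    Sh b a ((1 - s) * X a + s * X b) ((1 - s) * Y a + s * Y b) := by
  rcases lt_or_gt_of_ne h with h | h
  · exact Or.inl (sh_lt h h0 h1)
  · right
    have := sh_lt h (s := 1 - s) (by linarith) (by linarith)
    convert this using 1 <;> ring

lemma sh_vertex {a b c : ℕ} (h : Sh a b (X c) (Y c)) (hb : ¬ (2 ≤ a ∧ a < c ∧ c < b)) :
    False := by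
  by_cases hc : 2 ≤ c
  · have e2 : X c = c := if_neg (by omega)
    have e4 : Y c = 0 := by simp only [Y]; rw [if_neg (by omega), if_neg (by omega)]
    have : (2 : ℝ) ≤ c := by exact_mod_cast hc
    rw [e2, e4] at h
    rcases h with h | h | h | h
    · linarith [h.2.2.1]
    · linarith [h.2.2.1]
    · linarith [h.2.2.2.1]
    · exact hb ⟨h.1, by exact_mod_cast h.2.2.2.1, by exact_mod_cast h.2.2.2.2⟩
  · have : Y c = 1 ∨ Y c = -1 := by
      by_cases h0 : c = 0
      · exact Or.inl (if_pos h0)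
      · right; simp only [Y]; rw [if_neg h0, if_pos (by omega)]
    rcases this with e | e <;> rw [e] at h <;> rcases h with h | h | h | h <;>
      obtain ⟨-, -, h3, h4, h5⟩ := h <;> linarith

lemma sh_edge {a b c d : ℕ} {x y : ℝ} (h : Sh a b x y) (h' : Sh c d x y)
    (p1 : ¬ (2 ≤ a ∧ a < c ∧ c < b)) (p2 : ¬ (2 ≤ a ∧ a < d ∧ d < b))
    (p3 : ¬ (2 ≤ c ∧ c < a ∧ a < d)) (p4 : ¬ (2 ≤ c ∧ c < b ∧ b < d)) :
    a = c ∧ b = d := by
  rcases h with ⟨rfl, rfl, h3, h4, h5⟩ | ⟨rfl, h2, h3, h4, h5⟩ | ⟨rfl, h2, h3, h4, h5⟩ |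
      ⟨h1, h2, h3, h4, h5⟩ <;>
    rcases h' with ⟨rfl, rfl, k3, k4, k5⟩ | ⟨rfl, k2, k3, k4, k5⟩ | ⟨rfl, k2, k3, k4, k5⟩ |
      ⟨k1, k2, k3, k4, k5⟩
  · exact ⟨rfl, rfl⟩
  · have : (2 : ℝ) ≤ d := by exact_mod_cast k2
    nlinarith
  · have : (2 : ℝ) ≤ d := by exact_mod_cast k2
    nlinarith
  · have : (2 : ℝ) ≤ c := by exact_mod_cast k1
    linarith
  · have : (2 : ℝ) ≤ b := by exact_mod_cast h2
    nlinarith
  · refine ⟨rfl, ?_⟩
    have : (b : ℝ) = d := mul_left_cancel₀ (show (1 - y) ≠ 0 by linarith) (h5.symm.trans k5)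
    exact_mod_cast this
  · linarith
  · linarith
  · have : (2 : ℝ) ≤ b := by exact_mod_cast h2
    nlinarith
  · linarith
  · refine ⟨rfl, ?_⟩
    have : (b : ℝ) = d := mul_left_cancel₀ (show (1 + y) ≠ 0 by linarith) (h5.symm.trans k5)
    exact_mod_cast this
  · linarith
  · have : (2 : ℝ) ≤ a := by exact_mod_cast h1
    linarith
  · linarith
  · linarith
  · have e1 : a < d := by exact_mod_cast h4.trans k5
    have e2 : c < b := by exact_mod_cast k4.trans h5
    omega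

theorem planar {n : ℕ} {G : SimpleGraph (Fin n)} {τ : Fin n → ℕ} (hG : Good G τ) :
    ∃ f : Fin n → ℝ × ℝ, Function.Injective f ∧
      ∃ γ : (i j : Fin n) → Path (f i) (f j),
        (∀ i j, G.Adj i j → i < j → Function.Injective ⇑(γ i j)) ∧
        (∀ i j, G.Adj i j → i < j → ∀ t : unitInterval, (t : ℝ) ∈ Set.Ioo (0 : ℝ) 1 →
            ∀ v, γ i j t ≠ f v) ∧
        (∀ i j k l, G.Adj i j → i < j → G.Adj k l → k < l → (i ≠ k ∨ j ≠ l) →
          ∀ s t : unitInterval, (s : ℝ) ∈ Set.Ioo (0 : ℝ) 1 → (t : ℝ) ∈ Set.Ioo (0 : ℝ) 1 →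
            γ i j s ≠ γ k l t) := by
  have hinj : Function.Injective (fun v => (X (τ v), Y (τ v))) := by
    intro u v h
    apply hG.1
    simp only [Prod.mk.injEq, X, Y] at h
    obtain ⟨h1, h2⟩ := h
    split_ifs at h1 h2 <;> first | omega | (exfalso; linarith) | exact_mod_cast h1
  have seg : ∀ (i j : Fin n) (t : unitInterval),
      Path.segment (X (τ i), Y (τ i)) (X (τ j), Y (τ j)) t =
        ((1 - t) * X (τ i) + t * X (τ j), (1 - t) * Y (τ i) + t * Y (τ j)) := by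
    intro i j t
    rw [Path.segment_apply, AffineMap.lineMap_apply_module]
    simp
  refine ⟨fun v => (X (τ v), Y (τ v)), hinj, fun i j => Path.segment _ _,
    fun i j h _ => Path.segment_injective_of_ne (hinj.ne h.ne), ?_, ?_⟩
  · intro i j h _ t ht v he
    rw [seg, Prod.mk.injEq] at he
    have := sh_ne (hG.1.ne h.ne) ht.1 ht.2
    rw [he.1, he.2] at this
    rcases this with h' | h'
    · exact sh_vertex h' (hG.2 i j v h)
    · exact sh_vertex h' (hG.2 j i v h.symm)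
  · intro i j k l h hij h' hkl hne s t hs ht he
    rw [seg, seg, Prod.mk.injEq] at he
    have a := sh_ne (hG.1.ne h.ne) hs.1 hs.2
    have b := sh_ne (hG.1.ne h'.ne) ht.1 ht.2
    rw [he.1, he.2] at a
    rcases a with a | a <;> rcases b with b | b
    · have := sh_edge a b (hG.2 _ _ _ h) (hG.2 _ _ _ h) (hG.2 _ _ _ h') (hG.2 _ _ _ h')
      have e1 := hG.1 this.1
      have e2 := hG.1 this.2
      omega
    · have := sh_edge a b (hG.2 _ _ _ h) (hG.2 _ _ _ h) (hG.2 _ _ _ h'.symm) (hG.2 _ _ _ h'.symm)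
      have e1 := hG.1 this.1
      have e2 := hG.1 this.2
      omega
    · have := sh_edge a b (hG.2 _ _ _ h.symm) (hG.2 _ _ _ h.symm) (hG.2 _ _ _ h') (hG.2 _ _ _ h')
      have e1 := hG.1 this.1
      have e2 := hG.1 this.2
      omega
    · have := sh_edge a b (hG.2 _ _ _ h.symm) (hG.2 _ _ _ h.symm) (hG.2 _ _ _ h'.symm)
        (hG.2 _ _ _ h'.symm)
      have e1 := hG.1 this.1
      have e2 := hG.1 this.2
      omega

/-- The alternating double fan. -/
def fan (m : ℕ) : SimpleGraph (Fin (m + 14)) :=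
  SimpleGraph.fromRel (fun u v => (2 ≤ u.val ∧ v.val = u.val + 1) ∨
    (u.val = v.val % 2 ∧ 3 ≤ v.val ∧ v.val ≤ m + 12))

lemma fan_adj {m : ℕ} (u v : Fin (m + 14)) : (fan m).Adj u v ↔
    (2 ≤ u.val ∧ v.val = u.val + 1) ∨ (u.val = v.val % 2 ∧ 3 ≤ v.val ∧ v.val ≤ m + 12) ∨
    (2 ≤ v.val ∧ u.val = v.val + 1) ∨ (v.val = u.val % 2 ∧ 3 ≤ u.val ∧ u.val ≤ m + 12) := by
  simp only [fan, SimpleGraph.fromRel_adj, ne_eq, Fin.ext_iff]
  omega

lemma fan_good (m : ℕ) : Good (fan m) Fin.val :=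
  ⟨Fin.val_injective, fun u v w h => by rw [fan_adj] at h; omega⟩

theorem antichain {i j : ℕ} (hij : i < j) (B : Fin (i + 14) → Set (Fin (j + 14))) :
    ¬ Model (fan j) (fan i) B := by
  intro hM
  obtain ⟨τ, hτ, hm⟩ := closure (fan_good j) hM
  obtain ⟨h1, h2, h3⟩ := hM
  have hub' : ∀ c : Fin (i + 14), c.val ≤ 1 → ∃ u ∈ B c, u.val ≤ 1 := by
    intro c hc
    obtain ⟨u, hu, e⟩ := hm c
    refine ⟨u, hu, e ▸ hub hτ c (fun k => ⟨2 * k.val + 4 - c.val, by omega⟩) (fun k l h => ?_)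
      (fun k => ?_)⟩
    · simp only [Fin.ext_iff] at h ⊢; omega
    · rw [fan_adj]; simp only; omega
  obtain ⟨a, ha, ha'⟩ := hub' ⟨0, by omega⟩ (by simp)
  obtain ⟨b, hb, hb'⟩ := hub' ⟨1, by omega⟩ (by simp)
  have dis : ∀ c d : Fin (i + 14), c.val ≠ d.val → ∀ u ∈ B c, ∀ v ∈ B d, u.val ≠ v.val := by
    intro c d hcd u hu v hv h
    exact Set.disjoint_left.1 (h2 c d (fun e => hcd (congrArg _ e))) hu (Fin.ext h ▸ hv)
  have hab := dis _ _ (by simp) a ha b hb
  have nohub : ∀ c : Fin (i + 14), 2 ≤ c.val → ∀ u ∈ B c, 2 ≤ u.val := by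
    intro c hc u hu
    have e1 := dis c ⟨0, by omega⟩ (by simp only; omega) u hu a ha
    have e2 := dis c ⟨1, by omega⟩ (by simp only; omega) u hu b hb
    omega
  have inta : ∀ c : Fin (i + 14), 2 ≤ c.val → ∀ u ∈ B c, 3 ≤ u.val → u.val ≤ j + 12 →
      a.val = u.val % 2 → c.val % 2 = 0 ∧ 3 ≤ c.val ∧ c.val ≤ i + 12 := by
    intro c hc u hu u1 u2 u3
    have := (h3 ⟨0, by omega⟩ c (fun e => by rw [← e] at hc; simp at hc)).2
      ⟨a, ha, u, hu, by rw [fan_adj]; omega⟩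
    rw [fan_adj] at this
    simp only at this
    omega
  have intb : ∀ c : Fin (i + 14), 2 ≤ c.val → ∀ u ∈ B c, 3 ≤ u.val → u.val ≤ j + 12 →
      b.val = u.val % 2 → c.val % 2 = 1 ∧ 3 ≤ c.val ∧ c.val ≤ i + 12 := by
    intro c hc u hu u1 u2 u3
    have := (h3 ⟨1, by omega⟩ c (fun e => by rw [← e] at hc; simp at hc)).2
      ⟨b, hb, u, hu, by rw [fan_adj]; omega⟩
    rw [fan_adj] at this
    simp only at this
    omega
  have ends : ∀ c : Fin (i + 14), (c.val = 2 ∨ c.val = i + 13) → ∀ u ∈ B c,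
      u.val = 2 ∨ u.val = j + 13 := by
    intro c hc u hu
    have e0 := nohub c (by omega) u hu
    have e1 := inta c (by omega) u hu
    have e2 := intb c (by omega) u hu
    have := u.2
    omega
  obtain ⟨⟨p, hp⟩⟩ := (h1 ⟨2, by omega⟩).nonempty
  obtain ⟨⟨q, hq⟩⟩ := (h1 ⟨i + 13, by omega⟩).nonempty
  have p1 := ends _ (by simp) p hp
  have q1 := ends _ (by simp) q hq
  have pq := dis _ _ (by simp) p hp q hq
  have single : ∀ c : Fin (i + 14), 2 ≤ c.val → ∀ u ∈ B c, ∀ w ∈ B c, u = w := by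
    intro c hc u hu w hw
    by_contra hne
    obtain ⟨x, hx, y, hy, -, -, hxy⟩ := cross (h1 c) {u} hu hw rfl (Ne.symm hne)
    rw [fan_adj] at hxy
    have x0 := nohub c hc x hx
    have y0 := nohub c hc y hy
    by_cases hend : c.val = 2 ∨ c.val = i + 13
    · have := ends c hend x hx
      have := ends c hend y hy
      omega
    · have x1 := dis c ⟨2, by omega⟩ (by simp only; omega) x hx p hp
      have x2 := dis c ⟨i + 13, by omega⟩ (by simp only; omega) x hx q hq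
      have y1 := dis c ⟨2, by omega⟩ (by simp only; omega) y hy p hp
      have y2 := dis c ⟨i + 13, by omega⟩ (by simp only; omega) y hy q hq
      have x3 := inta c hc x hx
      have x4 := intb c hc x hx
      have y3 := inta c hc y hy
      have y4 := intb c hc y hy
      have := x.2
      have := y.2
      omega
  have main : ∀ k (hk : k + 2 < i + 14), ∀ u ∈ B ⟨k + 2, hk⟩,
      u.val ≤ p.val + k ∧ p.val ≤ u.val + k := by
    intro k
    induction k with
    | zero => intro hk u hu; rw [single _ (by simp) u hu p hp]; omega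
    | succ k ih =>
      intro hk u hu
      obtain ⟨x, hx, y, hy, hxy⟩ := (h3 ⟨k + 2, by omega⟩ ⟨k + 1 + 2, hk⟩
        (by simp [Fin.ext_iff])).1 ((fan_adj _ _).2 (Or.inl ⟨by simp, rfl⟩))
      have e1 := ih _ x hx
      have e2 := nohub _ (by simp) x hx
      have e3 := nohub _ (by simp) y hy
      rw [single _ (by simp) u hu y hy]
      rw [fan_adj] at hxy
      omega
  have := main (i + 11) (by omega) q hq
  omega

theorem wheel {k : ℕ} {τ : Fin (2 * k + 2) → ℕ}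
    (hG : Good (SimpleGraph.fromRel (fun a b : Fin (2 * k + 2) =>
          (a.val < 2 * k ∧ b.val < 2 * k ∧ b.val = (a.val + 1) % (2 * k)) ∨
          (a.val = 2 * k ∧ b.val < 2 * k ∧ b.val % 2 = 0) ∨
          (a.val = 2 * k + 1 ∧ b.val < 2 * k ∧ b.val % 2 = 1))) τ) : k ≤ 4 := by
  by_contra hk
  have a1 := hub hG ⟨2 * k, by omega⟩ (fun l => ⟨2 * l.val, by omega⟩)
    (fun l l' h => by simp only [Fin.ext_iff] at h ⊢; omega)
    (fun l => by
      rw [SimpleGraph.fromRel_adj]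
      exact ⟨by simp only [ne_eq, Fin.ext_iff]; omega,
        Or.inl (Or.inr (Or.inl ⟨rfl, by simp only; omega, by simp only; omega⟩))⟩)
  have a2 := hub hG ⟨2 * k + 1, by omega⟩ (fun l => ⟨2 * l.val + 1, by omega⟩)
    (fun l l' h => by simp only [Fin.ext_iff] at h ⊢; omega)
    (fun l => by
      rw [SimpleGraph.fromRel_adj]
      exact ⟨by simp only [ne_eq, Fin.ext_iff]; omega,
        Or.inl (Or.inr (Or.inr ⟨rfl, by simp only; omega, by simp only; omega⟩))⟩)
  have ne : ∀ u v : Fin (2 * k + 2), u.val ≠ v.val → τ u ≠ τ v :=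
    fun u v h e => h (congrArg _ (hG.1 e))
  have a3 := ne ⟨2 * k, by omega⟩ ⟨2 * k + 1, by omega⟩ (by simp)
  have big : ∀ u : Fin (2 * k + 2), u.val < 2 * k → 2 ≤ τ u := by
    intro u hu
    have e1 := ne u ⟨2 * k, by omega⟩ (by simp only; omega)
    have e2 := ne u ⟨2 * k + 1, by omega⟩ (by simp only; omega)
    omega
  obtain ⟨u, -, hu⟩ := Finset.exists_max_image Finset.univ τ Finset.univ_nonempty
  have hu' : ∀ v, τ v ≤ τ u := fun v => hu v (Finset.mem_univ v)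
  have ult : u.val < 2 * k := by
    have e1 := hu' ⟨0, by omega⟩
    have e2 := big ⟨0, by omega⟩ (by simp only; omega)
    by_contra h
    have := u.2
    have : u = ⟨2 * k, by omega⟩ ∨ u = ⟨2 * k + 1, by omega⟩ := by
      simp only [Fin.ext_iff]; omega
    rcases this with e | e <;> rw [e] at e1 <;> omega
  have md : ∀ x, x < 2 * k → (x + 1) % (2 * k) = if x + 1 = 2 * k then 0 else x + 1 := by
    intro x hx
    split_ifs with h
    · rw [h, Nat.mod_self]
    · exact Nat.mod_eq_of_lt (by omega)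
  obtain ⟨p, p1, p2⟩ : ∃ p : Fin (2 * k + 2), p.val < 2 * k ∧
      p.val = if u.val + 1 = 2 * k then 0 else u.val + 1 :=
    ⟨⟨if u.val + 1 = 2 * k then 0 else u.val + 1, by split_ifs <;> omega⟩,
      by simp only; split_ifs <;> omega, rfl⟩
  obtain ⟨q, q1, q2⟩ : ∃ q : Fin (2 * k + 2), q.val < 2 * k ∧
      u.val = if q.val + 1 = 2 * k then 0 else q.val + 1 :=
    ⟨⟨if u.val = 0 then 2 * k - 1 else u.val - 1, by split_ifs <;> omega⟩,
      by simp only; split_ifs <;> omega, by simp only; split_ifs <;> omega⟩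
  have pu : p.val ≠ u.val := by split_ifs at p2 <;> omega
  have qu : q.val ≠ u.val := by split_ifs at q2 <;> omega
  have pq : p.val ≠ q.val := by split_ifs at p2 q2 <;> omega
  have b1 := hG.2 p u q (by
    rw [SimpleGraph.fromRel_adj]
    exact ⟨fun e => pu (congrArg _ e), Or.inr (Or.inl ⟨ult, p1, by rw [md _ ult]; exact p2⟩)⟩)
  have b3 := big p p1
  have b2 := hG.2 q u p (by
    rw [SimpleGraph.fromRel_adj]
    exact ⟨fun e => qu (congrArg _ e), Or.inl (Or.inl ⟨q1, ult, by rw [md _ q1]; exact q2⟩)⟩)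
  have b4 := big q q1
  have c1 := ne _ _ pu
  have c2 := ne _ _ qu
  have c3 := ne _ _ pq
  have c4 := hu' p
  have c5 := hu' q
  omega

end Pool.Agent.H25.Fans
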