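import Pool.Agent.H25.Flat10

namespace Pool.Agent.H25.Flat10

theorem us_sl (y : ℕ) : us (sl y) = y := by
  unfold us sl
  have h : Nat.mod y 4294967291 < 2 ^ 32 := lt_trans (Nat.mod_lt y (by norm_num)) (by norm_num)
  show (y <<< 32 + Nat.mod y 4294967291) >>> 32 = y
  rw [Nat.shiftRight_eq_div_pow, Nat.shiftLeft_eq]
  omega

theorem pred_bits (x : ℕ) : ∃ l, ∀ i, x.testBit i = true → i = l ∨ (x - 1).testBit i = true := by
  induction x using Nat.strong_induction_on with
  | _ x ih =>
    rcases Nat.eq_zero_or_pos x with rfl | hx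
    · exact ⟨0, by simp⟩
    rcases Nat.mod_two_eq_zero_or_one x with h | h
    · obtain ⟨l, hl⟩ := ih (x / 2) (by omega)
      refine ⟨l + 1, fun i hi => ?_⟩
      cases i with
      | zero => simp [Nat.testBit_zero, h] at hi
      | succ i =>
        rw [Nat.testBit_succ] at hi ⊢
        rcases hl i hi with rfl | h'
        · exact Or.inl rfl
        · right
          have : (x - 1) / 2 = x / 2 - 1 := by omega
          rw [this]; exact h'
    · refine ⟨0, fun i hi => ?_⟩
      cases i with
      | zero => exact Or.inl rfl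
      | succ i =>
        right
        rw [Nat.testBit_succ] at hi ⊢
        have : (x - 1) / 2 = x / 2 := by omega
        rw [this]; exact hi

theorem few_sound (n : ℕ) : ∀ (x : ℕ) (A : Finset ℕ), few n x = true →
    (∀ i ∈ A, (us x).testBit i = true) → A.card ≤ n := by
  induction n with
  | zero =>
    intro x A h hA
    have h0 : us x = 0 := Nat.eq_of_beq_eq_true h
    have : A = ∅ := Finset.eq_empty_of_forall_notMem fun i hi => by simpa [h0] using hA i hi
    simp [this]
  | succ n ih =>
    intro x A h hA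
    have h' : (Nat.beq (us x) 0 || force (sl (Nat.land (us x) (Nat.sub (us x) 1))) (few n)) = true := h
    rw [force_eq, Bool.or_eq_true] at h'
    rcases h' with h0 | h1
    · have h0 : us x = 0 := Nat.eq_of_beq_eq_true h0
      have : A = ∅ := Finset.eq_empty_of_forall_notMem fun i hi => by simpa [h0] using hA i hi
      simp [this]
    · obtain ⟨l, hl⟩ := pred_bits (us x)
      have := ih _ (A.erase l) h1 (fun i hi => by
        rw [us_sl]
        have hi' := Finset.mem_erase.1 hi
        show (us x &&& (us x - 1)).testBit i = true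
        rw [Nat.testBit_and, hA i hi'.2, (hl i (hA i hi'.2)).resolve_left hi'.1]; rfl)
      have := Finset.pred_card_le_card_erase (s := A) (a := l)
      omega

set_option maxRecDepth 100000 in
theorem M_spec : ∀ i < 10, ∀ j < 1024, ((M i).testBit j = true ∧ 2 ^ i + j = j ^^^ 2 ^ i) ∨
    (2 ^ i ≤ j ∧ j - 2 ^ i = j ^^^ 2 ^ i ∧ (M i).testBit (j - 2 ^ i) = true) := by decide +kernel

theorem sh_sound (T i j : ℕ) (hi : i < 10) (hj : j < 1024) (h : T.testBit (j ^^^ 2 ^ i) = true) :
    (sh T i).testBit j = true := by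
  show (((T &&& M i) <<< (2 ^ i)) ||| ((T >>> (2 ^ i)) &&& M i)).testBit j = true
  rw [Nat.testBit_or, Nat.testBit_shiftLeft, Nat.testBit_and, Nat.testBit_and, Nat.testBit_shiftRight]
  rcases M_spec i hi j hj with ⟨h1, h2⟩ | ⟨h1, h2, h3⟩
  · rw [h2, h, h1]; simp
  · rw [h3, h2, h]; simp [h1]

theorem enum_sound (f : ℕ → ℕ → Bool) (piv prev T0 : ℕ) (b : ℕ) : b ≤ 10 → ∀ v T x : ℕ,
    enum f piv prev b v T = true → 2 ^ b ∣ v → x < 2 ^ b → prev < v + x →
    (∀ i, piv.testBit i = true → x.testBit i = false) →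
    (∀ j < 1024, T0.testBit (j ^^^ v) = true → (us T).testBit j = true) →
    ∃ T', f (v + x) T' = true ∧ ∀ j < 1024, T0.testBit (j ^^^ (v + x)) = true → (us T').testBit j = true := by
  induction b with
  | zero =>
    intro _ v T x h _ hx _ _ hT
    have : x = 0 := by simpa using hx
    subst this
    exact ⟨T, h, hT⟩
  | succ b ih =>
    intro hb v T x h hv hx hp hpiv hT
    have h' : (Nat.ble (v + 2 ^ (b + 1)) (prev + 1) ||
      (enum f piv prev b v T && (Nat.testBit piv b || force (v + 2 ^ b) fun v' =>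
        force (sl (sh (us T) b)) fun T' => enum f piv prev b v' T'))) = true := h
    rw [force_eq, force_eq] at h'
    simp only [Bool.or_eq_true, Bool.and_eq_true, Nat.ble_eq] at h'
    rcases h' with h1 | ⟨h1, h2⟩
    · omega
    have hvb : 2 ^ b ∣ v := dvd_trans (pow_dvd_pow 2 (Nat.le_succ b)) hv
    by_cases hxb : x < 2 ^ b
    · exact ih (by omega) v T x h1 hvb hxb hp hpiv hT
    · have hx2 : x < 2 * 2 ^ b := by rw [pow_succ] at hx; omega
      have hbit : x.testBit b = true := by
        have := Nat.testBit_two_pow_add_eq (x - 2 ^ b) b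
        rw [show 2 ^ b + (x - 2 ^ b) = x by omega, Nat.testBit_lt_two_pow (by omega : x - 2 ^ b < 2 ^ b)] at this
        simpa using this
      rcases h2 with h2 | h2
      · rw [hpiv b h2] at hbit; exact absurd hbit (by simp)
      have hxor : v + 2 ^ b = v ^^^ 2 ^ b := by
        obtain ⟨c, rfl⟩ := hv
        apply Nat.eq_of_testBit_eq
        intro i
        rw [Nat.testBit_two_pow_mul_add c (by rw [pow_succ]; omega : 2 ^ b < 2 ^ (b + 1)), Nat.testBit_xor,
          Nat.testBit_two_pow_mul]
        by_cases hi : i < b + 1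
        · simp [hi, show ¬ (b + 1 ≤ i) by omega]
        · simp [hi, show b + 1 ≤ i by omega, Nat.testBit_two_pow, show b ≠ i by omega]
      obtain ⟨T', h3, h4⟩ := ih (by omega) (v + 2 ^ b) _ (x - 2 ^ b) h2 (Nat.dvd_add hvb dvd_rfl) (by omega)
        (by omega) (fun i hi => by
          have h5 := hpiv i hi
          by_cases hib : i < b
          · have := Nat.testBit_two_pow_add_gt hib (x - 2 ^ b)
            rw [show 2 ^ b + (x - 2 ^ b) = x by omega] at this
            rw [← this]; exact h5
          · exact Nat.testBit_lt_two_pow (lt_of_lt_of_le (by omega : x - 2 ^ b < 2 ^ b)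
              (Nat.pow_le_pow_right (by norm_num) (by omega))))
        (fun j hj h5 => by
          rw [us_sl]
          apply sh_sound _ _ _ (by omega) hj
          apply hT
          · exact Nat.xor_lt_two_pow (n := 10) hj (Nat.pow_lt_pow_right (by norm_num) (by omega))
          · rw [hxor] at h5
            rw [Nat.xor_assoc, Nat.xor_comm (2 ^ b)]; exact h5)
      rw [show v + 2 ^ b + (x - 2 ^ b) = v + x by omega] at h3 h4
      exact ⟨T', h3, h4⟩

theorem low_card (V : Finset ℕ) (hV : ∀ a ∈ V, a < 1024) (hx : ∀ a ∈ V, ∀ b ∈ V, a ^^^ b ∈ V)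
    (hc : 32 ≤ V.card) (r : ℕ) (hr : r ≤ 4) : 2 ^ (5 - r) ≤ (V.filter (· < 2 ^ (10 - r))).card := by
  by_contra hlt
  push Not at hlt
  have hmaps : ∀ a ∈ V, a >>> (10 - r) ∈ Finset.range (2 ^ r) := by
    intro a ha
    rw [Finset.mem_range, Nat.shiftRight_eq_div_pow, Nat.div_lt_iff_lt_mul (by positivity), ← pow_add,
      show r + (10 - r) = 10 by omega]
    exact hV a ha
  have h1 : (Finset.range (2 ^ r)).card * (2 ^ (5 - r) - 1) < V.card := by
    rw [Finset.card_range]
    interval_cases r <;> simp <;> omega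
  obtain ⟨y, -, hy⟩ := Finset.exists_lt_card_fiber_of_mul_lt_card_of_maps_to hmaps h1
  obtain ⟨a, ha⟩ : (V.filter fun a => a >>> (10 - r) = y).Nonempty := Finset.card_pos.1 (by omega)
  have ha' := Finset.mem_filter.1 ha
  have : (V.filter fun a => a >>> (10 - r) = y).card ≤ (V.filter (· < 2 ^ (10 - r))).card := by
    apply Finset.card_le_card_of_injOn (fun b => b ^^^ a)
    · intro b hb
      have hb' := Finset.mem_filter.1 hb
      refine Finset.mem_coe.2 (Finset.mem_filter.2 ⟨hx _ hb'.1 _ ha'.1, ?_⟩)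
      have : (b ^^^ a) >>> (10 - r) = 0 := by rw [Nat.shiftRight_xor_distrib, hb'.2, ha'.2, Nat.xor_self]
      rw [Nat.shiftRight_eq_div_pow] at this
      exact (Nat.div_eq_zero_iff_lt (by positivity)).1 this
    · intro b _ c _ h
      exact Nat.xor_left_inj.1 h
  omega

theorem xor_lt_of_bit (v u : ℕ) (hu : u ≠ 0) (h : v.testBit u.log2 = true) : v ^^^ u < v := by
  apply Nat.lt_of_testBit u.log2
  · rw [Nat.testBit_xor, h, Nat.testBit_log2 hu]; rfl
  · exact h
  · intro j hj
    rw [Nat.testBit_xor, Nat.testBit_lt_two_pow (x := u) (lt_of_lt_of_le Nat.lt_log2_self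
      (Nat.pow_le_pow_right (by norm_num) hj))]
    simp

theorem lev_sound (V : Finset ℕ) (hV : ∀ a ∈ V, a < 1024) (hx : ∀ a ∈ V, ∀ b ∈ V, a ^^^ b ∈ V)
    (hc : 32 ≤ V.card) (w : ℕ) (hw : w < 1024) (r : ℕ) : r ≤ 5 → ∀ (T piv prev : ℕ) (U : Finset ℕ),
    lev r T piv prev = true → (∀ v ∈ V, (us T).testBit (w ^^^ v) = true) →
    U ⊆ V → 0 ∈ U → (∀ a ∈ U, ∀ b ∈ U, a ^^^ b ∈ U) → U.card ≤ 2 ^ (5 - r) → (∀ x ∈ V, x ∉ U → prev < x) →
    (∀ i, piv.testBit i = true → ∃ u ∈ U, u ≠ 0 ∧ u.log2 = i) → False := by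
  induction r with
  | zero => intro _ T piv prev U h; exact absurd h (by simp [lev])
  | succ r ih =>
    intro hr T piv prev U h hT hUV h0 hU hcU hprev hpiv
    have h' : enum (fun v Tv => Nat.ble v prev || force (sl (Nat.land (us T) (us Tv))) fun T' => few 31 T' ||
        force (Nat.lor piv (Nat.pow 2 v.log2)) fun piv' => lev r T' piv' v) piv prev (10 - r) 0 T = true := h
    have hlow := low_card V hV hx hc r (by omega)
    have hne : (V.filter (· ∉ U)).Nonempty ∧ ∃ y ∈ V, y ∉ U ∧ y < 2 ^ (10 - r) := by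
      have : U.card < (V.filter (· < 2 ^ (10 - r))).card := by
        have : 2 ^ (5 - r) = 2 * 2 ^ (5 - (r + 1)) := by
          rw [show 5 - r = (5 - (r + 1)) + 1 by omega, pow_succ]; ring
        have h2 : 0 < 2 ^ (5 - (r + 1)) := by positivity
        omega
      obtain ⟨y, hy1, hy2⟩ := Finset.exists_mem_notMem_of_card_lt_card this
      have hy := Finset.mem_filter.1 hy1
      exact ⟨⟨y, Finset.mem_filter.2 ⟨hy.1, hy2⟩⟩, y, hy.1, hy2, hy.2⟩
    obtain ⟨hne, y, hyV, hyU, hy⟩ := hne
    set v := (V.filter (· ∉ U)).min' hne with hv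
    have hvm := Finset.mem_filter.1 (Finset.min'_mem _ hne)
    rw [← hv] at hvm
    have hmin : ∀ x ∈ V, x ∉ U → v ≤ x := fun x h1 h2 => Finset.min'_le _ x (Finset.mem_filter.2 ⟨h1, h2⟩)
    have hxu : ∀ x, x ∉ U → ∀ u ∈ U, x ^^^ u ∉ U := by
      intro x hxU u hu hc
      have := hU _ hc _ hu
      rw [Nat.xor_assoc, Nat.xor_self, Nat.xor_zero] at this
      exact hxU this
    obtain ⟨Tv, h1, h2⟩ := enum_sound _ piv prev (us T) (10 - r) (by omega) 0 T v h' (dvd_zero _)
      (lt_of_le_of_lt (hmin y hyV hyU) hy) (by simpa using hprev v hvm.1 hvm.2)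
      (fun i hi => by
        obtain ⟨u, hu, hu0, rfl⟩ := hpiv i hi
        by_contra hb
        have hb : v.testBit u.log2 = true := by simpa using hb
        have := hmin _ (hx _ hvm.1 _ (hUV hu)) (hxu v hvm.2 u hu)
        have := xor_lt_of_bit v u hu0 hb
        omega)
      (fun j _ hj => by simpa using hj)
    rw [zero_add] at h1 h2
    simp only [force_eq, Bool.or_eq_true, Nat.ble_eq] at h1
    have hT' : ∀ x ∈ V, (us (sl (Nat.land (us T) (us Tv)))).testBit (w ^^^ x) = true := by
      intro x hxV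
      rw [us_sl]
      show (us T &&& us Tv).testBit (w ^^^ x) = true
      rw [Nat.testBit_and, hT x hxV, h2 _ (Nat.xor_lt_two_pow (n := 10) hw (hV x hxV))]
      · rfl
      · rw [Nat.xor_assoc]; exact hT _ (hx _ hxV _ hvm.1)
    rcases h1 with h1 | h1 | h1
    · have := hprev v hvm.1 hvm.2; omega
    · have := few_sound 31 _ (V.image (w ^^^ ·)) h1 (fun i hi => by
        obtain ⟨x, hx1, rfl⟩ := Finset.mem_image.1 hi
        exact hT' x hx1)
      rw [Finset.card_image_of_injective _ (fun a b h => Nat.xor_right_inj.1 h)] at this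
      omega
    · refine ih (by omega) _ _ v (U ∪ U.image (· ^^^ v)) h1 hT' ?_ (Finset.mem_union_left _ h0) ?_ ?_ ?_ ?_
      · intro a ha
        rcases Finset.mem_union.1 ha with ha | ha
        · exact hUV ha
        · obtain ⟨u, hu, rfl⟩ := Finset.mem_image.1 ha
          exact hx _ (hUV hu) _ hvm.1
      · intro a ha b hb
        rcases Finset.mem_union.1 ha with ha | ha <;> rcases Finset.mem_union.1 hb with hb | hb
        · exact Finset.mem_union_left _ (hU _ ha _ hb)
        · obtain ⟨u, hu, rfl⟩ := Finset.mem_image.1 hb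
          exact Finset.mem_union_right _ (Finset.mem_image.2 ⟨a ^^^ u, hU _ ha _ hu, Nat.xor_assoc _ _ _⟩)
        · obtain ⟨u, hu, rfl⟩ := Finset.mem_image.1 ha
          refine Finset.mem_union_right _ (Finset.mem_image.2 ⟨u ^^^ b, hU _ hu _ hb, ?_⟩)
          simp only [Nat.xor_assoc, Nat.xor_comm v b]
        · obtain ⟨u, hu, rfl⟩ := Finset.mem_image.1 ha
          obtain ⟨u', hu', rfl⟩ := Finset.mem_image.1 hb
          refine Finset.mem_union_left _ ?_
          have : u ^^^ v ^^^ (u' ^^^ v) = u ^^^ u' := by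
            rw [Nat.xor_comm u' v, Nat.xor_assoc, ← Nat.xor_assoc v, Nat.xor_self, Nat.zero_xor]
          rw [this]; exact hU _ hu _ hu'
      · have h3 := Finset.card_union_le U (U.image (· ^^^ v))
        have h4 := Finset.card_image_le (s := U) (f := (· ^^^ v))
        have : 2 ^ (5 - r) = 2 * 2 ^ (5 - (r + 1)) := by
          rw [show 5 - r = (5 - (r + 1)) + 1 by omega, pow_succ]; ring
        omega
      · intro x hxV hxU
        rw [Finset.mem_union, not_or] at hxU
        have h3 := hmin x hxV hxU.1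
        have : x ≠ v := by
          rintro rfl
          exact hxU.2 (Finset.mem_image.2 ⟨0, h0, Nat.zero_xor _⟩)
        omega
      · intro i hi
        have hi' : (piv ||| 2 ^ v.log2).testBit i = true := hi
        rw [Nat.testBit_or, Bool.or_eq_true] at hi'
        rcases hi' with hi' | hi'
        · obtain ⟨u, hu, h3⟩ := hpiv i hi'
          exact ⟨u, Finset.mem_union_left _ hu, h3⟩
        · refine ⟨v, Finset.mem_union_right _ (Finset.mem_image.2 ⟨0, h0, Nat.zero_xor _⟩), ?_, ?_⟩
          · rintro h3; rw [h3] at hvm; exact hvm.2 h0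
          · simpa [Nat.testBit_two_pow] using hi'

/-- no affine 5-flat of `F_2^10` lies inside the set `S` -/
theorem no_flat (V : Finset ℕ) (hV : ∀ a ∈ V, a < 1024) (hx : ∀ a ∈ V, ∀ b ∈ V, a ^^^ b ∈ V)
    (hc : 32 ≤ V.card) (w : ℕ) (hw : w < 1024) : ∃ v ∈ V, S.testBit (w ^^^ v) = false := by
  by_contra hne
  push Not at hne
  obtain ⟨a, ha⟩ : V.Nonempty := Finset.card_pos.1 (by omega)
  have h0 : 0 ∈ V := by simpa using hx a ha a ha
  refine lev_sound V hV hx hc w hw 5 le_rfl (sl S) 0 0 {0} chk (fun v hv => ?_) (by simpa using h0) (by simp)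
    (by simp) (by simp) (fun x _ h => ?_) (by simp)
  · rw [us_sl]; simpa using hne v hv
  · simp at h; omega

end Pool.Agent.H25.Flat10
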