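import Pool.Agent.H25.MstDefs

set_option autoImplicit false

namespace Pool.Agent.H25.Mst

open SimpleGraph Relation

variable {V : Type}

def Av (R : V → V → Prop) (u v : V) : V → V → Prop := fun x y => R x y ∧ s(x, y) ≠ s(u, v)

structure IsT {G : SimpleGraph V} (H : G.Subgraph) : Prop where
  ne : H.verts.Nonempty
  conn : ∀ u ∈ H.verts, ∀ v ∈ H.verts, ReflTransGen H.Adj u v
  acyc : ∀ u v, H.Adj u v → ¬ ReflTransGen (Av H.Adj u v) u v

lemma rtg_map {W : Type} {R : V → V → Prop} {R' : W → W → Prop} (f : V → W)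
    (h : ∀ a b, R a b → f a = f b ∨ R' (f a) (f b)) {u v : V} (huv : ReflTransGen R u v) :
    ReflTransGen R' (f u) (f v) := by
  induction huv with
  | refl => exact ReflTransGen.refl
  | tail _ h2 ih =>
    rcases h _ _ h2 with h3 | h3
    · exact h3 ▸ ih
    · exact ih.tail h3

lemma rtg_inv {R : V → V → Prop} (P : V → Prop) (h : ∀ a b, R a b → P a → P b) {u v : V}
    (huv : ReflTransGen R u v) (hu : P u) : P v := by
  induction huv with
  | refl => exact hu
  | tail _ h2 ih => exact h _ _ h2 ih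

lemma rtg_sub (R : V → V → Prop) (S : Set V) (hR : ∀ x y, R x y → y ∈ S) (u v : S) :
    ReflTransGen (fun a b : S => R a.1 b.1) u v ↔ ReflTransGen R u.1 v.1 := by
  constructor
  · intro h
    exact h.lift Subtype.val (fun _ _ h => h)
  · intro h
    have : ∀ w, ReflTransGen R u.1 w → ∀ hw : w ∈ S,
        ReflTransGen (fun a b : S => R a.1 b.1) u ⟨w, hw⟩ := by
      intro w hw
      induction hw with
      | refl => intro _; exact ReflTransGen.refl
      | tail h1 h2 ih =>
        rename_i b c
        intro hc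
        have hb : b ∈ S := by
          rcases h1.cases_tail with rfl | ⟨z, _, hz⟩
          · exact u.2
          · exact hR _ _ hz
        exact (ih hb).tail h2
    exact this v.1 h v.2

lemma isT_iff {G : SimpleGraph V} (H : G.Subgraph) : H.coe.IsTree ↔ IsT H := by
  rw [isTree_iff, connected_iff, isAcyclic_iff_forall_adj_isBridge]
  have key : ∀ u v : H.verts, (H.coe.deleteEdges {s(u, v)}).Reachable u v ↔
      ReflTransGen (Av H.Adj u.1 v.1) u.1 v.1 := by
    intro u v
    rw [reachable_iff_reflTransGen, ← rtg_sub _ H.verts (fun x y h => H.edge_vert h.1.symm)]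
    have : (H.coe.deleteEdges {s(u, v)}).Adj = fun a b : H.verts => Av H.Adj u.1 v.1 a.1 b.1 := by
      ext a b
      simp [Av, Subtype.ext_iff]
    rw [this]
  constructor
  · rintro ⟨⟨h1, h2⟩, h3⟩
    refine ⟨Set.nonempty_coe_sort.mp h2, fun u hu v hv => ?_, fun u v huv => ?_⟩
    · have := h1 ⟨u, hu⟩ ⟨v, hv⟩
      rw [reachable_iff_reflTransGen] at this
      exact (rtg_sub H.Adj H.verts (fun x y h => H.edge_vert h.symm) _ _).mp this
    · have := h3 (v := ⟨u, H.edge_vert huv⟩) (w := ⟨v, H.edge_vert huv.symm⟩) huv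
      rw [isBridge_iff, key] at this
      exact this
  · intro h
    refine ⟨⟨fun u v => ?_, Set.nonempty_coe_sort.mpr h.ne⟩, fun u v huv => ?_⟩
    · rw [reachable_iff_reflTransGen]
      exact (rtg_sub H.Adj H.verts (fun x y h => H.edge_vert h.symm) _ _).mpr
        (h.conn _ u.2 _ v.2)
    · rw [isBridge_iff, key]
      exact h.acyc _ _ huv

/-- relational connectivity of a vertex set -/
def IsC (G : SimpleGraph V) (S : Set V) : Prop :=
  S.Nonempty ∧ ∀ u ∈ S, ∀ v ∈ S, ReflTransGen (fun x y => G.Adj x y ∧ x ∈ S ∧ y ∈ S) u v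

lemma isC_iff (G : SimpleGraph V) (S : Set V) : (G.induce S).Connected ↔ IsC G S := by
  rw [connected_iff, Set.nonempty_coe_sort]
  have key : ∀ u v : S, (G.induce S).Reachable u v ↔
      ReflTransGen (fun x y => G.Adj x y ∧ x ∈ S ∧ y ∈ S) u.1 v.1 := by
    intro u v
    rw [reachable_iff_reflTransGen, ← rtg_sub _ S (fun x y h => h.2.2)]
    have : (G.induce S).Adj = fun a b : S => G.Adj a.1 b.1 ∧ a.1 ∈ S ∧ b.1 ∈ S := by
      ext a b
      simp
    rw [this]
  constructor
  · rintro ⟨h1, h2⟩
    exact ⟨h2, fun u hu v hv => (key ⟨u, hu⟩ ⟨v, hv⟩).mp (h1 _ _)⟩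
  · rintro ⟨h1, h2⟩
    exact ⟨fun u v => (key u v).mpr (h2 _ u.2 _ v.2), h1⟩

noncomputable def trees [Finite V] (G : SimpleGraph V) : Finset G.Subgraph :=
  (Set.toFinite {H : G.Subgraph | IsT H}).toFinset

noncomputable def csets [Finite V] (G : SimpleGraph V) : Finset (Set V) :=
  (Set.toFinite {S : Set V | IsC G S}).toFinset

@[simp] lemma mem_trees [Finite V] {G : SimpleGraph V} {H : G.Subgraph} :
    H ∈ trees G ↔ IsT H := by simp [trees]

@[simp] lemma mem_csets [Finite V] {G : SimpleGraph V} {S : Set V} :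
    S ∈ csets G ↔ IsC G S := by simp [csets]

lemma mean_aux {α : Type} (s : Finset α) (f : α → ℕ) (n : ℕ) (h : ∀ a ∈ s, f a ∈ Finset.Icc 1 n)
    (c : ℕ → ℕ) (hc : ∀ k, c k = (s.filter (fun a => f a = k)).card) :
    (∑ k ∈ Finset.Icc 1 n, (k : ℚ) * (c k : ℚ)) / (∑ k ∈ Finset.Icc 1 n, (c k : ℚ)) =
      (∑ a ∈ s, (f a : ℚ)) / (∑ _a ∈ s, (1 : ℚ)) := by
  classical
  congr 1
  · rw [← Finset.sum_fiberwise_of_maps_to h]
    refine Finset.sum_congr rfl fun k _ => ?_
    rw [hc, Finset.sum_congr rfl (g := fun _ => (k : ℚ))]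
    · simp [mul_comm]
    · intro a ha
      rw [(Finset.mem_filter.mp ha).2]
  · rw [← Finset.sum_fiberwise_of_maps_to h]
    refine Finset.sum_congr rfl fun k _ => ?_
    rw [hc]; simp

lemma mu_eq [Finite V] (G : SimpleGraph V) :
    mu G = (∑ H ∈ trees G, (H.verts.ncard : ℚ)) / (∑ _H ∈ trees G, (1 : ℚ)) := by
  classical
  unfold mu
  apply mean_aux (trees G) (fun H => H.verts.ncard)
  · intro H hH
    rw [mem_trees] at hH
    rw [Finset.mem_Icc]
    refine ⟨(Set.ncard_pos (Set.toFinite _)).mpr hH.ne, ?_⟩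
    rw [← Set.ncard_univ]
    exact Set.ncard_le_ncard (Set.subset_univ _)
  · intro k
    unfold sk
    rw [← Set.ncard_coe_finset]
    congr 1
    ext H
    simp [isT_iff]

lemma av_eq [Finite V] (G : SimpleGraph V) :
    av G = (∑ S ∈ csets G, (S.ncard : ℚ)) / (∑ _S ∈ csets G, (1 : ℚ)) := by
  classical
  unfold av
  apply mean_aux (csets G) (fun S => S.ncard)
  · intro S hS
    rw [mem_csets] at hS
    rw [Finset.mem_Icc]
    refine ⟨(Set.ncard_pos (Set.toFinite _)).mpr hS.1, ?_⟩
    rw [← Set.ncard_univ]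
    exact Set.ncard_le_ncard (Set.subset_univ _)
  · intro k
    unfold ck
    rw [← Set.ncard_coe_finset]
    congr 1
    ext S
    simp [isC_iff]

lemma IsT.comap_iso {W : Type} {G : SimpleGraph V} {G' : SimpleGraph W} (e : G ≃g G')
    {H : G'.Subgraph} (h : IsT H) : IsT (H.comap e.toHom) := by
  refine ⟨?_, fun u hu v hv => ?_, fun u v huv hr => ?_⟩
  · obtain ⟨x, hx⟩ := h.ne
    exact ⟨e.symm x, by simpa using hx⟩
  · have := rtg_map (R' := (H.comap e.toHom).Adj) e.symm (fun a b hab => by
      have := H.adj_sub hab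
      right
      simp [hab, e.symm.map_adj_iff, this]) (h.conn _ hu _ hv)
    simpa using this
  · refine h.acyc (e u) (e v) huv.2 (hr.lift e fun a b hab => ⟨hab.1.2, fun hh => hab.2 ?_⟩)
    simpa using hh

lemma mu_iso {W : Type} [Finite V] [Finite W] {G : SimpleGraph V} {G' : SimpleGraph W}
    (e : G ≃g G') : mu G = mu G' := by
  have key : ∀ F : ℕ → ℚ, ∑ H ∈ trees G, F H.verts.ncard = ∑ H ∈ trees G', F H.verts.ncard := by
    intro F
    refine Finset.sum_nbij' (fun H => H.comap e.symm.toHom) (fun H => H.comap e.toHom) ?_ ?_ ?_ ?_ ?_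
    · intro H hH
      simp only [mem_trees] at *
      exact hH.comap_iso e.symm
    · intro H hH
      simp only [mem_trees] at *
      exact hH.comap_iso e
    · intro H _
      ext a b
      · simp
      · simp only [Subgraph.comap_adj]
        constructor
        · intro h; simpa using h.2.2
        · intro h
          exact ⟨H.adj_sub h, e.map_adj_iff.mpr (H.adj_sub h), by simpa using h⟩
    · intro H _
      ext a b
      · simp
      · simp only [Subgraph.comap_adj]
        constructor
        · intro h; simpa using h.2.2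
        · intro h
          exact ⟨H.adj_sub h, e.symm.map_adj_iff.mpr (H.adj_sub h), by simpa using h⟩
    · intro H _
      congr 1
      simp only [Subgraph.comap_verts]
      exact (Set.ncard_preimage_of_injective_subset_range e.symm.injective
        (by rw [e.symm.surjective.range_eq]; exact Set.subset_univ _)).symm
  rw [mu_eq, mu_eq, key (fun k => (k : ℚ)), key (fun _ => 1)]

end Pool.Agent.H25.Mst
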