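import Pool.Agent.H25.FoldDefs
import Pool.Agent.H25.Mst1

set_option autoImplicit false

namespace Pool.Agent.H25.Fold

open Sum Pool.Agent.H25.Mst

def am (u v : Fin 10) : Prop :=
  (u.1 < 5 ∧ 5 ≤ v.1 ∧ (v.1 - u.1) % 5 < 3) ∨ (v.1 < 5 ∧ 5 ≤ u.1 ∧ (u.1 - v.1) % 5 < 3)

instance : DecidableRel am := fun u v => by unfold am; infer_instance

def Good (l : Fin 10 → Fin 3) : Prop :=
  ∀ u, l u ≠ 1 → ∀ f, am u f → l f = 1 →
    ∃ w, (l w).1 + (l u).1 = 2 ∧ ∀ g, l g = 1 → (am u g ↔ am w g)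

instance : DecidablePred Good := fun l => by unfold Good; infer_instance

set_option synthInstance.maxSize 5000 in
lemma fin_check : ∀ a0 : Fin 3, ∀ a5 : Fin 3, ¬ (a0 = 0 ∧ a5 = 2) → ¬ (a5 = 0 ∧ a0 = 2) → ∀ a6 : Fin 3, ¬ (a0 = 0 ∧ a6 = 2) → ¬ (a6 = 0 ∧ a0 = 2) → ∀ a7 : Fin 3, ¬ (a0 = 0 ∧ a7 = 2) → ¬ (a7 = 0 ∧ a0 = 2) → ∀ a1 : Fin 3, ¬ (a1 = 0 ∧ a6 = 2) → ¬ (a6 = 0 ∧ a1 = 2) → ¬ (a1 = 0 ∧ a7 = 2) → ¬ (a7 = 0 ∧ a1 = 2) → ∀ a8 : Fin 3, ¬ (a1 = 0 ∧ a8 = 2) → ¬ (a8 = 0 ∧ a1 = 2) → ∀ a2 : Fin 3, ¬ (a2 = 0 ∧ a7 = 2) → ¬ (a7 = 0 ∧ a2 = 2) → ¬ (a2 = 0 ∧ a8 = 2) → ¬ (a8 = 0 ∧ a2 = 2) → ∀ a9 : Fin 3, ¬ (a2 = 0 ∧ a9 = 2) → ¬ (a9 = 0 ∧ a2 = 2) → ∀ a3 : Fin 3, ¬ (a3 = 0 ∧ a8 = 2) → ¬ (a8 = 0 ∧ a3 = 2) → ¬ (a3 = 0 ∧ a9 = 2) → ¬ (a9 = 0 ∧ a3 = 2) → ¬ (a3 = 0 ∧ a5 = 2) → ¬ (a5 = 0 ∧ a3 = 2) → ∀ a4 : Fin 3, ¬ (a4 = 0 ∧ a9 = 2) → ¬ (a9 = 0 ∧ a4 = 2) → ¬ (a4 = 0 ∧ a5 = 2) → ¬ (a5 = 0 ∧ a4 = 2) → ¬ (a4 = 0 ∧ a6 = 2) → ¬ (a6 = 0 ∧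 a4 = 2) →
    Good ![a0, a1, a2, a3, a4, a5, a6, a7, a8, a9] → ∀ u : Fin 10, ![a0, a1, a2, a3, a4, a5, a6, a7, a8, a9] u = a0 := by
  decide +kernel

lemma const_lab (l : Fin 10 → Fin 3) (h : ∀ u v, am u v → ¬ (l u = 0 ∧ l v = 2)) (hg : Good l) :
    ∀ u, l u = l 0 := by
  have e : l = ![l 0, l 1, l 2, l 3, l 4, l 5, l 6, l 7, l 8, l 9] := by
    funext i; fin_cases i <;> rfl
  have := fin_check (l 0) (l 5) (h 0 5 (by decide)) (h 5 0 (by decide)) (l 6) (h 0 6 (by decide)) (h 6 0 (by decide)) (l 7) (h 0 7 (by decide)) (h 7 0 (by decide)) (l 1) (h 1 6 (by decide)) (h 6 1 (by decide)) (h 1 7 (by decide)) (h 7 1 (by decide)) (l 8) (h 1 8 (by decide)) (h 8 1 (by decide)) (l 2) (h 2 7 (by decide)) (h 7 2 (by decide)) (h 2 8 (by decide)) (h 8 2 (by decide)) (l 9) (h 2 9 (by decide)) (h 9 2 (by decide)) (l 3) (h 3 8 (by decide)) (h 8 3 (by decide)) (h 3 9 (by decide)) (h 9 3 (by decide)) (h 3 5 (by decide)) (h 5 3 (by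 decide)) (l 4) (h 4 9 (by decide)) (h 9 4 (by decide)) (h 4 5 (by decide)) (h 5 4 (by decide)) (h 4 6 (by decide)) (h 6 4 (by decide)) (e ▸ hg)
  rwa [← e] at this

abbrev AA := Bool × Fin 5
abbrev BB := Option (Bool × Fin 5)

def EE (a : AA) : BB → Prop
  | none => True
  | some b => a.1 = b.1 ∧ (b.2 - a.2).1 < 3

instance (a : AA) (b : BB) : Decidable (EE a b) := by cases b <;> unfold EE <;> infer_instance

def adjF : AA ⊕ BB → AA ⊕ BB → Prop
  | inl a, inr b => EE a b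
  | inr b, inl a => EE a b
  | _, _ => False

instance (x y : AA ⊕ BB) : Decidable (adjF x y) := by
  cases x <;> cases y <;> unfold adjF <;> infer_instance

instance : DecidableRel (bg EE).Adj := fun x y => decidable_of_iff (adjF x y) (by
  cases x <;> cases y <;> simp [bg, adjF, -Prod.exists])

def emb (c : Bool) (u : Fin 10) : AA ⊕ BB :=
  if h : u.1 < 5 then inl (c, ⟨u.1, h⟩) else inr (some (c, ⟨u.1 - 5, by omega⟩))

lemma f1 : ∀ c u v, (bg EE).Adj (emb c u) (emb c v) ↔ am u v := by decide +kernel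
lemma f2 : ∀ c f w, (bg EE).Adj (emb c f) w → w = inr none ∨ ∃ w', w = emb c w' := by
  decide +kernel
lemma f3 : ∀ w, (∀ a, (bg EE).Adj (inl a) w) → w = inr none := by decide +kernel
lemma f4 : ∀ a, (bg EE).Adj (inl a) (inr none) := by decide +kernel
lemma f5 : ∀ c u, emb c u ≠ inr none := by decide +kernel
lemma f6 : ∀ c (i : Fin 5), ∃ u, emb c u = inl (c, i) := by decide +kernel
lemma f7 : ∀ x, x = inr none ∨ (bg EE).Adj x (inr none) ∨
    ∃ y, (bg EE).Adj x y ∧ (bg EE).Adj y (inr none) := by decide +kernel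

lemma conn : (bg EE).Connected := by
  have : ∀ x, (bg EE).Reachable x (inr none) := by
    intro x
    rcases f7 x with rfl | h | ⟨y, h1, h2⟩
    · rfl
    · exact h.reachable
    · exact h1.reachable.trans h2.reachable
  exact ⟨fun u v => (this u).trans (this v).symm⟩

def Inv (U : Set (AA ⊕ BB)) : Prop := ∀ c i j, inl (c, i) ∈ U → inl (c, j) ∈ U → i = j

lemma step {φ : Equiv.Perm (AA ⊕ BB)} {L : Set (AA ⊕ BB)} (h : IsFold EE φ L)
    {U : Set (AA ⊕ BB)} (hU : Inv U) : Inv (foldMap φ L ⁻¹' U) := by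
  classical
  obtain ⟨⟨⟨a1, a2⟩, a3, _⟩, b1, b2, b3, _, b4⟩ := h
  have inv : ∀ x, φ (φ x) = x := fun x => by
    have := congrArg (fun ψ : Equiv.Perm _ => ψ x) a3
    simpa using this
  have left : ∀ a, ∃ a', φ (inl a) = inl a' := fun a => by
    have := a2 (inl a)
    rcases hh : φ (inl a) with a' | b
    · exact ⟨a', rfl⟩
    · rw [hh] at this; simp at this
  have apex : φ (inr none) = inr none := f3 _ fun a => by
    obtain ⟨a', ha⟩ := left a
    rw [← inv (inl a), a1, ha]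
    exact f4 a'
  have nL : ∀ x ∈ L, φ x ∉ L := fun x hx hc =>
    Set.disjoint_left.mp b3 hc ⟨x, hx, rfl⟩
  have mem : ∀ x, x ∉ L → φ x ≠ x → φ x ∈ L := by
    intro x h1 h2
    have : x ∈ L ∪ {v | φ v = v} ∪ φ '' L := b4 ▸ Set.mem_univ x
    rcases this with (h | h) | ⟨y, hy, rfl⟩
    · exact absurd h h1
    · exact absurd h h2
    · rwa [inv]
  let lab : AA ⊕ BB → Fin 3 := fun v => if v ∈ L then 0 else if φ v = v then 1 else 2
  have l0 : ∀ v, lab v = 0 ↔ v ∈ L := fun v => by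
    simp only [lab]; split_ifs <;> simp [*]
  have l1 : ∀ v, lab v = 1 ↔ φ v = v := fun v => by
    simp only [lab]; split_ifs with h1 h2
    · simpa using b1 v h1
    · simp [h2]
    · simp [h2]
  have l2 : ∀ v, lab v = 2 → v ∉ L ∧ φ v ≠ v := fun v => by
    simp only [lab]; split_ifs <;> simp [*]
  have lsum : ∀ v, lab v ≠ 1 → (lab (φ v)).1 + (lab v).1 = 2 := by
    intro v hv
    rw [Ne, l1] at hv
    by_cases h : v ∈ L
    · have h3 : φ (φ v) ≠ φ v := fun e => hv (φ.injective e)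
      simp [lab, h, nL v h, h3]
    · simp [lab, h, hv, mem v h hv]
  intro c i j hi hj
  have key := const_lab (fun u => lab (emb c u)) (fun u v huv hh => by
    have h2 := l2 _ hh.2
    have h0 := (l0 _).mp hh.1
    exact h2.1 (b2 ⟨_, b1 _ h0⟩ ⟨_, h2.2⟩ h0
      (SimpleGraph.Adj.reachable (by simpa using (f1 c u v).mpr huv)))) (by
    intro u hu f huf hf
    have hf' := (l1 _).mp hf
    have : (bg EE).Adj (emb c f) (φ (emb c u)) := by
      rw [← hf', a1]; exact ((f1 c u f).mpr huf).symm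
    rcases f2 c f _ this with e | ⟨w, e⟩
    · exact absurd (φ.injective (e.trans apex.symm)) (f5 c u)
    · refine ⟨w, by simp only [← e]; exact lsum _ hu, fun g hg => ?_⟩
      have := a1 (emb c u) (emb c g)
      rw [(l1 _).mp hg, e, f1, f1] at this
      exact this.symm)
  have key' : ∀ k, lab (inl (c, k)) = lab (inl (c, i)) := fun k => by
    obtain ⟨u, hu⟩ := f6 c k
    obtain ⟨v, hv⟩ := f6 c i
    rw [← hu, ← hv]
    exact (key u).trans (key v).symm
  simp only [Set.mem_preimage, foldMap] at hi hj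
  by_cases h0 : inl (c, i) ∈ L
  · have h0' : inl (c, j) ∈ L := (l0 _).mp ((key' j).trans ((l0 _).mpr h0))
    rw [if_pos h0] at hi
    rw [if_pos h0'] at hj
    exact hU c i j hi hj
  · have nl : ∀ k, inl (c, k) ∉ L := fun k hk => h0 ((l0 _).mp ((key' k).symm.trans ((l0 _).mpr hk)))
    rw [if_neg h0] at hi
    rw [if_neg (nl j)] at hj
    by_cases h1 : φ (inl (c, i)) = inl (c, i)
    · have h1' := (l1 _).mp ((key' j).trans ((l1 _).mpr h1))
      rw [h1] at hi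
      rw [h1'] at hj
      exact hU c i j hi hj
    · have h1' : φ (inl (c, j)) ≠ inl (c, j) :=
        fun hk => h1 ((l1 _).mp ((key' j).symm.trans ((l1 _).mpr hk)))
      obtain ⟨⟨c1, i'⟩, e1⟩ := left (c, i)
      obtain ⟨⟨c2, j'⟩, e2⟩ := left (c, j)
      have m1 := mem _ h0 h1
      have m2 := mem _ (nl j) h1'
      rw [e1] at hi m1
      rw [e2] at hj m2
      have d1 : c1 ≠ c := fun e => nl i' (e ▸ m1)
      have d2 : c2 ≠ c := fun e => nl j' (e ▸ m2)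
      have : c1 = c2 := by
        clear * - d1 d2
        cases c <;> cases c1 <;> cases c2 <;> simp_all
      subst this
      have := hU c1 i' j' hi hj
      subst this
      simpa using φ.injective (e1.trans e2.symm)

theorem not_perc : ¬ LeftCutPerc EE := by
  rintro ⟨m, U, ⟨a, h0⟩, hm, hs⟩
  have : ∀ i ≤ m, Inv (U i) := by
    intro i
    induction i with
    | zero =>
      intro _ c i j hi hj
      rw [h0] at hi hj
      simpa using (show (inl (c, i) : AA ⊕ BB) = inl (c, j) from hi.trans hj.symm)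
    | succ i ih =>
      intro hi
      obtain ⟨φ, L, h1, h2⟩ := hs i (by omega)
      rw [h2]
      exact step h1 (ih (by omega))
  have := this m le_rfl true 0 1 (hm ▸ ⟨_, rfl⟩) (hm ▸ ⟨_, rfl⟩)
  simp at this

def sw0 (k : Fin 5) (a : AA) : AA := (!a.1, if a.1 then a.2 - k else a.2 + k)
def sw1 (k : Fin 5) : AA ⊕ BB → AA ⊕ BB := Sum.map (sw0 k) (Option.map (sw0 k))
lemma sw_inv : ∀ k x, sw1 k (sw1 k x) = x := by decide +kernel
def sw (k : Fin 5) : Equiv.Perm (AA ⊕ BB) := Function.Involutive.toPerm (sw1 k) (sw_inv k)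

def side : AA ⊕ BB → Option Bool
  | inl a => some a.1
  | inr b => b.map Prod.fst

lemma g1 : ∀ k x y, (bg EE).Adj (sw1 k x) (sw1 k y) ↔ (bg EE).Adj x y := by decide +kernel
lemma g2 : ∀ k x, (sw1 k x).isLeft = x.isLeft := by decide +kernel
lemma g3 : ∀ k x, sw1 k x = x ↔ side x = none := by decide +kernel
lemma g4 : ∀ x y, (bg EE).Adj x y → side x = some false → side y ≠ none →
    side y = some false := by decide +kernel
lemma g5 : ∀ k x, side (sw1 k x) = (side x).map not := by decide +kernel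

lemma sw_fold (k : Fin 5) : IsFold EE (sw k) {x | side x = some false} := by
  have cl : ∀ u v : {v | sw k v ≠ v}, side u.1 = some false →
      ((bg EE).induce {v | sw k v ≠ v}).Reachable u v → side v.1 = some false := by
    intro u v hu hr
    rw [SimpleGraph.reachable_iff_reflTransGen] at hr
    exact rtg_inv (fun z : {v | sw k v ≠ v} => side z.1 = some false)
      (fun a b hab ha => g4 _ _ hab ha (fun e => b.2 ((g3 k _).mpr e))) hr hu
  have im : ∀ x, x ∈ sw k '' {x | side x = some false} ↔ side x = some true := by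
    intro x
    constructor
    · rintro ⟨y, hy, rfl⟩
      exact (g5 k y).trans (by rw [show side y = _ from hy]; rfl)
    · intro h
      exact ⟨sw1 k x, (g5 k x).trans (by rw [h]; rfl), sw_inv k x⟩
  refine ⟨⟨⟨g1 k, g2 k⟩, Equiv.ext (sw_inv k), fun h => ?_⟩, fun v hv e => ?_, cl, ?_, ?_, ?_⟩
  · have := cl ⟨inl (false, 0), fun e => by simpa [side] using (g3 k (inl (false, 0))).mp e⟩
      ⟨inl (true, 0), fun e => by simpa [side] using (g3 k (inl (true, 0))).mp e⟩ rfl (h _ _)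
    simp [side] at this
  · have := (g3 k v).mp e
    rw [show side v = _ from hv] at this
    simp at this
  · rw [Set.disjoint_left]
    intro x h1 h2
    rw [im, show side x = _ from h1] at h2
    simp at h2
  · rw [Set.disjoint_left]
    intro x h1 h2
    rw [im, (g3 k x).mp h1] at h2
    simp at h2
  · refine Set.eq_univ_of_forall fun x => ?_
    rcases h : side x with _ | _ | _
    · exact Or.inl (Or.inr ((g3 k x).mpr h))
    · exact Or.inl (Or.inl h)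
    · exact Or.inr ((im x).mpr h)

lemma g6 : ∀ a b : AA, (∃ k, sw1 k (inl a) = inl b) ∨ ∃ k, sw1 k (sw1 0 (inl a)) = inl b := by
  decide +kernel

theorem trans (a b : AA) : ∃ g ∈ foldGroup EE, g (inl a) = inl b := by
  have hm : ∀ k, sw k ∈ foldGroup EE := fun k => Subgroup.subset_closure ⟨_, sw_fold k⟩
  rcases g6 a b with ⟨k, h⟩ | ⟨k, h⟩
  · exact ⟨sw k, hm k, h⟩
  · exact ⟨sw k * sw 0, mul_mem (hm k) (hm 0), h⟩

end Pool.Agent.H25.Fold
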