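import Mathlib

set_option autoImplicit false

namespace Pool.Agent.H25.Fold

variable {A B : Type}

/-- The bigraph with left vertices `A`, right vertices `B` and edge relation `E`. -/
def bg (E : A → B → Prop) : SimpleGraph (A ⊕ B) :=
  SimpleGraph.fromRel fun x y => ∃ a b, x = Sum.inl a ∧ y = Sum.inr b ∧ E a b

/-- Automorphism preserving edges and both sides. -/
def IsAut (E : A → B → Prop) (φ : Equiv.Perm (A ⊕ B)) : Prop :=
  (∀ x y, (bg E).Adj (φ x) (φ y) ↔ (bg E).Adj x y) ∧ ∀ x, (φ x).isLeft = x.isLeft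

/-- Cut-involution. -/
def CutInv (E : A → B → Prop) (φ : Equiv.Perm (A ⊕ B)) : Prop :=
  IsAut E φ ∧ φ * φ = 1 ∧ ¬ ((bg E).induce {v | φ v ≠ v}).Preconnected

/-- Fold: `L` is a union of components of `G - Fix φ`, and `L`, `Fix φ`, `φ L` partition the
vertex set. -/
def IsFold (E : A → B → Prop) (φ : Equiv.Perm (A ⊕ B)) (L : Set (A ⊕ B)) : Prop :=
  CutInv E φ ∧ (∀ v ∈ L, φ v ≠ v) ∧
    (∀ u v : {v | φ v ≠ v}, u.1 ∈ L → ((bg E).induce {v | φ v ≠ v}).Reachable u v → v.1 ∈ L) ∧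
    Disjoint L (φ '' L) ∧ Disjoint {v | φ v = v} (φ '' L) ∧
    L ∪ {v | φ v = v} ∪ φ '' L = Set.univ

open Classical in
/-- Left-folding map. -/
noncomputable def foldMap (φ : Equiv.Perm (A ⊕ B)) (L : Set (A ⊕ B)) (v : A ⊕ B) : A ⊕ B :=
  if v ∈ L then v else φ v

/-- Left-cut-percolating. -/
def LeftCutPerc (E : A → B → Prop) : Prop :=
  ∃ (m : ℕ) (U : ℕ → Set (A ⊕ B)), (∃ a, U 0 = {Sum.inl a}) ∧ U m = Set.range Sum.inl ∧
    ∀ i < m, ∃ φ L, IsFold E φ L ∧ U (i + 1) = foldMap φ L ⁻¹' U i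

/-- The group generated by the cut-involutions that are part of a fold. -/
def foldGroup (E : A → B → Prop) : Subgroup (Equiv.Perm (A ⊕ B)) :=
  Subgroup.closure {φ | ∃ L, IsFold E φ L}

end Pool.Agent.H25.Fold
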