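import Mathlib

namespace Pool.Agent.H25.GCirc

abbrev V := ℝ × ℝ × ℝ

def dot (a x : V) : ℝ := a.1 * x.1 + a.2.1 * x.2.1 + a.2.2 * x.2.2
def cr (a b : V) : V := (a.2.1 * b.2.2 - a.2.2 * b.2.1, a.2.2 * b.1 - a.1 * b.2.2, a.1 * b.2.1 - a.2.1 * b.1)
def det (a b c : V) : ℝ := dot a (cr b c)

theorem dot_add (a x y : V) : dot a (x + y) = dot a x + dot a y := by simp [dot]; ring
theorem dot_smul (a x : V) (t : ℝ) : dot a (t • x) = t * dot a x := by simp [dot]; ring
theorem gp (a b c k x : V) :
    det a b c * dot k x = dot a x * det k b c + dot b x * det k c a + dot c x * det k a b := by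
  simp [det, dot, cr]; ring
theorem det_cyc (a b c : V) : det a b c = det b c a := by simp [det, dot, cr]; ring
theorem det_sw (a b c : V) : det a b c = - det a c b := by simp [det, dot, cr]; ring
theorem det_l (a b : V) : det a a b = 0 := by simp [det, dot, cr]; ring
theorem det_r (a b : V) : det b a b = 0 := by simp [det, dot, cr]; ring

def GP (n : ℕ) (a : ℕ → V) : Prop :=
  ∀ i < n, ∀ j < n, ∀ k < n, i ≠ j → i ≠ k → j ≠ k → det (a i) (a j) (a k) ≠ 0

def Side (n : ℕ) (a : ℕ → V) (σ : ℕ → ℝ) (i : ℕ) : Prop :=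
  ∃ x, dot (a i) x = 0 ∧ ∀ j < n, j ≠ i → 0 < σ j * dot (a j) x

open Classical in
noncomputable def Sides (n : ℕ) (a : ℕ → V) (σ : ℕ → ℝ) : Finset ℕ := (Finset.range n).filter (Side n a σ)

theorem mem_Sides {n a σ i} : i ∈ Sides n a σ ↔ i < n ∧ Side n a σ i := by
  simp [Sides]

def Inv (n : ℕ) (a : ℕ → V) : Prop :=
  GP n a ∧ (∀ σ : ℕ → ℝ, (∀ j < n, σ j ≠ 0) → (Sides n a σ).card ≤ 5) ∧
  ∃ l < n, ∃ p, dot (a l) p = 0 ∧ (∀ j < n, j ≠ l → dot (a j) p ≠ 0) ∧
    ∀ (σ : ℕ → ℝ) (t : ℝ), (∀ j < n, j ≠ l → 0 < σ j * (t * dot (a j) p)) → (Sides n a σ).card ≤ 4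

theorem same_sign {s u v : ℝ} (h : 0 < s * u) (h' : 0 < u * v) : 0 < s * v := by
  have hu : 0 < u * u := by
    rcases eq_or_ne u 0 with rfl | hu
    · simp at h
    · exact mul_self_pos.2 hu
  have : 0 < (s * v) * (u * u) := by nlinarith [mul_pos h h']
  exact (pos_iff_pos_of_mul_pos this).2 hu

section step
variable {n : ℕ} {a : ℕ → V} {l : ℕ} {c p : V}

theorem three (hg : GP n a) (hl : l < n) (σ : ℕ → ℝ) (S : Finset ℕ)
    (hS : ∀ j ∈ S, j < n ∧ j ≠ l ∧ ∃ v, dot (a l) v = 0 ∧ dot (a j) v = 0 ∧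
      ∀ k < n, k ≠ j → k ≠ l → 0 < σ k * dot (a k) v) : S.card ≤ 2 := by
  by_contra h
  obtain ⟨i, hi, j, hj, k, hk, hij, hik, hjk⟩ := Finset.two_lt_card.1 (not_le.1 h)
  obtain ⟨i1, i2, u, u1, u2, u3⟩ := hS i hi
  obtain ⟨j1, j2, v, v1, v2, v3⟩ := hS j hj
  obtain ⟨k1, k2, w, w1, w2, w3⟩ := hS k hk
  have hD := hg l hl i i1 j j1 i2.symm j2.symm hij
  have e1 := gp (a l) (a i) (a j) (a k) u
  have e2 := gp (a l) (a i) (a j) (a k) v
  have e3 := gp (a l) (a i) (a j) (a k) w
  rw [u1, u2] at e1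
  rw [v1, v2] at e2
  rw [w1, w2] at e3
  have a1 := u3 j j1 hij.symm j2
  have a2 := u3 k k1 hik.symm k2
  have b1 := v3 i i1 hij i2
  have b2 := v3 k k1 hjk.symm k2
  have c1 := w3 i i1 hik i2
  have c2 := w3 j j1 hjk j2
  set D := det (a l) (a i) (a j)
  set P := det (a k) (a j) (a l)
  set Q := det (a k) (a l) (a i)
  have hD2 : 0 < D * D := mul_self_pos.2 hD
  have q1 : 0 < (σ k * D * Q) * dot (a j) u := by
    have : (σ k * D * Q) * dot (a j) u = (D * D) * (σ k * dot (a k) u) := by linear_combination (-σ k * D) * e1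
    rw [this]; positivity
  have q2 : 0 < (σ k * D * P) * dot (a i) v := by
    have : (σ k * D * P) * dot (a i) v = (D * D) * (σ k * dot (a k) v) := by linear_combination (-σ k * D) * e2
    rw [this]; positivity
  have r1 : 0 < (σ k * D * Q) * dot (a j) w :=
    same_sign (same_sign q1 (by rw [mul_comm]; exact a1)) c2
  have r2 : 0 < (σ k * D * P) * dot (a i) w :=
    same_sign (same_sign q2 (by rw [mul_comm]; exact b1)) c1
  have : (σ k * D * Q) * dot (a j) w + (σ k * D * P) * dot (a i) w = 0 := by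
    linear_combination (-σ k * D) * e3
  linarith

theorem up_lt (j : ℕ) (hj : j < n) : Function.update a n c j = a j := Function.update_of_ne hj.ne _ _

theorem thin (hg : GP n a) (hl : l < n)
    (h1 : ∀ j < n, ∀ k < n, j ≠ k → j ≠ l → k ≠ l → 0 < det (a k) (a j) (a l) * det (a k) (a j) c)
    (σ : ℕ → ℝ) (hσ : σ l * σ n < 0) : (Sides (n + 1) (Function.update a n c) σ).card ≤ 4 := by
  have := three hg hl σ (((Sides (n + 1) (Function.update a n c) σ).erase n).erase l) (fun j hj => by
    obtain ⟨j1, hj⟩ := Finset.mem_erase.1 hj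
    obtain ⟨j2, hj⟩ := Finset.mem_erase.1 hj
    obtain ⟨j3, x, x1, x2⟩ := mem_Sides.1 hj
    have j4 : j < n := by omega
    rw [up_lt j j4] at x1
    have y1 := x2 l (by omega) j1.symm
    have y2 := x2 n (by omega) j2.symm
    rw [up_lt l hl] at y1
    rw [Function.update_self] at y2
    have hneg : 0 < dot c x * (- dot (a l) x) := by
      have t1 : 0 < dot c x * σ n := by rw [mul_comm]; exact y2
      have t2 : 0 < σ n * (-σ l) := by nlinarith
      have t3 : 0 < (-σ l) * (- dot (a l) x) := by nlinarith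
      exact same_sign (same_sign t1 t2) t3
    refine ⟨j4, j1, (det (a j) (a l) c * dot c x) • cr (a j) (a l), ?_, ?_, fun k k1 k2 k3 => ?_⟩
    · rw [dot_smul]; exact mul_eq_zero_of_right _ (det_r _ _)
    · rw [dot_smul]; exact mul_eq_zero_of_right _ (det_l _ _)
    · have y3 := x2 k (by omega) k2
      rw [up_lt k k1] at y3
      refine same_sign y3 ?_
      have e := gp (a j) (a l) c (a k) x
      rw [x1, det_sw (a k) c] at e
      have hAB := h1 j j4 k k1 k2.symm j1 k3
      rw [dot_smul]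
      change 0 < _ * (_ * det (a k) (a j) (a l))
      set A := det (a k) (a j) (a l)
      set B := det (a k) (a j) c
      have : dot (a k) x * (det (a j) (a l) c * dot c x * A) =
          (dot c x * A) ^ 2 + (dot c x * (- dot (a l) x)) * (A * B) := by linear_combination (dot c x * A) * e
      rw [this]; positivity)
  have h2 := Finset.pred_card_le_card_erase (s := Sides (n + 1) (Function.update a n c) σ) (a := n)
  have h3 := Finset.pred_card_le_card_erase (s := (Sides (n + 1) (Function.update a n c) σ).erase n) (a := l)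
  omega

theorem hit
    (h1 : ∀ j < n, ∀ k < n, j ≠ k → j ≠ l → k ≠ l → 0 < det (a k) (a j) (a l) * det (a k) (a j) c)
    (h2 : ∀ j < n, j ≠ l → det (a j) (a l) c ≠ 0) (hl : l < n) (hc : dot c p = 0) (hp : dot (a l) p = 0)
    (σ : ℕ → ℝ) (y : V) (hy : dot c y = 0) (hy' : ∀ j < n, 0 < σ j * dot (a j) y)
    (hne : ∃ j < n, σ j * dot (a j) p < 0) :
    ∃ j < n, σ j * dot (a j) p < 0 ∧ ∃ v, dot (a l) v = 0 ∧ dot (a j) v = 0 ∧
      (∀ m < n, m ≠ j → m ≠ l → 0 < σ m * dot (a m) v) ∧ σ l * dot c v < 0 := by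
  obtain ⟨j0, j1, j2⟩ := hne
  obtain ⟨j, hj, hmin⟩ := Finset.exists_min_image ((Finset.range n).filter fun j => σ j * dot (a j) p < 0)
    (fun j => σ j * dot (a j) y / (-(σ j * dot (a j) p))) ⟨j0, by simp [j1, j2]⟩
  simp only [Finset.mem_filter, Finset.mem_range] at hj hmin
  obtain ⟨hj1, hj2⟩ := hj
  have hjl : j ≠ l := by rintro rfl; rw [hp] at hj2; simp at hj2
  set t := σ j * dot (a j) y / (-(σ j * dot (a j) p)) with ht
  have ht0 : 0 < t := div_pos (hy' j hj1) (by linarith)
  have hσj : σ j ≠ 0 := by rintro h; rw [h] at hj2; simp at hj2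
  set u := y + t • p with hu
  have u1 : dot c u = 0 := by rw [hu, dot_add, dot_smul, hy, hc]; simp
  have u2 : dot (a l) u = dot (a l) y := by rw [hu, dot_add, dot_smul, hp]; simp
  have u3 : dot (a j) u = 0 := by
    have : t * (-(σ j * dot (a j) p)) = σ j * dot (a j) y := div_mul_cancel₀ _ (by linarith)
    apply mul_left_cancel₀ hσj
    rw [hu, dot_add, dot_smul]; linear_combination -this
  have hly := hy' l hl
  have hly0 : dot (a l) y ≠ 0 := by rintro h; rw [h] at hly; simp at hly
  have hD := h2 j hj1 hjl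
  refine ⟨j, hj1, hj2, (-(det (a j) (a l) c * dot (a l) y)) • cr (a j) (a l), ?_, ?_, fun m m1 m2 m3 => ?_, ?_⟩
  · rw [dot_smul]; exact mul_eq_zero_of_right _ (det_r _ _)
  · rw [dot_smul]; exact mul_eq_zero_of_right _ (det_l _ _)
  · have hAB := h1 j hj1 m m1 m2.symm hjl m3
    have e := gp (a j) (a l) c (a m) u
    rw [u1, u2, u3, det_sw (a m) c] at e
    have hge : 0 ≤ σ m * dot (a m) u := by
      rw [hu, dot_add, dot_smul]
      have := hy' m m1
      by_cases hm : σ m * dot (a m) p < 0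
      · have h3 := hmin m ⟨m1, hm⟩
        rw [le_div_iff₀ (by linarith)] at h3
        nlinarith
      · push Not at hm
        nlinarith [mul_nonneg ht0.le hm]
    rw [dot_smul]
    change 0 < _ * (_ * det (a m) (a j) (a l))
    set A := det (a m) (a j) (a l)
    set B := det (a m) (a j) c
    have key : dot (a m) u * (-(det (a j) (a l) c * dot (a l) y) * A) = dot (a l) y ^ 2 * (A * B) := by
      linear_combination (-(dot (a l) y * A)) * e
    have kpos : 0 < dot (a m) u * (-(det (a j) (a l) c * dot (a l) y) * A) := by rw [key]; positivity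
    have hσm : σ m ≠ 0 := by rintro h; have := hy' m m1; rw [h] at this; simp at this
    have hum : dot (a m) u ≠ 0 := by rintro h; rw [h] at kpos; simp at kpos
    exact same_sign (lt_of_le_of_ne hge (mul_ne_zero hσm hum).symm) kpos
  · rw [dot_smul]
    change _ * (_ * det c (a j) (a l)) < 0
    rw [det_cyc c]
    have : 0 < det (a j) (a l) c * det (a j) (a l) c := mul_self_pos.2 hD
    nlinarith [mul_pos this hly]

theorem drop {σ : ℕ → ℝ} {j : ℕ} (hj : j ∈ Sides (n + 1) (Function.update a n c) σ) (hn : j ≠ n) :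
    j ∈ Sides n a σ := by
  obtain ⟨j3, x, x1, x2⟩ := mem_Sides.1 hj
  have j4 : j < n := by omega
  rw [up_lt j j4] at x1
  refine mem_Sides.2 ⟨j4, x, x1, fun k k1 k2 => ?_⟩
  have := x2 k (by omega) k2
  rwa [up_lt k k1] at this

theorem thick (hl : l < n)
    (h1 : ∀ j < n, ∀ k < n, j ≠ k → j ≠ l → k ≠ l → 0 < det (a k) (a j) (a l) * det (a k) (a j) c)
    (h2 : ∀ j < n, j ≠ l → det (a j) (a l) c ≠ 0) (hc : dot c p = 0) (hp : dot (a l) p = 0)
    (hp' : ∀ j < n, j ≠ l → dot (a j) p ≠ 0)
    (σ : ℕ → ℝ) (hσ0 : ∀ j < n, σ j ≠ 0) (h5 : (Sides n a σ).card ≤ 5)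
    (h4 : ∀ t : ℝ, (∀ j < n, j ≠ l → 0 < σ j * (t * dot (a j) p)) → (Sides n a σ).card ≤ 4)
    (hσ : 0 < σ l * σ n) : (Sides (n + 1) (Function.update a n c) σ).card ≤ 5 := by
  have hsub : Sides (n + 1) (Function.update a n c) σ ⊆ insert n (Sides n a σ) := fun j hj => by
    by_cases h : j = n
    · simp [h]
    · exact Finset.mem_insert_of_mem (drop hj h)
  have hle : (Sides n a σ).card ≤ 4 → (Sides (n + 1) (Function.update a n c) σ).card ≤ 5 := fun h =>
    le_trans (Finset.card_le_card hsub) (le_trans (Finset.card_insert_le _ _) (by omega))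
  by_cases hn : n ∈ Sides (n + 1) (Function.update a n c) σ
  swap
  · exact le_trans (Finset.card_le_card fun j hj => drop hj (by rintro rfl; exact hn hj)) h5
  by_cases hA : ∃ j < n, σ j * dot (a j) p < 0
  swap
  · push Not at hA
    exact hle (h4 1 fun j j1 j2 => by
      rw [one_mul]; exact lt_of_le_of_ne (hA j j1) (mul_ne_zero (hσ0 j j1) (hp' j j1 j2)).symm)
  by_cases hB : ∃ j < n, σ j * dot (a j) ((-1 : ℝ) • p) < 0
  swap
  · push Not at hB
    exact hle (h4 (-1) fun j j1 j2 => by
      have := hB j j1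
      rw [dot_smul] at this
      exact lt_of_le_of_ne this (mul_ne_zero (hσ0 j j1) (mul_ne_zero (by norm_num) (hp' j j1 j2))).symm)
  obtain ⟨-, y, y1, y2⟩ := mem_Sides.1 hn
  rw [Function.update_self] at y1
  have y3 : ∀ j < n, 0 < σ j * dot (a j) y := fun j hj => by
    have := y2 j (by omega) hj.ne
    rwa [up_lt j hj] at this
  obtain ⟨j, j1, j2, v, v1, v2, v3, v4⟩ := hit h1 h2 hl hc hp σ y y1 y3 hA
  obtain ⟨k, k1, k2, w, w1, w2, w3, -⟩ := hit h1 h2 hl (p := (-1 : ℝ) • p) (by rw [dot_smul, hc]; simp)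
    (by rw [dot_smul, hp]; simp) σ y y1 y3 hB
  rw [dot_smul] at k2
  have hjk : j ≠ k := by rintro rfl; linarith
  have hjl : j ≠ l := by rintro rfl; rw [hp] at j2; simp at j2
  have hkl : k ≠ l := by rintro rfl; rw [hp] at k2; simp at k2
  have hlS : l ∈ Sides n a σ := by
    refine mem_Sides.2 ⟨hl, v + w, by rw [dot_add, v1, w1, add_zero], fun m m1 m2 => ?_⟩
    rw [dot_add, mul_add]
    by_cases hmj : m = j
    · subst hmj; rw [v2]; simpa using w3 m m1 hjk m2
    by_cases hmk : m = k
    · subst hmk; rw [w2]; simpa using v3 m m1 hmj m2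
    exact add_pos (v3 m m1 hmj m2) (w3 m m1 hmk m2)
  have hnl : l ∉ Sides (n + 1) (Function.update a n c) σ := by
    intro hlm
    obtain ⟨-, x, x1, x2⟩ := mem_Sides.1 hlm
    rw [up_lt l hl] at x1
    have xn := x2 n (by omega) hl.ne'
    rw [Function.update_self] at xn
    have xj := x2 j (by omega) hjl
    have xk := x2 k (by omega) hkl
    rw [up_lt j j1] at xj
    rw [up_lt k k1] at xk
    have xl : 0 < σ l * dot c x := same_sign hσ xn
    set z := (-(σ l * dot c v)) • x + (σ l * dot c x) • v with hz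
    have z1 : dot (a l) z = 0 := by rw [hz, dot_add, dot_smul, dot_smul, x1, v1]; simp
    have z2 : dot c z = 0 := by rw [hz, dot_add, dot_smul, dot_smul]; ring
    have z3 : 0 < σ j * dot (a j) z := by
      rw [hz, dot_add, dot_smul, dot_smul, v2]
      nlinarith [mul_pos (neg_pos.2 v4) xj]
    have z4 : 0 < σ k * dot (a k) z := by
      rw [hz, dot_add, dot_smul, dot_smul]
      nlinarith [mul_pos (neg_pos.2 v4) xk, mul_pos xl (v3 k k1 hjk.symm hkl)]
    have e1 := gp (a j) (a l) c (a k) z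
    have e2 := gp (a j) (a l) c (a k) p
    rw [z1, z2] at e1
    rw [hp, hc] at e2
    have hD := h2 j j1 hjl
    have e3 : dot (a k) z * dot (a j) p = dot (a k) p * dot (a j) z := by
      apply mul_left_cancel₀ hD
      linear_combination dot (a j) p * e1 - dot (a j) z * e2
    have t1 := mul_pos z4 (neg_pos.2 j2)
    have t2 := mul_pos z3 (neg_pos.2 k2)
    have : σ k * dot (a k) z * -(σ j * dot (a j) p) + σ j * dot (a j) z * -(σ k * (-1 * dot (a k) p)) = 0 := by
      linear_combination (-(σ k * σ j)) * e3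
    linarith
  have : Sides (n + 1) (Function.update a n c) σ ⊆ insert n ((Sides n a σ).erase l) := fun i hi => by
    by_cases h : i = n
    · simp [h]
    · exact Finset.mem_insert_of_mem (Finset.mem_erase.2 ⟨by rintro rfl; exact hnl hi, drop hi h⟩)
  have h6 := Finset.card_le_card this
  have h7 := Finset.card_insert_le n ((Sides n a σ).erase l)
  have h8 := Finset.card_erase_of_mem hlS
  have h9 := Finset.card_pos.2 ⟨l, hlS⟩
  omega

end step

theorem step (n : ℕ) (hn : 3 ≤ n) (a : ℕ → V) (h : Inv n a) : ∃ a', Inv (n + 1) a' := by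
  obtain ⟨hg, h5, l, hl, p, hp, hp', h4⟩ := h
  obtain ⟨j0, j1, j2, k0, k1, k2, k3⟩ : ∃ j, j < n ∧ j ≠ l ∧ ∃ k, k < n ∧ k ≠ l ∧ k ≠ j := by
    rcases l with _ | _ | l
    · exact ⟨1, by omega, by omega, 2, by omega, by omega, by omega⟩
    · exact ⟨0, by omega, by omega, 2, by omega, by omega, by omega⟩
    · exact ⟨0, by omega, by omega, 1, by omega, by omega, by omega⟩
  have hal : dot (a l) (a l) ≠ 0 := by
    intro h0
    apply hg l hl j0 j1 k0 k1 j2.symm k2.symm k3.symm
    simp only [dot] at h0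
    have e1 : (a l).1 = 0 := by nlinarith [mul_self_nonneg (a l).1, mul_self_nonneg (a l).2.1, mul_self_nonneg (a l).2.2]
    have e2 : (a l).2.1 = 0 := by nlinarith [mul_self_nonneg (a l).1, mul_self_nonneg (a l).2.1, mul_self_nonneg (a l).2.2]
    have e3 : (a l).2.2 = 0 := by nlinarith [mul_self_nonneg (a l).1, mul_self_nonneg (a l).2.1, mul_self_nonneg (a l).2.2]
    simp [det, dot, e1, e2, e3]
  have hev : ∀ᶠ ε in nhds (0 : ℝ), ∀ j ∈ Finset.range n, ∀ k ∈ Finset.range n, j ≠ k → j ≠ l → k ≠ l →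
      0 < det (a k) (a j) (a l) * (det (a k) (a j) (a l) + ε * det (a k) (a j) (cr (a l) p)) := by
    rw [Filter.eventually_all_finset]
    intro j hj
    rw [Filter.eventually_all_finset]
    intro k hk
    by_cases hh : j ≠ k ∧ j ≠ l ∧ k ≠ l
    · have hD := hg k (Finset.mem_range.1 hk) j (Finset.mem_range.1 hj) l hl hh.1.symm hh.2.2 hh.2.1
      have hcont : Continuous fun ε : ℝ => det (a k) (a j) (a l) *
          (det (a k) (a j) (a l) + ε * det (a k) (a j) (cr (a l) p)) := by fun_prop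
      have := hcont.continuousAt (x := 0) |>.eventually (lt_mem_nhds (a := 0) (by simpa using mul_self_pos.2 hD))
      exact this.mono fun ε h _ _ _ => h
    · exact Filter.Eventually.of_forall fun ε h1 h2 h3 => absurd ⟨h1, h2, h3⟩ hh
  obtain ⟨ε, hε, hε0⟩ := ((hev.filter_mono (nhdsWithin_le_nhds (s := {0}ᶜ))).and self_mem_nhdsWithin).exists
  have hε0 : ε ≠ 0 := hε0
  set c := a l + ε • cr (a l) p with hc
  have h1 : ∀ j < n, ∀ k < n, j ≠ k → j ≠ l → k ≠ l → 0 < det (a k) (a j) (a l) * det (a k) (a j) c := by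
    intro j hj k hk t1 t2 t3
    have := hε j (Finset.mem_range.2 hj) k (Finset.mem_range.2 hk) t1 t2 t3
    convert this using 2
    simp [hc, det, dot, cr]; ring
  have h2 : ∀ j < n, j ≠ l → det (a j) (a l) c ≠ 0 := by
    intro j hj t
    have : det (a j) (a l) c = ε * (dot (a j) (a l) * dot (a l) p - dot (a l) (a l) * dot (a j) p) := by
      simp [hc, det, dot, cr]; ring
    rw [this, hp]
    simpa [hε0, hal] using hp' j hj t
  have h3 : dot c p = 0 := by
    have : dot c p = dot (a l) p := by simp [hc, dot, cr]; ring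
    rw [this, hp]
  have h6 : ∀ j < n, ∀ k < n, j ≠ k → det (a k) (a j) c ≠ 0 := by
    intro j hj k hk t
    by_cases t1 : j = l
    · subst t1; exact h2 k hk t.symm
    by_cases t2 : k = l
    · subst t2
      rw [det_cyc, det_sw]; exact neg_ne_zero.2 (h2 j hj t)
    intro h0
    have := h1 j hj k hk t t1 t2
    rw [h0] at this; simp at this
  refine ⟨Function.update a n c, ?_, ?_, j0, by omega, cr (a j0) (a l) + cr (a j0) c, ?_, ?_, ?_⟩
  · intro i hi j hj k hk t1 t2 t3
    by_cases i1 : i = n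
    · subst i1
      rw [Function.update_self, up_lt j (by omega), up_lt k (by omega), det_cyc]
      exact h6 k (by omega) j (by omega) t3.symm
    by_cases i2 : j = n
    · subst i2
      rw [Function.update_self, up_lt i (by omega), up_lt k (by omega), det_sw]
      exact neg_ne_zero.2 (h6 k (by omega) i (by omega) t2.symm)
    by_cases i3 : k = n
    · subst i3
      rw [Function.update_self, up_lt i (by omega), up_lt j (by omega)]
      exact h6 j (by omega) i (by omega) t1.symm
    rw [up_lt i (by omega), up_lt j (by omega), up_lt k (by omega)]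
    exact hg i (by omega) j (by omega) k (by omega) t1 t2 t3
  · intro σ hσ
    rcases lt_or_gt_of_ne (mul_ne_zero (hσ l (by omega)) (hσ n (by omega))) with h | h
    · exact le_trans (thin hg hl h1 σ h) (by norm_num)
    · exact thick hl h1 h2 h3 hp hp' σ (fun j hj => hσ j (by omega)) (h5 σ fun j hj => hσ j (by omega)) (h4 σ) h
  · rw [up_lt j0 j1, dot_add]
    change det _ _ _ + det _ _ _ = 0
    rw [det_l, det_l, add_zero]
  · intro m m1 m2
    rw [dot_add]
    change det _ _ _ + det _ _ _ ≠ 0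
    by_cases t1 : m = n
    · subst t1
      rw [Function.update_self, det_r, add_zero, det_cyc]; exact h2 j0 j1 j2
    rw [up_lt m (by omega)]
    by_cases t2 : m = l
    · subst t2
      rw [det_r, zero_add]; exact h6 j0 j1 m hl j2
    have := h1 j0 j1 m (by omega) (Ne.symm m2) j2 t2
    intro h0
    have e : det (a m) (a j0) c = - det (a m) (a j0) (a l) := by linarith
    rw [e] at this
    nlinarith [mul_self_nonneg (det (a m) (a j0) (a l))]
  · intro σ t ht
    have t1 := ht l (by omega) j2.symm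
    have t2 := ht n (by omega) j1.ne'
    rw [up_lt l hl, dot_add] at t1
    rw [Function.update_self, dot_add] at t2
    change 0 < _ * (_ * (det _ _ _ + det _ _ _)) at t1 t2
    rw [det_r, zero_add, det_cyc, det_sw] at t1
    rw [det_r, add_zero, det_cyc] at t2
    refine thin hg hl h1 σ ?_
    have t3 : 0 < (-σ l) * (t * det (a j0) (a l) c) := by linarith
    have := same_sign t3 (by rw [mul_comm]; exact t2)
    linarith

theorem base : Inv 3 (fun i => if i = 0 then (1, 0, 0) else if i = 1 then (0, 1, 0) else (0, 0, 1)) := by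
  have hc : ∀ a σ, (Sides 3 a σ).card ≤ 3 := fun a σ => by
    classical
    exact le_trans (Finset.card_filter_le _ _) (by simp)
  refine ⟨?_, fun σ _ => le_trans (hc _ _) (by norm_num), 0, by norm_num, (0, 1, 1), by simp [dot], ?_,
    fun σ _ _ => le_trans (hc _ _) (by norm_num)⟩
  · intro i hi j hj k hk t1 t2 t3
    interval_cases i <;> interval_cases j <;> interval_cases k <;> simp_all [det, dot, cr]
  · intro j hj t
    interval_cases j <;> simp_all [dot]

theorem ex (n : ℕ) (hn : 3 ≤ n) : ∃ a, Inv n a := by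
  induction n, hn using Nat.le_induction with
  | base => exact ⟨_, base⟩
  | succ n hn ih => obtain ⟨a, ha⟩ := ih; exact step n hn a ha

end Pool.Agent.H25.GCirc
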