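import Mathlib

namespace Pool.Agent.H25.GEn

open Finset Matrix

variable {n : Type} [Fintype n] [DecidableEq n]

lemma spec {A : Matrix n n ℝ} (hA : A.IsHermitian) : ∃ U : n → n → ℝ,
    (∀ i j, ∑ k, U i k * U j k = if i = j then 1 else 0) ∧
    (∀ k l, ∑ i, U i k * U i l = if k = l then 1 else 0) ∧
    (∀ i k, ∑ j, A i j * U j k = hA.eigenvalues k * U i k) := by
  refine ⟨fun i k => (hA.eigenvectorUnitary : Matrix n n ℝ) i k, fun i j => ?_, fun k l => ?_,
    fun i k => ?_⟩
  · have := congrFun (congrFun (Matrix.mem_unitaryGroup_iff.1 hA.eigenvectorUnitary.2) i) j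
    simpa [Matrix.mul_apply, Matrix.one_apply] using this
  · have := congrFun (congrFun (Matrix.mem_unitaryGroup_iff'.1 hA.eigenvectorUnitary.2) k) l
    simpa [Matrix.mul_apply, Matrix.one_apply] using this
  · have := congrFun (hA.mulVec_eigenvectorBasis k) i
    simpa [Matrix.mulVec, dotProduct] using this

lemma upper {A : Matrix n n ℝ} (hA : A.IsHermitian) (c : ℝ) (hc : 0 ≤ c) (X : n → n → ℝ)
    (s : n → ℝ) (hs : ∀ t, |s t| ≤ 1) :
    c * ∑ k, |hA.eigenvalues k| ≤ ∑ t, ∑ i, X t i ^ 2 +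
      ∑ i, ∑ j, |c * A i j - ∑ t, s t * X t i * X t j| := by
  obtain ⟨U, h1, h2, h3⟩ := spec hA
  set R : n → n → ℝ := fun i j => c * A i j - ∑ t, s t * X t i * X t j with hR
  have e1 : ∀ k, c * hA.eigenvalues k = ∑ t, s t * (∑ i, X t i * U i k) ^ 2 +
      ∑ i, ∑ j, R i j * (U i k * U j k) := by
    intro k
    have a1 : hA.eigenvalues k = ∑ i, ∑ j, A i j * (U i k * U j k) := by
      have : ∀ i, ∑ j, A i j * (U i k * U j k) = hA.eigenvalues k * (U i k * U i k) := fun i => by
        have := h3 i k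
        calc _ = U i k * ∑ j, A i j * U j k := by
              rw [Finset.mul_sum]; exact Finset.sum_congr rfl fun j _ => by ring
          _ = _ := by rw [this]; ring
      simp only [this]
      rw [← Finset.mul_sum, h2]; simp
    have a2 : ∑ t, s t * (∑ i, X t i * U i k) ^ 2 =
        ∑ i, ∑ j, (∑ t, s t * X t i * X t j) * (U i k * U j k) := by
      simp only [sq, Finset.mul_sum, Finset.sum_mul]
      rw [Finset.sum_comm]
      refine Finset.sum_congr rfl fun i _ => ?_
      rw [Finset.sum_comm]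
      exact Finset.sum_congr rfl fun j _ => Finset.sum_congr rfl fun t _ => by ring
    rw [a2, a1]
    simp only [Finset.mul_sum (a := c), ← Finset.sum_add_distrib, hR]
    exact Finset.sum_congr rfl fun i _ => Finset.sum_congr rfl fun j _ => by ring
  have e2 : ∀ k, c * |hA.eigenvalues k| ≤ ∑ t, (∑ i, X t i * U i k) ^ 2 +
      ∑ i, ∑ j, |R i j| * ((U i k * U i k + U j k * U j k) / 2) := by
    intro k
    rw [← abs_of_nonneg hc, ← abs_mul, e1]
    refine (abs_add_le _ _).trans (add_le_add ?_ ?_)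
    · refine (Finset.abs_sum_le_sum_abs _ _).trans (Finset.sum_le_sum fun t _ => ?_)
      rw [abs_mul, abs_of_nonneg (sq_nonneg (∑ i, X t i * U i k))]
      exact mul_le_of_le_one_left (sq_nonneg _) (hs t)
    · refine (Finset.abs_sum_le_sum_abs _ _).trans (Finset.sum_le_sum fun i _ => ?_)
      refine (Finset.abs_sum_le_sum_abs _ _).trans (Finset.sum_le_sum fun j _ => ?_)
      rw [abs_mul]
      refine mul_le_mul_of_nonneg_left ?_ (abs_nonneg _)
      rw [abs_le]
      constructor <;> nlinarith [sq_nonneg (U i k - U j k), sq_nonneg (U i k + U j k)]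
  rw [Finset.mul_sum]
  refine (Finset.sum_le_sum fun k _ => e2 k).trans (le_of_eq ?_)
  rw [Finset.sum_add_distrib]
  congr 1
  · rw [Finset.sum_comm]
    refine Finset.sum_congr rfl fun t _ => ?_
    have : ∀ k, (∑ i, X t i * U i k) ^ 2 = ∑ i, ∑ j, X t i * X t j * (U i k * U j k) := fun k => by
      rw [sq, Finset.sum_mul_sum]
      exact Finset.sum_congr rfl fun i _ => Finset.sum_congr rfl fun j _ => by ring
    simp only [this]
    rw [Finset.sum_comm]
    refine Finset.sum_congr rfl fun i _ => ?_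
    rw [Finset.sum_comm]
    simp only [← Finset.mul_sum, h1]
    simp [sq]
  · rw [Finset.sum_comm]
    refine Finset.sum_congr rfl fun i _ => ?_
    rw [Finset.sum_comm]
    refine Finset.sum_congr rfl fun j _ => ?_
    rw [← Finset.mul_sum, ← Finset.sum_div, Finset.sum_add_distrib, h1, h1]
    simp [hR]

lemma lower {A : Matrix n n ℝ} (hA : A.IsHermitian) (D : ℝ) (hD : 0 < D) (S : n → n → ℝ) :
    2 * D * ∑ i, ∑ j, A i j * S i j ≤ (∑ k, |hA.eigenvalues k|) *
      (2 * D ^ 2 + ∑ i, ∑ j, |∑ t, S t i * S t j - if i = j then D ^ 2 else 0|) := by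
  obtain ⟨U, h1, h2, h3⟩ := spec hA
  set R : n → n → ℝ := fun i j => ∑ t, S t i * S t j - if i = j then D ^ 2 else 0 with hR
  have hU : ∀ i k, U i k * U i k ≤ 1 := fun i k => by
    have := h1 i i
    simp only [if_true] at this
    rw [← this]
    exact Finset.single_le_sum (f := fun k => U i k * U i k) (fun k _ => mul_self_nonneg _)
      (mem_univ k)
  have a1 : ∀ i j, A i j = ∑ k, hA.eigenvalues k * (U i k * U j k) := fun i j => by
    have : ∀ k, hA.eigenvalues k * (U i k * U j k) = ∑ l, A i l * (U l k * U j k) := fun k => by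
      rw [← mul_assoc, ← h3, Finset.sum_mul]
      exact Finset.sum_congr rfl fun l _ => by ring
    simp only [this]
    rw [Finset.sum_comm]
    simp only [← Finset.mul_sum, h1]
    simp
  have a2 : ∑ i, ∑ j, A i j * S i j =
      ∑ k, hA.eigenvalues k * ∑ i, U i k * ∑ j, S i j * U j k := by
    simp only [a1, Finset.sum_mul, Finset.mul_sum]
    rw [Finset.sum_comm (γ := n) (f := fun k i => ∑ j, _ * (U i k * (S i j * U j k)))]
    refine Finset.sum_congr rfl fun i _ => ?_
    rw [Finset.sum_comm]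
    exact Finset.sum_congr rfl fun j _ => Finset.sum_congr rfl fun k _ => by ring
  have a3 : ∀ k, ∑ t, (∑ j, S t j * U j k) ^ 2 ≤ D ^ 2 + ∑ i, ∑ j, |R i j| := fun k => by
    have b1 : ∑ t, (∑ j, S t j * U j k) ^ 2 = ∑ i, ∑ j, (∑ t, S t i * S t j) * (U i k * U j k) := by
      simp only [sq, Finset.mul_sum, Finset.sum_mul]
      rw [Finset.sum_comm]
      refine Finset.sum_congr rfl fun i _ => ?_
      rw [Finset.sum_comm]
      exact Finset.sum_congr rfl fun j _ => Finset.sum_congr rfl fun t _ => by ring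
    have b2 : ∑ i, ∑ j, (if i = j then D ^ 2 else 0) * (U i k * U j k) = D ^ 2 := by
      simp only [ite_mul, zero_mul, Finset.sum_ite_eq, mem_univ, if_true, ← Finset.mul_sum, h2]
      simp
    rw [b1, ← b2]
    simp only [← Finset.sum_add_distrib]
    refine Finset.sum_le_sum fun i _ => Finset.sum_le_sum fun j _ => ?_
    have c1 : |U i k * U j k| ≤ 1 := by
      rw [abs_le]
      constructor <;> nlinarith [sq_nonneg (U i k - U j k), sq_nonneg (U i k + U j k), hU i k, hU j k]
    have c2 : R i j * (U i k * U j k) ≤ |R i j| :=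
      (le_abs_self _).trans (by rw [abs_mul]; exact mul_le_of_le_one_right (abs_nonneg _) c1)
    simp only [hR] at c2 ⊢
    linarith
  have a4 : ∀ k, 2 * D * |∑ i, U i k * ∑ j, S i j * U j k| ≤ 2 * D ^ 2 + ∑ i, ∑ j, |R i j| := by
    intro k
    have b1 : 2 * D * |∑ i, U i k * ∑ j, S i j * U j k| ≤
        ∑ i, (D ^ 2 * (U i k * U i k) + (∑ j, S i j * U j k) ^ 2) := by
      refine (mul_le_mul_of_nonneg_left (Finset.abs_sum_le_sum_abs _ _) (by positivity)).trans ?_
      rw [Finset.mul_sum]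
      refine Finset.sum_le_sum fun i _ => ?_
      generalize ∑ j, S i j * U j k = y
      rcases abs_cases (U i k * y) with h | h <;> rw [h.1] <;>
        nlinarith [sq_nonneg (D * U i k - y), sq_nonneg (D * U i k + y)]
    rw [Finset.sum_add_distrib, ← Finset.mul_sum, h2] at b1
    simp only [if_true] at b1
    linarith [a3 k]
  rw [a2, Finset.mul_sum, Finset.sum_mul]
  refine Finset.sum_le_sum fun k _ => ?_
  have := mul_le_mul_of_nonneg_left (a4 k) (abs_nonneg (hA.eigenvalues k))
  refine le_trans ?_ this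
  have e := le_abs_self (hA.eigenvalues k * ∑ i, U i k * ∑ j, S i j * U j k)
  rw [abs_mul] at e
  nlinarith

/-- integer certificate: upper bound -/
lemma upperZ {A : Matrix n n ℝ} (hA : A.IsHermitian) (B : n → n → ℤ) (hB : ∀ i j, A i j = B i j)
    (c : ℕ) (X : n → n → ℤ) (s : n → ℤ) (hs : ∀ t, |s t| ≤ 1) (M : ℤ)
    (h : ∑ t, ∑ i, X t i ^ 2 + ∑ i, ∑ j, |c * B i j - ∑ t, s t * X t i * X t j| ≤ M) :
    (c : ℝ) * ∑ k, |hA.eigenvalues k| ≤ M := by
  refine (upper hA c (Nat.cast_nonneg _) (fun t i => X t i) (fun t => s t)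
    (fun t => by exact_mod_cast hs t)).trans ?_
  simp only [hB]
  exact_mod_cast h

/-- integer certificate: lower bound -/
lemma lowerZ {A : Matrix n n ℝ} (hA : A.IsHermitian) (B : n → n → ℤ) (hB : ∀ i j, A i j = B i j)
    (D : ℤ) (hD : 0 < D) (S : n → n → ℤ) (T M : ℤ) (hT : T ≤ ∑ i, ∑ j, B i j * S i j)
    (hM : 2 * D ^ 2 + ∑ i, ∑ j, |∑ t, S t i * S t j - if i = j then D ^ 2 else 0| ≤ M) :
    (2 * D * T : ℝ) ≤ (∑ k, |hA.eigenvalues k|) * M := by
  have hD' : (0 : ℝ) < D := by exact_mod_cast hD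
  have h := lower hA D hD' (fun i j => S i j)
  have hT' : (T : ℝ) ≤ ∑ i, ∑ j, A i j * S i j := by
    simp only [hB]; exact_mod_cast hT
  have hM' : 2 * (D : ℝ) ^ 2 + ∑ i, ∑ j, |∑ t, (S t i : ℝ) * S t j -
      if i = j then (D : ℝ) ^ 2 else 0| ≤ M := by exact_mod_cast hM
  have h0 : 0 ≤ ∑ k, |hA.eigenvalues k| := Finset.sum_nonneg fun _ _ => abs_nonneg _
  calc _ ≤ 2 * D * ∑ i, ∑ j, A i j * S i j := by gcongr
    _ ≤ _ := h
    _ ≤ _ := by gcongr

end Pool.Agent.H25.GEn
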