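import Pool.Agent.H25.GpcDefs
import Pool.Agent.H24.Pcg1

namespace Pool.Agent.H25.Gpc1
open SimpleGraph Pool.Agent.H25.GpcDefs Pool.Agent.H24.Pcg1

lemma abstr {V : Type} {d : V → V → ℝ} (h : TreeDist d) : (∀ x y, d x y = d y x) ∧
    ∀ x y z t, d x y + d z t ≤ d x z + d y t ∨ d x y + d z t ≤ d x t + d y z := by
  obtain ⟨N, hN, T, w, ι, hT, hw, -, -, hd⟩ := h
  have e : ∀ u v, d u v = dst hT w (ι u) (ι v) := fun u v => hd u v _ (pth_isPath hT _ _)
  refine ⟨fun x y => ?_, fun x y z t => ?_⟩
  · rw [hd x y _ (pth_isPath hT _ _), hd y x _ (pth_isPath hT _ _).reverse, Walk.edges_reverse,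
      List.map_reverse, List.sum_reverse]
  · simp only [e]; exact four hT w hw _ _ _ _

lemma t3 {V : Type} {d : V → V → ℝ} (hs : ∀ x y, d x y = d y x)
    (h4 : ∀ x y z t, d x y + d z t ≤ d x z + d y t ∨ d x y + d z t ≤ d x t + d y z)
    (x y : Fin 3 → V) (h : ∀ a b c, b ≠ c → d (x b) (y c) < d (x a) (y a)) : False := by
  have k : ∀ a b c : Fin 3, a ≠ c → b ≠ c →
      d (x a) (x b) < d (x a) (x c) ∨ d (x a) (x b) < d (x b) (x c) := by
    intro a b c h1 h2
    rcases h4 (x a) (x b) (x c) (y c) with q | q
    · left; linarith [h c b c h2]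
    · right; linarith [h c a c h1]
  have k1 := k 0 1 2 (by decide) (by decide)
  have k2 := k 0 2 1 (by decide) (by decide)
  have k3 := k 1 2 0 (by decide) (by decide)
  rw [hs (x 2) (x 1)] at k2
  rw [hs (x 1) (x 0), hs (x 2) (x 0)] at k3
  rcases k1 with a | a <;> rcases k2 with b | b <;> rcases k3 with c | c <;> linarith

section cat
variable {V : Type} (M : ℕ) (p : V → Fin (M + 1))

def pos : V ⊕ Fin (M + 1) → ℕ := Sum.elim (fun v => (p v : ℕ)) (fun i => (i : ℕ))

def cat : SimpleGraph (V ⊕ Fin (M + 1)) where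
  Adj
    | .inl _, .inl _ => False
    | .inl v, .inr i => p v = i
    | .inr i, .inl v => p v = i
    | .inr i, .inr j => (i : ℕ) + 1 = j ∨ (j : ℕ) + 1 = i
  symm := ⟨by rintro (a | a) (b | b) h <;> simp_all [or_comm]⟩
  loopless := ⟨by rintro (a | a) h <;> simp_all⟩

lemma closed {N : Type} {H : SimpleGraph N} (S : N → Prop) (hS : ∀ a b, H.Adj a b → S a → S b)
    {a b : N} (h : H.Reachable a b) (ha : S a) : S b := by
  obtain ⟨q⟩ := h
  induction q with
  | nil => exact ha
  | cons h q ih => exact ih (hS _ _ h ha)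

lemma closed' {N : Type} {H : SimpleGraph N} (S : N → Prop) (x : N)
    (hS : ∀ a b, H.Adj a b → S a → b ≠ x → S b)
    {a b : N} (q : H.Walk a b) (hx : x ∉ q.support) (ha : S a) : S b := by
  induction q with
  | nil => exact ha
  | @cons u v w h q ih =>
    rw [Walk.support_cons, List.mem_cons, not_or] at hx
    exact ih hx.2 (hS _ _ h ha fun e => hx.2 (e ▸ q.start_mem_support))

lemma cat_conn : (cat M p).Connected := by
  have h1 : ∀ n (hn : n < M + 1), (cat M p).Reachable (.inr 0) (.inr ⟨n, hn⟩) := by
    intro n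
    induction n with
    | zero => intro hn; exact Reachable.refl _
    | succ n ih =>
      intro hn
      exact (ih (by omega)).trans (Adj.reachable (Or.inl rfl))
  have h2 : ∀ x, (cat M p).Reachable (.inr 0) x := by
    rintro (v | i)
    · exact (h1 _ (p v).2).trans (Adj.reachable (show p v = _ from rfl))
    · exact h1 _ i.2
  have : Nonempty (V ⊕ Fin (M + 1)) := ⟨.inr 0⟩
  exact ⟨fun a b => (h2 a).symm.trans (h2 b)⟩

lemma cat_acyc : (cat M p).IsAcyclic := by
  have b1 : ∀ v i, p v = i → (cat M p).IsBridge s(.inl v, .inr i) := by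
    intro v i hi
    rw [isBridge_iff]
    intro h
    have := closed (fun z => z = .inl v) (by
      rintro a (b | b) hab rfl
      · exact absurd hab.1 (by simp [cat])
      · rw [deleteEdges_adj] at hab
        have : p v = b := hab.1
        exact absurd (by rw [← this, hi]; rfl) hab.2) h rfl
    simp at this
  have b2 : ∀ i j : Fin (M + 1), (i : ℕ) + 1 = j → (cat M p).IsBridge s(.inr i, .inr j) := by
    intro i j hij
    rw [isBridge_iff]
    intro h
    have := closed (fun z => pos M p z ≤ i) (by
      intro a b hab ha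
      rw [deleteEdges_adj] at hab
      obtain ⟨h1, h2⟩ := hab
      rcases a with a | a <;> rcases b with b | b
      · exact h1.elim
      · have : p a = b := h1
        simpa [pos, ← this] using ha
      · have : p b = a := h1
        simpa [pos, this] using ha
      · simp only [pos, Sum.elim_inr] at ha ⊢
        by_contra hc
        have h1' : (a : ℕ) + 1 = b ∨ (b : ℕ) + 1 = a := h1
        have e1 : a = i := Fin.ext (by omega)
        have e2 : b = j := Fin.ext (by omega)
        exact h2 (by rw [e1, e2]; rfl)) h (by simp [pos])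
    simp only [pos, Sum.elim_inr] at this
    omega
  rw [isAcyclic_iff_forall_adj_isBridge]
  rintro (a | a) (b | b) h
  · exact h.elim
  · exact b1 _ _ h
  · rw [Sym2.eq_swap]; exact b1 _ _ h
  · rcases h with h | h
    · exact b2 _ _ h
    · rw [Sym2.eq_swap]; exact b2 _ _ h

variable (h : V → ℝ)

def hh : V ⊕ Fin (M + 1) → ℝ := Sum.elim h fun _ => 0

def W (x y : V ⊕ Fin (M + 1)) : ℝ := hh M h x + hh M h y + |(pos M p x : ℝ) - pos M p y|

def wt : Sym2 (V ⊕ Fin (M + 1)) → ℝ :=
  Sym2.lift ⟨W M p h, fun x y => by unfold W; rw [abs_sub_comm]; ring⟩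

open Classical in
lemma path_wt {x y : V ⊕ Fin (M + 1)} (q : (cat M p).Walk x y) (hq : q.IsPath) :
    (q.edges.map (wt M p h)).sum = if x = y then 0 else W M p h x y := by
  induction q with
  | nil => simp
  | @cons x x' y ha q ih =>
    rw [Walk.cons_isPath_iff] at hq
    have hxy : x ≠ y := fun e => hq.2 (e ▸ q.end_mem_support)
    rw [Walk.edges_cons, List.map_cons, List.sum_cons, ih hq.1, if_neg hxy]
    have e0 : ∀ i : Fin (M + 1), ∀ y, (if Sum.inr i = y then 0 else W M p h (.inr i) y) =
        W M p h (.inr i) y := by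
      intro i y
      split_ifs with e
      · subst e; simp [W, hh]
      · rfl
    rcases x with a | a <;> rcases x' with b | b
    · exact ha.elim
    · have : p a = b := ha
      rw [e0]
      simp [wt, W, hh, pos, this, add_assoc]
    · have hb : p b = a := ha
      have := closed' (fun z => z = .inl b) (.inr a) (by
        rintro u (v | v) huv rfl hv
        · exact huv.elim
        · have : p b = v := huv
          exact absurd (by rw [← this, hb]) hv) q hq.2 rfl
      subst this
      simp [wt]
    · rw [e0]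
      rcases ha with ha | ha
      · have := closed' (fun z => (b : ℕ) ≤ pos M p z) (.inr a) (by
          rintro (u | u) (v | v) huv hu hv
          · exact huv.elim
          · have : p u = v := huv
            simpa [pos, ← this] using hu
          · have : p v = u := huv
            simpa [pos, this] using hu
          · have h1 : (u : ℕ) + 1 = v ∨ (v : ℕ) + 1 = u := huv
            simp only [pos, Sum.elim_inr] at hu ⊢
            by_contra hc
            exact hv (congrArg _ (Fin.ext (by omega)))) q hq.2 (by simp [pos])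
        have h1 : ((b : ℕ) : ℝ) ≤ pos M p y := by exact_mod_cast this
        have h2 : ((a : ℕ) : ℝ) + 1 = (b : ℕ) := by exact_mod_cast ha
        simp only [wt, Sym2.lift_mk, W, hh, pos, Sum.elim_inr] at h1 ⊢
        rw [abs_of_nonpos (by linarith), abs_of_nonpos (by linarith), abs_of_nonpos (by linarith)]
        ring
      · have := closed' (fun z => pos M p z ≤ (b : ℕ)) (.inr a) (by
          rintro (u | u) (v | v) huv hu hv
          · exact huv.elim
          · have : p u = v := huv
            simpa [pos, ← this] using hu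
          · have : p v = u := huv
            simpa [pos, this] using hu
          · have h1 : (u : ℕ) + 1 = v ∨ (v : ℕ) + 1 = u := huv
            simp only [pos, Sum.elim_inr] at hu ⊢
            by_contra hc
            exact hv (congrArg _ (Fin.ext (by omega)))) q hq.2 (by simp [pos])
        have h1 : (pos M p y : ℝ) ≤ ((b : ℕ) : ℝ) := by exact_mod_cast this
        have h2 : ((b : ℕ) : ℝ) + 1 = (a : ℕ) := by exact_mod_cast ha
        simp only [wt, Sym2.lift_mk, W, hh, pos, Sum.elim_inr] at h1 ⊢
        rw [abs_of_nonneg (by linarith), abs_of_nonneg (by linarith), abs_of_nonneg (by linarith)]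
        ring

open Classical in
lemma cat_dist [Finite V] (hh0 : ∀ v, 0 ≤ h v) (a b : V) (hab : a ≠ b) (ha : p a = 0)
    (hb : (p b : ℕ) = M) :
    TreeDist fun u v => if u = v then 0 else h u + h v + |((p u : ℕ) : ℝ) - (p v : ℕ)| := by
  refine ⟨V ⊕ Fin (M + 1), inferInstance, cat M p, wt M p h, .inl, ⟨cat_conn M p, cat_acyc M p⟩,
    ?_, Sum.inl_injective, ?_, ?_⟩
  · intro e
    induction e using Sym2.ind with
    | _ x y =>
      have : ∀ z, 0 ≤ hh M h z := by rintro (z | z) <;> simp [hh, hh0]
      simp only [wt, Sym2.lift_mk, W]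
      have h1 := this x
      have h2 := this y
      positivity
  · rintro (v | i)
    · have : (cat M p).neighborSet (.inl v) = {.inr (p v)} := by
        ext (y | y) <;> simp [cat, eq_comm]
      rw [this]; simp
    · simp only [Set.mem_range, reduceCtorEq, exists_false, false_iff]
      intro hc
      obtain ⟨z, hz⟩ := Set.ncard_eq_one.1 hc
      have l : ∃ x, (cat M p).Adj (.inr i) x ∧ (x = .inl a ∨ ∃ j : Fin (M + 1), x = .inr j ∧ j < i) := by
        by_cases h0 : (i : ℕ) = 0
        · exact ⟨.inl a, show p a = i from by rw [ha]; exact Fin.ext h0.symm, Or.inl rfl⟩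
        · exact ⟨.inr ⟨i - 1, by omega⟩, Or.inr (by show (i : ℕ) - 1 + 1 = i; omega), Or.inr ⟨_, rfl, by
            rw [Fin.lt_def]; show (i : ℕ) - 1 < i; omega⟩⟩
      have r : ∃ x, (cat M p).Adj (.inr i) x ∧ (x = .inl b ∨ ∃ j : Fin (M + 1), x = .inr j ∧ i < j) := by
        by_cases h0 : (i : ℕ) = M
        · exact ⟨.inl b, show p b = i from Fin.ext (by rw [hb, h0]), Or.inl rfl⟩
        · exact ⟨.inr ⟨i + 1, by omega⟩, Or.inl (by simp), Or.inr ⟨_, rfl, by
            rw [Fin.lt_def]; simp⟩⟩
      obtain ⟨x, hx, hx'⟩ := l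
      obtain ⟨y, hy, hy'⟩ := r
      have e1 : x = z := by rw [← Set.mem_singleton_iff, ← hz]; exact hx
      have e2 : y = z := by rw [← Set.mem_singleton_iff, ← hz]; exact hy
      have e : x = y := e1.trans e2.symm
      rcases hx' with rfl | ⟨j, rfl, hj⟩ <;> rcases hy' with rfl | ⟨j', rfl, hj'⟩
      · exact hab (Sum.inl_injective e)
      · simp at e
      · simp at e
      · have := Sum.inr_injective e
        subst this
        exact lt_asymm hj hj'
  · intro u v q hq
    rw [path_wt M p h q hq]
    simp [W, hh, pos]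

end cat

open Classical in
lemma caterpillar {V : Type} [Finite V] [Nontrivial V] (p : V → ℤ) (h : V → ℝ)
    (hh0 : ∀ v, 0 ≤ h v) :
    TreeDist fun u v => if u = v then 0 else h u + h v + |(p u : ℝ) - p v| := by
  obtain ⟨a, ha⟩ := Finite.exists_min p
  have : Nonempty {v // v ≠ a} := let ⟨b, hb⟩ := exists_ne a; ⟨⟨b, hb⟩⟩
  obtain ⟨⟨b, hba⟩, hb⟩ := Finite.exists_max fun v : {v // v ≠ a} => p v
  have hb' : ∀ v, p v ≤ p b := fun v => by
    by_cases e : v = a
    · rw [e]; exact ha b
    · exact hb ⟨v, e⟩
  have := cat_dist (p b - p a).toNat (fun v => ⟨(p v - p a).toNat, by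
    have := hb' v; have := ha v; omega⟩) h hh0 a b hba.symm (Fin.ext (by simp)) rfl
  have e : ∀ v, (((p v - p a).toNat : ℕ) : ℝ) = p v - p a := fun v => by
    have : (((p v - p a).toNat : ℕ) : ℤ) = p v - p a := Int.toNat_of_nonneg (by linarith [ha v])
    exact_mod_cast this
  simpa only [e, sub_sub_sub_cancel_right] using this

end Pool.Agent.H25.Gpc1
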