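import Pool.Agent.H25.Gpc1

namespace Pool.Agent.H25.Gpc2
open SimpleGraph Pool.Agent.H25.GpcDefs Pool.Agent.H25.Gpc1

def B : ℕ → ℕ → Finset ℕ
  | 0, c => {c}
  | j + 1, c => Finset.univ.biUnion fun a : Fin 3 => B j (c + a * 10 ^ j)

lemma B_bd : ∀ j c x, x ∈ B j c → c ≤ x ∧ 4 * x < 4 * c + 10 ^ j
  | 0, c, x, h => by
    have : x = c := by simpa [B] using h
    omega
  | j + 1, c, x, h => by
    simp only [B, Finset.mem_biUnion, Finset.mem_univ, true_and] at h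
    obtain ⟨a, h⟩ := h
    have := B_bd j _ x h
    have h2 : (a : ℕ) * 10 ^ j ≤ 2 * 10 ^ j := Nat.mul_le_mul_right _ (by omega)
    rw [pow_succ]
    omega

lemma B_self : ∀ j c, c ∈ B j c
  | 0, c => by simp [B]
  | j + 1, c => by
    simp only [B, Finset.mem_biUnion, Finset.mem_univ, true_and]
    exact ⟨0, by simpa using B_self j c⟩

def Lev (j x y : ℕ) : Prop := |(x : ℝ) - y| ∈ Set.Icc ((10 : ℝ) ^ j / 2) (3 * 10 ^ j)

lemma cross {j c x y : ℕ} {a b : Fin 3} (hab : a ≠ b) (hx : x ∈ B j (c + a * 10 ^ j))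
    (hy : y ∈ B j (c + b * 10 ^ j)) : Lev j x y := by
  obtain ⟨h1, h2⟩ := B_bd _ _ _ hx
  obtain ⟨h3, h4⟩ := B_bd _ _ _ hy
  have g1 : (c : ℝ) + (a : ℕ) * 10 ^ j ≤ x := by exact_mod_cast h1
  have g2 : 4 * (x : ℝ) < 4 * (c + (a : ℕ) * 10 ^ j) + 10 ^ j := by exact_mod_cast h2
  have g3 : (c : ℝ) + (b : ℕ) * 10 ^ j ≤ y := by exact_mod_cast h3
  have g4 : 4 * (y : ℝ) < 4 * (c + (b : ℕ) * 10 ^ j) + 10 ^ j := by exact_mod_cast h4
  have p : (0 : ℝ) < 10 ^ j := by positivity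
  unfold Lev
  generalize (10 : ℝ) ^ j = P at *
  have ha : ((a : ℕ) : ℝ) = 0 ∨ ((a : ℕ) : ℝ) = 1 ∨ ((a : ℕ) : ℝ) = 2 := by
    fin_cases a <;> simp
  have hb : ((b : ℕ) : ℝ) = 0 ∨ ((b : ℕ) : ℝ) = 1 ∨ ((b : ℕ) : ℝ) = 2 := by
    fin_cases b <;> simp
  have hne : ((a : ℕ) : ℝ) ≠ (b : ℕ) := fun e => hab (Fin.ext (by exact_mod_cast e))
  rw [Set.mem_Icc, le_abs, abs_le]
  rcases ha with ha | ha | ha <;> rcases hb with hb | hb | hb <;> rw [ha] at g1 g2 hne <;>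
    rw [hb] at g3 g4 hne <;>
    first
      | exact absurd rfl hne
      | exact ⟨Or.inl (by linarith), by linarith, by linarith⟩
      | exact ⟨Or.inr (by linarith), by linarith, by linarith⟩

lemma chain {d : ℕ → ℕ → ℝ} (hs : ∀ x y, d x y = d y x)
    (h4 : ∀ x y z t, d x y + d z t ≤ d x z + d y t ∨ d x y + d z t ≤ d x t + d y z) :
    ∀ j c, ∃ r : ℕ → ℝ, (∀ l, l + 1 < j → r l ≤ r (l + 1)) ∧
      ∀ l < j, ∃ x ∈ B j c, ∃ y ∈ B j c, Lev l x y ∧ d x y = r l := by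
  classical
  intro j
  induction j with
  | zero => intro c; exact ⟨fun _ => 0, by simp, by simp⟩
  | succ j ih =>
    intro c
    have sub : ∀ (a : Fin 3) x, x ∈ B j (c + a * 10 ^ j) → x ∈ B (j + 1) c := fun a x hx => by
      simp only [B, Finset.mem_biUnion, Finset.mem_univ, true_and]
      exact ⟨a, hx⟩
    set S := ((B (j + 1) c) ×ˢ (B (j + 1) c)).filter fun q => Lev j q.1 q.2 with hS
    have mem : ∀ {a b : Fin 3} {x y}, a ≠ b → x ∈ B j (c + a * 10 ^ j) →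
        y ∈ B j (c + b * 10 ^ j) → (x, y) ∈ S := fun hab hx hy => by
      simp only [hS, Finset.mem_filter, Finset.mem_product]
      exact ⟨⟨sub _ _ hx, sub _ _ hy⟩, cross hab hx hy⟩
    obtain ⟨q, hq, hm⟩ := S.exists_max_image (fun q => d q.1 q.2)
      ⟨_, mem (a := 0) (b := 1) (by decide) (B_self _ _) (B_self _ _)⟩
    have : ∃ a : Fin 3, ∀ x ∈ B j (c + a * 10 ^ j), ∀ y ∈ B j (c + a * 10 ^ j),
        d x y ≤ d q.1 q.2 := by
      by_contra hc
      push Not at hc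
      choose x hx y hy hd using hc
      exact t3 hs h4 x y fun a b e hbe => (hm _ (mem hbe (hx b) (hy e))).trans_lt (hd a)
    obtain ⟨a, ha⟩ := this
    obtain ⟨r, h1, h2⟩ := ih (c + a * 10 ^ j)
    simp only [hS, Finset.mem_filter, Finset.mem_product] at hq
    refine ⟨Function.update r j (d q.1 q.2), fun l hl => ?_, fun l hl => ?_⟩
    · rw [Function.update_of_ne (by omega)]
      by_cases e : l + 1 = j
      · rw [e, Function.update_self]
        obtain ⟨x, hx, y, hy, -, hd⟩ := h2 l (by omega)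
        rw [← hd]; exact ha x hx y hy
      · rw [Function.update_of_ne e]; exact h1 l (by omega)
    · by_cases e : l = j
      · rw [e, Function.update_self]
        exact ⟨_, hq.1.1, _, hq.1.2, hq.2, rfl⟩
      · rw [Function.update_of_ne e]
        obtain ⟨x, hx, y, hy, h⟩ := h2 l (by omega)
        exact ⟨x, sub _ _ hx, y, sub _ _ hy, h⟩

lemma lev_le {l l' : ℕ} {t : ℝ} (h : t ∈ Set.Icc ((10 : ℝ) ^ l / 2) (3 * 10 ^ l))
    (h' : t ∈ Set.Icc ((10 : ℝ) ^ l' / 2) (3 * 10 ^ l')) : l ≤ l' := by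
  by_contra hc
  have : (10 : ℝ) ^ (l' + 1) ≤ 10 ^ l := pow_le_pow_right₀ (by norm_num) (by omega)
  rw [pow_succ] at this
  have p : (0 : ℝ) < 10 ^ l' := by positivity
  linarith [h.1, h'.2]

def G (k : ℕ) : SimpleGraph (Fin (10 ^ (2 * k + 1))) where
  Adj x y := x ≠ y ∧ ∃ i : Fin k, Lev (2 * i + 1) x y
  symm := ⟨fun _ _ ⟨h, i, hi⟩ => ⟨h.symm, i, by unfold Lev at *; rwa [abs_sub_comm]⟩⟩
  loopless := ⟨fun _ h => h.1 rfl⟩

lemma G_mem (k : ℕ) : IntPCG k (G k) := by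
  classical
  have : Nontrivial (Fin (10 ^ (2 * k + 1))) := Fin.nontrivial_iff_two_le.2 (by
    have : 0 < 10 ^ (2 * k) := by positivity
    rw [pow_succ]; omega)
  refine ⟨_, fun i => Set.Icc ((10 : ℝ) ^ (2 * i + 1 : ℕ) / 2) (3 * 10 ^ (2 * i + 1 : ℕ)),
    caterpillar (fun v : Fin (10 ^ (2 * k + 1)) => ((v : ℕ) : ℤ)) (fun _ => 0) (fun _ => le_rfl), fun i =>
      ⟨Set.ordConnected_Icc, fun t ht => le_trans (by positivity) ht.1⟩, fun i j hij => ?_, ?_⟩
  · rw [Set.disjoint_left]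
    intro t h1 h2
    have := lev_le h1 h2
    have := lev_le h2 h1
    exact hij (Fin.ext (by omega))
  · intro u v huv
    simp [G, Lev, huv]

lemma G_not (k : ℕ) : ¬ IntPCG k (G k)ᶜ := by
  rintro ⟨d, I, hd, hI, -, hadj⟩
  obtain ⟨hs, h4⟩ := abstr hd
  have hpos : 0 < 10 ^ (2 * k + 1) := by positivity
  let f : ℕ → Fin (10 ^ (2 * k + 1)) := fun x => ⟨x % _, Nat.mod_lt _ hpos⟩
  obtain ⟨r, h1, h2⟩ := chain (d := fun x y => d (f x) (f y)) (fun x y => hs _ _)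
    (fun x y z t => h4 _ _ _ _) (2 * k + 1) 0
  have mono : ∀ a b, a + b < 2 * k + 1 → r a ≤ r (a + b) := by
    intro a b
    induction b with
    | zero => simp
    | succ b ih => intro h; exact (ih (by omega)).trans (h1 _ (by omega))
  have key : ∀ l < 2 * k + 1, (∃ i, r l ∈ I i) ↔ ¬ ∃ i : Fin k, l = 2 * i + 1 := by
    intro l hl
    obtain ⟨x, hx, y, hy, hL, e⟩ := h2 l hl
    have ex : (f x : ℕ) = x := Nat.mod_eq_of_lt (by have := B_bd _ _ _ hx; omega)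
    have ey : (f y : ℕ) = y := Nat.mod_eq_of_lt (by have := B_bd _ _ _ hy; omega)
    have hne : f x ≠ f y := by
      intro h
      have : x = y := by rw [← ex, ← ey, h]
      subst this
      have := hL.1
      have p : (0 : ℝ) < 10 ^ l := by positivity
      simp at this
      linarith
    rw [← e, ← hadj _ _ hne, compl_adj]
    simp only [G, ex, ey, ne_eq, hne, not_false_eq_true, true_and]
    refine not_congr (exists_congr fun i => ⟨fun h => le_antisymm (lev_le hL h) (lev_le h hL), ?_⟩)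
    rintro rfl; exact hL
  have ev : ∀ a : Fin (k + 1), ∃ i, r (2 * a) ∈ I i := fun a =>
    (key _ (by omega)).2 (by rintro ⟨i, h⟩; omega)
  choose g hg using ev
  obtain ⟨a, b, hab, e⟩ := Fintype.exists_ne_map_eq_of_card_lt g (by simp)
  wlog hlt : a < b generalizing a b
  · exact this b a hab.symm e.symm (lt_of_le_of_ne (not_lt.1 hlt) hab.symm)
  have hlt' : (a : ℕ) < b := hlt
  have m1 := mono (2 * a) 1 (by omega)
  have m2 := mono (2 * a + 1) (2 * b - (2 * a + 1)) (by omega)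
  rw [show 2 * (a : ℕ) + 1 + (2 * b - (2 * a + 1)) = 2 * b by omega] at m2
  have := (hI (g a)).1.out (hg a) (e ▸ hg b) ⟨m1, m2⟩
  exact (key _ (by omega)).1 ⟨_, this⟩ ⟨⟨a, by omega⟩, rfl⟩

end Pool.Agent.H25.Gpc2
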