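import Pool.Agent.H25.Gpc1
import Pool.Agent.H31.HyperRamsey

namespace Pool.Agent.H25.Gpc3
open SimpleGraph Pool.Agent.H25.GpcDefs Pool.Agent.H25.Gpc1 Finset

lemma ramsey8 (C : Type) [Fintype C] [Nonempty C] : ∃ R, ∀ χ : (Fin 8 → Fin R) → C,
    ∃ t : Fin 24 → Fin R, StrictMono t ∧ ∃ col, ∀ i : Fin 8 → Fin 24, StrictMono i →
      χ (t ∘ i) = col := by
  classical
  obtain ⟨R, hR⟩ := Pool.Agent.H31.HyperRamsey.ramsey C 8 24
  refine ⟨R, fun χ => ?_⟩
  obtain ⟨T, _, hT, col, h⟩ := hR (Fin R) univ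
    (fun P => if h : P.card = 8 then χ (P.orderEmbOfFin h) else Classical.arbitrary C) (by simp)
  refine ⟨T.orderEmbOfFin hT, (T.orderEmbOfFin hT).strictMono, col, fun i hi => ?_⟩
  have hs : StrictMono (T.orderEmbOfFin hT ∘ i) := (T.orderEmbOfFin hT).strictMono.comp hi
  have hc : (univ.image (T.orderEmbOfFin hT ∘ i)).card = 8 := by
    rw [card_image_of_injective _ hs.injective]; simp
  have := h (univ.image (T.orderEmbOfFin hT ∘ i)) (by
    intro x hx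
    obtain ⟨p, _, rfl⟩ := mem_image.1 hx
    exact orderEmbOfFin_mem T hT _) hc
  simp only [dif_pos hc] at this
  rw [← this]
  congr 1
  exact orderEmbOfFin_unique hc (fun p => mem_image_of_mem _ (mem_univ p)) hs

lemma prodR (C : Type) [Fintype C] [Nonempty C] : ∃ R, ∀ χ : (Fin 4 → Fin R) → (Fin 4 → Fin R) → C,
    ∃ e : (Fin 4 → Fin 6) → Fin 4 → Fin R, (∀ u v j, e u j < e v j ↔ u j < v j) ∧
      (∀ u v j, u j = v j → e u j = e v j) ∧
      ∃ col, ∀ u v, (∀ j, u j < v j) → χ (e u) (e v) = col := by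
  obtain ⟨R, hR⟩ := ramsey8 C
  refine ⟨R, fun χ => ?_⟩
  obtain ⟨t, ht, col, h⟩ := hR fun s => χ (fun j => s ⟨2 * j, by omega⟩) fun j => s ⟨2 * j + 1, by omega⟩
  refine ⟨fun u j => t ⟨6 * j + u j, by omega⟩, fun u v j => ?_, fun u v j e => ?_, col,
    fun u v huv => ?_⟩
  · rw [ht.lt_iff_lt, Fin.lt_def, Fin.lt_def]; simp
  · simp only [e]
  · have := h ![⟨u 0, by omega⟩, ⟨v 0, by omega⟩, ⟨6 + u 1, by omega⟩, ⟨6 + v 1, by omega⟩,
      ⟨12 + u 2, by omega⟩, ⟨12 + v 2, by omega⟩, ⟨18 + u 3, by omega⟩, ⟨18 + v 3, by omega⟩] (by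
      have h0 : (u 0 : ℕ) < v 0 := huv 0
      have h1 : (u 1 : ℕ) < v 1 := huv 1
      have h2 : (u 2 : ℕ) < v 2 := huv 2
      have h3 : (u 3 : ℕ) < v 3 := huv 3
      rw [Fin.strictMono_iff_lt_succ]
      intro i
      rw [Fin.lt_def]
      fin_cases i <;> simp <;> omega)
    rw [← this]
    congr 1 <;> funext j <;> fin_cases j <;> simp

abbrev Vt (R : ℕ) := (Fin 4 → Fin R) ⊕ (Fin 4 → Fin R)

/-- the four-dimensional strict dominance graph -/
def H (R : ℕ) : SimpleGraph (Vt R) where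
  Adj
    | .inl x, .inr y => ∀ j, x j < y j
    | .inr y, .inl x => ∀ j, x j < y j
    | _, _ => False
  symm := ⟨by rintro (a | a) (b | b) h <;> simp_all⟩
  loopless := ⟨by rintro (a | a) h <;> simp_all⟩

def ps {R : ℕ} (i j : Fin 4) : Vt R → ℤ := Sum.elim (fun x => ((x i : ℕ) : ℤ) - (x j : ℕ))
  (fun x => ((x i : ℕ) : ℤ) - (x j : ℕ))

def ht {R : ℕ} (i j : Fin 4) (α β : ℝ) : Vt R → ℝ :=
  Sum.elim (fun x => α + (x i : ℕ) + (x j : ℕ)) (fun x => β - (x i : ℕ) - (x j : ℕ))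

noncomputable def dd {R : ℕ} (i j : Fin 4) (α β : ℝ) (u v : Vt R) : ℝ :=
  @ite ℝ (u = v) (Classical.propDecidable _) 0
    (ht i j α β u + ht i j α β v + |(ps i j u : ℝ) - ps i j v|)

lemma bd {R : ℕ} (x : Fin R) : (0 : ℝ) ≤ (x : ℕ) ∧ ((x : ℕ) : ℝ) + 1 ≤ R :=
  ⟨by positivity, by exact_mod_cast x.2⟩

lemma dd_tree {R : ℕ} [Nonempty (Fin R)] (i j : Fin 4) {α β : ℝ} (ha : 0 ≤ α) (hb : 2 * R ≤ β) :
    TreeDist (dd (R := R) i j α β) := by
  have : Nontrivial (Vt R) := ⟨.inl (Classical.arbitrary _), .inr (Classical.arbitrary _), by simp⟩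
  refine caterpillar (V := Vt R) (ps i j) (ht i j α β) ?_
  rintro (x | x) <;> simp only [ht, Sum.elim_inl, Sum.elim_inr] <;>
    linarith [bd (x i), bd (x j)]

lemma dd_symm {R : ℕ} (i j : Fin 4) (α β : ℝ) (u v : Vt R) : dd i j α β u v = dd i j α β v u := by
  unfold dd
  by_cases h : u = v
  · simp [h]
  · rw [if_neg h, if_neg (Ne.symm h), abs_sub_comm]; ring

lemma dd_xx {R : ℕ} (i j : Fin 4) (α β : ℝ) {x y : Fin 4 → Fin R} (h : x ≠ y) :
    2 * α ≤ dd i j α β (.inl x) (.inl y) ∧ dd i j α β (.inl x) (.inl y) ≤ 2 * α + 4 * R := by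
  have := bd (x i); have := bd (x j); have := bd (y i); have := bd (y j)
  simp only [dd, Sum.inl.injEq, h, if_false, ht, ps, Sum.elim_inl]
  push_cast
  rcases abs_cases (((x i : ℕ) : ℝ) - (x j : ℕ) - ((y i : ℕ) - (y j : ℕ))) with e | e <;>
    rw [e.1] <;> constructor <;> linarith

lemma dd_yy {R : ℕ} (i j : Fin 4) (α β : ℝ) {x y : Fin 4 → Fin R} (h : x ≠ y) :
    2 * β - 4 * R ≤ dd i j α β (.inr x) (.inr y) ∧ dd i j α β (.inr x) (.inr y) ≤ 2 * β := by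
  have := bd (x i); have := bd (x j); have := bd (y i); have := bd (y j)
  simp only [dd, Sum.inr.injEq, h, if_false, ht, ps, Sum.elim_inr]
  push_cast
  rcases abs_cases (((x i : ℕ) : ℝ) - (x j : ℕ) - ((y i : ℕ) - (y j : ℕ))) with e | e <;>
    rw [e.1] <;> constructor <;> linarith

lemma dd_xy {R : ℕ} (i j : Fin 4) (α β : ℝ) (x y : Fin 4 → Fin R) :
    α + β - 2 * R ≤ dd i j α β (.inl x) (.inr y) ∧
      (dd i j α β (.inl x) (.inr y) < α + β ↔ x i < y i ∧ x j < y j) := by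
  have := bd (x i); have := bd (x j); have := bd (y i); have := bd (y j)
  have e1 : x i < y i ↔ ((x i : ℕ) : ℝ) < (y i : ℕ) := by rw [Fin.lt_def]; norm_cast
  have e2 : x j < y j ↔ ((x j : ℕ) : ℝ) < (y j : ℕ) := by rw [Fin.lt_def]; norm_cast
  simp only [dd, reduceCtorEq, if_false, ht, ps, Sum.elim_inr, Sum.elim_inl, e1, e2]
  push_cast
  rcases abs_cases (((x i : ℕ) : ℝ) - (x j : ℕ) - ((y i : ℕ) - (y j : ℕ))) with e | e <;>
    rw [e.1] <;> refine ⟨by linarith, fun h => ⟨by linarith, by linarith⟩, fun h => by linarith⟩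

noncomputable def dk {R : ℕ} (k : ℕ) (i : Fin k) : Vt R → Vt R → ℝ :=
  if (i : ℕ) = 0 then dd 0 1 0 (10 * R) else dd 2 3 (8 * R) (2 * R)

lemma dk_tree {R : ℕ} [Nonempty (Fin R)] (k : ℕ) (i : Fin k) : TreeDist (dk (R := R) k i) := by
  have : (0 : ℝ) ≤ R := by positivity
  unfold dk
  split_ifs
  · exact dd_tree _ _ le_rfl (by linarith)
  · exact dd_tree _ _ (by linarith) le_rfl

lemma dk_all {R k : ℕ} (hk : 2 ≤ k) (P : (Vt R → Vt R → ℝ) → Prop) :
    (∀ i, P (dk k i)) ↔ P (dd 0 1 0 (10 * R)) ∧ P (dd 2 3 (8 * R) (2 * R)) := by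
  refine ⟨fun h => ⟨by simpa [dk] using h ⟨0, by omega⟩, by simpa [dk] using h ⟨1, by omega⟩⟩,
    fun h i => ?_⟩
  unfold dk
  split_ifs
  · exact h.1
  · exact h.2

lemma xy_iff {R : ℕ} (x y : Fin 4 → Fin R) : (∀ j, x j < y j) ↔
    dd 0 1 0 (10 * R) (.inl x) (.inr y) < 10 * R ∧
      dd 2 3 (8 * R) (2 * R) (.inl x) (.inr y) < 10 * R := by
  have a := (dd_xy 0 1 0 (10 * R) x y).2
  have b := (dd_xy 2 3 (8 * R) (2 * R) x y).2
  rw [zero_add] at a
  rw [show (8 * R + 2 * R : ℝ) = 10 * R by ring] at b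
  rw [a, b]
  simp [Fin.forall_fin_succ, and_assoc]

lemma H_and {R k : ℕ} [hR : Nonempty (Fin R)] (hk : 2 ≤ k) : AndPCG k (H R) := by
  have r1 : (1 : ℝ) ≤ R := by obtain ⟨x⟩ := hR; linarith [bd x]
  refine ⟨dk k, fun _ => Set.Ico (5 * R) (10 * R), dk_tree k, fun _ => ⟨Set.ordConnected_Ico,
    fun t h => le_trans (by positivity) h.1⟩, fun u v huv => ?_⟩
  rw [dk_all hk fun d => d u v ∈ Set.Ico (5 * (R : ℝ)) (10 * R)]
  have k1 : ∀ x y : Fin 4 → Fin R, (∀ j, x j < y j) ↔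
      dd 0 1 0 (10 * R) (.inl x) (.inr y) ∈ Set.Ico (5 * (R : ℝ)) (10 * R) ∧
      dd 2 3 (8 * R) (2 * R) (.inl x) (.inr y) ∈ Set.Ico (5 * (R : ℝ)) (10 * R) := by
    intro x y
    have a := (dd_xy 0 1 0 (10 * R) x y).1
    have b := (dd_xy 2 3 (8 * R) (2 * R) x y).1
    rw [xy_iff]
    exact ⟨fun h => ⟨⟨by linarith, h.1⟩, by linarith, h.2⟩, fun h => ⟨h.1.2, h.2.2⟩⟩
  rcases u with x | x <;> rcases v with y | y
  · refine ⟨fun h => h.elim, fun h => ?_⟩
    have := (dd_xx 0 1 0 (10 * R) (fun e => huv (congrArg _ e))).2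
    linarith [h.1.1]
  · exact k1 x y
  · rw [dd_symm 0 1, dd_symm 2 3]; exact k1 y x
  · refine ⟨fun h => h.elim, fun h => ?_⟩
    have := (dd_yy 0 1 0 (10 * R) (fun e => huv (congrArg _ e))).1
    linarith [h.1.2]

lemma H_or {R k : ℕ} [hR : Nonempty (Fin R)] (hk : 2 ≤ k) : OrPCG k (H R)ᶜ := by
  have r1 : (1 : ℝ) ≤ R := by obtain ⟨x⟩ := hR; linarith [bd x]
  refine ⟨dk k, fun _ => Set.Ici (10 * R), dk_tree k, fun _ => ⟨Set.ordConnected_Ici,
    fun t h => le_trans (by positivity) (show (10 * R : ℝ) ≤ t from h)⟩, fun u v huv => ?_⟩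
  rw [compl_adj, and_iff_right huv, ← not_iff_not, not_not, not_exists]
  simp only [Set.mem_Ici, not_le]
  rw [dk_all hk fun d => d u v < 10 * R]
  rcases u with x | x <;> rcases v with y | y
  · refine ⟨fun h => h.elim, fun h => ?_⟩
    have := (dd_xx 2 3 (8 * R) (2 * R) (fun e => huv (congrArg _ e))).1
    linarith [h.2]
  · exact xy_iff x y
  · rw [dd_symm 0 1, dd_symm 2 3]; exact xy_iff y x
  · refine ⟨fun h => h.elim, fun h => ?_⟩
    have := (dd_yy 0 1 0 (10 * R) (fun e => huv (congrArg _ e))).1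
    linarith [h.1]

def sw {α : Type} (j : Fin 4) (a b : Fin 4 → α) : Fin 4 → α := fun l => if l = j then b l else a l

def ax (j j' : Fin 4) (a : Fin 3) : Fin 4 → Fin 6 := fun l =>
  if l = j then ⟨2 * a, by omega⟩ else if l = j' then ⟨4 - 2 * a, by omega⟩ else 0
def ay (j j' : Fin 4) (a : Fin 3) : Fin 4 → Fin 6 := fun l =>
  if l = j then ⟨2 * a + 1, by omega⟩ else if l = j' then ⟨5 - 2 * a, by omega⟩ else 1
def cx (j : Fin 4) : Fin 4 → Fin 6 := fun l => if l = j then 2 else 0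
def cy (j : Fin 4) : Fin 4 → Fin 6 := fun l => if l = j then 1 else 3

lemma a1 : ∀ j j' a l, ax j j' a l < ay j j' a l := by decide
lemma a2 : ∀ j j' a b, j ≠ j' → a ≠ b → (∀ l, sw j (ax j j' a) (ay j j' b) l <
    sw j (ay j j' b) (ax j j' a) l) ∨ ∀ l, sw j' (ax j j' a) (ay j j' b) l <
    sw j' (ay j j' b) (ax j j' a) l := by decide
lemma a3 : ∀ j j' a b, j ≠ j' → a ≠ b → ¬ ∀ l, ax j j' a l < ay j j' b l := by decide
lemma c1 : ∀ j j', j ≠ j' → ∀ l, cx j l < cy j' l := by decide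
lemma c2 : ∀ j l, sw j (cx j) (cy j) l < sw j (cy j) (cx j) l := by decide
lemma c3 : ∀ j, ¬ ∀ l, cx j l < cy j l := by decide
lemma pig : ∀ f : Fin 4 → Bool, (∃ j j', j ≠ j' ∧ f j = false ∧ f j' = false) ∨
    ∃ g : Fin 3 → Fin 4, (∀ a b, a ≠ b → g a ≠ g b) ∧ ∀ a, f (g a) = true := by decide

open Pool.Agent.H24.Pcg1 in
lemma not_or (k : ℕ) [Nonempty (Fin k)] : ∃ R, Nonempty (Fin R) ∧ ¬ OrPCG k (H R) := by
  classical
  obtain ⟨R, hR⟩ := prodR (Fin k × (Fin k → Fin 4 → Bool))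
  refine ⟨R, ⟨(hR fun _ _ => Classical.arbitrary _).choose 0 0⟩, ?_⟩
  rintro ⟨d, I, hd, hI, hadj⟩
  obtain ⟨e, he, he', ⟨i, f⟩, h⟩ := hR fun a b =>
    (Classical.epsilon fun i => d i (.inl a) (.inr b) ∈ I i,
      fun i j => decide (∀ t ∈ I i, t < d i (.inl (sw j a b)) (.inr (sw j b a))))
  obtain ⟨hs, h4⟩ := abstr (hd i)
  have E : ∀ u v, (∀ j, u j < v j) → d i (.inl (e u)) (.inr (e v)) ∈ I i := by
    intro u v huv
    have h1 := (hadj (.inl (e u)) (.inr (e v)) (by simp)).1 fun j => (he u v j).2 (huv j)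
    have h2 := Classical.epsilon_spec h1
    rwa [(Prod.mk.inj (h u v huv)).1] at h2
  have F : ∀ j x y, (∀ l, sw j x y l < sw j y x l) →
      (f i j = true → ∀ t ∈ I i, t < d i (.inl (e x)) (.inr (e y))) ∧
      (f i j = false → ∀ t ∈ I i, d i (.inl (e x)) (.inr (e y)) < t) := by
    intro j x y hxy
    have h1 := congrFun (congrFun (Prod.mk.inj (h _ _ hxy)).2 i) j
    have s1 : ∀ x y, sw j (e (sw j x y)) (e (sw j y x)) = e x := fun x y => by
      funext l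
      by_cases hl : l = j <;> simp only [sw, hl, if_true, if_false] <;> apply he' <;>
        simp [sw, hl]
    rw [s1, s1] at h1
    refine ⟨fun hf => by simpa [hf] using h1, fun hf => ?_⟩
    have hn : d i (.inl (e x)) (.inr (e y)) ∉ I i := fun hm => by
      have h2 : ∀ l, e x l < e y l := (hadj (.inl (e x)) (.inr (e y)) (by simp)).2 ⟨i, hm⟩
      have h3 := hxy j
      simp only [sw, if_true] at h3
      exact lt_asymm h3 ((he _ _ _).1 (h2 j))
    refine (hilo (hI i).1 hn).resolve_left fun hc => ?_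
    rw [hf, decide_eq_false_iff_not] at h1
    exact h1 hc
  rcases pig (f i) with ⟨j, j', hj, f1, f2⟩ | ⟨g, hg, hf⟩
  · refine t3 hs h4 (fun a => .inl (e (ax j j' a))) (fun a => .inr (e (ay j j' a)))
      fun a b c hbc => ?_
    rcases a2 j j' b c hj hbc with q | q
    · exact (F _ _ _ q).2 f1 _ (E _ _ (a1 j j' a))
    · exact (F _ _ _ q).2 f2 _ (E _ _ (a1 j j' a))
  · exact t3 hs h4 (fun a => .inl (e (cx (g a)))) (fun a => .inr (e (cy (g a))))
      fun a b c hbc => (F _ _ _ (c2 (g a))).1 (hf a) _ (E _ _ (c1 _ _ (hg b c hbc)))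

open Pool.Agent.H24.Pcg1 in
lemma not_and (k : ℕ) [Nonempty (Fin k)] : ∃ R, Nonempty (Fin R) ∧ ¬ AndPCG k (H R)ᶜ := by
  classical
  obtain ⟨R, hR⟩ := prodR (Fin k × (Fin k → Bool))
  refine ⟨R, ⟨(hR fun _ _ => Classical.arbitrary _).choose 0 0⟩, ?_⟩
  rintro ⟨d, I, hd, hI, hadj⟩
  obtain ⟨e, he, he', ⟨i, f⟩, h⟩ := hR fun a b =>
    (Classical.epsilon fun i => d i (.inl a) (.inr b) ∉ I i,
      fun i => decide (∀ t ∈ I i, t < d i (.inl a) (.inr b)))
  obtain ⟨hs, h4⟩ := abstr (hd i)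
  have E : ∀ u v, (¬ ∀ j, u j < v j) → d i (.inl (e u)) (.inr (e v)) ∈ I i := by
    intro u v huv
    refine (hadj (.inl (e u)) (.inr (e v)) (by simp)).1 ((compl_adj _ _ _).2 ⟨by simp, ?_⟩) i
    exact fun hc => huv fun j => (he u v j).1 (hc j)
  have F : ∀ x y, (∀ l, x l < y l) →
      (f i = true → ∀ t ∈ I i, t < d i (.inl (e x)) (.inr (e y))) ∧
      (f i = false → ∀ t ∈ I i, d i (.inl (e x)) (.inr (e y)) < t) := by
    intro x y hxy
    have h1 := congrFun (Prod.mk.inj (h _ _ hxy)).2 i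
    refine ⟨fun hf => by simpa [hf] using h1, fun hf => ?_⟩
    have h2 : ∃ i, d i (.inl (e x)) (.inr (e y)) ∉ I i := by
      by_contra hc
      push Not at hc
      exact ((compl_adj _ _ _).1 ((hadj (.inl (e x)) (.inr (e y)) (by simp)).2 hc)).2
        fun j => (he x y j).2 (hxy j)
    have hn := Classical.epsilon_spec h2
    rw [(Prod.mk.inj (h x y hxy)).1] at hn
    refine (hilo (hI i).1 hn).resolve_left fun hc => ?_
    rw [hf, decide_eq_false_iff_not] at h1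
    exact h1 hc
  rcases Bool.eq_false_or_eq_true (f i) with hf | hf
  · exact t3 hs h4 (fun a => .inl (e (ax 0 1 a))) (fun a => .inr (e (ay 0 1 a)))
      fun a b c hbc => (F _ _ (a1 0 1 a)).1 hf _ (E _ _ (a3 0 1 b c (by decide) hbc))
  · exact t3 hs h4 (fun a => .inl (e (cx a.succ))) (fun a => .inr (e (cy a.succ)))
      fun a b c hbc => (F _ _ (c1 _ _ fun q => hbc (Fin.succ_injective _ q))).2 hf _
        (E _ _ (c3 _))

end Pool.Agent.H25.Gpc3
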