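import Mathlib

namespace Pool.Agent.H25.GpcDefs

/-- `d` is the leaf distance of a finite tree with nonnegative edge weights whose leaf set is
(identified with) `V` -/
def TreeDist {V : Type} (d : V → V → ℝ) : Prop :=
  ∃ (N : Type) (_ : Finite N) (T : SimpleGraph N) (w : Sym2 N → ℝ) (ι : V → N),
    T.IsTree ∧ (∀ e, 0 ≤ w e) ∧ Function.Injective ι ∧
    (∀ x, x ∈ Set.range ι ↔ (T.neighborSet x).ncard = 1) ∧
    ∀ u v, ∀ p : T.Walk (ι u) (ι v), p.IsPath → d u v = (p.edges.map w).sum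

/-- interval of nonnegative reals -/
def Itv (I : Set ℝ) : Prop := I.OrdConnected ∧ I ⊆ Set.Ici 0

/-- `k`-interval-PCG -/
def IntPCG (k : ℕ) {V : Type} (G : SimpleGraph V) : Prop :=
  ∃ (d : V → V → ℝ) (I : Fin k → Set ℝ), TreeDist d ∧ (∀ i, Itv (I i)) ∧
    (∀ i j, i ≠ j → Disjoint (I i) (I j)) ∧
    ∀ u v, u ≠ v → (G.Adj u v ↔ ∃ i, d u v ∈ I i)

/-- OR-`k`-PCG -/
def OrPCG (k : ℕ) {V : Type} (G : SimpleGraph V) : Prop :=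
  ∃ (d : Fin k → V → V → ℝ) (I : Fin k → Set ℝ), (∀ i, TreeDist (d i)) ∧ (∀ i, Itv (I i)) ∧
    ∀ u v, u ≠ v → (G.Adj u v ↔ ∃ i, d i u v ∈ I i)

/-- AND-`k`-PCG -/
def AndPCG (k : ℕ) {V : Type} (G : SimpleGraph V) : Prop :=
  ∃ (d : Fin k → V → V → ℝ) (I : Fin k → Set ℝ), (∀ i, TreeDist (d i)) ∧ (∀ i, Itv (I i)) ∧
    ∀ u v, u ≠ v → (G.Adj u v ↔ ∀ i, d i u v ∈ I i)

end Pool.Agent.H25.GpcDefs
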