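import Mathlib

set_option autoImplicit false

/-! A bit-sliced exhaustive check over all sign vectors of length 30. -/

namespace Pool.Agent.H25.Had

def rows : List ℕ := [0, 849847139, 1987138977, 3560726651, 1028809487, 2680953123, 3275003663, 1459747382, 1709015699, 4012573496, 1945245786, 2996422941, 3071968486, 766824820, 1533583829, 401425996, 1692970286, 3336237888, 3821429813, 709416571, 1314359405, 4168077318, 41831350, 2347884714, 4003482311, 1585890714, 657389705, 4047817704, 2237910355, 2497876669, 2789552606, 3195317776]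

def bt (R j : ℕ) : ℕ := Nat.land (Nat.shiftRight R j) 1

def df (R β j : ℕ) : ℕ := if R.testBit j = β.testBit j then 0 else 1

def cnt (R β : ℕ) : ℕ → ℕ
  | 0 => 0
  | k + 1 => cnt R β k + df R β k

def force {α : Type} (x : ℕ) (k : ℕ → α) : α :=
  Nat.rec (motive := fun _ => α) (k 0) (fun n _ => k n) (Nat.add x 1)

lemma force_eq {α : Type} (x : ℕ) (k : ℕ → α) : force x k = k x := rfl

noncomputable def forceL {α : Type} (l : List ℕ) : (List ℕ → α) → α :=
  List.rec (motive := fun _ => (List ℕ → α) → α) (fun k => k [])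
    (fun a _ ih k => force a fun a' => ih fun l' => k (a' :: l')) l

lemma forceL_eq {α : Type} (l : List ℕ) (k : List ℕ → α) : forceL l k = k l := by
  induction l generalizing k with
  | nil => rfl
  | cons a l ih => exact ih _

def out (a w : ℕ) : Bool := Nat.ble w a || Nat.ble (31 - a) w

def t0 (a : ℕ) : List ℕ := (List.range 32).map fun v => Bool.rec 0 1 (out a v)

def stepT (R k : ℕ) (l : List ℕ) : List ℕ :=
  Bool.rec (List.zipWith (fun x y => Nat.lor y (Nat.shiftLeft x (Nat.shiftLeft 1 k))) l l.tail)
    (List.zipWith (fun x y => Nat.lor x (Nat.shiftLeft y (Nat.shiftLeft 1 k))) l l.tail)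
    (Nat.beq (bt R k) 0)

def tab (R a : ℕ) : ℕ → List ℕ
  | 0 => t0 a
  | k + 1 => stepT R k (tab R a k)

noncomputable def tabK (R a m : ℕ) : (List ℕ → Bool) → Bool :=
  Nat.rec (motive := fun _ => (List ℕ → Bool) → Bool) (fun k => forceL (t0 a) k)
    (fun j ih k => ih fun l => forceL (stepT R j l) k) m

lemma tabK_eq (R a m : ℕ) (k : List ℕ → Bool) : tabK R a m k = k (tab R a m) := by
  induction m generalizing k with
  | zero => exact forceL_eq (t0 a) k
  | succ m ih =>
    show tabK R a m (fun l => forceL (stepT R m l) k) = _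
    rw [ih, forceL_eq]; rfl

structure Ent where
  r : ℕ
  a : List ℕ
  b : List ℕ

def th (R : ℕ) : ℕ := Bool.rec 11 13 (Nat.beq R 0)

noncomputable def build (rs : List ℕ) : (List Ent → Bool) → Bool :=
  List.rec (motive := fun _ => (List Ent → Bool) → Bool) (fun k => k [])
    (fun R _ ih k => tabK R (th R) 16 fun a => tabK R (th R - 2) 16 fun b =>
      ih fun st => k (⟨R, a, b⟩ :: st)) rs

lemma build_eq (rs : List ℕ) (k : List Ent → Bool) :
    build rs k = k (rs.map fun R => ⟨R, tab R (th R) 16, tab R (th R - 2) 16⟩) := by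
  induction rs generalizing k with
  | nil => rfl
  | cons R rs ih =>
    show (tabK R (th R) 16 fun a => tabK R (th R - 2) 16 fun b =>
      build rs fun st => k (⟨R, a, b⟩ :: st)) = _
    rw [tabK_eq, tabK_eq, ih]; rfl

noncomputable def leafGo (st : List Ent) : ℕ → ℕ → Bool :=
  List.rec (motive := fun _ => ℕ → ℕ → Bool)
    (fun _ two => Nat.beq two (Nat.sub (Nat.shiftLeft 1 65536) 1))
    (fun e _ ih one two =>
      List.rec (motive := fun _ => Bool) false (fun A _ _ =>
        List.rec (motive := fun _ => Bool) false (fun B _ _ =>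
          ih (Nat.lor one A) (Nat.lor two (Nat.lor B (Nat.land one A)))) e.b) e.a) st

noncomputable def upd (j c : ℕ) (k : List Ent → Bool) (st : List Ent) : List Ent → Bool :=
  List.rec (motive := fun _ => List Ent → Bool) k
    (fun e _ ih acc => Bool.rec
      (List.rec (motive := fun _ => Bool) false (fun _ a' _ =>
        List.rec (motive := fun _ => Bool) false (fun _ b' _ =>
          ih (⟨e.r, a', b'⟩ :: acc)) e.b) e.a)
      (ih (e :: acc)) (Nat.beq (bt e.r j) c)) st

noncomputable def runs (g : ℕ → ℕ) (m : ℕ) : List Ent → Bool :=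
  Nat.rec (motive := fun _ => List Ent → Bool) (fun st => leafGo st 0 0)
    (fun j ih st => Bool.rec (upd (Nat.add 16 j) (g j) ih st [])
      (Bool.rec false (upd (Nat.add 16 j) 1 ih st []) (upd (Nat.add 16 j) 0 ih st []))
      (Nat.beq (g j) 2)) m

def gg (hi j : ℕ) : ℕ := Bool.rec (bt hi (j - 8)) 2 (Nat.blt j 8)

noncomputable def chk (hi : ℕ) : Bool := build rows (runs (gg hi) 15)

end Pool.Agent.H25.Had
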