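import Mathlib

set_option autoImplicit false

namespace Pool.Agent.H25.Had

/-- A Hadamard matrix: entries 1 or -1 and H Hᵀ = n I. -/
def IsHad {ι : Type} [Fintype ι] [DecidableEq ι] (H : Matrix ι ι ℤ) : Prop :=
  (∀ i j, H i j = 1 ∨ H i j = -1) ∧ H * H.transpose = (Fintype.card ι : ℤ) • (1 : Matrix ι ι ℤ)

/-- Hadamard equivalence: B arises from A by permuting rows and columns and multiplying rows
and columns by signs. -/
def Eqv {ι : Type} (A B : Matrix ι ι ℤ) : Prop :=
  ∃ (p q : Equiv.Perm ι) (s t : ι → ℤ), (∀ i, s i = 1 ∨ s i = -1) ∧ (∀ j, t j = 1 ∨ t j = -1) ∧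
    ∀ i j, B i j = s i * A (p i) (q j) * t j

/-- The number of equivalence classes of Hadamard matrices of order n. -/
noncomputable def h (n : ℕ) : ℕ :=
  Nat.card (Quot (fun A B : {H : Matrix (Fin n) (Fin n) ℤ // IsHad H} => Eqv A.1 B.1))

end Pool.Agent.H25.Had
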