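import Pool.Agent.H25.HadChk

set_option autoImplicit false

namespace Pool.Agent.H25.Had

theorem k0 : chk 0 = true := by decide +kernel
theorem k1 : chk 1 = true := by decide +kernel
theorem k2 : chk 2 = true := by decide +kernel
theorem k3 : chk 3 = true := by decide +kernel
theorem k4 : chk 4 = true := by decide +kernel
theorem k5 : chk 5 = true := by decide +kernel
theorem k6 : chk 6 = true := by decide +kernel
theorem k7 : chk 7 = true := by decide +kernel

end Pool.Agent.H25.Had
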