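import Pool.Agent.H25.HadK0

set_option autoImplicit false

namespace Pool.Agent.H25.Had

theorem k8 : chk 8 = true := by decide +kernel
theorem k9 : chk 9 = true := by decide +kernel
theorem k10 : chk 10 = true := by decide +kernel
theorem k11 : chk 11 = true := by decide +kernel
theorem k12 : chk 12 = true := by decide +kernel
theorem k13 : chk 13 = true := by decide +kernel
theorem k14 : chk 14 = true := by decide +kernel
theorem k15 : chk 15 = true := by decide +kernel

end Pool.Agent.H25.Had
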