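import Pool.Agent.H25.HadK1

set_option autoImplicit false

namespace Pool.Agent.H25.Had

theorem k16 : chk 16 = true := by decide +kernel
theorem k17 : chk 17 = true := by decide +kernel
theorem k18 : chk 18 = true := by decide +kernel
theorem k19 : chk 19 = true := by decide +kernel
theorem k20 : chk 20 = true := by decide +kernel
theorem k21 : chk 21 = true := by decide +kernel
theorem k22 : chk 22 = true := by decide +kernel
theorem k23 : chk 23 = true := by decide +kernel

end Pool.Agent.H25.Had
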