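import Pool.Agent.H25.HadK2

set_option autoImplicit false

namespace Pool.Agent.H25.Had

theorem k24 : chk 24 = true := by decide +kernel
theorem k25 : chk 25 = true := by decide +kernel
theorem k26 : chk 26 = true := by decide +kernel
theorem k27 : chk 27 = true := by decide +kernel
theorem k28 : chk 28 = true := by decide +kernel
theorem k29 : chk 29 = true := by decide +kernel
theorem k30 : chk 30 = true := by decide +kernel
theorem k31 : chk 31 = true := by decide +kernel

end Pool.Agent.H25.Had
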