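import Pool.Agent.H25.HadK3

set_option autoImplicit false

namespace Pool.Agent.H25.Had

theorem k32 : chk 32 = true := by decide +kernel
theorem k33 : chk 33 = true := by decide +kernel
theorem k34 : chk 34 = true := by decide +kernel
theorem k35 : chk 35 = true := by decide +kernel
theorem k36 : chk 36 = true := by decide +kernel
theorem k37 : chk 37 = true := by decide +kernel
theorem k38 : chk 38 = true := by decide +kernel
theorem k39 : chk 39 = true := by decide +kernel

end Pool.Agent.H25.Had
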