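import Pool.Agent.H25.HadK4

set_option autoImplicit false

namespace Pool.Agent.H25.Had

theorem k40 : chk 40 = true := by decide +kernel
theorem k41 : chk 41 = true := by decide +kernel
theorem k42 : chk 42 = true := by decide +kernel
theorem k43 : chk 43 = true := by decide +kernel
theorem k44 : chk 44 = true := by decide +kernel
theorem k45 : chk 45 = true := by decide +kernel
theorem k46 : chk 46 = true := by decide +kernel
theorem k47 : chk 47 = true := by decide +kernel

end Pool.Agent.H25.Had
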