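import Pool.Agent.H25.HadK5

set_option autoImplicit false

namespace Pool.Agent.H25.Had

theorem k48 : chk 48 = true := by decide +kernel
theorem k49 : chk 49 = true := by decide +kernel
theorem k50 : chk 50 = true := by decide +kernel
theorem k51 : chk 51 = true := by decide +kernel
theorem k52 : chk 52 = true := by decide +kernel
theorem k53 : chk 53 = true := by decide +kernel
theorem k54 : chk 54 = true := by decide +kernel
theorem k55 : chk 55 = true := by decide +kernel

end Pool.Agent.H25.Had
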