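import Pool.Agent.H25.HadK6

set_option autoImplicit false

namespace Pool.Agent.H25.Had

theorem k56 : chk 56 = true := by decide +kernel
theorem k57 : chk 57 = true := by decide +kernel
theorem k58 : chk 58 = true := by decide +kernel
theorem k59 : chk 59 = true := by decide +kernel
theorem k60 : chk 60 = true := by decide +kernel
theorem k61 : chk 61 = true := by decide +kernel
theorem k62 : chk 62 = true := by decide +kernel
theorem k63 : chk 63 = true := by decide +kernel

end Pool.Agent.H25.Had
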