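import Pool.Agent.H25.HadChk

set_option autoImplicit false

namespace Pool.Agent.H25.Had

lemma bt_eq (R j : ℕ) : bt R j = (R.testBit j).toNat := by
  show (R >>> j) &&& 1 = _
  rw [Nat.and_one_is_mod, Nat.shiftRight_eq_div_pow, Nat.toNat_testBit]

lemma cnt_congr (R β γ k : ℕ) (h : ∀ j < k, β.testBit j = γ.testBit j) :
    cnt R β k = cnt R γ k := by
  induction k with
  | zero => rfl
  | succ k ih =>
    simp only [cnt, df]
    rw [ih fun j hj => h j (by omega), h k (by omega)]

lemma cnt_le (R β k : ℕ) : cnt R β k ≤ k := by
  induction k with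
  | zero => simp [cnt]
  | succ k ih => simp only [cnt, df]; split_ifs <;> omega

lemma zip_getD (f : ℕ → ℕ → ℕ) (l : List ℕ) (v : ℕ) :
    (List.zipWith f l l.tail).getD v 0 = 0 ∨
      (List.zipWith f l l.tail).getD v 0 = f (l.getD v 0) (l.getD (v + 1) 0) := by
  simp only [List.getD_eq_getElem?_getD, List.getElem?_zipWith, List.getElem?_tail]
  cases l[v]? <;> cases l[v + 1]? <;> simp

lemma bit_split (x y k t : ℕ) (h : (Nat.lor x (Nat.shiftLeft y (Nat.shiftLeft 1 k))).testBit t = true) :
    x.testBit t = true ∨ ∃ s, t = 2 ^ k + s ∧ y.testBit s = true := by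
  have h' : (x ||| y <<< (1 <<< k)).testBit t = true := h
  rw [Nat.testBit_or, Nat.testBit_shiftLeft, Nat.one_shiftLeft] at h'
  simp only [Bool.or_eq_true, Bool.and_eq_true, decide_eq_true_eq, ge_iff_le] at h'
  rcases h' with h' | ⟨h1, h2⟩
  · exact Or.inl h'
  · exact Or.inr ⟨t - 2 ^ k, by omega, h2⟩

lemma tab_ok (R a k : ℕ) : ∀ v t, ((tab R a k).getD v 0).testBit t = true →
    t < 2 ^ k ∧ out a (cnt R t k + v) = true := by
  induction k with
  | zero =>
    intro v t h
    simp only [tab, t0, List.getD_eq_getElem?_getD, List.getElem?_map] at h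
    by_cases hv : v < 32
    · rw [List.getElem?_range hv] at h
      simp only [Option.map_some, Option.getD_some] at h
      cases ho : out a v <;> rw [ho] at h
      · simp at h
      · have : t = 0 := by simpa [Nat.testBit_one_eq_true_iff_self_eq_zero] using h
        subst this
        simp [cnt, ho]
    · rw [List.getElem?_eq_none (by simpa using hv)] at h
      simp at h
  | succ k ih =>
    intro v t h
    have lo : ∀ t, t < 2 ^ k → t.testBit k = false := fun t ht => Nat.testBit_lt_two_pow ht
    have hi : ∀ s, s < 2 ^ k → (2 ^ k + s).testBit k = true ∧ cnt R (2 ^ k + s) k = cnt R s k :=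
      fun s hs => ⟨by rw [Nat.testBit_two_pow_add_eq, lo s hs]; rfl,
        cnt_congr _ _ _ _ fun j hj => Nat.testBit_two_pow_add_gt hj s⟩
    simp only [tab, stepT, bt_eq] at h
    cases hR : R.testBit k <;> rw [hR] at h
    · have h' : ((List.zipWith (fun x y => Nat.lor x (Nat.shiftLeft y (Nat.shiftLeft 1 k)))
        (tab R a k) (tab R a k).tail).getD v 0).testBit t = true := h
      rcases zip_getD (fun x y => Nat.lor x (Nat.shiftLeft y (Nat.shiftLeft 1 k))) (tab R a k) v
        with e | e <;> rw [e] at h'
      · simp at h'
      · rcases bit_split _ _ _ _ h' with h1 | ⟨s, rfl, h1⟩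
        · obtain ⟨a1, a2⟩ := ih _ _ h1
          refine ⟨by omega, ?_⟩
          simp only [cnt, df, hR, lo t a1, if_true]
          exact a2
        · obtain ⟨a1, a2⟩ := ih _ _ h1
          refine ⟨by omega, ?_⟩
          simp only [cnt, df, hR, (hi s a1).1, (hi s a1).2, Bool.false_eq_true, if_false]
          rw [← a2]; congr 1; omega
    · have h' : ((List.zipWith (fun x y => Nat.lor y (Nat.shiftLeft x (Nat.shiftLeft 1 k)))
        (tab R a k) (tab R a k).tail).getD v 0).testBit t = true := h
      rcases zip_getD (fun x y => Nat.lor y (Nat.shiftLeft x (Nat.shiftLeft 1 k))) (tab R a k) v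
        with e | e <;> rw [e] at h'
      · simp at h'
      · rcases bit_split _ _ _ _ h' with h1 | ⟨s, rfl, h1⟩
        · obtain ⟨a1, a2⟩ := ih _ _ h1
          refine ⟨by omega, ?_⟩
          simp only [cnt, df, hR, lo t a1, Bool.true_eq_false, if_false]
          rw [← a2]; congr 1; omega
        · obtain ⟨a1, a2⟩ := ih _ _ h1
          refine ⟨by omega, ?_⟩
          simp only [cnt, df, hR, (hi s a1).1, (hi s a1).2, if_true]
          exact a2

def Inv (β m : ℕ) (e : Ent) : Prop :=
  ∃ c, c + cnt e.r β (16 + m) = cnt e.r β 31 ∧
    (∀ v, (e.a.getD v 0).testBit (β % 2 ^ 16) = true →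
      out (th e.r) (cnt e.r β 16 + c + v) = true) ∧
    (∀ v, (e.b.getD v 0).testBit (β % 2 ^ 16) = true →
      out (th e.r - 2) (cnt e.r β 16 + c + v) = true)

def cost (β R : ℕ) : ℕ :=
  if out (th R - 2) (cnt R β 31) then 2 else if out (th R) (cnt R β 31) then 1 else 0

def tot (β : ℕ) (st : List Ent) : ℕ := (st.map fun e => cost β e.r).sum

lemma leaf_ok (β : ℕ) (st : List Ent) : ∀ one two, leafGo st one two = true →
    (∀ e ∈ st, Inv β 0 e) →
    2 ≤ (if two.testBit (β % 2 ^ 16) then 2 else if one.testBit (β % 2 ^ 16) then 1 else 0) +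
      tot β st := by
  induction st with
  | nil =>
    intro one two h _
    have h' : two = 1 <<< 65536 - 1 := Nat.eq_of_beq_eq_true h
    have : two.testBit (β % 2 ^ 16) = true := by
      rw [h', Nat.one_shiftLeft, Nat.testBit_two_pow_sub_one]
      exact decide_eq_true (Nat.mod_lt _ (by norm_num))
    rw [if_pos this]; omega
  | cons e st ih =>
    intro one two h hI
    obtain ⟨R, a, b⟩ := e
    cases a with
    | nil => exact absurd h (by simp [leafGo])
    | cons A a =>
      cases b with
      | nil => exact absurd h (by simp [leafGo])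
      | cons B b =>
        have h' : leafGo st (one ||| A) (two ||| (B ||| (one &&& A))) = true := h
        have := ih _ _ h' fun e he => hI e (List.mem_cons_of_mem _ he)
        obtain ⟨c, hc, ha, hb⟩ := hI _ List.mem_cons_self
        have ha0 := ha 0
        have hb0 := hb 0
        have ec : cnt R β 16 + c + 0 = cnt R β 31 := by
          have : c + cnt R β 16 = cnt R β 31 := hc
          omega
        simp only [List.getD_cons_zero, ec] at ha0 hb0
        have et : tot β (⟨R, A :: a, B :: b⟩ :: st) = cost β R + tot β st := by simp [tot]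
        rw [et]
        generalize tot β st = S at this ⊢
        simp only [cost, Nat.testBit_or, Nat.testBit_and] at this ⊢
        generalize two.testBit _ = x at this ⊢
        generalize one.testBit _ = y at this ⊢
        generalize A.testBit _ = z at this ha0 ⊢
        generalize B.testBit _ = w at this hb0 ⊢
        generalize out (th R - 2) _ = p at hb0 ⊢
        generalize out (th R) _ = q at ha0 ⊢
        cases x <;> cases y <;> cases z <;> cases w <;> cases p <;> cases q <;>
          simp at this ha0 hb0 ⊢ <;> omega

lemma upd_ok (β m : ℕ) (k : List Ent → Bool)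
    (hk : ∀ st, k st = true → (∀ e ∈ st, Inv β m e) → 2 ≤ tot β st) (st : List Ent) :
    ∀ acc, upd (16 + m) (β.testBit (16 + m)).toNat k st acc = true →
      (∀ e ∈ st, Inv β (m + 1) e) → (∀ e ∈ acc, Inv β m e) → 2 ≤ tot β st + tot β acc := by
  induction st with
  | nil => intro acc h _ h2; simpa [tot] using hk acc h h2
  | cons e st ih =>
    intro acc h h1 h2
    obtain ⟨R, a, b⟩ := e
    obtain ⟨c, hc, ha, hb⟩ := h1 _ List.mem_cons_self
    have hc' : c + (cnt R β (16 + m) + df R β (16 + m)) = cnt R β 31 := hc
    have key : ∀ a' b', upd (16 + m) (β.testBit (16 + m)).toNat k st (⟨R, a', b'⟩ :: acc) = true →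
        Inv β m ⟨R, a', b'⟩ → 2 ≤ tot β (⟨R, a, b⟩ :: st) + tot β acc := by
      intro a' b' h' hI
      have := ih _ h' (fun e he => h1 e (List.mem_cons_of_mem _ he)) (by
        intro e he
        rcases List.mem_cons.1 he with rfl | he
        · exact hI
        · exact h2 e he)
      simp only [tot, List.map_cons, List.sum_cons] at this ⊢
      omega
    cases hq : Nat.beq (bt R (16 + m)) (β.testBit (16 + m)).toNat
    · have hd : df R β (16 + m) = 1 := by
        unfold df
        rw [if_neg]
        intro e
        rw [bt_eq, e] at hq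
        simp at hq
      cases a with
      | nil => exact absurd h (by simp [upd, hq])
      | cons A a =>
        cases b with
        | nil => exact absurd h (by simp [upd, hq])
        | cons B b =>
          refine key a b (by simpa [upd, hq] using h) ⟨c + 1, by show c + 1 + cnt R β _ = cnt R β _; omega,
            fun v hv => ?_, fun v hv => ?_⟩
          · have := ha (v + 1) hv
            rw [← this]; congr 1; show cnt R β 16 + (c + 1) + v = cnt R β 16 + c + (v + 1); omega
          · have := hb (v + 1) hv
            rw [← this]; congr 1; show cnt R β 16 + (c + 1) + v = cnt R β 16 + c + (v + 1); omega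
    · have hd : df R β (16 + m) = 0 := by
        unfold df
        rw [if_pos]
        have := Nat.eq_of_beq_eq_true hq
        rw [bt_eq] at this
        revert this
        cases R.testBit (16 + m) <;> cases β.testBit (16 + m) <;> simp
      exact key a b (by simpa [upd, hq] using h) ⟨c, by show c + cnt R β _ = cnt R β _; omega, ha, hb⟩

lemma runs_ok (β : ℕ) (g : ℕ → ℕ) (m : ℕ)
    (hg : ∀ j < m, g j = 2 ∨ g j = (β.testBit (16 + j)).toNat) :
    ∀ st, runs g m st = true → (∀ e ∈ st, Inv β m e) → 2 ≤ tot β st := by
  induction m with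
  | zero => intro st h hI; simpa using leaf_ok β st 0 0 h hI
  | succ m ih =>
    intro st h hI
    have ih' := ih fun j hj => hg j (by omega)
    have h' : Bool.rec (upd (16 + m) (g m) (runs g m) st [])
      (Bool.rec false (upd (16 + m) 1 (runs g m) st []) (upd (16 + m) 0 (runs g m) st []))
      (Nat.beq (g m) 2) = true := h
    have : upd (16 + m) (β.testBit (16 + m)).toNat (runs g m) st [] = true := by
      rcases hg m (by omega) with e | e
      · rw [e] at h'
        have h2 : Bool.rec false (upd (16 + m) 1 (runs g m) st [])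
          (upd (16 + m) 0 (runs g m) st []) = true := h'
        cases h0 : upd (16 + m) 0 (runs g m) st [] <;> rw [h0] at h2
        · exact absurd h2 (by simp)
        · cases β.testBit (16 + m)
          · exact h0
          · exact h2
      · rw [e] at h'
        revert h'
        cases β.testBit (16 + m) <;> exact id
    simpa [tot] using upd_ok β m _ ih' st [] this hI (by simp)

theorem chk_ok (β : ℕ) (h30 : β.testBit 30 = false) (h : chk ((β >>> 24) % 2 ^ 6) = true) :
    2 ≤ (rows.map (cost β)).sum := by
  unfold chk at h
  rw [build_eq] at h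
  have := runs_ok β _ 15 ?_ _ h ?_
  · simpa [tot, Function.comp_def] using this
  · intro j hj
    unfold gg
    by_cases j8 : j < 8
    · left
      have : Nat.blt j 8 = true := by rw [Nat.blt_eq]; exact j8
      rw [this]
    · right
      have : Nat.blt j 8 = false := by
        rw [← Bool.not_eq_true, Nat.blt_eq]; exact j8
      rw [this]
      show bt _ _ = _
      rw [bt_eq, Nat.testBit_mod_two_pow, Nat.testBit_shiftRight]
      by_cases j14 : j = 14
      · subst j14; simp [h30]
      · rw [decide_eq_true (by omega : j - 8 < 6), show 24 + (j - 8) = 16 + j by omega]; simp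
  · intro e he
    obtain ⟨R, _, rfl⟩ := List.mem_map.1 he
    have e : cnt R (β % 2 ^ 16) 16 = cnt R β 16 :=
      cnt_congr _ _ _ _ fun j hj => by rw [Nat.testBit_mod_two_pow]; simp [hj]
    refine ⟨0, by simp, fun v hv => ?_, fun v hv => ?_⟩
    · have := (tab_ok _ _ _ _ _ hv).2
      rw [e] at this; exact this
    · have := (tab_ok _ _ _ _ _ hv).2
      rw [e] at this; exact this

end Pool.Agent.H25.Had
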