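import Pool.Agent.H25.HadK7
import Pool.Agent.H25.HadSound

set_option autoImplicit false

namespace Pool.Agent.H25.Had

theorem chk_all (hi : ℕ) (h : hi < 64) : chk hi = true := by
  interval_cases hi
  exacts [k0, k1, k2, k3, k4, k5, k6, k7, k8, k9, k10, k11, k12, k13, k14, k15, k16, k17, k18, k19, k20, k21, k22, k23, k24, k25, k26, k27, k28, k29, k30, k31, k32, k33, k34, k35, k36, k37, k38, k39, k40, k41, k42, k43, k44, k45, k46, k47, k48, k49, k50, k51, k52, k53, k54, k55, k56, k57, k58, k59, k60, k61, k62, k63]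

def sg (x j : ℕ) : ℤ := if x.testBit j then -1 else 1

lemma sum_sg (R β k : ℕ) : ∑ j ∈ Finset.range k, sg R j * sg β j = k - 2 * (cnt R β k : ℤ) := by
  induction k with
  | zero => simp [cnt]
  | succ k ih =>
    rw [Finset.sum_range_succ, ih]
    simp only [cnt, df, sg]
    cases R.testBit k <;> cases β.testBit k <;> simp <;> ring

lemma cnt_par (R β k : ℕ) : cnt R β k % 2 = (cnt R 0 k + cnt 0 β k) % 2 := by
  induction k with
  | zero => simp [cnt]
  | succ k ih =>
    simp only [cnt, df, Nat.zero_testBit]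
    cases R.testBit k <;> cases β.testBit k <;> simp <;> omega

def row (i : Fin 32) : ℕ := rows.getD i 0

def H : Matrix (Fin 32) (Fin 32) ℤ := fun i j => sg (row i) j

lemma rows_eq : rows = List.ofFn row := by decide +kernel

lemma row_even : ∀ i : Fin 32, cnt (row i) 0 32 % 2 = 0 := by decide +kernel

lemma row_th : ∀ i : Fin 32, i ≠ 0 → th (row i) = 11 := by decide +kernel

lemma HtH : H.transpose * H = (32 : ℤ) • (1 : Matrix (Fin 32) (Fin 32) ℤ) := by decide +kernel

lemma HHt : H * H.transpose = (32 : ℤ) • (1 : Matrix (Fin 32) (Fin 32) ℤ) := by decide +kernel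

lemma pe : ∀ w < 33, w % 2 = 0 →
    12 * |(32 : ℤ) - 2 * (w : ℕ)| ≤ ((32 : ℤ) - 2 * (w : ℕ)) * (32 - 2 * (w : ℕ)) + 32 := by
  decide +kernel

lemma po : ∀ w < 32, ∀ d < 2, (w + d) % 2 = 1 →
    8 * |(32 : ℤ) - 2 * (w + d : ℕ)| +
      32 * ((if out (11 - 2) w then 2 else if out 11 w then 1 else 0 : ℕ) : ℤ) ≤
      ((32 : ℤ) - 2 * (w + d : ℕ)) * (32 - 2 * (w + d : ℕ)) + 12 := by
  decide +kernel

lemma pz : ∀ w < 32, ∀ d < 2, (w + d) % 2 = 1 →
    4 + 32 * ((if out (13 - 2) w then 2 else if out 13 w then 1 else 0 : ℕ) : ℤ) ≤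
      ((32 : ℤ) - 2 * (w + d : ℕ)) * (32 - 2 * (w + d : ℕ)) := by
  decide +kernel

theorem bound (β : ℕ) (h30 : β.testBit 30 = false) :
    ∑ i ∈ Finset.univ.erase (0 : Fin 32), |∑ j : Fin 32, H i j * sg β j| ≤ 168 := by
  have hy : ∀ i : Fin 32, ∑ j : Fin 32, H i j * sg β j = 32 - 2 * (cnt (row i) β 32 : ℤ) := by
    intro i
    have := sum_sg (row i) β 32
    rw [Finset.sum_range] at this
    exact this
  have hsq : ∑ i : Fin 32, (32 - 2 * (cnt (row i) β 32 : ℤ)) * (32 - 2 * (cnt (row i) β 32 : ℤ)) =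
      1024 := by
    let b : Fin 32 → ℤ := fun j => sg β j
    have e1 : (H.mulVec b) ⬝ᵥ (H.mulVec b) = b ⬝ᵥ ((H.transpose * H).mulVec b) := by
      rw [← Matrix.mulVec_mulVec, Matrix.dotProduct_mulVec b, Matrix.vecMul_transpose]
    rw [HtH, Matrix.smul_mulVec, Matrix.one_mulVec, dotProduct_smul] at e1
    have e2 : b ⬝ᵥ b = 32 := by
      have : ∀ j, b j * b j = 1 := fun j => by
        simp only [b, sg]; split_ifs <;> simp
      simp [dotProduct, this]
    rw [e2] at e1
    have e3 : ∀ i, (H.mulVec b) i = 32 - 2 * (cnt (row i) β 32 : ℤ) := hy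
    simp only [dotProduct, e3] at e1
    exact e1
  simp only [hy]
  rw [← Finset.add_sum_erase _ _ (Finset.mem_univ (0 : Fin 32))] at hsq
  have hcard : (Finset.univ.erase (0 : Fin 32)).card = 31 := by simp
  have hpar : ∀ i : Fin 32, cnt (row i) β 32 % 2 = cnt 0 β 32 % 2 := fun i => by
    have := cnt_par (row i) β 32
    have := row_even i
    omega
  have hdf : ∀ R, df R β 31 < 2 := fun R => by unfold df; split_ifs <;> omega
  rcases Nat.mod_two_eq_zero_or_one (cnt 0 β 32) with hp | hp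
  · have := Finset.sum_le_sum (s := Finset.univ.erase (0 : Fin 32)) fun i _ =>
      pe (cnt (row i) β 32) (Nat.lt_succ_of_le (cnt_le _ _ _)) ((hpar i).trans hp)
    rw [← Finset.mul_sum, Finset.sum_add_distrib, Finset.sum_const, hcard] at this
    have h0 := mul_self_nonneg (32 - 2 * (cnt (row 0) β 32 : ℤ))
    simp only [nsmul_eq_mul, Nat.cast_ofNat] at this
    linarith
  · have hc := chk_ok β h30 (chk_all _ (Nat.mod_lt _ (by norm_num)))
    rw [rows_eq, List.map_ofFn, List.sum_ofFn,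
      ← Finset.add_sum_erase _ _ (Finset.mem_univ (0 : Fin 32))] at hc
    have hc' : (2 : ℤ) ≤ (cost β (row 0) : ℤ) +
        ∑ i ∈ Finset.univ.erase (0 : Fin 32), (cost β (row i) : ℤ) := by exact_mod_cast hc
    have h1 : ∑ i ∈ Finset.univ.erase (0 : Fin 32), (8 * |32 - 2 * (cnt (row i) β 32 : ℤ)| +
        32 * (cost β (row i) : ℤ)) ≤ ∑ i ∈ Finset.univ.erase (0 : Fin 32),
        ((32 - 2 * (cnt (row i) β 32 : ℤ)) * (32 - 2 * (cnt (row i) β 32 : ℤ)) + 12) := by
      refine Finset.sum_le_sum fun i hi => ?_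
      have := po (cnt (row i) β 31) (Nat.lt_succ_of_le (cnt_le _ _ _)) _ (hdf (row i))
        ((hpar i).trans hp)
      unfold cost
      rw [row_th i (Finset.ne_of_mem_erase hi)]
      exact this
    have h0 : 4 + 32 * (cost β (row 0) : ℤ) ≤
        (32 - 2 * (cnt (row 0) β 32 : ℤ)) * (32 - 2 * (cnt (row 0) β 32 : ℤ)) :=
      pz (cnt (row 0) β 31) (Nat.lt_succ_of_le (cnt_le _ _ _)) _ (hdf (row 0)) ((hpar 0).trans hp)
    rw [Finset.sum_add_distrib, Finset.sum_add_distrib, ← Finset.mul_sum, ← Finset.mul_sum,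
      Finset.sum_const, hcard] at h1
    simp only [nsmul_eq_mul, Nat.cast_ofNat] at h1
    linarith

theorem bound' (a : Fin 32 → ℤ) (ha : ∀ i, |a i| = 1) :
    ∑ j : Fin 32, |∑ i ∈ Finset.univ.erase (0 : Fin 32), H i j * a i| ≤ 168 := by
  let x : Fin 32 → ℤ := fun j => ∑ i ∈ Finset.univ.erase (0 : Fin 32), H i j * a i
  let β : ℕ := Nat.ofBits fun j : Fin 32 => xor (decide (x j < 0)) (decide (x 30 < 0))
  have hβ : ∀ j : Fin 32, β.testBit j = xor (decide (x j < 0)) (decide (x 30 < 0)) := fun j =>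
    Nat.testBit_ofBits_lt _ _ j.2
  let ε : ℤ := if x 30 < 0 then -1 else 1
  have hε : |ε| = 1 := by simp only [ε]; split_ifs <;> simp
  have h1 : ∀ j : Fin 32, |x j| = ε * sg β j * x j := by
    intro j
    simp only [sg, hβ j, ε]
    by_cases h : x j < 0 <;> by_cases h' : x 30 < 0 <;> simp [h, h', abs_of_neg, not_lt.1]
  have hb := bound β (by have := hβ 30; simpa using this)
  refine le_trans ?_ hb
  calc ∑ j : Fin 32, |x j| = ∑ j : Fin 32, ε * sg β j * x j := Finset.sum_congr rfl fun j _ => h1 j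
    _ = ∑ i ∈ Finset.univ.erase (0 : Fin 32), ε * a i * ∑ j : Fin 32, H i j * sg β j := by
      simp only [x, Finset.mul_sum]
      rw [Finset.sum_comm]
      exact Finset.sum_congr rfl fun i _ => Finset.sum_congr rfl fun j _ => by ring
    _ ≤ _ := Finset.sum_le_sum fun i _ => by
      refine le_trans (le_abs_self _) ?_
      rw [abs_mul, abs_mul, hε, ha i]; simp

end Pool.Agent.H25.Had
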