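import Pool.Agent.H25.HamDefs

set_option autoImplicit false

namespace Pool.Agent.H25.Ham

noncomputable def cap (s : ℕ) (S : Set ℕ) : ℕ := (min (s : ℕ∞) S.encard).toNat

lemma cap_coe (s : ℕ) (S : Set ℕ) : (cap s S : ℕ∞) = min (s : ℕ∞) S.encard :=
  ENat.natCast_toNat (ne_top_of_le_ne_top (ENat.natCast_ne_top s) (min_le_left _ _))

lemma cap_le (s : ℕ) (S : Set ℕ) : cap s S ≤ s := by
  have := cap_coe s S
  exact_mod_cast (this ▸ min_le_left _ _ : (cap s S : ℕ∞) ≤ s)

lemma cap_mono (s : ℕ) {S T : Set ℕ} (h : S ⊆ T) : cap s S ≤ cap s T := by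
  have : (cap s S : ℕ∞) ≤ cap s T := by
    rw [cap_coe, cap_coe]; exact min_le_min le_rfl (Set.encard_le_encard h)
  exact_mod_cast this

lemma cap_eq (s : ℕ) {S T : Set ℕ} (h : S ⊆ T) (e : cap s T ≤ cap s S) :
    (s : ℕ∞) ≤ S.encard ∨ T ⊆ S := by
  by_cases h1 : (s : ℕ∞) ≤ S.encard
  · exact Or.inl h1
  · right
    push Not at h1
    have e' : (cap s T : ℕ∞) ≤ cap s S := by exact_mod_cast e
    rw [cap_coe, cap_coe, min_eq_right h1.le, min_le_iff] at e'
    have hf : S.Finite := Set.finite_of_encard_le_coe h1.le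
    exact (hf.eq_of_subset_of_encard_le h (e'.resolve_left (not_le.mpr h1))).ge

/-- abstract version: counts `u`, `v` and eligibility `E` -/
lemma core (s : ℕ) (E : ℕ∞ → ℕ∞ → Prop) (hm : ∀ a b a' b', a ≤ a' → b ≤ b' → E a b → E a' b')
    (A : ℕ → ℕ → ℕ → Prop) (u v : ℕ → ℕ → ℕ∞)
    (hu : ∀ t i, u t i = {j | A t i j}.encard) (hvm : ∀ t t' j, t ≤ t' → v t j ≤ v t' j)
    (hA : ∀ t i j, A (t + 1) i j ↔ A t i j ∨ E (u t i) (v t j)) (t0 : ℕ)
    (hP : ∀ k : ℕ, k < s → (s : ℕ∞) ≤ {j | E k (v t0 j)}.encard ∨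
      {j | E k (v (t0 + (s + 1)) j)} ⊆ {j | E k (v t0 j)})
    (i j : ℕ) (h1 : A (t0 + s + 2) i j) (h2 : ¬ A (t0 + s + 1) i j) : (s : ℕ∞) ≤ u (t0 + s) i := by
  have um : ∀ t, u t i ≤ u (t + 1) i := fun t => by
    rw [hu, hu]; exact Set.encard_le_encard fun j hj => (hA _ _ _).mpr (Or.inl hj)
  have L1 : ∀ d, d ≤ s → (∃ j, A (t0 + d + 2) i j ∧ ¬ A (t0 + d + 1) i j) →
      u (t0 + d) i < s → u (t0 + d) i < u (t0 + d + 1) i := by
    rintro d hd ⟨j, a1, a2⟩ hl
    refine lt_of_le_of_ne (um _) fun e => ?_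
    obtain ⟨k, hk⟩ := ENat.ne_top_iff_exists.mp (ne_top_of_lt hl)
    have b1 : E (u (t0 + d + 1) i) (v (t0 + d + 1) j) := ((hA _ _ _).mp a1).resolve_left a2
    have b2 : ¬ E (u (t0 + d) i) (v (t0 + d) j) := fun h => a2 ((hA _ _ _).mpr (Or.inr h))
    rw [← e, ← hk] at b1
    rw [← hk] at b2
    rcases hP k (by rw [← hk] at hl; exact_mod_cast hl) with h | h
    · have : (s : ℕ∞) ≤ u (t0 + d + 1) i := by
        rw [hu]
        refine h.trans (Set.encard_le_encard fun j hj => (hA _ _ _).mpr (Or.inr ?_))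
        exact hm _ _ _ _ hk.le (hvm _ _ _ (by omega)) hj
      rw [← e] at this
      exact absurd hl (not_lt.mpr this)
    · exact b2 (hm _ _ _ _ le_rfl (hvm _ _ _ (by omega))
        (h (hm _ _ _ _ le_rfl (hvm _ _ _ (by omega)) b1)))
  have L2 : ∀ d : ℕ, d ≤ s → (∃ j, A (t0 + d + 2) i j ∧ ¬ A (t0 + d + 1) i j) →
      u (t0 + d) i < s → (d : ℕ∞) ≤ u (t0 + d) i := by
    intro d
    induction d with
    | zero => intro _ _ _; simp
    | succ d ih =>
      intro hd hj hl
      have g1 := L1 _ hd hj hl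
      have hj' : ∃ j, A (t0 + d + 2) i j ∧ ¬ A (t0 + d + 1) i j := by
        by_contra hc
        push Not at hc
        refine absurd g1 (not_lt.mpr ?_)
        rw [hu, hu]
        exact Set.encard_le_encard fun j hj => hc j hj
      have hl' : u (t0 + d) i < s := lt_of_le_of_lt (um _) hl
      have g2 := L1 d (by omega) hj' hl'
      have g3 := ih (by omega) hj' hl'
      push_cast
      exact (add_le_add_left g3 1).trans (Order.add_one_le_of_lt g2)
  by_contra hc
  push Not at hc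
  exact absurd (L2 s le_rfl ⟨j, h1, h2⟩ hc) (not_le.mpr hc)

def El (I : Finset (ℕ × ℕ)) (a b : ℕ∞) : Prop :=
  ¬ ∃ p ∈ zeroSet I, a = (p.1 : ℕ∞) ∧ b = (p.2 : ℕ∞)

lemma El_mono (I : Finset (ℕ × ℕ)) (a b a' b' : ℕ∞) (h1 : a ≤ a') (h2 : b ≤ b') (h : El I a b) :
    El I a' b' := by
  rintro ⟨p, ⟨r, hr, h3, h4⟩, rfl, rfl⟩
  obtain ⟨x, rfl, hx⟩ := ENat.le_natCast_iff.mp h1
  obtain ⟨y, rfl, hy⟩ := ENat.le_natCast_iff.mp h2
  exact h ⟨(x, y), ⟨r, hr, by simp only; omega, by simp only; omega⟩, rfl, rfl⟩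

theorem bound (I : Finset (ℕ × ℕ)) (s : ℕ) (hs : ¬ square (s + 1) ⊆ zeroSet I)
    (A : Set (ℕ × ℕ)) (hA : Spans (zeroSet I) A) :
    ∃ t ≤ (2 * s ^ 2 + 1) * (s + 1), (grow (zeroSet I))^[t] A = Set.univ := by
  set B : ℕ → Set (ℕ × ℕ) := fun t => (grow (zeroSet I))^[t] A with hB
  have hst : ∀ t x, x ∈ B (t + 1) ↔ x ∈ B t ∨ El I (row (B t) x.2) (col (B t) x.1) := by
    intro t x
    simp only [hB, Function.iterate_succ_apply']
    rfl
  have hmono : Monotone B := monotone_nat_of_le_succ fun t x hx => (hst t x).mpr (Or.inl hx)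
  have rm : ∀ t t' j, t ≤ t' → row (B t) j ≤ row (B t') j :=
    fun t t' j h => Set.encard_le_encard fun i hi => hmono h hi
  have cm : ∀ t t' j, t ≤ t' → col (B t) j ≤ col (B t') j :=
    fun t t' j h => Set.encard_le_encard fun i hi => hmono h hi
  have hss : El I s s := by
    rintro ⟨p, ⟨r, hr, h3, h4⟩, e1, e2⟩
    have e1 : s = p.1 := by exact_mod_cast e1
    have e2 : s = p.2 := by exact_mod_cast e2
    exact hs fun q hq => ⟨r, hr, by have := hq.1; omega, by have := hq.2; omega⟩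
  let a : ℕ → ℕ → ℕ := fun t k => cap s {j | El I k (col (B t) j)}
  let b : ℕ → ℕ → ℕ := fun t k => cap s {j | El I (row (B t) j) k}
  have sa : ∀ t t' (k : ℕ), t ≤ t' →
      {j | El I k (col (B t) j)} ⊆ {j | El I k (col (B t') j)} :=
    fun t t' k h j hj => El_mono I _ _ _ _ le_rfl (cm _ _ _ h) hj
  have sb : ∀ t t' (k : ℕ), t ≤ t' →
      {j | El I (row (B t) j) k} ⊆ {j | El I (row (B t') j) k} :=
    fun t t' k h j hj => El_mono I _ _ _ _ (rm _ _ _ h) le_rfl hj
  let Φ : ℕ → ℕ := fun t => ∑ k ∈ Finset.range s, (a t k + b t k)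
  have Φb : ∀ t, Φ t ≤ 2 * s ^ 2 := fun t => by
    have := Finset.sum_le_card_nsmul (Finset.range s) (fun k => a t k + b t k) (2 * s)
      (fun k _ => by
        have := cap_le s {j | El I k (col (B t) j)}
        have := cap_le s {j | El I (row (B t) j) k}
        simp only [a, b]; omega)
    simp only [Finset.card_range, smul_eq_mul] at this
    simp only [Φ]; nlinarith
  obtain ⟨m, hm1, hm2⟩ : ∃ m ≤ 2 * s ^ 2, Φ ((m + 1) * (s + 1)) ≤ Φ (m * (s + 1)) := by
    by_contra hc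
    push Not at hc
    have : ∀ m ≤ 2 * s ^ 2 + 1, m ≤ Φ (m * (s + 1)) := by
      intro m
      induction m with
      | zero => simp
      | succ m ih =>
        intro h
        have := ih (by omega)
        have := hc m (by omega)
        omega
    have h1 := this _ le_rfl
    have h2 := Φb ((2 * s ^ 2 + 1) * (s + 1))
    omega
  set t0 := m * (s + 1)
  rw [show (m + 1) * (s + 1) = t0 + (s + 1) by ring] at hm2
  have heq : ∀ k ∈ Finset.range s, a t0 k + b t0 k = a (t0 + (s + 1)) k + b (t0 + (s + 1)) k := by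
    refine (Finset.sum_eq_sum_iff_of_le fun k _ => ?_).mp (le_antisymm ?_ hm2)
    · exact add_le_add (cap_mono s (sa _ _ k (by omega))) (cap_mono s (sb _ _ k (by omega)))
    · exact Finset.sum_le_sum fun k _ =>
        add_le_add (cap_mono s (sa _ _ k (by omega))) (cap_mono s (sb _ _ k (by omega)))
  have hfix : B (t0 + s + 2) ⊆ B (t0 + s + 1) := by
    rintro ⟨i, j⟩ h1
    by_contra h2
    have c1 := core s (El I) (El_mono I) (fun t j i => (i, j) ∈ B t) (fun t j => row (B t) j)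
      (fun t i => col (B t) i) (fun _ _ => rfl) cm (fun t j i => hst t (i, j)) t0
      (fun k hk => cap_eq s (sa _ _ k (by omega)) (by
        have := heq k (Finset.mem_range.mpr hk)
        have := cap_mono s (sb t0 (t0 + (s + 1)) k (by omega))
        simp only [a, b] at *; omega)) j i h1 h2
    have c2 := core s (fun x y => El I y x) (fun a b a' b' h h' => El_mono I _ _ _ _ h' h)
      (fun t i j => (i, j) ∈ B t) (fun t i => col (B t) i)
      (fun t j => row (B t) j) (fun _ _ => rfl) rm (fun t i j => hst t (i, j)) t0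
      (fun k hk => cap_eq s (sb _ _ k (by omega)) (by
        have := heq k (Finset.mem_range.mpr hk)
        have := cap_mono s (sa t0 (t0 + (s + 1)) k (by omega))
        simp only [a, b] at *; omega)) i j h1 h2
    exact h2 ((hst _ _).mpr (Or.inr (El_mono I _ _ _ _ c1 c2 hss)))
  have hfix' : grow (zeroSet I) (B (t0 + s + 1)) = B (t0 + s + 1) := by
    have : B (t0 + s + 2) = grow (zeroSet I) (B (t0 + s + 1)) := by
      simp only [hB]; rw [Function.iterate_succ_apply']
    rw [← this]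
    exact Set.Subset.antisymm hfix (hmono (by omega))
  refine ⟨t0 + s + 1, ?_, Set.eq_univ_of_forall fun x => ?_⟩
  · calc t0 + s + 1 = (m + 1) * (s + 1) := by ring
      _ ≤ _ := Nat.mul_le_mul_right _ (by omega)
  · have : x ∈ ⋃ t, B t := hA ▸ Set.mem_univ x
    obtain ⟨t, ht⟩ := Set.mem_iUnion.mp this
    have h3 : B (t + (t0 + s + 1)) = B (t0 + s + 1) := by
      simp only [hB]
      rw [Function.iterate_add_apply]
      exact Function.iterate_fixed hfix' t
    have := hmono (show t ≤ t + (t0 + s + 1) by omega) ht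
    rwa [h3] at this

end Pool.Agent.H25.Ham
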