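import Mathlib

set_option autoImplicit false

namespace Pool.Agent.H25.Ham

/-- The zero-set: union of the rectangles `R_{a,b}`, `(a,b) ∈ I`. -/
def zeroSet (I : Finset (ℕ × ℕ)) : Set (ℕ × ℕ) := {p | ∃ r ∈ I, p.1 < r.1 ∧ p.2 < r.2}

/-- The square `R_{s,s}`. -/
def square (s : ℕ) : Set (ℕ × ℕ) := {p | p.1 < s ∧ p.2 < s}

/-- Number of points of `A` on the horizontal line at height `j` (possibly infinite). -/
noncomputable def row (A : Set (ℕ × ℕ)) (j : ℕ) : ℕ∞ := {i | (i, j) ∈ A}.encard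

/-- Number of points of `A` on the vertical line at abscissa `i` (possibly infinite). -/
noncomputable def col (A : Set (ℕ × ℕ)) (i : ℕ) : ℕ∞ := {j | (i, j) ∈ A}.encard

/-- The growth map. -/
def grow (Z : Set (ℕ × ℕ)) (A : Set (ℕ × ℕ)) : Set (ℕ × ℕ) :=
  A ∪ {x | ¬ ∃ p ∈ Z, row A x.2 = (p.1 : ℕ∞) ∧ col A x.1 = (p.2 : ℕ∞)}

/-- `A` spans. -/
def Spans (Z : Set (ℕ × ℕ)) (A : Set (ℕ × ℕ)) : Prop := ⋃ t, (grow Z)^[t] A = Set.univ

/-- Spanning time (infinite if no iterate is the whole plane). -/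
noncomputable def tau (Z : Set (ℕ × ℕ)) (A : Set (ℕ × ℕ)) : ℕ∞ :=
  ⨅ (t : ℕ) (_ : (grow Z)^[t] A = Set.univ), (t : ℕ∞)

/-- Maximal spanning time. -/
noncomputable def maxTime (Z : Set (ℕ × ℕ)) : ℕ∞ :=
  ⨆ (A : Set (ℕ × ℕ)) (_ : A.Finite ∧ Spans Z A), tau Z A

end Pool.Agent.H25.Ham
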