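import Mathlib
import Pool.Agent.H2.KneserH

namespace H25.Harb

open Finset Pointwise Pool.Agent.H2.Kneser

theorem indep {α : Type} [DecidableEq α] (N : α → Finset α) (D n : ℕ) :
    ∀ B : Finset α, B.card = n → (∀ a ∈ B, (N a).card ≤ D) →
      ∃ I ⊆ B, B.card ≤ (2 * D + 1) * I.card ∧ ∀ a ∈ I, ∀ b ∈ I, b ∈ N a → a = b := by
  induction n using Nat.strong_induction_on with
  | _ n ih =>
    intro B hB hN
    rcases B.eq_empty_or_nonempty with rfl | hne
    · exact ⟨∅, by simp, by simp, by simp⟩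
    obtain ⟨x, hx, hxd⟩ : ∃ x ∈ B, (B.filter fun a => x ∈ N a).card ≤ D := by
      apply exists_le_of_sum_le hne
      simp only [card_filter]
      rw [sum_comm]
      refine sum_le_sum fun a ha => ?_
      rw [← card_filter]
      exact (card_le_card fun y hy => (mem_filter.1 hy).2).trans (hN a ha)
    set S := insert x (N x ∪ B.filter fun a => x ∈ N a) with hS
    have hSc : S.card ≤ 2 * D + 1 := by
      have h1 : S.card ≤ _ := card_insert_le x (N x ∪ B.filter fun a => x ∈ N a)
      have h2 := card_union_le (N x) (B.filter fun a => x ∈ N a)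
      have h3 := hN x hx
      omega
    have hlt : (B \ S).card < n := by
      rw [← hB]
      exact card_lt_card ⟨sdiff_subset, fun h => (mem_sdiff.1 (h hx)).2 (mem_insert_self _ _)⟩
    obtain ⟨I, hI, h1, h2⟩ := ih _ hlt (B \ S) rfl (fun a ha => hN a (mem_sdiff.1 ha).1)
    have hxI : x ∉ I := fun h => (mem_sdiff.1 (hI h)).2 (mem_insert_self _ _)
    refine ⟨insert x I, insert_subset hx (hI.trans sdiff_subset), ?_, ?_⟩
    · rw [card_insert_of_notMem hxI, Nat.mul_succ]
      have := le_card_sdiff S B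
      omega
    · intro a ha b hb hab
      rcases mem_insert.1 ha with rfl | ha' <;> rcases mem_insert.1 hb with rfl | hb'
      · rfl
      · exact absurd (mem_insert_of_mem (mem_union_left _ hab)) (mem_sdiff.1 (hI hb')).2
      · exact absurd (mem_insert_of_mem (mem_union_right _
          (mem_filter.2 ⟨(mem_sdiff.1 (hI ha')).1, hab⟩))) (mem_sdiff.1 (hI ha')).2
      · exact h2 a ha' b hb' hab

variable {G : Type} [AddCommGroup G] [DecidableEq G]

def rep (A : Finset G) (a : G) : Finset G := A.filter fun b => a + a - b ∈ A ∧ b ≠ a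

theorem fix (h2 : ∀ x y : G, x + x = y + y → x = y) (A : Finset G) (M n : ℕ) (hn : n ≤ M) :
    ∀ x ∈ n • (A.filter fun a => 2 * M < (rep A a).card),
      ∃ R ⊆ A, R.card = n ∧ ∑ y ∈ R, y = x := by
  induction n with
  | zero => intro x hx; exact ⟨∅, by simp, by simp, by simpa using (mem_zero.1 (by simpa using hx)).symm⟩
  | succ n ih =>
    intro x hx
    rw [succ_nsmul] at hx
    obtain ⟨y, hy, a, ha, rfl⟩ := mem_add.1 hx
    obtain ⟨R, hR, hc, hs⟩ := ih (by omega) y hy
    obtain ⟨ha1, ha2⟩ := mem_filter.1 ha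
    by_cases haR : a ∈ R
    · obtain ⟨b, hb, hb2⟩ := exists_mem_notMem_of_card_lt_card (t := rep A a)
        (s := R ∪ R.image fun r => a + a - r) (by
          have h1 := card_union_le R (R.image fun r => a + a - r)
          have h3 := card_image_le (s := R) (f := fun r => a + a - r)
          omega)
      obtain ⟨b1, b2, b3⟩ := mem_filter.1 hb
      rw [mem_union, not_or] at hb2
      have c1 : a + a - b ∉ R := fun h => hb2.2 (mem_image.2 ⟨_, h, by abel⟩)
      have c2 : b ≠ a + a - b := fun h => b3 (h2 _ _ (eq_sub_iff_add_eq.1 h))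
      have c3 : a + a - b ∉ R.erase a := fun h => c1 (mem_of_mem_erase h)
      have c4 : b ∉ insert (a + a - b) (R.erase a) := by
        rw [mem_insert, not_or]; exact ⟨c2, fun h => hb2.1 (mem_of_mem_erase h)⟩
      have hp := card_pos.2 ⟨a, haR⟩
      refine ⟨insert b (insert (a + a - b) (R.erase a)),
        insert_subset b1 (insert_subset b2 ((erase_subset _ _).trans hR)), ?_, ?_⟩
      · rw [card_insert_of_notMem c4, card_insert_of_notMem c3, card_erase_of_mem haR]; omega
      · rw [sum_insert c4, sum_insert c3, ← hs, ← add_sum_erase R _ haR]; abel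
    · exact ⟨insert a R, insert_subset ha1 hR, by rw [card_insert_of_notMem haR, hc],
        by rw [sum_insert haR, hs, add_comm]⟩

theorem badsmall (M m : ℕ) (hm : 0 < m) : ∃ n0 : ℕ, ∀ (G : Type) [AddCommGroup G] [DecidableEq G]
    [Fintype G], n0 ≤ Fintype.card G → ∀ A : Finset G,
      m * (A.filter fun a => ¬ 2 * M < (rep A a).card).card < Fintype.card G := by
  refine ⟨cornersTheoremBound (1 / (m * (2 * (2 * M) + 1) : ℕ) : ℝ), ?_⟩
  intro G _ _ _ hG A
  obtain ⟨I, hI, h1, h2⟩ := indep (rep A) (2 * M) _ (A.filter fun a => ¬ 2 * M < (rep A a).card)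
    rfl (fun a ha => not_lt.1 (mem_filter.1 ha).2)
  by_contra hc
  have hp : (0 : ℝ) < (m * (2 * (2 * M) + 1) : ℕ) := by positivity
  refine roth_3ap_theorem _ (by positivity) hG I ?_ ?_
  · rw [one_div, inv_mul_le_iff₀ hp]
    have : Fintype.card G ≤ m * (2 * (2 * M) + 1) * I.card := by
      have := Nat.mul_le_mul_left m h1
      rw [mul_assoc]; omega
    exact_mod_cast this
  · intro a ha b hb c hc e
    by_contra hne
    refine hne (h2 b hb a ha (mem_filter.2 ⟨(mem_filter.1 (hI ha)).1, ?_, hne⟩)).symm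
    rw [← e, add_sub_cancel_left]
    exact (mem_filter.1 (hI hc)).1

theorem dav [Finite G] (K : AddSubgroup G) (f : G → G) (n : ℕ) : ∀ O : Finset G, O.card = n →
    ∃ Z ⊆ O, ∑ x ∈ Z, f x ∈ K ∧ O.card < Z.card + K.index := by
  induction n using Nat.strong_induction_on with
  | _ n ih =>
    intro O hO
    by_cases hle : O.card < K.index
    · exact ⟨∅, by simp, by simp, by simpa using hle⟩
    obtain ⟨W, hW, hWc⟩ := exists_subset_card_eq (s := O) (n := K.index) (by omega)
    let e := (W.equivFinOfCardEq hWc).symm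
    let g : Fin K.index → G := fun i => (e i).1
    have hg : Function.Injective g := Subtype.val_injective.comp e.injective
    have := Fintype.ofFinite (G ⧸ K)
    have key : ∀ i j : Fin (K.index + 1), i < j →
        ∑ l ∈ univ.filter (fun l : Fin K.index => l.1 < j.1), f (g l) -
          ∑ l ∈ univ.filter (fun l : Fin K.index => l.1 < i.1), f (g l) ∈ K →
        ∃ D ⊆ O, D.Nonempty ∧ ∑ x ∈ D, f x ∈ K := by
      intro i j hij hs
      have hij' : i.1 < j.1 := hij
      have hsub : univ.filter (fun l : Fin K.index => l.1 < i.1) ⊆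
          univ.filter (fun l : Fin K.index => l.1 < j.1) := fun l hl => by
        simp only [mem_filter, mem_univ, true_and] at hl ⊢; omega
      rw [← sum_sdiff_eq_sub hsub] at hs
      refine ⟨image g _, fun x hx => ?_, Nonempty.image ⟨⟨i.1, by omega⟩, ?_⟩ g,
        by rw [sum_image (fun x _ y _ h => hg h)]; exact hs⟩
      · obtain ⟨l, _, rfl⟩ := mem_image.1 hx
        exact hW (e l).2
      · simpa using hij'
    obtain ⟨D, hD, hne, hs⟩ : ∃ D ⊆ O, D.Nonempty ∧ ∑ x ∈ D, f x ∈ K := by
      obtain ⟨i, j, hne, he⟩ := Fintype.exists_ne_map_eq_of_card_lt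
        (fun i : Fin (K.index + 1) => (QuotientAddGroup.mk
          (∑ l ∈ univ.filter (fun l : Fin K.index => l.1 < i.1), f (g l)) : G ⧸ K)) (by
          rw [Fintype.card_fin, ← Nat.card_eq_fintype_card, ← AddSubgroup.index_eq_card]; omega)
      rcases lt_or_gt_of_ne hne with h | h
      · exact key i j h (QuotientAddGroup.eq_iff_sub_mem.1 he.symm)
      · exact key j i h (QuotientAddGroup.eq_iff_sub_mem.1 he)
    have hp := hne.card_pos
    have hl := card_le_card hD
    have hc := card_sdiff_of_subset hD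
    obtain ⟨Z, hZ, h1, h2⟩ := ih _ (by omega) (O \ D) rfl
    have hdis : Disjoint Z D := disjoint_sdiff_self_left.mono_left hZ
    refine ⟨Z ∪ D, union_subset (hZ.trans sdiff_subset) hD, ?_, ?_⟩
    · rw [sum_union hdis]; exact K.add_mem h1 hs
    · rw [card_union_of_disjoint hdis]; omega

theorem special [Fintype G] (h2 : ∀ x y : G, x + x = y + y → x = y) (K : AddSubgroup G)
    (q k : ℕ) (hq : 2 ≤ q) (hi : K.index = q) (hK : Nat.card K = q * k) (A : Finset G)
    (hA : A.card = q * k + q + 1) (x : G) (J : Finset G) (hJ : J ⊆ A) (hJK : ∀ a ∈ J, a - x ∈ K)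
    (hJc : q * k + 2 * q + 2 ≤ 2 * J.card) :
    ∃ R ⊆ A, R.card = q + 1 ∧ ∑ y ∈ R, y = ∑ y ∈ A, y := by
  classical
  obtain ⟨Z, hZ, h1, h3⟩ := dav K (fun o => o - x) _ (A \ J) rfl
  rw [hi] at h3
  have c1 := card_sdiff_of_subset hJ
  have c2 := card_sdiff_of_subset hZ
  have c3 := card_le_card hZ
  obtain ⟨U, hU, hUc⟩ := exists_subset_card_eq (s := J) (n := q - 1 - ((A \ J) \ Z).card)
    (by omega)
  have c4 := card_sdiff_of_subset hU
  set t := ∑ y ∈ Z, y + ∑ y ∈ J \ U, y with ht
  have htK : t - (x + x) ∈ K := by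
    have e1 := K.add_mem h1 (K.sum_mem (t := J \ U) fun a ha => hJK a (mem_sdiff.1 ha).1)
    rw [sum_sub_distrib, sum_sub_distrib, sum_const, sum_const] at e1
    have e2 : Z.card + (J \ U).card = k * q + 2 := by
      rw [mul_comm k q]; have := card_le_card hJ; omega
    have e3 := K.nsmul_mem (K.nsmul_index_mem x) k
    rw [hi, ← mul_nsmul'] at e3
    have e4 : (Z.card + (J \ U).card) • x = (k * q) • x + (x + x) := by
      rw [e2, add_nsmul, two_nsmul]
    rw [add_nsmul] at e4
    have e5 : t - (x + x) = ∑ y ∈ Z, y - Z.card • x + (∑ y ∈ J \ U, y - (J \ U).card • x) +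
        (k * q) • x := by
      rw [ht, eq_sub_of_add_eq' e4.symm]; abel
    rw [e5]; exact K.add_mem e1 e3
  have hun : ((J \ U) ∪ (J \ U).image fun a => t - a).card ≤ q * k := by
    rw [← hK, Nat.card_eq_fintype_card, Fintype.card_subtype]
    apply card_le_card_of_injOn (fun a => a - x) _ sub_left_injective.injOn
    intro a ha
    refine mem_coe.2 (mem_filter.2 ⟨mem_univ _, ?_⟩)
    rcases mem_union.1 (mem_coe.1 ha) with h | h
    · exact hJK a (mem_sdiff.1 h).1
    · obtain ⟨b, hb, rfl⟩ := mem_image.1 h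
      have := K.sub_mem htK (hJK b (mem_sdiff.1 hb).1)
      rwa [show t - (x + x) - (b - x) = t - b - x by abel] at this
  have hin := card_union_add_card_inter (J \ U) ((J \ U).image fun a => t - a)
  rw [card_image_of_injective _ sub_right_injective] at hin
  obtain ⟨a, ha, hat⟩ : ∃ a ∈ (J \ U) ∩ (J \ U).image (fun a => t - a), a + a ≠ t := by
    obtain ⟨a, ha, b, hb, hab⟩ := one_lt_card.1
      (show 1 < ((J \ U) ∩ (J \ U).image fun a => t - a).card by omega)
    by_cases h : a + a = t
    · exact ⟨b, hb, fun h' => hab (h2 _ _ (h.trans h'.symm))⟩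
    · exact ⟨a, ha, h⟩
  obtain ⟨ha1, ha2⟩ := mem_inter.1 ha
  obtain ⟨b, hb, e⟩ := mem_image.1 ha2
  have hab : a ≠ b := fun h => hat (by rw [← h] at e; exact (sub_eq_iff_eq_add.1 e).symm)
  have hP : ({a, b} : Finset G) ⊆ J \ U := insert_subset ha1 (singleton_subset_iff.2 hb)
  have d1 : Disjoint U {a, b} := disjoint_sdiff.mono_right hP
  have hUP : U ∪ {a, b} ⊆ J := union_subset hU (hP.trans sdiff_subset)
  have d2 : Disjoint ((A \ J) \ Z) (U ∪ {a, b}) :=
    (disjoint_sdiff_self_left.mono_left sdiff_subset).mono_right hUP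
  refine ⟨((A \ J) \ Z) ∪ (U ∪ {a, b}), union_subset (sdiff_subset.trans sdiff_subset)
    (hUP.trans hJ), ?_, ?_⟩
  · rw [card_union_of_disjoint d2, card_union_of_disjoint d1, card_pair hab]; omega
  · rw [sum_union d2, sum_union d1, sum_pair hab, ← e, ← sum_sdiff hJ, ← sum_sdiff hZ,
      ← sum_sdiff hU, ht]
    abel

theorem upper (q : ℕ) (hq : q.Prime) : ∃ k0 : ℕ, ∀ k, k0 ≤ k →
    (∀ d c, d ∣ q ^ 2 * k → d < q ^ 2 → (q + 1) * c + 1 ≤ d + q → d ≤ q * c → 0 < c → d = q) →
    ∀ (G : Type) [AddCommGroup G] [DecidableEq G] [Fintype G],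
    (∀ x y : G, x + x = y + y → x = y) → Fintype.card G = q ^ 2 * k →
    ∀ A : Finset G, A.card = q * k + q + 1 →
    ∃ R ⊆ A, R.card = q + 1 ∧ ∑ y ∈ R, y = ∑ y ∈ A, y := by
  have hq2 := hq.two_le
  obtain ⟨n0, hn0⟩ := badsmall (q + 1) (q ^ 2 * (q + 1)) (by positivity)
  refine ⟨n0 + 1, fun k hk hr G _ _ _ h2 hG A hA => ?_⟩
  have hb := hn0 G (by rw [hG]; nlinarith [Nat.one_le_pow 2 q (by omega)]) A
  rw [hG, mul_assoc] at hb
  have hb' := Nat.lt_of_mul_lt_mul_left hb
  have hsp := card_filter_add_card_filter_not (s := A) (fun a => 2 * (q + 1) < (rep A a).card)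
  set J := A.filter fun a => 2 * (q + 1) < (rep A a).card with hJ
  generalize (A.filter fun a => ¬ 2 * (q + 1) < (rep A a).card).card = b at *
  by_cases hall : (q + 1) • J = univ
  · exact fix h2 A (q + 1) (q + 1) le_rfl _ (hall ▸ mem_univ _)
  have hbk : b + b ≤ q * k := by nlinarith
  have hne : J.Nonempty := card_pos.1 (by omega)
  obtain ⟨d, c, h1, h3, h4, h5⟩ := kneser_num hne q hall
  have sg := sg_st ((q + 1) • J)
  set K := st ((q + 1) • J) with hK
  have h6 := card_le_card (sg.subset_add J)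
  have hs := sg.pos
  rw [hG] at h1
  rw [h3] at h6
  have h7 : d * ((q + 1) * q) ≤ (q + 1) * c * q ^ 2 + d := by
    have a1 : q * k ≤ c * K.card + b := by omega
    have a2 : (q + 1) * q * k ≤ (q + 1) * (c * K.card) + k := by nlinarith
    have a3 := Nat.mul_le_mul_left d a2
    have a4 : d * ((q + 1) * (c * K.card) + k) = ((q + 1) * c * q ^ 2 + d) * k := by
      have : d * ((q + 1) * (c * K.card)) = (q + 1) * c * (d * K.card) := by ring
      rw [mul_add, this, ← h1]; ring
    rw [a4, ← mul_assoc] at a3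
    exact Nat.le_of_mul_le_mul_right a3 (by omega)
  have h8 : c + 1 ≤ q := by
    by_contra hc
    obtain ⟨u, rfl⟩ : ∃ u, c = q + u := ⟨c - q, by omega⟩
    obtain ⟨v, rfl⟩ : ∃ v, d = q * q + (q + 1) * u + 1 + v :=
      ⟨d - (q * q + (q + 1) * u + 1), by
        have : (q + 1) * (q + u) = q * q + (q + 1) * u + q := by ring
        omega⟩
    obtain ⟨w, rfl⟩ : ∃ w, q = w + 2 := ⟨q - 2, by omega⟩
    ring_nf at h7
    nlinarith [Nat.zero_le (w * u), Nat.zero_le (w * v), Nat.zero_le (w ^ 2 * u),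
      Nat.zero_le (w ^ 2 * v), Nat.zero_le (w ^ 2)]
  have h9 : d < q ^ 2 := by
    by_contra hc
    obtain ⟨v, rfl⟩ : ∃ v, d = q ^ 2 + v := ⟨d - q ^ 2, by omega⟩
    have a1 := Nat.mul_le_mul_left ((q + 1) * q ^ 2) h8
    have a2 : v ≤ v * ((q + 1) * q) := Nat.le_mul_of_pos_right _ (by positivity)
    have a3 : 0 < q ^ 3 := by positivity
    nlinarith
  have h10 : d ≤ q * c := by
    by_contra hc
    obtain ⟨v, rfl⟩ : ∃ v, d = q * c + 1 + v := ⟨d - (q * c + 1), by omega⟩
    have a2 : 0 ≤ v * ((q + 1) * q) := Nat.zero_le _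
    nlinarith
  have hdq := hr d c (h1 ▸ dvd_mul_right _ _) h9 h5 h10 h4
  rw [hdq] at h1 h5
  · skip
    have hc : c = 1 := by nlinarith
    have hKc : K.card = q * k := by
      rw [pow_two, mul_assoc] at h1
      exact (Nat.eq_of_mul_eq_mul_left (by omega) h1).symm
    let K' : AddSubgroup G := ⟨⟨⟨K, fun ha hb => sg.add ha hb⟩, sg.zero⟩, fun ha => sg.neg ha⟩
    have hK' : Nat.card K' = q * k := by
      rw [← hKc]; exact Nat.subtype_card K (fun _ => Iff.rfl)
    have hi' : K'.index = q := by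
      have := K'.card_mul_index
      rw [hK', Nat.card_eq_fintype_card, hG, show q ^ 2 * k = q * k * q by ring] at this
      exact Nat.eq_of_mul_eq_mul_left (Nat.mul_pos (by omega) (by omega)) this
    obtain ⟨x, hx⟩ := hne
    have he : x +ᵥ K = J + K := eq_of_subset_of_card_le (vadd_finset_subset_add hx)
      (by rw [h3, hc, one_mul, card_vadd_finset])
    exact special h2 K' q k hq2 hi' hK' A hA x J (filter_subset _ _)
      (fun a ha => sg.mem_coset.1 (he ▸ sg.subset_add J ha)) (by omega)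

end H25.Harb
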