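import Mathlib

namespace H25.Harb

/-- No `h` distinct elements of `A` sum to zero. -/
def WeakFree {G : Type} [AddCommGroup G] (A : Finset G) (h : ℕ) : Prop :=
  ∀ S ⊆ A, S.card = h → ∑ x ∈ S, x ≠ 0

/-- The largest size of a weakly zero-`h`-sum-free set. -/
noncomputable def tau (G : Type) [AddCommGroup G] (h : ℕ) : ℕ :=
  sSup {n | ∃ A : Finset G, WeakFree A h ∧ A.card = n}

end H25.Harb
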