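import Mathlib
import Pool.Agent.H25.HarbDefs
import Pool.Agent.H25.Harb1

namespace H25.Harb

open Finset

theorem lower (q k D c : ℕ) (hq : Odd q) (hq3 : 3 ≤ q) (hk : Odd k) (hD : D ∣ k)
    (hc : D + 1 = 2 * (q * c)) : q * k + q ≤ tau (ZMod q × ZMod (q * k)) (q * k) := by
  have hk0 : 0 < k := hk.pos
  have hc0 : 0 < c := Nat.pos_of_ne_zero fun e => by rw [e] at hc; omega
  have hqc : 3 * c ≤ q * c := Nat.mul_le_mul_right _ hq3
  have : NeZero q := ⟨by omega⟩
  have : NeZero (q * k) := ⟨Nat.mul_ne_zero (by omega) (by omega)⟩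
  have : NeZero D := ⟨by omega⟩
  have hd : D ∣ q * k := hD.mul_left q
  let ψ : ZMod q × ZMod (q * k) →+ ZMod D :=
    (ZMod.castHom hd (ZMod D)).toAddMonoidHom.comp (AddMonoidHom.snd _ _)
  have hψ : Function.Surjective ψ := (ZMod.castHom_surjective hd).comp Prod.snd_surjective
  obtain ⟨g, hg⟩ := hψ 1
  have hker : (univ.filter fun x => x ∈ ψ.ker).card * D = q * (q * k) := by
    have h1 := ψ.ker.card_mul_index
    rw [AddSubgroup.index_ker, AddMonoidHom.range_eq_top.2 hψ, Nat.card_eq_fintype_card,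
      Fintype.card_subtype] at h1
    simpa using h1
  obtain ⟨n, hn⟩ : ∃ n, q * k + q = 2 * n := by
    obtain ⟨a, ha⟩ := hk
    exact ⟨q * (a + 1), by rw [ha]; ring⟩
  have hP : n ≤ (univ.filter fun x => (ψ x).val < c).card := by
    have h1 : (range c ×ˢ univ.filter fun x => x ∈ ψ.ker).card ≤
        (univ.filter fun x => (ψ x).val < c).card := by
      have hv : ∀ i < c, ∀ y ∈ ψ.ker, (ψ (i • g + y)).val = i := by
        intro i hi y hy
        rw [map_add, map_nsmul, hg, (AddMonoidHom.mem_ker).1 hy, add_zero, nsmul_one,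
          ZMod.val_cast_of_lt (by omega)]
      apply card_le_card_of_injOn (fun p => p.1 • g + p.2)
      · intro p hp
        obtain ⟨p1, p2⟩ := mem_product.1 (mem_coe.1 hp)
        refine mem_coe.2 (mem_filter.2 ⟨mem_univ _, ?_⟩)
        rw [hv _ (mem_range.1 p1) _ (mem_filter.1 p2).2]; exact mem_range.1 p1
      · intro p hp r hr e
        obtain ⟨p1, p2⟩ := mem_product.1 (mem_coe.1 hp)
        obtain ⟨r1, r2⟩ := mem_product.1 (mem_coe.1 hr)
        have e' : p.1 • g + p.2 = r.1 • g + r.2 := e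
        have e1 : p.1 = r.1 := by
          rw [← hv _ (mem_range.1 p1) _ (mem_filter.1 p2).2, e',
            hv _ (mem_range.1 r1) _ (mem_filter.1 r2).2]
        rw [e1] at e'
        exact Prod.ext e1 (add_left_cancel e')
    rw [card_product, card_range] at h1
    refine le_trans ?_ h1
    have hDk := Nat.le_of_dvd hk0 hD
    have h2 : 2 * n * D ≤ 2 * (c * (univ.filter fun x => x ∈ ψ.ker).card) * D := by
      have e : 2 * (c * (univ.filter fun x => x ∈ ψ.ker).card) * D = (D + 1) * (q * k) := by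
        rw [hc, mul_assoc, mul_assoc, hker]; ring
      rw [e, ← hn]
      nlinarith [Nat.mul_le_mul_left q hDk]
    have := Nat.le_of_mul_le_mul_right h2 (by omega)
    omega
  obtain ⟨T, hT, hTc⟩ := exists_subset_card_eq hP
  have hTv : ∀ x ∈ T, (ψ x).val < c := fun x hx => (mem_filter.1 (hT hx)).2
  set u := (2 * c - 1) • g with hu
  have huv : ∀ x ∈ T, (ψ (u - x)).val = 2 * c - 1 - (ψ x).val := by
    intro x hx
    have := hTv x hx
    rw [map_sub, hu, map_nsmul, hg, nsmul_one, ← ZMod.natCast_zmod_val (ψ x),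
      ← Nat.cast_sub (by omega), ZMod.val_cast_of_lt (by omega), ZMod.val_cast_of_lt (ZMod.val_lt _)]
  have hdis : Disjoint T (T.image fun x => u - x) := by
    rw [disjoint_left]
    intro x h1 h2
    obtain ⟨y, hy, rfl⟩ := mem_image.1 h2
    have := hTv _ h1
    have := huv y hy
    have := hTv y hy
    omega
  have hA : (T ∪ T.image fun x => u - x).card = q * k + q := by
    rw [card_union_of_disjoint hdis, card_image_of_injective _ sub_right_injective]; omega
  apply le_csSup ⟨Fintype.card (ZMod q × ZMod (q * k)), by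
    rintro m ⟨B, -, rfl⟩; exact card_le_univ B⟩
  refine ⟨_, ?_, hA⟩
  intro S hS hcard h0
  have e1 := sum_sdiff (f := fun x => x) hS
  rw [h0, add_zero, sum_union hdis, sum_image (fun x _ y _ h => sub_right_injective h),
    ← sum_add_distrib] at e1
  simp only [add_sub_cancel, sum_const, hTc] at e1
  set R := (T ∪ T.image fun x => u - x) \ S with hR
  have hRc : R.card = q := by rw [hR, card_sdiff_of_subset hS, hA, hcard]; omega
  have h1 : ∑ x ∈ R, (ψ x).val ≤ q * (2 * c - 1) := by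
    refine le_trans (sum_le_card_nsmul _ _ (2 * c - 1) fun x hx => ?_) (by rw [hRc, smul_eq_mul])
    rcases mem_union.1 (mem_sdiff.1 hx).1 with h | h
    · have := hTv x h; omega
    · obtain ⟨y, hy, rfl⟩ := mem_image.1 h
      have := huv y hy; omega
  have h2 : ((∑ x ∈ R, (ψ x).val : ℕ) : ZMod D) = (n * (2 * c - 1) : ℕ) := by
    have := congrArg ψ e1
    rw [map_sum, map_nsmul, hu, map_nsmul, hg, nsmul_one, nsmul_eq_mul] at this
    push_cast
    simp only [ZMod.natCast_zmod_val]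
    exact this
  generalize ∑ x ∈ R, (ψ x).val = V at h1 h2
  have h3 : q * (2 * c - 1) + q = D + 1 := by
    rw [hc, ← Nat.mul_succ, show (2 * c - 1).succ = 2 * c by omega]; ring
  have h4 : D ∣ 2 * V + (q - 1) := by
    rw [← ZMod.natCast_eq_zero_iff, Nat.cast_add, Nat.cast_mul, h2, ← Nat.cast_mul,
      ← Nat.cast_add, ZMod.natCast_eq_zero_iff, ← mul_assoc, ← hn, add_mul,
      add_assoc, show q * (2 * c - 1) + (q - 1) = D by omega]
    exact dvd_add (hd.mul_right _) dvd_rfl
  obtain ⟨w, hw⟩ := h4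
  obtain ⟨o, ho⟩ := hq
  rcases w with _ | _ | w
  · omega
  · omega
  · have : D * (w + 1 + 1) = D * w + 2 * D := by ring
    omega

theorem up (q : ℕ) (hq : q.Prime) (hq2 : Odd q) : ∃ k0 : ℕ, ∀ k, k0 ≤ k → Odd k →
    (∀ d c, d ∣ q ^ 2 * k → d < q ^ 2 → (q + 1) * c + 1 ≤ d + q → d ≤ q * c → 0 < c → d = q) →
    tau (ZMod q × ZMod (q * k)) (q * k) ≤ q * k + q := by
  obtain ⟨k0, h⟩ := upper q hq
  refine ⟨k0, fun k hk ho hr => ?_⟩
  have : NeZero q := ⟨hq.ne_zero⟩
  have : NeZero (q * k) := ⟨(hq2.mul ho).pos.ne'⟩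
  refine csSup_le' ?_
  rintro m ⟨A, hA, rfl⟩
  by_contra hlt
  obtain ⟨B, hB, hc⟩ := exists_subset_card_eq (s := A) (n := q * k + q + 1) (by omega)
  have z : ∀ n : ℕ, Odd n → ∀ x y : ZMod n, x + x = y + y → x = y := by
    intro n hn x y e
    have : -(x - y) = x - y := by linear_combination -e
    rcases (ZMod.neg_eq_self_iff _).1 this with h1 | h1
    · exact sub_eq_zero.1 h1
    · obtain ⟨o, ho⟩ := hn; omega
  obtain ⟨R, hR, h1, h2⟩ := h k hk hr (ZMod q × ZMod (q * k)) (fun x y e =>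
    Prod.ext (z q hq2 _ _ (congrArg Prod.fst e)) (z _ (hq2.mul ho) _ _ (congrArg Prod.snd e)))
    (by simp; ring) B hc
  refine hA (B \ R) (sdiff_subset.trans hB) (by rw [card_sdiff_of_subset hR]; omega) ?_
  rw [sum_sdiff_eq_sub hR, h2, sub_self]

end H25.Harb
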