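import Mathlib
import Pool.Agent.H25.Harb2

namespace H25.Harb

theorem main (q : ℕ) (hq : q.Prime) (hq3 : 3 ≤ q) : ∃ k0 : ℕ, ∀ k : ℕ, k0 ≤ k →
    (∀ r : ℕ, r.Prime → r ∣ k → q ^ 2 < r) →
    AddMonoid.exponent (ZMod q × ZMod (q * k)) = q * k ∧
    tau (ZMod q × ZMod (q * k)) (q * k) ≤ q * k + q ∧
    ((∃ D : ℕ, D ∣ k ∧ q ∣ D + 1) → tau (ZMod q × ZMod (q * k)) (q * k) = q * k + q) := by
  have hq2 : Odd q := hq.odd_of_ne_two (by omega)
  obtain ⟨k0, h⟩ := up q hq hq2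
  refine ⟨k0, fun k hk hr => ?_⟩
  have ho : Odd k := by
    by_contra h2
    have := hr 2 Nat.prime_two (Nat.not_odd_iff_even.1 h2).two_dvd
    nlinarith
  have hu := h k hk ho fun d c h1 h2 h3 _ h5 => by
    have hd0 : 0 < d := Nat.pos_of_dvd_of_pos h1 (Nat.mul_pos (by positivity) ho.pos)
    have hcop : Nat.Coprime d k := Nat.coprime_of_dvd fun r hr1 hr2 hr3 => by
      have := hr r hr1 hr3
      have := Nat.le_of_dvd hd0 hr2
      omega
    obtain ⟨i, hi, rfl⟩ := (Nat.dvd_prime_pow hq).1 (hcop.dvd_of_dvd_mul_right h1)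
    have hc1 := Nat.mul_le_mul_left (q + 1) (show 1 ≤ c from h5)
    interval_cases i
    · simp at h3; omega
    · exact pow_one q
    · omega
  refine ⟨?_, hu, fun ⟨D, h1, e, h2⟩ => le_antisymm hu ?_⟩
  · rw [AddMonoid.exponent_prod, ZMod.exponent, ZMod.exponent]
    exact Nat.lcm_eq_right (dvd_mul_right _ _)
  · have hD : Odd D := ho.of_dvd_nat h1
    have he : Even e := by
      by_contra h3
      have := hq2.mul (Nat.not_even_iff_odd.1 h3)
      rw [← h2] at this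
      exact Nat.not_even_iff_odd.2 this hD.add_one
    obtain ⟨c, rfl⟩ := he
    exact lower q k D c hq2 hq3 ho h1 (by rw [h2]; ring)

end H25.Harb
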