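import Pool.Agent.H25.SkewDefs
import Pool.Agent.H25.Mst1

set_option autoImplicit false

namespace Pool.Agent.H25.Skew

open Relation Pool.Agent.H25.Mst

variable {V : Type} {G : SimpleGraph V}

lemma forcing_iff [Finite V] (S : Set V) :
    Forcing G S ↔ ∀ F, Fort G F → (F ∩ S).Nonempty := by
  constructor
  · intro h F hF
    by_contra hc
    have := rtg_inv (fun A => ¬ (F ∩ A).Nonempty) (fun A B hAB hA => by
      obtain ⟨u, w, h1, _, h3, rfl⟩ := hAB
      rintro ⟨z, hz, rfl | hz'⟩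
      · apply hF.2 u
        rw [Set.ncard_eq_one]
        refine ⟨z, Set.eq_singleton_iff_unique_mem.mpr ⟨⟨h1, hz⟩, fun x hx => ?_⟩⟩
        by_contra hne
        exact hA ⟨x, hx.2, h3 x hx.1 hne⟩
      · exact hA ⟨z, hz, hz'⟩) h hc
    exact this (by simpa using hF.1)
  · intro h
    induction hn : Sᶜ.ncard using Nat.strong_induction_on generalizing S with
    | _ n ih =>
      by_cases hS : Sᶜ.Nonempty
      · have : ¬ Fort G Sᶜ := fun hF => by simpa using h _ hF
        simp only [Fort, not_and, not_forall, not_not] at this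
        obtain ⟨u, hu⟩ := this hS
        obtain ⟨w, hw⟩ := Set.ncard_eq_one.mp hu
        have hw' := Set.eq_singleton_iff_unique_mem.mp hw
        refine ReflTransGen.head (b := insert w S) ⟨u, w, hw'.1.1, hw'.1.2, fun x hx hne => ?_, rfl⟩
          (ih _ ?_ _ (fun F hF => (h F hF).mono (Set.inter_subset_inter_right _
            (Set.subset_insert _ _))) rfl)
        · by_contra hc
          exact hne (hw'.2 x ⟨hx, hc⟩)
        · rw [← hn]
          refine Set.ncard_lt_ncard ⟨Set.compl_subset_compl.mpr (Set.subset_insert _ _), ?_⟩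
          intro hc
          exact hc hw'.1.2 (Set.mem_insert _ _)
      · have : S = Set.univ := by
          rw [Set.not_nonempty_iff_eq_empty] at hS
          simpa using hS
        rw [this]
        exact ReflTransGen.refl

def Br (G : SimpleGraph V) (a b : V) : Set V := {z | ReflTransGen (Av G.Adj a b) b z}

lemma not_mem_Br (hG : G.IsAcyclic) {a b : V} (h : G.Adj a b) : a ∉ Br G a b := by
  intro hr
  have := SimpleGraph.isAcyclic_iff_forall_adj_isBridge.mp hG h
  rw [SimpleGraph.isBridge_iff] at this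
  apply this
  apply SimpleGraph.Reachable.symm
  rw [SimpleGraph.reachable_iff_reflTransGen]
  exact rtg_map id (fun x y hxy => Or.inr (by simpa [Av] using hxy)) hr

lemma Br_sub (hG : G.IsAcyclic) {a b c : V} (h : G.Adj b c) (hne : c ≠ a) :
    Br G b c ⊆ Br G a b := by
  intro z hz
  have : ReflTransGen (Av G.Adj a b) c z := by
    induction hz with
    | refl => exact .refl
    | tail h1 h2 ih =>
      rename_i x y
      refine ih.tail ⟨h2.1, fun e => ?_⟩
      rw [Sym2.eq_iff] at e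
      rcases e with ⟨_, rfl⟩ | ⟨rfl, _⟩
      · exact not_mem_Br hG h (h1.tail h2)
      · exact not_mem_Br hG h h1
  refine ReflTransGen.head ⟨h, fun e => ?_⟩ this
  rw [Sym2.eq_iff] at e
  rcases e with ⟨_, rfl⟩ | ⟨_, rfl⟩
  · exact h.ne rfl
  · exact hne rfl

open Classical in
noncomputable def AA [Fintype V] (G : SimpleGraph V) : (V → ℚ) →ₗ[ℚ] (V → ℚ) :=
  Matrix.mulVecLin (G.adjMatrix ℚ)

open Classical in
lemma AA_apply [Fintype V] (x : V → ℚ) (v : V) : AA G x v = ∑ u ∈ G.neighborFinset v, x u := by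
  simp [AA]

open Classical in
lemma AA_single [Fintype V] (c : V) :
    AA G (Pi.single c 1) = ∑ v ∈ G.neighborFinset c, Pi.single v 1 := by
  ext z
  simp [AA_apply, Pi.single_apply, Finset.sum_apply, G.adj_comm]

open Classical in
lemma branch [Fintype V] (hG : G.IsAcyclic) {F : Set V} (hF : Fort G F) (w v : V) (hw : w ∈ F)
    (h : G.Adj w v) :
    ∃ x : V → ℚ, (∀ z, x z ≠ 0 → z ∈ F ∧ z ∈ Br G w v) ∧ AA G x = - Pi.single v 1 := by
  induction hn : (Br G w v).ncard using Nat.strong_induction_on generalizing w v with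
  | _ n ih =>
    obtain ⟨c, hc, hcw⟩ : ∃ c ∈ G.neighborSet v ∩ F, c ≠ w := by
      by_contra hcon
      push Not at hcon
      exact hF.2 v (Set.ncard_eq_one.mpr ⟨w, Set.eq_singleton_iff_unique_mem.mpr
        ⟨⟨h.symm, hw⟩, hcon⟩⟩)
    have hvc : G.Adj v c := hc.1
    have s1 := Br_sub hG hvc hcw
    have : ∀ v' ∈ (G.neighborFinset c).erase v, ∃ x : V → ℚ,
        (∀ z, x z ≠ 0 → z ∈ F ∧ z ∈ Br G w v) ∧ AA G x = - Pi.single v' 1 := by
      intro v' hv'
      rw [Finset.mem_erase, SimpleGraph.mem_neighborFinset] at hv'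
      have s2 := Br_sub hG hv'.2 hv'.1
      obtain ⟨x, hx1, hx2⟩ := ih _ (by
        rw [← hn]
        exact Set.ncard_lt_ncard ⟨s2.trans s1, fun hc => not_mem_Br hG hvc (s2 (hc .refl))⟩)
        c v' hc.2 hv'.2 rfl
      exact ⟨x, fun z hz => ⟨(hx1 z hz).1, s1 (s2 (hx1 z hz).2)⟩, hx2⟩
    choose! X hX1 hX2 using this
    refine ⟨-(Pi.single c 1 + ∑ v' ∈ (G.neighborFinset c).erase v, X v'), fun z hz => ?_, ?_⟩
    · by_cases hzc : z = c
      · subst hzc
        exact ⟨hc.2, s1 .refl⟩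
      · simp only [Pi.neg_apply, Pi.add_apply, Pi.single_eq_of_ne hzc, zero_add,
          Finset.sum_apply, neg_ne_zero] at hz
        obtain ⟨v', h1, h2⟩ := Finset.exists_ne_zero_of_sum_ne_zero hz
        exact hX1 v' h1 z h2
    · rw [map_neg, map_add, map_sum, AA_single, Finset.sum_congr rfl hX2,
        ← Finset.add_sum_erase _ _ ((G.mem_neighborFinset c v).mpr hvc.symm),
        Finset.sum_neg_distrib]
      abel

open Classical in
lemma fort_vec [Fintype V] (hG : G.IsAcyclic) {F : Set V} (hF : Fort G F) {u : V} (hu : u ∈ F) :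
    ∃ x : V → ℚ, AA G x = 0 ∧ x u ≠ 0 ∧ ∀ z, x z ≠ 0 → z ∈ F := by
  have : ∀ v ∈ G.neighborFinset u, ∃ x : V → ℚ,
      (∀ z, x z ≠ 0 → z ∈ F ∧ z ∈ Br G u v) ∧ AA G x = - Pi.single v 1 :=
    fun v hv => branch hG hF u v hu ((G.mem_neighborFinset u v).mp hv)
  choose! X hX1 hX2 using this
  refine ⟨Pi.single u 1 + ∑ v ∈ G.neighborFinset u, X v, ?_, ?_, fun z hz => ?_⟩
  · rw [map_add, map_sum, AA_single, Finset.sum_congr rfl hX2, Finset.sum_neg_distrib]
    abel
  · have : ∑ v ∈ G.neighborFinset u, X v u = 0 := Finset.sum_eq_zero fun v hv => by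
      by_contra hc
      exact not_mem_Br hG ((G.mem_neighborFinset u v).mp hv) (hX1 v hv u hc).2
    simp [Finset.sum_apply, this]
  · by_cases hzc : z = u
    · exact hzc ▸ hu
    · simp only [Pi.add_apply, Pi.single_eq_of_ne hzc, zero_add, Finset.sum_apply] at hz
      obtain ⟨v', h1, h2⟩ := Finset.exists_ne_zero_of_sum_ne_zero hz
      exact (hX1 v' h1 z h2).1

open Classical in
lemma vec_fort [Fintype V] {x : V → ℚ} (hx : AA G x = 0) {u : V} (hu : x u ≠ 0) :
    Fort G {z | x z ≠ 0} := by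
  refine ⟨⟨u, hu⟩, fun v hv => ?_⟩
  obtain ⟨w, hw⟩ := Set.ncard_eq_one.mp hv
  have hw' := Set.eq_singleton_iff_unique_mem.mp hw
  have := congrFun hx v
  rw [AA_apply, Finset.sum_eq_single w] at this
  · exact hw'.1.2 this
  · intro b hb hne
    by_contra hc
    exact hne (hw'.2 b ⟨(G.mem_neighborFinset v b).mp hb, hc⟩)
  · intro hc
    exact absurd ((G.mem_neighborFinset v w).mpr hw'.1.1) hc

lemma ir_iff [Fintype V] (hG : G.IsAcyclic) (S : Set V) : IrSet G S ↔
    ∀ u ∈ S, ∃ x : V → ℚ, AA G x = 0 ∧ x u ≠ 0 ∧ ∀ z ∈ S, z ≠ u → x z = 0 := by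
  refine forall₂_congr fun u hu => ⟨?_, ?_⟩
  · rintro ⟨F, hF, e⟩
    have e' := Set.eq_singleton_iff_unique_mem.mp e
    obtain ⟨x, h1, h2, h3⟩ := fort_vec hG hF e'.1.1
    refine ⟨x, h1, h2, fun z hz hne => ?_⟩
    by_contra hc
    exact hne (e'.2 z ⟨h3 z hc, hz⟩)
  · rintro ⟨x, h1, h2, h3⟩
    refine ⟨_, vec_fort h1 h2, Set.eq_singleton_iff_unique_mem.mpr ⟨⟨h2, hu⟩, fun z hz => ?_⟩⟩
    by_contra hc
    exact hz.1 (h3 z hz.2 hc)

lemma forc_iff [Fintype V] (hG : G.IsAcyclic) (S : Set V) : Forcing G S ↔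
    ∀ x : V → ℚ, AA G x = 0 → (∀ z ∈ S, x z = 0) → x = 0 := by
  rw [forcing_iff]
  constructor
  · intro h x h1 h2
    ext u
    by_contra hc
    obtain ⟨z, hz1, hz2⟩ := h _ (vec_fort h1 hc)
    exact hz1 (h2 z hz2)
  · intro h F hF
    obtain ⟨u, hu⟩ := hF.1
    obtain ⟨x, h1, h2, h3⟩ := fort_vec hG hF hu
    by_contra hc
    refine h2 (congrFun (h x h1 fun z hz => ?_) u)
    by_contra hc'
    exact hc ⟨z, h3 z hc', hz⟩

noncomputable def rs [Fintype V] (G : SimpleGraph V) (S : Set V) :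
    LinearMap.ker (AA G) →ₗ[ℚ] (S → ℚ) :=
  (LinearMap.funLeft ℚ ℚ Subtype.val).comp (LinearMap.ker (AA G)).subtype

lemma le_card [Fintype V] (hG : G.IsAcyclic) {S : Set V} (h : Forcing G S) :
    Module.finrank ℚ (LinearMap.ker (AA G)) ≤ S.ncard := by
  classical
  have hinj : Function.Injective (rs G S) := by
    rw [injective_iff_map_eq_zero]
    intro x hx
    exact Subtype.ext ((forc_iff hG S).mp h x.1 x.2 fun z hz => congrFun hx ⟨z, hz⟩)
  have := LinearMap.finrank_le_finrank_of_injective hinj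
  rwa [Module.finrank_fintype_fun_eq_card, ← Nat.card_eq_fintype_card, Nat.card_coe_set_eq] at this

lemma card_le [Fintype V] (hG : G.IsAcyclic) {S : Set V} (h : IrSet G S) :
    S.ncard ≤ Module.finrank ℚ (LinearMap.ker (AA G)) := by
  classical
  have hs : Function.Surjective (rs G S) := by
    rw [ir_iff hG] at h
    choose! X h1 h2 h3 using h
    intro t
    refine ⟨∑ u : S, (t u / X u u) • ⟨X u, h1 u u.2⟩, ?_⟩
    ext z
    rw [map_sum, Finset.sum_apply, Finset.sum_eq_single z]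
    · have := h2 z z.2
      simp [rs]; field_simp
    · intro b _ hne
      have := h3 b b.2 z z.2 (fun e => hne (Subtype.ext e).symm)
      simp [rs, this]
    · simp
  have := LinearMap.finrank_le_finrank_of_surjective hs
  rwa [Module.finrank_fintype_fun_eq_card, ← Nat.card_eq_fintype_card, Nat.card_coe_set_eq] at this

lemma max_forcing [Fintype V] (hG : G.IsAcyclic) {S : Set V} (h : Maximal (IrSet G) S) :
    Forcing G S := by
  rw [forc_iff hG]
  intro x h1 h2
  ext u
  by_contra hc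
  have hc : x u ≠ 0 := hc
  have huS : u ∉ S := fun hu => hc (h2 u hu)
  refine huS (h.2 (y := insert u S) ?_ (Set.subset_insert _ _) (Set.mem_insert _ _))
  have h0 := (ir_iff hG S).mp h.1
  rw [ir_iff hG]
  rintro w (rfl | hw)
  · refine ⟨x, h1, hc, ?_⟩
    rintro z (rfl | hz) hne
    · exact absurd rfl hne
    · exact h2 z hz
  · obtain ⟨y, a1, a2, a3⟩ := h0 w hw
    refine ⟨y - (y u / x u) • x, by simp [a1, h1], by simpa [h2 w hw] using a2, ?_⟩
    rintro z (rfl | hz) hne
    · simp; field_simp; ring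
    · simp [h2 z hz, a3 z hz hne]

lemma min_ir [Fintype V] (hG : G.IsAcyclic) {S : Set V} (h : Minimal (Forcing G) S) :
    IrSet G S := by
  rw [ir_iff hG]
  intro u hu
  by_contra hc
  push Not at hc
  have : Forcing G (S \ {u}) := by
    rw [forc_iff hG]
    intro x h1 h2
    refine (forc_iff hG S).mp h.1 x h1 fun z hz => ?_
    by_cases e : z = u
    · subst e
      by_contra hx
      obtain ⟨w, a1, a2, a3⟩ := hc x h1 hx
      exact a3 (h2 w ⟨a1, a2⟩)
    · exact h2 z ⟨hz, e⟩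
  exact (h.2 this Set.sdiff_subset hu).2 rfl

theorem main [Finite V] (hG : G.IsAcyclic) : zir G = Z G ∧ Z G = Zup G ∧ Zup G = ZIR G := by
  have := Fintype.ofFinite V
  set d := Module.finrank ℚ (LinearMap.ker (AA G))
  obtain ⟨S, hS⟩ : ∃ S, Maximal (IrSet G) S := by
    obtain ⟨S, _, h⟩ := Finite.exists_le_maximal (p := IrSet G) (a := ∅) (fun u hu => hu.elim)
    exact ⟨S, h⟩
  obtain ⟨T, hT⟩ : ∃ T, Minimal (Forcing G) T := by
    obtain ⟨T, _, h⟩ := Finite.exists_le_minimal (p := Forcing G) (max_forcing hG hS)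
    exact ⟨T, h⟩
  have e1 : {k | ∃ S, Maximal (IrSet G) S ∧ S.ncard = k} = {d} := by
    have : ∀ S, Maximal (IrSet G) S → S.ncard = d :=
      fun S h => le_antisymm (card_le hG h.1) (le_card hG (max_forcing hG h))
    refine Set.eq_singleton_iff_unique_mem.mpr ⟨⟨S, hS, this S hS⟩, ?_⟩
    rintro k ⟨S, h, rfl⟩
    exact this S h
  have e3 : ∀ S, Minimal (Forcing G) S → S.ncard = d :=
    fun S h => le_antisymm (card_le hG (min_ir hG h)) (le_card hG h.1)
  have e2 : {k | ∃ S, Minimal (Forcing G) S ∧ S.ncard = k} = {d} := by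
    refine Set.eq_singleton_iff_unique_mem.mpr ⟨⟨T, hT, e3 T hT⟩, ?_⟩
    rintro k ⟨S, h, rfl⟩
    exact e3 S h
  have e4 : Z G = d := by
    apply le_antisymm
    · exact Nat.sInf_le ⟨T, hT.1, e3 T hT⟩
    · refine le_csInf ⟨d, T, hT.1, e3 T hT⟩ ?_
      rintro k ⟨S, h, rfl⟩
      exact le_card hG h
  rw [e4, zir, Zup, ZIR, e1, e2]
  simp

end Pool.Agent.H25.Skew
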