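import Pool.Agent.H25.InterDefs
import Pool.Agent.H25.Skew

set_option autoImplicit false

namespace Pool.Agent.H25.Inter

open Relation Pool.Agent.H25.Mst Pool.Agent.H25.Skew SimpleGraph

variable {V : Type} {T : SimpleGraph V}

lemma rtg_symm' {R : V → V → Prop} (hR : ∀ a b, R a b → R b a) {u v : V}
    (h : ReflTransGen R u v) : ReflTransGen R v u :=
  rtg_map (R := Function.swap _) id (fun _ _ hxy => Or.inr (hR _ _ hxy)) h.swap

lemma exists_nx (hT : T.IsTree) (u v : V) (h : u ≠ v) : ∃ x, T.Adj u x ∧ v ∈ Br T u x ∧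
    ∃ p : T.Walk u v, p.IsPath ∧ s(u, x) ∈ p.edges := by
  obtain ⟨p, hp, -⟩ := hT.existsUnique_path u v
  cases p with
  | nil => exact absurd rfl h
  | cons hadj q =>
    rename_i x
    refine ⟨x, hadj, ?_, .cons hadj q, hp, by simp⟩
    have hu : u ∉ q.support := ((Walk.cons_isPath_iff hadj q).mp hp).2
    have : ∀ (a b : V) (w : T.Walk a b), u ∉ w.support → ReflTransGen (Av T.Adj u x) a b := by
      intro a b w
      induction w with
      | nil => intro _; exact .refl
      | cons h' w ih =>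
        intro hw
        simp only [Walk.support_cons, List.mem_cons, not_or] at hw
        refine ReflTransGen.head ⟨h', fun e => ?_⟩ (ih hw.2)
        rw [Sym2.eq_iff] at e
        rcases e with ⟨e, _⟩ | ⟨_, e⟩
        · exact hw.1 e.symm
        · exact hw.2 (e ▸ w.start_mem_support)
    exact this _ _ q hu

lemma Br_disj (hT : T.IsAcyclic) {a b z : V} (h : T.Adj a b) (h1 : z ∈ Br T a b)
    (h2 : z ∈ Br T b a) : False := by
  apply not_mem_Br hT h
  refine ReflTransGen.trans h1 (rtg_symm' (fun x y hxy => ⟨hxy.1.symm, by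
    rw [Sym2.eq_swap]; exact hxy.2⟩) ?_)
  exact rtg_map (R' := Av T.Adj a b) id (fun x y hxy => Or.inr ⟨hxy.1, by
      rw [Sym2.eq_swap (a := a)]; exact hxy.2⟩) h2

lemma same_end (hT : T.IsAcyclic) {u v u' v' x x' y y' : V} (huv : u ≠ v) (hn : ¬ T.Adj u v)
    (h1 : T.Adj u x) (h2 : v ∈ Br T u x) (h4 : v' ∈ Br T u' x') (h5 : T.Adj v y)
    (e1 : s(u, x) = s(u', x')) (e2 : s(v, y) = s(v', y')) : u = u' := by
  rw [Sym2.eq_iff] at e1 e2
  rcases e1 with ⟨e, _⟩ | ⟨rfl, rfl⟩
  · exact e
  · exfalso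
    rcases e2 with ⟨rfl, _⟩ | ⟨rfl, rfl⟩
    · exact Br_disj hT h1 h2 h4
    · refine Br_disj hT h1 (ReflTransGen.tail h2 ⟨h5, fun e => ?_⟩) h4
      rw [Sym2.eq_iff] at e
      rcases e with ⟨e, _⟩ | ⟨e, _⟩
      · exact huv e.symm
      · exact hn (e ▸ h1)

lemma tangent (c q : ℕ) : q * c ≤ c.choose 2 + (q.choose 2 + q) := by
  have h1 := Nat.choose_two_right c
  have h2 := Nat.choose_two_right q
  have e1 : 2 * c.choose 2 + c = c * c := by
    have := Nat.div_mul_cancel (Nat.even_mul_pred_self c).two_dvd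
    rcases c with _ | c
    · rfl
    · simp only [Nat.add_sub_cancel] at *; nlinarith
  have e2 : 2 * q.choose 2 + q = q * q := by
    have := Nat.div_mul_cancel (Nat.even_mul_pred_self q).two_dvd
    rcases q with _ | q
    · rfl
    · simp only [Nat.add_sub_cancel] at *; nlinarith
  zify at e1 e2 ⊢
  by_cases h : (c : ℤ) ≤ q
  · nlinarith
  · nlinarith

theorem interT_ge [Finite V] {H : SimpleGraph V} (hle : T ≤ H) (hT : T.IsTree) (q r : ℕ)
    (hq : 2 * (H.edgeSet.ncard + 1) = 2 * Nat.card V + q * (Nat.card V - 1) + r) :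
    (Nat.card V - 1) * q.choose 2 + q * r ≤ interT H T := by
  classical
  have := Fintype.ofFinite V
  choose! nx h1 h2 h3 using exists_nx hT
  set N := H.edgeFinset \ T.edgeFinset with hN
  let End : Sym2 V → Sym2 V → Prop := fun f e => ∃ u v, e = s(u, v) ∧ f = s(u, nx u v)
  have hNm : ∀ u v, s(u, v) ∈ N → u ≠ v ∧ ¬ T.Adj u v := by
    intro u v h
    simp only [hN, Finset.mem_sdiff, mem_edgeFinset, mem_edgeSet] at h
    exact ⟨h.1.ne, h.2⟩
  have c1 : T.edgeFinset.card + 1 = Nat.card V := by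
    rw [hT.card_edgeFinset, Nat.card_eq_fintype_card]
  have c2 : N.card + T.edgeFinset.card = H.edgeSet.ncard := by
    rw [hN, Finset.card_sdiff_add_card_eq_card (edgeFinset_mono hle), ← Set.ncard_coe_finset,
      coe_edgeFinset]
  have c3 : 2 * N.card ≤ ∑ f ∈ T.edgeFinset, (N.filter (End f)).card := by
    have := Finset.sum_card_bipartiteAbove_eq_sum_card_bipartiteBelow (s := T.edgeFinset) (t := N) End
    simp only [Finset.bipartiteAbove, Finset.bipartiteBelow] at this
    rw [this, mul_comm, ← smul_eq_mul, ← Finset.sum_const]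
    refine Finset.sum_le_sum fun e he => ?_
    induction e using Sym2.ind with
    | _ u v =>
      obtain ⟨a1, a2⟩ := hNm u v he
      refine Finset.one_lt_card.mpr ⟨s(u, nx u v), ?_, s(v, nx v u), ?_, fun e => ?_⟩
      · simp only [Finset.mem_filter, mem_edgeFinset, mem_edgeSet]
        exact ⟨h1 u v a1, u, v, rfl, rfl⟩
      · simp only [Finset.mem_filter, mem_edgeFinset, mem_edgeSet]
        exact ⟨h1 v u a1.symm, v, u, Sym2.eq_swap, rfl⟩
      · rw [Sym2.eq_iff] at e
        rcases e with ⟨e, _⟩ | ⟨_, e⟩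
        · exact a1 e
        · exact a2 (e ▸ h1 u v a1)
  let P : Sym2 V → Finset (Sym2 (Sym2 V)) := fun f =>
    (N.filter (End f)).offDiag.image Sym2.mk.uncurry
  have c4 : ∑ f ∈ T.edgeFinset, (P f).card ≤ interT H T := by
    rw [← Finset.card_biUnion, interT, ← Set.ncard_coe_finset]
    · refine Set.ncard_le_ncard fun p hp => ?_
      simp only [Finset.coe_biUnion, Set.mem_iUnion, Finset.mem_coe, P, Finset.mem_image,
        Finset.mem_offDiag, Finset.mem_filter] at hp
      obtain ⟨f, _, ⟨e, e'⟩, ⟨a1, a2, a3⟩, rfl⟩ := hp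
      have key : ∀ g, g ∈ N ∧ End f g → g ∈ H.edgeSet \ T.edgeSet ∧ f ∈ treeCycle T g := by
        rintro g ⟨b1, u, v, rfl, rfl⟩
        exact ⟨by simpa [hN] using b1, Or.inr ⟨u, v, rfl, h3 u v (hNm u v b1).1⟩⟩
      refine ⟨by simpa using a3, fun g hg => ?_, f, fun g hg => ?_⟩
      · rcases Sym2.mem_iff.mp hg with rfl | rfl
        · exact (key _ a1).1
        · exact (key _ a2).1
      · rcases Sym2.mem_iff.mp hg with rfl | rfl
        · exact (key _ a1).2
        · exact (key _ a2).2
    · intro f _ g _ hfg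
      rw [Function.onFun, Finset.disjoint_left]
      intro p hp hp'
      have key : ∀ f, p ∈ P f → ¬ p.IsDiag ∧ ∀ e ∈ p, e ∈ N ∧ End f e := by
        intro f hp
        simp only [P, Finset.mem_image, Finset.mem_offDiag, Finset.mem_filter] at hp
        obtain ⟨⟨e, e'⟩, ⟨a1, a2, a3⟩, rfl⟩ := hp
        refine ⟨by simpa using a3, fun g hg => ?_⟩
        rcases Sym2.mem_iff.mp hg with rfl | rfl
        · exact a1
        · exact a2
      have two : ∀ e ∈ p, ∃ u v, e = s(u, v) ∧ s(u, v) ∈ N ∧ f = s(u, nx u v) ∧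
          g = s(v, nx v u) := by
        intro e he
        obtain ⟨b1, u, v, rfl, b2⟩ := (key f hp).2 e he
        obtain ⟨_, u', v', b3, b4⟩ := (key g hp').2 _ he
        rw [Sym2.eq_iff] at b3
        rcases b3 with ⟨rfl, rfl⟩ | ⟨rfl, rfl⟩
        · exact absurd (b2.trans b4.symm) hfg
        · exact ⟨u, v, rfl, b1, b2, b4⟩
      induction p using Sym2.ind with
      | _ e e' =>
        obtain ⟨u, v, rfl, b1, b2, b3⟩ := two e (by simp)
        obtain ⟨u', v', rfl, b1', b2', b3'⟩ := two e' (by simp)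
        obtain ⟨a1, a2⟩ := hNm u v b1
        obtain ⟨a1', _⟩ := hNm u' v' b1'
        have d1 := same_end hT.isAcyclic a1 a2 (h1 u v a1) (h2 u v a1) (h2 u' v' a1')
          (h1 v u a1.symm) (b2.symm.trans b2') (b3.symm.trans b3')
        have d2 := same_end hT.isAcyclic a1.symm (fun h => a2 h.symm) (h1 v u a1.symm)
          (h2 v u a1.symm) (h2 v' u' a1'.symm) (h1 u v a1) (b3.symm.trans b3') (b2.symm.trans b2')
        apply (key f hp).1
        simp [d1, d2]
  have c5 : q * ∑ f ∈ T.edgeFinset, (N.filter (End f)).card ≤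
      ∑ f ∈ T.edgeFinset, (P f).card + T.edgeFinset.card * (q.choose 2 + q) := by
    rw [Finset.mul_sum, ← smul_eq_mul T.edgeFinset.card, ← Finset.sum_const,
      ← Finset.sum_add_distrib]
    refine Finset.sum_le_sum fun f _ => ?_
    simp only [P, Sym2.card_image_offDiag]
    exact tangent _ _
  have e2 : 2 * q.choose 2 + q = q * q := by
    have h2 := Nat.choose_two_right q
    have := Nat.div_mul_cancel (Nat.even_mul_pred_self q).two_dvd
    rcases q with _ | q
    · rfl
    · simp only [Nat.add_sub_cancel] at *; nlinarith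
  rw [← c1, Nat.add_sub_cancel] at hq ⊢
  rw [← c2] at hq
  have c6 : 2 * N.card = q * T.edgeFinset.card + r := by omega
  have c7 := Nat.mul_le_mul_left q c3
  rw [c6] at c7
  nlinarith

end Pool.Agent.H25.Inter
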