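import Mathlib

set_option autoImplicit false

namespace Pool.Agent.H25.Inter

variable {V : Type}

/-- Edge set of the tree-cycle of `e`: the edge `e` and the edges of the `T`-path joining its
two ends. -/
def treeCycle (T : SimpleGraph V) (e : Sym2 V) : Set (Sym2 V) :=
  {f | f = e ∨ ∃ u v, e = s(u, v) ∧ ∃ p : T.Walk u v, p.IsPath ∧ f ∈ p.edges}

/-- Number of unordered pairs of distinct tree-cycles of `T` with a common edge. -/
noncomputable def interT (H T : SimpleGraph V) : ℕ :=
  Set.ncard {p : Sym2 (Sym2 V) | ¬ p.IsDiag ∧ (∀ e ∈ p, e ∈ H.edgeSet \ T.edgeSet) ∧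
    ∃ f, ∀ e ∈ p, f ∈ treeCycle T e}

/-- The intersection number: minimum over the spanning trees. -/
noncomputable def inter (H : SimpleGraph V) : ℕ :=
  sInf {k | ∃ T : SimpleGraph V, T ≤ H ∧ T.IsTree ∧ interT H T = k}

end Pool.Agent.H25.Inter
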