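import Pool.Agent.H25.Mst1

set_option autoImplicit false

namespace Pool.Agent.H25.Mst

open SimpleGraph Relation Sum

variable {V L : Type}

def pendAdj (G : SimpleGraph V) (p : L → V) : V ⊕ L → V ⊕ L → Prop
  | inl a, inl b => G.Adj a b
  | inl a, inr l => p l = a
  | inr l, inl a => p l = a
  | inr _, inr _ => False

def pend (G : SimpleGraph V) (p : L → V) : SimpleGraph (V ⊕ L) where
  Adj := pendAdj G p
  symm := ⟨fun x y h => by
    cases x <;> cases y <;> simp only [pendAdj] at * <;> first | exact h.symm | exact h⟩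
  loopless := ⟨fun x h => by cases x <;> simp [pendAdj] at h⟩

def pv (S : Set V) (A : Finset L) : Set (V ⊕ L) := {x | Sum.elim (· ∈ S) (· ∈ A) x}

@[simp] lemma inl_mem_pv {S : Set V} {A : Finset L} {a : V} : inl a ∈ pv S A ↔ a ∈ S := Iff.rfl
@[simp] lemma inr_mem_pv {S : Set V} {A : Finset L} {l : L} : inr l ∈ pv S A ↔ l ∈ A := Iff.rfl

def extAdj {G : SimpleGraph V} (p : L → V) (T : G.Subgraph) (A : Finset L) :
    V ⊕ L → V ⊕ L → Prop
  | inl a, inl b => T.Adj a b
  | inl a, inr l => p l = a ∧ l ∈ A ∧ a ∈ T.verts
  | inr l, inl a => p l = a ∧ l ∈ A ∧ a ∈ T.verts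
  | inr _, inr _ => False

def ext {G : SimpleGraph V} (p : L → V) (T : G.Subgraph) (A : Finset L) :
    (pend G p).Subgraph where
  verts := pv T.verts A
  Adj := extAdj p T A
  adj_sub := by
    intro x y h
    cases x <;> cases y <;> simp only [extAdj, pend, pendAdj] at *
    · exact T.adj_sub h
    · exact h.1
    · exact h.1
  edge_vert := by
    intro x y h
    cases x <;> cases y <;> simp only [extAdj, inl_mem_pv, inr_mem_pv] at *
    · exact T.edge_vert h
    · exact h.2.2
    · exact h.2.1
  symm := ⟨fun x y h => by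
    cases x <;> cases y <;> simp only [extAdj] at * <;> first | exact h.symm | exact h⟩

def res {G : SimpleGraph V} (p : L → V) (H : (pend G p).Subgraph) : G.Subgraph where
  verts := {a | inl a ∈ H.verts}
  Adj a b := H.Adj (inl a) (inl b)
  adj_sub h := H.adj_sub h
  edge_vert h := H.edge_vert h
  symm := ⟨fun _ _ h => h.symm⟩

open Classical in
noncomputable def fib [Fintype L] (p : L → V) (S : Set V) : Finset L :=
  Finset.univ.filter (fun l => p l ∈ S)

@[simp] lemma mem_fib [Fintype L] {p : L → V} {S : Set V} {l : L} : l ∈ fib p S ↔ p l ∈ S := by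
  simp [fib]

def proj (p : L → V) : V ⊕ L → V := Sum.elim id p

lemma IsT.ext {G : SimpleGraph V} (p : L → V) {T : G.Subgraph} (hT : IsT T) {A : Finset L}
    (hA : ∀ l ∈ A, p l ∈ T.verts) : IsT (ext p T A) := by
  have h1 : ∀ x ∈ (Mst.ext p T A).verts, ReflTransGen (Mst.ext p T A).Adj x (inl (proj p x)) ∧
      ReflTransGen (Mst.ext p T A).Adj (inl (proj p x)) x ∧ proj p x ∈ T.verts := by
    intro x hx
    cases x with
    | inl a => exact ⟨.refl, .refl, hx⟩
    | inr l => exact ⟨.single ⟨rfl, hx, hA l hx⟩, .single ⟨rfl, hx, hA l hx⟩, hA l hx⟩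
  have h2 : ∀ (l : L) (a : V), p l = a →
      ¬ ReflTransGen (Av (Mst.ext p T A).Adj (inr l) (inl a)) (inr l) (inl a) := by
    intro l a hl hr
    have := rtg_inv (fun x => x = inr l) (fun x y hxy hx => by
      subst hx
      cases y with
      | inl b =>
        have hb : p l = b := hxy.1.1
        exact absurd (by rw [← hb, hl]) hxy.2
      | inr m => exact hxy.1.elim) hr rfl
    simp at this
  refine ⟨?_, fun u hu v hv => ?_, fun u v huv hr => ?_⟩
  · obtain ⟨a, ha⟩ := hT.ne
    exact ⟨inl a, ha⟩
  · obtain ⟨a1, _, a3⟩ := h1 u hu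
    obtain ⟨_, b2, b3⟩ := h1 v hv
    refine a1.trans (ReflTransGen.trans ?_ b2)
    exact rtg_map (R' := (Mst.ext p T A).Adj) inl (fun a b h => Or.inr h) (hT.conn _ a3 _ b3)
  · cases u with
    | inl a =>
      cases v with
      | inl b =>
        refine hT.acyc a b huv (rtg_map (proj p) (fun x y hxy => ?_) hr)
        cases x with
        | inl c =>
          cases y with
          | inl d => exact Or.inr ⟨hxy.1, fun h => hxy.2 (by simpa [proj] using h)⟩
          | inr m => exact Or.inl hxy.1.1.symm
        | inr m =>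
          cases y with
          | inl d => exact Or.inl hxy.1.1
          | inr m => exact hxy.1.elim
      | inr l =>
        refine h2 l a huv.1 ?_
        have := hr.swap
        refine rtg_map (R := Function.swap _) id (fun x y hxy => Or.inr ⟨hxy.1.symm, ?_⟩) this
        intro h
        exact hxy.2 (by rw [Sym2.eq_swap]; simpa [Sym2.eq_swap] using h)
    | inr l =>
      cases v with
      | inl b => exact h2 l b huv.1 hr
      | inr m => exact huv.elim

lemma IsT.res {G : SimpleGraph V} (p : L → V) {H : (pend G p).Subgraph} (hH : IsT H)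
    (hne : ∃ a, inl a ∈ H.verts) : IsT (res p H) := by
  refine ⟨hne, fun u hu v hv => ?_, fun u v huv hr => ?_⟩
  · refine rtg_map (proj p) (fun x y hxy => ?_) (hH.conn _ hu _ hv)
    have := H.adj_sub hxy
    cases x <;> cases y <;> simp only [pend, pendAdj] at this
    · exact Or.inr hxy
    · exact Or.inl this.symm
    · exact Or.inl this
  · refine hH.acyc (inl u) (inl v) huv (rtg_map inl (fun x y hxy => Or.inr ⟨hxy.1, fun h => ?_⟩) hr)
    exact hxy.2 (by simpa using h)

lemma leaf_adj {G : SimpleGraph V} (p : L → V) {H : (pend G p).Subgraph} (hH : IsT H)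
    (hne : ∃ a, inl a ∈ H.verts) {l : L} (hl : inr l ∈ H.verts) : H.Adj (inr l) (inl (p l)) := by
  obtain ⟨a, ha⟩ := hne
  rcases (hH.conn _ hl _ ha).cases_head with h | ⟨y, hy, _⟩
  · simp at h
  · have := H.adj_sub hy
    cases y <;> simp only [pend, pendAdj] at this
    subst this
    exact hy

open Classical in
lemma ext_res [Fintype L] {G : SimpleGraph V} (p : L → V) {H : (pend G p).Subgraph} (hH : IsT H)
    (hne : ∃ a, inl a ∈ H.verts) :
    ext p (res p H) (Finset.univ.filter fun l => inr l ∈ H.verts) = H := by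
  have key : ∀ l a, H.Adj (inr l) (inl a) ↔ (p l = a ∧ inr l ∈ H.verts ∧ inl a ∈ H.verts) := by
    intro l a
    constructor
    · intro h
      exact ⟨H.adj_sub h, H.edge_vert h, H.edge_vert h.symm⟩
    · rintro ⟨rfl, h, _⟩
      exact leaf_adj p hH hne h
  ext x y
  · cases x <;> simp [ext, res]
  · cases x <;> cases y <;> simp only [ext, res, extAdj, Finset.mem_filter, Finset.mem_univ,
      true_and, Set.mem_ofPred_eq]
    · rw [H.adj_comm, key]
    · rw [key]
    · simp only [false_iff]
      exact fun h => H.adj_sub h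

theorem sum_trees_pend [Finite V] [Fintype L] (G : SimpleGraph V) (p : L → V)
    (F : Set (V ⊕ L) → ℚ) :
    ∑ H ∈ trees (pend G p), F H.verts =
      ∑ l : L, F {inr l} +
        ∑ T ∈ trees G, ∑ A ∈ (fib p T.verts).powerset, F (pv T.verts A) := by
  classical
  rw [← Finset.sum_filter_add_sum_filter_not _ (fun H => ¬ ∃ a, inl a ∈ H.verts)]
  congr 1
  · symm
    refine Finset.sum_bij (fun l _ => (pend G p).singletonSubgraph (inr l)) ?_ ?_ ?_ ?_
    · intro l _
      simp only [Finset.mem_filter, mem_trees]
      refine ⟨⟨⟨inr l, rfl⟩, fun u hu v hv => ?_, fun u v h => h.elim⟩, by simp⟩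
      rw [show u = inr l from hu, show v = inr l from hv]
    · intro l _ m _ h
      have := congrArg Subgraph.verts h
      simpa using this
    · intro H hH
      simp only [Finset.mem_filter, mem_trees] at hH
      obtain ⟨x, hx⟩ := hH.1.ne
      have hna : ∀ a b, ¬ H.Adj a b := by
        intro a b h
        have := H.adj_sub h
        cases a <;> cases b <;> simp only [pend, pendAdj] at this
        · exact hH.2 ⟨_, H.edge_vert h⟩
        · exact hH.2 ⟨_, H.edge_vert h⟩
        · exact hH.2 ⟨_, H.edge_vert h.symm⟩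
      cases x with
      | inl a => exact absurd ⟨a, hx⟩ hH.2
      | inr l =>
        refine ⟨l, Finset.mem_univ _, ?_⟩
        ext a b
        · simp only [singletonSubgraph_verts, Set.mem_singleton_iff]
          constructor
          · rintro rfl; exact hx
          · intro ha
            rcases (hH.1.conn _ ha _ hx).cases_head with h | ⟨y, hy, _⟩
            · exact h
            · exact absurd hy (hna _ _)
        · simp [hna]
    · intro l _; rfl
  · rw [Finset.sum_sigma']
    symm
    refine Finset.sum_nbij' (fun z => ext p z.1 z.2)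
      (fun H => ⟨res p H, Finset.univ.filter fun l => inr l ∈ H.verts⟩) ?_ ?_ ?_ ?_ ?_
    · rintro ⟨T, A⟩ h
      simp only [Finset.mem_sigma, mem_trees, Finset.mem_powerset, Finset.mem_filter,
        not_not] at h ⊢
      refine ⟨h.1.ext p fun l hl => mem_fib.mp (h.2 hl), ?_⟩
      obtain ⟨a, ha⟩ := h.1.ne
      exact ⟨a, ha⟩
    · intro H h
      simp only [Finset.mem_sigma, mem_trees, Finset.mem_powerset, Finset.mem_filter,
        not_not] at h ⊢
      refine ⟨h.1.res p h.2, fun l hl => ?_⟩
      simp only [Finset.mem_filter, Finset.mem_univ, true_and] at hl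
      exact mem_fib.mpr (H.edge_vert (leaf_adj p h.1 h.2 hl).symm)
    · rintro ⟨T, A⟩ _
      have : (Finset.univ.filter fun l => inr l ∈ (ext p T A).verts) = A := by
        ext l; simp [ext]
      simp only [this]
      rfl
    · intro H h
      simp only [mem_trees, Finset.mem_filter, not_not] at h
      exact ext_res p h.1 h.2
    · intro z _; rfl

lemma ncard_pv [Finite V] [Finite L] (S : Set V) (A : Finset L) :
    (pv S A).ncard = S.ncard + A.card := by
  have : pv S A = inl '' S ∪ inr '' (A : Set L) := by
    ext x; cases x <;> simp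
  rw [this, Set.ncard_union_eq, Set.ncard_image_of_injective _ inl_injective,
    Set.ncard_image_of_injective _ inr_injective, Set.ncard_coe_finset]
  rw [Set.disjoint_left]
  rintro x ⟨a, _, rfl⟩ ⟨b, _, h⟩
  simp at h

lemma sum_pow_card (X : Finset L) (c : ℚ) :
    ∑ A ∈ X.powerset, (c + (A.card : ℚ)) = 2 ^ X.card * (c + X.card / 2) := by
  classical
  induction X using Finset.induction_on generalizing c with
  | empty => simp
  | insert a X ha ih =>
    rw [Finset.sum_powerset_insert ha, ih, Finset.card_insert_of_notMem ha]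
    rw [Finset.sum_congr rfl (g := fun A => (c + 1) + (A.card : ℚ)), ih]
    · push_cast; ring
    · intro A hA
      rw [Finset.card_insert_of_notMem (fun h => ha (Finset.mem_powerset.mp hA h))]
      push_cast; ring

/-- weights after summing over the leaves -/
noncomputable def g0 [Fintype L] (p : L → V) (S : Set V) : ℚ := 2 ^ (fib p S).card
noncomputable def g1 [Fintype L] (p : L → V) (S : Set V) : ℚ :=
  2 ^ (fib p S).card * (S.ncard + (fib p S).card / 2)

theorem mu_pend [Finite V] [Fintype L] (G : SimpleGraph V) (p : L → V) :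
    mu (pend G p) = (Fintype.card L + ∑ T ∈ trees G, g1 p T.verts) /
      (Fintype.card L + ∑ T ∈ trees G, g0 p T.verts) := by
  rw [mu_eq, sum_trees_pend G p (fun S => (S.ncard : ℚ)), sum_trees_pend G p (fun _ => 1)]
  simp only [ncard_pv, Nat.cast_add, sum_pow_card, g0, g1]
  simp

theorem sum_csets_pend [Finite V] [Fintype L] (G : SimpleGraph V) (p : L → V)
    (F : Set (V ⊕ L) → ℚ) :
    ∑ S ∈ csets (pend G p), F S =
      ∑ l : L, F {inr l} + ∑ S ∈ csets G, ∑ A ∈ (fib p S).powerset, F (pv S A) := by
  classical
  rw [← Finset.sum_filter_add_sum_filter_not _ (fun S => ¬ ∃ a, inl a ∈ S)]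
  congr 1
  · symm
    refine Finset.sum_bij (fun l _ => ({inr l} : Set (V ⊕ L))) ?_ ?_ ?_ ?_
    · intro l _
      simp only [Finset.mem_filter, mem_csets]
      refine ⟨⟨⟨inr l, rfl⟩, fun u hu v hv => ?_⟩, by simp⟩
      rw [show u = inr l from hu, show v = inr l from hv]
    · intro l _ m _ h
      simpa using h
    · intro S hS
      simp only [Finset.mem_filter, mem_csets] at hS
      obtain ⟨x, hx⟩ := hS.1.1
      cases x with
      | inl a => exact absurd ⟨a, hx⟩ hS.2
      | inr l =>
        refine ⟨l, Finset.mem_univ _, ?_⟩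
        ext a
        simp only [Set.mem_singleton_iff]
        constructor
        · rintro rfl; exact hx
        · intro ha
          rcases (hS.1.2 _ hx _ ha).cases_head with h | ⟨y, hy, _⟩
          · exact h.symm
          · cases y with
            | inl b => exact absurd ⟨b, hy.2.2⟩ hS.2
            | inr m => exact hy.1.elim
    · intro l _; rfl
  · rw [Finset.sum_sigma']
    symm
    refine Finset.sum_nbij' (fun z => pv z.1 z.2)
      (fun S => ⟨{a | inl a ∈ S}, Finset.univ.filter fun l => inr l ∈ S⟩) ?_ ?_ ?_ ?_ ?_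
    · rintro ⟨T, A⟩ h
      simp only [Finset.mem_sigma, mem_csets, Finset.mem_powerset, Finset.mem_filter,
        not_not] at h ⊢
      obtain ⟨⟨⟨a, ha⟩, h1⟩, h2⟩ := h
      refine ⟨⟨⟨inl a, ha⟩, fun u hu v hv => ?_⟩, a, ha⟩
      have h3 : ∀ x ∈ pv T A,
          ReflTransGen (fun x y => (pend G p).Adj x y ∧ x ∈ pv T A ∧ y ∈ pv T A) x
            (inl (proj p x)) ∧
          ReflTransGen (fun x y => (pend G p).Adj x y ∧ x ∈ pv T A ∧ y ∈ pv T A)
            (inl (proj p x)) x ∧ proj p x ∈ T := by
        intro x hx
        cases x with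
        | inl a => exact ⟨.refl, .refl, hx⟩
        | inr l =>
          have := mem_fib.mp (h2 hx)
          exact ⟨.single ⟨rfl, hx, this⟩, .single ⟨rfl, this, hx⟩, this⟩
      obtain ⟨a1, _, a3⟩ := h3 u hu
      obtain ⟨_, b2, b3⟩ := h3 v hv
      refine a1.trans (ReflTransGen.trans ?_ b2)
      exact rtg_map inl (fun a b h => Or.inr h) (h1 _ a3 _ b3)
    · intro S h
      simp only [Finset.mem_sigma, mem_csets, Finset.mem_powerset, Finset.mem_filter,
        not_not] at h ⊢
      obtain ⟨⟨_, h1⟩, a, ha⟩ := h
      refine ⟨⟨⟨a, ha⟩, fun u hu v hv => ?_⟩, fun l hl => ?_⟩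
      · refine rtg_map (proj p) (fun x y hxy => ?_) (h1 _ hu _ hv)
        have := hxy.1
        cases x <;> cases y <;> simp only [pend, pendAdj] at this
        · exact Or.inr hxy
        · exact Or.inl this.symm
        · exact Or.inl this
      · simp only [Finset.mem_filter, Finset.mem_univ, true_and] at hl
        rcases (h1 _ hl _ ha).cases_head with h | ⟨y, hy, _⟩
        · simp at h
        · have := hy.1
          cases y <;> simp only [pend, pendAdj] at this
          subst this
          exact mem_fib.mpr hy.2.2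
    · rintro ⟨T, A⟩ _
      have : (Finset.univ.filter fun l => inr l ∈ pv T A) = A := by
        ext l; simp
      simp only [this]
      rfl
    · intro S _
      ext x
      cases x <;> simp
    · intro z _; rfl

theorem av_pend [Finite V] [Fintype L] (G : SimpleGraph V) (p : L → V) :
    av (pend G p) = (Fintype.card L + ∑ S ∈ csets G, g1 p S) /
      (Fintype.card L + ∑ S ∈ csets G, g0 p S) := by
  rw [av_eq, sum_csets_pend G p (fun S => (S.ncard : ℚ)), sum_csets_pend G p (fun _ => 1)]
  simp only [ncard_pv, Nat.cast_add, sum_pow_card, g0, g1]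
  simp

lemma pend_connected {G : SimpleGraph V} (hG : G.Connected) (p : L → V) :
    (pend G p).Connected := by
  have h3 : ∀ x, (pend G p).Reachable x (inl (proj p x)) := by
    intro x
    cases x with
    | inl a => rfl
    | inr l => exact Adj.reachable (show p l = p l from rfl)
  have := hG.nonempty
  refine ⟨fun u v => (h3 u).trans (Reachable.trans ?_ (h3 v).symm)⟩
  have := hG.preconnected (proj p u) (proj p v)
  rw [reachable_iff_reflTransGen] at *
  exact rtg_map inl (fun a b h => Or.inr h) this

end Pool.Agent.H25.Mst
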