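import Pool.Agent.H25.Mst2

set_option autoImplicit false

namespace Pool.Agent.H25.Mst

open SimpleGraph Relation

variable {m : ℕ}

instance fact_lt (m : ℕ) : Fact (1 < m + 3) := ⟨by omega⟩

def cyc (m : ℕ) : SimpleGraph (ZMod (m + 3)) where
  Adj x y := x ≠ y ∧ (y = x + 1 ∨ x = y + 1)
  symm := ⟨fun _ _ h => ⟨h.1.symm, h.2.symm⟩⟩
  loopless := ⟨fun _ h => h.1 rfl⟩

def pos (s x : ZMod (m + 3)) : ℕ := (x - s).val

lemma pos_lt (s x : ZMod (m + 3)) : pos s x < m + 3 := ZMod.val_lt _

lemma pos_succ (s x : ZMod (m + 3)) :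
    (pos s x + 1 < m + 3 ∧ pos s (x + 1) = pos s x + 1) ∨
      (pos s x + 1 = m + 3 ∧ pos s (x + 1) = 0) := by
  have h : pos s (x + 1) = (pos s x + 1) % (m + 3) := by
    unfold pos
    rw [show x + 1 - s = (x - s) + 1 by ring, ZMod.val_add, ZMod.val_one]
  have := pos_lt s x
  by_cases h2 : pos s x + 1 < m + 3
  · left; exact ⟨h2, by rw [h, Nat.mod_eq_of_lt h2]⟩
  · right
    have h3 : pos s x + 1 = m + 3 := by omega
    exact ⟨h3, by rw [h, h3, Nat.mod_self]⟩

lemma eq_add_pos (s x : ZMod (m + 3)) : x = s + (pos s x : ℕ) := by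
  unfold pos; rw [ZMod.natCast_zmod_val]; ring

lemma pos_inj {s x y : ZMod (m + 3)} (h : pos s x = pos s y) : x = y := by
  rw [eq_add_pos s x, h, ← eq_add_pos]

lemma pos_add (s : ZMod (m + 3)) {j : ℕ} (hj : j < m + 3) : pos s (s + j) = j := by
  unfold pos; rw [add_sub_cancel_left, ZMod.val_natCast_of_lt hj]

lemma pos_self (s : ZMod (m + 3)) : pos s s = 0 := by simp [pos]

lemma ne_succ (x : ZMod (m + 3)) : x ≠ x + 1 := by
  intro h
  have := pos_succ x x
  rw [← h, pos_self] at this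
  omega

lemma ne_succ2 (x : ZMod (m + 3)) : x ≠ x + 1 + 1 := by
  intro h
  have h1 := pos_succ x x
  have h2 := pos_succ x (x + 1)
  rw [← h] at h2
  rw [pos_self] at h1 h2
  omega

def arcSet (s : ZMod (m + 3)) (l : ℕ) : Set (ZMod (m + 3)) := {x | pos s x < l}

def arc (s : ZMod (m + 3)) (l : ℕ) : (cyc m).Subgraph where
  verts := arcSet s l
  Adj x y := (y = x + 1 ∧ pos s x + 1 < l) ∨ (x = y + 1 ∧ pos s y + 1 < l)
  adj_sub := by
    rintro x y (⟨rfl, _⟩ | ⟨rfl, _⟩)
    · exact ⟨ne_succ _, Or.inl rfl⟩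
    · exact ⟨(ne_succ _).symm, Or.inr rfl⟩
  edge_vert := by
    rintro x y (⟨rfl, h⟩ | ⟨rfl, h⟩)
    · show pos s x < l
      omega
    · show pos s (y + 1) < l
      have := pos_succ s y
      omega
  symm := ⟨fun _ _ h => h.symm⟩

lemma Av_swap {V : Type} {R : V → V → Prop} (hR : ∀ a b, R a b → R b a) {u v : V}
    (h : ReflTransGen (Av R u v) u v) : ReflTransGen (Av R v u) v u := by
  have := h.swap
  refine rtg_map (R := Function.swap _) id (fun x y hxy => Or.inr ⟨hR _ _ hxy.1, ?_⟩) this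
  intro h
  exact hxy.2 (by rw [Sym2.eq_swap]; simpa [Sym2.eq_swap] using h)

lemma rtg_symm {V : Type} {R : V → V → Prop} (hR : ∀ a b, R a b → R b a) {u v : V}
    (h : ReflTransGen R u v) : ReflTransGen R v u :=
  rtg_map (R := Function.swap _) id (fun _ _ hxy => Or.inr (hR _ _ hxy)) h.swap

lemma isT_arc (s : ZMod (m + 3)) {l : ℕ} (h1 : 1 ≤ l) (h2 : l ≤ m + 3) : IsT (arc s l) := by
  have hs : ∀ j : ℕ, j < l → ReflTransGen (arc s l).Adj s (s + j) := by
    intro j
    induction j with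
    | zero => intro _; simpa using ReflTransGen.refl
    | succ j ih =>
      intro hj
      refine (ih (by omega)).tail (Or.inl ⟨by push_cast; ring, ?_⟩)
      rw [pos_add s (by omega)]; exact hj
  have key : ∀ x, pos s x + 1 < l → ¬ ReflTransGen (Av (arc s l).Adj x (x + 1)) x (x + 1) := by
    intro x hx hr
    have := rtg_inv (fun z => pos s z ≤ pos s x) (fun a b hab ha => by
      rcases hab with ⟨⟨rfl, h⟩ | ⟨rfl, h⟩, h'⟩
      · have h3 := pos_succ s a
        have : pos s a ≠ pos s x := fun h => h' (by rw [pos_inj h])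
        omega
      · have h3 := pos_succ s b
        omega) hr le_rfl
    have h3 := pos_succ s x
    omega
  refine ⟨⟨s, ?_⟩, fun u hu v hv => ?_, ?_⟩
  · show pos s s < l
    rw [pos_self]; omega
  · have a1 := hs _ hu
    have a2 := hs _ hv
    rw [← eq_add_pos] at a1 a2
    exact (rtg_symm (fun a b h => h.symm) a1).trans a2
  · rintro u v (⟨rfl, h⟩ | ⟨rfl, h⟩) hr
    · exact key _ h hr
    · exact key _ h (Av_swap (fun a b h => h.symm) hr)

lemma IsT.miss {H : (cyc m).Subgraph} (hH : IsT H) : ∃ i, ¬ H.Adj i (i + 1) := by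
  by_contra hc
  push Not at hc
  have : ∀ j : ℕ, j + 1 ≤ m + 3 → ReflTransGen (Av H.Adj 1 0) 1 ((j + 1 : ℕ) : ZMod (m + 3)) := by
    intro j
    induction j with
    | zero => intro _; simpa using ReflTransGen.refl
    | succ j ih =>
      intro hj
      refine (ih (by omega)).tail ⟨by simpa using hc ((j + 1 : ℕ) : ZMod (m + 3)), ?_⟩
      intro h
      rw [Sym2.eq_iff] at h
      rcases h with ⟨h1, h2⟩ | ⟨h1, _⟩
      · apply ne_succ2 (0 : ZMod (m + 3))
        rw [Nat.cast_succ, h1] at h2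
        rw [zero_add, h2]
      · rw [ZMod.natCast_eq_zero_iff] at h1
        have := Nat.le_of_dvd (by omega) h1
        omega
  have h := this (m + 2) le_rfl
  rw [show ((m + 2 + 1 : ℕ) : ZMod (m + 3)) = 0 from ZMod.natCast_self _] at h
  exact hH.acyc 1 0 (by simpa using (hc 0).symm) h

lemma eq_arc {H : (cyc m).Subgraph} (hne : H.verts.Nonempty)
    (hconn : ∀ u ∈ H.verts, ∀ v ∈ H.verts, ReflTransGen H.Adj u v)
    (hmiss : ∃ i, ¬ H.Adj i (i + 1)) : ∃ s l, 1 ≤ l ∧ l ≤ m + 3 ∧ H = arc s l := by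
  classical
  obtain ⟨i, hi⟩ := hmiss
  obtain ⟨v, hv⟩ := hne
  have e1 : ∃ j : ℕ, i + 1 + (j : ZMod (m + 3)) ∈ H.verts :=
    ⟨pos (i + 1) v, by rw [← eq_add_pos]; exact hv⟩
  obtain ⟨s, hs, hs'⟩ : ∃ s ∈ H.verts, ∀ w, s = w + 1 → ¬ H.Adj w s := by
    refine ⟨_, Nat.find_spec e1, fun w hw hadj => ?_⟩
    rcases h : Nat.find e1 with _ | j
    · rw [h] at hw hadj
      simp only [Nat.cast_zero, add_zero, add_left_inj] at hw hadj
      exact hi (hw ▸ hadj)
    · apply Nat.find_min e1 (show j < Nat.find e1 by omega)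
      rw [h] at hw
      have : w = i + 1 + j := by
        push_cast at hw
        linear_combination -hw
      rw [← this]
      exact H.edge_vert hadj
  have e0 : ¬ H.Adj (s + ((m + 2 : ℕ) : ZMod (m + 3))) (s + ((m + 2 : ℕ) : ZMod (m + 3)) + 1) := by
    have : s + ((m + 2 : ℕ) : ZMod (m + 3)) + 1 = s := by
      rw [add_assoc, ← Nat.cast_succ, show ((m + 2 + 1 : ℕ) : ZMod (m + 3)) = 0 from
        ZMod.natCast_self _, add_zero]
    rw [this]
    exact hs' _ this.symm
  have e2 : ∃ j : ℕ, ¬ H.Adj (s + j) (s + j + 1) := ⟨m + 2, e0⟩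
  set k := Nat.find e2 with hk
  have hk1 : k ≤ m + 2 := Nat.find_min' e2 e0
  have hk2 : ¬ H.Adj (s + k) (s + k + 1) := Nat.find_spec e2
  have hk3 : ∀ x, pos s x < k → H.Adj x (x + 1) := by
    intro x hx
    have := Nat.find_min e2 hx
    rw [← eq_add_pos, not_not] at this
    exact this
  have hk4 : ∀ x, pos s x = k → ¬ H.Adj x (x + 1) := by
    intro x hx
    rw [eq_add_pos s x, hx]
    exact hk2
  have hv1 : ∀ x ∈ H.verts, pos s x ≤ k := by
    intro x hx
    refine rtg_inv (fun z => pos s z ≤ k) (fun a b hab ha => ?_) (hconn _ hs _ hx)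
      (by rw [pos_self]; omega)
    rcases (H.adj_sub hab).2 with rfl | rfl
    · have h3 := pos_succ s a
      have : pos s a ≠ k := fun h => hk4 _ h hab
      omega
    · rcases pos_succ s b with h3 | h3
      · omega
      · have : b + 1 = s := pos_inj (s := s) (by rw [pos_self, h3.2])
        exact absurd (this ▸ hab.symm) (hs' b this.symm)
  refine ⟨s, k + 1, by omega, by omega, ?_⟩
  ext x y
  · constructor
    · intro hx
      exact Nat.lt_succ_of_le (hv1 x hx)
    · intro hx
      have hx : pos s x < k + 1 := hx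
      by_cases h0 : pos s x = 0
      · rw [pos_inj (h0.trans (pos_self s).symm)]; exact hs
      · have h3 := pos_succ s (x - 1)
        rw [sub_add_cancel] at h3
        have := hk3 (x - 1) (by omega)
        rw [sub_add_cancel] at this
        exact H.edge_vert this.symm
  · constructor
    · intro h
      rcases (H.adj_sub h).2 with rfl | rfl
      · left
        have := hv1 x (H.edge_vert h)
        have : pos s x ≠ k := fun h' => hk4 _ h' h
        exact ⟨rfl, by omega⟩
      · right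
        have := hv1 y (H.edge_vert h.symm)
        have : pos s y ≠ k := fun h' => hk4 _ h' h.symm
        exact ⟨rfl, by omega⟩
    · rintro (⟨rfl, h⟩ | ⟨rfl, h⟩)
      · exact hk3 _ (by omega)
      · exact (hk3 _ (by omega)).symm

lemma arcSet_len {s : ZMod (m + 3)} {l k : ℕ} (hl : l ≤ m + 3) (hk : k ≤ m + 3)
    (h : arcSet s l = arcSet s k) : l = k := by
  by_contra hne
  wlog hlt : l < k generalizing l k
  · exact this hk hl h.symm (Ne.symm hne) (by omega)
  have h1 : s + l ∈ arcSet s k := by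
    show pos s _ < k
    rw [pos_add s (by omega)]; exact hlt
  rw [← h] at h1
  have h1 : pos s (s + l) < l := h1
  rw [pos_add s (by omega)] at h1
  omega

lemma ncard_arcSet (s : ZMod (m + 3)) {l : ℕ} (hl : l ≤ m + 3) : (arcSet s l).ncard = l := by
  have : arcSet s l = (fun j : ℕ => s + j) '' (Finset.range l : Set ℕ) := by
    ext x
    simp only [Finset.coe_range, Set.mem_image, Set.mem_Iio]
    constructor
    · intro hx
      exact ⟨pos s x, hx, (eq_add_pos s x).symm⟩
    · rintro ⟨j, hj, rfl⟩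
      show pos s _ < l
      rw [pos_add s (by omega)]; exact hj
  rw [this, Set.InjOn.ncard_image, Set.ncard_coe_finset, Finset.card_range]
  intro a ha b hb h
  simp only [Finset.coe_range, Set.mem_Iio] at ha hb
  have := congrArg (pos s) h
  simp only at this
  rwa [pos_add s (by omega), pos_add s (by omega)] at this

theorem sum_trees_cyc (F : (cyc m).Subgraph → ℚ) :
    ∑ H ∈ trees (cyc m), F H = ∑ s : ZMod (m + 3), ∑ l ∈ Finset.Icc 1 (m + 3), F (arc s l) := by
  rw [← Finset.sum_product']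
  symm
  refine Finset.sum_bij (fun z _ => arc z.1 z.2) ?_ ?_ ?_ ?_
  · rintro ⟨s, l⟩ h
    simp only [Finset.mem_product, Finset.mem_Icc] at h
    exact mem_trees.mpr (isT_arc s h.2.1 h.2.2)
  · rintro ⟨s, l⟩ h ⟨t, k⟩ h' e
    simp only [Finset.mem_product, Finset.mem_Icc] at h h' e
    have hst : s = t := by
      by_contra hne
      have h1 : s ∈ (arc s l).verts := by
        show pos s s < l
        rw [pos_self]; omega
      rw [e] at h1
      have h1 : pos t s < k := h1
      have h0 : pos t s ≠ 0 := fun h => hne (pos_inj (h.trans (pos_self t).symm))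
      have h3 := pos_succ t (s - 1)
      rw [sub_add_cancel] at h3
      have h4 : (arc t k).Adj (s - 1) s := Or.inl ⟨by ring, by omega⟩
      rw [← e] at h4
      have h5 := pos_succ s (s - 1)
      rw [sub_add_cancel, pos_self] at h5
      rcases h4 with ⟨_, h4⟩ | ⟨h4, _⟩
      · omega
      · exact ne_succ2 s (by linear_combination h4)
    subst hst
    rw [arcSet_len h.2.2 h'.2.2 (congrArg Subgraph.verts e)]
  · intro H hH
    rw [mem_trees] at hH
    obtain ⟨s, l, h1, h2, rfl⟩ := eq_arc hH.ne hH.conn hH.miss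
    exact ⟨⟨s, l⟩, by simp [h1, h2], rfl⟩
  · intro _ _; rfl

lemma isC_arc (s : ZMod (m + 3)) {l : ℕ} (h1 : 1 ≤ l) (h2 : l ≤ m + 3) :
    IsC (cyc m) (arcSet s l) := by
  have h := isT_arc s h1 h2
  exact ⟨h.ne, fun u hu v hv => rtg_map id (fun a b hab => Or.inr ⟨(arc s l).adj_sub hab,
    (arc s l).edge_vert hab, (arc s l).edge_vert hab.symm⟩) (h.conn u hu v hv)⟩

lemma arcSet_univ (s : ZMod (m + 3)) : arcSet s (m + 3) = Set.univ :=
  Set.eq_univ_of_forall fun x => pos_lt s x

theorem sum_csets_cyc (F : Set (ZMod (m + 3)) → ℚ) :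
    ∑ S ∈ csets (cyc m), F S = F (arcSet 0 (m + 3)) +
      ∑ s : ZMod (m + 3), ∑ l ∈ Finset.Icc 1 (m + 2), F (arcSet s l) := by
  classical
  have hu : arcSet (0 : ZMod (m + 3)) (m + 3) ∈ csets (cyc m) :=
    mem_csets.mpr (isC_arc 0 (by omega) le_rfl)
  rw [← Finset.add_sum_erase _ _ hu, ← Finset.sum_product']
  congr 1
  symm
  have hmiss : ∀ (s : ZMod (m + 3)) l, l ≤ m + 2 → s - 1 ∉ arcSet s l := by
    intro s l hl h
    have h : pos s (s - 1) < l := h
    have h5 := pos_succ s (s - 1)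
    rw [sub_add_cancel, pos_self] at h5
    omega
  refine Finset.sum_bij (fun z _ => arcSet z.1 z.2) ?_ ?_ ?_ ?_
  · rintro ⟨s, l⟩ h
    simp only [Finset.mem_product, Finset.mem_Icc] at h
    rw [Finset.mem_erase, arcSet_univ]
    refine ⟨fun h' => hmiss s l h.2.2 ?_, mem_csets.mpr (isC_arc s h.2.1 (by omega))⟩
    simp only at h'
    rw [h']; trivial
  · rintro ⟨s, l⟩ h ⟨t, k⟩ h' e
    simp only [Finset.mem_product, Finset.mem_Icc] at h h' e
    have hst : s = t := by
      by_contra hne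
      have h1 : s ∈ arcSet s l := by
        show pos s s < l
        rw [pos_self]; omega
      rw [e] at h1
      have h1 : pos t s < k := h1
      have h0 : pos t s ≠ 0 := fun h => hne (pos_inj (h.trans (pos_self t).symm))
      have h3 := pos_succ t (s - 1)
      rw [sub_add_cancel] at h3
      apply hmiss s l h.2.2
      rw [e]
      show pos t (s - 1) < k
      omega
    subst hst
    rw [arcSet_len (by omega) (by omega) e]
  · intro S hS
    rw [Finset.mem_erase, arcSet_univ, mem_csets] at hS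
    obtain ⟨i, hi⟩ := (Set.ne_univ_iff_exists_notMem _).mp hS.1
    obtain ⟨s, l, h1, h2, e⟩ := eq_arc (H := (⊤ : (cyc m).Subgraph).induce S) hS.2.1
      (fun u hu v hv => rtg_map id (fun a b hab => Or.inr ⟨hab.2.1, hab.2.2, hab.1⟩)
        (hS.2.2 u hu v hv)) ⟨i, fun h => hi h.1⟩
    have e' : S = arcSet s l := congrArg Subgraph.verts e
    have : l ≠ m + 3 := by
      rintro rfl
      exact hS.1 (e'.trans (arcSet_univ s))
    exact ⟨⟨s, l⟩, by simp [h1]; omega, e'.symm⟩
  · intro _ _; rfl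

lemma cyc_connected (m : ℕ) : (cyc m).Connected := by
  have h := isC_arc (0 : ZMod (m + 3)) (l := m + 3) (by omega) le_rfl
  rw [arcSet_univ] at h
  refine ⟨fun u v => ?_⟩
  rw [reachable_iff_reflTransGen]
  exact rtg_map id (fun a b hab => Or.inr hab.1) (h.2 u trivial v trivial)

end Pool.Agent.H25.Mst
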