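import Pool.Agent.H25.Mst3

set_option autoImplicit false

namespace Pool.Agent.H25.Mst

open SimpleGraph Relation Sum

lemma pos_cast {m : ℕ} (s : ZMod (m + 3)) (x : ℕ) :
    pos s (x : ZMod (m + 3)) = (x + (m + 3) - s.val) % (m + 3) := by
  unfold pos
  rw [← ZMod.val_natCast]
  congr 1
  have := ZMod.val_lt s
  rw [Nat.cast_sub (by omega), Nat.cast_add, ZMod.natCast_self, ZMod.natCast_zmod_val]
  ring

lemma sum_zmod {m : ℕ} (f : ℕ → ℚ) :
    ∑ s : ZMod (m + 3), f s.val = ∑ s ∈ Finset.range (m + 3), f s :=
  (Finset.sum_range f).symm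

def ind (n s l x : ℕ) : ℕ := if (x + n - s) % n < l then 1 else 0

open Classical in
lemma ind_eq {m : ℕ} (s : ZMod (m + 3)) (l x : ℕ) :
    (if (x : ZMod (m + 3)) ∈ arcSet s l then 1 else 0) = ind (m + 3) s.val l x := by
  unfold ind
  rw [← pos_cast]
  exact if_congr Iff.rfl rfl rfl

def hub {V : Type} (k : ℕ) (a b : V) : Bool × Fin k → V := fun z => if z.1 then b else a

open Classical in
lemma card_fib_hub {V : Type} (k : ℕ) (a b : V) (S : Set V) :
    (fib (hub k a b) S).card = k * (if a ∈ S then 1 else 0) + k * (if b ∈ S then 1 else 0) := by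
  unfold fib
  rw [Finset.card_filter, Fintype.sum_prod_type, Fintype.sum_bool]
  simp [hub, add_comm]

def opt {V L : Type} (p : L → V) (c : V) : Option L → V := fun z => z.elim c p

open Classical in
lemma card_fib_opt {V L : Type} [Fintype L] (p : L → V) (c : V) (S : Set V) :
    (fib (opt p c) S).card = (fib p S).card + (if c ∈ S then 1 else 0) := by
  unfold fib
  rw [Finset.card_filter, Finset.card_filter, Fintype.sum_option, add_comm]
  rfl

def optEquiv (V L : Type) : V ⊕ L ≃ {w : V ⊕ Option L // w ≠ inr none} where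
  toFun x := ⟨Sum.map id some x, by cases x <;> simp⟩
  invFun w := match w with
    | ⟨inl a, _⟩ => inl a
    | ⟨inr (some l), _⟩ => inr l
    | ⟨inr none, h⟩ => absurd rfl h
  left_inv x := by cases x <;> rfl
  right_inv w := by
    rcases w with ⟨a | (_ | l), h⟩
    · rfl
    · exact absurd rfl h
    · rfl

def contractIso {V L : Type} (G : SimpleGraph V) (p : L → V) (c : V) :
    pend G p ≃g contract (pend G (opt p c)) (inl c) (inr none) where
  toEquiv := optEquiv V L
  map_rel_iff' := by
    intro x y
    cases x <;> cases y <;> simp [optEquiv, contract, pend, pendAdj, opt]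
    rename_i a b
    constructor
    · rintro ⟨h, h1 | h1 | h1⟩
      · exact h1
      · exact absurd (h1.1.trans h1.2) h
      · exact absurd (h1.1.trans h1.2).symm h
    · intro h; exact ⟨h.ne, Or.inl h⟩

end Pool.Agent.H25.Mst
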