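import Pool.Agent.H25.Mst4

set_option autoImplicit false

namespace Pool.Agent.H25.Mst

open SimpleGraph Relation

variable {V : Type}

def triAdj (G : SimpleGraph V) (a c : V) : Option V → Option V → Prop
  | some x, some y => G.Adj x y
  | none, some x => x = a ∨ x = c
  | some x, none => x = a ∨ x = c
  | none, none => False

def tri (G : SimpleGraph V) (a c : V) : SimpleGraph (Option V) where
  Adj := triAdj G a c
  symm := ⟨fun x y h => by
    cases x <;> cases y <;> simp only [triAdj] at * <;> first | exact h.symm | exact h⟩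
  loopless := ⟨fun x h => by cases x <;> simp [triAdj] at h⟩

def tv (S : Set V) (β : Bool) : Set (Option V) := {o | o.elim (β = true) (· ∈ S)}

@[simp] lemma some_mem_tv {S : Set V} {β : Bool} {x : V} : some x ∈ tv S β ↔ x ∈ S := Iff.rfl
@[simp] lemma none_mem_tv {S : Set V} {β : Bool} : none ∈ tv S β ↔ β = true := Iff.rfl

def eA (R : V → V → Prop) (S : Set V) (a c : V) (α γ : Bool) : Option V → Option V → Prop
  | some x, some y => R x y ∧ ¬ (α = true ∧ γ = true ∧ s(x, y) = s(a, c))
  | none, some x => x ∈ S ∧ ((x = a ∧ α = true) ∨ (x = c ∧ γ = true))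
  | some x, none => x ∈ S ∧ ((x = a ∧ α = true) ∨ (x = c ∧ γ = true))
  | none, none => False

lemma eA_swap (R : V → V → Prop) (S : Set V) (a c : V) (α γ : Bool) :
    eA R S a c α γ = eA R S c a γ α := by
  funext x y
  cases x <;> cases y <;> simp only [eA]
  · rw [or_comm]
  · rw [or_comm]
  · rw [Sym2.eq_swap (a := a), and_left_comm (a := α = true)]

def text {G : SimpleGraph V} (a c : V) (T : G.Subgraph) (α γ : Bool) : (tri G a c).Subgraph where
  verts := tv T.verts (α || γ)
  Adj := eA T.Adj T.verts a c α γ
  adj_sub := by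
    intro x y h
    cases x <;> cases y <;> simp only [eA, tri, triAdj] at *
    · tauto
    · tauto
    · exact T.adj_sub h.1
  edge_vert := by
    intro x y h
    cases x <;> cases y <;> simp only [eA, some_mem_tv, none_mem_tv, Bool.or_eq_true] at *
    · tauto
    · exact h.1
    · exact T.edge_vert h.1
  symm := ⟨fun x y h => by
    cases x <;> cases y <;> simp only [eA] at *
    · exact h
    · exact h
    · exact ⟨h.1.symm, by rw [Sym2.eq_swap]; exact h.2⟩⟩

def tres {G : SimpleGraph V} {a c : V} (hac : G.Adj a c) (H : (tri G a c).Subgraph) :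
    G.Subgraph where
  verts := {x | some x ∈ H.verts}
  Adj x y := H.Adj (some x) (some y) ∨
    (H.Adj none (some a) ∧ H.Adj none (some c) ∧ s(x, y) = s(a, c))
  adj_sub := by
    rintro x y (h | ⟨_, _, h⟩)
    · exact H.adj_sub h
    · rw [Sym2.eq_iff] at h
      rcases h with ⟨rfl, rfl⟩ | ⟨rfl, rfl⟩
      · exact hac
      · exact hac.symm
  edge_vert := by
    rintro x y (h | ⟨h1, h2, h⟩)
    · exact H.edge_vert h
    · rw [Sym2.eq_iff] at h
      rcases h with ⟨rfl, rfl⟩ | ⟨rfl, rfl⟩
      · exact H.edge_vert h1.symm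
      · exact H.edge_vert h2.symm
  symm := ⟨fun x y h => by
    rcases h with h | h
    · exact Or.inl h.symm
    · exact Or.inr ⟨h.1, h.2.1, by rw [Sym2.eq_swap]; exact h.2.2⟩⟩

lemma rtg_bind {W : Type} {R : V → V → Prop} {R' : W → W → Prop} (f : V → W)
    (h : ∀ a b, R a b → ReflTransGen R' (f a) (f b)) {u v : V} (huv : ReflTransGen R u v) :
    ReflTransGen R' (f u) (f v) := by
  induction huv with
  | refl => exact ReflTransGen.refl
  | tail _ h2 ih => exact ih.trans (h _ _ h2)

def Valid {G : SimpleGraph V} (a c : V) (T : G.Subgraph) (α γ : Bool) : Prop :=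
  (α = true → a ∈ T.verts) ∧ (γ = true → c ∈ T.verts) ∧ (α = true → γ = true → T.Adj a c)

lemma eA_bridge {G : SimpleGraph V} {a c : V} {T : G.Subgraph} (hT : IsT T) {γ : Bool}
    (hv : γ = true → T.Adj c a) :
    ¬ ReflTransGen (Av (eA T.Adj T.verts a c true γ) none (some a)) none (some a) := by
  intro hr
  cases γ with
  | false =>
    have := rtg_inv (fun x => x = none) (fun x y hxy hx => by
      subst hx
      cases y with
      | none => rfl
      | some z =>
        have h := hxy.1.2
        simp only [and_true, Bool.false_eq_true, and_false, or_false] at h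
        exact absurd (by rw [h]) hxy.2) hr rfl
    simp at this
  | true =>
    refine hT.acyc c a (hv rfl) (rtg_map (fun o : Option V => o.getD c) (fun x y hxy => ?_) hr)
    cases x with
    | none =>
      cases y with
      | none => exact Or.inl rfl
      | some z =>
        rcases hxy.1.2 with ⟨h, _⟩ | ⟨h, _⟩
        · exact absurd (by rw [h]) hxy.2
        · exact Or.inl h.symm
    | some w =>
      cases y with
      | none =>
        rcases hxy.1.2 with ⟨h, _⟩ | ⟨h, _⟩
        · exact absurd (by rw [h, Sym2.eq_swap]) hxy.2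
        · exact Or.inl h
      | some z =>
        exact Or.inr ⟨hxy.1.1, fun h => hxy.1.2 ⟨rfl, rfl, h.trans Sym2.eq_swap⟩⟩

lemma IsT.text {G : SimpleGraph V} {a c : V} {T : G.Subgraph} (hT : IsT T) {α γ : Bool}
    (hv : Valid a c T α γ) : IsT (text a c T α γ) := by
  have hsymm : ∀ x y, (Mst.text a c T α γ).Adj x y → (Mst.text a c T α γ).Adj y x :=
    fun x y h => h.symm
  have h0 : ∀ x ∈ T.verts, ∀ y ∈ T.verts,
      ReflTransGen (Mst.text a c T α γ).Adj (some x) (some y) := by
    intro x hx y hy
    refine rtg_bind some (fun u v huv => ?_) (hT.conn x hx y hy)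
    by_cases h : α = true ∧ γ = true ∧ s(u, v) = s(a, c)
    · obtain ⟨h1, h2, h3⟩ := h
      have e1 : (Mst.text a c T α γ).Adj none (some a) := ⟨hv.1 h1, Or.inl ⟨rfl, h1⟩⟩
      have e2 : (Mst.text a c T α γ).Adj none (some c) := ⟨hv.2.1 h2, Or.inr ⟨rfl, h2⟩⟩
      rw [Sym2.eq_iff] at h3
      rcases h3 with ⟨rfl, rfl⟩ | ⟨rfl, rfl⟩
      · exact (ReflTransGen.single e1.symm).tail e2
      · exact (ReflTransGen.single e2.symm).tail e1
    · exact .single ⟨huv, h⟩
  have h1 : ∀ x ∈ (Mst.text a c T α γ).verts, ∃ z ∈ T.verts,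
      ReflTransGen (Mst.text a c T α γ).Adj x (some z) := by
    intro x hx
    cases x with
    | some z => exact ⟨z, hx, .refl⟩
    | none =>
      have hx : (α || γ) = true := hx
      rw [Bool.or_eq_true] at hx
      rcases hx with h | h
      · exact ⟨a, hv.1 h, .single ⟨hv.1 h, Or.inl ⟨rfl, h⟩⟩⟩
      · exact ⟨c, hv.2.1 h, .single ⟨hv.2.1 h, Or.inr ⟨rfl, h⟩⟩⟩
  have h2 : ∀ z, (Mst.text a c T α γ).Adj none (some z) →
      ¬ ReflTransGen (Av (Mst.text a c T α γ).Adj none (some z)) none (some z) := by
    rintro z ⟨_, ⟨rfl, rfl⟩ | ⟨rfl, rfl⟩⟩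
    · exact eA_bridge hT (fun h => (hv.2.2 rfl h).symm)
    · show ¬ ReflTransGen (Av (eA T.Adj T.verts a z α true) none (some z)) none (some z)
      rw [eA_swap]
      exact eA_bridge hT (fun h => hv.2.2 h rfl)
  refine ⟨?_, fun u hu v hv => ?_, fun u v huv hr => ?_⟩
  · obtain ⟨x, hx⟩ := hT.ne
    exact ⟨some x, hx⟩
  · obtain ⟨z, hz, a1⟩ := h1 u hu
    obtain ⟨w, hw, a2⟩ := h1 v hv
    exact (a1.trans (h0 z hz w hw)).trans (rtg_symm hsymm a2)
  · cases u with
    | none =>
      cases v with
      | none => exact huv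
      | some z => exact h2 z huv hr
    | some x =>
      cases v with
      | none => exact h2 x huv.symm (Av_swap hsymm hr)
      | some y =>
        have key : ∀ z, (Mst.text a c T α γ).Adj none (some z) →
            (cond α a c = z ∨ (α = true ∧ γ = true ∧ z = c)) := by
          rintro z ⟨_, ⟨rfl, rfl⟩ | ⟨rfl, rfl⟩⟩
          · exact Or.inl rfl
          · cases α
            · exact Or.inl rfl
            · exact Or.inr ⟨rfl, rfl, rfl⟩
        refine hT.acyc x y huv.1 (rtg_map (fun o : Option V => o.getD (cond α a c))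
          (fun p q hpq => ?_) hr)
        cases p with
        | none =>
          cases q with
          | none => exact Or.inl rfl
          | some z =>
            rcases key z hpq.1 with h | ⟨rfl, rfl, rfl⟩
            · exact Or.inl h
            · exact Or.inr ⟨hv.2.2 rfl rfl, fun h => huv.2 ⟨rfl, rfl, h.symm⟩⟩
        | some w =>
          cases q with
          | none =>
            rcases key w (hsymm _ _ hpq.1) with h | ⟨rfl, rfl, rfl⟩
            · exact Or.inl h.symm
            · exact Or.inr ⟨(hv.2.2 rfl rfl).symm,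
                fun h => huv.2 ⟨rfl, rfl, h.symm.trans Sym2.eq_swap⟩⟩
          | some z => exact Or.inr ⟨hpq.1.1, fun h => hpq.2 (by simpa using h)⟩

lemma IsT.tres {G : SimpleGraph V} {a c : V} (hac : G.Adj a c) {H : (tri G a c).Subgraph}
    (hH : IsT H) (hne : ∃ x, some x ∈ H.verts) : IsT (tres hac H) := by
  classical
  refine ⟨hne, fun u hu v hv => ?_, fun u v huv hr => ?_⟩
  · have key : ∀ z, H.Adj none (some z) → (if H.Adj none (some a) then a else c) = z ∨
        (Mst.tres hac H).Adj (if H.Adj none (some a) then a else c) z := by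
      intro z hz
      by_cases h : H.Adj none (some a)
      · rw [if_pos h]
        rcases (H.adj_sub hz : z = a ∨ z = c) with rfl | rfl
        · exact Or.inl rfl
        · exact Or.inr (Or.inr ⟨h, hz, rfl⟩)
      · rw [if_neg h]
        rcases (H.adj_sub hz : z = a ∨ z = c) with rfl | rfl
        · exact absurd hz h
        · exact Or.inl rfl
    refine rtg_map (fun o : Option V => o.getD (if H.Adj none (some a) then a else c))
      (fun x y hxy => ?_) (hH.conn _ hu _ hv)
    cases x with
    | none =>
      cases y with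
      | none => exact Or.inl rfl
      | some z => exact key z hxy
    | some w =>
      cases y with
      | none => exact (key w hxy.symm).imp Eq.symm (fun h => h.symm)
      | some z => exact Or.inr (Or.inl hxy)
  · have main : ∀ x y : V, x ≠ y → s(x, y) = s(a, c) → H.Adj (some x) none → H.Adj (some y) none →
        ¬ ReflTransGen (Av (Mst.tres hac H).Adj x y) x y := by
      intro x y hxy hs h1 h2 hr
      refine hH.acyc (some x) none h1 (ReflTransGen.tail (b := some y) ?_ ⟨h2, by simpa using hxy.symm⟩)
      refine rtg_map some (fun p q hpq => Or.inr ⟨?_, by simp⟩) hr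
      rcases hpq.1 with h | h
      · exact h
      · exact absurd (h.2.2.trans hs.symm) hpq.2
    rcases huv with huv | ⟨h1, h2, h3⟩
    · refine hH.acyc (some u) (some v) huv (rtg_bind some (fun p q hpq => ?_) hr)
      rcases hpq.1 with h | ⟨h1, h2, h3⟩
      · exact .single ⟨h, fun h' => hpq.2 (by simpa using h')⟩
      · rw [Sym2.eq_iff] at h3
        rcases h3 with ⟨rfl, rfl⟩ | ⟨rfl, rfl⟩
        · exact (ReflTransGen.single ⟨h1.symm, by simp⟩).tail ⟨h2, by simp⟩
        · exact (ReflTransGen.single ⟨h2.symm, by simp⟩).tail ⟨h1, by simp⟩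
    · have h4 := h3
      rw [Sym2.eq_iff] at h4
      rcases h4 with ⟨rfl, rfl⟩ | ⟨rfl, rfl⟩
      · exact main _ _ hac.ne h3 h1.symm h2.symm hr
      · exact main _ _ hac.ne.symm h3 h2.symm h1.symm hr

open Classical in
lemma text_tres {G : SimpleGraph V} {a c : V} (hac : G.Adj a c) {H : (tri G a c).Subgraph}
    (hH : IsT H) (hne : ∃ x, some x ∈ H.verts) :
    text a c (tres hac H) (decide (H.Adj none (some a))) (decide (H.Adj none (some c))) = H := by
  have key : ∀ z, (z ∈ (tres hac H).verts ∧ ((z = a ∧ H.Adj none (some a)) ∨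
      (z = c ∧ H.Adj none (some c)))) ↔ H.Adj none (some z) := by
    intro z
    constructor
    · rintro ⟨_, ⟨rfl, h⟩ | ⟨rfl, h⟩⟩ <;> exact h
    · intro h
      refine ⟨H.edge_vert h.symm, ?_⟩
      rcases (H.adj_sub h : z = a ∨ z = c) with rfl | rfl
      · exact Or.inl ⟨rfl, h⟩
      · exact Or.inr ⟨rfl, h⟩
  ext x y
  · cases x with
    | some z => rfl
    | none =>
      simp only [text, none_mem_tv, Bool.or_eq_true, decide_eq_true_eq]
      constructor
      · rintro (h | h) <;> exact H.edge_vert h
      · intro h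
        obtain ⟨x, hx⟩ := hne
        rcases (hH.conn _ h _ hx).cases_head with h | ⟨y, hy, _⟩
        · simp at h
        · cases y with
          | none => exact (H.adj_sub hy).elim
          | some z =>
            rcases (H.adj_sub hy : z = a ∨ z = c) with rfl | rfl
            · exact Or.inl hy
            · exact Or.inr hy
  · cases x <;> cases y <;> simp only [text, eA, decide_eq_true_eq]
    · simp only [false_iff]
      exact fun h => H.adj_sub h
    · exact key _
    · exact (key _).trans (H.adj_comm _ _)
    · rename_i x y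
      constructor
      · rintro ⟨h | h, h'⟩
        · exact h
        · exact absurd h h'
      · intro h
        refine ⟨Or.inl h, ?_⟩
        rintro ⟨h1, h2, h3⟩
        refine hH.acyc _ _ h ?_
        rw [Sym2.eq_iff] at h3
        rcases h3 with ⟨rfl, rfl⟩ | ⟨rfl, rfl⟩
        · exact (ReflTransGen.single ⟨h1.symm, by simp⟩).tail ⟨h2, by simp⟩
        · exact (ReflTransGen.single ⟨h2.symm, by simp⟩).tail ⟨h1, by simp⟩

open Classical in
theorem sum_trees_tri [Finite V] {G : SimpleGraph V} {a c : V} (hac : G.Adj a c)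
    (F : Set (Option V) → ℚ) :
    ∑ H ∈ trees (tri G a c), F H.verts = F {none} + ∑ T ∈ trees G, (F (tv T.verts false) +
      (((if a ∈ T.verts then 1 else 0) + (if c ∈ T.verts then 1 else 0) +
        (if T.Adj a c then 1 else 0) : ℕ) : ℚ) * F (tv T.verts true)) := by
  have hs : (tri G a c).singletonSubgraph none ∈ trees (tri G a c) := by
    rw [mem_trees]
    refine ⟨⟨none, rfl⟩, fun u hu v hv => ?_, fun u v h => h.elim⟩
    rw [show u = none from hu, show v = none from hv]
  rw [← Finset.add_sum_erase _ _ hs]
  congr 1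
  have : ∀ T ∈ trees G, (F (tv T.verts false) +
      (((if a ∈ T.verts then 1 else 0) + (if c ∈ T.verts then 1 else 0) +
        (if T.Adj a c then 1 else 0) : ℕ) : ℚ) * F (tv T.verts true)) =
      ∑ z ∈ (Finset.univ : Finset (Bool × Bool)).filter (fun z => Valid a c T z.1 z.2),
        F (tv T.verts (z.1 || z.2)) := by
    intro T _
    rw [Finset.sum_filter, Fintype.sum_prod_type, Fintype.sum_bool, Fintype.sum_bool,
      Fintype.sum_bool]
    by_cases h3 : T.Adj a c
    · have h1 := T.edge_vert h3
      have h2 := T.edge_vert h3.symm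
      simp [Valid, h1, h2, h3]; ring
    · by_cases h1 : a ∈ T.verts <;> by_cases h2 : c ∈ T.verts <;> simp [Valid, h1, h2, h3] <;> ring
  rw [Finset.sum_congr rfl this, Finset.sum_sigma']
  symm
  have hne : ∀ H ∈ (trees (tri G a c)).erase ((tri G a c).singletonSubgraph none),
      IsT H ∧ ∃ x, some x ∈ H.verts := by
    intro H hH
    rw [Finset.mem_erase, mem_trees] at hH
    refine ⟨hH.2, ?_⟩
    by_contra hc
    apply hH.1
    obtain ⟨x, hx⟩ := hH.2.ne
    ext p q
    · cases p with
      | some z => simpa using fun h => hc ⟨z, h⟩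
      | none =>
        cases x with
        | some z => exact absurd ⟨z, hx⟩ hc
        | none => simpa using hx
    · simp only [singletonSubgraph_adj, Pi.bot_apply, Prop.bot_eq_false, iff_false]
      intro h
      cases p with
      | some z => exact hc ⟨z, H.edge_vert h⟩
      | none =>
        cases q with
        | some z => exact hc ⟨z, H.edge_vert h.symm⟩
        | none => exact H.adj_sub h
  refine Finset.sum_nbij' (fun z => text a c z.1 z.2.1 z.2.2)
    (fun H => ⟨tres hac H, decide (H.Adj none (some a)), decide (H.Adj none (some c))⟩)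
    ?_ ?_ ?_ ?_ ?_
  · rintro ⟨T, α, γ⟩ h
    simp only [Finset.mem_sigma, mem_trees, Finset.mem_filter, Finset.mem_univ, true_and,
      Finset.mem_erase] at h ⊢
    refine ⟨fun e => ?_, h.1.text h.2⟩
    obtain ⟨x, hx⟩ := h.1.ne
    have : some x ∈ (text a c T α γ).verts := hx
    rw [e] at this
    simp at this
  · intro H h
    obtain ⟨h1, h2⟩ := hne H h
    simp only [Finset.mem_sigma, mem_trees, Finset.mem_filter, Finset.mem_univ, true_and, Valid,
      decide_eq_true_eq]
    exact ⟨h1.tres hac h2, fun h => H.edge_vert h.symm, fun h => H.edge_vert h.symm,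
      fun h h' => Or.inr ⟨h, h', rfl⟩⟩
  · rintro ⟨T, α, γ⟩ h
    simp only [Finset.mem_sigma, mem_trees, Finset.mem_filter, Finset.mem_univ, true_and] at h
    obtain ⟨_, hv⟩ := h
    have e1 : (text a c T α γ).Adj none (some a) ↔ α = true := by
      constructor
      · rintro ⟨_, ⟨_, h⟩ | ⟨h, _⟩⟩
        · exact h
        · exact absurd h hac.ne
      · intro h; exact ⟨hv.1 h, Or.inl ⟨rfl, h⟩⟩
    have e2 : (text a c T α γ).Adj none (some c) ↔ γ = true := by
      constructor
      · rintro ⟨_, ⟨h, _⟩ | ⟨_, h⟩⟩
        · exact absurd h hac.ne.symm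
        · exact h
      · intro h; exact ⟨hv.2.1 h, Or.inr ⟨rfl, h⟩⟩
    have e3 : tres hac (text a c T α γ) = T := by
      ext x y
      · rfl
      · show ((T.Adj x y ∧ _) ∨ (_ ∧ _ ∧ _)) ↔ _
        rw [e1, e2]
        constructor
        · rintro (h | ⟨h1, h2, h3⟩)
          · exact h.1
          · rw [Sym2.eq_iff] at h3
            rcases h3 with ⟨rfl, rfl⟩ | ⟨rfl, rfl⟩
            · exact hv.2.2 h1 h2
            · exact (hv.2.2 h1 h2).symm
        · intro h
          by_cases h' : α = true ∧ γ = true ∧ s(x, y) = s(a, c)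
          · exact Or.inr h'
          · exact Or.inl ⟨h, h'⟩
    simp only [e1, e2, e3, Bool.decide_eq_true]
  · intro H h
    obtain ⟨h1, h2⟩ := hne H h
    exact text_tres hac h1 h2
  · intro z _; rfl

open Classical in
theorem sum_csets_tri [Finite V] {G : SimpleGraph V} {a c : V} (hac : G.Adj a c)
    (F : Set (Option V) → ℚ) :
    ∑ S ∈ csets (tri G a c), F S = F {none} + ∑ S ∈ csets G, (F (tv S false) +
      ((if a ∈ S ∨ c ∈ S then 1 else 0 : ℕ) : ℚ) * F (tv S true)) := by
  have hs : ({none} : Set (Option V)) ∈ csets (tri G a c) := by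
    rw [mem_csets]
    refine ⟨⟨none, rfl⟩, fun u hu v hv => ?_⟩
    rw [show u = none from hu, show v = none from hv]
  rw [← Finset.add_sum_erase _ _ hs]
  congr 1
  have : ∀ S ∈ csets G, (F (tv S false) +
      ((if a ∈ S ∨ c ∈ S then 1 else 0 : ℕ) : ℚ) * F (tv S true)) =
      ∑ z ∈ (Finset.univ : Finset Bool).filter (fun z => z = true → a ∈ S ∨ c ∈ S),
        F (tv S z) := by
    intro S _
    rw [Finset.sum_filter, Fintype.sum_bool]
    by_cases h3 : a ∈ S ∨ c ∈ S <;> simp [h3, add_comm]
  rw [Finset.sum_congr rfl this, Finset.sum_sigma']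
  symm
  refine Finset.sum_nbij' (fun z => tv z.1 z.2)
    (fun S => ⟨{x | some x ∈ S}, decide (none ∈ S)⟩) ?_ ?_ ?_ ?_ ?_
  · rintro ⟨S, β⟩ h
    simp only [Finset.mem_sigma, mem_csets, Finset.mem_filter, Finset.mem_univ, true_and,
      Finset.mem_erase] at h ⊢
    obtain ⟨⟨⟨x, hx⟩, h1⟩, h2⟩ := h
    refine ⟨fun e => ?_, ⟨some x, hx⟩, fun u hu v hv => ?_⟩
    · have : some x ∈ tv S β := hx
      rw [e] at this
      simp at this
    · have h3 : ∀ w ∈ tv S β, ∃ z ∈ S, ReflTransGen
          (fun x y => (tri G a c).Adj x y ∧ x ∈ tv S β ∧ y ∈ tv S β) w (some z) := by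
        intro w hw
        cases w with
        | some z => exact ⟨z, hw, .refl⟩
        | none =>
          rcases h2 hw with h | h
          · exact ⟨a, h, .single ⟨Or.inl rfl, hw, h⟩⟩
          · exact ⟨c, h, .single ⟨Or.inr rfl, hw, h⟩⟩
      obtain ⟨z, hz, a1⟩ := h3 u hu
      obtain ⟨w, hw, a2⟩ := h3 v hv
      refine (a1.trans ?_).trans (rtg_symm (fun a b h => ⟨h.1.symm, h.2.2, h.2.1⟩) a2)
      exact rtg_map some (fun a b h => Or.inr h) (h1 z hz w hw)
  · intro S h
    simp only [Finset.mem_sigma, mem_csets, Finset.mem_filter, Finset.mem_univ, true_and,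
      Finset.mem_erase, decide_eq_true_eq] at h ⊢
    obtain ⟨h0, ⟨x, hx⟩, h1⟩ := h
    have hne : ∃ z, some z ∈ S := by
      by_contra hc
      apply h0
      ext p
      cases p with
      | some z => simpa using fun h => hc ⟨z, h⟩
      | none =>
        cases x with
        | some z => exact absurd ⟨z, hx⟩ hc
        | none => simpa using hx
    refine ⟨⟨hne, fun u hu v hv => ?_⟩, fun hn => ?_⟩
    · have key : ∀ z, some z ∈ S → (z = a ∨ z = c) → (if some a ∈ S then a else c) = z ∨
          (G.Adj (if some a ∈ S then a else c) z ∧ some (if some a ∈ S then a else c) ∈ S) := by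
        intro z hz h'
        by_cases h : some a ∈ S
        · rw [if_pos h]
          rcases h' with rfl | rfl
          · exact Or.inl rfl
          · exact Or.inr ⟨hac, h⟩
        · rw [if_neg h]
          rcases h' with rfl | rfl
          · exact absurd hz h
          · exact Or.inl rfl
      refine rtg_map (fun o : Option V => o.getD (if some a ∈ S then a else c))
        (fun x y hxy => ?_) (h1 _ hu _ hv)
      cases x with
      | none =>
        cases y with
        | none => exact Or.inl rfl
        | some z => exact (key z hxy.2.2 hxy.1).imp id (fun h => ⟨h.1, h.2, hxy.2.2⟩)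
      | some w =>
        cases y with
        | none => exact (key w hxy.2.1 hxy.1).imp Eq.symm (fun h => ⟨h.1.symm, hxy.2.1, h.2⟩)
        | some z => exact Or.inr hxy
    · obtain ⟨z, hz⟩ := hne
      rcases (h1 _ hn _ hz).cases_head with h | ⟨y, hy, _⟩
      · simp at h
      · cases y with
        | none => exact hy.1.elim
        | some w =>
          rcases (hy.1 : w = a ∨ w = c) with rfl | rfl
          · exact Or.inl hy.2.2
          · exact Or.inr hy.2.2
  · rintro ⟨S, β⟩ _
    simp only [none_mem_tv, Bool.decide_eq_true]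
    rfl
  · intro S _
    ext x
    cases x <;> simp
  · intro z _; rfl

lemma ncard_tv [Finite V] (S : Set V) (β : Bool) : (tv S β).ncard = S.ncard + β.toNat := by
  cases β with
  | false =>
    have : tv S false = some '' S := by ext x; cases x <;> simp
    rw [this, Set.ncard_image_of_injective _ (Option.some_injective _)]; rfl
  | true =>
    have : tv S true = insert none (some '' S) := by ext x; cases x <;> simp
    rw [this, Set.ncard_insert_of_notMem (by simp),
      Set.ncard_image_of_injective _ (Option.some_injective _)]; rfl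

lemma tri_connected {G : SimpleGraph V} (hG : G.Connected) (a c : V) :
    (tri G a c).Connected := by
  have h3 : ∀ x, (tri G a c).Reachable x (some (x.getD a)) := by
    intro x
    cases x with
    | some z => rfl
    | none => exact Adj.reachable (Or.inl rfl)
  refine ⟨fun u v => (h3 u).trans (Reachable.trans ?_ (h3 v).symm)⟩
  have := hG.preconnected (u.getD a) (v.getD a)
  rw [reachable_iff_reflTransGen] at *
  exact rtg_map some (fun a b h => Or.inr h) this

end Pool.Agent.H25.Mst
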