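import Mathlib

set_option autoImplicit false

namespace Pool.Agent.H25.Mst

noncomputable def loop (f : ℕ → ℕ) (n : ℕ) : ℕ := Nat.rec 0 (fun i acc => Nat.add acc (f i)) n

lemma loop_eq (f : ℕ → ℕ) (n : ℕ) : loop f n = ∑ i ∈ Finset.range n, f i := by
  induction n with
  | zero => rfl
  | succ n ih => rw [Finset.sum_range_succ, ← ih]; rfl

noncomputable def indb (P i : ℕ) : ℕ := Bool.rec 0 1 (Nat.ble P i)
noncomputable def orb (P Q i : ℕ) : ℕ := Bool.rec (indb Q i) 1 (Nat.ble P i)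

lemma indb_eq (P i : ℕ) : indb P i = if P < i + 1 then 1 else 0 := by
  unfold indb
  by_cases h : P ≤ i
  · rw [Nat.ble_eq_true_of_le h, if_pos (by omega)]
  · have : Nat.ble P i = false := Bool.eq_false_iff.mpr fun h2 => h (Nat.le_of_ble_eq_true h2)
    rw [this, if_neg (by omega)]

lemma orb_eq (P Q i : ℕ) : orb P Q i = if P < i + 1 ∨ Q < i + 1 then 1 else 0 := by
  unfold orb
  by_cases h : P ≤ i
  · rw [Nat.ble_eq_true_of_le h, if_pos (by omega)]
  · have : Nat.ble P i = false := Bool.eq_false_iff.mpr fun h2 => h (Nat.le_of_ble_eq_true h2)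
    rw [this]
    show indb Q i = _
    rw [indb_eq]
    exact if_congr (by omega) rfl rfl

noncomputable def XX (P0 P1 i : ℕ) : ℕ := Nat.mul 16 (Nat.add (indb P0 i) (indb P1 i))
noncomputable def cT (Pa Pc i : ℕ) : ℕ :=
  Nat.add (Nat.add (indb Pa i) (indb Pc i)) (indb (Nat.succ Pa) i)
noncomputable def f0 (X c : ℕ) : ℕ := Nat.mul (Nat.pow 2 X) (Nat.succ c)
noncomputable def f1 (X c i : ℕ) : ℕ :=
  Nat.mul (Nat.pow 2 X) (Nat.add (Nat.mul (Nat.add (Nat.mul 2 (Nat.succ i)) X) (Nat.succ c))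
    (Nat.mul 2 c))
noncomputable def ps (x s : ℕ) : ℕ := Nat.mod (Nat.sub (Nat.add x 700) s) 700

noncomputable def outer (g : ℕ → ℕ → ℕ → ℕ → ℕ → ℕ) (n : ℕ) : ℕ :=
  loop (fun s => loop (g (ps 0 s) (ps 185 s) (ps 92 s) (ps 93 s)) n) 700

lemma num1 : outer (fun P0 P1 Pa Pc i => f0 (XX P0 P1 i) (cT Pa Pc i)) 700 =
    2467657401412455 := by decide +kernel
lemma num2 : outer (fun P0 P1 Pa Pc i => f1 (XX P0 P1 i) (cT Pa Pc i) i) 700 =
    2739283425208044448 := by decide +kernel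
lemma num3 : outer (fun P0 P1 Pa Pc i => f0 (XX P0 P1 i) (orb Pa Pc i)) 699 =
    1246787642222919 := by decide +kernel
lemma num4 : outer (fun P0 P1 Pa Pc i => f1 (XX P0 P1 i) (orb Pa Pc i) i) 699 =
    1384129419978964000 := by decide +kernel

lemma outer_eq (g : ℕ → ℕ → ℕ → ℕ → ℕ → ℕ) (n : ℕ) : outer g n =
    ∑ s ∈ Finset.range 700, ∑ l ∈ Finset.Icc 1 n,
      g (ps 0 s) (ps 185 s) (ps 92 s) (ps 93 s) (l - 1) := by
  rw [outer, loop_eq]
  refine Finset.sum_congr rfl fun s _ => ?_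
  have : Finset.Icc 1 n = Finset.Ico 1 (n + 1) := by ext; simp only [Finset.mem_Icc, Finset.mem_Ico]; omega
  rw [loop_eq, this, Finset.sum_Ico_eq_sum_range]
  simp

end Pool.Agent.H25.Mst
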