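import Pool.Agent.H25.Mst5
import Pool.Agent.H25.MstAvNum

set_option autoImplicit false

namespace Pool.Agent.H25.Mst

open SimpleGraph Relation

abbrev Z7 := ZMod (697 + 3)
def za : Z7 := ((92 : ℕ) : Z7)
def zc : Z7 := ((93 : ℕ) : Z7)
lemma zc_eq : zc = za + 1 := by unfold za zc; push_cast; norm_num
lemma hac : (cyc 697).Adj za zc := ⟨by rw [zc_eq]; exact ne_succ _, Or.inl zc_eq⟩

def pT : Bool × Fin 16 → Option Z7 := hub 16 (some ((0 : ℕ) : Z7)) (some ((185 : ℕ) : Z7))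

def GT : SimpleGraph (Option Z7 ⊕ (Bool × Fin 16)) := pend (tri (cyc 697) za zc) pT

lemma pos_ps (s : Z7) (x : ℕ) : pos s (x : Z7) = ps x s.val := pos_cast s x

open Classical in
lemma ite_arc (s : Z7) (x : ℕ) {l : ℕ} (hl : 1 ≤ l) :
    (if (x : Z7) ∈ arcSet s l then 1 else 0) = indb (ps x s.val) (l - 1) := by
  rw [indb_eq, ← pos_ps, Nat.sub_add_cancel hl]
  exact if_congr Iff.rfl rfl rfl

open Classical in
lemma fib_tv (s : Z7) {l : ℕ} (hl : 1 ≤ l) (β : Bool) :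
    (fib pT (tv (arcSet s l) β)).card = XX (ps 0 s.val) (ps 185 s.val) (l - 1) := by
  rw [pT, card_fib_hub]
  show 16 * (if ((0 : ℕ) : Z7) ∈ arcSet s l then 1 else 0) +
    16 * (if ((185 : ℕ) : Z7) ∈ arcSet s l then 1 else 0) = _
  rw [ite_arc s 0 hl, ite_arc s 185 hl, ← mul_add]
  rfl

lemma fib_none : (fib pT {none}).card = 0 := by
  rw [pT, card_fib_hub]; simp

open Classical in
lemma cT_eq (s : Z7) {l : ℕ} (hl : 1 ≤ l) :
    (if za ∈ (arc s l).verts then 1 else 0) + (if zc ∈ (arc s l).verts then 1 else 0) +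
      (if (arc s l).Adj za zc then 1 else 0) = cT (ps 92 s.val) (ps 93 s.val) (l - 1) := by
  have h1 := ite_arc s 92 hl
  have h2 := ite_arc s 93 hl
  have h3 : (if (arc s l).Adj za zc then 1 else 0) = indb (ps 92 s.val + 1) (l - 1) := by
    rw [indb_eq, ← pos_ps, Nat.sub_add_cancel hl]
    refine if_congr ⟨?_, fun h => Or.inl ⟨zc_eq, h⟩⟩ rfl rfl
    rintro (h | h)
    · exact h.2
    · exact absurd (by rw [← zc_eq]; exact h.1) (ne_succ2 za)
  rw [h3]
  exact congrArg₂ (fun x y => x + y + indb (ps 92 s.val + 1) (l - 1)) h1 h2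

open Classical in
lemma orb_arc (s : Z7) {l : ℕ} (hl : 1 ≤ l) :
    (if za ∈ arcSet s l ∨ zc ∈ arcSet s l then 1 else 0) =
      orb (ps 92 s.val) (ps 93 s.val) (l - 1) := by
  rw [orb_eq, ← pos_ps, ← pos_ps, Nat.sub_add_cancel hl]
  exact if_congr Iff.rfl rfl rfl

lemma t0 (s : Z7) {l : ℕ} (hl : 1 ≤ l) (c : ℕ) :
    g0 pT (tv (arcSet s l) false) + (c : ℚ) * g0 pT (tv (arcSet s l) true) =
      (f0 (XX (ps 0 s.val) (ps 185 s.val) (l - 1)) c : ℕ) := by
  rw [g0, g0, fib_tv s hl, fib_tv s hl]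
  show _ = ((2 ^ _ * (c + 1) : ℕ) : ℚ)
  push_cast; ring

lemma t1 (s : Z7) {l : ℕ} (hl : 1 ≤ l) (hl' : l ≤ 697 + 3) (c : ℕ) :
    g1 pT (tv (arcSet s l) false) + (c : ℚ) * g1 pT (tv (arcSet s l) true) =
      (f1 (XX (ps 0 s.val) (ps 185 s.val) (l - 1)) c (l - 1) : ℕ) / 2 := by
  rw [g1, g1, fib_tv s hl, fib_tv s hl, ncard_tv, ncard_tv, ncard_arcSet s hl']
  show _ = ((2 ^ _ * ((2 * (l - 1 + 1) + _) * (c + 1) + 2 * c) : ℕ) : ℚ) / 2
  rw [Nat.sub_add_cancel hl]
  simp only [Bool.toNat_false, Bool.toNat_true]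
  push_cast; ring

lemma outer_cast (g : ℕ → ℕ → ℕ → ℕ → ℕ → ℕ) (n : ℕ) : (outer g n : ℚ) =
    ∑ s : Z7, ∑ l ∈ Finset.Icc 1 n,
      (g (ps 0 s.val) (ps 185 s.val) (ps 92 s.val) (ps 93 s.val) (l - 1) : ℚ) := by
  rw [outer_eq]
  push_cast
  exact (sum_zmod (m := 697) _).symm

lemma mu_GT : mu GT = (32 + (1 + 2739283425208044448 / 2)) / (32 + (1 + 2467657401412455)) := by
  have e1 := outer_cast (fun P0 P1 Pa Pc i => f0 (XX P0 P1 i) (cT Pa Pc i)) 700
  have e2 := outer_cast (fun P0 P1 Pa Pc i => f1 (XX P0 P1 i) (cT Pa Pc i) i) 700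
  rw [num1] at e1
  rw [num2] at e2
  rw [GT, mu_pend, sum_trees_tri hac, sum_trees_tri hac, sum_trees_cyc, sum_trees_cyc]
  refine congrArg₂ (· / ·) (congrArg₂ (· + ·) (by simp) ?_) (congrArg₂ (· + ·) (by simp) ?_)
  · refine congrArg₂ (· + ·) ?_ ?_
    · simp [g1, fib_none]
    · rw [show (2739283425208044448 : ℚ) = ((2739283425208044448 : ℕ) : ℚ) from rfl, e2,
        Finset.sum_div]
      refine Finset.sum_congr rfl fun s _ => ?_
      rw [Finset.sum_div]
      refine Finset.sum_congr rfl fun l hl => ?_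
      rw [Finset.mem_Icc] at hl
      rw [cT_eq s hl.1]
      exact t1 s hl.1 hl.2 _
  · refine congrArg₂ (· + ·) ?_ ?_
    · simp [g0, fib_none]
    · rw [show (2467657401412455 : ℚ) = ((2467657401412455 : ℕ) : ℚ) from rfl, e1]
      refine Finset.sum_congr rfl fun s _ => Finset.sum_congr rfl fun l hl => ?_
      rw [Finset.mem_Icc] at hl
      rw [cT_eq s hl.1]
      exact t0 s hl.1 _

lemma av_GT : av GT = (32 + (1 + (2 ^ 32 * (1432 * 2 + 2) / 2 + 1384129419978964000 / 2))) /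
    (32 + (1 + (2 ^ 32 * 2 + 1246787642222919))) := by
  have e1 := outer_cast (fun P0 P1 Pa Pc i => f0 (XX P0 P1 i) (orb Pa Pc i)) 699
  have e2 := outer_cast (fun P0 P1 Pa Pc i => f1 (XX P0 P1 i) (orb Pa Pc i) i) 699
  rw [num3] at e1
  rw [num4] at e2
  rw [GT, av_pend, sum_csets_tri hac, sum_csets_tri hac, sum_csets_cyc, sum_csets_cyc]
  refine congrArg₂ (· / ·) (congrArg₂ (· + ·) (by simp) ?_) (congrArg₂ (· + ·) (by simp) ?_)
  · refine congrArg₂ (· + ·) ?_ ?_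
    · simp [g1, fib_none]
    · refine congrArg₂ (· + ·) ?_ ?_
      · rw [orb_arc 0 (by norm_num), t1 0 (by norm_num) le_rfl]
        have : f1 (XX (ps 0 (0 : Z7).val) (ps 185 (0 : Z7).val) (697 + 3 - 1))
          (orb (ps 92 (0 : Z7).val) (ps 93 (0 : Z7).val) (697 + 3 - 1)) (697 + 3 - 1) =
            2 ^ 32 * (1432 * 2 + 2) := by decide +kernel
        rw [this]; norm_num
      · rw [show (1384129419978964000 : ℚ) = ((1384129419978964000 : ℕ) : ℚ) from rfl, e2,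
          Finset.sum_div]
        refine Finset.sum_congr rfl fun s _ => ?_
        rw [Finset.sum_div]
        refine Finset.sum_congr rfl fun l hl => ?_
        rw [Finset.mem_Icc] at hl
        rw [orb_arc s hl.1]
        exact t1 s hl.1 (by omega) _
  · refine congrArg₂ (· + ·) ?_ ?_
    · simp [g0, fib_none]
    · refine congrArg₂ (· + ·) ?_ ?_
      · rw [orb_arc 0 (by norm_num), t0 0 (by norm_num)]
        have : f0 (XX (ps 0 (0 : Z7).val) (ps 185 (0 : Z7).val) (697 + 3 - 1))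
          (orb (ps 92 (0 : Z7).val) (ps 93 (0 : Z7).val) (697 + 3 - 1)) =
            2 ^ 32 * 2 := by decide +kernel
        rw [this]; norm_num
      · rw [show (1246787642222919 : ℚ) = ((1246787642222919 : ℕ) : ℚ) from rfl, e1]
        refine Finset.sum_congr rfl fun s _ => Finset.sum_congr rfl fun l hl => ?_
        rw [Finset.mem_Icc] at hl
        rw [orb_arc s hl.1]
        exact t0 s hl.1 _

theorem mu_lt_av : mu GT < av GT := by
  rw [mu_GT, av_GT]; norm_num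

theorem GT_conn : GT.Connected := pend_connected (tri_connected (cyc_connected _) _ _) _

end Pool.Agent.H25.Mst
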