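import Pool.Agent.H25.Mst4

set_option autoImplicit false

namespace Pool.Agent.H25.Mst

open SimpleGraph Relation Sum

def XA (s l : ℕ) : ℕ := 14 * ind 240 s l 0 + 14 * ind 240 s l 60
def XB (s l : ℕ) : ℕ := XA s l + ind 240 s l 30

lemma nA0 : ∑ s ∈ Finset.range 240, ∑ l ∈ Finset.Icc 1 240, 2 ^ XA s l = 4864404375000 := by
  decide +kernel
lemma nA1 : ∑ s ∈ Finset.range 240, ∑ l ∈ Finset.Icc 1 240, 2 ^ XA s l * (2 * l + XA s l) =
    1929883121795760 := by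
  decide +kernel
lemma nB0 : ∑ s ∈ Finset.range 240, ∑ l ∈ Finset.Icc 1 240, 2 ^ XB s l = 9487039875420 := by
  decide +kernel
lemma nB1 : ∑ s ∈ Finset.range 240, ∑ l ∈ Finset.Icc 1 240, 2 ^ XB s l * (2 * l + XB s l) =
    3760738700598440 := by
  decide +kernel

lemma mu_pend_cyc {m : ℕ} {L : Type} [Fintype L] (p : L → ZMod (m + 3)) (X : ℕ → ℕ → ℕ)
    (hX : ∀ s l, (fib p (arcSet s l)).card = X s.val l) (N S : ℕ)
    (hN : ∑ s ∈ Finset.range (m + 3), ∑ l ∈ Finset.Icc 1 (m + 3), 2 ^ X s l = N)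
    (hS : ∑ s ∈ Finset.range (m + 3), ∑ l ∈ Finset.Icc 1 (m + 3),
      2 ^ X s l * (2 * l + X s l) = S) :
    mu (pend (cyc m) p) = (Fintype.card L + (S : ℚ) / 2) / (Fintype.card L + (N : ℚ)) := by
  rw [mu_pend, sum_trees_cyc (fun T => g1 p T.verts), sum_trees_cyc (fun T => g0 p T.verts),
    ← hN, ← hS]
  push_cast
  rw [← sum_zmod, ← sum_zmod, Finset.sum_div]
  congr 2
  · refine Finset.sum_congr rfl fun s _ => ?_
    rw [Finset.sum_div]
    refine Finset.sum_congr rfl fun l hl => ?_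
    show g1 p (arcSet s l) = _
    rw [g1, hX, ncard_arcSet s (Finset.mem_Icc.mp hl).2]
    ring
  · refine Finset.sum_congr rfl fun s _ => Finset.sum_congr rfl fun l _ => ?_
    show g0 p (arcSet s l) = _
    rw [g0, hX]

def pA : Bool × Fin 14 → ZMod (237 + 3) := hub 14 ((0 : ℕ) : ZMod (237 + 3)) ((60 : ℕ) : ZMod (237 + 3))
def pB : Option (Bool × Fin 14) → ZMod (237 + 3) := opt pA ((30 : ℕ) : ZMod (237 + 3))

lemma hXA (s : ZMod (237 + 3)) (l : ℕ) : (fib pA (arcSet s l)).card = XA s.val l := by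
  rw [pA, card_fib_hub, ind_eq, ind_eq]; rfl

lemma hXB (s : ZMod (237 + 3)) (l : ℕ) : (fib pB (arcSet s l)).card = XB s.val l := by
  rw [pB, card_fib_opt, hXA, ind_eq]; rfl

theorem contr_cex : mu (pend (cyc 237) pB) <
    mu (contract (pend (cyc 237) pB) (inl ((30 : ℕ) : ZMod (237 + 3))) (inr none)) := by
  rw [pB, ← mu_iso (contractIso (cyc 237) pA _), ← pB, mu_pend_cyc pA XA hXA _ _ nA0 nA1,
    mu_pend_cyc pB XB hXB _ _ nB0 nB1]
  norm_num

end Pool.Agent.H25.Mst
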