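import Mathlib

set_option autoImplicit false

namespace Pool.Agent.H25.Mst

/-- `sk G k`: the number of subtrees (subgraphs that are trees) of `G` with exactly `k` vertices. -/
noncomputable def sk {V : Type} (G : SimpleGraph V) (k : ℕ) : ℕ :=
  Set.ncard {H : G.Subgraph | H.coe.IsTree ∧ H.verts.ncard = k}

/-- The mean subtree order. -/
noncomputable def mu {V : Type} (G : SimpleGraph V) : ℚ :=
  (∑ k ∈ Finset.Icc 1 (Nat.card V), (k : ℚ) * (sk G k : ℚ)) /
    (∑ k ∈ Finset.Icc 1 (Nat.card V), (sk G k : ℚ))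

/-- `ck G k`: the number of vertex sets of size `k` inducing a connected subgraph. -/
noncomputable def ck {V : Type} (G : SimpleGraph V) (k : ℕ) : ℕ :=
  Set.ncard {S : Set V | (G.induce S).Connected ∧ S.ncard = k}

/-- The mean size of a connected vertex set. -/
noncomputable def av {V : Type} (G : SimpleGraph V) : ℚ :=
  (∑ k ∈ Finset.Icc 1 (Nat.card V), (k : ℚ) * (ck G k : ℚ)) /
    (∑ k ∈ Finset.Icc 1 (Nat.card V), (ck G k : ℚ))

/-- Contraction of the edge `uv`: the vertex `v` is merged into `u`. -/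
def contract {V : Type} (G : SimpleGraph V) (u v : V) : SimpleGraph {w : V // w ≠ v} where
  Adj a b := a ≠ b ∧ (G.Adj a.1 b.1 ∨ (a.1 = u ∧ G.Adj v b.1) ∨ (b.1 = u ∧ G.Adj a.1 v))
  symm := ⟨fun a b h => ⟨h.1.symm, by
    rcases h.2 with h | h | h
    · exact Or.inl h.symm
    · exact Or.inr (Or.inr ⟨h.1, h.2.symm⟩)
    · exact Or.inr (Or.inl ⟨h.1, h.2.symm⟩)⟩⟩
  loopless := ⟨fun a h => h.1 rfl⟩

end Pool.Agent.H25.Mst
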