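import Pool.Agent.H25.NGDefs

set_option autoImplicit false

namespace Pool.Agent.H25.NG

open Finset

/-- Non-incidence in the Fano plane, in symmetric form. -/
def inc (x y : Fin 7) : Prop :=
  (x.val + y.val) % 7 = 2 ∨ (x.val + y.val) % 7 = 4 ∨ (x.val + y.val) % 7 = 5 ∨
    (x.val + y.val) % 7 = 6

instance : DecidableRel inc := by unfold inc; infer_instance

lemma inc_symm : ∀ x y, inc x y → inc y x := by decide

/-- k copies of the bipartite complement of the Heawood graph. -/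
def g0 (k : ℕ) : SimpleGraph ((Fin k × Bool) × Fin 7) where
  Adj p q := p.1.1 = q.1.1 ∧ p.1.2 ≠ q.1.2 ∧ inc p.2 q.2
  symm := ⟨fun _ _ h => ⟨h.1.symm, h.2.1.symm, inc_symm _ _ h.2.2⟩⟩
  loopless := ⟨fun _ h => h.2.1 rfl⟩

instance (k : ℕ) : DecidableRel (g0 k).Adj := by unfold g0; infer_instance

lemma three : ∀ T : Finset (Fin 7), (∀ x, ∃ y ∈ T, inc x y) → 3 ≤ T.card := by decide +kernel
lemma four : ∀ x : Fin 7, (univ.filter (fun y => inc x y)).card = 4 := by decide +kernel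

lemma deg0 {k : ℕ} (v : (Fin k × Bool) × Fin 7) : (g0 k).degree v = 4 := by
  rw [← SimpleGraph.card_neighborFinset_eq_degree]
  have : (g0 k).neighborFinset v =
      ({(v.1.1, !v.1.2)} : Finset (Fin k × Bool)) ×ˢ univ.filter (fun y => inc v.2 y) := by
    ext ⟨⟨i, b⟩, y⟩
    obtain ⟨⟨j, c⟩, x⟩ := v
    simp only [SimpleGraph.mem_neighborFinset, g0, mem_product, mem_singleton, Prod.mk.injEq,
      mem_filter, mem_univ, true_and]
    cases b <;> cases c <;> simp [eq_comm]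
  rw [this, card_product, four, card_singleton]

lemma card_V (k : ℕ) : Fintype.card ((Fin k × Bool) × Fin 7) = 14 * k := by
  simp only [Fintype.card_prod, Fintype.card_fin, Fintype.card_bool]; ring

lemma deg1 {k : ℕ} (v : (Fin k × Bool) × Fin 7) : (g0 k)ᶜ.degree v = 14 * k - 5 := by
  rw [SimpleGraph.degree_compl, deg0, card_V]; omega

lemma le_gammaT {V : Type} [Fintype V] (G : SimpleGraph V) [DecidableRel G.Adj] (m : ℕ)
    (h0 : ∀ v, 0 < G.degree v)
    (h : ∀ S : Finset V, (∀ v, ∃ t ∈ S, G.Adj v t) → m ≤ S.card) : m ≤ gammaT G := by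
  refine le_csInf ⟨_, univ, fun v => ?_, rfl⟩ ?_
  · obtain ⟨w, hw⟩ := (G.degree_pos_iff_exists_adj v).1 (h0 v)
    exact ⟨w, mem_univ _, hw⟩
  · rintro _ ⟨S, hS, rfl⟩
    exact h S hS

lemma gamma0 (k : ℕ) : 6 * k ≤ gammaT (g0 k) := by
  refine le_gammaT _ _ (fun v => by rw [deg0]; norm_num) (fun S hS => ?_)
  rw [card_eq_sum_card_fiberwise (f := Prod.fst) (t := univ) (fun _ _ => mem_univ _)]
  have : ∀ c : Fin k × Bool, 3 ≤ (S.filter (fun p => p.1 = c)).card := by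
    intro c
    refine le_trans (three ((S.filter (fun p => p.1 = c)).image Prod.snd) (fun x => ?_))
      card_image_le
    obtain ⟨t, ht, h1, h2, h3⟩ := hS ((c.1, !c.2), x)
    refine ⟨t.2, mem_image_of_mem _ (mem_filter.2 ⟨ht, Prod.ext h1.symm ?_⟩), h3⟩
    revert h2
    cases c.2 <;> cases t.1.2 <;> simp
  have h := card_nsmul_le_sum (univ : Finset (Fin k × Bool)) _ 3 (fun c _ => this c)
  simp only [card_univ, Fintype.card_prod, Fintype.card_fin, Fintype.card_bool, smul_eq_mul] at h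
  omega

lemma gamma1 (k : ℕ) (hk : 1 ≤ k) : 2 ≤ gammaT (g0 k)ᶜ := by
  refine le_gammaT _ _ (fun v => by rw [deg1]; omega) (fun S hS => ?_)
  obtain ⟨a, ha, -⟩ := hS ((⟨0, hk⟩, true), 0)
  obtain ⟨b, hb, hab⟩ := hS a
  exact one_lt_card.2 ⟨a, ha, b, hb, hab.ne⟩

lemma conn (k : ℕ) (hk : 1 ≤ k) : (g0 k)ᶜ.Connected := by
  have same : ∀ u v : (Fin k × Bool) × Fin 7, ¬ (g0 k).Adj u v → (g0 k)ᶜ.Reachable u v := by
    intro u v h
    by_cases e : u = v
    · exact e ▸ SimpleGraph.Reachable.refl _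
    · exact SimpleGraph.Adj.reachable ⟨e, h⟩
  have key : ∀ v, (g0 k)ᶜ.Reachable v ((⟨0, hk⟩, true), 0) := by
    rintro ⟨⟨i, b⟩, x⟩
    cases b
    · exact (same ((i, false), x) ((⟨0, hk⟩, false), 0) (fun h => h.2.1 rfl)).trans
        (same _ ((⟨0, hk⟩, true), 0) (fun h => absurd (show inc 0 0 from h.2.2) (by decide)))
    · exact same _ _ (fun h => h.2.1 rfl)
  have : Nonempty ((Fin k × Bool) × Fin 7) := ⟨((⟨0, hk⟩, true), 0)⟩
  exact ⟨fun u v => (key u).trans (key v).symm⟩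

theorem main (k : ℕ) (hk : 1 ≤ k) :
    ∃ (V : Type) (_ : Fintype V) (_ : DecidableEq V) (G : SimpleGraph V) (_ : DecidableRel G.Adj),
      Fintype.card V = 14 * k ∧ G.Connected ∧ min G.minDegree Gᶜ.minDegree = 4 ∧
      2 ≤ gammaT G ∧ 6 * k ≤ gammaT Gᶜ := by
  have : Nonempty ((Fin k × Bool) × Fin 7) := ⟨((⟨0, hk⟩, true), 0)⟩
  refine ⟨_, inferInstance, inferInstance, (g0 k)ᶜ, inferInstance, card_V k, conn k hk, ?_,
    gamma1 k hk, by rw [compl_compl]; exact gamma0 k⟩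
  obtain ⟨v, hv⟩ := (g0 k)ᶜ.exists_minimal_degree_vertex
  obtain ⟨w, hw⟩ := (g0 k)ᶜᶜ.exists_minimal_degree_vertex
  rw [hv, hw, SimpleGraph.degree_compl, SimpleGraph.degree_compl, deg1, deg0, card_V]
  omega

end Pool.Agent.H25.NG
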