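import Mathlib

set_option autoImplicit false

namespace Pool.Agent.H25.NG

/-- The total domination number: least size of a set S such that every vertex has a neighbour
in S. -/
noncomputable def gammaT {V : Type} (G : SimpleGraph V) : ℕ :=
  sInf {k : ℕ | ∃ S : Finset V, (∀ v, ∃ t ∈ S, G.Adj v t) ∧ S.card = k}

end Pool.Agent.H25.NG
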