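import Pool.Agent.H25.OctU

set_option autoImplicit false

/-! Eight points in space: the combinatorial core.  The sign bookkeeping follows the pattern of
`Pool.Agent.H10.FiveCore`. -/

namespace Pool.Agent.H25.Oct
open Pool.Agent.H10.Rup

def val (s : Bool) (x : ℝ) : Prop := Bool.rec (x < 0) (0 < x) s

lemma val_neg (s : Bool) (x : ℝ) : val (!s) (-x) ↔ val s x := by cases s <;> simp [val]

lemma val_not {s : Bool} {x : ℝ} (h : x ≠ 0) (h1 : ¬ val s x) : val (!s) x := by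
  cases s
  · exact lt_of_le_of_ne (not_lt.mp h1) h.symm
  · exact lt_of_le_of_ne (not_lt.mp h1) h

lemma val_mul {s t : Bool} {x y : ℝ} (h : val s x) (h1 : val t y) : val (s == t) (x * y) := by
  cases s <;> cases t
  · exact mul_pos_of_neg_of_neg h h1
  · exact mul_neg_of_neg_of_pos h h1
  · exact mul_neg_of_pos_of_neg h h1
  · exact mul_pos h h1

abbrev Dt := ℕ → ℕ → ℕ → ℕ → ℝ

def nib (q k : ℕ) : ℕ := Nat.land (Nat.shiftRight q (Nat.mul 4 k)) 15

noncomputable def code (v : ℕ) : ℕ := Nat.land (Nat.shiftRight big (Nat.mul 16 v)) 65535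

noncomputable def dv (D : Dt) (v : ℕ) : ℝ :=
  D (nib (code v) 0) (nib (code v) 1) (nib (code v) 2) (nib (code v) 3)

def Lit (D : Dt) (S : ℕ → Prop) (j : ℕ) : Prop :=
  (64 ≤ j ∧ j < 134 ∧ 0 < dv D (j - 64)) ∨ (134 ≤ j ∧ j < 262 ∧ S (j - 134)) ∨
    (262 ≤ j ∧ j < 332 ∧ dv D (j - 262) < 0) ∨ (332 ≤ j ∧ j < 460 ∧ ¬ S (j - 332))

lemma good (D : Dt) (S : ℕ → Prop) : Good 198 (Lit D S) := by
  refine ⟨fun j hj h => by rcases h with h | h | h | h <;> omega, fun j h h' => ?_⟩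
  rcases h with h | h | h | h <;> rcases h' with h' | h' | h' | h'
  any_goals omega
  · have e : j + 198 - 262 = j - 64 := by omega
    rw [e] at h'
    linarith [h.2.2, h'.2.2]
  · have e : j + 198 - 332 = j - 134 := by omega
    rw [e] at h'
    exact h'.2.2 h.2.2

def rank (a b c e : ℕ) : ℕ :=
  69 - ((7 - a) * (6 - a) * (5 - a) * (4 - a) / 24 + (7 - b) * (6 - b) * (5 - b) / 6 +
    (7 - c) * (6 - c) / 2 + (7 - e))

abbrev Ck := Bool → ℕ → ℕ → ℕ → ℕ → Bool

noncomputable def base (d : ℕ) : Ck := fun s a b c e =>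
  Nat.blt a b && Nat.blt b c && Nat.blt c e && Nat.blt e 8 && Nat.blt (rank a b c e) 70 &&
    Nat.beq (nib (code (rank a b c e)) 0) a && Nat.beq (nib (code (rank a b c e)) 1) b &&
    Nat.beq (nib (code (rank a b c e)) 2) c && Nat.beq (nib (code (rank a b c e)) 3) e &&
    Nat.testBit d (Bool.rec (262 + rank a b c e) (64 + rank a b c e) s)

def ce1 (k : Ck) : Ck := fun s a b c e => Bool.rec (k s a b c e) (k (!s) b a c e) (Nat.blt b a)
def ce2 (k : Ck) : Ck := fun s a b c e => Bool.rec (k s a b c e) (k (!s) a c b e) (Nat.blt c b)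
def ce3 (k : Ck) : Ck := fun s a b c e => Bool.rec (k s a b c e) (k (!s) a b e c) (Nat.blt e c)

noncomputable def chk (d : ℕ) : Ck := ce1 (ce2 (ce3 (ce1 (ce2 (ce1 (base d))))))

structure Alt (D : Dt) : Prop where
  s1 : ∀ a b c e, D b a c e = - D a b c e
  s2 : ∀ a b c e, D a c b e = - D a b c e
  s3 : ∀ a b c e, D a b e c = - D a b c e
  nz : ∀ a b c e, a < b → b < c → c < e → e < 8 → D a b c e ≠ 0

def Ok (D : Dt) (S : ℕ → Prop) (d : ℕ) (k : Ck) : Prop :=
  ∀ s a b c e, k s a b c e = true → D a b c e ≠ 0 ∧ (val s (D a b c e) → Sat (Lit D S) d)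

lemma ok_base (D : Dt) (S : ℕ → Prop) (hD : Alt D) (d : ℕ) : Ok D S d (base d) := by
  intro s a b c e h
  simp only [base, Bool.and_eq_true, Nat.blt_eq, Nat.beq_eq] at h
  obtain ⟨⟨⟨⟨⟨⟨⟨⟨⟨h1, h2⟩, h3⟩, h4⟩, h5⟩, h6⟩, h7⟩, h8⟩, h9⟩, h10⟩ := h
  refine ⟨hD.nz a b c e h1 h2 h3 h4, fun hv => ⟨_, h10, ?_⟩⟩
  have e1 : dv D (rank a b c e) = D a b c e := by unfold dv; rw [h6, h7, h8, h9]
  cases s
  · right; right; left
    refine ⟨by simp, by show 262 + _ < 332; omega, ?_⟩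
    show dv D (262 + rank a b c e - 262) < 0
    rw [Nat.add_sub_cancel_left, e1]; exact hv
  · left
    refine ⟨by simp, by show 64 + _ < 134; omega, ?_⟩
    show 0 < dv D (64 + rank a b c e - 64)
    rw [Nat.add_sub_cancel_left, e1]; exact hv

lemma flip {D : Dt} {S : ℕ → Prop} {d : ℕ} {s : Bool} {x y : ℝ} (e : x = -y)
    (h : x ≠ 0 ∧ (val (!s) x → Sat (Lit D S) d)) : y ≠ 0 ∧ (val s y → Sat (Lit D S) d) := by
  subst e
  exact ⟨fun h0 => h.1 (by simp [h0]), fun hv => h.2 ((val_neg s y).mpr hv)⟩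

lemma ok1 (D : Dt) (S : ℕ → Prop) (hD : Alt D) (d : ℕ) (k : Ck) (hk : Ok D S d k) :
    Ok D S d (ce1 k) := by
  intro s a b c e h
  unfold ce1 at h
  cases h1 : Nat.blt b a <;> rw [h1] at h
  · exact hk _ _ _ _ _ h
  · exact flip (hD.s1 a b c e) (hk _ _ _ _ _ h)

lemma ok2 (D : Dt) (S : ℕ → Prop) (hD : Alt D) (d : ℕ) (k : Ck) (hk : Ok D S d k) :
    Ok D S d (ce2 k) := by
  intro s a b c e h
  unfold ce2 at h
  cases h1 : Nat.blt c b <;> rw [h1] at h
  · exact hk _ _ _ _ _ h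
  · exact flip (hD.s2 a b c e) (hk _ _ _ _ _ h)

lemma ok3 (D : Dt) (S : ℕ → Prop) (hD : Alt D) (d : ℕ) (k : Ck) (hk : Ok D S d k) :
    Ok D S d (ce3 k) := by
  intro s a b c e h
  unfold ce3 at h
  cases h1 : Nat.blt e c <;> rw [h1] at h
  · exact hk _ _ _ _ _ h
  · exact flip (hD.s3 a b c e) (hk _ _ _ _ _ h)

lemma ok_chk (D : Dt) (S : ℕ → Prop) (hD : Alt D) (d : ℕ) : Ok D S d (chk d) :=
  ok1 D S hD d _ (ok2 D S hD d _ (ok3 D S hD d _ (ok1 D S hD d _ (ok2 D S hD d _ (ok1 D S hD d _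
    (ok_base D S hD d))))))

def pat (x y z : ℕ) (i : Fin 8) : Bool × Bool × Bool := (x.testBit i, y.testBit i, z.testBit i)

def fact (x y z : ℕ) : Bool := decide (∀ i j : Fin 8, pat x y z i = pat x y z j → i = j)

structure Hyp (D : Dt) (S : ℕ → Prop) : Prop extends Alt D where
  gp : ∀ a b p q r s, D a b p q * D a b r s - D a b p r * D a b q s + D a b p s * D a b q r = 0
  ac : ∀ a b c d e, D b c d e - D a c d e + D a b d e - D a b c e + D a b c d = 0
  sep : ∀ a b c x g, a < b → b < c → c < 8 →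
    (∀ i : Fin 8, i.1 ≠ a → i.1 ≠ b → i.1 ≠ c → val (g == x.testBit i) (D a b c i)) → S x
  fin : ∀ x y z, fact x y z = true → S x → S y → S z → False

noncomputable def cl0 (d a b p q r s : ℕ) (g s1 s2 s3 : Bool) : Bool :=
  chk d (!s1) a b p q && chk d (!(g == s1)) a b r s && chk d s2 a b p r &&
    chk d (!(g == s2)) a b q s && chk d (!s3) a b p s && chk d (!(g == s3)) a b q r

lemma cl0_sound (D : Dt) (S : ℕ → Prop) (hD : Hyp D S) (d a b p q r s : ℕ) (g s1 s2 s3 : Bool)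
    (h : cl0 d a b p q r s g s1 s2 s3 = true) : Sat (Lit D S) d := by
  simp only [cl0, Bool.and_eq_true] at h
  obtain ⟨⟨⟨⟨⟨h1, h2⟩, h3⟩, h4⟩, h5⟩, h6⟩ := h
  have k := ok_chk D S hD.toAlt d
  by_contra hc
  have t : ∀ s a b c e, chk d s a b c e = true → val (!s) (D a b c e) := fun s a b c e h =>
    val_not (k s a b c e h).1 fun hv => hc ((k s a b c e h).2 hv)
  have a1 := val_mul (t _ _ _ _ _ h1) (t _ _ _ _ _ h2)
  have a2 := val_mul (t _ _ _ _ _ h3) (t _ _ _ _ _ h4)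
  have a3 := val_mul (t _ _ _ _ _ h5) (t _ _ _ _ _ h6)
  have := hD.gp a b p q r s
  cases g <;> cases s1 <;> cases s2 <;> cases s3 <;> simp [val] at a1 a2 a3 <;> linarith

noncomputable def cl1 (d a b c p q : ℕ) (g : Bool) : Bool :=
  chk d g b c p q && chk d (!g) a c p q && chk d g a b p q && chk d (!g) a b c q &&
    chk d g a b c p

lemma cl1_sound (D : Dt) (S : ℕ → Prop) (hD : Hyp D S) (d a b c p q : ℕ) (g : Bool)
    (h : cl1 d a b c p q g = true) : Sat (Lit D S) d := by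
  simp only [cl1, Bool.and_eq_true] at h
  obtain ⟨⟨⟨⟨h1, h2⟩, h3⟩, h4⟩, h5⟩ := h
  have k := ok_chk D S hD.toAlt d
  by_contra hc
  have t : ∀ s a b c e, chk d s a b c e = true → val (!s) (D a b c e) := fun s a b c e h =>
    val_not (k s a b c e h).1 fun hv => hc ((k s a b c e h).2 hv)
  have a1 := t _ _ _ _ _ h1
  have a2 := t _ _ _ _ _ h2
  have a3 := t _ _ _ _ _ h3
  have a4 := t _ _ _ _ _ h4
  have a5 := t _ _ _ _ _ h5
  have := hD.ac a b c p q
  cases g <;> simp [val] at a1 a2 a3 a4 a5 <;> linarith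

noncomputable def cl2 (d a b c x : ℕ) (g : Bool) : Bool :=
  Nat.blt a b && Nat.blt b c && Nat.blt c 8 && Nat.blt x 128 && Nat.testBit d (134 + x) &&
    (List.range 8).all fun i => Nat.beq i a || Nat.beq i b || Nat.beq i c ||
      chk d (!(g == x.testBit i)) a b c i

lemma cl2_sound (D : Dt) (S : ℕ → Prop) (hD : Hyp D S) (d a b c x : ℕ) (g : Bool)
    (h : cl2 d a b c x g = true) : Sat (Lit D S) d := by
  simp only [cl2, Bool.and_eq_true, Nat.blt_eq, List.all_eq_true, Bool.or_eq_true, Nat.beq_eq,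
    List.mem_range] at h
  obtain ⟨⟨⟨⟨⟨h1, h2⟩, h3⟩, h4⟩, h5⟩, h6⟩ := h
  have k := ok_chk D S hD.toAlt d
  by_contra hc
  have t : ∀ s a b c e, chk d s a b c e = true → val (!s) (D a b c e) := fun s a b c e h =>
    val_not (k s a b c e h).1 fun hv => hc ((k s a b c e h).2 hv)
  have hs : S x := by
    refine hD.sep a b c x g h1 h2 h3 fun i ia ib ic => ?_
    rcases h6 i i.2 with ((e | e) | e) | e
    · exact absurd e ia
    · exact absurd e ib
    · exact absurd e ic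
    · simpa using t _ _ _ _ _ e
  refine hc ⟨_, h5, Or.inr (Or.inl ⟨by omega, by omega, ?_⟩)⟩
  rw [Nat.add_sub_cancel_left]; exact hs

def cl3 (d x y z : ℕ) : Bool :=
  Nat.blt x 128 && Nat.blt y 128 && Nat.blt z 128 && Nat.testBit d (332 + x) &&
    Nat.testBit d (332 + y) && Nat.testBit d (332 + z) && fact x y z

lemma cl3_sound (D : Dt) (S : ℕ → Prop) (hD : Hyp D S) (d x y z : ℕ)
    (h : cl3 d x y z = true) : Sat (Lit D S) d := by
  simp only [cl3, Bool.and_eq_true, Nat.blt_eq] at h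
  obtain ⟨⟨⟨⟨⟨⟨h1, h2⟩, h3⟩, h4⟩, h5⟩, h6⟩, h7⟩ := h
  by_contra hc
  have t : ∀ w, w < 128 → Nat.testBit d (332 + w) = true → S w := by
    intro w hw hb
    by_contra hs
    refine hc ⟨_, hb, Or.inr (Or.inr (Or.inr ⟨by omega, by omega, ?_⟩))⟩
    rw [Nat.add_sub_cancel_left]; exact hs
  exact hD.fin x y z h7 (t x h1 h4) (t y h2 h5) (t z h3 h6)

def bit (q k : ℕ) : Bool := Nat.beq (nib q k) 1

noncomputable def cl (d q : ℕ) : Bool :=
  Bool.rec (Bool.rec (Bool.rec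
    (cl3 d (nib q 1 + 16 * nib q 2) (nib q 3 + 16 * nib q 4) (nib q 5 + 16 * nib q 6))
    (cl2 d (nib q 1) (nib q 2) (nib q 3) (nib q 5 + 16 * nib q 6) (bit q 4))
      (Nat.beq (nib q 0) 2))
    (cl1 d (nib q 1) (nib q 2) (nib q 3) (nib q 4) (nib q 5) (bit q 6)) (Nat.beq (nib q 0) 1))
    (cl0 d (nib q 1) (nib q 2) (nib q 3) (nib q 4) (nib q 5) (nib q 6) (bit q 7) (bit q 8)
      (bit q 9) (bit q 10)) (Nat.beq (nib q 0) 0)

lemma cl_sound (D : Dt) (S : ℕ → Prop) (hD : Hyp D S) (d q : ℕ) (h : cl d q = true) :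
    Sat (Lit D S) d := by
  unfold cl at h
  cases h0 : Nat.beq (nib q 0) 0 <;> rw [h0] at h
  · cases h1 : Nat.beq (nib q 0) 1 <;> rw [h1] at h
    · cases h2 : Nat.beq (nib q 0) 2 <;> rw [h2] at h
      · exact cl3_sound D S hD _ _ _ _ h
      · exact cl2_sound D S hD _ _ _ _ _ _ h
    · exact cl1_sound D S hD _ _ _ _ _ _ _ h
  · exact cl0_sound D S hD _ _ _ _ _ _ _ _ _ _ _ h

noncomputable def clAll (ps : List ℕ) : ℕ → Bool :=
  List.rec (motive := fun _ => ℕ → Bool) (fun _ => true)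
    (fun q _ ih b => Bool.rec false (force (Nat.succ b) ih) (cl (db.get b) q)) ps

lemma clAll_sound (D : Dt) (S : ℕ → Prop) (hD : Hyp D S) : ∀ (ps : List ℕ) (b : ℕ),
    clAll ps b = true → ∀ i, b ≤ i → i < b + ps.length → Sat (Lit D S) (db.get i) := by
  intro ps
  induction ps with
  | nil => intro b _ i h1 h2; simp at h2; omega
  | cons q ps ih =>
    intro b h i h1 h2
    have h' : Bool.rec false (force (b + 1) (clAll ps)) (cl (db.get b) q) = true := h
    cases h3 : cl (db.get b) q <;> rw [h3] at h'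
    · exact absurd h' (by simp)
    · rcases Nat.eq_or_lt_of_le h1 with e | e
      · rw [← e]; exact cl_sound D S hD _ _ h3
      · have h4 : clAll ps (b + 1) = true := by rw [← force_eq (b + 1) (clAll ps)]; exact h'
        exact ih (b + 1) h4 i e (by simp at h2; omega)

theorem all_ok : clAll params 0 = true := by decide +kernel

theorem len_ok : params.length = 3475 := by decide +kernel

theorem core (D : Dt) (S : ℕ → Prop) (hD : Hyp D S) : False :=
  unsat (Lit D S) (good D S) fun i hi =>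
    clAll_sound D S hD params 0 all_ok i (Nat.zero_le _) (by rw [len_ok]; omega)

end Pool.Agent.H25.Oct
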