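import Pool.Agent.H25.OctCore

set_option autoImplicit false

namespace Pool.Agent.H25.Oct
open Filter Topology

abbrev Pt := Fin 3 → ℝ

def det4 (a b c d : Pt) : ℝ :=
  (b 0 - a 0) * ((c 1 - a 1) * (d 2 - a 2) - (c 2 - a 2) * (d 1 - a 1)) -
  (b 1 - a 1) * ((c 0 - a 0) * (d 2 - a 2) - (c 2 - a 2) * (d 0 - a 0)) +
  (b 2 - a 2) * ((c 0 - a 0) * (d 1 - a 1) - (c 1 - a 1) * (d 0 - a 0))

def Aff (h : Pt → ℝ) : Prop := ∃ (n : Pt) (c : ℝ), ∀ y, h y = n ⬝ᵥ y - c

lemma Aff.add {f g : Pt → ℝ} (hf : Aff f) (hg : Aff g) : Aff fun y => f y + g y := by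
  obtain ⟨n, c, h⟩ := hf
  obtain ⟨m, e, k⟩ := hg
  exact ⟨n + m, c + e, fun y => by simp only [h, k, add_dotProduct]; ring⟩

lemma Aff.smul {f : Pt → ℝ} (t : ℝ) (hf : Aff f) : Aff fun y => t * f y := by
  obtain ⟨n, c, h⟩ := hf
  exact ⟨t • n, t * c, fun y => by simp only [h, smul_dotProduct, smul_eq_mul]; ring⟩

lemma aff4 (a b c : Pt) : Aff fun y => det4 a b c y := by
  refine ⟨![(b 1 - a 1) * (c 2 - a 2) - (b 2 - a 2) * (c 1 - a 1),
    (b 2 - a 2) * (c 0 - a 0) - (b 0 - a 0) * (c 2 - a 2),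
    (b 0 - a 0) * (c 1 - a 1) - (b 1 - a 1) * (c 0 - a 0)],
    ((b 1 - a 1) * (c 2 - a 2) - (b 2 - a 2) * (c 1 - a 1)) * a 0 +
    ((b 2 - a 2) * (c 0 - a 0) - (b 0 - a 0) * (c 2 - a 2)) * a 1 +
    ((b 0 - a 0) * (c 1 - a 1) - (b 1 - a 1) * (c 0 - a 0)) * a 2, fun y => ?_⟩
  simp only [det4, dotProduct, Fin.sum_univ_three, Matrix.cons_val_zero, Matrix.cons_val_one,
    Matrix.cons_val_two, Matrix.head_cons, Matrix.tail_cons]
  ring

def Sep (p : ℕ → Pt) (x : ℕ) : Prop := ∃ h, Aff h ∧ ∀ i : Fin 8, val (x.testBit i) (h (p i))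

lemma pert (p : ℕ → Pt) (x : ℕ) (f g : Pt → ℝ) (hf : Aff f) (hg : Aff g)
    (h : ∀ i : Fin 8, val (x.testBit i) (f (p i)) ∨ (f (p i) = 0 ∧ val (x.testBit i) (g (p i)))) :
    Sep p x := by
  have key : ∀ i : Fin 8, ∀ᶠ δ in 𝓝[>] (0 : ℝ), val (x.testBit i) (f (p i) + δ * g (p i)) := by
    intro i
    have ht : Tendsto (fun δ : ℝ => f (p i) + δ * g (p i)) (𝓝[>] 0) (𝓝 (f (p i))) := by
      have : Continuous fun δ : ℝ => f (p i) + δ * g (p i) := by fun_prop
      have h2 := this.tendsto 0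
      simp only [zero_mul, add_zero] at h2
      exact h2.mono_left nhdsWithin_le_nhds
    rcases h i with h | ⟨h0, h⟩
    · generalize x.testBit i = s at h
      cases s
      · exact ht.eventually (gt_mem_nhds h)
      · exact ht.eventually (lt_mem_nhds h)
    · filter_upwards [self_mem_nhdsWithin] with δ hδ
      rw [h0, zero_add]
      have := val_mul (s := true) (x := δ) hδ h
      simpa using this
  obtain ⟨δ, hδ⟩ := (eventually_all.2 key).exists
  exact ⟨_, hf.add (hg.smul δ), hδ⟩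

def sgn (s : Bool) : ℝ := Bool.rec (-1) 1 s

lemma val_sgn (s : Bool) {x : ℝ} (h : x ≠ 0) : val s (sgn s * (x * x)) := by
  have := mul_self_pos.2 h
  cases s <;> simp [val, sgn, h, this]

lemma sep_of (p : ℕ → Pt)
    (nz : ∀ a b c e, a < b → b < c → c < e → e < 8 → det4 (p a) (p b) (p c) (p e) ≠ 0)
    (a b c x : ℕ) (g : Bool)
    (h : ∀ i : Fin 8, i.1 ≠ a → i.1 ≠ b → i.1 ≠ c →
      val (g == x.testBit i) (det4 (p a) (p b) (p c) (p i))) : Sep p x := by
  obtain ⟨d, da, db, dc⟩ : ∃ d : Fin 8, d.1 ≠ a ∧ d.1 ≠ b ∧ d.1 ≠ c := by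
    by_contra hc
    push Not at hc
    have h0 := hc 0
    have h1 := hc 1
    have h2 := hc 2
    have h3 := hc 3
    simp only [Fin.val_zero, Fin.val_one, Fin.val_two, show ((3 : Fin 8) : ℕ) = 3 from rfl]
      at h0 h1 h2 h3
    omega
  have hΔ : det4 (p a) (p b) (p c) (p d) ≠ 0 := by
    have := h d da db dc
    intro e
    rw [e] at this
    generalize (g == x.testBit d) = s at this
    cases s <;> simp [val] at this
  refine pert p x (fun y => sgn g * det4 (p a) (p b) (p c) y)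
    (fun y => det4 (p a) (p b) (p c) (p d) * (-sgn (x.testBit a) * det4 (p b) (p c) (p d) y +
      (sgn (x.testBit b) * det4 (p a) (p c) (p d) y +
        -sgn (x.testBit c) * det4 (p a) (p b) (p d) y)))
    ((aff4 _ _ _).smul _)
    ((((aff4 _ _ _).smul _).add (((aff4 _ _ _).smul _).add ((aff4 _ _ _).smul _))).smul _) ?_
  intro i
  by_cases ia : i.1 = a
  · right
    rw [ia]
    refine ⟨by simp only [det4]; ring, ?_⟩
    convert val_sgn (x.testBit a) hΔ using 1
    simp only [det4]; ring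
  by_cases ib : i.1 = b
  · right
    rw [ib]
    refine ⟨by simp only [det4]; ring, ?_⟩
    convert val_sgn (x.testBit b) hΔ using 1
    simp only [det4]; ring
  by_cases ic : i.1 = c
  · right
    rw [ic]
    refine ⟨by simp only [det4]; ring, ?_⟩
    convert val_sgn (x.testBit c) hΔ using 1
    simp only [det4]; ring
  left
  have := h i ia ib ic
  generalize x.testBit i = s at this
  cases g <;> cases s <;> simpa [val, sgn] using this

theorem exists_fact (p : ℕ → Pt)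
    (nz : ∀ a b c e, a < b → b < c → c < e → e < 8 → det4 (p a) (p b) (p c) (p e) ≠ 0) :
    ∃ x y z, fact x y z = true ∧ Sep p x ∧ Sep p y ∧ Sep p z := by
  by_contra hc
  refine core (fun a b c e => det4 (p a) (p b) (p c) (p e)) (Sep p)
    { s1 := fun a b c e => by simp only [det4]; ring
      s2 := fun a b c e => by simp only [det4]; ring
      s3 := fun a b c e => by simp only [det4]; ring
      nz := nz
      gp := fun a b c d e f => by simp only [det4]; ring
      ac := fun a b c d e => by simp only [det4]; ring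
      sep := fun a b c x g _ _ _ h => sep_of p nz a b c x g h
      fin := fun x y z h a b c => hc ⟨x, y, z, h, a, b, c⟩ }

lemma plane_of_det (a b c d : Pt) (h : det4 a b c d = 0) :
    ∃ n : Pt, n ≠ 0 ∧ n ⬝ᵥ b = n ⬝ᵥ a ∧ n ⬝ᵥ c = n ⬝ᵥ a ∧ n ⬝ᵥ d = n ⬝ᵥ a := by
  have : (Matrix.of ![b - a, c - a, d - a]).det = 0 := by
    rw [Matrix.det_fin_three, ← h]
    simp [det4]
    ring
  obtain ⟨v, hv, hz⟩ := Matrix.exists_mulVec_eq_zero_iff.2 this
  refine ⟨v, hv, ?_, ?_, ?_⟩
  · have : (b - a) ⬝ᵥ v = 0 := congrFun hz 0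
    rw [sub_dotProduct] at this
    rw [dotProduct_comm v, dotProduct_comm v]; linarith
  · have : (c - a) ⬝ᵥ v = 0 := congrFun hz 1
    rw [sub_dotProduct] at this
    rw [dotProduct_comm v, dotProduct_comm v]; linarith
  · have : (d - a) ⬝ᵥ v = 0 := congrFun hz 2
    rw [sub_dotProduct] at this
    rw [dotProduct_comm v, dotProduct_comm v]; linarith

end Pool.Agent.H25.Oct
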