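import Pool.Agent.H25.OctH0
import Pool.Agent.H25.OctH1
import Pool.Agent.H25.OctH2
import Pool.Agent.H25.OctH3

set_option autoImplicit false
set_option maxRecDepth 100000

namespace Pool.Agent.H25.Oct
open Pool.Agent.H10.Rup

theorem unsat (L : Nat → Prop) (hG : Good 198 L) (h : ∀ i < 3475, Sat L (db.get i)) : False :=
  not_sat_small 198 L hG (db.get 16271) (by decide +kernel) ((s37 L hG (s36 L hG (s35 L hG (s34 L hG (s33 L hG (s32 L hG (s31 L hG (s30 L hG (s29 L hG (s28 L hG (s27 L hG (s26 L hG (s25 L hG (s24 L hG (s23 L hG (s22 L hG (s21 L hG (s20 L hG (s19 L hG (s18 L hG (s17 L hG (s16 L hG (s15 L hG (s14 L hG (s13 L hG (s12 L hG (s11 L hG (s10 L hG (s9 L hG (s8 L hG (s7 L hG (s6 L hG (s5 L hG (s4 L hG (s3 L hG (s2 L hG (s1 L hG (s0 L hG h)))))))))))))))))))))))))))))))))))))) 16271 (by norm_num))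

end Pool.Agent.H25.Oct
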