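import Mathlib

set_option autoImplicit false

namespace Pool.Agent.H25.OddSign

def adjL : List ℕ := [312, 708, 898, 545, 385, 73, 290, 22, 85, 14]

def A (u v : Fin 10) : Bool := (adjL.getD u 0).testBit v

def G : SimpleGraph (Fin 10) where
  Adj u v := A u v = true
  symm := ⟨by decide⟩
  loopless := ⟨by decide⟩

instance : DecidableRel G.Adj := fun u v => inferInstanceAs (Decidable (A u v = true))

def ext (p : List (Fin 10)) : List (List (Fin 10)) :=
  ((List.finRange 10).filter fun v => A v (p.headD 0) && p.all (fun x => x != v) &&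
    p.tail.all (fun x => !A v x)).map fun v => v :: p

def lev : ℕ → List (List (Fin 10))
  | 0 => (List.finRange 10).map fun v => [v]
  | k + 1 => (lev k).flatMap ext

def rp (P : ℕ → Fin 10) : ℕ → List (Fin 10)
  | 0 => [P 0]
  | k + 1 => P (k + 1) :: rp P k

lemma mem_rp (P : ℕ → Fin 10) (k : ℕ) (x : Fin 10) : x ∈ rp P k ↔ ∃ s ≤ k, x = P s := by
  induction k with
  | zero => simp [rp]
  | succ k ih =>
    simp only [rp, List.mem_cons, ih]
    constructor
    · rintro (h | ⟨s, hs, h⟩)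
      · exact ⟨k + 1, le_rfl, h⟩
      · exact ⟨s, by omega, h⟩
    · rintro ⟨s, hs, h⟩
      rcases Nat.lt_succ_iff_lt_or_eq.mp (Nat.lt_succ_of_le hs) with h' | rfl
      · exact Or.inr ⟨s, by omega, h⟩
      · exact Or.inl h

lemma mem_tail_rp (P : ℕ → Fin 10) (k : ℕ) (x : Fin 10) (h : x ∈ (rp P k).tail) :
    ∃ s < k, x = P s := by
  cases k with
  | zero => simp [rp] at h
  | succ k =>
    simp only [rp, List.tail_cons, mem_rp] at h
    obtain ⟨s, hs, h⟩ := h
    exact ⟨s, by omega, h⟩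

lemma head_rp (P : ℕ → Fin 10) (k : ℕ) : (rp P k).headD 0 = P k := by
  cases k <;> simp [rp]

lemma last_rp (P : ℕ → Fin 10) (k : ℕ) : (rp P k).getLastD 0 = P 0 := by
  induction k with
  | zero => simp [rp]
  | succ k ih =>
    cases k with
    | zero => simp [rp]
    | succ k => simpa [rp] using ih

lemma len_rp (P : ℕ → Fin 10) (k : ℕ) : (rp P k).length = k + 1 := by
  induction k with
  | zero => simp [rp]
  | succ k ih => simp [rp, ih]

lemma rp_lev (P : ℕ → Fin 10) (l : ℕ)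
    (hinj : ∀ s t, s ≤ l → t ≤ l → P s = P t → s = t)
    (hadj : ∀ s t, s ≤ l → t ≤ l → (G.Adj (P s) (P t) ↔ (s + 1 = t ∨ t + 1 = s))) :
    ∀ k ≤ l, rp P k ∈ lev k := by
  intro k
  induction k with
  | zero => intro _; simp [rp, lev]
  | succ k ih =>
    intro hk
    simp only [lev, List.mem_flatMap]
    refine ⟨rp P k, ih (by omega), ?_⟩
    simp only [ext, List.mem_map, List.mem_filter, List.mem_finRange, true_and, rp,
      Bool.and_eq_true, List.all_eq_true]
    refine ⟨P (k + 1), ⟨⟨?_, ?_⟩, ?_⟩, rfl⟩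
    · rw [head_rp]
      exact (hadj (k + 1) k hk (by omega)).mpr (Or.inr rfl)
    · intro x hx
      obtain ⟨s, hs, rfl⟩ := (mem_rp P k x).mp hx
      have : P s ≠ P (k + 1) := fun h => by have := hinj s (k + 1) (by omega) hk h; omega
      simpa using this
    · intro x hx
      obtain ⟨s, hs, rfl⟩ := mem_tail_rp P k x hx
      have : ¬ G.Adj (P (k + 1)) (P s) := fun h => by
        have := (hadj (k + 1) s hk (by omega)).mp h; omega
      simpa [G] using this

theorem lev7 : lev 7 = [] := by decide +kernel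

def allP : List (List (Fin 10)) := (List.range 7).flatMap lev

lemma rp_all (P : ℕ → Fin 10) (l : ℕ)
    (hinj : ∀ s t, s ≤ l → t ≤ l → P s = P t → s = t)
    (hadj : ∀ s t, s ≤ l → t ≤ l → (G.Adj (P s) (P t) ↔ (s + 1 = t ∨ t + 1 = s))) :
    rp P l ∈ allP := by
  have hl : l < 7 := by
    by_contra h
    have := rp_lev P l hinj hadj 7 (by omega)
    rw [lev7] at this
    simp at this
  exact List.mem_flatMap.mpr ⟨l, List.mem_range.mpr hl, rp_lev P l hinj hadj l le_rfl⟩

def thc (p q : List (Fin 10)) : Bool :=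
  Nat.ble 3 p.length && Nat.ble 3 q.length && p.headD 0 == q.headD 0 &&
  p.getLastD 0 == q.getLastD 0 &&
  p.all fun x => x == p.headD 0 || x == p.getLastD 0 ||
    q.all fun y => y == p.headD 0 || y == p.getLastD 0 || (x != y && !A x y)

def prc (p q : List (Fin 10)) : Bool :=
  Nat.ble 2 p.length && Nat.ble 2 q.length && A (p.headD 0) (q.headD 0) &&
  A (p.getLastD 0) (q.getLastD 0) &&
  p.all fun x => q.all fun y => x != y &&
    (!A x y || (x == p.headD 0 && y == q.headD 0) || (x == p.getLastD 0 && y == q.getLastD 0))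

def noTriple (c : List (Fin 10) → List (Fin 10) → Bool) (L : List (List (Fin 10))) : Bool :=
  L.all fun p => let M := L.filter (c p); M.all fun q => M.all fun r => !c q r

lemma noTriple_sound {c : List (Fin 10) → List (Fin 10) → Bool} {L : List (List (Fin 10))}
    (h : noTriple c L = true) {p q r : List (Fin 10)} (hp : p ∈ L) (hq : q ∈ L) (hr : r ∈ L)
    (h1 : c p q = true) (h2 : c p r = true) (h3 : c q r = true) : False := by
  simp only [noTriple, List.all_eq_true, List.mem_filter] at h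
  have := h p hp q ⟨hq, h1⟩ r ⟨hr, h2⟩
  simp [h3] at this

theorem th_ok : noTriple thc allP = true := by decide +kernel
theorem pr_ok : noTriple prc allP = true := by decide +kernel

theorem noTheta : ¬ ∃ (P : Fin 3 → ℕ → Fin 10) (l : Fin 3 → ℕ),
          (∀ i, 2 ≤ l i) ∧
          (∀ i j, P i 0 = P j 0 ∧ P i (l i) = P j (l j)) ∧
          (∀ i s t, s ≤ l i → t ≤ l i → P i s = P i t → s = t) ∧
          (∀ i s t, s ≤ l i → t ≤ l i →
            (G.Adj (P i s) (P i t) ↔ (s + 1 = t ∨ t + 1 = s))) ∧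
          (∀ i j s t, i ≠ j → 0 < s → s < l i → 0 < t → t < l j →
            P i s ≠ P j t ∧ ¬ G.Adj (P i s) (P j t)) := by
  rintro ⟨P, l, h1, h2, h3, h4, h5⟩
  have hm : ∀ i, rp (P i) (l i) ∈ allP := fun i => rp_all _ _ (h3 i) (h4 i)
  have hc : ∀ i j, i ≠ j → thc (rp (P i) (l i)) (rp (P j) (l j)) = true := by
    intro i j hij
    simp only [thc, head_rp, last_rp, len_rp, Bool.and_eq_true, Nat.ble_eq, beq_iff_eq,
      List.all_eq_true, Bool.or_eq_true, bne_iff_ne, Bool.not_eq_true']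
    refine ⟨⟨⟨⟨by have := h1 i; omega, by have := h1 j; omega⟩, (h2 i j).2⟩, (h2 i j).1⟩, ?_⟩
    intro x hx
    obtain ⟨s, hs, rfl⟩ := (mem_rp _ _ _).mp hx
    by_cases hs1 : s = l i
    · exact Or.inl (Or.inl (by rw [hs1]))
    by_cases hs0 : s = 0
    · exact Or.inl (Or.inr (by rw [hs0]))
    refine Or.inr fun y hy => ?_
    obtain ⟨t, ht, rfl⟩ := (mem_rp _ _ _).mp hy
    by_cases ht1 : t = l j
    · exact Or.inl (Or.inl (by rw [ht1]; exact (h2 j i).2))
    by_cases ht0 : t = 0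
    · exact Or.inl (Or.inr (by rw [ht0]; exact (h2 j i).1))
    have := h5 i j s t hij (by omega) (by omega) (by omega) (by omega)
    exact Or.inr ⟨this.1, Bool.eq_false_iff.mpr this.2⟩
  exact noTriple_sound th_ok (hm 0) (hm 1) (hm 2) (hc 0 1 (by decide)) (hc 0 2 (by decide))
    (hc 1 2 (by decide))

theorem noPrism : ¬ ∃ (P : Fin 3 → ℕ → Fin 10) (l : Fin 3 → ℕ),
          (∀ i, 1 ≤ l i) ∧
          (∀ i j s t, s ≤ l i → t ≤ l j → P i s = P j t → (i = j ∧ s = t)) ∧
          (∀ i j s t, s ≤ l i → t ≤ l j →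
            (G.Adj (P i s) (P j t) ↔
              ((i = j ∧ (s + 1 = t ∨ t + 1 = s)) ∨
               (i ≠ j ∧ ((s = 0 ∧ t = 0) ∨ (s = l i ∧ t = l j)))))) := by
  rintro ⟨P, l, h1, h2, h3⟩
  have hm : ∀ i, rp (P i) (l i) ∈ allP := fun i =>
    rp_all _ _ (fun s t hs ht h => (h2 i i s t hs ht h).2)
      (fun s t hs ht => by simpa using h3 i i s t hs ht)
  have hc : ∀ i j, i ≠ j → prc (rp (P i) (l i)) (rp (P j) (l j)) = true := by
    intro i j hij
    simp only [prc, head_rp, last_rp, len_rp, Bool.and_eq_true, Nat.ble_eq, beq_iff_eq,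
      List.all_eq_true, Bool.or_eq_true, bne_iff_ne, Bool.not_eq_true']
    refine ⟨⟨⟨⟨by have := h1 i; omega, by have := h1 j; omega⟩, ?_⟩, ?_⟩, ?_⟩
    · exact (h3 i j _ _ le_rfl le_rfl).mpr (Or.inr ⟨hij, Or.inr ⟨rfl, rfl⟩⟩)
    · exact (h3 i j 0 0 (by omega) (by omega)).mpr (Or.inr ⟨hij, Or.inl ⟨rfl, rfl⟩⟩)
    · intro x hx y hy
      obtain ⟨s, hs, rfl⟩ := (mem_rp _ _ _).mp hx
      obtain ⟨t, ht, rfl⟩ := (mem_rp _ _ _).mp hy
      refine ⟨fun h => hij (h2 i j s t hs ht h).1, ?_⟩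
      by_cases ha : G.Adj (P i s) (P j t)
      · rcases (h3 i j s t hs ht).mp ha with ⟨h, _⟩ | ⟨_, ⟨rfl, rfl⟩ | ⟨rfl, rfl⟩⟩
        · exact absurd h hij
        · exact Or.inr ⟨rfl, rfl⟩
        · exact Or.inl (Or.inr ⟨rfl, rfl⟩)
      · exact Or.inl (Or.inl (Bool.eq_false_iff.mpr ha))
  exact noTriple_sound pr_ok (hm 0) (hm 1) (hm 2) (hc 0 1 (by decide)) (hc 0 2 (by decide))
    (hc 1 2 (by decide))

def nb (c : Fin 10) (h : List (Fin 10)) : ℕ :=
  (Finset.univ.filter fun x : Fin 10 => x ∈ h ∧ A c x = true).card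

set_option synthInstance.maxSize 5000 in
theorem wh_ok : ∀ p ∈ allP, 3 ≤ p.length → ∀ w : Fin 10, A w (p.headD 0) = true →
    A w (p.getLastD 0) = true → w ∉ p →
    (∀ x ∈ p, A w x = true → x = p.headD 0 ∨ x = p.getLastD 0) →
    ∀ c : Fin 10, c ∉ w :: p → 3 ≤ nb c (w :: p) → nb c (w :: p) % 2 = 1 := by
  decide +kernel

theorem noWheel : ¬ ∃ (m : ℕ) (f : Fin m → Fin 10) (c : Fin 10),
          4 ≤ m ∧ Function.Injective f ∧
          (∀ i j : Fin m, G.Adj (f i) (f j) ↔
            (((i : ℕ) + 1) % m = (j : ℕ) ∨ ((j : ℕ) + 1) % m = (i : ℕ))) ∧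
          (∀ i, f i ≠ c) ∧
          3 ≤ Nat.card {i : Fin m // G.Adj c (f i)} ∧
          Even (Nat.card {i : Fin m // G.Adj c (f i)}) := by
  rintro ⟨m, f, c, hm, hinj, hadj, hc, h3, hev⟩
  obtain ⟨k, rfl⟩ : ∃ k, m = k + 2 := ⟨m - 2, by omega⟩
  let P : ℕ → Fin 10 := fun s => if h : s < k + 2 then f ⟨s, h⟩ else c
  have hP : ∀ s (h : s < k + 2), P s = f ⟨s, h⟩ := fun s h => dif_pos h
  have hmod : ∀ s, s ≤ k → (s + 1) % (k + 2) = s + 1 := fun s hs => Nat.mod_eq_of_lt (by omega)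
  have hmem : rp P k ∈ allP := by
    apply rp_all
    · intro s t hs ht h
      rw [hP s (by omega), hP t (by omega)] at h
      simpa using hinj h
    · intro s t hs ht
      rw [hP s (by omega), hP t (by omega), hadj]
      simp only [hmod s hs, hmod t ht]
  let w := f ⟨k + 1, by omega⟩
  have hw : ∀ s (hs : s ≤ k), G.Adj w (P s) ↔ (s = 0 ∨ s = k) := by
    intro s hs
    rw [hP s (by omega), hadj]
    simp only [hmod s hs, Nat.mod_self]
    omega
  have hcard : Nat.card {i : Fin (k + 2) // G.Adj c (f i)} = nb c (w :: rp P k) := by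
    rw [Nat.card_eq_fintype_card, Fintype.card_subtype, nb,
      ← Finset.card_image_of_injective _ hinj]
    congr 1
    ext x
    simp only [Finset.mem_image, Finset.mem_filter, Finset.mem_univ, true_and, List.mem_cons,
      mem_rp]
    constructor
    · rintro ⟨i, hi, rfl⟩
      refine ⟨?_, hi⟩
      by_cases h : (i : ℕ) = k + 1
      · left
        exact congrArg f (Fin.ext h)
      · right
        exact ⟨i, by have := i.2; omega, (hP i i.2).symm⟩
    · rintro ⟨h | ⟨s, hs, h⟩, hx⟩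
      · exact ⟨⟨k + 1, by omega⟩, h ▸ hx, h.symm⟩
      · rw [hP s (by omega)] at h
        exact ⟨⟨s, by omega⟩, h ▸ hx, h.symm⟩
  rw [hcard] at h3 hev
  have := wh_ok _ hmem (by rw [len_rp]; omega) w
    (by rw [head_rp]; exact (hw k le_rfl).mpr (Or.inr rfl))
    (by rw [last_rp]; exact (hw 0 (by omega)).mpr (Or.inl rfl))
    (by
      intro h
      obtain ⟨s, hs, h⟩ := (mem_rp _ _ _).mp h
      rw [hP s (by omega)] at h
      have := congrArg Fin.val (hinj h)
      simp only at this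
      omega)
    (by
      intro x hx ha
      obtain ⟨s, hs, rfl⟩ := (mem_rp _ _ _).mp hx
      rw [head_rp, last_rp]
      rcases (hw s hs).mp ha with rfl | rfl
      · exact Or.inr rfl
      · exact Or.inl rfl) c
    (by
      intro h
      rcases List.mem_cons.mp h with h | h
      · exact hc _ h.symm
      · obtain ⟨s, hs, h⟩ := (mem_rp _ _ _).mp h
        rw [hP s (by omega)] at h
        exact hc _ h.symm) h3
  obtain ⟨r, hr⟩ := hev
  omega

def cl : Fin 10 → Fin 3 ⊕ Fin 3 :=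
  ![.inl 2, .inr 0, .inl 0, .inr 2, .inl 2, .inr 2, .inl 1, .inr 0, .inr 1, .inl 0]

def root : Fin 3 ⊕ Fin 3 → Fin 10 := Sum.elim ![2, 6, 0] ![1, 8, 3]

theorem minor : ∃ B : Fin 3 ⊕ Fin 3 → Set (Fin 10),
          (∀ x, (G.induce (B x)).Connected) ∧
          (∀ x y, x ≠ y → Disjoint (B x) (B y)) ∧
          (∀ x y, x ≠ y →
            ((∃ u ∈ B x, ∃ v ∈ B y, G.Adj u v) ↔
              (completeBipartiteGraph (Fin 3) (Fin 3)).Adj x y)) := by
  refine ⟨fun x => {v | cl v = x}, ?_, ?_, ?_⟩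
  · intro x
    have h1 : ∀ x, cl (root x) = x := by decide
    have h2 : ∀ v, v = root (cl v) ∨ G.Adj (root (cl v)) v := by decide
    rw [SimpleGraph.connected_iff_exists_forall_reachable]
    refine ⟨⟨root x, h1 x⟩, ?_⟩
    rintro ⟨v, hv⟩
    have hv' : cl v = x := hv
    subst hv'
    rcases h2 v with h | h
    · have : (⟨root (cl v), h1 _⟩ : {u | cl u = cl v}) = ⟨v, hv⟩ := Subtype.ext h.symm
      rw [this]
    · exact SimpleGraph.Adj.reachable (by simpa using h)
  · intro x y hxy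
    rw [Set.disjoint_left]
    intro v h1 h2
    exact hxy (h1.symm.trans h2)
  · have : ∀ x y : Fin 3 ⊕ Fin 3, x ≠ y → ((∃ u, cl u = x ∧ ∃ v, cl v = y ∧ G.Adj u v) ↔
        (x.isLeft = true ∧ y.isRight = true ∨ x.isRight = true ∧ y.isLeft = true)) := by decide
    intro x y hxy
    exact this x y hxy

end Pool.Agent.H25.OddSign
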