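import Mathlib
import Pool.Agent.H25.Harb1

namespace H25.Harb

open Finset Pointwise Pool.Agent.H2.Kneser

theorem pf (d : ℕ) : d % 3 = 2 → ∃ r, r.Prime ∧ r ∣ d ∧ r % 3 = 2 := by
  induction d using induction_on_primes with
  | zero => omega
  | one => omega
  | prime_mul r a hr ih =>
    intro h
    by_cases h1 : r % 3 = 2
    · exact ⟨r, hr, dvd_mul_right _ _, h1⟩
    · have : a % 3 = 2 := by
        rw [Nat.mul_mod] at h
        have : r % 3 = 0 ∨ r % 3 = 1 := by omega
        rcases this with e | e <;> rw [e] at h <;> omega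
      obtain ⟨u, h1, h2, h3⟩ := ih this
      exact ⟨u, h1, h2.mul_left _, h3⟩

theorem crit (p c0 : ℕ) (hp : p + 1 = 3 * c0) : ∃ n0 : ℕ, ∀ (G : Type) [AddCommGroup G]
    [DecidableEq G] [Fintype G], (∀ x y : G, x + x = y + y → x = y) → ∀ s0, n0 ≤ s0 →
    Fintype.card G = p * s0 → (∀ r, r.Prime → r ∣ p * s0 → r % 3 = 2 → p ≤ r) →
    ∀ A : Finset G, A.card = c0 * s0 + 1 → ∀ t, ∃ R ⊆ A, R.card = 3 ∧ ∑ y ∈ R, y = t := by
  have hp2 : 2 ≤ p := by omega
  obtain ⟨n0, hn0⟩ := badsmall 3 (p * (3 * (p + 1))) (by positivity)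
  refine ⟨n0 + 2, fun G _ _ _ h2 s0 hs0 hG hr A hA t => ?_⟩
  have hb := hn0 G (by rw [hG]; nlinarith) A
  rw [hG, mul_assoc] at hb
  have hb' := Nat.lt_of_mul_lt_mul_left hb
  have hsp := card_filter_add_card_filter_not (s := A) (fun a => 2 * 3 < (rep A a).card)
  set J := A.filter fun a => 2 * 3 < (rep A a).card with hJ
  generalize (A.filter fun a => ¬ 2 * 3 < (rep A a).card).card = b at *
  by_cases ht : t ∈ (2 + 1) • J
  · exact fix h2 A 3 3 le_rfl _ ht
  have hc0 : s0 ≤ c0 * s0 := Nat.le_mul_of_pos_left _ (by omega)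
  have hbs : 9 * b ≤ 3 * (p + 1) * b := Nat.mul_le_mul_right _ (by omega)
  have hne : J.Nonempty := card_pos.1 (by omega)
  obtain ⟨d, c, h1, h3, h4, h5⟩ := kneser_num hne 2 (fun e => ht (e ▸ mem_univ _))
  have sg := sg_st ((2 + 1) • J)
  set K := st ((2 + 1) • J) with hK
  have h6 := card_le_card (sg.subset_add J)
  have hs := sg.pos
  rw [hG] at h1
  rw [h3] at h6
  have h7 : d * ((p + 1) * (p + 1)) < 3 * c * (p * (p + 1)) + d := by
    have a1 : c0 * s0 < c * K.card + b := by omega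
    have a2 : (p + 1) * (p + 1) * s0 < 3 * (p + 1) * (c * K.card) + s0 := by
      have : (p + 1) * (p + 1) * s0 = 3 * (p + 1) * (c0 * s0) := by
        rw [show (p + 1) * (p + 1) = (p + 1) * (3 * c0) by rw [← hp]]; ring
      rw [this]
      nlinarith [Nat.mul_le_mul_left (3 * (p + 1)) a1.le]
    have hd0 : 0 < d := by omega
    have a3 := Nat.mul_lt_mul_of_pos_left a2 hd0
    have a4 : d * (3 * (p + 1) * (c * K.card) + s0) = (3 * c * (p * (p + 1)) + d) * s0 := by
      have : d * (3 * (p + 1) * (c * K.card)) = 3 * (p + 1) * c * (d * K.card) := by ring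
      rw [mul_add, this, ← h1]; ring
    rw [a4, ← mul_assoc] at a3
    exact Nat.lt_of_mul_lt_mul_right a3
  have h8 : 3 * c = d + 1 := by
    by_contra hc
    have := Nat.mul_le_mul_right (p * (p + 1)) (show 3 * c ≤ d by omega)
    nlinarith [Nat.zero_le (d * p)]
  have h9 : d ≤ p := by
    by_contra hc
    rw [h8] at h7
    have := Nat.mul_le_mul_right p (show p + 1 ≤ d by omega)
    nlinarith
  obtain ⟨r, r1, r2, r3⟩ := pf d (by omega)
  have h10 := hr r r1 (r2.trans (h1 ▸ dvd_mul_right _ _)) r3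
  have h11 := Nat.le_of_dvd (by omega) r2
  have hdp : d = p := by omega
  have hcc : c = c0 := by omega
  rw [hdp] at h1
  have hKc : K.card = s0 := (Nat.eq_of_mul_eq_mul_left (by omega) h1).symm
  rw [hcc, hKc] at h3
  set S := J + K with hS
  have hper : Per K S := sg.per_add J
  have e3 : S + S + S = (2 + 1) • J := by
    rw [← add_st ((2 + 1) • J), ← sg.nsmul_add, succ_nsmul, two_nsmul]
  have hst : st (S + S) = K :=
    Subset.antisymm (by rw [hK, ← e3]; exact st_mono _ _) (hper.add_right S).subset_st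
  have hSne : S.Nonempty := hne.mono (sg.subset_add J)
  have kn := kneser hSne hSne
  rw [hst, hper.add_eq sg, h3, hKc] at kn
  obtain ⟨x, hxA, hxS⟩ := exists_mem_notMem_of_card_lt_card (s := S) (t := A) (by omega)
  have hdis : Disjoint (S + S) (S.image fun y => t - y) := by
    rw [disjoint_left]
    intro z h12 h13
    obtain ⟨y, hy, rfl⟩ := mem_image.1 h13
    exact ht (e3 ▸ mem_add.2 ⟨_, h12, y, hy, sub_add_cancel _ _⟩)
  have hall : (S + S) ∪ (S.image fun y => t - y) = univ := by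
    apply eq_univ_of_card
    refine le_antisymm (card_le_univ _) ?_
    rw [card_union_of_disjoint hdis, card_image_of_injective _ sub_right_injective, h3, hG]
    have : (p + 1) * s0 = 3 * (c0 * s0) := by rw [hp]; ring
    rw [add_mul] at this
    omega
  have hx2 : t - x ∈ S + S := by
    rcases mem_union.1 (hall ▸ mem_univ (t - x)) with h | h
    · exact h
    · obtain ⟨y, hy, e⟩ := mem_image.1 h
      exact absurd (sub_right_injective e ▸ hy) hxS
  obtain ⟨y, hy, z, hz, e⟩ := mem_add.1 hx2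
  have hsd := card_sdiff_of_subset (sg.subset_add J)
  have big : ∀ w ∈ S, s0 ≤ (J ∩ (w +ᵥ K)).card + b := by
    intro w hw
    have a1 := card_sdiff_add_card_inter (w +ᵥ K) J
    have a2 : (w +ᵥ K) \ J ⊆ S \ J := sdiff_subset_sdiff (fun v hv => by
      have := hper w hw _ (sg.mem_coset.1 hv)
      rwa [add_sub_cancel] at this) (Subset.refl _)
    have a3 := card_le_card a2
    rw [card_vadd_finset, inter_comm] at a1
    rw [← hS] at hsd
    omega
  have hun : ((J ∩ (y +ᵥ K)) ∪ (J ∩ (z +ᵥ K)).image fun a => t - x - a).card ≤ s0 := by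
    rw [← hKc, ← card_vadd_finset y K]
    refine card_le_card (union_subset inter_subset_right fun a ha => ?_)
    obtain ⟨v, hv, rfl⟩ := mem_image.1 ha
    have := sg.neg (sg.mem_coset.1 (mem_inter.1 hv).2)
    rw [sg.mem_coset, ← e]
    rwa [show -(v - z) = y + z - v - y by abel] at this
  have hin := card_union_add_card_inter (J ∩ (y +ᵥ K)) ((J ∩ (z +ᵥ K)).image fun a => t - x - a)
  rw [card_image_of_injective _ sub_right_injective] at hin
  have b1 := big y hy
  have b2 := big z hz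
  obtain ⟨a, ha, hat⟩ : ∃ a ∈ (J ∩ (y +ᵥ K)) ∩ (J ∩ (z +ᵥ K)).image (fun a => t - x - a),
      a + a ≠ t - x := by
    obtain ⟨a, ha, a', ha', hab⟩ := one_lt_card.1 (show 1 < ((J ∩ (y +ᵥ K)) ∩
      (J ∩ (z +ᵥ K)).image fun a => t - x - a).card by omega)
    by_cases h : a + a = t - x
    · exact ⟨a', ha', fun h' => hab (h2 _ _ (h.trans h'.symm))⟩
    · exact ⟨a, ha, h⟩
  obtain ⟨ha1, ha2⟩ := mem_inter.1 ha
  obtain ⟨v, hv, e'⟩ := mem_image.1 ha2
  have haJ := (mem_inter.1 ha1).1
  have hvJ := (mem_inter.1 hv).1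
  have hav : a ≠ v := fun h => hat (by rw [← h] at e'; exact (sub_eq_iff_eq_add.1 e').symm)
  have hx3 : x ∉ ({a, v} : Finset G) := by
    simp only [mem_insert, mem_singleton, not_or]
    exact ⟨fun h => hxS (h ▸ sg.subset_add J haJ), fun h => hxS (h ▸ sg.subset_add J hvJ)⟩
  refine ⟨insert x {a, v}, insert_subset hxA (insert_subset (mem_filter.1 haJ).1
    (singleton_subset_iff.2 (mem_filter.1 hvJ).1)), ?_, ?_⟩
  · rw [card_insert_of_notMem hx3, card_pair hav]
  · rw [sum_insert hx3, sum_pair hav, ← e']; abel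

end H25.Harb
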