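import Mathlib
import Pool.Agent.H25.Harb1

namespace H25.Harb

open Finset Pointwise

/-- The union of the first `c` cosets of the subgroup of order `d` in `ZMod (e * d)`. -/
def box (e d c : ℕ) : Finset (ZMod (e * d)) :=
  (range c ×ˢ range d).image fun q => ((q.1 + e * q.2 : ℕ) : ZMod (e * d))

theorem box_le (e d c : ℕ) : (box e d c).card ≤ c * d :=
  card_image_le.trans (by rw [card_product, card_range, card_range])

theorem box_eq (e d c : ℕ) (hc : c ≤ e) : (box e d c).card = c * d := by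
  unfold box
  rw [card_image_of_injOn, card_product, card_range, card_range]
  intro q hq r hr h
  obtain ⟨p1, p2⟩ := mem_product.1 (mem_coe.1 hq)
  obtain ⟨r1, r2⟩ := mem_product.1 (mem_coe.1 hr)
  rw [mem_range] at p1 p2 r1 r2
  have b1 := Nat.mul_le_mul_left e (show q.2 + 1 ≤ d from p2)
  have b2 := Nat.mul_le_mul_left e (show r.2 + 1 ≤ d from r2)
  rw [Nat.mul_succ] at b1 b2
  have e2 := congrArg ZMod.val h
  simp only at e2
  rw [ZMod.val_cast_of_lt (by omega), ZMod.val_cast_of_lt (by omega)] at e2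
  have e1 := congrArg (· % e) e2
  simp only [Nat.add_mul_mod_self_left] at e1
  rw [Nat.mod_eq_of_lt (by omega), Nat.mod_eq_of_lt (by omega)] at e1
  exact Prod.ext e1 (Nat.eq_of_mul_eq_mul_left (show 0 < e by omega) (by omega))

theorem box_add (e d a c : ℕ) (hd : 0 < d) {x y : ZMod (e * d)} (hx : x ∈ box e d (a + 1))
    (hy : y ∈ box e d (c + 1)) : x + y ∈ box e d (a + c + 1) := by
  obtain ⟨q, hq, rfl⟩ := mem_image.1 hx
  obtain ⟨r, hr, rfl⟩ := mem_image.1 hy
  obtain ⟨p1, -⟩ := mem_product.1 hq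
  obtain ⟨r1, -⟩ := mem_product.1 hr
  rw [mem_range] at p1 r1
  refine mem_image.2 ⟨(q.1 + r.1, (q.2 + r.2) % d),
    mem_product.2 ⟨mem_range.2 (by simp only; omega), mem_range.2 (Nat.mod_lt _ hd)⟩, ?_⟩
  rw [← Nat.cast_add, ZMod.natCast_eq_natCast_iff']
  have := Nat.mod_add_div (q.2 + r.2) d
  rw [show q.1 + e * q.2 + (r.1 + e * r.2) =
    q.1 + r.1 + e * ((q.2 + r.2) % d) + e * d * ((q.2 + r.2) / d) by
      rw [add_assoc (q.1 + r.1), mul_assoc, ← mul_add, this]; ring, Nat.add_mul_mod_self_left]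

theorem tors (n : ℕ) [NeZero n] (a x y : ZMod n) (hx : x + x = a + a) (hy : y + y = a + a)
    (h1 : x ≠ a) (h2 : y ≠ a) : x = y := by
  have e1 : -(x - a) = x - a := by linear_combination -hx
  have e2 : -(y - a) = y - a := by linear_combination -hy
  have a1 := ((ZMod.neg_eq_self_iff _).1 e1).resolve_left (sub_ne_zero.2 h1)
  have a2 := ((ZMod.neg_eq_self_iff _).1 e2).resolve_left (sub_ne_zero.2 h2)
  have a3 : x - a = y - a := ZMod.val_injective n (by omega)
  exact sub_left_injective a3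

end H25.Harb
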