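import Mathlib
import Pool.Agent.H25.Rmin

namespace H25.Harb

open Finset Pointwise Pool.Agent.H2.Kneser

theorem k3 {G : Type} [AddCommGroup G] [DecidableEq G] [Fintype G] {X Y Z : Finset G}
    (hX : X.Nonempty) (hY : Y.Nonempty) (hZ : Z.Nonempty) :
    (X + st (X + Y + Z)).card + (Y + st (X + Y + Z)).card + (Z + st (X + Y + Z)).card ≤
      (X + Y + Z).card + 2 * (st (X + Y + Z)).card := by
  have k1 := kneser (hX.add hY) hZ
  have sg := sg_st (X + Y + Z)
  have e0 := add_st (X + Y + Z)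
  set K := st (X + Y + Z) with hK
  have eK : K + K = K := Per.add_eq sg (fun x hx k hk => sg.add hx hk)
  have e1 : X + K + (Y + K) = X + Y + K := by rw [add_add_add_comm, eK]
  have hst : st (X + K + (Y + K)) = K := by
    refine Subset.antisymm ?_ ((sg.per_add X).add_right _).subset_st
    have := st_mono (X + K + (Y + K)) Z
    rwa [show X + K + (Y + K) + Z = X + Y + Z by rw [e1, add_right_comm, e0]] at this
  have k2 := kneser (hX.mono (sg.subset_add X)) (hY.mono (sg.subset_add Y))
  rw [hst, (sg.per_add X).add_eq sg, (sg.per_add Y).add_eq sg, e1] at k2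
  omega

theorem tri {G : Type} [AddCommGroup G] [DecidableEq G] {A : Finset G} {x y z : G} (hx : x ∈ A)
    (hy : y ∈ A) (hz : z ∈ A) (h1 : x ≠ y) (h2 : x ≠ z) (h3 : y ≠ z) :
    x + y + z ∈ (A.powersetCard 3).image (fun B : Finset G => ∑ x ∈ B, x) := by
  have h4 : x ∉ ({y, z} : Finset G) := by simp [h1, h2]
  refine mem_image.2 ⟨{x, y, z}, mem_powersetCard.2 ⟨insert_subset hx (insert_subset hy
    (singleton_subset_iff.2 hz)), by rw [card_insert_of_notMem h4, card_pair h3]⟩, ?_⟩
  rw [sum_insert h4, sum_pair h3, add_assoc]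

theorem spl (n : ℕ) [NeZero n] (A : Finset (ZMod n)) (a x : ZMod n) (hx : x ∈ A)
    (h : 2 * 2 < (rep A a).card) :
    a + a + x ∈ (A.powersetCard 3).image (fun B : Finset (ZMod n) => ∑ x ∈ B, x) := by
  have h1 := le_card_sdiff ({x, a + a - x} : Finset (ZMod n)) (rep A a)
  have h2 : ({x, a + a - x} : Finset (ZMod n)).card ≤ 2 := card_le_two
  obtain ⟨y, hy, z, hz, hyz⟩ := one_lt_card.1
    (show 1 < (rep A a \ {x, a + a - x}).card by omega)
  obtain ⟨w, hw, hw2⟩ : ∃ w ∈ rep A a \ {x, a + a - x}, w + w ≠ a + a := by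
    by_contra hc
    push Not at hc
    exact hyz (tors n a y z (hc y hy) (hc z hz) (mem_filter.1 (mem_sdiff.1 hy).1).2.2
      (mem_filter.1 (mem_sdiff.1 hz).1).2.2)
  obtain ⟨w0, w3⟩ := mem_sdiff.1 hw
  obtain ⟨w1, w2, -⟩ := mem_filter.1 w0
  rw [mem_insert, mem_singleton, not_or] at w3
  have := tri w1 w2 hx (fun e => hw2 (eq_sub_iff_add_eq.1 e)) w3.1
    (fun e => w3.2 (by rw [← e]; abel))
  rwa [add_sub_cancel] at this

theorem core3 (M : ℕ) (hM : 0 < M) : ∃ n0 : ℕ, ∀ n m U : ℕ, n0 ≤ n →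
    (∀ d c, d ∣ n → 0 < d → m ≤ d * c → U + 2 * d ≤ 3 * (d * c) ∨ c = 0) →
    M * U + n ≤ 3 * M * m → ∀ A : Finset (ZMod n), A.card = m →
    min U (3 * m - 3 - Nat.gcd n (m - 1)) ≤
      ((A.powersetCard 3).image (fun B : Finset (ZMod n) => ∑ x ∈ B, x)).card := by
  obtain ⟨n0, hn0⟩ := badsmall 2 (3 * M) (by omega)
  refine ⟨n0 + 1, fun n m U hn u_le h A hA => ?_⟩
  have : NeZero n := ⟨by omega⟩
  have hb := hn0 (ZMod n) (by rw [ZMod.card]; omega) A
  rw [ZMod.card] at hb
  have hsp := card_filter_add_card_filter_not (s := A) (fun a => 2 * 2 < (rep A a).card)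
  set J := A.filter fun a => 2 * 2 < (rep A a).card with hJ
  generalize (A.filter fun a => ¬ 2 * 2 < (rep A a).card).card = b at *
  set R := (A.powersetCard 3).image (fun B : Finset (ZMod n) => ∑ x ∈ B, x) with hR
  have hJA : J ⊆ A := filter_subset _ _
  have hu : U < 3 * J.card := by
    have : 3 * M * m = M * (3 * J.card) + 3 * M * b := by rw [← hA, ← hsp]; ring
    exact Nat.lt_of_mul_lt_mul_left (a := M) (by omega)
  have hne : J.Nonempty := card_pos.1 (by omega)
  have hAne : A.Nonempty := hne.mono hJA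
  have F1 := min_le_left U (3 * m - 3 - Nat.gcd n (m - 1))
  have F2 := min_le_right U (3 * m - 3 - Nat.gcd n (m - 1))
  generalize min U (3 * m - 3 - Nat.gcd n (m - 1)) = F at *
  have hdiv : ∀ K : Finset (ZMod n), Sg K → K.card ∣ n := fun K sg => by
    have := Per.card_dvd sg (fun x hx k hk => mem_univ _ : Per K univ)
    rwa [card_univ, ZMod.card] at this
  have s1 : J + J + A ⊆ R := by
    intro t ht
    obtain ⟨v, hv, x, hx, rfl⟩ := mem_add.1 ht
    obtain ⟨a, ha, a', ha', rfl⟩ := mem_add.1 hv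
    by_cases e : a = a'
    · subst e; exact spl n A a x hx (mem_filter.1 ha).2
    by_cases e1 : a = x
    · subst e1; rw [add_right_comm]; exact spl n A a a' (hJA ha') (mem_filter.1 ha).2
    by_cases e2 : a' = x
    · subst e2; rw [add_assoc, add_comm]; exact spl n A a' a (hJA ha) (mem_filter.1 ha').2
    exact tri (hJA ha) (hJA ha') hx e e1 e2
  have c1 := card_le_card s1
  have kn := k3 hne hne hAne
  have sg := sg_st (J + J + A)
  have e0 := add_st (J + J + A)
  set K := st (J + J + A) with hK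
  obtain ⟨c', hc'⟩ := (sg.per_add J).card_dvd sg
  obtain ⟨c, hc⟩ := (sg.per_add A).card_dvd sg
  have h1 := card_le_card (sg.subset_add J)
  have h2 := card_le_card (sg.subset_add A)
  have hsub : J + K ⊆ A + K := add_subset_add_right hJA
  have h3 := card_le_card hsub
  have hs0 := sg.pos
  have hd := hdiv K sg
  by_cases q1 : m ≤ K.card * c'
  · rcases u_le _ c' hd hs0 q1 with q | q
    · omega
    · rw [q] at hc'; omega
  have q2 : c' + 1 ≤ c := Nat.lt_of_mul_lt_mul_left (a := K.card) (by omega)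
  have q3 := Nat.mul_le_mul_left K.card q2
  rw [Nat.mul_succ] at q3
  by_cases q4 : m = K.card * c' + 1
  · have := Nat.le_of_dvd (Nat.gcd_pos_of_pos_left _ (by omega))
      (Nat.dvd_gcd hd (show K.card ∣ m - 1 from ⟨c', by omega⟩))
    omega
  by_cases q5 : c' + 2 ≤ c
  · have := Nat.mul_le_mul_left K.card q5
    rw [mul_add] at this
    omega
  have q6 : c = c' + 1 := by omega
  rw [q6, Nat.mul_succ] at hc
  have s2 : J + A + A ⊆ R := by
    have hin : ∀ a ∈ J, ∀ x ∈ J + K, ∀ y ∈ A, a + x + y ∈ R := by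
      intro a ha x hx y hy
      obtain ⟨a', ha', k, hk, rfl⟩ := mem_add.1 hx
      apply s1
      rw [← e0, show a + (a' + k) + y = a + a' + y + k by abel]
      exact add_mem_add (add_mem_add (add_mem_add ha ha') hy) hk
    intro t ht
    obtain ⟨v, hv, y, hy, rfl⟩ := mem_add.1 ht
    obtain ⟨a, ha, x, hx, rfl⟩ := mem_add.1 hv
    by_cases x1 : x ∈ J + K
    · exact hin a ha x x1 y hy
    by_cases y1 : y ∈ J + K
    · rw [add_right_comm]; exact hin a ha y y1 x hx
    have ec : y +ᵥ K = (A + K) \ (J + K) := by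
      refine eq_of_subset_of_card_le (fun v hv => ?_)
        (by rw [card_sdiff_of_subset hsub, card_vadd_finset]; omega)
      have hv' := sg.mem_coset.1 hv
      refine mem_sdiff.2 ⟨vadd_finset_subset_add hy hv, fun hh => y1 ?_⟩
      have := sg.per_add J v hh _ (sg.neg hv')
      rwa [show v + -(v - y) = y by abel] at this
    have r1 := card_sdiff_add_card_inter A (J + K)
    have r2 := card_sdiff_add_card_inter (J + K) A
    rw [inter_comm] at r2
    have r3 := card_erase_of_mem (mem_sdiff.2 ⟨hx, x1⟩ : x ∈ A \ (J + K))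
    obtain ⟨w, hw, hw2⟩ := exists_mem_notMem_of_card_lt_card (s := (J + K) \ A)
      (t := ((A \ (J + K)).erase x).image fun z => a + y - z)
      (by rw [card_image_of_injective _ sub_right_injective]; omega)
    obtain ⟨z, hz, rfl⟩ := mem_image.1 hw
    obtain ⟨z1, z2⟩ := mem_erase.1 hz
    obtain ⟨z3, z4⟩ := mem_sdiff.1 z2
    have z5 : z - y ∈ K := sg.mem_coset.1 (ec ▸ mem_sdiff.2 ⟨sg.subset_add A z3, z4⟩)
    have z6 : a + y - z ∈ J + K := by
      rw [show a + y - z = a + -(z - y) by abel]; exact add_mem_add ha (sg.neg z5)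
    have z7 : a + y - z ∈ A := by
      by_contra hh; exact hw2 (mem_sdiff.2 ⟨z6, hh⟩)
    have := tri hx z3 z7 z1.symm (fun e => x1 (e ▸ z6)) (fun e => z4 (e ▸ z6))
    rwa [show x + z + (a + y - z) = a + x + y by abel] at this
  have c2 := card_le_card s2
  have kn2 := k3 hne hAne hAne
  have sg2 := sg_st (J + A + A)
  set L := st (J + A + A) with hL
  obtain ⟨g', hg'⟩ := (sg2.per_add J).card_dvd sg2
  obtain ⟨g, hg⟩ := (sg2.per_add A).card_dvd sg2
  have j1 := card_le_card (sg2.subset_add J)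
  have j2 := card_le_card (sg2.subset_add A)
  have j3 := card_le_card (add_subset_add_right hJA : J + L ⊆ A + L)
  by_cases p1 : m ≤ L.card * g'
  · rcases u_le _ g' (hdiv L sg2) sg2.pos p1 with q | q
    · omega
    · rw [q] at hg'; omega
  have p2 : g' + 1 ≤ g := Nat.lt_of_mul_lt_mul_left (a := L.card) (by omega)
  have p3 := Nat.mul_le_mul_left L.card p2
  rw [Nat.mul_succ] at p3
  omega

theorem box_mono (e d : ℕ) {a c : ℕ} (h : a ≤ c) : box e d a ⊆ box e d c :=
  image_subset_image (product_subset_product_left (range_subset_range.2 h))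

end H25.Harb
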