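import Mathlib

set_option autoImplicit false

/-! A counting version of the symmetric local lemma for Boolean variables. -/

namespace Pool.Agent.H25.Rosenfeld

open Finset

variable {ι κ : Type} [DecidableEq ι]

/-- Assignments on `S` (given by their true sets) avoiding all events supported inside `S`. -/
def good (Ev : Finset κ) (vars pat : κ → Finset ι) (S : Finset ι) : Finset (Finset ι) :=
  S.powerset.filter (fun T => ∀ B ∈ Ev, vars B ⊆ S → T ∩ vars B ≠ pat B)

lemma good_restrict {Ev : Finset κ} {vars pat : κ → Finset ι} {S T : Finset ι} (U : Finset ι)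
    (h : T ∈ good Ev vars pat S) : T \ U ∈ good Ev vars pat (S \ U) := by
  simp only [good, mem_filter, mem_powerset] at h ⊢
  refine ⟨sdiff_subset_sdiff h.1 (Subset.refl _), fun B hB hsub => ?_⟩
  have e : (T \ U) ∩ vars B = T ∩ vars B := by
    ext y
    simp only [mem_inter, mem_sdiff]
    constructor
    · rintro ⟨⟨h1, -⟩, h2⟩; exact ⟨h1, h2⟩
    · rintro ⟨h1, h2⟩; exact ⟨⟨h1, (mem_sdiff.1 (hsub h2)).2⟩, h2⟩
  rw [e]
  exact h.2 B hB (hsub.trans sdiff_subset)

lemma step (Ev : Finset κ) (vars pat : κ → Finset ι) (n : ℕ) (β D : ℝ) (hβ : 0 < β)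
    (hn : ∀ B ∈ Ev, (vars B).card = n + 1)
    (hD : ∀ x, ((Ev.filter (fun B => x ∈ vars B)).card : ℝ) ≤ D)
    (hDβ : D ≤ (2 - β) * β ^ n) (S : Finset ι) :
    ∀ x ∈ S, β * (good Ev vars pat (S.erase x)).card ≤ (good Ev vars pat S).card := by
  induction S using Finset.strongInduction with
  | H S ih =>
    intro x hx
    have multi : ∀ U : Finset ι, ∀ S' ⊂ S, U ⊆ S' →
        β ^ U.card * (good Ev vars pat (S' \ U)).card ≤ (good Ev vars pat S').card := by
      intro U
      induction U using Finset.induction_on with
      | empty => intro S' _ _; simp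
      | insert u U hu ihU =>
        intro S' hS' hsub
        have h1 := ihU S' hS' ((subset_insert _ _).trans hsub)
        have hu' : u ∈ S' \ U := mem_sdiff.2 ⟨hsub (mem_insert_self _ _), hu⟩
        have h2 := ih (S' \ U) (lt_of_le_of_lt sdiff_subset hS') u hu'
        rw [card_insert_of_notMem hu, sdiff_insert, pow_succ, mul_assoc]
        exact le_trans (mul_le_mul_of_nonneg_left h2 (by positivity)) h1
    set S0 := S.erase x with hS0
    set G0 := good Ev vars pat S0 with hG0
    have hxS0 : x ∉ S0 := notMem_erase x S
    have hG0sub : ∀ T ∈ G0, T ⊆ S0 := fun T hT => mem_powerset.1 (mem_filter.1 hT).1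
    set ext : Finset (Finset ι) := G0 ∪ G0.image (insert x) with hext
    have hcard : ext.card = 2 * G0.card := by
      rw [hext, card_union_of_disjoint, card_image_of_injOn, two_mul]
      · intro T hT T' hT' h
        have h1 : x ∉ T := fun h => hxS0 (hG0sub T hT h)
        have h2 : x ∉ T' := fun h => hxS0 (hG0sub T' hT' h)
        rw [← erase_insert h1, ← erase_insert h2]
        exact congrArg (fun s => Finset.erase s x) h
      · rw [disjoint_left]
        intro T hT hT'
        obtain ⟨T', -, rfl⟩ := mem_image.1 hT'
        exact hxS0 (hG0sub _ hT (mem_insert_self _ _))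
    have hext1 : ∀ T ∈ ext, T ⊆ S ∧ T.erase x ∈ G0 := by
      intro T hT
      rcases mem_union.1 hT with h | h
      · have h1 : x ∉ T := fun h' => hxS0 (hG0sub T h h')
        rw [erase_eq_of_notMem h1]
        exact ⟨(hG0sub T h).trans (erase_subset _ _), h⟩
      · obtain ⟨T', hT', rfl⟩ := mem_image.1 h
        have h1 : x ∉ T' := fun h' => hxS0 (hG0sub T' hT' h')
        rw [erase_insert h1]
        exact ⟨insert_subset hx ((hG0sub T' hT').trans (erase_subset _ _)), hT'⟩
    set Ex := Ev.filter (fun B => x ∈ vars B) with hEx
    set bad : κ → Finset (Finset ι) :=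
      fun B => ext.filter (fun T => vars B ⊆ S ∧ T ∩ vars B = pat B) with hbad
    have hcover : ext ⊆ good Ev vars pat S ∪ Ex.biUnion bad := by
      intro T hT
      obtain ⟨h1, h2⟩ := hext1 T hT
      by_cases hg : T ∈ good Ev vars pat S
      · exact mem_union_left _ hg
      · refine mem_union_right _ ?_
        simp only [good, mem_filter, mem_powerset, not_and, not_forall] at hg
        obtain ⟨B, hB, hsub, hp⟩ := hg h1
        have hp' : T ∩ vars B = pat B := by simpa using hp
        refine mem_biUnion.2 ⟨B, mem_filter.2 ⟨hB, ?_⟩, mem_filter.2 ⟨hT, hsub, hp'⟩⟩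
        by_contra hxB
        refine (mem_filter.1 h2).2 B hB (subset_erase.2 ⟨hsub, hxB⟩) ?_
        rw [← hp', erase_inter, erase_eq_of_notMem]
        exact fun h => hxB (mem_inter.1 h).2
    have hbadcard : ∀ B ∈ Ex, β ^ n * (bad B).card ≤ G0.card := by
      intro B hB
      obtain ⟨hB1, hB2⟩ := mem_filter.1 hB
      by_cases hsub : vars B ⊆ S
      · have hU : (vars B).erase x ⊆ S0 := erase_subset_erase x hsub
        have hUc : ((vars B).erase x).card = n := by
          rw [card_erase_of_mem hB2, hn B hB1]; rfl
        have h1 := multi _ S0 (erase_ssubset hx) hU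
        rw [hUc] at h1
        refine le_trans (mul_le_mul_of_nonneg_left ?_ (by positivity)) h1
        have : (bad B).card ≤ (good Ev vars pat (S0 \ (vars B).erase x)).card := by
          refine card_le_card_of_injOn (fun T => T.erase x \ (vars B).erase x) ?_ ?_
          · intro T hT
            exact good_restrict _ (hext1 T (mem_filter.1 hT).1).2
          · intro T hT T' hT' h
            have e1 := (mem_filter.1 (mem_coe.1 hT)).2.2
            have e2 := (mem_filter.1 (mem_coe.1 hT')).2.2
            ext y
            by_cases hy : y ∈ vars B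
            · have := congrArg (fun s => y ∈ s) (e1.trans e2.symm)
              simpa [hy] using this
            · have hyx : y ≠ x := fun h => hy (h ▸ hB2)
              have := congrArg (fun s => y ∈ s) h
              simpa [hy, hyx] using this
        exact_mod_cast this
      · have : bad B = ∅ := by
          rw [hbad]; simp [hsub]
        rw [this]; simp
    have h1 : (ext.card : ℝ) ≤ (good Ev vars pat S).card + ∑ B ∈ Ex, ((bad B).card : ℝ) := by
      have := (card_le_card hcover).trans ((card_union_le _ _).trans
        (Nat.add_le_add_left card_biUnion_le _))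
      exact_mod_cast this
    have h2 : β ^ n * ∑ B ∈ Ex, ((bad B).card : ℝ) ≤ D * G0.card := by
      rw [mul_sum]
      refine le_trans (sum_le_card_nsmul Ex _ _ hbadcard) ?_
      rw [nsmul_eq_mul]
      exact mul_le_mul_of_nonneg_right (hD x) (by positivity)
    have h3 : D * G0.card ≤ β ^ n * ((2 - β) * G0.card) := by
      have := mul_le_mul_of_nonneg_right hDβ (show (0 : ℝ) ≤ G0.card by positivity)
      linarith
    have h4 : ∑ B ∈ Ex, ((bad B).card : ℝ) ≤ (2 - β) * G0.card :=
      le_of_mul_le_mul_left (h2.trans h3) (by positivity)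
    rw [hcard] at h1
    push_cast at h1
    linarith

/-- Local lemma: events with `n+1` variables each, every variable in at most `D` events. -/
theorem exists_good (Ev : Finset κ) (vars pat : κ → Finset ι) (n : ℕ) (β D : ℝ) (hβ : 0 < β)
    (hn : ∀ B ∈ Ev, (vars B).card = n + 1)
    (hD : ∀ x, ((Ev.filter (fun B => x ∈ vars B)).card : ℝ) ≤ D)
    (hDβ : D ≤ (2 - β) * β ^ n) : ∃ T : Finset ι, ∀ B ∈ Ev, T ∩ vars B ≠ pat B := by
  have key : ∀ S : Finset ι, (0 : ℝ) < (good Ev vars pat S).card := by
    intro S
    induction S using Finset.induction_on with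
    | empty =>
      have : (∅ : Finset ι) ∈ good Ev vars pat ∅ := by
        simp only [good, mem_filter, mem_powerset, Subset.refl, true_and]
        intro B hB hsub
        have := card_le_card hsub
        rw [hn B hB] at this
        simp at this
      exact_mod_cast card_pos.2 ⟨_, this⟩
    | insert x S hx ih =>
      have := step Ev vars pat n β D hβ hn hD hDβ (insert x S) x (mem_insert_self _ _)
      rw [erase_insert hx] at this
      exact lt_of_lt_of_le (mul_pos hβ ih) this
  have h := key (Ev.biUnion vars)
  obtain ⟨T, hT⟩ := card_pos.1 (by exact_mod_cast h : 0 < (good Ev vars pat (Ev.biUnion vars)).card)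
  exact ⟨T, fun B hB => (mem_filter.1 hT).2 B hB (subset_biUnion_of_mem vars hB)⟩

end Pool.Agent.H25.Rosenfeld
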