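import Mathlib

namespace H25.Shc

open Finset

variable {α : Type} [DecidableEq α]

theorem pairs {V : Type} [AddCommGroup V] (h2 : ∀ v : V, v + v = 0) (f : α → V) (n : ℕ) :
    ∀ A : Finset α, A.card = n → ∃ R ⊆ A, Set.InjOn f R ∧ Even (A \ R).card ∧
      ∀ j, 2 * j ≤ (A \ R).card → ∃ B ⊆ A \ R, B.card = 2 * j ∧ ∑ g ∈ B, f g = 0 := by
  induction n using Nat.strong_induction_on with
  | _ n ih =>
    intro A hA
    by_cases hinj : Set.InjOn f A
    · refine ⟨A, Subset.refl _, hinj, by simp, ?_⟩
      intro j hj
      refine ⟨∅, by simp, ?_, by simp⟩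
      simp at hj
      simp [hj]
    · unfold Set.InjOn at hinj
      push Not at hinj
      obtain ⟨x, hx, y, hy, hxy, hne⟩ := hinj
      have hx' : x ∈ A := hx
      have hy' : y ∈ A := hy
      have hsub : ({x, y} : Finset α) ⊆ A := by
        intro z hz
        simp only [mem_insert, mem_singleton] at hz
        rcases hz with rfl | rfl <;> assumption
      have hc2 : ({x, y} : Finset α).card = 2 := card_pair hne
      have hcA : (A \ {x, y}).card = n - 2 := by
        rw [card_sdiff_of_subset hsub, hc2, hA]
      have hn2 : 2 ≤ n := by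
        rw [← hA, ← hc2]; exact card_le_card hsub
      obtain ⟨R, hR, hRi, hev, hj⟩ := ih (n - 2) (by omega) (A \ {x, y}) hcA
      have heq : A \ R = ((A \ {x, y}) \ R) ∪ {x, y} := by
        ext z
        simp only [mem_sdiff, mem_union, mem_insert, mem_singleton]
        constructor
        · rintro ⟨h1, h2⟩
          by_cases hz : z = x ∨ z = y
          · exact Or.inr hz
          · exact Or.inl ⟨⟨h1, hz⟩, h2⟩
        · rintro (⟨⟨h1, _⟩, h2⟩ | h)
          · exact ⟨h1, h2⟩
          · refine ⟨hsub (by simpa using h), fun hzR => ?_⟩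
            have := hR hzR
            simp only [mem_sdiff, mem_insert, mem_singleton] at this
            exact this.2 h
      have hdis : Disjoint ((A \ {x, y}) \ R) {x, y} := by
        rw [disjoint_left]
        intro z hz hz2
        simp only [mem_sdiff] at hz
        exact hz.1.2 hz2
      have hcard : (A \ R).card = ((A \ {x, y}) \ R).card + 2 := by
        rw [heq, card_union_of_disjoint hdis, hc2]
      refine ⟨R, hR.trans sdiff_subset, hRi, ?_, ?_⟩
      · rw [hcard]; exact hev.add (by decide)
      · intro j hjle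
        rcases j with _ | j
        · exact ⟨∅, by simp, by simp, by simp⟩
        · obtain ⟨B, hB, hBc, hBs⟩ := hj j (by omega)
          have hd2 : Disjoint B {x, y} := hdis.mono_left hB
          refine ⟨B ∪ {x, y}, ?_, ?_, ?_⟩
          · rw [heq]; exact union_subset_union hB (Subset.refl _)
          · rw [card_union_of_disjoint hd2, hBc, hc2]; ring
          · rw [sum_union hd2, hBs, sum_pair hne, hxy, h2, add_zero]

theorem dep {V : Type} [AddCommGroup V] [Fintype V] (h2 : ∀ v : V, v + v = 0) (g : α → V)
    (T : Finset α) (hT : Fintype.card V < 2 ^ T.card) :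
    ∃ D ⊆ T, D.Nonempty ∧ ∑ x ∈ D, g x = 0 := by
  classical
  have h : (univ : Finset V).card < T.powerset.card := by
    rw [card_powerset, card_univ]; exact hT
  obtain ⟨S, hS, S', hS', hne, he⟩ := exists_ne_map_eq_of_card_lt_of_maps_to h
    (f := fun S : Finset α => ∑ x ∈ S, g x) (fun _ _ => mem_coe.2 (mem_univ _))
  have hS1 : S ⊆ T := mem_powerset.1 hS
  have hS2 : S' ⊆ T := mem_powerset.1 hS'
  have hdis : Disjoint (S \ S') (S' \ S) := disjoint_sdiff_sdiff
  refine ⟨(S \ S') ∪ (S' \ S), union_subset (sdiff_subset.trans hS1) (sdiff_subset.trans hS2),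
    ?_, ?_⟩
  · rw [nonempty_iff_ne_empty]
    intro h0
    rw [union_eq_empty, sdiff_eq_empty_iff_subset, sdiff_eq_empty_iff_subset] at h0
    exact hne (Subset.antisymm h0.1 h0.2)
  · have e : ∑ x ∈ S \ S', g x = ∑ x ∈ S' \ S, g x := by
      rw [sum_sdiff_eq_sum_sdiff_iff]; exact he
    rw [sum_union hdis, e, h2]

theorem evenblock {V : Type} [AddCommGroup V] [Fintype V] (h2 : ∀ v : V, v + v = 0) (f : α → V)
    (m : ℕ) (hV : Fintype.card V = 2 ^ m) (n : ℕ) :
    ∀ R : Finset α, R.card = n → ∃ C ⊆ R, Even C.card ∧ ∑ g ∈ C, f g = 0 ∧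
      R.card ≤ C.card + m + 1 := by
  induction n using Nat.strong_induction_on with
  | _ n ih =>
    intro R hR
    by_cases hle : R.card ≤ m + 1
    · exact ⟨∅, by simp, by simp, by simp, by simpa using hle⟩
    · have h2' : ∀ v : ZMod 2 × V, v + v = 0 := by
        rintro ⟨a, v⟩
        ext
        · show a + a = 0
          revert a; decide
        · exact h2 v
      obtain ⟨D, hD, hDne, hDs⟩ := dep h2' (fun x => ((1 : ZMod 2), f x)) R (by
        rw [Fintype.card_prod, ZMod.card, hV, ← pow_succ']
        exact Nat.pow_lt_pow_right (by norm_num) (by omega))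
      have h1 : ((D.card : ℕ) : ZMod 2) = 0 := by
        have := congrArg Prod.fst hDs
        simpa [Prod.fst_sum] using this
      have h1' : Even D.card := by
        rw [ZMod.natCast_eq_zero_iff_even] at h1; exact h1
      have h3 : ∑ g ∈ D, f g = 0 := by
        have := congrArg Prod.snd hDs
        simpa [Prod.snd_sum] using this
      have hpos : 0 < D.card := hDne.card_pos
      have hDle : D.card ≤ R.card := card_le_card hD
      have hc : (R \ D).card = n - D.card := by rw [card_sdiff_of_subset hD, hR]
      obtain ⟨C, hC, hCe, hCs, hCl⟩ := ih (n - D.card) (by omega) (R \ D) hc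
      have hdis : Disjoint C D := (disjoint_sdiff_self_left).mono_left hC
      refine ⟨C ∪ D, union_subset (hC.trans sdiff_subset) hD, ?_, ?_, ?_⟩
      · rw [card_union_of_disjoint hdis]; exact hCe.add h1'
      · rw [sum_union hdis, hCs, h3, add_zero]
      · rw [card_union_of_disjoint hdis]; omega

theorem zsum {V : Type} [AddCommGroup V] [Fintype V] (h2 : ∀ v : V, v + v = 0) (f : α → V)
    (m k : ℕ) (hV : Fintype.card V = 2 ^ m) (hk : 2 ^ m ≤ 2 * k) (A : Finset α)
    (hA : 2 * k + m ≤ A.card) : ∃ B ⊆ A, B.card = 2 * k ∧ ∑ g ∈ B, f g = 0 := by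
  classical
  obtain ⟨R, hR, hRi, ⟨e, he⟩, hj⟩ := pairs h2 f _ A rfl
  obtain ⟨C, hC, ⟨c, hc⟩, hCs, hCl⟩ := evenblock h2 f m hV _ R rfl
  have hRc : R.card ≤ 2 ^ m := by
    rw [← hV, ← card_image_of_injOn hRi]; exact card_le_univ _
  have hCc : C.card ≤ R.card := card_le_card hC
  have hsd : (A \ R).card = A.card - R.card := card_sdiff_of_subset hR
  have hRA : R.card ≤ A.card := card_le_card hR
  obtain ⟨B, hB, hBc, hBs⟩ := hj (k - c) (by omega)
  have hdis : Disjoint B C := (disjoint_sdiff_self_left.mono_left hB).mono_right hC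
  refine ⟨B ∪ C, union_subset (hB.trans sdiff_subset) (hC.trans hR), ?_, ?_⟩
  · rw [card_union_of_disjoint hdis]; omega
  · rw [sum_union hdis, hBs, hCs, add_zero]

theorem closed_univ {k : ℕ} [NeZero k] (S : Finset (ZMod k)) (hS : S.Nonempty) (u : ZMod k)
    (hu : IsUnit u) (hcl : ∀ s ∈ S, s + u ∈ S) : S = univ := by
  obtain ⟨s, hs⟩ := hS
  have h : ∀ n : ℕ, s + (n : ZMod k) * u ∈ S := by
    intro n
    induction n with
    | zero => simpa using hs
    | succ n ih =>
      have := hcl _ ih
      rw [Nat.cast_succ, add_mul, one_mul, ← add_assoc]; exact this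
  obtain ⟨w, rfl⟩ := hu
  rw [eq_univ_iff_forall]
  intro t
  have := h ((t - s) * (w⁻¹ : (ZMod k)ˣ)).val
  rw [ZMod.natCast_zmod_val, mul_assoc, Units.inv_mul, mul_one] at this
  simpa using this

open Classical in
theorem signs {k : ℕ} [NeZero k] (hk : Odd k) (x : α → ZMod k) (B : Finset α) :
    ∃ S : Finset (ZMod k), S.Nonempty ∧
      (∀ s ∈ S, ∃ ε : α → ℤ, (∀ g, ε g = 1 ∨ ε g = -1) ∧ ∑ g ∈ B, ε g • x g = s) ∧
      min k (1 + (B.filter fun g => IsUnit (x g)).card) ≤ S.card := by
  induction B using Finset.induction_on with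
  | empty =>
    refine ⟨{0}, by simp, ?_, by simp⟩
    intro s hs
    exact ⟨fun _ => 1, by simp, by simpa using (mem_singleton.1 hs).symm⟩
  | insert a B ha ih =>
    obtain ⟨S, hne, hS, hc⟩ := ih
    have c1 : (S.image fun s => s + x a).card = S.card :=
      card_image_of_injective _ (add_left_injective _)
    have c2 : (S.image fun s => s - x a).card = S.card :=
      card_image_of_injective _ (sub_left_injective)
    have key : ∀ (s : ZMod k) (d : ℤ), s ∈ S → (d = 1 ∨ d = -1) → ∃ ε : α → ℤ,
        (∀ g, ε g = 1 ∨ ε g = -1) ∧ ∑ g ∈ insert a B, ε g • x g = s + d • x a := by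
      intro s d hs hd
      obtain ⟨ε, h1, h2⟩ := hS s hs
      refine ⟨Function.update ε a d, ?_, ?_⟩
      · intro g
        by_cases hg : g = a
        · subst hg; simpa using hd
        · rw [Function.update_of_ne hg]; exact h1 g
      · rw [sum_insert ha, Function.update_self, add_comm, ← h2]
        congr 1
        refine sum_congr rfl fun g hg => ?_
        rw [Function.update_of_ne (fun h : g = a => ha (h ▸ hg))]
    refine ⟨(S.image fun s => s + x a) ∪ (S.image fun s => s - x a),
      (hne.image _).mono subset_union_left, ?_, ?_⟩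
    · intro s hs
      rcases mem_union.1 hs with h | h
      · obtain ⟨t, ht, rfl⟩ := mem_image.1 h
        simpa using key t 1 ht (Or.inl rfl)
      · obtain ⟨t, ht, rfl⟩ := mem_image.1 h
        simpa [sub_eq_add_neg] using key t (-1) ht (Or.inr rfl)
    · have hl : S.card ≤ ((S.image fun s => s + x a) ∪ (S.image fun s => s - x a)).card := by
        rw [← c1]; exact card_le_card subset_union_left
      by_cases hu : IsUnit (x a)
      · rw [filter_insert, if_pos hu, card_insert_of_notMem (fun h => ha (mem_filter.1 h).1)]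
        by_contra hlt
        have hle : ((S.image fun s => s + x a) ∪ (S.image fun s => s - x a)).card ≤ S.card := by
          omega
        have e2 : (S.image fun s => s - x a) =
            (S.image fun s => s + x a) ∪ (S.image fun s => s - x a) :=
          eq_of_subset_of_card_le subset_union_right (by rw [c2]; exact hle)
        have hu2 : IsUnit ((2 : ZMod k) * x a) := by
          refine IsUnit.mul ?_ hu
          have : IsUnit ((2 : ℕ) : ZMod k) :=
            (ZMod.isUnit_iff_coprime 2 k).2 (Nat.coprime_two_left.2 hk)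
          simpa using this
        have hall : S = univ := closed_univ S hne _ hu2 (by
          intro s hs
          have : s + x a ∈ (S.image fun s => s - x a) := by
            rw [e2]; exact mem_union_left _ (mem_image_of_mem _ hs)
          obtain ⟨t, ht, he⟩ := mem_image.1 this
          have : s + 2 * x a = t := by linear_combination -he
          rw [this]; exact ht)
        have : S.card = k := by rw [hall, card_univ, ZMod.card]
        omega
      · rw [filter_insert, if_neg hu]; omega

end H25.Shc
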