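import Mathlib

namespace H25.Shc

open Finset

variable {G : Type} [AddCommGroup G] [DecidableEq G]

def lam (S : Finset G) (y : G) : ℕ := (S.filter fun s => s + y ∉ S).card

theorem lam_add (S : Finset G) (x y : G) : lam S (x + y) ≤ lam S x + lam S y := by
  unfold lam
  have h1 : (S.filter fun s => s + (x + y) ∉ S) ⊆ (S.filter fun s => s + x ∉ S) ∪
      (S.filter fun s => s + y ∉ S).image (fun s => s - x) := by
    intro s hs
    rw [mem_filter] at hs
    by_cases h : s + x ∈ S
    · refine mem_union_right _ (mem_image.2 ⟨s + x, mem_filter.2 ⟨h, ?_⟩, by simp⟩)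
      rw [add_assoc]; exact hs.2
    · exact mem_union_left _ (mem_filter.2 ⟨hs.1, h⟩)
  exact (card_le_card h1).trans ((card_union_le _ _).trans
    (Nat.add_le_add_left card_image_le _))

theorem lam_neg (S : Finset G) (x : G) : lam S (-x) ≤ lam S x := by
  unfold lam
  have a := card_filter_add_card_filter_not (s := S) (fun s => s + x ∈ S)
  have b := card_filter_add_card_filter_not (s := S) (fun s => s + -x ∈ S)
  have c : (S.filter fun s => s + x ∈ S).card ≤ (S.filter fun s => s + -x ∈ S).card := by
    apply card_le_card_of_injOn (fun s => s + x)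
    · intro s hs
      have hs' := mem_filter.1 (mem_coe.1 hs)
      exact mem_coe.2 (mem_filter.2 ⟨hs'.2, by simpa using hs'.1⟩)
    · exact (add_left_injective x).injOn
  omega

theorem lam_zero (S : Finset G) : lam S 0 = 0 := by
  unfold lam
  rw [card_eq_zero, filter_eq_empty_iff]
  intro s hs; simpa using hs

theorem lam_sum (K : AddSubgroup G) (Kf : Finset G) (hK : ∀ x, x ∈ Kf ↔ x ∈ K) (S : Finset G)
    (hS : S ⊆ Kf) : S.card * (Kf.card - S.card) ≤ ∑ y ∈ Kf, lam S y := by
  unfold lam
  simp only [card_filter]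
  rw [sum_comm, ← smul_eq_mul, ← sum_const]
  apply sum_le_sum
  intro s hs
  rw [← card_filter, ← card_sdiff_of_subset hS]
  apply card_le_card_of_injOn (fun z => z - s)
  · intro z hz
    have hz' := mem_sdiff.1 (mem_coe.1 hz)
    refine mem_coe.2 (mem_filter.2 ⟨(hK _).2 (K.sub_mem ((hK _).1 hz'.1) ((hK _).1 (hS hs))), ?_⟩)
    simpa using hz'.2
  · exact sub_left_injective.injOn

theorem diam (K : AddSubgroup G) (Kf : Finset G) (hK : ∀ x, x ∈ Kf ↔ x ∈ K) (S A : Finset G)
    (hA : A ⊆ Kf) (hgen : K ≤ AddSubgroup.closure (A : Set G)) (r : ℕ)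
    (hr : ∀ a ∈ A, lam S a ≤ r) (j : ℕ) :
    (∀ y ∈ Kf, lam S y ≤ 3 * j * r) ∨
      j * A.card + 1 ≤ (Kf.filter fun y => lam S y ≤ 3 * j * r).card := by
  induction j with
  | zero =>
    right
    rw [Nat.zero_mul, Nat.zero_add, Nat.succ_le_iff, card_pos]
    exact ⟨0, mem_filter.2 ⟨(hK _).2 K.zero_mem, by rw [lam_zero]; omega⟩⟩
  | succ j ih =>
    have e3 : 3 * (j + 1) * r = 3 * j * r + r + r + r := by ring
    rcases ih with ih | ih
    · left; intro y hy; have := ih y hy; omega
    · by_cases hcl : ∀ z, lam S z ≤ 3 * j * r + r → z ∈ Kf → ∀ a ∈ A,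
          lam S (z + a) ≤ 3 * j * r + r
      · left
        have key : ∀ y ∈ AddSubgroup.closure (A : Set G), y ∈ K ∧ ∀ z ∈ K,
            lam S z ≤ 3 * j * r + r → lam S (z + y) ≤ 3 * j * r + r := by
          intro y hy
          induction hy using AddSubgroup.closure_induction with
          | mem x hx => exact ⟨(hK _).1 (hA hx), fun z hz h => hcl z h ((hK _).2 hz) x hx⟩
          | zero => exact ⟨K.zero_mem, fun z _ h => by simpa using h⟩
          | add x y _ _ hx hy =>
            refine ⟨K.add_mem hx.1 hy.1, fun z hz h => ?_⟩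
            rw [← add_assoc]
            exact hy.2 _ (K.add_mem hz hx.1) (hx.2 z hz h)
          | neg x _ hx =>
            refine ⟨K.neg_mem hx.1, fun z hz h => ?_⟩
            have h1 := hx.2 (-z) (K.neg_mem hz) ((lam_neg S z).trans h)
            have h2 := lam_neg S (-z + x)
            have e : -(-z + x) = z + -x := by abel
            rw [e] at h2
            omega
        intro y hy
        have := (key y (hgen ((hK _).1 hy))).2 0 K.zero_mem (by rw [lam_zero]; omega)
        rw [zero_add] at this
        omega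
      · right
        push Not at hcl
        obtain ⟨z, hz, hzK, a, ha, hlt⟩ := hcl
        have h1 := lam_add S z a
        have h2 := hr a ha
        have hdis : Disjoint (Kf.filter fun y => lam S y ≤ 3 * j * r)
            (A.image fun b => z + a + b) := by
          rw [disjoint_left]
          intro w hw hw2
          obtain ⟨b, hb, rfl⟩ := mem_image.1 hw2
          have h3 := (mem_filter.1 hw).2
          have h4 := lam_add S (z + a + b) (-b)
          have h5 := lam_neg S b
          have h6 := hr b hb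
          rw [add_neg_cancel_right] at h4
          omega
        have hsub : (Kf.filter fun y => lam S y ≤ 3 * j * r) ∪ (A.image fun b => z + a + b) ⊆
            Kf.filter fun y => lam S y ≤ 3 * (j + 1) * r := by
          intro w hw
          rcases mem_union.1 hw with h | h
          · have := mem_filter.1 h
            exact mem_filter.2 ⟨this.1, by omega⟩
          · obtain ⟨b, hb, rfl⟩ := mem_image.1 h
            have h4 := lam_add S (z + a) b
            have h6 := hr b hb
            exact mem_filter.2 ⟨(hK _).2 (K.add_mem (K.add_mem ((hK _).1 hzK)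
              ((hK _).1 (hA ha))) ((hK _).1 (hA hb))), by omega⟩
        have := card_le_card hsub
        rw [card_union_of_disjoint hdis, card_image_of_injective _ (add_right_injective _)] at this
        rw [Nat.succ_mul]
        omega

theorem grow (K : AddSubgroup G) (Kf : Finset G) (hK : ∀ x, x ∈ Kf ↔ x ∈ K) (S A : Finset G)
    (hS : S ⊆ Kf) (hA : A ⊆ Kf) (hgen : K ≤ AddSubgroup.closure (A : Set G)) (r j : ℕ)
    (hj : Kf.card ≤ j * A.card) (h1 : 6 * j * r + 1 ≤ S.card)
    (h2 : S.card + (6 * j * r + 1) < Kf.card) : ∃ a ∈ A, r ≤ lam S a := by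
  by_contra hcon
  push Not at hcon
  rcases diam K Kf hK S A hA hgen r (fun a ha => (hcon a ha).le) j with h | h
  · have h3 := lam_sum K Kf hK S hS
    have h4 : ∑ y ∈ Kf, lam S y ≤ Kf.card * (3 * j * r) := by
      rw [← smul_eq_mul]; exact sum_le_card_nsmul _ _ _ h
    obtain ⟨u, hu⟩ : ∃ u, Kf.card = S.card + u := ⟨Kf.card - S.card, by omega⟩
    have e : 6 * j * r = 2 * (3 * j * r) := by ring
    rw [e] at h1 h2
    rw [hu] at h2 h4
    rw [hu, Nat.add_sub_cancel_left] at h3
    generalize 3 * j * r = w at *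
    generalize S.card = s at *
    have h5 : s * u ≤ (s + u) * w := h3.trans h4
    have h6 : 2 * w + 1 ≤ u := by omega
    nlinarith [Nat.mul_le_mul_left s h6, Nat.mul_le_mul_left u h1]
  · have := card_filter_le Kf (fun y => lam S y ≤ 3 * j * r)
    omega

def SS (C : Finset G) : Finset G := C.powerset.image fun P => ∑ x ∈ P, x

theorem SS_sub (K : AddSubgroup G) (Kf : Finset G) (hK : ∀ x, x ∈ Kf ↔ x ∈ K) (C : Finset G)
    (hC : C ⊆ Kf) : SS C ⊆ Kf := by
  intro s hs
  obtain ⟨P, hP, rfl⟩ := mem_image.1 hs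
  exact (hK _).2 (K.sum_mem fun x hx => (hK _).1 (hC (mem_powerset.1 hP hx)))

theorem SS_mono {C D : Finset G} (h : C ⊆ D) : SS C ⊆ SS D :=
  image_subset_image (powerset_mono.2 h)

theorem SS_add {C D : Finset G} (h : C ⊆ D) {a s : G} (ha : a ∈ D) (ha' : a ∉ C)
    (hs : s ∈ SS C) : s + a ∈ SS D := by
  obtain ⟨P, hP, rfl⟩ := mem_image.1 hs
  have hP' := mem_powerset.1 hP
  refine mem_image.2 ⟨insert a P, mem_powerset.2 (insert_subset ha (hP'.trans h)), ?_⟩
  rw [sum_insert (fun h => ha' (hP' h)), add_comm]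

theorem SS_self (C : Finset G) : C ⊆ SS C := fun a ha =>
  mem_image.2 ⟨{a}, mem_powerset.2 (singleton_subset_iff.2 ha), by simp⟩

theorem SS_insert (C : Finset G) (a : G) (ha : a ∉ C) :
    (SS C).card + lam (SS C) a ≤ (SS (insert a C)).card := by
  unfold lam
  have hdis : Disjoint (SS C) (((SS C).filter fun s => s + a ∉ SS C).image fun s => s + a) := by
    rw [disjoint_left]
    intro w hw hw2
    obtain ⟨b, hb, rfl⟩ := mem_image.1 hw2
    exact (mem_filter.1 hb).2 hw
  rw [← card_image_of_injective ((SS C).filter fun s => s + a ∉ SS C) (add_left_injective a),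
    ← card_union_of_disjoint hdis]
  apply card_le_card
  intro w hw
  rcases mem_union.1 hw with h | h
  · exact SS_mono (subset_insert _ _) h
  · obtain ⟨b, hb, rfl⟩ := mem_image.1 h
    exact SS_add (subset_insert _ _) (mem_insert_self _ _) ha (mem_filter.1 hb).1

theorem span (K : AddSubgroup G) (Kf : Finset G) (hK : ∀ x, x ∈ Kf ↔ x ∈ K) (A : Finset G)
    (hA : A ⊆ Kf) (r j t T : ℕ) (hT : T = 2 * (6 * j * r + 1) + 1 + t)
    (hgen : ∀ C ⊆ A, C.card ≤ T → K ≤ AddSubgroup.closure ((A \ C : Finset G) : Set G))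
    (hj : Kf.card ≤ j * (A.card - T)) (hAT : T ≤ A.card) (ht : Kf.card ≤ r * t) :
    ∃ C ⊆ A, C.card ≤ T ∧ Kf ⊆ SS C := by
  set M := 6 * j * r + 1 with hM
  have step : ∀ i ≤ t, ∃ C ⊆ A, C.card ≤ M + i ∧ M ≤ (SS C).card ∧
      (Kf.card ≤ (SS C).card + M ∨ r * i ≤ (SS C).card) := by
    intro i
    induction i with
    | zero =>
      intro _
      obtain ⟨C, hC, hc⟩ := exists_subset_card_eq (s := A) (n := M) (by omega)
      exact ⟨C, hC, by omega, hc ▸ card_le_card (SS_self C), Or.inr (by simp)⟩
    | succ i ih =>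
      intro hi
      obtain ⟨C, hC, h1, h2, h3⟩ := ih (by omega)
      by_cases h4 : Kf.card ≤ (SS C).card + M
      · exact ⟨C, hC, by omega, h2, Or.inl h4⟩
      · have h5 : r * i ≤ (SS C).card := h3.resolve_left h4
        obtain ⟨a, ha, hl⟩ := grow K Kf hK (SS C) (A \ C) (SS_sub K Kf hK C (hC.trans hA))
          (sdiff_subset.trans hA) (hgen C hC (by omega)) r j
          (hj.trans (Nat.mul_le_mul_left _ (by rw [card_sdiff_of_subset hC]; omega))) h2
          (by omega)
        have ha' := mem_sdiff.1 ha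
        have h6 := SS_insert C a ha'.2
        refine ⟨insert a C, insert_subset ha'.1 hC, ?_, by omega, Or.inr ?_⟩
        · rw [card_insert_of_notMem ha'.2]; omega
        · rw [Nat.mul_succ]; omega
  obtain ⟨C, hC, h1, h2, h3⟩ := step t le_rfl
  have h4 : Kf.card ≤ (SS C).card + M := by omega
  obtain ⟨D, hD, hd⟩ := exists_subset_card_eq (s := A \ C) (n := M + 1)
    (by rw [card_sdiff_of_subset hC]; omega)
  refine ⟨C ∪ D, union_subset hC (hD.trans sdiff_subset),
    (card_union_le _ _).trans (by omega), ?_⟩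
  intro y hy
  by_contra hy2
  have hsub : D.image (fun a => y - a) ⊆ Kf \ SS C := by
    intro w hw
    obtain ⟨a, ha, rfl⟩ := mem_image.1 hw
    have ha' := mem_sdiff.1 (hD ha)
    refine mem_sdiff.2 ⟨(hK _).2 (K.sub_mem ((hK _).1 hy) ((hK _).1 (hA ha'.1))), fun h => hy2 ?_⟩
    have := SS_add (subset_union_left (s₂ := D)) (mem_union_right _ ha) ha'.2 h
    simpa using this
  have := card_le_card hsub
  rw [card_image_of_injective _ sub_right_injective,
    card_sdiff_of_subset (SS_sub K Kf hK C (hC.trans hA))] at this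
  omega

end H25.Shc
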