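import Mathlib
import Pool.Agent.H25.Shc2

namespace H25.Shc

open Finset

theorem block {G : Type} [AddCommGroup G] [DecidableEq G] (K : AddSubgroup G) (d : ℕ)
    (hd : ∀ g : Fin (d + 1) → G, ∃ c : Fin (d + 1) → ℤ,
      (∀ i, c i = 0 ∨ c i = 1 ∨ c i = -1) ∧ ∑ i, c i • g i ∈ K ∧ c ≠ 0) (n : ℕ) :
    ∀ O : Finset G, O.card = n → ∃ Z ⊆ O, ∃ ε : G → ℤ, (∀ g, ε g = 1 ∨ ε g = -1) ∧
      ∑ g ∈ Z, ε g • g ∈ K ∧ O.card ≤ Z.card + d := by
  induction n using Nat.strong_induction_on with
  | _ n ih =>
    intro O hO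
    by_cases hle : O.card ≤ d
    · exact ⟨∅, by simp, fun _ => 1, by simp, by simp, by simpa using hle⟩
    · obtain ⟨W, hW, hWc⟩ := exists_subset_card_eq (s := O) (n := d + 1) (by omega)
      let e := (W.equivFinOfCardEq hWc).symm
      let g : Fin (d + 1) → G := fun i => (e i).1
      have hg : Function.Injective g := Subtype.val_injective.comp e.injective
      obtain ⟨c, hc1, hc2, hc3⟩ := hd g
      let I : Finset (Fin (d + 1)) := univ.filter fun i => c i ≠ 0
      have hI : I.Nonempty := by
        by_contra h0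
        rw [not_nonempty_iff_eq_empty, filter_eq_empty_iff] at h0
        exact hc3 (funext fun i => by simpa using h0 (mem_univ i))
      have hD : I.image g ⊆ O := by
        intro x hx
        obtain ⟨i, _, rfl⟩ := mem_image.1 hx
        exact hW (e i).2
      have hpos : 0 < (I.image g).card := (hI.image g).card_pos
      have hDle := card_le_card hD
      have hcd : (O \ I.image g).card = n - (I.image g).card := by
        rw [card_sdiff_of_subset hD, hO]
      obtain ⟨Z, hZ, ε, h1, h2, h3⟩ := ih _ (by omega) (O \ I.image g) hcd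
      have hdis : Disjoint Z (I.image g) := (disjoint_sdiff_self_left).mono_left hZ
      refine ⟨Z ∪ I.image g, union_subset (hZ.trans sdiff_subset) hD,
        fun x => if x ∈ I.image g then Function.extend g c 1 x else ε x, ?_, ?_, ?_⟩
      · intro x
        by_cases hx : x ∈ I.image g
        · simp only [if_pos hx]
          obtain ⟨i, hi, rfl⟩ := mem_image.1 hx
          rw [hg.extend_apply]
          exact (hc1 i).resolve_left (mem_filter.1 hi).2
        · simp only [if_neg hx]; exact h1 x
      · rw [sum_union hdis]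
        refine K.add_mem ?_ ?_
        · have e1 : ∑ x ∈ Z, (if x ∈ I.image g then Function.extend g c 1 x else ε x) • x =
              ∑ x ∈ Z, ε x • x :=
            sum_congr rfl (fun x hx => by rw [if_neg (disjoint_left.1 hdis hx)])
          rw [e1]
          exact h2
        · have e1 : ∑ x ∈ I.image g,
              (if x ∈ I.image g then Function.extend g c 1 x else ε x) • x =
              ∑ x ∈ I.image g, Function.extend g c 1 x • x :=
            sum_congr rfl (fun x hx => by rw [if_pos hx])
          rw [e1, sum_image (fun x _ y _ h => hg h)]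
          simp only [hg.extend_apply]
          have e2 : ∑ x ∈ I, c x • g x = ∑ x, c x • g x :=
            sum_filter_of_ne (fun i _ h h0 => h (by rw [h0, zero_smul]))
          rw [e2]
          exact hc2
      · rw [card_union_of_disjoint hdis]; omega

theorem upper (h : ℕ) (hh : 1 ≤ h) : ∃ N0 : ℕ, ∀ (G : Type) [AddCommGroup G] [Finite G],
    Odd (Nat.card G) → ∀ N, N0 ≤ N → Nat.card G = h * N → ∀ d : ℕ,
    (∀ K : AddSubgroup G, N ≤ Nat.card K → ∀ g : Fin (d + 1) → G, ∃ c : Fin (d + 1) → ℤ,
      (∀ i, c i = 0 ∨ c i = 1 ∨ c i = -1) ∧ ∑ i, c i • g i ∈ K ∧ c ≠ 0) →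
    ∀ A : Finset G, N + d ≤ A.card → ∃ B ⊆ A, B.card = N ∧ ∃ ε : G → ℤ,
      (∀ g, ε g = 1 ∨ ε g = -1) ∧ ∑ g ∈ B, ε g • g = 0 := by
  obtain ⟨q, hq⟩ : ∃ q, q = 2 * ((h + 1) * (h + 1)) := ⟨_, rfl⟩
  obtain ⟨M, hM⟩ : ∃ M, M = 6 * (2 * h) * (h * q) + 1 := ⟨_, rfl⟩
  refine ⟨(2 * M + 2) * q + 1, ?_⟩
  intro G _ _ hodd N hN hcard d hd A hA
  classical
  have := Fintype.ofFinite G
  obtain ⟨T, hT⟩ : ∃ T, T = 2 * M + 1 + (N / q + 1) := ⟨_, rfl⟩
  have hq0 : 0 < q := by rw [hq]; positivity
  have hTN : T * ((h + 1) * (h + 1)) < N := by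
    have a1 : N / q * q ≤ N := Nat.div_mul_le_self N q
    have a2 : T * q = (2 * M + 2) * q + N / q * q := by rw [hT]; ring
    have a3 : T * q = 2 * (T * ((h + 1) * (h + 1))) := by rw [hq]; ring
    omega
  have hT2 : 2 * (T * h) + 2 * T < N + 1 := by nlinarith [Nat.mul_le_mul_left T hh]
  have cardK : ∀ K : AddSubgroup G, (univ.filter fun x => x ∈ K).card = Nat.card K := by
    intro K
    rw [Nat.card_eq_fintype_card, Fintype.card_subtype]
  have split : ∀ K : AddSubgroup G,
      (A.filter fun x => x ∈ K).card + (A.filter fun x => x ∉ K).card = A.card :=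
    fun K => card_filter_add_card_filter_not _
  have inK : ∀ K : AddSubgroup G, (A.filter fun x => x ∈ K).card ≤ Nat.card K := by
    intro K
    rw [← cardK]
    exact card_le_card (filter_subset_filter _ (subset_univ A))
  obtain ⟨K, ⟨hK1, hK2⟩, hmax⟩ := Set.exists_max_image
    {K : AddSubgroup G | K.index ≤ h ∧ (A.filter fun x => x ∉ K).card ≤ T * K.index}
    (fun K => K.index) (Set.toFinite _) ⟨⊤, by simpa using hh⟩
  have hK3 : (A.filter fun x => x ∉ K).card ≤ T * h := hK2.trans (Nat.mul_le_mul_left _ hK1)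
  have hKm := K.card_mul_index
  have hKN : N ≤ Nat.card K := by
    have : h * N ≤ h * Nat.card K := by
      rw [← hcard, ← hKm, mul_comm]; exact Nat.mul_le_mul_right _ hK1
    exact Nat.le_of_mul_le_mul_left this hh
  have hKle : (univ.filter fun x => x ∈ K).card ≤ h * N := by
    rw [← hcard, Nat.card_eq_fintype_card]; exact card_le_univ _
  have sK := split K
  obtain ⟨C, hC, hCc, hCs⟩ := span K (univ.filter fun x => x ∈ K) (by simp)
    (A.filter fun x => x ∈ K) (filter_subset_filter _ (subset_univ A)) (h * q) (2 * h)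
    (N / q + 1) T (by rw [hT, hM]) (by
      intro C hC hCc
      set L := AddSubgroup.closure (((A.filter fun x => x ∈ K) \ C : Finset G) : Set G) with hL
      have hLK : L ≤ K := by
        rw [hL, AddSubgroup.closure_le]
        intro x hx
        exact (mem_filter.1 (mem_sdiff.1 (mem_coe.1 hx)).1).2
      by_contra hcon
      have hlt : L < K := lt_of_le_of_ne hLK (fun e => hcon (e ▸ le_rfl))
      have hi := AddSubgroup.index_strictAnti hlt
      have hsub : (A.filter fun x => x ∉ L) ⊆ (A.filter fun x => x ∉ K) ∪ C := by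
        intro x hx
        have hx' := mem_filter.1 hx
        by_cases h1 : x ∈ K
        · refine mem_union_right _ ?_
          by_contra h2
          exact hx'.2 (AddSubgroup.subset_closure
            (mem_coe.2 (mem_sdiff.2 ⟨mem_filter.2 ⟨hx'.1, h1⟩, h2⟩)))
        · exact mem_union_left _ (mem_filter.2 ⟨hx'.1, h1⟩)
      have hc := (card_le_card hsub).trans (card_union_le _ _)
      have sL := split L
      have iL := inK L
      have hLm := L.card_mul_index
      have hidx : L.index ≤ h := by
        by_contra h3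
        have b1 : Nat.card L * (h + 1) ≤ h * N := by
          rw [← hcard, ← hLm]; exact Nat.mul_le_mul_left _ (by omega)
        have b2 : N ≤ Nat.card L + (T * h + T) := by omega
        have b3 := Nat.mul_le_mul_right (h + 1) b2
        nlinarith
      have := hmax L ⟨hidx, by
        have := Nat.mul_le_mul_left T (show K.index + 1 ≤ L.index from hi)
        rw [Nat.mul_succ] at this
        omega⟩
      omega)
    (by
      refine hKle.trans ?_
      rw [mul_comm 2 h, mul_assoc]
      exact Nat.mul_le_mul_left _ (by omega))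
    (by omega)
    (by
      refine hKle.trans ?_
      rw [mul_assoc]
      exact Nat.mul_le_mul_left _ (Nat.lt_mul_div_succ N hq0).le)
  obtain ⟨Z, hZ, ε, hε, hZs, hZc⟩ := block K d (hd K hKN) _ (A.filter fun x => x ∉ K) rfl
  have hZle := card_le_card hZ
  obtain ⟨F, hCF, hF, hFc⟩ := exists_subsuperset_card_eq (n := N - Z.card) hC (by omega)
    (by omega)
  have hdis : Disjoint Z F := by
    rw [disjoint_left]
    intro x h1 h2
    exact (mem_filter.1 (hZ h1)).2 (mem_filter.1 (hF h2)).2
  obtain ⟨o, ho⟩ := hodd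
  have hw : (∑ g ∈ Z, ε g • g + ∑ g ∈ F, g) ∈ K :=
    K.add_mem hZs (K.sum_mem fun x hx => (mem_filter.1 (hF hx)).2)
  set w := ∑ g ∈ Z, ε g • g + ∑ g ∈ F, g with hwd
  have hw2 : (o + 1) • w + (o + 1) • w = w := by
    have : (2 * o + 1) • w = 0 := by rw [← ho]; exact card_nsmul_eq_zero'
    rw [← add_nsmul, show o + 1 + (o + 1) = 2 * o + 1 + 1 by ring, succ_nsmul, this, zero_add]
  obtain ⟨P, hP, hPs⟩ := mem_image.1 (hCs (mem_filter.2 ⟨mem_univ _, K.nsmul_mem hw (o + 1)⟩))
  have hPF : P ⊆ F := (mem_powerset.1 hP).trans hCF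
  refine ⟨Z ∪ F, union_subset (hZ.trans (filter_subset _ _)) (hF.trans (filter_subset _ _)),
    by rw [card_union_of_disjoint hdis]; omega,
    fun x => if x ∈ Z then ε x else if x ∈ P then -1 else 1, ?_, ?_⟩
  · intro x
    by_cases h1 : x ∈ Z
    · simp only [if_pos h1]; exact hε x
    · by_cases h2 : x ∈ P <;> simp [h1, h2]
  · have f1 : ∑ x ∈ Z, (if x ∈ Z then ε x else if x ∈ P then -1 else 1) • x =
        ∑ x ∈ Z, ε x • x := sum_congr rfl (fun x hx => by rw [if_pos hx])
    have f2 : ∑ x ∈ F \ P, (if x ∈ Z then ε x else if x ∈ P then -1 else 1) • x =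
        ∑ x ∈ F \ P, x := sum_congr rfl (fun x hx => by
          rw [if_neg (disjoint_right.1 hdis (mem_sdiff.1 hx).1), if_neg (mem_sdiff.1 hx).2,
            one_smul])
    have f3 : ∑ x ∈ P, (if x ∈ Z then ε x else if x ∈ P then -1 else 1) • x =
        ∑ x ∈ P, -x := sum_congr rfl (fun x hx => by
          rw [if_neg (disjoint_right.1 hdis (hPF hx)), if_pos hx, neg_one_smul])
    rw [sum_union hdis, f1, ← sum_sdiff hPF, f2, f3, sum_neg_distrib]
    have e1 := sum_sdiff (f := fun x : G => x) hPF
    rw [← hPs, hwd, ← e1] at hw2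
    have e2 : ∀ a b c : G, c + c = a + (b + c) → a + (b + -c) = 0 := by
      intro a b c hh
      have : a + b = c := by
        have : a + b + c = c + c := by rw [hh, add_assoc]
        exact add_right_cancel this
      rw [← add_assoc, this, add_neg_cancel]
    exact e2 _ _ _ hw2

theorem pow2 (n : ℕ) : ∀ c : Fin n → ℤ, (∀ i, c i = 0 ∨ c i = 1 ∨ c i = -1) →
    |∑ i, c i * 2 ^ (i : ℕ)| < 2 ^ n ∧ (∑ i, c i * 2 ^ (i : ℕ) = 0 → c = 0) := by
  induction n with
  | zero => intro c _; exact ⟨by simp, fun _ => Subsingleton.elim _ _⟩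
  | succ n ih =>
    intro c hc
    obtain ⟨h1, h2⟩ := ih (fun i => c i.castSucc) (fun i => hc _)
    rw [Fin.sum_univ_castSucc]
    simp only [Fin.val_castSucc, Fin.val_last]
    rw [abs_lt] at h1
    have hp : (0 : ℤ) < 2 ^ n := by positivity
    constructor
    · rw [abs_lt, pow_succ]
      rcases hc (Fin.last n) with h | h | h <;> rw [h] <;> constructor <;> linarith [h1.1, h1.2]
    · intro h0
      have hl : c (Fin.last n) = 0 := by
        rcases hc (Fin.last n) with h | h | h
        · exact h
        · rw [h] at h0; linarith [h1.1]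
        · rw [h] at h0; linarith [h1.2]
      rw [hl, zero_mul, add_zero] at h0
      have := h2 h0
      funext i
      induction i using Fin.lastCases with
      | last => exact hl
      | cast i => exact congrFun this i

end H25.Shc
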