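import Mathlib

namespace H25.Shc

/-- `0` is not in the restricted signed `h`-fold sumset of `A`. -/
def Avoids {G : Type} [AddCommGroup G] (h : ℕ) (A : Finset G) : Prop :=
  ¬ ∃ (a : Fin h → G) (ε : Fin h → ℤ), Function.Injective a ∧ (∀ i, a i ∈ A) ∧
    (∀ i, ε i = 1 ∨ ε i = -1) ∧ ∑ i, ε i • a i = 0

/-- The quotient by `K` has a sequence of length `n` with no nonempty signed zero-sum
subsequence. -/
def Free {G : Type} [AddCommGroup G] (K : AddSubgroup G) (n : ℕ) : Prop :=
  ∃ g : Fin n → G, ∀ c : Fin n → ℤ, (∀ i, c i = 0 ∨ c i = 1 ∨ c i = -1) →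
    ∑ i, c i • g i ∈ K → c = 0

/-- `t` is the largest size of a set `A` with `0` not in the restricted signed `h`-fold
sumset of `A`. -/
def IsTau (G : Type) [AddCommGroup G] (h t : ℕ) : Prop :=
  IsGreatest {n : ℕ | ∃ A : Finset G, A.card = n ∧ Avoids h A} t

end H25.Shc
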