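import Mathlib
import Pool.Agent.H25.ShcDefs
import Pool.Agent.H25.Shc3

namespace H25.Shc

open Finset

variable {G : Type} [AddCommGroup G]

theorem free_le [Finite G] (K : AddSubgroup G) (n : ℕ) (hf : Free K n) : 2 ^ n ≤ K.index := by
  obtain ⟨g, hg⟩ := hf
  rw [AddSubgroup.index_eq_card]
  have hinj : Function.Injective fun b : Fin n → Bool =>
      (QuotientAddGroup.mk (∑ i, (if b i then (1 : ℤ) else 0) • g i) : G ⧸ K) := by
    intro b b' he
    rw [QuotientAddGroup.eq_iff_sub_mem, ← sum_sub_distrib] at he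
    simp only [← sub_smul] at he
    have := hg _ (fun i => by cases b i <;> cases b' i <;> simp) he
    funext i
    have h1 := congrFun this i
    revert h1
    cases b i <;> cases b' i <;> simp
  have := Nat.card_le_card_of_injective _ hinj
  simpa using this

theorem not_free [Finite G] (K : AddSubgroup G) (h : ℕ) (hK : K.index ≤ h) :
    ¬ Free K (Nat.log 2 h + 1) := fun hf =>
  absurd ((free_le K _ hf).trans hK) (not_le.2 (Nat.lt_pow_succ_log_self (by norm_num) h))

theorem nf (K : AddSubgroup G) (n : ℕ) (hf : ¬ Free K n) (g : Fin n → G) : ∃ c : Fin n → ℤ,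
    (∀ i, c i = 0 ∨ c i = 1 ∨ c i = -1) ∧ ∑ i, c i • g i ∈ K ∧ c ≠ 0 := by
  by_contra hcon
  push Not at hcon
  exact hf ⟨g, hcon⟩

theorem free_ker (h : ℕ) (hh : 1 ≤ h) (φ : G →+ ZMod h) (hφ : Function.Surjective φ) :
    φ.ker.index = h ∧ Free φ.ker (Nat.log 2 h) := by
  constructor
  · rw [AddSubgroup.index_ker, AddMonoidHom.range_eq_top.2 hφ]
    simp
  · choose g hg using fun i : Fin (Nat.log 2 h) => hφ ((2 ^ (i : ℕ) : ℤ) : ZMod h)
    refine ⟨g, fun c hc hs => ?_⟩
    obtain ⟨p1, p2⟩ := pow2 _ c hc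
    apply p2
    rw [AddMonoidHom.mem_ker, map_sum] at hs
    have e : ((∑ i, c i * 2 ^ (i : ℕ) : ℤ) : ZMod h) = 0 := by
      rw [← hs, Int.cast_sum]
      refine sum_congr rfl fun i _ => ?_
      rw [map_zsmul, hg, zsmul_eq_mul, Int.cast_mul]
    rw [ZMod.intCast_zmod_eq_zero_iff_dvd] at e
    apply Int.eq_zero_of_abs_lt_dvd e
    have : 2 ^ Nat.log 2 h ≤ h := Nat.pow_log_le_self 2 (by omega)
    have : ((2 : ℤ) ^ Nat.log 2 h) ≤ h := by exact_mod_cast this
    omega

theorem low (K L : AddSubgroup G) (hL : ∀ x ∈ K, x + x ∈ L) (W : Finset G) (hWK : ∀ x ∈ W, x ∈ K)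
    (N : ℕ) (hno : ∀ B ⊆ W, B.card = N → ∑ x ∈ B, x ∉ L) (d : ℕ) (hf : Free K d) :
    ∃ A : Finset G, A.card = W.card + d ∧ Avoids N A := by
  classical
  obtain ⟨g, hg⟩ := hf
  have hnot : ∀ j, g j ∉ K := by
    intro j hj
    have := hg (Pi.single j 1) (fun i => by
      by_cases e : i = j
      · subst e; simp
      · simp [Pi.single_eq_of_ne e]) (by simpa [Pi.single_apply] using hj)
    simpa using congrFun this j
  have hginj : Function.Injective g := by
    intro i j he
    by_contra hne
    have := hg (Pi.single i 1 - Pi.single j 1) (fun l => by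
      by_cases e : l = i
      · subst e; simp [Pi.single_eq_of_ne hne]
      · by_cases e' : l = j
        · subst e'; simp [Pi.single_eq_of_ne e]
        · simp [Pi.single_eq_of_ne e, Pi.single_eq_of_ne e']) (by
      simp [sub_smul, sum_sub_distrib, Pi.single_apply, he])
    have h1 := congrFun this i
    simp [Pi.single_eq_of_ne hne] at h1
  have hdis : Disjoint W (univ.image g) := by
    rw [disjoint_left]
    intro x h1 h2
    obtain ⟨j, _, rfl⟩ := mem_image.1 h2
    exact hnot j (hWK _ h1)
  refine ⟨W ∪ univ.image g, ?_, ?_⟩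
  · rw [card_union_of_disjoint hdis, card_image_of_injective _ hginj, card_univ,
      Fintype.card_fin]
  · rintro ⟨a, ε, hinj, hmem, hε, hs⟩
    let c : Fin d → ℤ := fun j => ∑ i ∈ univ.filter (fun i => a i = g j), ε i
    have hc : ∀ j i, a i = g j → c j = ε i := by
      intro j i hi
      have : univ.filter (fun i => a i = g j) = {i} := by
        ext l
        simp only [mem_filter, mem_univ, true_and, mem_singleton]
        exact ⟨fun h => hinj (h.trans hi.symm), fun h => h ▸ hi⟩
      simp only [c, this, sum_singleton]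
    have hc0 : c = 0 := by
      apply hg
      · intro j
        by_cases e : ∃ i, a i = g j
        · obtain ⟨i, hi⟩ := e
          rw [hc j i hi]; exact Or.inr (hε i)
        · left
          apply sum_eq_zero
          intro i hi
          exact absurd ⟨i, (mem_filter.1 hi).2⟩ e
      · have e1 : ∑ j, c j • g j = ∑ i, ∑ j, if a i = g j then ε i • g j else 0 := by
          rw [sum_comm]
          refine sum_congr rfl fun j _ => ?_
          simp only [c]
          rw [sum_smul, sum_filter]
        have e2 : ∑ j, c j • g j =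
            ∑ i, ((∑ j, if a i = g j then ε i • g j else 0) - ε i • a i) := by
          rw [sum_sub_distrib, hs, sub_zero, e1]
        rw [e2]
        refine K.sum_mem fun i _ => ?_
        rcases mem_union.1 (hmem i) with h1 | h1
        · refine K.sub_mem (K.sum_mem fun j _ => ?_) (K.zsmul_mem (hWK _ h1) _)
          rw [if_neg (fun e => hnot j (by rw [← e]; exact hWK _ h1))]
          exact K.zero_mem
        · obtain ⟨j, _, hj⟩ := mem_image.1 h1
          rw [sum_eq_single j, if_pos hj.symm, hj, sub_self]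
          · exact K.zero_mem
          · intro l _ hl
            exact if_neg fun e => hl (hginj (e.symm.trans hj.symm))
          · intro h; exact absurd (mem_univ j) h
    have hin : ∀ i, a i ∈ W := by
      intro i
      rcases mem_union.1 (hmem i) with h1 | h1
      · exact h1
      · obtain ⟨j, _, hj⟩ := mem_image.1 h1
        have := hc j i hj.symm
        rw [hc0] at this
        rcases hε i with h | h <;> rw [h] at this <;> simp at this
    refine hno (univ.image a) (fun x hx => ?_)
      (by rw [card_image_of_injective _ hinj, card_univ, Fintype.card_fin]) ?_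
    · obtain ⟨i, _, rfl⟩ := mem_image.1 hx
      exact hin i
    · rw [sum_image (fun x _ y _ h => hinj h), ← sub_zero (∑ i, a i), ← hs, ← sum_sub_distrib]
      refine L.sum_mem fun i _ => ?_
      rcases hε i with h | h <;> rw [h]
      · simp
      · simpa using hL _ (hWK _ (hin i))

theorem toFin (N : ℕ) (A B : Finset G) (hB : B ⊆ A) (hBc : B.card = N) (ε : G → ℤ)
    (hε : ∀ g, ε g = 1 ∨ ε g = -1) (hs : ∑ g ∈ B, ε g • g = 0) : ¬ Avoids N A := by
  intro hA
  apply hA
  let e := (B.equivFinOfCardEq hBc).symm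
  refine ⟨fun i => (e i).1, fun i => ε (e i).1, Subtype.val_injective.comp e.injective,
    fun i => hB (e i).2, fun i => hε _, ?_⟩
  rw [Equiv.sum_comp e (fun b : B => ε b.1 • b.1), sum_coe_sort B (fun g => ε g • g)]
  exact hs

theorem cls [Finite G] {ι : Type} (K L : AddSubgroup G) (hLK : L ≤ K) (X : Finset ι) (F : ι → G)
    (hF : ∀ i ∈ X, F i ∈ K) (hi : ∀ i ∈ X, ∀ j ∈ X, F i - F j ∈ L → i = j) :
    X.card * Nat.card L ≤ Nat.card K := by
  have hinj : Function.Injective fun p : X × L =>
      (⟨F p.1 + p.2, K.add_mem (hF _ p.1.2) (hLK p.2.2)⟩ : K) := by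
    rintro ⟨i, l⟩ ⟨j, m⟩ he
    have e : F i + l = F j + m := congrArg Subtype.val he
    have e1 : F i - F j = m - l := by rw [sub_eq_sub_iff_add_eq_add, e, add_comm]
    have e2 : i = j := Subtype.ext (hi _ i.2 _ j.2 (e1 ▸ L.sub_mem m.2 l.2))
    subst e2
    rw [Subtype.ext (add_left_cancel e)]
  have := Nat.card_le_card_of_injective _ hinj
  simpa using this

theorem cap [Finite G] (L : AddSubgroup G) (I Y : Finset G)
    (h : ∀ x ∈ I, ∃ y ∈ Y, x - y ∈ L) : I.card ≤ Y.card * Nat.card L := by
  choose! y hy1 hy2 using h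
  have hinj : Function.Injective fun x : I =>
      ((⟨y x, hy1 _ x.2⟩, ⟨x - y x, hy2 _ x.2⟩) : Y × L) := by
    intro a b he
    have e1 : y a = y b := congrArg (fun p => p.1.1) he
    have e2 : a.1 - y a = b.1 - y b := congrArg (fun p => p.2.1) he
    rw [e1] at e2
    exact Subtype.ext (sub_left_injective e2)
  have := Nat.card_le_card_of_injective _ hinj
  simpa using this

theorem dbl [Fintype G] [DecidableEq G] (K : AddSubgroup G) [DecidablePred (· ∈ K)] :
    ∃ L : AddSubgroup G, (∀ y, y ∈ L ↔ ∃ k ∈ K, k + k = y) ∧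
      Nat.card K = (univ.filter fun x : G => x ∈ K ∧ x + x = 0).card * Nat.card L := by
  let φ : K →+ G := K.subtype + K.subtype
  refine ⟨φ.range, fun y => ⟨fun ⟨k, hk⟩ => ⟨k, k.2, hk⟩, fun ⟨k, h1, h2⟩ => ⟨⟨k, h1⟩, h2⟩⟩, ?_⟩
  rw [← AddSubgroup.index_ker, ← φ.ker.card_mul_index]
  congr 1
  rw [← Fintype.card_subtype, ← Nat.card_eq_fintype_card]
  exact Nat.card_congr ⟨fun x => ⟨x.1.1, x.1.2, x.2⟩, fun x => ⟨⟨x.1, x.2.1⟩, x.2.2⟩,
    fun _ => rfl, fun _ => rfl⟩

theorem coset [Finite G] (L : AddSubgroup G) (y : G) (hy : y + y ∈ L) (a : ℕ)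
    (ha : 2 * a + 1 ≤ Nat.card L) : ∃ W : Finset G, W.card = 2 * a + 1 ∧ (∀ x ∈ W, x - y ∈ L) ∧
      ∑ x ∈ W, x - y ∈ L := by
  classical
  have := Fintype.ofFinite G
  obtain ⟨U, hU, hUc⟩ := exists_subset_card_eq (s := univ.filter fun x => x ∈ L) (n := 2 * a + 1)
    (by rw [← Fintype.card_subtype, ← Nat.card_eq_fintype_card]; exact ha)
  have hUL : ∀ x ∈ U, x ∈ L := fun x hx => (mem_filter.1 (hU hx)).2
  refine ⟨U.image fun x => x + y, by rw [card_image_of_injective _ (add_left_injective y), hUc],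
    fun x hx => ?_, ?_⟩
  · obtain ⟨u, hu, rfl⟩ := mem_image.1 hx
    simpa using hUL u hu
  · rw [sum_image (fun x _ z _ h => add_left_injective y h), sum_add_distrib, sum_const, hUc,
      succ_nsmul, ← add_assoc, add_sub_cancel_right, mul_nsmul, two_nsmul]
    exact L.add_mem (L.sum_mem hUL) (L.nsmul_mem hy a)

end H25.Shc
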