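import Mathlib
import Pool.Agent.H25.Shc4

namespace H25.Shc

open Finset

variable {G : Type} [AddCommGroup G] {α : Type} [DecidableEq α]

theorem extend (K : AddSubgroup G) (f : α → G) (Z W : Finset α) (hdis : Disjoint Z W)
    (ε : α → ℤ) (h1 : ∀ g, ε g = 1 ∨ ε g = -1) (d : ℕ) (e : Fin d ≃ W) (c : Fin d → ℤ)
    (hc1 : ∀ i, c i = 0 ∨ c i = 1 ∨ c i = -1) (hc3 : c ≠ 0)
    (hs : ∑ g ∈ Z, ε g • f g + ∑ i, c i • f (e i) ∈ K) :
    ∃ D ⊆ W, D.Nonempty ∧ ∃ ε' : α → ℤ, (∀ g, ε' g = 1 ∨ ε' g = -1) ∧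
      ∑ g ∈ Z ∪ D, ε' g • f g ∈ K := by
  let g : Fin d → α := fun i => (e i).1
  have hg : Function.Injective g := Subtype.val_injective.comp e.injective
  let I : Finset (Fin d) := univ.filter fun i => c i ≠ 0
  have hI : I.Nonempty := by
    by_contra h0
    rw [not_nonempty_iff_eq_empty, filter_eq_empty_iff] at h0
    exact hc3 (funext fun i => by simpa using h0 (mem_univ i))
  have hD : I.image g ⊆ W := by
    intro x hx
    obtain ⟨i, _, rfl⟩ := mem_image.1 hx
    exact (e i).2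
  have hdis' : Disjoint Z (I.image g) := hdis.mono_right hD
  refine ⟨I.image g, hD, hI.image g,
    fun x => if x ∈ I.image g then Function.extend g c 1 x else ε x, ?_, ?_⟩
  · intro x
    by_cases hx : x ∈ I.image g
    · simp only [if_pos hx]
      obtain ⟨i, hi, rfl⟩ := mem_image.1 hx
      rw [hg.extend_apply]
      exact (hc1 i).resolve_left (mem_filter.1 hi).2
    · simp only [if_neg hx]; exact h1 x
  · have e0 : ∑ x ∈ Z, (if x ∈ I.image g then Function.extend g c 1 x else ε x) • f x =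
        ∑ x ∈ Z, ε x • f x :=
      sum_congr rfl (fun x hx => by rw [if_neg (disjoint_left.1 hdis' hx)])
    have e1 : ∑ x ∈ I.image g,
        (if x ∈ I.image g then Function.extend g c 1 x else ε x) • f x =
        ∑ x ∈ I.image g, Function.extend g c 1 x • f x :=
      sum_congr rfl (fun x hx => by rw [if_pos hx])
    rw [sum_union hdis', e0, e1, sum_image (fun x _ y _ h => hg h)]
    simp only [hg.extend_apply]
    have e2 : ∑ x ∈ I, c x • f (g x) = ∑ x, c x • f (g x) :=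
      sum_filter_of_ne (fun i _ h h0 => h (by rw [h0, zero_smul]))
    rw [e2]
    exact hs

theorem flip (f : α → G) (Z : Finset α) (ε : α → ℤ) (h1 : ∀ g, ε g = 1 ∨ ε g = -1) (z : α)
    (hz : z ∈ Z) : ∃ ε' : α → ℤ, (∀ g, ε' g = 1 ∨ ε' g = -1) ∧
      ∑ g ∈ Z, ε' g • f g = ∑ g ∈ Z, ε g • f g - ε z • (f z + f z) := by
  refine ⟨Function.update ε z (-ε z), fun g => ?_, ?_⟩
  · by_cases hg : g = z
    · subst hg
      rw [Function.update_self]
      rcases h1 g with h | h <;> simp [h]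
    · rw [Function.update_of_ne hg]; exact h1 g
  · rw [← add_sum_erase _ _ hz, ← add_sum_erase _ _ hz, Function.update_self]
    have : ∑ x ∈ Z.erase z, Function.update ε z (-ε z) x • f x = ∑ x ∈ Z.erase z, ε x • f x :=
      sum_congr rfl fun x hx => by rw [Function.update_of_ne (ne_of_mem_erase hx)]
    rw [this, neg_smul, smul_add]
    abel

theorem block2 (K : AddSubgroup G) (f : α → G) (d : ℕ) (hd : ¬ Free K (d + 1)) (O : Finset α) :
    ∃ Z ⊆ O, ∃ ε : α → ℤ, (∀ g, ε g = 1 ∨ ε g = -1) ∧ ∑ g ∈ Z, ε g • f g ∈ K ∧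
      O.card ≤ Z.card + d ∧ (O.card + 1 ≤ Z.card + d ∨ ∀ z ∈ Z, f z + f z ∈ K) := by
  classical
  obtain ⟨Z, hZ, hmax⟩ := exists_max_image (O.powerset.filter fun Z => ∃ ε : α → ℤ,
    (∀ g, ε g = 1 ∨ ε g = -1) ∧ ∑ g ∈ Z, ε g • f g ∈ K) card
    ⟨∅, mem_filter.2 ⟨by simp, fun _ => 1, by simp, by simp⟩⟩
  obtain ⟨hZ1, ε, hε, hs⟩ := mem_filter.1 hZ
  have hZO := mem_powerset.1 hZ1
  have hc := card_sdiff_of_subset hZO
  have hle := card_le_card hZO
  have no : ∀ W ⊆ O \ Z, ¬ ∃ D ⊆ W, D.Nonempty ∧ ∃ ε' : α → ℤ, (∀ g, ε' g = 1 ∨ ε' g = -1) ∧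
      ∑ g ∈ Z ∪ D, ε' g • f g ∈ K := by
    rintro W hW ⟨D, hD, hne, h⟩
    have h2 := hmax (Z ∪ D) (mem_filter.2 ⟨mem_powerset.2 (union_subset hZO
      ((hD.trans hW).trans sdiff_subset)), h⟩)
    rw [card_union_of_disjoint (disjoint_sdiff.mono_right (hD.trans hW))] at h2
    have := hne.card_pos
    omega
  have h1 : O.card ≤ Z.card + d := by
    by_contra hlt
    obtain ⟨W, hW, hWc⟩ := exists_subset_card_eq (s := O \ Z) (n := d + 1) (by omega)
    let e := (W.equivFinOfCardEq hWc).symm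
    obtain ⟨c, hc1, hc2, hc3⟩ := nf K _ hd (fun i => f (e i))
    exact no W hW (extend K f Z W (disjoint_sdiff.mono_right hW) ε hε _ e c hc1 hc3
      (K.add_mem hs hc2))
  refine ⟨Z, hZO, ε, hε, hs, h1, ?_⟩
  by_contra hcon
  push Not at hcon
  obtain ⟨h2, z, hz, hz2⟩ := hcon
  let e := ((O \ Z).equivFinOfCardEq (n := d) (by omega)).symm
  have key : ∀ c : Fin (d + 1) → ℤ, (∀ i, c i = 0 ∨ c i = 1 ∨ c i = -1) → c 0 ≠ -1 →
      c 0 • (-(ε z • (f z + f z))) + ∑ i : Fin d, c i.succ • f (e i) ∈ K → c = 0 := by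
    intro c hc1 h0 hc2
    by_cases ht : (fun i : Fin d => c i.succ) = 0
    · have ht' : ∀ i : Fin d, c i.succ = 0 := fun i => congrFun ht i
      simp only [ht', zero_smul, sum_const_zero, add_zero] at hc2
      rcases hc1 0 with h | h | h
      · funext i
        induction i using Fin.cases with
        | zero => exact h
        | succ i => exact ht' i
      · rw [h, one_smul, neg_mem_iff] at hc2
        rcases hε z with h3 | h3 <;> rw [h3] at hc2
        · exact absurd (by simpa using hc2) hz2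
        · rw [neg_one_smul, neg_mem_iff] at hc2; exact absurd hc2 hz2
      · exact absurd h h0
    · exfalso
      rcases hc1 0 with h | h | h
      · rw [h, zero_smul, zero_add] at hc2
        exact no _ (Subset.refl _) (extend K f Z _ disjoint_sdiff ε hε _ e _
          (fun i => hc1 _) ht (K.add_mem hs hc2))
      · obtain ⟨ε', h3, h4⟩ := flip f Z ε hε z hz
        rw [h, one_smul] at hc2
        refine no _ (Subset.refl _) (extend K f Z _ disjoint_sdiff ε' h3 _ e _
          (fun i => hc1 _) ht ?_)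
        rw [h4, sub_eq_add_neg, add_assoc]
        exact K.add_mem hs hc2
      · exact absurd h h0
  obtain ⟨c, hc1, hc2, hc3⟩ := nf K _ hd
    (Fin.cons (-(ε z • (f z + f z))) (fun i => f (e i)) : Fin (d + 1) → G)
  rw [Fin.sum_univ_succ] at hc2
  simp only [Fin.cons_zero, Fin.cons_succ] at hc2
  by_cases h0 : c 0 = -1
  · have := key (-c) (fun i => by rcases hc1 i with h | h | h <;> simp [h]) (by simp [h0]) (by
      simp only [Pi.neg_apply, neg_smul, sum_neg_distrib, ← neg_add]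
      exact K.neg_mem hc2)
    exact hc3 (neg_eq_zero.1 this)
  · exact hc3 (key c hc1 h0 hc2)

theorem sd (F : α → G) (R S : Finset α) : ∑ y ∈ (R \ S) ∪ (S \ R), F y =
    ∑ y ∈ R, F y + ∑ y ∈ S, F y - ∑ y ∈ R ∩ S, (F y + F y) := by
  rw [sum_union disjoint_sdiff_sdiff, sum_add_distrib, ← sum_inter_add_sum_sdiff R S F,
    ← sum_inter_add_sum_sdiff S R F, inter_comm S R]
  abel

theorem hull (L : AddSubgroup G) (F : α → G) (Y : Finset α) (hF : ∀ y ∈ Y, F y + F y ∈ L) :
    ∃ W : AddSubgroup G, ∀ p, p ∈ W ↔ ∃ R ⊆ Y, p + ∑ y ∈ R, F y ∈ L := by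
  refine ⟨⟨⟨⟨{p | ∃ R ⊆ Y, p + ∑ y ∈ R, F y ∈ L}, ?_⟩, ⟨∅, by simp, by simp⟩⟩, ?_⟩,
    fun _ => Iff.rfl⟩
  · rintro p q ⟨R, hR, h1⟩ ⟨S, hS, h2⟩
    refine ⟨(R \ S) ∪ (S \ R), union_subset (sdiff_subset.trans hR) (sdiff_subset.trans hS), ?_⟩
    have := L.sub_mem (L.add_mem h1 h2)
      (L.sum_mem (t := R ∩ S) fun y hy => hF y (hR (mem_inter.1 hy).1))
    rw [sd]
    have e : p + q + (∑ y ∈ R, F y + ∑ y ∈ S, F y - ∑ y ∈ R ∩ S, (F y + F y)) =
        p + ∑ y ∈ R, F y + (q + ∑ y ∈ S, F y) - ∑ y ∈ R ∩ S, (F y + F y) := by abel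
    rw [e]; exact this
  · rintro p ⟨R, hR, h1⟩
    refine ⟨R, hR, ?_⟩
    have := L.sub_mem (L.sum_mem (t := R) fun y hy => hF y (hR hy)) h1
    rw [sum_add_distrib] at this
    have e : -p + ∑ y ∈ R, F y = ∑ y ∈ R, F y + ∑ y ∈ R, F y - (p + ∑ y ∈ R, F y) := by abel
    rw [e]; exact this

theorem pairsL [DecidableEq G] (L : AddSubgroup G) (X : Finset G)
    (h5 : ∀ U ⊆ X, 4 < U.card → ∃ x ∈ U, ∃ y ∈ U, x ≠ y ∧ x + y ∈ L) (p : ℕ)
    (hp : 2 * p + 4 ≤ X.card) : ∃ P ⊆ X, P.card = 2 * p ∧ ∑ x ∈ P, x ∈ L := by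
  induction p with
  | zero => exact ⟨∅, by simp, by simp, by simp⟩
  | succ p ih =>
    obtain ⟨P, hP, hc, hs⟩ := ih (by omega)
    obtain ⟨x, hx, y, hy, hne, hxy⟩ := h5 (X \ P) sdiff_subset
      (by rw [card_sdiff_of_subset hP]; omega)
    have hsub : ({x, y} : Finset G) ⊆ X \ P := insert_subset hx (singleton_subset_iff.2 hy)
    have hdis : Disjoint P {x, y} := disjoint_sdiff.mono_right hsub
    refine ⟨P ∪ {x, y}, union_subset hP (hsub.trans sdiff_subset), ?_, ?_⟩
    · rw [card_union_of_disjoint hdis, hc, card_pair hne]; ring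
    · rw [sum_union hdis, sum_pair hne]; exact L.add_mem hs hxy

theorem finish [DecidableEq G] (Z F C : Finset G) (hdis : Disjoint Z F) (hCF : C ⊆ F)
    (ε : G → ℤ) (hε : ∀ g, ε g = 1 ∨ ε g = -1) (k : G) (hk : k ∈ SS C)
    (hw2 : k + k = ∑ g ∈ Z, ε g • g + ∑ g ∈ F, g) :
    ∃ ε' : G → ℤ, (∀ g, ε' g = 1 ∨ ε' g = -1) ∧ ∑ g ∈ Z ∪ F, ε' g • g = 0 := by
  obtain ⟨P, hP, hPs⟩ := mem_image.1 hk
  have hPF : P ⊆ F := (mem_powerset.1 hP).trans hCF
  refine ⟨fun x => if x ∈ Z then ε x else if x ∈ P then -1 else 1, ?_, ?_⟩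
  · intro x
    by_cases h1 : x ∈ Z
    · simp only [if_pos h1]; exact hε x
    · by_cases h2 : x ∈ P <;> simp [h1, h2]
  · have f1 : ∑ x ∈ Z, (if x ∈ Z then ε x else if x ∈ P then -1 else 1) • x =
        ∑ x ∈ Z, ε x • x := sum_congr rfl (fun x hx => by rw [if_pos hx])
    have f2 : ∑ x ∈ F \ P, (if x ∈ Z then ε x else if x ∈ P then -1 else 1) • x =
        ∑ x ∈ F \ P, x := sum_congr rfl (fun x hx => by
          rw [if_neg (disjoint_right.1 hdis (mem_sdiff.1 hx).1), if_neg (mem_sdiff.1 hx).2,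
            one_smul])
    have f3 : ∑ x ∈ P, (if x ∈ Z then ε x else if x ∈ P then -1 else 1) • x =
        ∑ x ∈ P, -x := sum_congr rfl (fun x hx => by
          rw [if_neg (disjoint_right.1 hdis (hPF hx)), if_pos hx, neg_one_smul])
    rw [sum_union hdis, f1, ← sum_sdiff hPF, f2, f3, sum_neg_distrib]
    have e1 := sum_sdiff (f := fun x : G => x) hPF
    rw [← hPs, ← e1] at hw2
    have e2 : ∀ a b c : G, c + c = a + (b + c) → a + (b + -c) = 0 := by
      intro a b c hh
      have : a + b = c := by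
        have : a + b + c = c + c := by rw [hh, add_assoc]
        exact add_right_cancel this
      rw [← add_assoc, this, add_neg_cancel]
    exact e2 _ _ _ hw2

open Classical in
theorem struct (h : ℕ) (hh : 1 ≤ h) : ∃ N0 : ℕ, ∀ (G : Type) [AddCommGroup G] [Fintype G],
    ∀ N, N0 ≤ N → Nat.card G = h * N → ∀ A : Finset G, N ≤ A.card →
    ∃ (K : AddSubgroup G) (T : ℕ), K.index ≤ h ∧ (A.filter fun x => x ∉ K).card ≤ T * h ∧
      4 * (T * ((h + 1) * (h + 1))) < N ∧ ∀ Y : Finset G, Y.card ≤ 4 →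
      ∃ C ⊆ (A.filter fun x => x ∈ K) \ Y, C.card ≤ T ∧ ∀ k ∈ K, k ∈ SS C := by
  obtain ⟨q, hq⟩ : ∃ q, q = 8 * ((h + 1) * (h + 1)) := ⟨_, rfl⟩
  obtain ⟨M, hM⟩ : ∃ M, M = 6 * (2 * h) * (h * q) + 1 := ⟨_, rfl⟩
  refine ⟨(2 * M + 6) * q + 1, ?_⟩
  intro G _ _ N hN hcard A hA
  obtain ⟨T, hT⟩ : ∃ T, T = 2 * M + 1 + (N / q + 1) + 4 := ⟨_, rfl⟩
  have hq0 : 0 < q := by rw [hq]; positivity
  have hT4 : 4 ≤ T := hT ▸ Nat.le_add_left _ _
  have hTN : 4 * (T * ((h + 1) * (h + 1))) < N := by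
    have a1 : N / q * q ≤ N := Nat.div_mul_le_self N q
    have a2 : T * q = (2 * M + 6) * q + N / q * q := by rw [hT]; ring
    have a3 : T * q = 8 * (T * ((h + 1) * (h + 1))) := by rw [hq]; ring
    omega
  have hT2 : 2 * (T * h) + 2 * T < N + 1 := by nlinarith [Nat.mul_le_mul_left T hh]
  have cardK : ∀ K : AddSubgroup G, (univ.filter fun x => x ∈ K).card = Nat.card K := by
    intro K
    rw [Nat.card_eq_fintype_card, Fintype.card_subtype]
  have split : ∀ K : AddSubgroup G,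
      (A.filter fun x => x ∈ K).card + (A.filter fun x => x ∉ K).card = A.card :=
    fun K => card_filter_add_card_filter_not _
  have inK : ∀ K : AddSubgroup G, (A.filter fun x => x ∈ K).card ≤ Nat.card K := by
    intro K
    rw [← cardK]
    exact card_le_card (filter_subset_filter _ (subset_univ A))
  obtain ⟨K, ⟨hK1, hK2⟩, hmax⟩ := Set.exists_max_image
    {K : AddSubgroup G | K.index ≤ h ∧ (A.filter fun x => x ∉ K).card ≤ T * K.index}
    (fun K => K.index) (Set.toFinite _) ⟨⊤, by simpa using hh⟩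
  have hK3 : (A.filter fun x => x ∉ K).card ≤ T * h := hK2.trans (Nat.mul_le_mul_left _ hK1)
  have hKle : (univ.filter fun x => x ∈ K).card ≤ h * N := by
    rw [← hcard, Nat.card_eq_fintype_card]; exact card_le_univ _
  have sK := split K
  refine ⟨K, T, hK1, hK3, hTN, fun Y hY => ?_⟩
  have hYc := le_card_sdiff Y (A.filter fun x => x ∈ K)
  obtain ⟨C, hC, hCc, hCs⟩ := span K (univ.filter fun x => x ∈ K) (by simp)
    ((A.filter fun x => x ∈ K) \ Y)
    (sdiff_subset.trans (filter_subset_filter _ (subset_univ A))) (h * q) (2 * h)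
    (N / q + 1) (T - 4) (by rw [hT, hM, Nat.add_sub_cancel]) (by
      intro C hC hCc
      set L := AddSubgroup.closure
        ((((A.filter fun x => x ∈ K) \ Y) \ C : Finset G) : Set G) with hL
      have hLK : L ≤ K := by
        rw [hL, AddSubgroup.closure_le]
        intro x hx
        exact (mem_filter.1 (mem_sdiff.1 (mem_sdiff.1 (mem_coe.1 hx)).1).1).2
      by_contra hcon
      have hlt : L < K := lt_of_le_of_ne hLK (fun e => hcon (e ▸ le_rfl))
      have hi := AddSubgroup.index_strictAnti hlt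
      have hsub : (A.filter fun x => x ∉ L) ⊆ (A.filter fun x => x ∉ K) ∪ (C ∪ Y) := by
        intro x hx
        have hx' := mem_filter.1 hx
        by_cases h1 : x ∈ K
        · refine mem_union_right _ ?_
          by_contra h2
          rw [mem_union, not_or] at h2
          exact hx'.2 (AddSubgroup.subset_closure
            (mem_coe.2 (mem_sdiff.2 ⟨mem_sdiff.2 ⟨mem_filter.2 ⟨hx'.1, h1⟩, h2.2⟩, h2.1⟩)))
        · exact mem_union_left _ (mem_filter.2 ⟨hx'.1, h1⟩)
      have hc := (card_le_card hsub).trans (card_union_le _ _)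
      have hc' := card_union_le C Y
      have sL := split L
      have iL := inK L
      have hLm := L.card_mul_index
      have hidx : L.index ≤ h := by
        by_contra h3
        have b1 : Nat.card L * (h + 1) ≤ h * N := by
          rw [← hcard, ← hLm]; exact Nat.mul_le_mul_left _ (by omega)
        have b2 : N ≤ Nat.card L + (T * h + T) := by omega
        have b3 := Nat.mul_le_mul_right (h + 1) b2
        nlinarith
      have := hmax L ⟨hidx, by
        have := Nat.mul_le_mul_left T (show K.index + 1 ≤ L.index from hi)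
        rw [Nat.mul_succ] at this
        omega⟩
      omega)
    (by
      refine hKle.trans ?_
      rw [mul_comm 2 h, mul_assoc]
      exact Nat.mul_le_mul_left _ (by omega))
    (by omega)
    (by
      refine hKle.trans ?_
      rw [mul_assoc]
      exact Nat.mul_le_mul_left _ (Nat.lt_mul_div_succ N hq0).le)
  exact ⟨C, hC, by omega, fun k hk => hCs (mem_filter.2 ⟨mem_univ _, hk⟩)⟩

end H25.Shc
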