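import Mathlib
import Pool.Agent.H25.Shc5

namespace H25.Shc

open Finset

open Classical in
theorem upperE (h : ℕ) (hh : 1 ≤ h) : ∃ N0 : ℕ, ∀ (G : Type) [AddCommGroup G] [Fintype G],
    ∀ N, N0 ≤ N → Even N → Nat.card G = h * N →
    (univ.filter fun x : G => x + x = 0).card ≤ 4 →
    (Odd h → (univ.filter fun x : G => x + x = 0).card ≤ 2) →
    (Odd h → N % 4 = 0 → ∀ x : G, x + x = 0 → ∃ g, g + g = x) →
    ∀ s : ℕ, s ≤ Nat.log 2 h + 2 → Nat.log 2 h ≤ s →
    (s = Nat.log 2 h → Odd h ∧ N % 4 = 0 ∧ ¬ ∃ K : AddSubgroup G, Even (Nat.card K) ∧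
      K.index < h ∧ Free K (Nat.log 2 h)) →
    (s = Nat.log 2 h + 1 → Odd h ∨ ¬ ∃ K : AddSubgroup G, (∀ x, x + x = 0 → x ∈ K) ∧
      4 * K.index < 3 * h ∧ Free K (Nat.log 2 h)) →
    ∀ A : Finset G, A.card = N + s → ¬ Avoids N A := by
  obtain ⟨N0, hN0⟩ := struct h hh
  refine ⟨N0 + 2 * (Nat.log 2 h + 20), ?_⟩
  intro G _ _ N hN hNe hcard t4 t2 hhalf s hs1 hs2 hs3 hs4 A hA
  obtain ⟨K, T, hK1, hO, hTN, hC⟩ := hN0 G N (by omega) hcard A (by omega)
  obtain ⟨L, hL, hKw⟩ := dbl K
  generalize hj : Nat.log 2 h = j at *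
  set w := (univ.filter fun x : G => x ∈ K ∧ x + x = 0).card with hw
  have hwsub : (univ.filter fun x : G => x ∈ K ∧ x + x = 0) ⊆
      univ.filter fun x : G => x + x = 0 := fun x hx => by
    simp only [mem_filter, mem_univ, true_and] at hx ⊢; exact hx.2
  have hwt := card_le_card hwsub
  set I := A.filter fun x => x ∈ K with hI
  set O := A.filter fun x => x ∉ K with hOd
  have hIO : I.card + O.card = A.card := card_filter_add_card_filter_not _
  have hIK : ∀ x ∈ I, x ∈ K := fun x hx => (mem_filter.1 hx).2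
  have h2L : ∀ x ∈ K, x + x ∈ L := fun x hx => (hL _).2 ⟨x, hx, rfl⟩
  have hLK : L ≤ K := fun y hy => by
    obtain ⟨k, hk, rfl⟩ := (hL _).1 hy
    exact K.add_mem hk hk
  have hLp : 0 < Nat.card L := Nat.card_pos
  have hT2 : 4 * (T * h) * (h + 1) + 4 * T * (h + 1) < N := by nlinarith
  have hT3 : 2 * (T * h) + 2 * T < N := by nlinarith
  have hKm := K.card_mul_index
  have hIc : I.card ≤ Nat.card K := by
    rw [Nat.card_eq_fintype_card, Fintype.card_subtype]
    exact card_le_card (filter_subset_filter _ (subset_univ A))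
  obtain ⟨Y, hYI, hYi, hYm⟩ := exists_subset_injOn_image_eq_of_surjOn
    (f := (QuotientAddGroup.mk : G → G ⧸ L)) (I : Set G) (I.image QuotientAddGroup.mk)
    (by intro q hq; simpa using hq)
  have hYI' : Y ⊆ I := coe_subset.1 hYI
  have hYK : ∀ y ∈ Y, y ∈ K := fun y hy => hIK y (hYI' hy)
  have hY1 : ∀ x ∈ Y, ∀ y ∈ Y, x - y ∈ L → x = y := fun x hx y hy hxy =>
    hYi hx hy (QuotientAddGroup.eq_iff_sub_mem.2 hxy)
  have hY2 : ∀ x ∈ I, ∃ y ∈ Y, x - y ∈ L := by
    intro x hx
    have : (QuotientAddGroup.mk x : G ⧸ L) ∈ Y.image QuotientAddGroup.mk := by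
      rw [hYm]; exact mem_image_of_mem _ hx
    obtain ⟨y, hy, e⟩ := mem_image.1 this
    exact ⟨y, hy, QuotientAddGroup.eq_iff_sub_mem.1 e.symm⟩
  have hcl : ∀ U : Finset G, (∀ x ∈ U, x ∈ K) → (∀ x ∈ U, ∀ y ∈ U, x - y ∈ L → x = y) →
      U.card ≤ w := fun U h1 h2 =>
    Nat.le_of_mul_le_mul_right (hKw ▸ cls K L hLK U id h1 h2) hLp
  have hYw := hcl Y hYK hY1
  have hcap := cap L I Y hY2
  let F : G → G × ZMod 2 := fun y => (y, 1)
  let Lt : AddSubgroup (G × ZMod 2) := L.prod ⊥
  have hLt : ∀ p, p ∈ Lt ↔ p.1 ∈ L ∧ p.2 = 0 := fun p => by simp [Lt, AddSubgroup.mem_prod]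
  have hLtc : Nat.card Lt = Nat.card L := by
    rw [Nat.card_congr (AddSubgroup.prodEquiv L ⊥).toEquiv, Nat.card_prod]; simp
  have o2 : (1 : ZMod 2) + 1 = 0 := by decide
  have hFF : ∀ y ∈ K, F y + F y ∈ Lt := fun y hy => (hLt _).2 ⟨h2L y hy, o2⟩
  obtain ⟨W, hW⟩ := hull Lt F Y (fun y hy => hFF y (hYK y hy))
  have hLW : Lt ≤ W := fun p hp => (hW p).2 ⟨∅, by simp, by simpa using hp⟩
  have hFI : ∀ x ∈ I, F x ∈ W := by
    intro x hx
    obtain ⟨y, hy, e⟩ := hY2 x hx
    refine (hW _).2 ⟨{y}, singleton_subset_iff.2 hy, (hLt _).2 ⟨?_, by simpa [F] using o2⟩⟩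
    have := L.add_mem e (h2L y (hYK y hy))
    simpa [F] using this
  have hWK : W ≤ K.prod ⊤ := by
    intro p hp
    obtain ⟨R, hR, h1⟩ := (hW p).1 hp
    have h2 := hLK ((hLt _).1 h1).1
    rw [Prod.fst_add, Prod.fst_sum] at h2
    refine AddSubgroup.mem_prod.2 ⟨?_, trivial⟩
    exact (K.add_mem_cancel_right (K.sum_mem fun y hy => hYK y (hR hy))).1 h2
  have hKtc : Nat.card (K.prod (⊤ : AddSubgroup (ZMod 2))) = Nat.card K * 2 := by
    rw [Nat.card_congr (AddSubgroup.prodEquiv K ⊤).toEquiv, Nat.card_prod]; simp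
  have hWle : Nat.card W ≤ Nat.card K * 2 := hKtc ▸ AddSubgroup.card_le_of_le hWK
  have full : Nat.card K * 2 ≤ Nat.card W → ∀ p : G × ZMod 2, p.1 ∈ K → p ∈ W := by
    intro h1 p hp
    rw [AddSubgroup.eq_of_le_of_card_ge hWK (hKtc ▸ h1)]
    exact AddSubgroup.mem_prod.2 ⟨hp, trivial⟩
  have par : ∀ D : Finset G, (∑ y ∈ D, F y).2 = (D.card : ZMod 2) := fun D => by
    simp [F, Prod.snd_sum]
  have dcard : ∀ R ⊆ Y, ∀ S ⊆ Y, ∑ y ∈ R, F y - ∑ y ∈ S, F y ∈ Lt → R ≠ S →
      ∃ D ⊆ R ∪ S, 4 ≤ D.card ∧ ∑ y ∈ D, F y ∈ Lt := by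
    intro R hR S hS h1 hne
    have hD : ∑ y ∈ (R \ S) ∪ (S \ R), F y ∈ Lt := by
      have := Lt.sub_mem (Lt.add_mem h1 (Lt.sum_mem (t := S) fun y hy => hFF y (hYK y (hS hy))))
        (Lt.sum_mem (t := R ∩ S) fun y hy => hFF y (hYK y (hR (mem_inter.1 hy).1)))
      rw [sd]
      rw [sum_add_distrib (s := S), ← add_assoc, sub_add_cancel] at this
      exact this
    have hsub : (R \ S) ∪ (S \ R) ⊆ R ∪ S := union_subset_union sdiff_subset sdiff_subset
    refine ⟨_, hsub, ?_, hD⟩
    have hev : Even ((R \ S) ∪ (S \ R)).card := by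
      rw [← ZMod.natCast_eq_zero_iff_even, ← par]; exact ((hLt _).1 hD).2
    have h0 : ((R \ S) ∪ (S \ R)).card ≠ 0 := by
      rw [Ne, card_eq_zero, union_eq_empty, sdiff_eq_empty_iff_subset, sdiff_eq_empty_iff_subset]
      exact fun h0 => hne (Subset.antisymm h0.1 h0.2)
    have h2 : ((R \ S) ∪ (S \ R)).card ≠ 2 := by
      intro h2
      obtain ⟨x, y, hxy, e⟩ := card_eq_two.1 h2
      have hsY := hsub.trans (union_subset hR hS)
      rw [e] at hD hsY
      rw [sum_pair hxy] at hD
      have hx := hsY (mem_insert_self _ _)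
      have hy := hsY (mem_insert_of_mem (mem_singleton_self _))
      have := L.sub_mem ((hLt _).1 hD).1 (h2L y (hYK y hy))
      exact hxy (hY1 x hx y hy (by simpa [F] using this))
    obtain ⟨a, ha⟩ := hev
    omega
  have size : ∀ U ⊆ Y, (∀ D ⊆ U, 4 ≤ D.card → ∑ y ∈ D, F y ∉ Lt) →
      2 ^ U.card * Nat.card L ≤ Nat.card W := by
    intro U hU h1
    rw [← card_powerset, ← hLtc]
    refine cls W Lt hLW U.powerset (fun R => ∑ y ∈ R, F y) (fun R hR => W.sum_mem fun y hy =>
      hFI y (hYI' (hU (mem_powerset.1 hR hy)))) (fun R hR S hS h2 => ?_)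
    by_contra hne
    obtain ⟨D, hD, h3, h4⟩ := dcard R ((mem_powerset.1 hR).trans hU) S
      ((mem_powerset.1 hS).trans hU) h2 hne
    exact h1 D (hD.trans (union_subset (mem_powerset.1 hR) (mem_powerset.1 hS))) h3 h4
  have size3 : ∀ n ≤ 3, n ≤ Y.card → 2 ^ n * Nat.card L ≤ Nat.card W := by
    intro n h1 h2
    obtain ⟨U, hU, rfl⟩ := exists_subset_card_eq h2
    exact size U hU fun D hD h3 => by have := card_le_card hD; omega
  have hYp : 1 ≤ Y.card := by
    by_contra h0
    rw [show Y.card = 0 by omega] at hcap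
    omega
  have hW2 : 2 * I.card ≤ Nat.card W := by
    have : Y.card = 1 ∨ Y.card = 2 ∨ Y.card = 3 ∨ Y.card = 4 := by omega
    rcases this with e | e | e | e <;> rw [e] at hcap
    · have := size3 1 (by omega) (by omega); omega
    · have := size3 2 (by omega) (by omega); omega
    · have := size3 3 (by omega) (by omega); omega
    · have := size3 3 (by omega) (by omega); omega
  have hWi : W.index ≤ h := by
    by_contra h3
    have b0 := W.card_mul_index
    rw [Nat.card_prod, hcard, Nat.card_zmod] at b0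
    have b1 : Nat.card W * (h + 1) ≤ h * N * 2 := by
      rw [← b0]; exact Nat.mul_le_mul_left _ (by omega)
    have b2 : 2 * N ≤ Nat.card W + 2 * (T * h) := by omega
    have b3 := Nat.mul_le_mul_right (h + 1) b2
    nlinarith
  have getR : ∀ (Z : Finset G) (ε : G → ℤ), ∑ g ∈ Z, ε g • F g ∈ W →
      ∃ R ⊆ Y, ∑ g ∈ Z, ε g • F g + ∑ g ∈ I, F g + ∑ y ∈ R, F y ∈ Lt := fun Z ε h1 =>
    (hW _).1 (W.add_mem h1 (W.sum_mem hFI))
  have fstF : ∀ (Z : Finset G) (ε : G → ℤ), (∑ g ∈ Z, ε g • F g).1 = ∑ g ∈ Z, ε g • g :=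
    fun Z ε => by simp [F, Prod.fst_sum]
  have key : ∃ Z ⊆ O, ∃ ε : G → ℤ, (∀ g, ε g = 1 ∨ ε g = -1) ∧ ∃ R ⊆ Y,
      ∑ g ∈ Z, ε g • F g + ∑ g ∈ I, F g + ∑ y ∈ R, F y ∈ Lt ∧
      O.card + R.card ≤ Z.card + s + 1 := by
    by_cases hcrit : Y.card ≤ s + 1 - j ∨ Y.card = 4
    · obtain ⟨Z, hZ, ε, hε, h1, h2, -⟩ := block2 W F j (hj ▸ not_free W h hWi) O
      obtain ⟨R, hR, h3⟩ := getR Z ε h1
      have hRc := card_le_card hR
      rcases hcrit with h4 | h4
      · exact ⟨Z, hZ, ε, hε, R, hR, h3, by omega⟩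
      · have hsj : j + 1 ≤ s := by
          by_contra h5
          have := t2 (hs3 (by omega)).1
          omega
        by_cases h5 : R.card ≤ 2
        · exact ⟨Z, hZ, ε, hε, R, hR, h3, by omega⟩
        · have hY : ∑ y ∈ Y, F y ∈ Lt := by
            by_contra h6
            have := size Y (Subset.refl _) fun D hD h7 => by
              rwa [eq_of_subset_of_card_le hD (by omega)]
            have h8 : w * Nat.card L ≤ 4 * Nat.card L := Nat.mul_le_mul_right _ (by omega)
            rw [h4] at this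
            omega
          refine ⟨Z, hZ, ε, hε, Y \ R, sdiff_subset, ?_, by rw [card_sdiff_of_subset hR]; omega⟩
          have := Lt.sub_mem (Lt.add_mem h3 hY)
            (Lt.sum_mem (t := R) fun y hy => hFF y (hYK y (hR hy)))
          rw [sum_add_distrib, ← sum_sdiff hR] at this
          have e : ∀ a b c : G × ZMod 2, a + b + (c + b) - (b + b) = a + c := by
            intro a b c; abel
          rwa [e] at this
    · have hcase : (Y.card = 2 ∧ s = j) ∨ (Y.card = 3 ∧ s = j + 1 ∧ ¬ Odd h) := by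
        by_cases ho : Odd h
        · have := t2 ho; omega
        · have : s ≠ j := fun e => ho (hs3 e).1
          exact Or.inr ⟨by omega, by omega, ho⟩
      have hw' : (Y.card = 2 ∧ w = 2) ∨ (Y.card = 3 ∧ w = 4) := by
        rcases hcase with ⟨e1, e2⟩ | ⟨e1, e2, -⟩
        · have := t2 (hs3 e2).1; omega
        · have := size3 3 (by omega) (by omega)
          have h8 : 4 * Nat.card L ≤ w * Nat.card L := by omega
          have := Nat.le_of_mul_le_mul_right h8 hLp
          omega
      have hfull := full (by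
        rcases hw' with ⟨e1, e2⟩ | ⟨e1, e2⟩ <;> rw [e2] at hKw
        · have := size3 2 (by omega) (by omega); omega
        · have := size3 3 (by omega) (by omega); omega)
      by_cases hfr : Free K j
      · obtain ⟨Z, hZ, ε, hε, h1, h2, h3⟩ := block2 K id j (hj ▸ not_free K h hK1) O
        obtain ⟨R, hR, h4⟩ := getR Z ε (hfull _ (by rw [fstF]; exact h1))
        have hRc := card_le_card hR
        rcases h3 with h3 | h3
        · exact ⟨Z, hZ, ε, hε, R, hR, h4, by omega⟩
        rcases hcase with ⟨e1, e2⟩ | ⟨e1, e2, e3⟩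
        · obtain ⟨ho, h40, hno⟩ := hs3 e2
          have hw2 : w = 2 := by omega
          have hidx : K.index = h := by
            by_contra h5
            exact hno ⟨K, ⟨Nat.card L, by rw [hKw, hw2]; ring⟩, by omega, hfr⟩
          have hKN : Nat.card K = N := by
            rw [hidx, hcard, mul_comm] at hKm
            exact Nat.eq_of_mul_eq_mul_left hh hKm
          obtain ⟨o, ho'⟩ := ho
          have hodd : ∀ z : G, h • z = o • (z + z) + z := fun z => by
            rw [ho', succ_nsmul, mul_nsmul, two_nsmul]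
          have hZ0 : Z = ∅ := by
            by_contra h5
            obtain ⟨z, hz⟩ := nonempty_iff_ne_empty.2 h5
            have h6 := K.nsmul_index_mem z
            rw [hidx, hodd] at h6
            exact (mem_filter.1 (hZ hz)).2 ((K.add_mem_cancel_left (K.nsmul_mem (h3 z hz) o)).1 h6)
          rw [hZ0, card_empty] at h2
          have hIe : I = univ.filter fun x => x ∈ K := by
            apply eq_of_subset_of_card_le (filter_subset_filter _ (subset_univ A))
            rw [← Fintype.card_subtype, ← Nat.card_eq_fintype_card]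
            exact (show Nat.card K ≤ I.card by omega)
          have hsig : ∑ g ∈ I, g + ∑ g ∈ I, g = 0 := by
            have : ∑ g ∈ I, g = ∑ g ∈ I, -g := by
              refine sum_bijective (fun g => -g) neg_bijective (fun g => ?_) (fun g _ => by simp)
              rw [hIe]; simp
            rw [sum_neg_distrib] at this
            exact add_eq_zero_iff_eq_neg.2 this
          obtain ⟨g, hg⟩ := hhalf ⟨o, ho'⟩ h40 _ hsig
          refine ⟨∅, by simp, ε, hε, ∅, by simp, ?_, by simp; omega⟩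
          rw [sum_empty, sum_empty, zero_add, add_zero]
          refine (hLt _).2 ⟨?_, ?_⟩
          · rw [Prod.fst_sum]
            refine (hL _).2 ⟨h • g, hidx ▸ K.nsmul_index_mem g, ?_⟩
            rw [← smul_add, hg, hodd, hsig, smul_zero, zero_add]
          · rw [par, ZMod.natCast_eq_zero_iff_even, show I.card = N by omega]; exact hNe
        · have hw4 : w = 4 := by omega
          have hG2 : ∀ x : G, x + x = 0 → x ∈ K := by
            intro x hx
            have : x ∈ univ.filter fun x : G => x ∈ K ∧ x + x = 0 := by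
              rw [eq_of_subset_of_card_le hwsub (by omega)]; simpa using hx
            exact (mem_filter.1 this).2.1
          have hge : 3 * h ≤ 4 * K.index := by
            by_contra h5
            exact (hs4 e2).resolve_left e3 ⟨K, hG2, by omega, hfr⟩
          have hLN : 3 * Nat.card L ≤ N := by
            rw [hKw, hw4, hcard] at hKm
            have : h * (3 * Nat.card L) ≤ h * N := by
              rw [← hKm]; nlinarith [Nat.mul_le_mul_left (Nat.card L) hge]
            exact Nat.le_of_mul_le_mul_left this hh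
          rw [e1] at hcap
          obtain ⟨z, hz⟩ : Z.Nonempty := card_pos.1 (by omega)
          by_cases h5 : R.card ≤ 2
          · exact ⟨Z, hZ, ε, hε, R, hR, h4, by omega⟩
          obtain ⟨ε', h6, h7⟩ := flip F Z ε hε z hz
          obtain ⟨R', hR', h8⟩ := getR Z ε' (hfull _ (by
            rw [h7, Prod.fst_sub, fstF]
            exact K.sub_mem h1 (K.zsmul_mem (h3 z hz) _)))
          have hRc' := card_le_card hR'
          by_cases h9 : R'.card ≤ 2
          · exact ⟨Z, hZ, ε', h6, R', hR', h8, by omega⟩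
          exfalso
          rw [eq_of_subset_of_card_le hR (by omega)] at h4
          rw [eq_of_subset_of_card_le hR' (by omega), h7] at h8
          have h10 := ((hLt _).1 (Lt.sub_mem h4 h8)).1
          have h11 : ε z • (z + z) ∈ L := by simpa [F] using h10
          have h12 : z + z ∈ L := by
            rcases hε z with e | e <;> rw [e] at h11
            · rwa [one_smul] at h11
            · rwa [neg_one_smul, neg_mem_iff] at h11
          obtain ⟨k, hk, e⟩ := (hL _).1 h12
          have := hG2 (z - k) (by rw [sub_add_sub_comm, e, sub_self])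
          exact (mem_filter.1 (hZ hz)).2 (by simpa using K.add_mem this hk)
      · obtain ⟨i, rfl⟩ : ∃ i, j = i + 1 := by
          rcases j with _ | i
          · exact absurd ⟨Fin.elim0, fun c _ _ => Subsingleton.elim _ _⟩ hfr
          · exact ⟨i, rfl⟩
        obtain ⟨Z, hZ, ε, hε, h1, h2, -⟩ := block2 K id i hfr O
        obtain ⟨R, hR, h4⟩ := getR Z ε (hfull _ (by rw [fstF]; exact h1))
        have hRc := card_le_card hR
        exact ⟨Z, hZ, ε, hε, R, hR, h4, by omega⟩
  obtain ⟨Z, hZ, ε, hε, R, hR, h1, h2⟩ := key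
  obtain ⟨C, hC1, hC2, hC3⟩ := hC Y (by omega)
  have hZc := card_le_card hZ
  have hRc := card_le_card hR
  obtain ⟨h3, h4⟩ := (hLt _).1 h1
  have hev : Even (Z.card + I.card + R.card) := by
    have e : (∑ g ∈ Z, ε g • F g).2 = (Z.card : ZMod 2) := by
      rw [← par, Prod.snd_sum, Prod.snd_sum]
      refine sum_congr rfl fun g _ => ?_
      rcases hε g with e | e <;> rw [e]
      · rw [one_smul]
      · show (-1 : ℤ) • (1 : ZMod 2) = 1
        decide
    rw [Prod.snd_add, Prod.snd_add, e, par, par] at h4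
    rw [← ZMod.natCast_eq_zero_iff_even]; push_cast; exact h4
  obtain ⟨p, hp⟩ : ∃ p, Z.card + s = O.card + R.card + 2 * p := by
    obtain ⟨a, ha⟩ := hev
    obtain ⟨b, hb⟩ := hNe
    exact ⟨(Z.card + s - (O.card + R.card)) / 2, by omega⟩
  have hXc := le_card_sdiff (C ∪ Y) I
  have hCY := card_union_le C Y
  obtain ⟨P, hP, hPc, hPs⟩ := pairsL L (I \ (C ∪ Y)) (fun U hU h5 => by
    by_contra hcon
    push Not at hcon
    have hUK : ∀ x ∈ U, x ∈ K := fun x hx => hIK x (mem_sdiff.1 (hU hx)).1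
    have := hcl U hUK fun x hx y hy hxy => by
      by_contra hne
      exact hcon x hx y hy hne (by simpa using L.add_mem hxy (h2L y (hUK y hy)))
    omega) p (by omega)
  have hRP : Disjoint R P := by
    rw [disjoint_left]
    intro x a b
    exact (mem_sdiff.1 (hP b)).2 (mem_union_right _ (hR a))
  have hRPI : R ∪ P ⊆ I := union_subset (hR.trans hYI') (hP.trans sdiff_subset)
  have hdis : Disjoint Z (I \ (R ∪ P)) := by
    rw [disjoint_left]
    intro x a b
    exact (mem_filter.1 (hZ a)).2 (hIK x (mem_sdiff.1 b).1)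
  have hCF : C ⊆ I \ (R ∪ P) := by
    intro x hx
    have := mem_sdiff.1 (hC1 hx)
    refine mem_sdiff.2 ⟨this.1, fun h5 => ?_⟩
    rcases mem_union.1 h5 with h6 | h6
    · exact this.2 (hR h6)
    · exact (mem_sdiff.1 (hP h6)).2 (mem_union_left _ hx)
  have hsum : ∑ g ∈ Z, ε g • g + ∑ g ∈ I \ (R ∪ P), g ∈ L := by
    rw [Prod.fst_add, Prod.fst_add, fstF, Prod.fst_sum, Prod.fst_sum, ← sum_sdiff hRPI,
      sum_union hRP] at h3
    have := L.sub_mem (L.sub_mem h3 hPs) (L.sum_mem (t := R) fun y hy => h2L y (hYK y (hR hy)))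
    rw [sum_add_distrib] at this
    have e : ∀ a b c d : G, a + (b + (c + d)) + c - d - (c + c) = a + b := by
      intro a b c d; abel
    rwa [e] at this
  obtain ⟨k, hk, e⟩ := (hL _).1 hsum
  obtain ⟨ε', h5, h6⟩ := finish Z _ C hdis hCF ε hε k (hC3 k hk) e
  have hle := card_le_card hRPI
  refine toFin N A _ (union_subset (hZ.trans (filter_subset _ _))
    (sdiff_subset.trans (filter_subset _ _))) ?_ ε' h5 h6
  rw [card_union_of_disjoint hdis, card_sdiff_of_subset hRPI]
  rw [card_union_of_disjoint hRP] at hle ⊢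
  omega

end H25.Shc
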