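import Mathlib
import Pool.Agent.H25.Shc6

namespace H25.Shc

open Finset

variable {G : Type} [AddCommGroup G] [Fintype G]

theorem low1 (K : AddSubgroup G) (N d : ℕ) (hN : 1 ≤ N) (hK : N ≤ Nat.card K) (hf : Free K d) :
    ∃ A : Finset G, A.card = N - 1 + d ∧ Avoids N A := by
  classical
  obtain ⟨W, hW, hWc⟩ := exists_subset_card_eq (s := univ.filter fun x => x ∈ K) (n := N - 1)
    (by rw [← Fintype.card_subtype, ← Nat.card_eq_fintype_card]
        exact (show N - 1 ≤ Nat.card K by omega))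
  rw [← hWc]
  exact low K K (fun x hx => K.add_mem hx hx) W (fun x hx => (mem_filter.1 (hW hx)).2) N
    (fun B hB hc => by have := card_le_card hB; omega) d hf

open Classical in
theorem low2 (K : AddSubgroup G) (N d : ℕ) (t2 : (univ.filter fun x : G => x + x = 0).card ≤ 2)
    (hev : Even (Nat.card K)) (hNe : Even N) (hN2 : 2 ≤ N)
    (hK : (N % 4 = 2 ∧ N ≤ Nat.card K) ∨ N + 2 ≤ Nat.card K) (hf : Free K d) :
    ∃ A : Finset G, A.card = N + d ∧ Avoids N A := by
  obtain ⟨L, hL, hKw⟩ := dbl K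
  have h2L : ∀ x ∈ K, x + x ∈ L := fun x hx => (hL _).2 ⟨x, hx, rfl⟩
  have hLK : L ≤ K := fun y hy => by
    obtain ⟨k, hk, rfl⟩ := (hL _).1 hy
    exact K.add_mem hk hk
  have hwt : (univ.filter fun x : G => x ∈ K ∧ x + x = 0).card ≤ 2 :=
    le_trans (card_le_card fun x hx => by
      simp only [mem_filter, mem_univ, true_and] at hx ⊢; exact hx.2) t2
  have hw2 : 2 ≤ (univ.filter fun x : G => x ∈ K ∧ x + x = 0).card := by
    have : Fact (Nat.Prime 2) := ⟨Nat.prime_two⟩
    obtain ⟨x, hx⟩ := exists_prime_addOrderOf_dvd_card (G := K) 2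
      (by rw [← Nat.card_eq_fintype_card]; exact hev.two_dvd)
    have h1 : x + x = 0 := by rw [← two_nsmul, ← hx]; exact addOrderOf_nsmul_eq_zero x
    have h2 : x.1 ≠ 0 := fun e => by
      rw [show x = 0 from Subtype.ext e, addOrderOf_zero] at hx; omega
    rw [← card_pair h2]
    apply card_le_card
    intro z hz
    simp only [mem_insert, mem_singleton] at hz
    rcases hz with rfl | rfl
    · exact mem_filter.2 ⟨mem_univ _, x.2, congrArg Subtype.val h1⟩
    · simp
  rw [le_antisymm hwt hw2] at hKw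
  have hLp : 0 < Nat.card L := Nat.card_pos
  obtain ⟨y, hyK, hyL⟩ : ∃ y ∈ K, y ∉ L := by
    by_contra hc
    push Not at hc
    have := AddSubgroup.card_le_of_le (show K ≤ L from hc)
    omega
  obtain ⟨a, b, hab, ha, hb⟩ : ∃ a b, 2 * a + 1 + (2 * b + 1) = N ∧ 2 * a + 1 ≤ Nat.card L ∧
      2 * b + 1 ≤ Nat.card L := by
    obtain ⟨n, hn⟩ := hNe
    exact ⟨(N - 2) / 4, (N - 2) / 2 - (N - 2) / 4, by omega, by omega, by omega⟩
  obtain ⟨U, hU1, hU2, hU3⟩ := coset L 0 (by simp) a ha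
  obtain ⟨V, hV1, hV2, hV3⟩ := coset L y (h2L y hyK) b hb
  simp only [sub_zero] at hU2 hU3
  have hdis : Disjoint U V := by
    rw [disjoint_left]
    intro x h1 h2
    exact hyL (by simpa using L.sub_mem (hU2 x h1) (hV2 x h2))
  have hc : (U ∪ V).card = N := by rw [card_union_of_disjoint hdis]; omega
  have := low K L h2L (U ∪ V) (fun x hx => by
    rcases mem_union.1 hx with h1 | h1
    · exact hLK (hU2 x h1)
    · simpa using K.add_mem (hLK (hV2 x h1)) hyK) N (fun B hB hBc hs => by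
    rw [eq_of_subset_of_card_le hB (by omega), sum_union hdis] at hs
    exact hyL (by simpa using L.sub_mem (L.sub_mem hs hU3) hV3)) d hf
  rwa [hc] at this

open Classical in
theorem low3 (K : AddSubgroup G) (N d : ℕ) (t4 : (univ.filter fun x : G => x + x = 0).card ≤ 4)
    (t3 : 3 ≤ (univ.filter fun x : G => x + x = 0).card) (hG2 : ∀ x, x + x = 0 → x ∈ K)
    (hNe : Even N) (hN2 : 2 ≤ N) (hK : 4 * N + 24 ≤ 3 * Nat.card K) (hf : Free K d) :
    ∃ A : Finset G, A.card = N + 1 + d ∧ Avoids N A := by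
  obtain ⟨L, hL, hKw⟩ := dbl K
  have h2L : ∀ x ∈ K, x + x ∈ L := fun x hx => (hL _).2 ⟨x, hx, rfl⟩
  have hLK : L ≤ K := fun y hy => by
    obtain ⟨k, hk, rfl⟩ := (hL _).1 hy
    exact K.add_mem hk hk
  have he : (univ.filter fun x : G => x ∈ K ∧ x + x = 0) = univ.filter fun x : G => x + x = 0 :=
    filter_congr fun x _ => ⟨fun h => h.2, fun h => ⟨hG2 x h, h⟩⟩
  rw [he] at hKw
  have hLp : 0 < Nat.card L := Nat.card_pos
  have b1 := Nat.mul_le_mul_right (Nat.card L) t4
  have b2 := Nat.mul_le_mul_right (Nat.card L) t3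
  have cK : (univ.filter fun x => x ∈ K).card = Nat.card K := by
    rw [Nat.card_eq_fintype_card, Fintype.card_subtype]
  obtain ⟨y, hyK, hyL⟩ : ∃ y ∈ K, y ∉ L := by
    by_contra hc
    push Not at hc
    have := AddSubgroup.card_le_of_le (show K ≤ L from hc)
    omega
  obtain ⟨z, hzK, hzL, hzy⟩ : ∃ z ∈ K, z ∉ L ∧ z - y ∉ L := by
    by_contra hc
    push Not at hc
    have := cap L (univ.filter fun x => x ∈ K) {0, y} (fun x hx => by
      by_cases h1 : x ∈ L
      · exact ⟨0, by simp, by simpa using h1⟩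
      · exact ⟨y, by simp, hc x (mem_filter.1 hx).2 h1⟩)
    have h2 := Nat.mul_le_mul_right (Nat.card L) (card_le_two (a := (0 : G)) (b := y))
    omega
  obtain ⟨a, b, c, hab, ha, hb, hc⟩ : ∃ a b c, 2 * a + 1 + (2 * b + 1) + (2 * c + 1) = N + 1 ∧
      2 * a + 1 ≤ Nat.card L ∧ 2 * b + 1 ≤ Nat.card L ∧ 2 * c + 1 ≤ Nat.card L := by
    obtain ⟨n, hn⟩ := hNe
    exact ⟨(N - 2) / 6, (N + 0) / 6, (N + 2) / 6, by omega, by omega, by omega, by omega⟩
  obtain ⟨U, hU1, hU2, hU3⟩ := coset L 0 (by simp) a ha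
  obtain ⟨V, hV1, hV2, hV3⟩ := coset L y (h2L y hyK) b hb
  obtain ⟨W, hW1, hW2, hW3⟩ := coset L z (h2L z hzK) c hc
  simp only [sub_zero] at hU2 hU3
  have d1 : Disjoint U V := by
    rw [disjoint_left]
    intro x h1 h2
    exact hyL (by simpa using L.sub_mem (hU2 x h1) (hV2 x h2))
  have d2 : Disjoint (U ∪ V) W := by
    rw [disjoint_left]
    intro x h1 h2
    rcases mem_union.1 h1 with h3 | h3
    · exact hzL (by simpa using L.sub_mem (hU2 x h3) (hW2 x h2))
    · exact hzy (by simpa using L.sub_mem (hV2 x h3) (hW2 x h2))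
  have hcc : (U ∪ V ∪ W).card = N + 1 := by
    rw [card_union_of_disjoint d2, card_union_of_disjoint d1]; omega
  have := low K L h2L (U ∪ V ∪ W) (fun x hx => by
    rcases mem_union.1 hx with h1 | h1
    · rcases mem_union.1 h1 with h1 | h1
      · exact hLK (hU2 x h1)
      · simpa using K.add_mem (hLK (hV2 x h1)) hyK
    · simpa using K.add_mem (hLK (hW2 x h1)) hzK) N (fun B hB hBc hs => by
    obtain ⟨x, hx⟩ := card_eq_one.1 (show ((U ∪ V ∪ W) \ B).card = 1 by
      rw [card_sdiff_of_subset hB]; omega)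
    have hx1 : x ∈ U ∪ V ∪ W := (mem_sdiff.1 (hx ▸ mem_singleton_self x)).1
    have e := sum_sdiff (f := fun g : G => g) hB
    rw [hx, sum_singleton, sum_union d2, sum_union d1] at e
    have k : y + z - x ∈ L := by
      have := L.sub_mem (L.sub_mem (L.sub_mem hs hU3) hV3) hW3
      rw [eq_sub_of_add_eq' e] at this
      have e2 : ∀ u v w : G, u + v + w - x - u - (v - y) - (w - z) = y + z - x := by
        intro u v w; abel
      rwa [e2] at this
    rcases mem_union.1 hx1 with h1 | h1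
    · rcases mem_union.1 h1 with h1 | h1
      · have := L.sub_mem (L.add_mem k (hU2 x h1)) (h2L y hyK)
        exact hzy (by rwa [show y + z - x + x - (y + y) = z - y by abel] at this)
      · have := L.add_mem k (hV2 x h1)
        exact hzL (by rwa [show y + z - x + (x - y) = z by abel] at this)
    · have := L.add_mem k (hW2 x h1)
      exact hyL (by rwa [show y + z - x + (x - z) = y by abel] at this)) d hf
  rwa [hcc] at this

theorem avoid_mono (N : ℕ) (A B : Finset G) (h : B ⊆ A) (hA : Avoids N A) : Avoids N B :=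
  fun ⟨a, ε, h1, h2, h3⟩ => hA ⟨a, ε, h1, fun i => h (h2 i), h3⟩

theorem tau_of (N t : ℕ) (h1 : ∃ A : Finset G, A.card = t ∧ Avoids N A)
    (h2 : ∀ A : Finset G, A.card = t + 1 → ¬ Avoids N A) : IsTau G N t := by
  refine ⟨h1, ?_⟩
  rintro n ⟨A, rfl, hA⟩
  by_contra hlt
  obtain ⟨B, hB, hc⟩ := exists_subset_card_eq (s := A) (n := t + 1) (by omega)
  exact h2 B hc (avoid_mono N A B hB hA)

theorem ztwo (n : ℕ) [NeZero n] : (univ.filter fun x : ZMod n => x + x = 0).card ≤ 2 := by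
  refine le_trans (card_le_card (t := {0, ((n / 2 : ℕ) : ZMod n)}) fun x hx => ?_) card_le_two
  have h := (ZMod.neg_eq_self_iff x).1 (neg_eq_iff_add_eq_zero.2 (mem_filter.1 hx).2)
  rcases h with h | h
  · simp [h]
  · have : x = ((n / 2 : ℕ) : ZMod n) := by
      rw [show n / 2 = x.val by omega, ZMod.natCast_zmod_val]
    simp [this]

theorem zodd (n : ℕ) (hn : Odd n) (x : ZMod n) (hx : x + x = 0) : x = 0 := by
  rcases (ZMod.neg_eq_self_iff x).1 (neg_eq_iff_add_eq_zero.2 hx) with h | h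
  · exact h
  · obtain ⟨o, ho⟩ := hn; omega

theorem zhalf (n : ℕ) (hn : Even n) (h0 : 0 < n) :
    ((n / 2 : ℕ) : ZMod n) + ((n / 2 : ℕ) : ZMod n) = 0 ∧ ((n / 2 : ℕ) : ZMod n) ≠ 0 := by
  obtain ⟨o, ho⟩ := hn
  constructor
  · rw [← Nat.cast_add, show n / 2 + n / 2 = n by omega, ZMod.natCast_self]
  · rw [Ne, ZMod.natCast_eq_zero_iff]
    exact Nat.not_dvd_of_pos_of_lt (by omega) (by omega)

end H25.Shc
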