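import Mathlib

set_option autoImplicit false

namespace Pool.Agent.H25.Skew

variable {V : Type}

/-- One application of the skew forcing rule: `u` has the white vertex `w` as its only white
neighbour, and `w` turns blue (`A`, `B` are the blue sets before and after). -/
def Step (G : SimpleGraph V) (A B : Set V) : Prop :=
  ∃ u w, G.Adj u w ∧ w ∉ A ∧ (∀ x, G.Adj u x → x ≠ w → x ∈ A) ∧ B = insert w A

/-- Skew forcing set. -/
def Forcing (G : SimpleGraph V) (S : Set V) : Prop :=
  Relation.ReflTransGen (Step G) S Set.univ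

/-- Skew fort. -/
def Fort (G : SimpleGraph V) (F : Set V) : Prop :=
  F.Nonempty ∧ ∀ v, (G.neighborSet v ∩ F).ncard ≠ 1

/-- Every element of `S` has a private skew fort relative to `S`. -/
def IrSet (G : SimpleGraph V) (S : Set V) : Prop :=
  ∀ u ∈ S, ∃ F, Fort G F ∧ F ∩ S = {u}

/-- Skew forcing number. -/
noncomputable def Z (G : SimpleGraph V) : ℕ := sInf {k | ∃ S, Forcing G S ∧ S.ncard = k}

/-- Upper skew forcing number. -/
noncomputable def Zup (G : SimpleGraph V) : ℕ :=
  sSup {k | ∃ S, Minimal (Forcing G) S ∧ S.ncard = k}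

/-- Lower skew forcing irredundance number. -/
noncomputable def zir (G : SimpleGraph V) : ℕ :=
  sInf {k | ∃ S, Maximal (IrSet G) S ∧ S.ncard = k}

/-- Upper skew forcing irredundance number. -/
noncomputable def ZIR (G : SimpleGraph V) : ℕ :=
  sSup {k | ∃ S, Maximal (IrSet G) S ∧ S.ncard = k}

end Pool.Agent.H25.Skew
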