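import Mathlib

set_option autoImplicit false

namespace Pool.Agent.H25.TotDist

open Finset

variable {V : Type} {G : SimpleGraph V} {r : ℕ}

lemma double_sum (f : Fin r → Fin r → ℕ) (hs : ∀ i j, f i j = f j i) (h0 : ∀ i, f i i = 0) :
    ∑ i, ∑ j, f i j = 2 * ∑ i, ∑ j ∈ univ.filter (fun j => i < j), f i j := by
  have e : ∀ i j, f i j = (if i < j then f i j else 0) + (if j < i then f j i else 0) := by
    intro i j
    rcases lt_trichotomy i j with h | h | h
    · simp [h, not_lt.2 h.le]
    · subst h; simp [h0]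
    · simp [h, not_lt.2 h.le, hs i j]
  have e2 : ∑ i, ∑ j, f i j = ∑ i, ∑ j, (if i < j then f i j else 0) +
      ∑ i, ∑ j, (if j < i then f j i else 0) := by
    rw [← sum_add_distrib]
    refine sum_congr rfl (fun i _ => ?_)
    rw [← sum_add_distrib]
    exact sum_congr rfl (fun j _ => e i j)
  rw [e2, two_mul]
  simp only [sum_filter]
  congr 1
  exact sum_comm

lemma cut_sum (p : Fin r → Prop) [DecidablePred p] :
    ∑ i, ∑ j, (if (p i ↔ p j) then 0 else 1 : ℕ) =
      2 * ((univ.filter p).card * (r - (univ.filter p).card)) := by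
  have hc : (univ.filter (fun i => ¬ p i)).card = r - (univ.filter p).card := by
    have := card_filter_add_card_filter_not (s := (univ : Finset (Fin r))) p
    rw [card_univ, Fintype.card_fin] at this
    omega
  have e : ∀ i, ∑ j, (if (p i ↔ p j) then 0 else 1 : ℕ) =
      if p i then (r - (univ.filter p).card) else (univ.filter p).card := by
    intro i
    by_cases h : p i
    · rw [if_pos h, ← hc, card_filter]
      exact sum_congr rfl (fun j _ => by by_cases h' : p j <;> simp [h, h'])
    · rw [if_neg h, card_filter]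
      exact sum_congr rfl (fun j _ => by by_cases h' : p j <;> simp [h, h'])
  simp only [e]
  rw [sum_ite, sum_const, sum_const, hc, smul_eq_mul, smul_eq_mul]
  ring

lemma cut_le (a : ℕ) : a * (r - a) ≤ r * r / 4 := by
  rw [Nat.le_div_iff_mul_le (by norm_num)]
  rcases le_total a r with h | h
  · obtain ⟨b, rfl⟩ := Nat.exists_eq_add_of_le h
    rw [Nat.add_sub_cancel_left]
    nlinarith [sq_nonneg ((a : ℤ) - b)]
  · simp [Nat.sub_eq_zero_of_le h]

/-- Tuples in `U` have small distance sum. -/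
def P [DecidableEq V] (G : SimpleGraph V) (r : ℕ) (U : Finset V) : Prop :=
  ∀ s : Fin r → V, (∀ i, s i ∈ U) →
    ∑ i, ∑ j, G.dist (s i) (s j) + 2 * (r * r / 4) ≤ 2 * (r * r / 4) * U.card

lemma P_single [DecidableEq V] (u : V) : P G r {u} := by
  intro s hs
  have : ∀ i, s i = u := fun i => mem_singleton.1 (hs i)
  simp [this]

lemma P_insert [DecidableEq V] (hG : G.Connected) {U : Finset V} (hU : P G r U) {u y : V}
    (hu : u ∈ U) (h : G.Adj u y ∨ y ∈ U) : P G r (insert y U) := by
  by_cases hy : y ∈ U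
  · rwa [insert_eq_of_mem hy]
  have hadj : G.Adj u y := h.resolve_right hy
  have h1 : G.dist u y = 1 := SimpleGraph.dist_eq_one_iff_adj.2 hadj
  have h1' : G.dist y u = 1 := SimpleGraph.dist_eq_one_iff_adj.2 hadj.symm
  intro s hs
  set s' : Fin r → V := fun i => if s i = y then u else s i with hs'
  have hs'U : ∀ i, s' i ∈ U := by
    intro i
    by_cases hi : s i = y
    · simp [hs', hi, hu]
    · simpa [hs', hi] using hs i
  have key : ∀ i j, G.dist (s i) (s j) ≤
      G.dist (s' i) (s' j) + (if (s i = y ↔ s j = y) then 0 else 1 : ℕ) := by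
    intro i j
    by_cases hi : s i = y <;> by_cases hj : s j = y
    · simp [hi, hj]
    · have := hG.dist_triangle (u := y) (v := u) (w := s j)
      simp only [hs', hi, hj, if_true, if_false, true_iff]
      omega
    · have := hG.dist_triangle (u := s i) (v := u) (w := y)
      simp only [hs', hi, hj, if_true, if_false, iff_true]
      omega
    · simp [hs', hi, hj]
  have h2 : ∑ i, ∑ j, G.dist (s i) (s j) ≤ ∑ i, ∑ j, G.dist (s' i) (s' j) +
      ∑ i, ∑ j, (if (s i = y ↔ s j = y) then 0 else 1 : ℕ) := by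
    rw [← sum_add_distrib]
    refine sum_le_sum (fun i _ => ?_)
    rw [← sum_add_distrib]
    exact sum_le_sum (fun j _ => key i j)
  rw [cut_sum] at h2
  have h3 := cut_le (r := r) (univ.filter (fun i => s i = y)).card
  have h4 := hU s' hs'U
  rw [card_insert_of_notMem hy, mul_add]
  omega

lemma cross (hG : G.Connected) (A : Set V) {a b : V} (ha : a ∈ A) (hb : b ∉ A) :
    ∃ x ∈ A, ∃ y, y ∉ A ∧ G.Adj x y := by
  obtain ⟨p⟩ := hG.preconnected a b
  obtain ⟨d, -, h1, h2⟩ := p.exists_boundary_dart A ha hb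
  exact ⟨d.fst, h1, d.snd, h2, d.adj⟩

lemma grow [DecidableEq V] (hG : G.Connected) (S : Finset V) (hS : ∀ v, ∃ t ∈ S, G.Adj v t) :
    ∀ (k : ℕ) (U : Finset V), (S \ U).card ≤ k → U.Nonempty → P G r U →
      U.card + 2 ≤ 2 * (U ∩ S).card →
      ∃ U' : Finset V, S ⊆ U' ∧ P G r U' ∧ U'.card + 2 ≤ 2 * S.card := by
  intro k
  induction k with
  | zero =>
    intro U hk _ hP hc
    have hsub : S ⊆ U := sdiff_eq_empty_iff_subset.1 (card_eq_zero.1 (Nat.le_zero.1 hk))
    exact ⟨U, hsub, hP, by rwa [inter_eq_right.2 hsub] at hc⟩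
  | succ k ih =>
    intro U hk hne hP hc
    by_cases hsub : S ⊆ U
    · exact ⟨U, hsub, hP, by rwa [inter_eq_right.2 hsub] at hc⟩
    have shrink : ∀ U' : Finset V, U ⊆ U' → ∀ t ∈ S, t ∉ U → t ∈ U' → (S \ U').card ≤ k := by
      intro U' h t ht htU htU'
      have : S \ U' ⊂ S \ U := by
        refine ⟨sdiff_subset_sdiff (Subset.refl _) h, fun h' => ?_⟩
        exact (mem_sdiff.1 (h' (mem_sdiff.2 ⟨ht, htU⟩))).2 htU'
      have := card_lt_card this
      omega
    by_cases hcase : ∃ t ∈ S, t ∉ U ∧ ∃ u ∈ U, G.Adj u t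
    · obtain ⟨t, ht, htU, u, hu, hadj⟩ := hcase
      refine ih (insert t U) (shrink _ (subset_insert _ _) t ht htU (mem_insert_self _ _))
        (insert_nonempty _ _) (P_insert hG hP hu (Or.inl hadj)) ?_
      rw [card_insert_of_notMem htU, insert_inter_of_mem ht,
        card_insert_of_notMem (fun h => htU (mem_inter.1 h).1)]
      omega
    · push Not at hcase
      obtain ⟨t0, ht0, ht0U⟩ := not_subset.1 hsub
      obtain ⟨a, ha⟩ := hne
      obtain ⟨x, hx, y, hy, hxy⟩ := cross hG {v | v ∈ U ∨ ∃ u ∈ U, G.Adj u v} (a := a) (b := t0)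
        (Or.inl ha) (by
          rintro (h | ⟨u, hu, h⟩)
          · exact ht0U h
          · exact hcase t0 ht0 ht0U u hu h)
      obtain ⟨t, ht, hyt⟩ := hS y
      have htU : t ∉ U := fun h => hy (Or.inr ⟨t, h, hyt.symm⟩)
      obtain ⟨t', ht', htt⟩ := hS t
      have ht'U : t' ∉ U := fun h => hcase t ht htU t' h htt.symm
      have p1 : P G r (insert x U) := by
        rcases hx with h | ⟨u, hu, h⟩
        · exact P_insert hG hP ha (Or.inr h)
        · exact P_insert hG hP hu (Or.inl h)
      have p2 := P_insert hG p1 (mem_insert_self x U) (Or.inl hxy)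
      have p3 := P_insert hG p2 (mem_insert_self y _) (Or.inl hyt)
      have p4 := P_insert hG p3 (mem_insert_self t _) (Or.inl htt)
      refine ih _ (shrink _ ?_ t' ht' ht'U (mem_insert_self _ _)) (insert_nonempty _ _) p4 ?_
      · intro v hv; simp [hv]
      · have c1 := card_insert_le t' (insert t (insert y (insert x U)))
        have c2 := card_insert_le t (insert y (insert x U))
        have c3 := card_insert_le y (insert x U)
        have c4 := card_insert_le x U
        have c5 : insert t' (insert t (U ∩ S)) ⊆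
            insert t' (insert t (insert y (insert x U))) ∩ S := by
          intro v hv
          simp only [mem_insert, mem_inter] at hv ⊢
          rcases hv with rfl | rfl | ⟨h1, h2⟩ <;> simp [*]
        have c6 := card_le_card c5
        rw [card_insert_of_notMem (by simp [ht'U, htt.ne']),
          card_insert_of_notMem (by simp [htU])] at c6
        omega

/-- Main inequality for the full double sum of distances. -/
theorem main (hG : G.Connected) (S : Finset V) (hS : ∀ v, ∃ t ∈ S, G.Adj v t) (hr : 3 ≤ r)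
    (x : Fin r → V) :
    4 * ∑ i, ∑ j, G.dist (x i) (x j) ≤ S.card * (5 * r ^ 2 - 4 * r - r % 2) := by
  classical
  obtain ⟨v⟩ := hG.nonempty
  obtain ⟨a, ha, -⟩ := hS v
  obtain ⟨b, hb, hab⟩ := hS a
  have hP : P G r (insert b {a}) := P_insert hG (P_single a) (mem_singleton_self a) (Or.inl hab)
  have hab' : ({b, a} : Finset V) ⊆ S := by
    intro v hv; simp only [mem_insert, mem_singleton] at hv; rcases hv with rfl | rfl <;> assumption
  have hc2 : ({b, a} : Finset V).card = 2 := card_pair hab.ne'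
  have hγ : 2 ≤ S.card := hc2 ▸ card_le_card hab'
  obtain ⟨U, hSU, hU, hc⟩ := grow hG S hS _ {b, a} (le_refl _) (insert_nonempty _ _) hP
    (by rw [inter_eq_left.2 hab', hc2])
  choose t ht hadj using hS
  have h1 := hU (fun i => t (x i)) (fun i => hSU (ht _))
  have key : ∀ i j, G.dist (x i) (x j) + (if i = j then 2 else 0) ≤
      G.dist (t (x i)) (t (x j)) + 2 := by
    intro i j
    by_cases h : i = j
    · simp [h]
    · have a1 := hG.dist_triangle (u := x i) (v := t (x i)) (w := x j)
      have a2 := hG.dist_triangle (u := t (x i)) (v := t (x j)) (w := x j)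
      have a3 := SimpleGraph.dist_eq_one_iff_adj.2 (hadj (x i))
      have a4 := SimpleGraph.dist_eq_one_iff_adj.2 (hadj (x j)).symm
      simp only [h, if_false]
      omega
  have h2 : ∑ i, ∑ j, (G.dist (x i) (x j) + (if i = j then 2 else 0)) ≤
      ∑ i, ∑ j, (G.dist (t (x i)) (t (x j)) + 2) :=
    sum_le_sum (fun i _ => sum_le_sum (fun j _ => key i j))
  simp only [sum_add_distrib, sum_ite_eq, mem_univ, if_true, sum_const, card_univ,
    Fintype.card_fin, smul_eq_mul] at h2
  obtain ⟨g, hg⟩ : ∃ g, S.card = g + 2 := ⟨S.card - 2, by omega⟩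
  have h3 : 2 * (r * r / 4) * U.card ≤ 2 * (r * r / 4) * (2 * g + 2) :=
    Nat.mul_le_mul_left _ (by omega)
  rw [hg]
  generalize ∑ i, ∑ j, G.dist (x i) (x j) = D at *
  generalize ∑ i, ∑ j, G.dist (t (x i)) (t (x j)) = D' at *
  obtain ⟨k, rfl | rfl⟩ := Nat.even_or_odd' r
  · obtain ⟨m, rfl⟩ : ∃ m, k = m + 2 := ⟨k - 2, by omega⟩
    have e1 : 2 * (m + 2) * (2 * (m + 2)) / 4 = (m + 2) * (m + 2) := by
      rw [show 2 * (m + 2) * (2 * (m + 2)) = 4 * ((m + 2) * (m + 2)) by ring]; omega
    have e2 : 5 * (2 * (m + 2)) ^ 2 - 4 * (2 * (m + 2)) - 2 * (m + 2) % 2 =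
        20 * m * m + 72 * m + 64 := by
      rw [show 5 * (2 * (m + 2)) ^ 2 = 20 * m * m + 72 * m + 64 + 4 * (2 * (m + 2)) by ring]; omega
    rw [e1] at h1 h3
    rw [e2]
    nlinarith [Nat.zero_le (g * m), Nat.zero_le (g * m * m)]
  · obtain ⟨m, rfl⟩ : ∃ m, k = m + 1 := ⟨k - 1, by omega⟩
    have e1 : (2 * (m + 1) + 1) * (2 * (m + 1) + 1) / 4 = (m + 1) * (m + 2) := by
      rw [show (2 * (m + 1) + 1) * (2 * (m + 1) + 1) = 4 * ((m + 1) * (m + 2)) + 1 by ring]; omega
    have e2 : 5 * (2 * (m + 1) + 1) ^ 2 - 4 * (2 * (m + 1) + 1) - (2 * (m + 1) + 1) % 2 =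
        20 * m * m + 52 * m + 32 := by
      rw [show 5 * (2 * (m + 1) + 1) ^ 2 =
        20 * m * m + 52 * m + 33 + 4 * (2 * (m + 1) + 1) by ring]; omega
    rw [e1] at h1 h3
    rw [e2]
    nlinarith [Nat.zero_le (g * m), Nat.zero_le (g * m * m)]

/-- The double star with `r` leaves split as evenly as possible. -/
def dstar (r : ℕ) : SimpleGraph (Fin r ⊕ Bool) :=
  SimpleGraph.fromRel (fun u v => u = Sum.inr true ∧ v = Sum.inr false ∨
    ∃ i : Fin r, u = Sum.inl i ∧ v = Sum.inr (decide (i.val < r / 2)))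

lemma dstar_td (v : Fin r ⊕ Bool) : ∃ b, (dstar r).Adj v (Sum.inr b) := by
  rcases v with i | b
  · exact ⟨decide (i.val < r / 2), by simp [dstar]⟩
  · cases b
    · exact ⟨true, by simp [dstar]⟩
    · exact ⟨false, by simp [dstar]⟩

lemma dstar_conn : (dstar r).Connected := by
  have h : ∀ v, (dstar r).Reachable v (Sum.inr true) := by
    intro v
    obtain ⟨b, hb⟩ := dstar_td v
    cases b
    · exact hb.reachable.trans (SimpleGraph.Adj.reachable (by simp [dstar]))
    · exact hb.reachable
  exact ⟨fun u v => (h u).trans (h v).symm⟩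

lemma lip (f : V → ℤ) (hf : ∀ u v, G.Adj u v → f v - f u ≤ 1) {u v : V} (p : G.Walk u v) :
    f v - f u ≤ p.length := by
  induction p with
  | nil => simp
  | cons h p ih => have := hf _ _ h; simp only [SimpleGraph.Walk.length_cons]; push_cast; omega

lemma dstar_dist (i j : Fin r) : (if i = j then 0 else 2) +
    (if (i.val < r / 2 ↔ j.val < r / 2) then 0 else 1 : ℕ) ≤
      (dstar r).dist (Sum.inl i) (Sum.inl j) := by
  by_cases h : i = j
  · simp [h]
  by_cases h2 : (i.val < r / 2 ↔ j.val < r / 2)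
  · have := (dstar_conn (r := r)).one_lt_dist_of_ne_of_not_adj (u := Sum.inl i) (v := Sum.inl j)
      (by simpa using h) (by simp [dstar])
    simp only [h, h2, if_true, if_false]
    omega
  · let f : Fin r ⊕ Bool → ℤ := Sum.elim (fun i => if i.val < r / 2 then 0 else 3)
      (fun b => if b then 1 else 2)
    have hf : ∀ u v, (dstar r).Adj u v → f v - f u ≤ 1 := by
      intro u v huv
      simp only [dstar, SimpleGraph.fromRel_adj] at huv
      obtain ⟨-, (⟨rfl, rfl⟩ | ⟨i, rfl, rfl⟩) | (⟨rfl, rfl⟩ | ⟨i, rfl, rfl⟩)⟩ := huv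
      · simp [f]
      · by_cases hi : i.val < r / 2 <;> simp [f, hi]
      · simp [f]
      · by_cases hi : i.val < r / 2 <;> simp [f, hi]
    simp only [h, h2, if_false]
    by_cases hi : i.val < r / 2
    · have hj : ¬ j.val < r / 2 := fun hj => h2 (iff_of_true hi hj)
      obtain ⟨p, hp⟩ := (dstar_conn (r := r)).exists_walk_length_eq_dist (Sum.inl i) (Sum.inl j)
      have := lip f hf p
      simp only [f, Sum.elim_inl, hi, hj, if_true, if_false] at this
      omega
    · have hj : j.val < r / 2 := by by_contra hj; exact h2 (iff_of_false hi hj)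
      obtain ⟨p, hp⟩ := (dstar_conn (r := r)).exists_walk_length_eq_dist (Sum.inl j) (Sum.inl i)
      have := lip f hf p
      simp only [f, Sum.elim_inl, hi, hj, if_true, if_false] at this
      rw [SimpleGraph.dist_comm]
      omega

lemma dstar_sum (hr : 3 ≤ r) : 5 * r ^ 2 - 4 * r - r % 2 ≤
    2 * ∑ i : Fin r, ∑ j : Fin r, (dstar r).dist (Sum.inl i) (Sum.inl j) := by
  have h1 : ∑ i : Fin r, ∑ j : Fin r, ((if i = j then 0 else 2) +
      (if (i.val < r / 2 ↔ j.val < r / 2) then 0 else 1 : ℕ)) ≤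
      ∑ i : Fin r, ∑ j : Fin r, (dstar r).dist (Sum.inl i) (Sum.inl j) :=
    sum_le_sum (fun i _ => sum_le_sum (fun j _ => dstar_dist i j))
  simp only [sum_add_distrib] at h1
  rw [cut_sum (fun i : Fin r => i.val < r / 2)] at h1
  have h2 : (univ.filter (fun i : Fin r => i.val < r / 2)).card = r / 2 := by
    rw [Fin.card_filter_val_lt]; omega
  have h3 : ∑ i : Fin r, ∑ j : Fin r, (if i = j then 0 else 2 : ℕ) + r * 2 = r * (r * 2) := by
    have : ∑ i : Fin r, ∑ j : Fin r, ((if i = j then 0 else 2 : ℕ) + (if i = j then 2 else 0)) =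
        ∑ i : Fin r, ∑ j : Fin r, 2 :=
      sum_congr rfl (fun i _ => sum_congr rfl (fun j _ => by split_ifs <;> rfl))
    simpa [sum_add_distrib] using this
  rw [h2] at h1
  generalize ∑ i : Fin r, ∑ j : Fin r, (dstar r).dist (Sum.inl i) (Sum.inl j) = D at *
  generalize ∑ i : Fin r, ∑ j : Fin r, (if i = j then 0 else 2 : ℕ) = E at *
  obtain ⟨k, rfl | rfl⟩ := Nat.even_or_odd' r
  · rw [show 2 * k / 2 = k by omega, show 2 * k - k = k by omega] at h1
    rw [Nat.sub_le_iff_le_add, Nat.sub_le_iff_le_add]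
    nlinarith [Nat.zero_le (2 * k % 2)]
  · rw [show (2 * k + 1) / 2 = k by omega, show 2 * k + 1 - k = k + 1 by omega] at h1
    rw [Nat.sub_le_iff_le_add, Nat.sub_le_iff_le_add, show (2 * k + 1) % 2 = 1 by omega]
    nlinarith

end Pool.Agent.H25.TotDist
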