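import Mathlib

set_option autoImplicit false

namespace Pool.Agent.H25.Tough

open Finset

lemma upper {W : Type} [Finite W] (H : SimpleGraph W) (T : Set W) (roots : Finset W)
    (h : ∀ v ∈ T, ∃ r ∈ roots, r ∈ T ∧
      Relation.ReflTransGen (fun a b => H.Adj a b ∧ b ∈ T) r v) :
    Nat.card (H.induce T).ConnectedComponent ≤ roots.card := by
  classical
  have key : ∀ r v, Relation.ReflTransGen (fun a b => H.Adj a b ∧ b ∈ T) r v →
      ∀ (hr : r ∈ T), ∃ hv : v ∈ T, (H.induce T).Reachable ⟨r, hr⟩ ⟨v, hv⟩ := by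
    intro r v hrv hr
    induction hrv with
    | refl => exact ⟨hr, SimpleGraph.Reachable.refl _⟩
    | tail _ hbc ih =>
      obtain ⟨hb, hreach⟩ := ih
      exact ⟨hbc.2, hreach.trans (SimpleGraph.Adj.reachable (by simpa using hbc.1))⟩
  let g : {r // r ∈ roots.filter (· ∈ T)} → (H.induce T).ConnectedComponent :=
    fun r => (H.induce T).connectedComponentMk ⟨r.1, (Finset.mem_filter.mp r.2).2⟩
  have hg : Function.Surjective g := by
    intro c
    induction c using SimpleGraph.ConnectedComponent.ind with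
    | _ x =>
      obtain ⟨r, hr, hrT, hp⟩ := h x.1 x.2
      obtain ⟨hv, hreach⟩ := key r x.1 hp hrT
      exact ⟨⟨r, Finset.mem_filter.mpr ⟨hr, hrT⟩⟩,
        SimpleGraph.ConnectedComponent.sound hreach⟩
  calc Nat.card (H.induce T).ConnectedComponent
      ≤ Nat.card {r // r ∈ roots.filter (· ∈ T)} := Nat.card_le_card_of_surjective g hg
    _ = (roots.filter (· ∈ T)).card := Nat.card_eq_finsetCard _
    _ ≤ roots.card := Finset.card_filter_le _ _

lemma lower {W : Type} [Finite W] (H : SimpleGraph W) (T : Set W) (φ : W → ℕ)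
    (h : ∀ a b, a ∈ T → b ∈ T → H.Adj a b → φ a = φ b) (C : Finset ℕ)
    (hC : ∀ c ∈ C, ∃ a ∈ T, φ a = c) :
    C.card ≤ Nat.card (H.induce T).ConnectedComponent := by
  classical
  have key : ∀ x y : T, (H.induce T).Reachable x y → φ x.1 = φ y.1 := by
    rintro x y ⟨p⟩
    induction p with
    | nil => rfl
    | cons hab _ ih => exact (h _ _ (Subtype.prop _) (Subtype.prop _) (by simpa using hab)).trans ih
  choose a ha using hC
  let g : {c // c ∈ C} → (H.induce T).ConnectedComponent :=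
    fun c => (H.induce T).connectedComponentMk ⟨a c.1 c.2, (ha c.1 c.2).1⟩
  have hg : Function.Injective g := by
    intro c d hcd
    have := key _ _ (SimpleGraph.ConnectedComponent.exact hcd)
    simp only [(ha c.1 c.2).2, (ha d.1 d.2).2] at this
    exact Subtype.ext this
  calc C.card = Nat.card {c // c ∈ C} := by simp
    _ ≤ _ := Nat.card_le_card_of_injective g hg

def adjL : List ℕ := [32802, 262149, 262154, 84, 262184, 262161, 2184, 262464, 262784, 5376,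
  264704, 263232, 139776, 282624, 303104, 81921, 425984, 331776, 224694]

def A (u : ℕ) : ℕ := adjL.getD u 0

def G : SimpleGraph (Fin 19) where
  Adj u v := (A u).testBit v = true
  symm := ⟨by decide⟩
  loopless := ⟨by decide⟩

instance : DecidableRel G.Adj := fun u v => inferInstanceAs (Decidable ((A u).testBit v = true))

def step (R m v : ℕ) : ℕ := if m.testBit v then m ||| (A v &&& R) else m

def ord : List ℕ := [17, 16, 15, 14, 13, 12, 11, 10, 9, 8, 7, 6, 5, 4, 3, 2, 1, 0, 18,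
  1, 2, 3, 4, 5, 6, 7, 8, 9, 10, 11, 12, 13, 14, 15, 16, 17, 18,
  16, 15, 14, 13, 12, 11, 10, 9, 8, 7, 6, 5, 4, 3, 2, 1, 0]

def clos (R m : ℕ) : ℕ := ord.foldl (step R) m

def cnt (R : ℕ) : ℕ → ℕ → ℕ
  | 0, _ => 0
  | v + 1, seen =>
    if R.testBit v && !seen.testBit v then cnt R v (seen ||| clos R (2 ^ v)) + 1 else cnt R v seen

def enum : ℕ → ℕ → ℕ → Bool
  | 0, S, k => k == 0 || Nat.ble (cnt ((2 ^ 19 - 1) ^^^ S) 19 0) k
  | v + 1, S, k => enum v S k && (A v &&& S != 0 || enum v (S ||| 2 ^ v) (k + 1))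

theorem enum_ok : enum 19 0 0 = true := by decide +kernel

def Rch (R : ℕ) : ℕ → ℕ → Prop :=
  Relation.ReflTransGen (fun a b => (A a).testBit b = true ∧ R.testBit b = true)

lemma fold_ok (R r : ℕ) (l : List ℕ) : ∀ m : ℕ, (∀ w, m.testBit w = true → Rch R r w) →
    ∀ w, (l.foldl (step R) m).testBit w = true → Rch R r w := by
  induction l with
  | nil => intro m hm; simpa using hm
  | cons v l ih =>
    intro m hm
    simp only [List.foldl_cons]
    apply ih
    intro w hw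
    unfold step at hw
    split_ifs at hw with hv
    · rw [Nat.testBit_or, Nat.testBit_and, Bool.or_eq_true, Bool.and_eq_true] at hw
      rcases hw with hw | hw
      · exact hm w hw
      · exact (hm v hv).tail hw
    · exact hm w hw

lemma cnt_ok (R : ℕ) : ∀ v seen, ∃ roots : Finset ℕ, roots.card ≤ cnt R v seen ∧
    (∀ r ∈ roots, r < v ∧ R.testBit r = true) ∧
    ∀ w < v, R.testBit w = true → seen.testBit w = true ∨ ∃ r ∈ roots, Rch R r w := by
  intro v
  induction v with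
  | zero => intro seen; exact ⟨∅, by simp, by simp, by simp⟩
  | succ v ih =>
    intro seen
    unfold cnt
    split_ifs with hv
    · obtain ⟨roots, h1, h2, h3⟩ := ih (seen ||| clos R (2 ^ v))
      simp only [Bool.and_eq_true] at hv
      refine ⟨insert v roots, (Finset.card_insert_le _ _).trans (by omega), ?_, ?_⟩
      · intro r hr
        rcases Finset.mem_insert.mp hr with rfl | hr
        · exact ⟨by omega, hv.1⟩
        · exact ⟨by have := (h2 r hr).1; omega, (h2 r hr).2⟩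
      · intro w hw hR
        rcases Nat.lt_succ_iff_lt_or_eq.mp hw with hw | rfl
        · rcases h3 w hw hR with h | ⟨r, hr, h⟩
          · rw [Nat.testBit_or, Bool.or_eq_true] at h
            rcases h with h | h
            · exact Or.inl h
            · refine Or.inr ⟨v, Finset.mem_insert_self _ _, fold_ok R v ord _ ?_ w h⟩
              intro x hx
              rw [Nat.testBit_two_pow] at hx
              have : v = x := by simpa using hx
              subst this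
              exact Relation.ReflTransGen.refl
          · exact Or.inr ⟨r, Finset.mem_insert_of_mem hr, h⟩
        · exact Or.inr ⟨w, Finset.mem_insert_self _ _, Relation.ReflTransGen.refl⟩
    · obtain ⟨roots, h1, h2, h3⟩ := ih seen
      refine ⟨roots, h1, fun r hr => ⟨by have := (h2 r hr).1; omega, (h2 r hr).2⟩, ?_⟩
      intro w hw hR
      rcases Nat.lt_succ_iff_lt_or_eq.mp hw with hw | rfl
      · exact h3 w hw hR
      · left
        simpa [hR] using hv

lemma enum_sound (f : ℕ → Bool) (hf : ∀ i j, f i = true → f j = true → (A i).testBit j = false) :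
    ∀ v S k, (∀ j, S.testBit j = true → f j = true) → enum v S k = true →
      ∃ M K, (∀ j, M.testBit j = true ↔ S.testBit j = true ∨ (j < v ∧ f j = true)) ∧
        K = k + ((Finset.range v).filter (fun j => f j = true)).card ∧
        (K = 0 ∨ cnt ((2 ^ 19 - 1) ^^^ M) 19 0 ≤ K) := by
  intro v
  induction v with
  | zero =>
    intro S k _ h
    refine ⟨S, k, by simp, by simp, ?_⟩
    simpa [enum] using h
  | succ v ih =>
    intro S k hS h
    simp only [enum, Bool.and_eq_true, Bool.or_eq_true] at h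
    by_cases hv : f v = true
    · have h0 : A v &&& S = 0 := by
        apply Nat.eq_of_testBit_eq
        intro j
        rw [Nat.testBit_and, Nat.zero_testBit]
        cases hj : S.testBit j
        · simp
        · simp [hf v j hv (hS j hj)]
      have h2 : enum v (S ||| 2 ^ v) (k + 1) = true := by
        rcases h.2 with h2 | h2
        · simp [h0] at h2
        · exact h2
      obtain ⟨M, K, h3, h4, h5⟩ := ih (S ||| 2 ^ v) (k + 1) (by
        intro j hj
        rw [Nat.testBit_or, Bool.or_eq_true, Nat.testBit_two_pow] at hj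
        rcases hj with hj | hj
        · exact hS j hj
        · have : v = j := by simpa using hj
          exact this ▸ hv) h2
      refine ⟨M, K, ?_, ?_, h5⟩
      · intro j
        rw [h3, Nat.testBit_or, Bool.or_eq_true, Nat.testBit_two_pow]
        constructor
        · rintro ((h | h) | h)
          · exact Or.inl h
          · have : v = j := by simpa using h
            exact Or.inr ⟨by omega, this ▸ hv⟩
          · exact Or.inr ⟨by omega, h.2⟩
        · rintro (h | ⟨h, h'⟩)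
          · exact Or.inl (Or.inl h)
          · rcases Nat.lt_succ_iff_lt_or_eq.mp h with h | rfl
            · exact Or.inr ⟨h, h'⟩
            · exact Or.inl (Or.inr (by simp))
      · rw [h4, Finset.range_add_one, Finset.filter_insert, if_pos hv,
          Finset.card_insert_of_notMem (by simp)]
        omega
    · obtain ⟨M, K, h3, h4, h5⟩ := ih S k hS h.1
      refine ⟨M, K, ?_, ?_, h5⟩
      · intro j
        rw [h3]
        constructor
        · rintro (h | h)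
          · exact Or.inl h
          · exact Or.inr ⟨by omega, h.2⟩
        · rintro (h | ⟨h, h'⟩)
          · exact Or.inl h
          · rcases Nat.lt_succ_iff_lt_or_eq.mp h with h | rfl
            · exact Or.inr ⟨h, h'⟩
            · exact absurd h' hv
      · rw [h4, Finset.range_add_one, Finset.filter_insert, if_neg hv]

lemma A_lt : ∀ i : Fin 19, A i < 2 ^ 19 := by decide

theorem tough (S : Finset (Fin 19)) (hne : S.Nonempty) (hS : G.IsIndepSet (S : Set (Fin 19))) :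
    Nat.card (G.induce ((S : Set (Fin 19))ᶜ)).ConnectedComponent ≤ S.card := by
  classical
  let f : ℕ → Bool := fun j => decide (j ∈ S.map Fin.valEmbedding)
  have hfm : ∀ j, f j = true ↔ ∃ a ∈ S, (a : ℕ) = j := by
    intro j; simp [f]
  obtain ⟨M, K, h3, h4, h5⟩ := enum_sound f (by
    intro i j hi hj
    obtain ⟨a, ha, rfl⟩ := (hfm i).mp hi
    obtain ⟨b, hb, rfl⟩ := (hfm j).mp hj
    by_cases hab : a = b
    · subst hab
      have : ¬ G.Adj a a := G.irrefl
      exact Bool.eq_false_iff.mpr this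
    · have := hS ha hb hab
      simpa [G] using this) 19 0 0 (by simp) enum_ok
  have hK : K = S.card := by
    rw [h4, zero_add, ← Finset.card_map Fin.valEmbedding]
    congr 1
    ext j
    simp only [Finset.mem_filter, Finset.mem_range, hfm, Finset.mem_map, Fin.valEmbedding_apply]
    constructor
    · exact fun h => h.2
    · rintro ⟨a, ha, rfl⟩
      exact ⟨a.2, a, ha, rfl⟩
  have hpos := hne.card_pos
  have h6 : cnt ((2 ^ 19 - 1) ^^^ M) 19 0 ≤ S.card := by omega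
  set R := (2 ^ 19 - 1) ^^^ M with hR
  have hRm : ∀ a : Fin 19, R.testBit a = true ↔ a ∉ S := by
    intro a
    rw [hR, Nat.testBit_xor, Nat.testBit_two_pow_sub_one]
    have h7 := h3 a
    simp only [Nat.zero_testBit, Bool.false_eq_true, false_or, a.2, true_and, hfm] at h7
    have h8 : (∃ b ∈ S, (b : ℕ) = a) ↔ a ∈ S :=
      ⟨fun ⟨b, hb, h⟩ => Fin.ext h ▸ hb, fun h => ⟨a, h, rfl⟩⟩
    rw [h8] at h7
    cases hM : M.testBit a <;> simp [← h7, hM, a.2]
  obtain ⟨roots, h1, h2, h9⟩ := cnt_ok R 19 0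
  have key : ∀ (r w : ℕ), Rch R r w → ∀ hr : r < 19, ∃ hw : w < 19,
      Relation.ReflTransGen (fun a b => G.Adj a b ∧ b ∈ ((S : Set (Fin 19))ᶜ))
        ⟨r, hr⟩ ⟨w, hw⟩ := by
    intro r w h hr
    induction h with
    | refl => exact ⟨hr, Relation.ReflTransGen.refl⟩
    | @tail b c _ hbc ih =>
      obtain ⟨hb, hp⟩ := ih
      have hc : c < 19 := by
        by_contra hc
        have h10 := Nat.testBit_lt_two_pow (lt_of_lt_of_le (A_lt ⟨b, hb⟩)
          (Nat.pow_le_pow_right (by norm_num) (not_lt.mp hc)))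
        simp only at h10
        rw [hbc.1] at h10
        exact absurd h10 (by simp)
      refine ⟨hc, hp.tail ⟨hbc.1, ?_⟩⟩
      simpa using (hRm ⟨c, hc⟩).mp hbc.2
  refine le_trans (upper G _ (Finset.univ.filter fun a : Fin 19 => (a : ℕ) ∈ roots) ?_)
    (le_trans ?_ (h1.trans h6))
  · intro v hv
    rcases h9 v v.2 ((hRm v).mpr (by simpa using hv)) with h | ⟨r, hr, h⟩
    · simp at h
    · obtain ⟨hw, hp⟩ := key r v h (h2 r hr).1
      refine ⟨⟨r, (h2 r hr).1⟩, by simpa using hr, ?_, hp⟩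
      simpa using (hRm ⟨r, (h2 r hr).1⟩).mp (h2 r hr).2
  · exact Finset.card_le_card_of_injOn (fun a => (a : ℕ)) (by intro a ha; simpa using ha)
      (fun a _ b _ h => Fin.ext h)

def certs : List (ℕ × ℕ × ℕ × List ℕ) :=
  [(0, 1, 299016, [1, 2, 2, 0, 1, 1, 3, 3, 3, 3, 3, 3, 0, 4, 4, 0, 5, 5, 0]),
   (0, 5, 299016, [1, 1, 1, 0, 2, 2, 3, 3, 3, 3, 3, 3, 0, 4, 4, 0, 5, 5, 0]),
   (0, 15, 262720, [1, 1, 1, 1, 1, 1, 0, 2, 2, 0, 3, 3, 4, 4, 4, 4, 4, 4, 0]),
   (1, 2, 262153, [0, 1, 2, 0, 3, 3, 4, 4, 4, 4, 4, 4, 4, 4, 4, 4, 4, 4, 0]),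
   (1, 18, 299018, [1, 0, 2, 0, 1, 1, 3, 3, 3, 3, 3, 3, 0, 4, 4, 0, 5, 5, 0]),
   (2, 3, 262721, [0, 1, 1, 2, 2, 2, 0, 3, 3, 0, 4, 4, 5, 5, 5, 5, 5, 5, 0]),
   (2, 18, 262725, [0, 1, 0, 2, 2, 2, 0, 3, 3, 0, 4, 4, 5, 5, 5, 5, 5, 5, 0]),
   (3, 4, 262721, [0, 1, 1, 1, 2, 2, 0, 3, 3, 0, 4, 4, 5, 5, 5, 5, 5, 5, 0]),
   (3, 6, 299008, [1, 1, 1, 1, 1, 1, 2, 2, 2, 2, 2, 2, 0, 3, 3, 0, 4, 4, 0]),
   (4, 5, 262153, [0, 1, 1, 0, 2, 3, 4, 4, 4, 4, 4, 4, 4, 4, 4, 4, 4, 4, 0]),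
   (4, 18, 262737, [0, 1, 1, 1, 0, 2, 0, 3, 3, 0, 4, 4, 5, 5, 5, 5, 5, 5, 0]),
   (5, 18, 299048, [1, 1, 1, 0, 2, 0, 3, 3, 3, 3, 3, 3, 0, 4, 4, 0, 5, 5, 0]),
   (6, 7, 262665, [0, 1, 1, 0, 2, 2, 3, 4, 4, 0, 3, 3, 5, 5, 5, 5, 5, 5, 0]),
   (6, 11, 262665, [0, 1, 1, 0, 2, 2, 3, 3, 3, 0, 4, 4, 5, 5, 5, 5, 5, 5, 0]),
   (7, 8, 262720, [1, 1, 1, 1, 1, 1, 0, 2, 3, 0, 4, 4, 1, 1, 1, 1, 1, 1, 0]),
   (7, 18, 262793, [0, 1, 1, 0, 2, 2, 3, 0, 4, 0, 3, 3, 5, 5, 5, 5, 5, 5, 0]),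
   (8, 9, 299072, [1, 1, 1, 1, 1, 1, 0, 2, 2, 3, 3, 3, 0, 4, 4, 0, 5, 5, 0]),
   (8, 18, 299328, [1, 1, 1, 1, 1, 1, 0, 2, 0, 3, 3, 3, 0, 4, 4, 0, 5, 5, 0]),
   (9, 10, 299072, [1, 1, 1, 1, 1, 1, 0, 2, 2, 2, 3, 3, 0, 4, 4, 0, 5, 5, 0]),
   (9, 12, 262153, [0, 1, 1, 0, 2, 2, 3, 3, 3, 3, 3, 3, 4, 4, 4, 4, 4, 4, 0]),
   (10, 11, 262720, [1, 1, 1, 1, 1, 1, 0, 2, 2, 0, 3, 4, 1, 1, 1, 1, 1, 1, 0]),
   (10, 18, 300096, [1, 1, 1, 1, 1, 1, 0, 2, 2, 2, 0, 3, 0, 4, 4, 0, 5, 5, 0]),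
   (11, 18, 264713, [0, 1, 1, 0, 2, 2, 3, 3, 3, 0, 4, 0, 5, 5, 5, 5, 5, 5, 0]),
   (12, 13, 295488, [1, 1, 1, 1, 1, 1, 0, 2, 2, 0, 3, 3, 4, 5, 5, 0, 4, 4, 0]),
   (12, 17, 295488, [1, 1, 1, 1, 1, 1, 0, 2, 2, 0, 3, 3, 4, 4, 4, 0, 5, 5, 0]),
   (13, 14, 299008, [1, 1, 1, 1, 1, 1, 1, 1, 1, 1, 1, 1, 0, 2, 3, 0, 4, 4, 0]),
   (13, 18, 303680, [1, 1, 1, 1, 1, 1, 0, 2, 2, 0, 3, 3, 4, 0, 5, 0, 4, 4, 0]),
   (14, 15, 266249, [0, 1, 1, 0, 2, 2, 3, 3, 3, 3, 3, 3, 0, 4, 4, 5, 5, 5, 0]),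
   (14, 18, 282633, [0, 1, 1, 0, 2, 2, 3, 3, 3, 3, 3, 3, 0, 4, 0, 5, 5, 5, 0]),
   (15, 16, 266249, [0, 1, 1, 0, 2, 2, 3, 3, 3, 3, 3, 3, 0, 4, 4, 4, 5, 5, 0]),
   (16, 17, 299008, [1, 1, 1, 1, 1, 1, 1, 1, 1, 1, 1, 1, 0, 2, 2, 0, 3, 4, 0]),
   (16, 18, 331785, [0, 1, 1, 0, 2, 2, 3, 3, 3, 3, 3, 3, 0, 4, 4, 4, 0, 5, 0]),
   (17, 18, 426560, [1, 1, 1, 1, 1, 1, 0, 2, 2, 0, 3, 3, 4, 4, 4, 0, 5, 0, 0])]

def cert (u v : ℕ) : ℕ × List ℕ :=
  ((certs.find? fun c => (c.1 == u && c.2.1 == v) || (c.1 == v && c.2.1 == u)).map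
    fun c => c.2.2).getD (0, [])

def cS (u v : Fin 19) : Finset (Fin 19) := Finset.univ.filter fun i => (cert u v).1.testBit i = true
def cφ (u v : Fin 19) (i : Fin 19) : ℕ := (cert u v).2.getD i 0

def okDel (u v : Fin 19) : Prop :=
  (cS u v).Nonempty ∧ (∀ a ∈ cS u v, ∀ b ∈ cS u v, ¬ G.Adj a b) ∧
  (∀ a b, a ∉ cS u v → b ∉ cS u v → G.Adj a b → (a = u ∧ b = v) ∨ (a = v ∧ b = u) ∨
    cφ u v a = cφ u v b) ∧
  (cS u v).card < ((cS u v)ᶜ.image (cφ u v)).card

def okCon (u v : Fin 19) : Prop :=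
  u ∈ cS u v ∧ v ∈ cS u v ∧
  (∀ a ∈ cS u v, ∀ b ∈ cS u v, G.Adj a b → (a = u ∧ b = v) ∨ (a = v ∧ b = u)) ∧
  (∀ a b, a ∉ cS u v → b ∉ cS u v → G.Adj a b → cφ u v a = cφ u v b) ∧
  (cS u v).card ≤ ((cS u v)ᶜ.image (cφ u v)).card

set_option synthInstance.maxSize 5000 in
instance (u v : Fin 19) : Decidable (okDel u v) := by unfold okDel; infer_instance
set_option synthInstance.maxSize 5000 in
instance (u v : Fin 19) : Decidable (okCon u v) := by unfold okCon; infer_instance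

theorem all_bad : ∀ u v : Fin 19, G.Adj u v → okDel u v ∨ okCon u v := by decide +kernel

theorem deg : ∀ x : Fin 19, 3 ≤ G.degree x := by decide +kernel

theorem del_fails (u v : Fin 19) (h : okDel u v) :
    ¬ (∀ S : Finset (Fin 19), S.Nonempty →
          (G.deleteEdges {s(u, v)}).IsIndepSet (S : Set (Fin 19)) →
          Nat.card ((G.deleteEdges {s(u, v)}).induce ((S : Set (Fin 19))ᶜ)).ConnectedComponent
            ≤ S.card) := by
  intro H
  obtain ⟨h1, h2, h3, h4⟩ := h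
  have h5 := H (cS u v) h1 (by
    intro a ha b hb _ hab
    exact h2 a ha b hb (SimpleGraph.deleteEdges_adj.mp hab).1)
  have h6 := lower (G.deleteEdges {s(u, v)}) ((cS u v : Set (Fin 19))ᶜ) (cφ u v) (by
    intro a b ha hb hab
    obtain ⟨hab1, hab2⟩ := SimpleGraph.deleteEdges_adj.mp hab
    rcases h3 a b (by simpa using ha) (by simpa using hb) hab1 with ⟨rfl, rfl⟩ | ⟨rfl, rfl⟩ | h
    · simp at hab2
    · simp [Sym2.eq_swap] at hab2
    · exact h) ((cS u v)ᶜ.image (cφ u v)) (by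
    intro c hc
    obtain ⟨a, ha, rfl⟩ := Finset.mem_image.mp hc
    exact ⟨a, by simpa using ha, rfl⟩)
  omega

theorem con_fails (u v : Fin 19) (huv : G.Adj u v) (h : okCon u v) :
    ¬ (∀ S : Finset {w : Fin 19 // w ≠ v}, S.Nonempty →
          (SimpleGraph.fromRel (fun a b : {w : Fin 19 // w ≠ v} =>
              G.Adj a.1 b.1 ∨ (a.1 = u ∧ G.Adj v b.1))).IsIndepSet
            (S : Set {w : Fin 19 // w ≠ v}) →
          Nat.card ((SimpleGraph.fromRel (fun a b : {w : Fin 19 // w ≠ v} =>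
              G.Adj a.1 b.1 ∨ (a.1 = u ∧ G.Adj v b.1))).induce
              ((S : Set {w : Fin 19 // w ≠ v})ᶜ)).ConnectedComponent ≤ S.card) := by
  intro H
  obtain ⟨hu, hv, h2, h3, h4⟩ := h
  have hne : u ≠ v := huv.ne
  let S : Finset {w : Fin 19 // w ≠ v} := (cS u v).subtype (fun w => w ≠ v)
  have hm : ∀ a : {w : Fin 19 // w ≠ v}, a ∈ S ↔ a.1 ∈ cS u v := fun a => Finset.mem_subtype
  have hone : ∀ a b : {w : Fin 19 // w ≠ v}, a ∈ S → b ∈ S → a ≠ b →
      ¬ (G.Adj a.1 b.1 ∨ (a.1 = u ∧ G.Adj v b.1)) := by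
    rintro a b ha hb hab (h | ⟨h, h'⟩)
    · rcases h2 _ ((hm a).mp ha) _ ((hm b).mp hb) h with ⟨_, h⟩ | ⟨h, _⟩
      · exact b.2 h
      · exact a.2 h
    · rcases h2 _ hv _ ((hm b).mp hb) h' with ⟨h'', _⟩ | ⟨_, h''⟩
      · exact hne h''.symm
      · exact hab (Subtype.ext (h.trans h''.symm))
  have h5 := H S ⟨⟨u, hne⟩, (hm _).mpr hu⟩ (by
    intro a ha b hb hab hadj
    rw [SimpleGraph.fromRel_adj] at hadj
    rcases hadj.2 with h | h
    · exact hone a b ha hb hab h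
    · exact hone b a hb ha hab.symm h)
  have hcard : S.card + 1 = (cS u v).card := by
    rw [Finset.card_subtype, Finset.filter_ne', Finset.card_erase_add_one hv]
  have h6 := lower (SimpleGraph.fromRel (fun a b : {w : Fin 19 // w ≠ v} =>
      G.Adj a.1 b.1 ∨ (a.1 = u ∧ G.Adj v b.1))) ((S : Set {w : Fin 19 // w ≠ v})ᶜ)
      (fun a => cφ u v a.1) (by
    intro a b ha hb hab
    have ha' : a.1 ∉ cS u v := fun h => ha ((hm a).mpr h)
    have hb' : b.1 ∉ cS u v := fun h => hb ((hm b).mpr h)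
    rw [SimpleGraph.fromRel_adj] at hab
    rcases hab.2 with (h | ⟨h, _⟩) | (h | ⟨h, _⟩)
    · exact h3 _ _ ha' hb' h
    · exact absurd (h ▸ hu) ha'
    · exact (h3 _ _ hb' ha' h).symm
    · exact absurd (h ▸ hu) hb') ((cS u v)ᶜ.image (cφ u v)) (by
    intro c hc
    obtain ⟨a, ha, rfl⟩ := Finset.mem_image.mp hc
    have ha' : a ∉ cS u v := by simpa using ha
    exact ⟨⟨a, fun h => ha' (h ▸ hv)⟩, fun h => ha' ((hm _).mp h), rfl⟩)
  omega

end Pool.Agent.H25.Tough
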