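import Mathlib

namespace H25.Wk

/-- No sum of `k` distinct elements of `A` equals a sum of `l` distinct elements of `A`. -/
def WF {n : ℕ} (A : Finset (ZMod n)) (k l : ℕ) : Prop :=
  ∀ B ⊆ A, ∀ C ⊆ A, B.card = k → C.card = l → ∑ x ∈ B, x ≠ ∑ x ∈ C, x

/-- The positive `n` for which `ZMod n` has a weakly `(k,l)`-sum-free set of size at least `m`. -/
def Good (m k l : ℕ) : Set ℕ := {n | 0 < n ∧ ∃ A : Finset (ZMod n), m ≤ A.card ∧ WF A k l}

end H25.Wk
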