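import Mathlib
import Pool.Agent.H25.Rm3
import Pool.Agent.H25.WkDefs

namespace H25.Wk

open Finset Pointwise H25.Harb Pool.Agent.H2.Kneser

theorem boxv (e s c : ℕ) (he : 0 < e) (hc : c ≤ e) : ∀ a ∈ box e s c,
    (ZMod.castHom (dvd_mul_right e s) (ZMod e) a).val < c := by
  have : NeZero e := ⟨he.ne'⟩
  intro a ha
  obtain ⟨q, hq, rfl⟩ := mem_image.1 ha
  have := mem_range.1 (mem_product.1 hq).1
  rw [map_natCast, ZMod.val_natCast, Nat.add_mul_mod_self_left, Nat.mod_eq_of_lt (by omega)]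
  exact this

theorem constr0 (e s c k : ℕ) (he : 0 < e) (hs : 0 < s) (A : Finset (ZMod (e * s)))
    (hAc : A.card = k + 2) (ψ : ZMod (e * s) →+* ZMod e) (hv : ∀ a ∈ A, (ψ a).val < c)
    (x : ZMod e) (hx : ∀ i j l : ZMod e, i.val < c → j.val < c → l.val < c →
      i + j + l + 3 * x ≠ ψ (∑ a ∈ A, a) + (k + 2 : ℕ) * x) : e * s ∈ Good (k + 2) k 1 := by
  have : NeZero e := ⟨he.ne'⟩
  set y : ZMod (e * s) := ((x.val : ℕ) : ZMod (e * s)) with hy
  have hxy : ψ y = x := by rw [hy, map_natCast, ZMod.natCast_zmod_val]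
  have hi : Function.Injective (fun a : ZMod (e * s) => a + y) := add_left_injective y
  have hc2 : (A.image fun a => a + y).card = k + 2 := by rw [card_image_of_injective _ hi, hAc]
  refine ⟨Nat.mul_pos he hs, A.image fun a => a + y, hc2.ge, fun B hB C hC h1 h2 e1 => ?_⟩
  obtain ⟨z, rfl⟩ := card_eq_one.1 h2
  obtain ⟨a, b, hab, e2⟩ := card_eq_two.1
    (show ((A.image fun a => a + y) \ B).card = 2 by rw [card_sdiff_of_subset hB]; omega)
  have e3 := sum_sdiff (f := fun x => x) hB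
  rw [e2, sum_pair hab, e1, sum_singleton, sum_image (fun _ _ _ _ h => hi h), sum_add_distrib,
    sum_const, hAc, nsmul_eq_mul] at e3
  obtain ⟨a', ha, rfl⟩ := mem_image.1 (mem_sdiff.1 (e2 ▸ mem_insert_self a {b})).1
  obtain ⟨b', hb, rfl⟩ := mem_image.1
    (mem_sdiff.1 (e2 ▸ mem_insert_of_mem (mem_singleton_self b))).1
  obtain ⟨z', hz, rfl⟩ := mem_image.1 (hC (mem_singleton_self z))
  apply hx _ _ _ (hv a' ha) (hv b' hb) (hv z' hz)
  have e4 := congrArg ψ e3
  simp only [map_add, map_mul, map_natCast, hxy] at e4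
  rw [← e4]; ring

theorem constr (e s c k : ℕ) (he : 0 < e) (hs : 0 < s) (hc : c ≤ e) (hm : k + 2 ≤ c * s)
    (H : ∀ v : ZMod e, ∃ x : ZMod e, ∀ i j l : ZMod e, i.val < c → j.val < c → l.val < c →
      i + j + l + 3 * x ≠ v + (k + 2 : ℕ) * x) : e * s ∈ Good (k + 2) k 1 := by
  obtain ⟨A, hA, hAc⟩ := exists_subset_card_eq (s := box e s c) (n := k + 2)
    (by rw [box_eq e s c hc]; exact hm)
  obtain ⟨x, hx⟩ := H (ZMod.castHom (dvd_mul_right e s) (ZMod e) (∑ a ∈ A, a))
  exact constr0 e s c k he hs A hAc _ (fun a ha => boxv e s c he hc a (hA ha)) x hx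

theorem constr5 (q : ℕ) : 5 * (5 * q + 9) ∈ Good (10 * q + 11 + 2) (10 * q + 11) 1 := by
  set ψ := ZMod.castHom (dvd_mul_right 5 (5 * q + 9)) (ZMod 5) with hψ
  have b1 := box_eq 5 (5 * q + 9) 1 (by omega)
  have z0 : ∀ a ∈ box 5 (5 * q + 9) 1, ψ a = 0 := fun a ha =>
    (ZMod.val_eq_zero _).1 (Nat.lt_one_iff.1 (boxv 5 _ 1 (by omega) (by omega) a ha))
  obtain ⟨A, hA, hAc⟩ := exists_subset_card_eq (s := box 5 (5 * q + 9) 1) (n := 5 * q + 4)
    (by omega)
  set B := (box 5 (5 * q + 9) 1).image fun a => a + 1 with hB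
  have hBc : B.card = 5 * q + 9 := by
    rw [card_image_of_injective _ (add_left_injective 1), b1, one_mul]
  have z1 : ∀ a ∈ B, ψ a = 1 := fun a ha => by
    obtain ⟨b, hb, rfl⟩ := mem_image.1 ha
    rw [map_add, z0 b hb, map_one, zero_add]
  have hd : Disjoint A B := disjoint_left.2 fun a h1 h2 =>
    absurd ((z0 a (hA h1)).symm.trans (z1 a h2)) (by decide)
  refine constr0 5 _ 2 _ (by omega) (by omega) (A ∪ B)
    (by rw [card_union_of_disjoint hd]; omega) ψ (fun a ha => ?_) 0 ?_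
  · rcases mem_union.1 ha with h | h
    · rw [z0 a (hA h)]; decide
    · rw [z1 a h]; decide
  · rw [sum_union hd, map_add, map_sum, map_sum, sum_eq_zero (fun a ha => z0 a (hA ha)),
      sum_congr rfl z1, sum_const, hBc, nsmul_eq_mul, mul_zero, mul_zero,
      show ((5 * q + 9 : ℕ) : ZMod 5) = ((4 : ℕ) : ZMod 5) from
        (ZMod.natCast_eq_natCast_iff' _ _ _).2 (by omega)]
    decide

theorem low (k n : ℕ) (hk : 2 ≤ k) (h : n ∈ Good (k + 2) k 1) :
    (n.Prime → 3 * k + 2 < n) ∧ 2 * (k + 2) ≤ n ∧ (k % 2 = 1 → 19 ≤ k →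
      5 * (k + 3) ≤ 2 * n ∧ (k % 10 = 1 → 81 ≤ k → 5 * (k + 7) ≤ 2 * n)) := by
  obtain ⟨hn, A0, hA0, hW⟩ := h
  have : NeZero n := ⟨hn.ne'⟩
  obtain ⟨A, hA, hAc⟩ := exists_subset_card_eq hA0
  set t := ∑ a ∈ A, a with ht
  have key : ∀ a ∈ A, ∀ b ∈ A, ∀ c ∈ A, a ≠ b → a + b + c ≠ t := by
    intro a ha b hb c hc hab e
    have hs : ({a, b} : Finset (ZMod n)) ⊆ A := insert_subset ha (singleton_subset_iff.2 hb)
    refine hW (A \ {a, b}) (sdiff_subset.trans hA) {c} (singleton_subset_iff.2 (hA hc))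
      (by rw [card_sdiff_of_subset hs, card_pair hab]; omega) (card_singleton _) ?_
    have e3 := sum_sdiff (f := fun x => x) hs
    rw [sum_pair hab, ← ht, ← e] at e3
    rw [sum_singleton]; linear_combination e3
  have h3 : (A.filter fun c => c + c + c = t).card ≤ 3 := by
    rcases (A.filter fun c => c + c + c = t).eq_empty_or_nonempty with e | ⟨c0, hc0⟩
    · rw [e]; simp
    refine le_trans ?_ (IsAddCyclic.card_nsmul_eq_zero_le (α := ZMod n) (show 0 < 3 by omega))
    apply card_le_card_of_injOn (fun c => c - c0) _ sub_left_injective.injOn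
    intro c hc
    refine mem_coe.2 (mem_filter.2 ⟨mem_univ _, ?_⟩)
    have e1 := (mem_filter.1 (mem_coe.1 hc)).2
    have e2 := (mem_filter.1 hc0).2
    rw [nsmul_eq_mul]; push_cast; linear_combination e1 - e2
  have h3' : n.Prime → 3 < n → (A.filter fun c => c + c + c = t).card ≤ 1 := by
    intro hp h4
    have := Fact.mk hp
    refine card_le_one.2 fun a ha b hb => ?_
    have e3 : ((3 : ℕ) : ZMod n) ≠ 0 := fun e =>
      absurd (Nat.le_of_dvd (by omega) ((ZMod.natCast_eq_zero_iff _ _).1 e)) (by omega)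
    apply mul_left_cancel₀ e3
    push_cast; linear_combination (mem_filter.1 ha).2 - (mem_filter.1 hb).2
  have hsp := card_filter_add_card_filter_not (s := A) (fun c => c + c + c = t)
  set J := A.filter fun c => ¬ c + c + c = t with hJ
  have hJA : J ⊆ A := filter_subset _ _
  have hne : J.Nonempty := card_pos.1 (by omega)
  have hAne := hne.mono hJA
  have hT : t ∉ A + A + J := by
    intro hh
    obtain ⟨v, hv, c, hc, e⟩ := mem_add.1 hh
    obtain ⟨a, ha, b, hb, rfl⟩ := mem_add.1 hv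
    by_cases e1 : a = b
    · subst e1
      by_cases e2 : a = c
      · subst e2; exact (mem_filter.1 hc).2 e
      · exact key a ha c (hJA hc) a ha e2 (by rw [← e]; ring)
    · exact key a ha b hb c (hJA hc) e1 e
  have kn := k3 hAne hAne hne
  have sg := sg_st (A + A + J)
  have pT := per_st (A + A + J)
  set K := st (A + A + J) with hK
  obtain ⟨d, hd⟩ := Per.card_dvd sg (fun x hx k hk => mem_univ _ : Per K univ)
  obtain ⟨w, hw⟩ := pT.card_dvd sg
  obtain ⟨c', hc'⟩ := (sg.per_add J).card_dvd sg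
  obtain ⟨c, hc⟩ := (sg.per_add A).card_dvd sg
  have h1 := card_le_card (sg.subset_add J)
  have h2 := card_le_card (sg.subset_add A)
  have h4 := card_le_card (add_subset_add_right hJA : J + K ⊆ A + K)
  have h5 := card_lt_card (s := A + A + J) (t := univ) ⟨subset_univ _, fun e => hT (e (mem_univ _))⟩
  have hs0 := sg.pos
  rw [card_univ, ZMod.card] at hd h5
  have q1 : w < d := Nat.lt_of_mul_lt_mul_left (a := K.card) (by omega)
  have q2 : c + c + c' ≤ w + 2 :=
    Nat.le_of_mul_le_mul_left (c := K.card) (by rw [mul_add, mul_add, mul_add]; omega) hs0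
  have q3 : c' ≤ c := Nat.le_of_mul_le_mul_left (c := K.card) (by omega) hs0
  have q4 : 0 < c' := Nat.pos_of_ne_zero fun e => by rw [e] at hc'; omega
  have q5 := Nat.mul_le_mul_left K.card (show 2 * c ≤ d by omega)
  rw [Nat.mul_left_comm] at q5
  refine ⟨fun hp => ?_, by omega, fun hk1 hk2 => ?_⟩
  · have := h3' hp (by omega)
    rcases (Nat.dvd_prime hp).1 ⟨d, hd⟩ with e | e
    · rw [e] at hd hw hc hc' kn; omega
    · have := Nat.mul_le_mul_left K.card (show 2 ≤ d by omega)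
      omega
  let K' : AddSubgroup (ZMod n) := ⟨⟨⟨K, fun ha hb => sg.add ha hb⟩, sg.zero⟩, fun ha => sg.neg ha⟩
  have hK' : Nat.card K' = K.card := Nat.subtype_card K (fun _ => Iff.rfl)
  have hi' : K'.index = d := by
    have := K'.card_mul_index
    rw [hK', Nat.card_zmod] at this
    exact Nat.eq_of_mul_eq_mul_left hs0 (this.trans hd)
  by_cases p1 : c' < c
  · have := Nat.mul_le_mul_left K.card (show 3 * c' + 1 ≤ d by omega)
    rw [mul_add, Nat.mul_left_comm] at this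
    omega
  by_cases p2 : 3 ≤ c
  · have := Nat.mul_le_mul_left K.card (show 8 * c ≤ 3 * d by omega)
    rw [Nat.mul_left_comm, Nat.mul_left_comm K.card] at this
    omega
  by_cases p3 : c = 2
  · have := Nat.mul_le_mul_left K.card (show 5 ≤ d by omega)
    rw [p3] at hc
    refine ⟨by omega, fun hk3 hk4 => ?_⟩
    by_cases p7 : 6 ≤ d
    · have := Nat.mul_le_mul_left K.card p7
      omega
    have p8 : d = 5 := by omega
    rw [p8] at hi' hd
    rw [show c' = 2 by omega] at hc'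
    by_contra hlt
    obtain ⟨x, hx⟩ := hne
    obtain ⟨y', hy', hy2⟩ := exists_mem_notMem_of_card_lt_card (s := x +ᵥ K) (t := J + K)
      (by rw [card_vadd_finset]; omega)
    obtain ⟨y, hy, k0, hk0, rfl⟩ := mem_add.1 hy'
    have hdis : Disjoint (x +ᵥ K) (y +ᵥ K) := disjoint_left.2 fun a a1 a2 => hy2 (by
      have := sg.add (sg.add (sg.mem_coset.1 a1) (sg.neg (sg.mem_coset.1 a2))) hk0
      rw [sg.mem_coset]; convert this using 1; ring)
    have he : (x +ᵥ K) ∪ (y +ᵥ K) = A + K := eq_of_subset_of_card_le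
      (union_subset (vadd_finset_subset_add (hJA hx)) (vadd_finset_subset_add (hJA hy)))
      (by rw [card_union_of_disjoint hdis, card_vadd_finset, card_vadd_finset]; omega)
    have s1 : (A.filter fun a => a ∈ x +ᵥ K) ⊆ x +ᵥ K := fun a ha => (mem_filter.1 ha).2
    have s2 : (A.filter fun a => ¬ a ∈ x +ᵥ K) ⊆ y +ᵥ K := fun a ha =>
      (mem_union.1 (he ▸ sg.subset_add A (mem_filter.1 ha).1)).resolve_left (mem_filter.1 ha).2
    have t0 := card_filter_add_card_filter_not (s := A) (fun a => a ∈ x +ᵥ K)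
    have t3 := sum_filter_add_sum_filter_not A (fun a => a ∈ x +ᵥ K) (fun a => a)
    have t1 := card_le_card s1
    have t2 := card_le_card s2
    rw [card_vadd_finset] at t1 t2
    have e1 := K'.sum_mem (t := A.filter fun a => a ∈ x +ᵥ K) (f := fun a => a - x)
      fun a ha => sg.mem_coset.1 (s1 ha)
    have e2 := K'.sum_mem (t := A.filter fun a => ¬ a ∈ x +ᵥ K) (f := fun a => a - y)
      fun a ha => sg.mem_coset.1 (s2 ha)
    have e3 := K'.nsmul_mem (K'.nsmul_index_mem x) (k / 10)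
    have e4 := K'.nsmul_mem (K'.nsmul_index_mem y) (k / 10)
    have e5 := K'.add_mem (K'.add_mem e1 e2) (K'.add_mem e3 e4)
    rw [sum_sub_distrib, sum_sub_distrib, sum_const, sum_const, hi'] at e5
    rw [← ht] at t3
    generalize (A.filter fun a => a ∈ x +ᵥ K).card = u at *
    generalize (A.filter fun a => ¬ a ∈ x +ᵥ K).card = v at *
    have hq : k = 10 * (k / 10) + 1 := by omega
    generalize k / 10 = q at e5 hq
    have fin : ∀ a ∈ J, ∀ b ∈ J, ∀ g ∈ J, (u : ZMod n) * x + v * y =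
        a + b + g + 5 * q * x + 5 * q * y → False := by
      intro a ha b hb g hg e
      apply hT
      convert pT _ (add_mem_add (add_mem_add (hJA ha) (hJA hb)) hg) _ e5 using 1
      simp only [nsmul_eq_mul]; push_cast; linear_combination e - t3
    have : (u = 5 * q + 3 ∧ v = 5 * q) ∨ (u = 5 * q + 2 ∧ v = 5 * q + 1) ∨
      (u = 5 * q + 1 ∧ v = 5 * q + 2) ∨ (u = 5 * q ∧ v = 5 * q + 3) := by omega
    rcases this with ⟨rfl, rfl⟩ | ⟨rfl, rfl⟩ | ⟨rfl, rfl⟩ | ⟨rfl, rfl⟩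
    · exact fin x hx x hx x hx (by push_cast; ring)
    · exact fin x hx x hx y hy (by push_cast; ring)
    · exact fin x hx y hy y hy (by push_cast; ring)
    · exact fin y hy y hy y hy (by push_cast; ring)
  have p4 : c = 1 := by omega
  rw [p4] at hc
  by_cases p5 : 3 ≤ d
  · have := Nat.mul_le_mul_left K.card p5
    omega
  have p6 : d = 2 := by omega
  exfalso
  rw [p6] at hi'
  obtain ⟨x, hx⟩ := hne
  have he : x +ᵥ K = A + K := eq_of_subset_of_card_le (vadd_finset_subset_add (hJA hx))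
    (by rw [hc, mul_one, card_vadd_finset])
  have e1 : ∑ a ∈ A, (a - x) ∈ K' :=
    K'.sum_mem fun a ha => sg.mem_coset.1 (he ▸ sg.subset_add A ha)
  have e2 := K'.nsmul_mem (K'.nsmul_index_mem x) (k / 2)
  have e3 := pT _ (add_mem_add (add_mem_add (hJA hx) (hJA hx)) hx) _ (K'.add_mem e1 e2)
  apply hT
  convert e3 using 1
  obtain ⟨j, rfl⟩ : ∃ j, k = 2 * j + 1 := ⟨k / 2, by omega⟩
  rw [sum_sub_distrib, sum_const, hAc, hi', show (2 * j + 1) / 2 = j by omega, ← ht]
  simp only [nsmul_eq_mul]; push_cast; ring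

theorem fpart (k : ℕ) :
    (k % 2 = 0 → 2 ≤ k → IsLeast (Good (k + 2) k 1) (2 * k + 4)) ∧
    (k % 2 = 1 → 19 ≤ k → k % 10 ≠ 1 → IsLeast (Good (k + 2) k 1) (5 * (k + 3) / 2)) ∧
    (k % 10 = 1 → 81 ≤ k → IsLeast (Good (k + 2) k 1) (5 * (k + 7) / 2)) := by
  refine ⟨fun h1 h2 => ⟨?_, fun n hn => by have := (low k n h2 hn).2.1; omega⟩,
    fun h1 h2 h3 => ⟨?_, fun n hn => by have := ((low k n (by omega) hn).2.2 h1 h2).1; omega⟩,
    fun h1 h2 => ⟨?_, fun n hn => by
      have := ((low k n (by omega) hn).2.2 (by omega) (by omega)).2 h1 h2; omega⟩⟩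
  · rw [show 2 * k + 4 = 2 * (k + 2) by ring]
    refine constr 2 (k + 2) 1 k (by omega) (by omega) (by omega) (by omega) ?_
    rw [show ((k + 2 : ℕ) : ZMod 2) = 0 from (ZMod.natCast_eq_zero_iff _ _).2 (by omega)]
    decide
  · rw [show 5 * (k + 3) / 2 = 5 * ((k + 3) / 2) by omega]
    refine constr 5 _ 2 k (by omega) (by omega) (by omega) (by omega) ?_
    have : ((k + 2 : ℕ) : ZMod 5) ≠ ((3 : ℕ) : ZMod 5) := by
      rw [Ne, ZMod.natCast_eq_natCast_iff']; omega
    generalize ((k + 2 : ℕ) : ZMod 5) = u at *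
    revert u
    decide +kernel
  · obtain ⟨q, rfl⟩ : ∃ q, k = 10 * q + 11 := ⟨(k - 11) / 10, by omega⟩
    rw [show 5 * (10 * q + 11 + 7) / 2 = 5 * (5 * q + 9) by omega]
    exact constr5 q

theorem constrI (n k L : ℕ) (hn : 3 * L ≤ n) (h0 : 0 < n) (hL : L < n) (S : Finset ℕ)
    (hS : S.card = k + 2) (hSL : ∀ a ∈ S, a ≤ L) (y : ZMod n)
    (hy : ((∑ a ∈ S, a : ℕ) : ZMod n) + (k - 1) * y = 0) : n ∈ Good (k + 2) k 1 := by
  have hi : Set.InjOn (fun a : ℕ => (a : ZMod n) + y) S := fun a ha b hb h => by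
    have e := congrArg ZMod.val (add_right_cancel h)
    have := hSL a ha
    have := hSL b hb
    rwa [ZMod.val_cast_of_lt (by omega), ZMod.val_cast_of_lt (by omega)] at e
  have hc2 : (S.image fun a : ℕ => (a : ZMod n) + y).card = k + 2 := by
    rw [card_image_of_injOn hi, hS]
  refine ⟨h0, S.image fun a : ℕ => (a : ZMod n) + y, hc2.ge, fun B hB C hC h1 h2 e1 => ?_⟩
  obtain ⟨z, rfl⟩ := card_eq_one.1 h2
  obtain ⟨a, b, hab, e2⟩ := card_eq_two.1 (show ((S.image fun a : ℕ => (a : ZMod n) + y) \ B).card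
    = 2 by rw [card_sdiff_of_subset hB]; omega)
  have e3 := sum_sdiff (f := fun x => x) hB
  rw [e2, sum_pair hab, e1, sum_singleton, sum_image hi, sum_add_distrib,
    sum_const, hS, nsmul_eq_mul] at e3
  obtain ⟨a', ha, rfl⟩ := mem_image.1 (mem_sdiff.1 (e2 ▸ mem_insert_self a {b})).1
  obtain ⟨b', hb, rfl⟩ := mem_image.1
    (mem_sdiff.1 (e2 ▸ mem_insert_of_mem (mem_singleton_self b))).1
  obtain ⟨z', hz, rfl⟩ := mem_image.1 (hC (mem_singleton_self z))
  have e4 : a' ≠ b' := fun e => hab (by rw [e])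
  have e5 : ((a' + b' + z' : ℕ) : ZMod n) = 0 := by
    push_cast at e3 hy ⊢; linear_combination e3 + hy
  have := hSL _ ha
  have := hSL _ hb
  have := hSL _ hz
  have := Nat.le_of_dvd (by omega) ((ZMod.natCast_eq_zero_iff _ _).1 e5)
  omega

theorem big (k n : ℕ) (hk : 2 ≤ k) (hn : 3 * k + 6 ≤ n) : n ∈ Good (k + 2) k 1 := by
  obtain ⟨u, rfl⟩ : ∃ u, k = u + 1 := ⟨k - 1, by omega⟩
  set T := ∑ a ∈ range (u + 4), a with hT
  have hj : T % u ∈ range (u + 4) := mem_range.2 (by have := Nat.mod_lt T (show 0 < u by omega); omega)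
  have e1 := add_sum_erase (range (u + 4)) (fun a => a) hj
  have e2 := Nat.mod_add_div T u
  refine constrI n _ (u + 3) (by omega) (by omega) (by omega) ((range (u + 4)).erase (T % u))
    (by rw [card_erase_of_mem hj, card_range]; omega)
    (fun a ha => by have := mem_range.1 (mem_of_mem_erase ha); omega) (-(T / u : ℕ)) ?_
  rw [show ∑ a ∈ (range (u + 4)).erase (T % u), a = u * (T / u) by omega]
  push_cast; ring

theorem cop (k n : ℕ) (hk : 2 ≤ k) (hn : 3 * k + 3 ≤ n) (h : Nat.Coprime (k - 1) n) :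
    n ∈ Good (k + 2) k 1 := by
  obtain ⟨u, rfl⟩ : ∃ u, k = u + 1 := ⟨k - 1, by omega⟩
  rw [Nat.add_sub_cancel] at h
  have e := ZMod.coe_mul_inv_eq_one u h
  refine constrI n _ (u + 2) (by omega) (by omega) (by omega) (range (u + 3)) (card_range _)
    (fun a ha => by have := mem_range.1 ha; omega)
    (-((u : ZMod n)⁻¹ * ((∑ a ∈ range (u + 3), a : ℕ) : ZMod n))) ?_
  generalize ((∑ a ∈ range (u + 3), a : ℕ) : ZMod n) = v
  push_cast; linear_combination (-v) * e

theorem cop2 (j n : ℕ) (hn : 3 * (4 * j + 3) + 3 ≤ n) (h : Nat.Coprime (2 * j + 1) n) :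
    n ∈ Good (4 * j + 3 + 2) (4 * j + 3) 1 := by
  have e := ZMod.coe_mul_inv_eq_one _ h
  have e2 : ∑ a ∈ range (4 * j + 5), a = 2 * ((4 * j + 5) * (j + 1)) := by
    have := sum_range_id_mul_two (4 * j + 5)
    rw [show 4 * j + 5 - 1 = 4 * j + 4 by omega] at this
    nlinarith
  refine constrI n _ (4 * j + 4) (by omega) (by omega) (by omega) (range (4 * j + 5))
    (card_range _) (fun a ha => by have := mem_range.1 ha; omega)
    (-(((2 * j + 1 : ℕ) : ZMod n)⁻¹ * (((4 * j + 5) * (j + 1) : ℕ) : ZMod n))) ?_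
  rw [e2]
  generalize ((2 * j + 1 : ℕ) : ZMod n)⁻¹ = w at *
  push_cast at e ⊢; linear_combination (-2 * ((4 * (j : ZMod n) + 5) * (j + 1))) * e

theorem allparts (k : ℕ) (hk : 2 ≤ k) :
    (k % 2 = 0 → IsLeast (Good (k + 2) k 1) (2 * k + 4)) ∧
    (k % 2 = 1 → 19 ≤ k → k % 10 ≠ 1 → IsLeast (Good (k + 2) k 1) (5 * (k + 3) / 2)) ∧
    (k % 10 = 1 → 81 ≤ k → IsLeast (Good (k + 2) k 1) (5 * (k + 7) / 2)) ∧
    (∀ n, 3 * k + 6 ≤ n → n ∈ Good (k + 2) k 1) ∧
    (∀ p, p.Prime → p ≤ 3 * k + 2 → p ∉ Good (k + 2) k 1) ∧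
    (k % 2 = 0 → Nat.Coprime (k - 1) 21 → (3 * k + 1).Prime →
      IsLeast {g : ℕ | ∀ n, g ≤ n → n ∈ Good (k + 2) k 1} (3 * k + 2)) ∧
    (k % 4 = 3 → Nat.Coprime (k - 1) 21 → (3 * k + 2).Prime →
      IsLeast {g : ℕ | ∀ n, g ≤ n → n ∈ Good (k + 2) k 1} (3 * k + 3)) := by
  have hp : ∀ p, p.Prime → p ≤ 3 * k + 2 → p ∉ Good (k + 2) k 1 := fun p h1 h2 h3 => by
    have := (low k p hk h3).1 h1; omega
  refine ⟨fun h => (fpart k).1 h hk, (fpart k).2.1, (fpart k).2.2, fun n => big k n hk, hp,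
    fun h1 h2 h3 => ⟨fun n hn => ?_, fun g hg => ?_⟩,
    fun h1 h2 h3 => ⟨fun n hn => ?_, fun g hg => ?_⟩⟩
  · by_cases c1 : 3 * k + 6 ≤ n
    · exact big k n hk c1
    by_cases c2 : n = 3 * k + 2
    · rw [c2, show 3 * k + 2 = 2 * (3 * (k / 2) + 1) by omega]
      by_cases c3 : k = 2
      · subst c3; exact ((fpart 2).1 rfl le_rfl).1
      refine constr 2 _ 1 k (by omega) (by omega) (by omega) (by omega) ?_
      rw [show ((k + 2 : ℕ) : ZMod 2) = 0 from (ZMod.natCast_eq_zero_iff _ _).2 (by omega)]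
      decide
    refine cop k n hk (by omega) (Nat.coprime_of_dvd fun r hr d1 d2 => ?_)
    have d3 : r ∣ n - 3 * (k - 1) := Nat.dvd_sub d2 (d1.mul_left 3)
    have n3 : r ≠ 3 := fun e => by
      have := Nat.dvd_gcd d1 (show r ∣ 21 by rw [e]; decide); rw [h2, e] at this; omega
    have n7 : r ≠ 7 := fun e => by
      have := Nat.dvd_gcd d1 (show r ∣ 21 by rw [e]; decide); rw [h2, e] at this; omega
    have n2 : r ≠ 2 := fun e => by rw [e] at d1; omega
    have := Nat.le_of_dvd (by omega) d3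
    have r8 : r ≤ 8 := by omega
    interval_cases r <;> first | omega | exact absurd hr (by decide)
  · by_contra hlt
    exact hp _ h3 (by omega) (hg _ (by omega))
  · by_cases c1 : 3 * k + 6 ≤ n
    · exact big k n hk c1
    obtain ⟨j, rfl⟩ : ∃ j, k = 4 * j + 3 := ⟨k / 4, by omega⟩
    refine cop2 j n hn (Nat.coprime_of_dvd fun r hr d0 d2 => ?_)
    have d1 : r ∣ 4 * j + 3 - 1 := by
      rw [show 4 * j + 3 - 1 = 2 * (2 * j + 1) by omega]; exact d0.mul_left 2
    have d3 : r ∣ n - 3 * (4 * j + 3 - 1) := Nat.dvd_sub d2 (d1.mul_left 3)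
    have n3 : r ≠ 3 := fun e => by
      have := Nat.dvd_gcd d1 (show r ∣ 21 by rw [e]; decide); rw [h2, e] at this; omega
    have n7 : r ≠ 7 := fun e => by
      have := Nat.dvd_gcd d1 (show r ∣ 21 by rw [e]; decide); rw [h2, e] at this; omega
    have n2 : r ≠ 2 := fun e => by rw [e] at d0; omega
    have := Nat.le_of_dvd (by omega) d3
    have r8 : r ≤ 8 := by omega
    interval_cases r <;> first | omega | exact absurd hr (by decide)
  · by_contra hlt
    exact hp _ h3 (by omega) (hg _ (by omega))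

end H25.Wk
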